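import Pool.Agent.N1.W4

/-!
N1, block W for a general class of densities: from the dyadic `L^4` estimate to the spheres of all
dimensions.
-/

namespace Pool.Agent.N1

open MeasureTheory Set Metric Pool.Agent.MP_6cbfb8_an Pool.Agent.MST
open scoped ENNReal Real

/-- The density `G(x₁, x₂)` on the disc of radius `√(1 - c ^ 2)`. -/
noncomputable def dsk (c : ℝ) (G : ℝ → ℝ → ℂ) (w : E 2) : ℂ :=
  if w 0 ^ 2 + w 1 ^ 2 < 1 - c ^ 2 then G (w 0) (w 1) else 0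

/-- A function of two variables as a function on the plane. -/
noncomputable def pl (G : ℝ → ℝ → ℂ) (w : E 2) : ℂ := G (w 0) (w 1)

/-- The dyadic `L^4` estimate for a class of densities. -/
def L4C (c : ℝ) (cls : (ℝ → ℝ → ℂ) → Prop) : Prop := ∃ C : ℝ, 0 ≤ C ∧ ∃ k : ℕ, ∀ T : ℝ, 1 ≤ T →
  ∀ G : ℝ → ℝ → ℂ, Measurable (Function.uncurry G) → (∀ a b, ‖G a b‖ ≤ 1) → cls G →
    ∫⁻ t in {t : ℝ | T ≤ |t| ∧ |t| ≤ 2 * T}, ∫⁻ x : E 2,
      ‖op2 (hft_a c) idM t (fun w => G (w 0) (w 1)) x‖ₑ ^ (4:ℝ) ≤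
      ENNReal.ofReal (C * (1 + Real.log T) ^ k / T)

theorem pl_meas (G : ℝ → ℝ → ℂ) (h : Measurable (Function.uncurry G)) : Measurable (pl G) := by
  unfold pl
  exact h.comp (f := fun w : E 2 => (w 0, w 1)) (by fun_prop)

theorem pl_norm (G : ℝ → ℝ → ℂ) (h : ∀ a b, ‖G a b‖ ≤ 1) (w : E 2) : ‖pl G w‖ ≤ 1 := h _ _

theorem log_pow_le_gen (β : ℝ) (hβ : β < 1) (k : ℕ) : ∃ K : ℝ, 0 ≤ K ∧ ∀ T : ℝ, 1 ≤ T →
    (1 + Real.log T) ^ k / T ≤ K * T ^ (-β) := by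
  set ε : ℝ := (1 - β) / (k + 1) with hε
  have hk : (0:ℝ) ≤ k := Nat.cast_nonneg k
  have hε0 : 0 < ε := by rw [hε]; apply div_pos <;> linarith
  refine ⟨(1 + 1 / ε) ^ k, by positivity, fun T hT => ?_⟩
  have hT0 : 0 < T := by linarith
  have h1 : Real.log T ≤ T ^ ε / ε := Real.log_le_rpow_div hT0.le hε0
  have h2 : 1 ≤ T ^ ε := Real.one_le_rpow hT hε0.le
  have h3 : 1 + Real.log T ≤ (1 + 1 / ε) * T ^ ε := by
    have : (1 + 1 / ε) * T ^ ε = T ^ ε + T ^ ε / ε := by ring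
    rw [this]
    linarith
  have h4 : 0 ≤ 1 + Real.log T := by linarith [Real.log_nonneg hT]
  have h5 : (1 + Real.log T) ^ k ≤ ((1 + 1 / ε) * T ^ ε) ^ k := pow_le_pow_left₀ h4 h3 k
  have h6 : (T ^ ε) ^ k ≤ T ^ (1 - β) := by
    rw [← Real.rpow_natCast (T ^ ε) k, ← Real.rpow_mul hT0.le]
    apply Real.rpow_le_rpow_of_exponent_le hT
    rw [hε]
    have : (1 - β) / (k + 1) * k = (1 - β) * (k / (k + 1)) := by ring
    rw [this]
    have h7 : (k:ℝ) / (k + 1) ≤ 1 := by rw [div_le_one (by linarith)]; linarith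
    nlinarith
  rw [div_le_iff₀ hT0]
  calc (1 + Real.log T) ^ k ≤ (1 + 1 / ε) ^ k * (T ^ ε) ^ k := by rw [← mul_pow]; exact h5
    _ ≤ (1 + 1 / ε) ^ k * T ^ (1 - β) := by gcongr
    _ = (1 + 1 / ε) ^ k * T ^ (-β) * T := by
        rw [mul_assoc]
        congr 1
        rw [← Real.rpow_add_one hT0.ne']
        congr 1
        ring

theorem cls_Lp_lt (c : ℝ) (hc : 0 < c) (cls : (ℝ → ℝ → ℂ) → Prop) (h : L4C c cls) (p : ℝ)
    (hp : 3 < p) (hp4 : p < 4) : ∃ C : ℝ≥0∞, C ≠ ∞ ∧ ∀ G : ℝ → ℝ → ℂ,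
    Measurable (Function.uncurry G) → (∀ a b, ‖G a b‖ ≤ 1) → cls G →
    ∫⁻ t : ℝ, ∫⁻ x : E 2, ‖op2 (hft_a c) idM t (pl G) x‖ₑ ^ p ≤ C := by
  obtain ⟨C, hC, k, H⟩ := h
  set β : ℝ := ((4 - p) / (p - 2) + 1) / 2 with hβ
  have hp2 : 0 < p - 2 := by linarith
  have hq : (4 - p) / (p - 2) < 1 := by rw [div_lt_one hp2]; linarith
  have hβ1 : β < 1 := by rw [hβ]; linarith
  have hβ2 : 4 - p < β * (p - 2) := by
    have : (4 - p) / (p - 2) < β := by rw [hβ]; linarith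
    rwa [div_lt_iff₀ hp2] at this
  obtain ⟨K, hK, hKT⟩ := log_pow_le_gen β hβ1 k
  obtain ⟨Cs, hCs, hsum⟩ := time_sum (Measure.dirac ()) (volume : Measure (E 2)) p β (by linarith)
    hp4 hβ2
  obtain ⟨C0, hC0, hb0⟩ := op2_bounds 2 (c ^ 2 / 4) (by positivity) (hft_a c) (hft_cut hc) 1
  have hR : ∀ w : E 2, hft_a c (vN idM w) ≠ 0 → ‖w‖ ≤ 1 := by
    intro w hw
    have h1 : ¬ (vN idM w ≤ c ^ 2 / 4) := fun h2 => hw ((hft_cut hc).2 _ h2)
    push Not at h1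
    unfold vN at h1
    rw [mv_idM] at h1
    have h2 : ‖w‖ ^ 2 < 1 := by nlinarith [sq_nonneg c]
    nlinarith [norm_nonneg w]
  refine ⟨Cs * (ENNReal.ofReal C0 ^ (p - 2) * ENNReal.ofReal C0 +
    ENNReal.ofReal C0 ^ ((4 - p) / 2) * ENNReal.ofReal (C * K) ^ ((p - 2) / 2)), ?_, ?_⟩
  · refine ENNReal.mul_ne_top hCs (ENNReal.add_ne_top.2 ⟨ENNReal.mul_ne_top ?_ ENNReal.ofReal_ne_top,
      ENNReal.mul_ne_top ?_ ?_⟩)
    · exact ENNReal.rpow_ne_top_of_nonneg (by linarith) ENNReal.ofReal_ne_top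
    · exact ENNReal.rpow_ne_top_of_nonneg (by linarith) ENNReal.ofReal_ne_top
    · exact ENNReal.rpow_ne_top_of_nonneg (by linarith) ENNReal.ofReal_ne_top
  intro G hG b hcls
  have hbd := fun t : ℝ => hb0 idM hR t (pl G) (pl_meas G hG) (pl_norm G b)
  have hm : Measurable fun q : Unit × ℝ × E 2 => op2 (hft_a c) idM q.2.1 (pl G) q.2.2 :=
    (measurable_op2 _ _ (hft_cut hc) (pl G) (pl_meas G hG)).comp
      (f := fun q : Unit × ℝ × E 2 => ((idM, q.2.1, q.2.2) : Mat 2 × ℝ × E 2)) (by fun_prop)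
  have key := hsum (fun _ t x => op2 (hft_a c) idM t (pl G) x) hm
    (ENNReal.ofReal C0) (ENNReal.ofReal C0) (ENNReal.ofReal (C * K))
    (fun _ t => (hbd t).2) (fun _ t x => by
      rw [← ofReal_norm]
      exact ENNReal.ofReal_le_ofReal ((hbd t).1 x)) (fun T hT => by
      rw [lintegral_dirac]
      refine (H T hT G hG b hcls).trans ?_
      rw [← ENNReal.ofReal_mul (by positivity)]
      apply ENNReal.ofReal_le_ofReal
      calc C * (1 + Real.log T) ^ k / T = C * ((1 + Real.log T) ^ k / T) := by ring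
        _ ≤ C * (K * T ^ (-β)) := mul_le_mul_of_nonneg_left (hKT T hT) hC
        _ = C * K * T ^ (-β) := by ring)
  rw [lintegral_dirac] at key
  exact key

theorem cls_Lp (c : ℝ) (hc : 0 < c) (cls : (ℝ → ℝ → ℂ) → Prop) (h : L4C c cls) (p : ℝ)
    (hp : 3 < p) : ∃ C : ℝ≥0∞, C ≠ ∞ ∧ ∀ G : ℝ → ℝ → ℂ,
    Measurable (Function.uncurry G) → (∀ a b, ‖G a b‖ ≤ 1) → cls G →
    ∫⁻ t : ℝ, ∫⁻ x : E 2, ‖op2 (hft_a c) idM t (pl G) x‖ₑ ^ p ≤ C := by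
  rcases lt_or_ge p 4 with hp4 | hp4
  · exact cls_Lp_lt c hc cls h p hp hp4
  · obtain ⟨C, hC, H⟩ := cls_Lp_lt c hc cls h (7 / 2) (by norm_num) (by norm_num)
    obtain ⟨C0, hC0, hb0⟩ := op2_bounds 2 (c ^ 2 / 4) (by positivity) (hft_a c) (hft_cut hc) 1
    have hR : ∀ w : E 2, hft_a c (vN idM w) ≠ 0 → ‖w‖ ≤ 1 := by
      intro w hw
      have h1 : ¬ (vN idM w ≤ c ^ 2 / 4) := fun h2 => hw ((hft_cut hc).2 _ h2)
      push Not at h1
      unfold vN at h1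
      rw [mv_idM] at h1
      have h2 : ‖w‖ ^ 2 < 1 := by nlinarith [sq_nonneg c]
      nlinarith [norm_nonneg w]
    have hK : ENNReal.ofReal C0 ^ (p - 7 / 2) ≠ ∞ :=
      ENNReal.rpow_ne_top_of_nonneg (by linarith) ENNReal.ofReal_ne_top
    refine ⟨ENNReal.ofReal C0 ^ (p - 7 / 2) * C, ENNReal.mul_ne_top hK hC, ?_⟩
    intro G hG b hcls
    have hbd := fun t : ℝ => hb0 idM hR t (pl G) (pl_meas G hG) (pl_norm G b)
    calc ∫⁻ t : ℝ, ∫⁻ x : E 2, ‖op2 (hft_a c) idM t (pl G) x‖ₑ ^ p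
        ≤ ∫⁻ t : ℝ, ENNReal.ofReal C0 ^ (p - 7 / 2) *
            ∫⁻ x : E 2, ‖op2 (hft_a c) idM t (pl G) x‖ₑ ^ (7 / 2 : ℝ) := by
          refine lintegral_mono fun t => ?_
          rw [← lintegral_const_mul' _ _ hK]
          refine lintegral_mono fun x => ?_
          have h3 : ‖op2 (hft_a c) idM t (pl G) x‖ₑ ≤ ENNReal.ofReal C0 := by
            rw [← ofReal_norm]
            exact ENNReal.ofReal_le_ofReal ((hbd t).1 x)
          have h4 : p = (p - 7 / 2) + 7 / 2 := by ring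
          show ‖op2 (hft_a c) idM t (pl G) x‖ₑ ^ p ≤ _
          conv_lhs => rw [h4]
          rw [ENNReal.rpow_add_of_nonneg _ _ (by linarith) (by norm_num)]
          gcongr
          linarith
      _ = ENNReal.ofReal C0 ^ (p - 7 / 2) * ∫⁻ t : ℝ,
            ∫⁻ x : E 2, ‖op2 (hft_a c) idM t (pl G) x‖ₑ ^ (7 / 2 : ℝ) :=
          lintegral_const_mul' _ _ hK
      _ ≤ ENNReal.ofReal C0 ^ (p - 7 / 2) * C := by
          gcongr
          exact H G hG b hcls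

theorem cls_base3 (c : ℝ) (hc : 0 < c) (cls : (ℝ → ℝ → ℂ) → Prop) (h : L4C c cls) (p : ℝ)
    (hp : 3 < p) : ∃ C : ℝ≥0∞, C ≠ ∞ ∧ ∀ G : ℝ → ℝ → ℂ,
    Measurable (Function.uncurry G) → (∀ a b, ‖G a b‖ ≤ 1) → cls G →
    ∫⁻ ξ : E 3, ‖extn (hft_D (m := 2) c (pl G) idM) ξ‖ₑ ^ p ≤ C := by
  obtain ⟨C, hC, H⟩ := cls_Lp c hc cls h p hp
  obtain ⟨C', hC', H'⟩ := chart_two 2 (by norm_num) idM idM (fun w => by rw [mv_idM, mv_idM])
    (fun w => by rw [mv_idM, mv_idM]) (c ^ 2 / 4) (by positivity) (hft_a c) (hft_b c) (hft_cut hc)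
    (hft_b_smooth _ 0).continuous.measurable (fun v _ _ => rfl) p (by linarith)
  refine ⟨C' * C, ENNReal.mul_ne_top hC' hC, ?_⟩
  intro G hG b hcls
  refine (H' (pl G) (pl_meas G hG) (pl_norm G b)).trans ?_
  gcongr
  exact H G hG b hcls

theorem dsk_meas (c : ℝ) (G : ℝ → ℝ → ℂ) (h : Measurable (Function.uncurry G)) :
    Measurable (dsk c G) := by
  unfold dsk
  refine Measurable.ite ?_ (pl_meas G h) measurable_const
  exact measurableSet_lt (by fun_prop) measurable_const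

theorem dsk_norm (c : ℝ) (G : ℝ → ℝ → ℂ) (h : ∀ a b, ‖G a b‖ ≤ 1) (w : E 2) :
    ‖dsk c G w‖ ≤ 1 := by
  unfold dsk
  split_ifs
  · exact h _ _
  · simp

theorem cls_up_eq (c : ℝ) (hc : 0 < c) (G : ℝ → ℝ → ℂ) (ξ : E 3) :
    extn (up 1 (dsk c G)) ξ = extn (fun x : E 3 =>
      hft_D (m := 2) c (pl G) idM x * ∏ _i : Fin 1, hsn c (eLast 2) x) ξ := by
  unfold extn
  congr 1
  funext x
  congr 1
  have hx : ‖(x : E 3)‖ = 1 := by
    exact mem_sphere_zero_iff_norm.1 x.2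
  have hx2 : (x : E 3) 0 ^ 2 + (x : E 3) 1 ^ 2 + (x : E 3) 2 ^ 2 = 1 := by
    have h1 := EuclideanSpace.norm_sq_eq (x : E 3)
    rw [hx] at h1
    simp only [Fin.sum_univ_three, Real.norm_eq_abs, sq_abs] at h1
    linarith
  have hlast : (x : E 3) (Fin.last 2) = (x : E 3) 2 := rfl
  show up 1 (dsk c G) (x : E 3) =
    hft_D (m := 2) c (pl G) idM (x : E 3) *
      ∏ _i : Fin 1, hsn c (eLast 2) (x : E 3)
  rw [Fin.prod_univ_one]
  unfold up dsk hft_D hsn pl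
  rw [inner_eLast, mv_idM, one_smul, hlast]
  have f0 : (fstE (k := 2) (l := 1) (x : E 3) : E 2) 0 = (x : E 3) 0 := rfl
  have f1 : (fstE (k := 2) (l := 1) (x : E 3) : E 2) 1 = (x : E 3) 1 := rfl
  rw [f0, f1]
  by_cases h2 : c < (x : E 3) 2
  · rw [if_pos (hc.trans h2), if_pos (hc.trans h2), if_pos h2, hft_b_one hc h2.le]
    have h3 : (x : E 3) 0 ^ 2 + (x : E 3) 1 ^ 2 < 1 - c ^ 2 := by nlinarith
    rw [if_pos h3]
    simp
  · rw [if_neg h2, mul_zero]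
    by_cases h3 : 0 < (x : E 3) 2
    · rw [if_pos h3, if_neg]
      intro h4
      nlinarith
    · rw [if_neg h3]

theorem cls_up3 (c : ℝ) (hc : 0 < c) (cls : (ℝ → ℝ → ℂ) → Prop) (h : L4C c cls) (p : ℝ)
    (hp : 3 < p) : ∃ C : ℝ≥0∞, C ≠ ∞ ∧ ∀ G : ℝ → ℝ → ℂ,
    Measurable (Function.uncurry G) → (∀ a b, ‖G a b‖ ≤ 1) → cls G →
    ∫⁻ ξ : E 3, ‖extn (up 1 (dsk c G)) ξ‖ₑ ^ p ≤ C := by
  obtain ⟨C, hC, H⟩ := multicut 3 le_rfl 3 (by norm_num)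
    (fun g => ∃ G : ℝ → ℝ → ℂ, Measurable (Function.uncurry G) ∧ (∀ a b, ‖G a b‖ ≤ 1) ∧ cls G ∧
      g = hft_D (m := 2) c (pl G) idM) (by
      intro p' hp'
      obtain ⟨C, hC, H⟩ := cls_base3 c hc cls h p' hp'
      refine ⟨C, hC, ?_⟩
      rintro g - - ⟨G, h1, b1, s1, rfl⟩
      exact H G h1 b1 s1) 1 p hp
  refine ⟨C, hC, ?_⟩
  intro G h1 b1 s1
  have key := H (hft_D (m := 2) c (pl G) idM)
    (hft_D_meas c _ (pl_meas _ h1) idM) (hft_D_norm c _ (pl_norm _ b1) idM)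
    ⟨G, h1, b1, s1, rfl⟩
    (fun _ => eLast 2) (fun _ => c)
  refine le_trans (le_of_eq ?_) key
  refine lintegral_congr fun ξ => ?_
  rw [cls_up_eq c hc]

theorem cls_sph3 (c : ℝ) (hc : 0 < c) (cls : (ℝ → ℝ → ℂ) → Prop) (h : L4C c cls) (p : ℝ)
    (hp : 3 < p) : ∃ C : ℝ≥0∞, C ≠ ∞ ∧ ∀ G : E 2 → ℂ, Measurable G → (∀ w, ‖G w‖ ≤ 1) →
      (∃ F : ℝ → ℝ → ℂ, Measurable (Function.uncurry F) ∧ (∀ a b, ‖F a b‖ ≤ 1) ∧ cls F ∧
        G = dsk c F) →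
      ∫⁻ ξ : E 3, ‖extn (fun x : E 3 => G (fstE (k := 2) (l := 1) x)) ξ‖ₑ ^ p ≤ C := by
  obtain ⟨C, hC, H⟩ := cls_up3 c hc cls h p hp
  refine ⟨2 ^ (p + 1) * C, ENNReal.mul_ne_top (ENNReal.rpow_ne_top_of_nonneg (by linarith)
    ENNReal.ofNat_ne_top) hC, ?_⟩
  rintro G hG hb ⟨F, h1, b1, s1, rfl⟩
  have h3 := dens_le p (by linarith) 1 (dsk c F) hG hb
  have h4 : dens 1 (dsk c F) = fun x : E 3 => dsk c F (fstE (k := 2) (l := 1) x) := by
    funext x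
    unfold dens
    rw [one_smul]
  rw [h4] at h3
  refine h3.trans ?_
  gcongr
  exact H F h1 b1 s1

theorem dsk_meas2 {W : Type*} [MeasurableSpace W] (l : ℕ) (c : ℝ) (G : W → ℝ → ℝ → ℂ)
    (h1 : Measurable fun q : W × (ℝ × ℝ) => G q.1 q.2.1 q.2.2) :
    Measurable fun q : W × E (2 + l) => dsk c (G q.1) (fstE q.2) := by
  unfold dsk
  have a1 : Measurable fun q : W × E (2 + l) => (fstE q.2 : E 2) 0 := by
    unfold fstE
    fun_prop
  have a2 : Measurable fun q : W × E (2 + l) => (fstE q.2 : E 2) 1 := by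
    unfold fstE
    fun_prop
  have b1 : Measurable fun q : W × E (2 + l) =>
      G q.1 ((fstE q.2 : E 2) 0) ((fstE q.2 : E 2) 1) :=
    h1.comp (measurable_fst.prodMk (a1.prodMk a2))
  refine Measurable.ite ?_ b1 measurable_const
  exact measurableSet_lt ((a1.pow_const 2).add (a2.pow_const 2)) measurable_const

theorem class_main (l : ℕ) (hl : 1 ≤ l) (N : ℕ) (c p : ℝ) (hc : 0 < c)
    (cls : (ℝ → ℝ → ℂ) → Prop) (h : L4C c cls) (hp : 2 * ((l : ℝ) + 2) / (l + 1) < p) :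
    ∃ C : ℝ≥0∞, C ≠ ⊤ ∧ ∀ (W : Type) (_ : MeasurableSpace W) (ν : Measure W)
      (_ : IsFiniteMeasure ν) (R : W → (E (2 + l) ≃ₗᵢ[ℝ] E (2 + l))) (η : W → E (2 + l))
      (G : W → ℝ → ℝ → ℂ) (v : W → Fin N → E (2 + l)) (e : W → Fin N → ℝ),
      (Measurable fun q : W × E (2 + l) => R q.1 q.2) → Measurable η →
      (Measurable fun q : W × (ℝ × ℝ) => G q.1 q.2.1 q.2.2) →
      Measurable v → Measurable e → (∀ w a b, ‖G w a b‖ ≤ 1) → (∀ w, cls (G w)) →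
      ∫⁻ ξ, ‖extn (mix ν R η fun w x =>
        dsk c (G w) (fstE x) * ∏ i, hsn (e w i) (v w i) x) ξ‖ₑ ^ p ≤ C * ν univ ^ p := by
  obtain ⟨C, hC, H⟩ := transfer (fun G => ∃ F : ℝ → ℝ → ℂ, Measurable (Function.uncurry F) ∧
    (∀ a b, ‖F a b‖ ≤ 1) ∧ cls F ∧ G = dsk c F) (fun p hp => cls_sph3 c hc cls h p hp)
    l hl N p hp
  refine ⟨C, hC, ?_⟩
  intro W _ ν _ R η G v e hR hη h1 hv he b1 s1
  have hp1 : 1 ≤ p := by
    have hl1 : (1:ℝ) ≤ l := by exact_mod_cast hl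
    refine le_trans ?_ hp.le
    rw [le_div_iff₀ (by linarith)]
    linarith
  refine lintegral_mix_le hp1 (fun g => ∃ (F : ℝ → ℝ → ℂ) (v' : Fin N → E (2 + l))
    (e' : Fin N → ℝ), Measurable (Function.uncurry F) ∧ (∀ a b, ‖F a b‖ ≤ 1) ∧ cls F ∧
    g = fun x => dsk c F (fstE x) * ∏ i, hsn (e' i) (v' i) x) ?_ ν R η _ hR hη ?_ ?_ ?_
  · rintro g - - ⟨F, v', e', m1, n1, s, rfl⟩
    exact H (dsk c F) (dsk_meas c _ m1) (dsk_norm c _ n1)
      ⟨F, m1, n1, s, rfl⟩ v' e'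
  · have k1 := dsk_meas2 l c G h1
    have k2 : Measurable fun q : W × E (2 + l) => ∏ i, hsn (e q.1 i) (v q.1 i) q.2 := by
      refine Finset.measurable_prod _ fun i _ => ?_
      unfold hsn
      refine Measurable.ite ?_ measurable_const measurable_const
      have h3 : Measurable fun q : W × E (2 + l) => e q.1 i :=
        (measurable_pi_iff.1 he i).comp measurable_fst
      have h4 : Measurable fun q : W × E (2 + l) => v q.1 i :=
        (measurable_pi_iff.1 hv i).comp measurable_fst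
      exact measurableSet_lt h3 (measurable_snd.inner h4)
    exact k1.mul k2
  · intro w x
    rw [norm_mul]
    exact mul_le_one₀ (dsk_norm c _ (b1 w) _) (norm_nonneg _) (norm_prod_hsn_le _ _ _)
  · intro w
    exact ⟨G w, v w, e w, h1.comp (f := fun z : ℝ × ℝ => (w, z)) (by fun_prop), b1 w, s1 w, rfl⟩

end Pool.Agent.N1
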