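import Pool.Agent.N1.C1

/-!
N1, block C: cut-off functions, part 2: expansion of a cut-off.
-/

namespace Pool.Agent.N1

open MeasureTheory Set Metric Pool.Agent.MP_6cbfb8_an Pool.Agent.MST
open scoped ENNReal Real ContDiff

theorem measurable_ex : Measurable ex := by
  unfold ex
  fun_prop

/-- Expansion of a cut-off, for an abstract integrable kernel. -/
theorem expand_abs {X : Type*} [MeasurableSpace X] (μ : Measure X) [SFinite μ] (B : ℝ) (m : ℝ → ℂ)
    (hm : FT1 B m) (g : X → ℂ) (hg : Integrable g μ) (h : X → ℝ) (hh : Measurable h) (K : ℝ)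
    (hK : ∀ η : ℝ, ‖∫ q, ex (η * h q) * g q ∂μ‖ ≤ K) :
    ‖∫ q, m (h q) * g q ∂μ‖ ≤ B * K := by
  obtain ⟨w, hw1, hw2, hw3⟩ := hm
  have hK0 : 0 ≤ K := (norm_nonneg _).trans (hK 0)
  have e1 : (∫ q, m (h q) * g q ∂μ) = ∫ q, ∫ η, w η * (ex (η * h q) * g q) ∂volume ∂μ := by
    refine integral_congr_ae (Filter.Eventually.of_forall fun q => ?_)
    simp only
    rw [hw3 (h q), ← integral_mul_const]
    refine integral_congr_ae (Filter.Eventually.of_forall fun η => ?_)
    simp only
    ring
  have hint : Integrable (Function.uncurry fun q η => w η * (ex (η * h q) * g q))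
      (μ.prod volume) := by
    have h1 : Integrable (fun z : X × ℝ => g z.1 * w z.2) (μ.prod volume) := hg.mul_prod hw1
    have h2 : Measurable fun z : X × ℝ => ex (z.2 * h z.1) :=
      measurable_ex.comp (measurable_snd.mul (hh.comp measurable_fst))
    have h3 := h1.bdd_mul (c := 1) h2.aestronglyMeasurable
      (Filter.Eventually.of_forall fun z => (hns_norm_ex _).le)
    refine h3.congr (Filter.Eventually.of_forall fun z => ?_)
    simp only [Function.uncurry]
    ring
  rw [e1, integral_integral_swap hint]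
  calc ‖∫ η, ∫ q, w η * (ex (η * h q) * g q) ∂μ‖ ≤ ∫ η, ‖w η‖ * K := by
        refine norm_integral_le_of_norm_le (hw1.norm.mul_const K)
          (Filter.Eventually.of_forall fun η => ?_)
        rw [integral_const_mul, norm_mul]
        exact mul_le_mul_of_nonneg_left (hK η) (norm_nonneg _)
    _ = (∫ η, ‖w η‖) * K := integral_mul_const _ _
    _ ≤ B * K := mul_le_mul_of_nonneg_right hw2 hK0

/-- Expansion of a cut-off, from integrability. -/
theorem expand_of (c T : ℝ) (B : ℝ) (m : ℝ → ℂ) (hm : FT1 B m)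
    (M : V × V → ℂ)
    (hI : Integrable fun q : V × V => M q * ((Wr c q.1 q.2 : ℝ) : ℂ) * Kt T (Fr c q.1 q.2))
    (h : V × V → ℝ) (hh : Measurable h) (K : ℝ)
    (hK : ∀ η : ℝ, ‖FF c T (fun q => ex (η * h q) * M q)‖ ≤ K) :
    ‖FF c T (fun q => m (h q) * M q)‖ ≤ B * K := by
  have h1 := expand_abs (volume : Measure (V × V)) B m hm
    (fun q : V × V => M q * ((Wr c q.1 q.2 : ℝ) : ℂ) * Kt T (Fr c q.1 q.2)) hI h hh K
    (fun η => by
      have h2 := hK η
      unfold FF at h2
      refine le_trans (le_of_eq ?_) h2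
      congr 1
      refine integral_congr_ae (Filter.Eventually.of_forall fun q => ?_)
      simp only
      ring)
  refine le_trans (le_of_eq ?_) h1
  unfold FF
  congr 1
  refine integral_congr_ae (Filter.Eventually.of_forall fun q => ?_)
  simp only
  ring

end Pool.Agent.N1
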