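import Pool.Agent.N1.Defs2

/-!
N1, block G: smoothness of the basic functions.
-/

namespace Pool.Agent.N1

open MeasureTheory Set Metric Pool.Agent.MP_6cbfb8_an Pool.Agent.MST
open scoped ENNReal Real ContDiff

lemma g_st : ContDiff ℝ ∞ Real.smoothTransition := Real.smoothTransition.contDiff

lemma Sq_smooth (c : ℝ) (hc : 0 < c) : ContDiff ℝ ∞ (Sq c) := by
  rw [contDiff_iff_contDiffAt]
  intro v
  rcases lt_or_ge v (c ^ 2 / 16) with h | h
  · have h1 : Sq c =ᶠ[nhds v] fun _ => 0 := by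
      filter_upwards [Iio_mem_nhds h] with w hw
      unfold Sq
      rw [Real.smoothTransition.zero_of_nonpos, mul_zero]
      exact div_nonpos_of_nonpos_of_nonneg (by linarith [mem_Iio.1 hw]) (by positivity)
    exact contDiffAt_const.congr_of_eventuallyEq h1
  · have hv : 0 < v := lt_of_lt_of_le (by positivity) h
    have h1 : ContDiffAt ℝ ∞ (fun v => √v) v := Real.contDiffAt_sqrt hv.ne'
    have h2 : ContDiffAt ℝ ∞ (fun v => Real.smoothTransition ((16 * v - c ^ 2) / c ^ 2)) v := by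
      exact (g_st.comp (by fun_prop : ContDiff ℝ ∞ fun v : ℝ => (16 * v - c ^ 2) / c ^ 2)).contDiffAt
    exact h1.mul h2

lemma Sq_eq (c : ℝ) (hc : 0 < c) (v : ℝ) (hv : c ^ 2 / 8 ≤ v) : Sq c v = √v := by
  unfold Sq
  rw [Real.smoothTransition.one_of_one_le, mul_one]
  rw [le_div_iff₀ (by positivity)]
  linarith

lemma sma_smooth (c : ℝ) (hc : 0 < c) : ContDiff ℝ ∞ (sma c) := by
  rw [contDiff_iff_contDiffAt]
  intro v
  rcases lt_or_ge v (c ^ 2 / 4) with h | h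
  · have h1 : sma c =ᶠ[nhds v] fun _ => 0 := by
      filter_upwards [Iio_mem_nhds h] with w hw
      unfold sma smb
      rw [Real.smoothTransition.zero_of_nonpos, zero_div]
      refine div_nonpos_of_nonpos_of_nonneg ?_ hc.le
      have : √w ≤ c / 2 := by
        rw [Real.sqrt_le_left (by positivity)]
        have := (mem_Iio.1 hw).le
        nlinarith
      linarith
    exact contDiffAt_const.congr_of_eventuallyEq h1
  · have hv : 0 < v := lt_of_lt_of_le (by positivity) h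
    have h1 : ContDiffAt ℝ ∞ (fun v => √v) v := Real.contDiffAt_sqrt hv.ne'
    have h2 : ContDiffAt ℝ ∞ (fun v => smb c √v) v := by
      have : ContDiff ℝ ∞ (smb c) := by
        unfold smb
        exact g_st.comp (by fun_prop)
      exact this.contDiffAt.comp v h1
    exact h2.div h1 (Real.sqrt_pos.2 hv).ne'

lemma chi_smooth : ContDiff ℝ ∞ chi := by
  unfold chi
  exact (g_st.comp (by fun_prop)).mul (g_st.comp (by fun_prop))

lemma chi_zero (s : ℝ) (h : chi s ≠ 0) : 1 / 2 ≤ s ∧ s ≤ 3 := by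
  unfold chi at h
  constructor
  · by_contra h1
    exact h (by rw [Real.smoothTransition.zero_of_nonpos (by linarith), zero_mul])
  · by_contra h1
    exact h (by rw [Real.smoothTransition.zero_of_nonpos (x := 3 - s) (by linarith), mul_zero])

lemma qf_smooth (c : ℝ) (hc : 0 < c) : ContDiff ℝ ∞ fun x : ℝ × ℝ => qf c x.1 x.2 := by
  unfold qf
  exact (Sq_smooth c hc).comp (by fun_prop)

lemma wf_smooth (c : ℝ) (hc : 0 < c) : ContDiff ℝ ∞ fun x : ℝ × ℝ => wf c x.1 x.2 := by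
  unfold wf
  exact (sma_smooth c hc).comp (by fun_prop)

lemma qf_eq (c : ℝ) (hc : 0 < c) (a b : ℝ) (h : c ^ 2 / 8 ≤ 1 - a ^ 2 - b ^ 2) :
    qf c a b = √(1 - a ^ 2 - b ^ 2) := Sq_eq c hc _ h

lemma qf_sq (c : ℝ) (hc : 0 < c) (a b : ℝ) (h : c ^ 2 / 8 ≤ 1 - a ^ 2 - b ^ 2) :
    qf c a b ^ 2 = 1 - a ^ 2 - b ^ 2 := by
  rw [qf_eq c hc a b h, Real.sq_sqrt (le_trans (by positivity) h)]

lemma qf_pos (c : ℝ) (hc : 0 < c) (a b : ℝ) (h : c ^ 2 / 8 ≤ 1 - a ^ 2 - b ^ 2) :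
    0 < qf c a b := by
  rw [qf_eq c hc a b h]
  exact Real.sqrt_pos.2 (lt_of_lt_of_le (by positivity) h)

/-- composition with `qf` -/
lemma qf_comp {Q : Type*} [NormedAddCommGroup Q] [NormedSpace ℝ Q] (c : ℝ) (hc : 0 < c)
    {f g : Q → ℝ} (hf : ContDiff ℝ ∞ f) (hg : ContDiff ℝ ∞ g) :
    ContDiff ℝ ∞ fun x => qf c (f x) (g x) := by
  have h1 : ContDiff ℝ ∞ fun x => 1 - f x ^ 2 - g x ^ 2 := by fun_prop
  have h2 := (Sq_smooth c hc).comp h1
  exact h2

lemma wf_comp {Q : Type*} [NormedAddCommGroup Q] [NormedSpace ℝ Q] (c : ℝ) (hc : 0 < c)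
    {f g : Q → ℝ} (hf : ContDiff ℝ ∞ f) (hg : ContDiff ℝ ∞ g) :
    ContDiff ℝ ∞ fun x => wf c (f x) (g x) := by
  have h1 : ContDiff ℝ ∞ fun x => 1 - f x ^ 2 - g x ^ 2 := by fun_prop
  have h2 := (sma_smooth c hc).comp h1
  exact h2

lemma Fr_smooth (c : ℝ) (hc : 0 < c) : ContDiff ℝ ∞ fun q : V × V => Fr c q.1 q.2 := by
  have h1 := qf_comp (Q := V × V) c hc (f := fun q => q.1.2.1) (g := fun q => q.2.2.1)
    (by fun_prop) (by fun_prop)
  have h2 := qf_comp (Q := V × V) c hc (f := fun q => q.1.2.1 - q.1.1)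
    (g := fun q => q.2.2.1 - q.2.1) (by fun_prop) (by fun_prop)
  have h3 := qf_comp (Q := V × V) c hc (f := fun q => q.1.2.1 - q.1.2.2)
    (g := fun q => q.2.2.1 - q.2.2.2) (by fun_prop) (by fun_prop)
  have h4 := qf_comp (Q := V × V) c hc (f := fun q => q.1.2.1 - q.1.1 - q.1.2.2)
    (g := fun q => q.2.2.1 - q.2.1 - q.2.2.2) (by fun_prop) (by fun_prop)
  exact ((h1.sub h2).sub h3).add h4

lemma Wr_smooth (c : ℝ) (hc : 0 < c) : ContDiff ℝ ∞ fun q : V × V => Wr c q.1 q.2 := by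
  have h1 := wf_comp (Q := V × V) c hc (f := fun q => q.1.2.1) (g := fun q => q.2.2.1)
    (by fun_prop) (by fun_prop)
  have h2 := wf_comp (Q := V × V) c hc (f := fun q => q.1.2.1 - q.1.1)
    (g := fun q => q.2.2.1 - q.2.1) (by fun_prop) (by fun_prop)
  have h3 := wf_comp (Q := V × V) c hc (f := fun q => q.1.2.1 - q.1.2.2)
    (g := fun q => q.2.2.1 - q.2.2.2) (by fun_prop) (by fun_prop)
  have h4 := wf_comp (Q := V × V) c hc (f := fun q => q.1.2.1 - q.1.1 - q.1.2.2)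
    (g := fun q => q.2.2.1 - q.2.1 - q.2.2.2) (by fun_prop) (by fun_prop)
  exact ((h1.mul h2).mul h3).mul h4

lemma wf_ne (c : ℝ) (hc : 0 < c) (a b : ℝ) (h : wf c a b ≠ 0) : c ^ 2 / 4 < 1 - a ^ 2 - b ^ 2 := by
  by_contra h1
  apply h
  unfold wf sma smb
  rw [Real.smoothTransition.zero_of_nonpos, zero_div]
  refine div_nonpos_of_nonpos_of_nonneg ?_ hc.le
  have : √(1 - a ^ 2 - b ^ 2) ≤ c / 2 := by
    rw [Real.sqrt_le_left (by positivity)]
    linarith
  linarith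

end Pool.Agent.N1
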