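import Pool.Agent.N1.M2a

/-!
N1, block M2, part 2: the theorem TH.
-/

namespace Pool.Agent.N1

open MeasureTheory Set Metric Pool.Agent.MP_6cbfb8_an Pool.Agent.MST
open scoped ENNReal Real ContDiff

theorem m2_Th_zero (c T : ℝ) (M : (ℝ × ℝ) × (ℝ × ℝ) → ℂ)
    (h : ∀ y x : ℝ × ℝ, M (y, x) ≠ 0 → wf c x.1 x.2 * wf c (x.1 - y.1) (x.2 - y.2) = 0) :
    Th c T M = 0 := by
  have h1 : ∀ y t, Hy c M y t = 0 := by
    intro y t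
    unfold Hy
    have h2 : ∀ x : ℝ × ℝ, M (y, x) * ((wf c x.1 x.2 * wf c (x.1 - y.1) (x.2 - y.2) : ℝ) : ℂ) *
        ex (t * (qf c x.1 x.2 - qf c (x.1 - y.1) (x.2 - y.2))) = 0 := by
      intro x
      by_cases h3 : M (y, x) = 0
      · rw [h3]
        simp
      · rw [h y x h3]
        simp
    simp only [h2, integral_zero]
  unfold Th
  simp [h1]

theorem m2_wf_ne {c a b : ℝ} (hc : 0 < c) (h : wf c a b ≠ 0) : a ^ 2 + b ^ 2 ≤ 1 - c ^ 2 / 4 := by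
  unfold wf sma smb at h
  have h1 : Real.smoothTransition ((2 * √(1 - a ^ 2 - b ^ 2) - c) / c) ≠ 0 := by
    intro h2
    rw [h2] at h
    simp at h
  have h2 : 0 < (2 * √(1 - a ^ 2 - b ^ 2) - c) / c := by
    by_contra h3
    push Not at h3
    exact h1 (Real.smoothTransition.zero_of_nonpos h3)
  have h3 : 0 < 2 * √(1 - a ^ 2 - b ^ 2) - c := by
    by_contra h4
    push Not at h4
    have h5 := div_nonpos_of_nonpos_of_nonneg h4 hc.le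
    linarith
  have h4 : c / 2 < √(1 - a ^ 2 - b ^ 2) := by linarith
  have h5 := (Real.lt_sqrt (by positivity)).1 h4
  nlinarith

/-- the splitting of a positive form in the first factor -/
theorem m2_Th_split (c : ℝ) (hc : 0 < c) (T : ℝ) (hT : 0 < T) (n : ℕ) (α : Fin n → ℝ × ℝ → ℂ)
    (β : ℝ × ℝ → ℂ) (hα : ∀ i, Measurable (α i)) (hβ : Measurable β) (hα1 : ∀ i p, ‖α i p‖ ≤ 1)
    (hβ1 : ∀ p, ‖β p‖ ≤ 1) (K : ℝ≥0∞) (hK : ∀ i, Th c T (pd (α i) β) ≤ K) :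
    Th c T (pd (fun p => ∑ i, α i p) β) ≤ n * (n * K) := by
  have h1 : pd (fun p => ∑ i, α i p) β = fun p => ∑ i, pd (α i) β p := by
    funext p
    unfold pd
    rw [Finset.sum_mul]
  rw [h1]
  refine (Th_sum c hc T hT n (fun i => pd (α i) β) ?_ 1 ?_).trans ?_
  · intro i
    unfold pd
    have h2 := hα i
    fun_prop
  · intro i p
    unfold pd
    rw [norm_mul]
    exact mul_le_one₀ (hα1 i _) (norm_nonneg _) (hβ1 _)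
  · gcongr
    refine (Finset.sum_le_sum fun i _ => hK i).trans ?_
    simp

theorem m2_cell (c : ℝ) (hc : 0 < c) (k0 : ℕ) (δ C : ℝ) (_hδ : 0 < δ)
    (hP : ∀ P ∈ Kc c ×ˢ m2_Y k0, m2_P c P δ C) (T : ℝ) (hT : 1 ≤ T) (ρ : ℝ) (hρ : 0 < ρ)
    (x0 : ℝ × ℝ) (α β : ℝ × ℝ → ℂ) (hα : Measurable α) (hβ : Measurable β)
    (hα1 : ∀ p, ‖α p‖ ≤ 1) (hβ1 : ∀ p, ‖β p‖ ≤ 1)
    (hαs : ∀ p, α p ≠ 0 → c ≤ p.2 ∧ c ≤ p.2 - p.1 ∧ |p.2 - x0.1| ≤ δ / 8 ∧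
      |p.2 - p.1 - x0.1| ≤ δ / 8 ∧ 1 / 2 ≤ |p.1 / ρ| ∧ |p.1 / ρ| ≤ 2)
    (hβs : ∀ p, β p ≠ 0 → c ≤ p.2 ∧ c ≤ p.2 - p.1 ∧ |p.2 - x0.2| ≤ δ / 8 ∧
      |p.2 - p.1 - x0.2| ≤ δ / 8 ∧ 1 / 2 ^ (k0 + 1) ≤ |p.1 / ρ| ∧ |p.1 / ρ| ≤ 2 ^ (k0 + 1))
    (hαd : ∀ p p', α p ≠ 0 → α p' ≠ 0 → |p.1 / ρ - p'.1 / ρ| ≤ δ)
    (hβd : ∀ p p', β p ≠ 0 → β p' ≠ 0 → |p.1 / ρ - p'.1 / ρ| ≤ δ) :
    Th c T (pd α β) ≤ ENNReal.ofReal (C * (1 + Real.log T) ^ 5 / T) := by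
  by_cases hne : ∀ y x : ℝ × ℝ, pd α β (y, x) ≠ 0 →
      wf c x.1 x.2 * wf c (x.1 - y.1) (x.2 - y.2) = 0
  · rw [m2_Th_zero c T _ hne]
    exact zero_le
  push Not at hne
  obtain ⟨y, x, h1, h2⟩ := hne
  unfold pd at h1
  simp only at h1
  have h3 := left_ne_zero_of_mul h1
  have h4 := right_ne_zero_of_mul h1
  have h5 := hαs _ h3
  have h6 := hβs _ h4
  simp only at h5 h6
  have h7 := m2_wf_ne hc (left_ne_zero_of_mul h2)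
  have hx : x ∈ Kc c := ⟨h5.1, h6.1, h7⟩
  have hy : (y.1 / ρ, y.2 / ρ) ∈ m2_Y k0 := ⟨h5.2.2.2.2, h6.2.2.2.2⟩
  have hρδ : ρ < δ := by
    have h8 : |y.1| ≤ δ / 4 := by
      have h9 := abs_sub_le x.1 x0.1 (x.1 - y.1)
      have h10 : x.1 - (x.1 - y.1) = y.1 := by ring
      rw [h10, abs_sub_comm x0.1] at h9
      linarith [h5.2.2.1, h5.2.2.2.1]
    have h9 := h5.2.2.2.2.1
    rw [abs_div, abs_of_pos hρ, le_div_iff₀ hρ] at h9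
    linarith
  refine hP (x, (y.1 / ρ, y.2 / ρ)) ⟨hx, hy⟩ T hT ρ hρ hρδ α β hα hβ hα1 hβ1 ?_ ?_
  · intro p hp
    refine ⟨hαd p (y.1, x.1) hp h3, ?_⟩
    have h9 := abs_sub_le p.2 x0.1 x.1
    rw [abs_sub_comm x0.1] at h9
    simp only
    linarith [(hαs p hp).2.2.1, h5.2.2.1]
  · intro p hp
    refine ⟨hβd p (y.2, x.2) hp h4, ?_⟩
    have h9 := abs_sub_le p.2 x0.2 x.2
    rw [abs_sub_comm x0.2] at h9
    simp only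
    linarith [(hβs p hp).2.2.1, h6.2.2.1]

theorem m2_cut_fin {φ : ℝ × ℝ → ℝ} {R δ : ℝ} (hδ : 0 < δ) {A : ℝ × ℝ → ℂ}
    (hAs : ∀ u, A u ≠ 0 → |φ u| ≤ R) :
    (fun p => ∑ i : Fin (⌊2 * R / δ⌋₊ + 1), g2_cut φ R δ A i p) = A := by
  funext p
  rw [Fin.sum_univ_eq_sum_range (fun i => g2_cut φ R δ A i p)]
  exact g2_cut_sum φ R δ hδ A hAs p

/-- The global estimate for nondegenerate outer directions. -/
theorem TH (c : ℝ) (hc : 0 < c) (k0 : ℕ) : ∃ r : ℝ, 0 < r ∧ ∃ C : ℝ, 0 ≤ C ∧ ∀ T : ℝ, 1 ≤ T →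
    ∀ ρ : ℝ, 0 < ρ → ∀ x0 : ℝ × ℝ, ∀ α β : ℝ × ℝ → ℂ, Measurable α → Measurable β →
      (∀ p, ‖α p‖ ≤ 1) → (∀ p, ‖β p‖ ≤ 1) →
      (∀ p, α p ≠ 0 → c ≤ p.2 ∧ c ≤ p.2 - p.1 ∧ |p.2 - x0.1| ≤ r ∧ |p.2 - p.1 - x0.1| ≤ r ∧
        1 / 2 ≤ |p.1 / ρ| ∧ |p.1 / ρ| ≤ 2) →
      (∀ p, β p ≠ 0 → c ≤ p.2 ∧ c ≤ p.2 - p.1 ∧ |p.2 - x0.2| ≤ r ∧ |p.2 - p.1 - x0.2| ≤ r ∧
        1 / 2 ^ (k0 + 1) ≤ |p.1 / ρ| ∧ |p.1 / ρ| ≤ 2 ^ (k0 + 1)) →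
      Th c T (pd α β) ≤ ENNReal.ofReal (C * (1 + Real.log T) ^ 5 / T) := by
  obtain ⟨δ, hδ, C, hC, hP⟩ := m2_loc c hc k0
  set n1 : ℕ := ⌊2 * 2 / δ⌋₊ + 1 with hn1
  set n2 : ℕ := ⌊2 * (2 ^ (k0 + 1)) / δ⌋₊ + 1 with hn2
  refine ⟨δ / 8, by positivity, (n1 : ℝ) ^ 2 * n2 ^ 2 * C, by positivity, ?_⟩
  intro T hT ρ hρ x0 α β hα hβ hα1 hβ1 hαs hβs
  have hT0 : 0 < T := by linarith
  have hφ : Measurable fun p : ℝ × ℝ => p.1 / ρ := by fun_prop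
  have hc1 := m2_cut_fin (φ := fun p : ℝ × ℝ => p.1 / ρ) (R := 2) hδ (A := α)
    (fun u hu => (hαs u hu).2.2.2.2.2)
  have hc2 := m2_cut_fin (φ := fun p : ℝ × ℝ => p.1 / ρ) (R := 2 ^ (k0 + 1)) hδ (A := β)
    (fun u hu => (hβs u hu).2.2.2.2.2)
  set K : ℝ≥0∞ := ENNReal.ofReal (C * (1 + Real.log T) ^ 5 / T) with hK
  have key : ∀ (i : ℕ) (k : ℕ), Th c T (pd (g2_cut (fun p : ℝ × ℝ => p.1 / ρ) 2 δ α i)
      (g2_cut (fun p : ℝ × ℝ => p.1 / ρ) (2 ^ (k0 + 1)) δ β k)) ≤ K := by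
    intro i k
    refine m2_cell c hc k0 δ C hδ hP T hT ρ hρ x0 _ _ (g2_cut_meas hφ _ _ hα _)
      (g2_cut_meas hφ _ _ hβ _) (g2_cut_norm _ _ _ hα1 _) (g2_cut_norm _ _ _ hβ1 _) ?_ ?_ ?_ ?_
    · intro p hp
      exact hαs p (g2_cut_ne hp).2
    · intro p hp
      exact hβs p (g2_cut_ne hp).2
    · intro p p' hp hp'
      have h1 := g2_cut_ne hp
      have h2 := g2_cut_ne hp'
      exact g2_ix_near hδ (hαs p h1.2).2.2.2.2.2 (hαs p' h2.2).2.2.2.2.2 (h1.1.trans h2.1.symm)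
    · intro p p' hp hp'
      have h1 := g2_cut_ne hp
      have h2 := g2_cut_ne hp'
      exact g2_ix_near hδ (hβs p h1.2).2.2.2.2.2 (hβs p' h2.2).2.2.2.2.2 (h1.1.trans h2.1.symm)
  have key2 : ∀ i : ℕ, Th c T (pd (g2_cut (fun p : ℝ × ℝ => p.1 / ρ) 2 δ α i) β) ≤
      n2 * (n2 * K) := by
    intro i
    rw [Th_comm]
    rw [← hc2]
    refine m2_Th_split c hc T hT0 n2 _ _ (fun k => g2_cut_meas hφ _ _ hβ _)
      (g2_cut_meas hφ _ _ hα _) (fun k => g2_cut_norm _ _ _ hβ1 _) (g2_cut_norm _ _ _ hα1 _) K ?_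
    intro k
    rw [Th_comm]
    exact key i k
  have key3 : Th c T (pd α β) ≤ n1 * (n1 * (n2 * (n2 * K))) := by
    rw [← hc1]
    exact m2_Th_split c hc T hT0 n1 _ _ (fun i => g2_cut_meas hφ _ _ hα _) hβ
      (fun i => g2_cut_norm _ _ _ hα1 _) hβ1 _ (fun i => key2 i)
  refine key3.trans (le_of_eq ?_)
  rw [hK]
  rw [show (n1 : ℝ) ^ 2 * n2 ^ 2 * C * (1 + Real.log T) ^ 5 / T =
    n1 * (n1 * (n2 * (n2 * (C * (1 + Real.log T) ^ 5 / T)))) by ring]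
  rw [ENNReal.ofReal_mul (by positivity), ENNReal.ofReal_mul (by positivity),
    ENNReal.ofReal_mul (by positivity), ENNReal.ofReal_mul (by positivity),
    ENNReal.ofReal_natCast, ENNReal.ofReal_natCast]

end Pool.Agent.N1
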