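import Pool.Agent.N1.MD3

/-!
N1, block M1, case (D): assembly.
-/

namespace Pool.Agent.N1.MD

open MeasureTheory Set Metric Pool.Agent.MP_6cbfb8_an Pool.Agent.MST
open scoped ENNReal Real ContDiff

/-- A multiplier in `N`. -/
noncomputable def mM (ρ : ℝ) (m : ℝ → ℂ) (α β : ℝ × ℝ → ℂ) (p : (ℝ × ℝ) × (ℝ × ℝ)) : ℂ :=
  m (Nf ρ (p.1.1 / ρ, p.1.2 / ρ) p.2) * pd α β p

theorem sqM_mM (ρ : ℝ) (m : ℝ → ℂ) (hm : ∀ x, (starRingEnd ℂ) (m x) = m x) (α β : ℝ × ℝ → ℂ) :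
    sqM (mM ρ m α β) = fun q => m (Nx ρ q) * (m (Nz ρ q) * tp (dd α) (dd β) q) := by
  rw [← sqM_pd]
  funext q
  unfold sqM mM Nx Nz
  simp only [map_mul, hm]
  ring

theorem measurable_pd (α β : ℝ × ℝ → ℂ) (hα : Measurable α) (hβ : Measurable β) :
    Measurable (pd α β) := by
  unfold pd
  have e1 : Measurable fun p : (ℝ × ℝ) × (ℝ × ℝ) => (p.1.1, p.2.1) := by fun_prop
  have e2 : Measurable fun p : (ℝ × ℝ) × (ℝ × ℝ) => (p.1.2, p.2.2) := by fun_prop
  exact (hα.comp e1).mul (hβ.comp e2)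

theorem pd_norm (α β : ℝ × ℝ → ℂ) (hα : ∀ p, ‖α p‖ ≤ 1) (hβ : ∀ p, ‖β p‖ ≤ 1)
    (p : (ℝ × ℝ) × (ℝ × ℝ)) : ‖pd α β p‖ ≤ 1 := by
  unfold pd
  rw [norm_mul]
  exact mul_le_one₀ (hα _) (norm_nonneg _) (hβ _)

theorem measurable_mM (ρ : ℝ) (m : ℝ → ℂ) (hm : Measurable m) (α β : ℝ × ℝ → ℂ)
    (hα : Measurable α) (hβ : Measurable β) : Measurable (mM ρ m α β) := by
  unfold mM
  refine (hm.comp (measurable_Nf ρ ?_ ?_)).mul (measurable_pd α β hα hβ) <;> fun_prop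

theorem mM_norm (ρ : ℝ) (m : ℝ → ℂ) (hm : ∀ x, ‖m x‖ ≤ 1) (α β : ℝ × ℝ → ℂ)
    (hα : ∀ p, ‖α p‖ ≤ 1) (hβ : ∀ p, ‖β p‖ ≤ 1) (p : (ℝ × ℝ) × (ℝ × ℝ)) :
    ‖mM ρ m α β p‖ ≤ 1 := by
  unfold mM
  rw [norm_mul]
  exact mul_le_one₀ (hm _) (norm_nonneg _) (pd_norm α β hα hβ p)

/-- From the form to the positive form. -/
theorem Th_of_FF (c : ℝ) (hc : 0 < c) (T : ℝ) (hT : 0 < T) (ρ : ℝ) (m : ℝ → ℂ)
    (hmm : Measurable m) (hm1 : ∀ x, ‖m x‖ ≤ 1) (hm : ∀ x, (starRingEnd ℂ) (m x) = m x)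
    (α β : ℝ × ℝ → ℂ) (hα : Measurable α) (hβ : Measurable β) (hα1 : ∀ p, ‖α p‖ ≤ 1)
    (hβ1 : ∀ p, ‖β p‖ ≤ 1) (Q : ℝ)
    (h : ‖FF c T (fun q => m (Nx ρ q) * (m (Nz ρ q) * tp (dd α) (dd β) q))‖ ≤ Q) :
    Th c T (mM ρ m α β) ≤ ENNReal.ofReal Q := by
  rw [Th_eq c hc T hT _ (measurable_mM ρ m hmm α β hα hβ) (mM_norm ρ m hm1 α β hα1 hβ1),
    sqM_mM ρ m hm α β, ← ofReal_norm_eq_enorm]
  exact ENNReal.ofReal_le_ofReal h

/-- The low cut-off. -/
noncomputable def tq (x : ℝ) : ℂ := ((th x : ℝ) : ℂ)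

theorem tq_norm (x : ℝ) : ‖tq x‖ ≤ 1 := by
  unfold tq
  rw [Complex.norm_real, Real.norm_eq_abs, abs_of_nonneg (th_nonneg x)]
  exact th_le_one x

theorem measurable_tq : Measurable tq := Complex.measurable_ofReal.comp measurable_th

theorem tq_ne_zero (x κ : ℝ) (hκ : 0 < κ) (h : tq (x / κ) ≠ 0) : |x| ≤ 2 * κ := by
  unfold tq at h
  have h1 : th (x / κ) ≠ 0 := fun h2 => h (by rw [h2, Complex.ofReal_zero])
  have h2 := th_support _ h1
  rw [abs_div, abs_of_pos hκ, div_lt_iff₀ hκ] at h2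
  exact h2.le

/-- The last piece: one dyadic rectangle. -/
theorem rect_th (c : ℝ) (hc : 0 < c) (x0 y0 : ℝ × ℝ) (hx : x0 ∈ Kc c) (hy1 : y0.1 ≠ 0)
    (hy2 : y0.2 ≠ 0) (h1 : Nf 0 y0 x0 = 0) :
    ∃ δ C : ℝ, 0 < δ ∧ 0 ≤ C ∧ ∀ T : ℝ, 1 ≤ T → ∀ ρ : ℝ, 0 < ρ → ρ < δ →
    ∀ κ : ℝ, 0 < κ → κ < δ → κ ≤ 1 / T ^ 2 → ∀ M : V × V → ℂ, Measurable M → (∀ q, ‖M q‖ ≤ 1) →
    (∀ q, M q ≠ 0 → Nb δ ρ x0 y0 q ∧ |Nx ρ q| ≤ 2 * κ ∧ |Nz ρ q| ≤ 2 * κ) →
    ∀ γ d : ℝ, 0 < γ → 0 < d → ‖FF c T (rec γ d M)‖ ≤ C / T := by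
  obtain ⟨δa, C5, C4, Ca, hδa, hC5, hC4, hCa, habs⟩ := rect_abs c hc x0 y0 hx hy1 hy2 h1
  obtain ⟨δv, Cv, hδv, hCv, hV⟩ := vol_strip c hc x0 y0 hx hy1
  obtain ⟨CF, hCF, hF⟩ := FF_abs0 c hc
  set δ : ℝ := min (min δa δv) 1 with hδdef
  have hδ : 0 < δ := by positivity
  have ga : δ ≤ δa := (min_le_left _ _).trans (min_le_left _ _)
  have gv : δ ≤ δv := (min_le_left _ _).trans (min_le_right _ _)
  have g1 : δ ≤ 1 := min_le_right _ _
  refine ⟨δ, Ca + CF * (Cv * C5 * (C4 * C5)), hδ, by positivity,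
    fun T hT ρ hρ hρδ κ hκ hκδ hκT M hM hM1 hMs γ d hγ hd => ?_⟩
  have hT0 : 0 < T := by linarith
  rcases habs T hT0 ρ hρ (by linarith) κ hκ (by linarith) M hM hM1 (fun q hq => by
    obtain ⟨e1, e2, e3⟩ := hMs q hq
    exact ⟨Nb_mono ga e1, e2, e3⟩) γ d hγ hd with h2 | ⟨h2, h3⟩
  · refine h2.trans ?_
    gcongr
    have : 0 ≤ CF * (Cv * C5 * (C4 * C5)) := by positivity
    linarith
  · have h4 := hF T hT0 (rec γ d M)
      {q | Nb δ ρ x0 y0 q ∧ |Nx ρ q| ≤ 2 * κ ∧ |q.1.2.2| ≤ γ ∧ |q.2.2.2| ≤ d}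
      (Cv * ρ ^ 2 * κ * γ * d) (Cv * C5 * (C4 * C5)) (measurable_rec γ d M hM)
      (rec_le_one γ d M hM1)
      (fun q hq _ => by
        obtain ⟨e1, e2, e3, e4, e5⟩ := rec_ne_zero γ d M q hq
        exact ⟨(hMs q e1).1, (hMs q e1).2.1, e3, e5⟩) (by positivity)
      ((measure_mono fun q hq => ?_).trans (hV ρ hρ (by linarith) κ γ d hκ.le hγ.le hd.le)) ?_
    · refine h4.trans ?_
      gcongr
      linarith
    · exact ⟨Nb_mono gv hq.1, hq.2.1, hq.2.2.1, hq.2.2.2⟩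
    · have hκ1 : κ ≤ 1 := by linarith
      have e1 : d ≤ C4 * κ * (C5 * κ) := h3.trans (by gcongr)
      have e2 : κ ^ 4 ≤ κ := by
        calc κ ^ 4 = κ * κ ^ 3 := by ring
          _ ≤ κ * 1 := by
            gcongr
            exact pow_le_one₀ hκ.le hκ1
          _ = κ := mul_one κ
      calc Cv * ρ ^ 2 * κ * γ * d ≤ Cv * 1 ^ 2 * κ * (C5 * κ) * (C4 * κ * (C5 * κ)) := by
            gcongr
            linarith
        _ = Cv * C5 * (C4 * C5) * κ ^ 4 := by ring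
        _ ≤ Cv * C5 * (C4 * C5) * (1 / T ^ 2) := by
            gcongr
            exact e2.trans hκT
        _ = Cv * C5 * (C4 * C5) / T ^ 2 := by ring

end Pool.Agent.N1.MD

namespace Pool.Agent.N1

open MeasureTheory Set Metric Pool.Agent.MP_6cbfb8_an Pool.Agent.MST Pool.Agent.N1.MD
open scoped ENNReal Real ContDiff

/-- Case (D). -/
theorem TH_D (c : ℝ) (hc : 0 < c) (x0 y0 : ℝ × ℝ) (hx : x0 ∈ Kc c) (hy1 : y0.1 ≠ 0)
    (hy2 : y0.2 ≠ 0) (h1 : Nf 0 y0 x0 = 0) :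
    ∃ δ : ℝ, 0 < δ ∧ ∃ C : ℝ, 0 ≤ C ∧ ∀ T : ℝ, 1 ≤ T → ∀ ρ : ℝ, 0 < ρ → ρ < δ →
      ∀ α β : ℝ × ℝ → ℂ, Measurable α → Measurable β → (∀ p, ‖α p‖ ≤ 1) → (∀ p, ‖β p‖ ≤ 1) →
      (∀ p, α p ≠ 0 → |p.1 / ρ - y0.1| ≤ δ ∧ |p.2 - x0.1| ≤ δ) →
      (∀ p, β p ≠ 0 → |p.1 / ρ - y0.2| ≤ δ ∧ |p.2 - x0.2| ≤ δ) →
      Th c T (pd α β) ≤ ENNReal.ofReal (C * (1 + Real.log T) ^ 5 / T) := by
  classical
  obtain ⟨δm, Cm, hδm, hCm, hmpl⟩ := rect_mpl c hc x0 y0 hx hy1 hy2 h1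
  obtain ⟨δt, Ct, hδt, hCt, hth⟩ := rect_th c hc x0 y0 hx hy1 hy2 h1
  obtain ⟨CZ, hCZ, hz⟩ := z_split c hc
  set D : ℝ := min (min δm δt) 1 with hD
  have hDpos : 0 < D := by positivity
  have dm : D ≤ δm := (min_le_left _ _).trans (min_le_left _ _)
  have dt : D ≤ δt := (min_le_left _ _).trans (min_le_right _ _)
  have d1 : D ≤ 1 := min_le_right _ _
  set η : ℝ := D / 2 with hη
  have hηpos : 0 < η := by positivity
  obtain ⟨δn, hδn, hN⟩ := Nf_small c hc x0 y0 hx h1 η hηpos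
  set δ : ℝ := min δn D / 4 with hδdef
  have hδ : 0 < δ := by positivity
  have gn : 4 * δ ≤ δn := by
    have := min_le_left δn D
    rw [hδdef]
    linarith
  have gD : 4 * δ ≤ D := by
    have := min_le_right δn D
    rw [hδdef]
    linarith
  refine ⟨δ, hδ, 100 * (CZ * (Cm + Ct + 1)), by positivity,
    fun T hT ρ hρ hρδ α β hα hβ hα1 hβ1 hαs hβs => ?_⟩
  have hT0 : 0 < T := by linarith
  have hlog : 0 ≤ Real.log T := Real.log_nonneg hT
  obtain ⟨J, hJ1, hJ2⟩ := dy_num T hT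
  set Q : ℝ := CZ * (1 + Real.log T) ^ 2 * ((Cm + Ct + 1) / T) with hQ
  have hQ0 : 0 ≤ Q := by positivity
  -- the supports
  have hNb : ∀ q : V × V, tp (dd α) (dd β) q ≠ 0 → Nb (2 * δ) ρ x0 y0 q := by
    intro q hq
    unfold tp at hq
    obtain ⟨a1, a2, _, a4⟩ := dd_supp hαs q.1 (left_ne_zero_of_mul hq)
    obtain ⟨b1, b2, _, b4⟩ := dd_supp hβs q.2 (right_ne_zero_of_mul hq)
    exact ⟨by linarith, by linarith, by linarith, by linarith, a4, b4⟩
  have hddm := dd_meas α hα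
  have hddm' := dd_meas β hβ
  have hdd1 := dd_norm α hα1
  have hdd1' := dd_norm β hβ1
  have htpm : Measurable (tp (dd α) (dd β)) := by
    unfold tp
    exact (hddm.comp measurable_fst).mul (hddm'.comp measurable_snd)
  have htp1 : ∀ q, ‖tp (dd α) (dd β) q‖ ≤ 1 := fun q => by
    unfold tp
    rw [norm_mul]
    exact mul_le_one₀ (hdd1 _) (norm_nonneg _) (hdd1' _)
  have hMm : ∀ m : ℝ → ℂ, Measurable m →
      Measurable fun q => m (Nx ρ q) * (m (Nz ρ q) * tp (dd α) (dd β) q) := fun m hm =>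
    (hm.comp (measurable_Nx ρ)).mul ((hm.comp (measurable_Nz ρ)).mul htpm)
  have hMn : ∀ m : ℝ → ℂ, (∀ x, ‖m x‖ ≤ 1) →
      ∀ q, ‖m (Nx ρ q) * (m (Nz ρ q) * tp (dd α) (dd β) q)‖ ≤ 1 := fun m hm q => by
    rw [norm_mul, norm_mul]
    exact mul_le_one₀ (hm _) (by positivity) (mul_le_one₀ (hm _) (norm_nonneg _) (htp1 _))
  have hQm : CZ * (1 + Real.log T) ^ 2 * (Cm / T + 1 / T) ≤ Q := by
    rw [hQ, ← add_div]
    gcongr
    linarith
  have hQt : CZ * (1 + Real.log T) ^ 2 * (Ct / T + 1 / T) ≤ Q := by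
    rw [hQ, ← add_div]
    gcongr
    linarith
  -- one-sided pieces
  have hP1 : ∀ s : ℝ, s = 1 ∨ s = -1 → ∀ κ : ℝ, 0 < κ → κ ≤ η →
      Th c T (mM ρ (fun x => mp s (x / κ)) α β) ≤ ENNReal.ofReal Q := by
    intro s hs κ hκ hκη
    have hm1 : Measurable fun x : ℝ => mp s (x / κ) :=
      (measurable_mp s).comp (measurable_id.div_const κ)
    refine Th_of_FF c hc T hT0 ρ _ hm1 (fun x => mp_norm s _) (fun x => ?_) α β hα hβ hα1 hβ1 Q ?_
    · unfold mp
      exact Complex.conj_ofReal _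
    · refine (hz T hT ρ hρ (by linarith) x0 y0
        (fun q => mp s (Nx ρ q / κ) * (mp s (Nz ρ q / κ) * tp (dd α) (dd β) q))
        (hMm (fun x => mp s (x / κ)) hm1) (hMn (fun x => mp s (x / κ)) fun x => mp_norm s _)
        (fun q hq => ?_) (Cm / T) (by positivity) (fun γ d hγ _ hd _ => ?_)).trans hQm
      · exact Nb_mono (by linarith) (hNb q (right_ne_zero_of_mul (right_ne_zero_of_mul hq)))
      · refine hmpl T hT0 ρ hρ (by linarith) κ hκ (by linarith) s hs (dd α) (dd β) hddm hddm' hdd1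
          hdd1' (fun u hu => ?_) (fun v hv => ?_) γ d hγ hd
        · obtain ⟨a1, a2, _, a4⟩ := dd_supp hαs u hu
          exact ⟨by linarith, by linarith, by linarith⟩
        · obtain ⟨a1, a2, _, a4⟩ := dd_supp hβs v hv
          exact ⟨by linarith, by linarith, by linarith⟩
  -- the last piece
  have hP2 : Th c T (mM ρ (fun x => tq (x / (η / 2 ^ J))) α β) ≤ ENNReal.ofReal Q := by
    set κ : ℝ := η / 2 ^ J with hκdef
    have hκ : 0 < κ := by positivity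
    have h2J : (1 : ℝ) ≤ 2 ^ J := one_le_pow₀ (by norm_num)
    have hκη : κ ≤ η := div_le_self hηpos.le h2J
    have hκT : κ ≤ 1 / T ^ 2 := by
      calc κ = η * (1 / 2) ^ J := by rw [hκdef, one_div, inv_pow]; rfl
        _ ≤ 1 * (1 / T ^ 2) := by
          gcongr
          linarith
        _ = 1 / T ^ 2 := one_mul _
    have hm1 : Measurable fun x : ℝ => tq (x / κ) :=
      measurable_tq.comp (measurable_id.div_const κ)
    refine Th_of_FF c hc T hT0 ρ _ hm1 (fun x => tq_norm _) (fun x => ?_) α β hα hβ hα1 hβ1 Q ?_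
    · unfold tq
      exact Complex.conj_ofReal _
    · refine (hz T hT ρ hρ (by linarith) x0 y0
        (fun q => tq (Nx ρ q / κ) * (tq (Nz ρ q / κ) * tp (dd α) (dd β) q))
        (hMm (fun x => tq (x / κ)) hm1) (hMn (fun x => tq (x / κ)) fun x => tq_norm _)
        (fun q hq => ?_) (Ct / T) (by positivity) (fun γ d hγ _ hd _ => ?_)).trans hQt
      · exact Nb_mono (by linarith) (hNb q (right_ne_zero_of_mul (right_ne_zero_of_mul hq)))
      · refine hth T hT ρ hρ (by linarith) κ hκ (by linarith) hκT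
          (fun q => tq (Nx ρ q / κ) * (tq (Nz ρ q / κ) * tp (dd α) (dd β) q))
          (hMm (fun x => tq (x / κ)) hm1) (hMn (fun x => tq (x / κ)) fun x => tq_norm _)
          (fun q hq => ?_) γ d hγ hd
        refine ⟨Nb_mono (by linarith) (hNb q (right_ne_zero_of_mul (right_ne_zero_of_mul hq))),
          tq_ne_zero _ κ hκ (left_ne_zero_of_mul hq),
          tq_ne_zero _ κ hκ (left_ne_zero_of_mul (right_ne_zero_of_mul hq))⟩
  -- the decomposition
  set mul : ℕ → ℝ → ℂ := fun i x => if i < J then mp 1 (x / (η / 2 ^ i)) else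
    if i < J + J then mp (-1) (x / (η / 2 ^ (i - J))) else tq (x / (η / 2 ^ J)) with hmul
  have hκi : ∀ i : ℕ, 0 < η / 2 ^ i ∧ η / 2 ^ i ≤ η := fun i =>
    ⟨by positivity, div_le_self hηpos.le (one_le_pow₀ (by norm_num))⟩
  have hpiece : ∀ i : ℕ, Th c T (mM ρ (mul i) α β) ≤ ENNReal.ofReal Q := by
    intro i
    by_cases hi : i < J
    · have e1 : mul i = fun x => mp 1 (x / (η / 2 ^ i)) := by
        funext x
        rw [hmul]
        simp only [if_pos hi]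
      rw [e1]
      exact hP1 1 (Or.inl rfl) _ (hκi i).1 (hκi i).2
    · by_cases hi2 : i < J + J
      · have e1 : mul i = fun x => mp (-1) (x / (η / 2 ^ (i - J))) := by
          funext x
          rw [hmul]
          simp only [if_neg hi, if_pos hi2]
        rw [e1]
        exact hP1 (-1) (Or.inr rfl) _ (hκi _).1 (hκi _).2
      · have e1 : mul i = fun x => tq (x / (η / 2 ^ J)) := by
          funext x
          rw [hmul]
          simp only [if_neg hi, if_neg hi2]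
        rw [e1]
        exact hP2
  have hmulm : ∀ i, Measurable (mul i) := by
    intro i
    rw [hmul]
    simp only
    split_ifs
    · exact (measurable_mp 1).comp (measurable_id.div_const _)
    · exact (measurable_mp (-1)).comp (measurable_id.div_const _)
    · exact measurable_tq.comp (measurable_id.div_const _)
  have hmuln : ∀ i x, ‖mul i x‖ ≤ 1 := by
    intro i x
    rw [hmul]
    simp only
    split_ifs
    · exact mp_norm _ _
    · exact mp_norm _ _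
    · exact tq_norm _
  have hsum : pd α β = fun p => ∑ i : Fin (J + J + 1), mM ρ (mul i) α β p := by
    funext p
    by_cases hp : pd α β p = 0
    · rw [hp]
      refine (Finset.sum_eq_zero fun i _ => ?_).symm
      unfold mM
      rw [hp, mul_zero]
    · unfold mM
      rw [← Finset.sum_mul]
      have hp' : α (p.1.1, p.2.1) * β (p.1.2, p.2.2) ≠ 0 := hp
      obtain ⟨a1, a2⟩ := hαs _ (left_ne_zero_of_mul hp')
      obtain ⟨b1, b2⟩ := hβs _ (right_ne_zero_of_mul hp')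
      simp only at a1 a2 b1 b2
      set x : ℝ := Nf ρ (p.1.1 / ρ, p.1.2 / ρ) p.2 with hxdef
      have hxη : |x| ≤ η := hN ρ hρ (by linarith) _ _ (by simp only; linarith)
        (by simp only; linarith) (by linarith) (by linarith)
      have hxη' : |x / η| ≤ 1 := by
        rw [abs_div, abs_of_pos hηpos, div_le_one hηpos]
        exact hxη
      have hs := mpl_sum J (x / η) hxη'
      have hdiv : ∀ j : ℕ, x / (η / 2 ^ j) = 2 ^ j * (x / η) := fun j => by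
        field_simp
      have e2 : (∑ i : Fin (J + J + 1), mul i x) = 1 := by
        rw [Fin.sum_univ_eq_sum_range (fun i => mul i x) (J + J + 1), Finset.sum_range_succ,
          Finset.sum_range_add]
        have f1 : ∀ i ∈ Finset.range J, mul i x = ((mpl (2 ^ i * (x / η)) : ℝ) : ℂ) := by
          intro i hi
          rw [hmul]
          simp only [if_pos (Finset.mem_range.1 hi)]
          unfold mp
          rw [one_mul, hdiv]
        have f2 : ∀ i ∈ Finset.range J,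
            mul (J + i) x = ((mpl (-(2 ^ i * (x / η))) : ℝ) : ℂ) := by
          intro i hi
          have g1 : ¬ J + i < J := by omega
          have g2 : J + i < J + J := by
            have := Finset.mem_range.1 hi
            omega
          rw [hmul]
          simp only [if_neg g1, if_pos g2]
          unfold mp
          rw [Nat.add_sub_cancel_left, hdiv, neg_one_mul]
        have f3 : mul (J + J) x = ((th (2 ^ J * (x / η)) : ℝ) : ℂ) := by
          have g1 : ¬ J + J < J := by omega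
          have g2 : ¬ J + J < J + J := by omega
          rw [hmul]
          simp only [if_neg g1, if_neg g2]
          unfold tq
          rw [hdiv]
        rw [Finset.sum_congr rfl f1, Finset.sum_congr rfl f2, f3]
        exact_mod_cast hs
      rw [e2, one_mul]
  rw [hsum]
  refine (Th_sum c hc T hT0 (J + J + 1) (fun i : Fin (J + J + 1) => mM ρ (mul i) α β)
    (fun i => measurable_mM ρ _ (hmulm i) α β hα hβ) 1
    (fun i => mM_norm ρ _ (hmuln i) α β hα1 hβ1)).trans ?_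
  have h5 : (∑ i : Fin (J + J + 1), Th c T (mM ρ (mul i) α β)) ≤
      ((J + J + 1 : ℕ) : ℝ≥0∞) * ENNReal.ofReal Q := by
    refine (Finset.sum_le_card_nsmul (Finset.univ : Finset (Fin (J + J + 1)))
      (fun i : Fin (J + J + 1) => Th c T (mM ρ (mul i) α β)) (ENNReal.ofReal Q)
      fun i _ => hpiece i).trans ?_
    rw [Finset.card_univ, Fintype.card_fin, nsmul_eq_mul]
  have h6 : ∀ (n : ℕ) (x : ℝ), (n : ℝ≥0∞) * ((n : ℝ≥0∞) * ENNReal.ofReal x) =
      ENNReal.ofReal ((n : ℝ) * ((n : ℝ) * x)) := by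
    intro n x
    rw [ENNReal.ofReal_mul (Nat.cast_nonneg n), ENNReal.ofReal_mul (Nat.cast_nonneg n),
      ENNReal.ofReal_natCast]
  refine (mul_le_mul_right h5 _).trans ?_
  rw [h6]
  apply ENNReal.ofReal_le_ofReal
  have hJ3 : ((J + J + 1 : ℕ) : ℝ) ≤ 10 * (1 + Real.log T) := by
    push_cast
    linarith
  have hL1 : 1 ≤ 1 + Real.log T := by linarith
  calc ((J + J + 1 : ℕ) : ℝ) * (((J + J + 1 : ℕ) : ℝ) * Q) ≤
        (10 * (1 + Real.log T)) * ((10 * (1 + Real.log T)) * Q) := by gcongr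
    _ = 100 * (CZ * (Cm + Ct + 1)) * (1 + Real.log T) ^ 4 / T := by
        rw [hQ]
        ring
    _ ≤ 100 * (CZ * (Cm + Ct + 1)) * (1 + Real.log T) ^ 5 / T := by
        have h7 : (1 + Real.log T) ^ 4 ≤ (1 + Real.log T) ^ 5 :=
          pow_le_pow_right₀ hL1 (by norm_num)
        gcongr

end Pool.Agent.N1
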