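import Mathlib

/-!
N1, block AN: extension by a bump function and the division lemma of Hadamard.
-/

namespace Pool.Agent.N1

open MeasureTheory Set Metric
open scoped ENNReal Real ContDiff Convolution

/-- Bump extension. -/
theorem ext_smooth {Q : Type*} [NormedAddCommGroup Q] [NormedSpace ℝ Q] [FiniteDimensional ℝ Q]
    (f : Q → ℝ) (q0 : Q) (r : ℝ) (hr : 0 < r) (hf : ContDiffOn ℝ ∞ f (ball q0 r)) :
    ∃ g : Q → ℝ, ContDiff ℝ ∞ g ∧ ∀ q ∈ ball q0 (r / 2), g q = f q := by
  let χ : ContDiffBump q0 := ⟨r / 2, 3 * r / 4, by linarith, by linarith⟩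
  refine ⟨fun q => χ q * f q, ?_, ?_⟩
  · rw [contDiff_iff_contDiffAt]
    intro x
    by_cases hx : x ∈ ball q0 r
    · exact (χ.contDiff (n := ⊤)).contDiffAt.mul
        ((hf x hx).contDiffAt (isOpen_ball.mem_nhds hx))
    · have h1 : ∀ᶠ y in nhds x, χ y * f y = 0 := by
        have h2 : x ∈ (closedBall q0 (3 * r / 4))ᶜ := by
          simp only [mem_compl_iff, mem_closedBall, not_le]
          simp only [mem_ball, not_lt] at hx
          linarith
        filter_upwards [(isClosed_closedBall.isOpen_compl).mem_nhds h2] with y hy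
        have h3 : χ y = 0 := by
          apply χ.zero_of_le_dist
          simp only [mem_compl_iff, mem_closedBall, not_le] at hy
          exact hy.le
        rw [h3, zero_mul]
      exact (contDiffAt_const (c := (0 : ℝ))).congr_of_eventuallyEq h1
  · intro q hq
    have h3 : χ q = 1 := by
      apply χ.one_of_mem_closedBall
      exact ball_subset_closedBall hq
    show χ q * f q = f q
    rw [h3, one_mul]

/-- Smoothness of an integral over `[0, 1]`. -/
theorem smooth_integral {P : Type*} [NormedAddCommGroup P] [NormedSpace ℝ P]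
    [FiniteDimensional ℝ P] (h : ℝ × P → ℝ) (hh : ContDiff ℝ ∞ h) :
    ContDiff ℝ ∞ (fun p : P => ∫ t in (0 : ℝ)..1, h (t, p)) := by
  let χ : ContDiffBump (0 : ℝ) := ⟨1, 2, by norm_num, by norm_num⟩
  let g : P → ℝ → ℝ := fun p x => χ x * h (-x, p)
  have hg : ContDiffOn ℝ ∞ (Function.uncurry g) ((univ : Set P) ×ˢ (univ : Set ℝ)) := by
    have h1 : ContDiff ℝ ∞ (fun z : P × ℝ => χ z.2 * h (-z.2, z.1)) :=
      ((χ.contDiff (n := ⊤)).comp contDiff_snd).mul
        (hh.comp ((contDiff_snd.neg).prodMk contDiff_fst))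
    exact h1.contDiffOn
  have hgs : ∀ p : P, ∀ x : ℝ, p ∈ (univ : Set P) → x ∉ closedBall (0 : ℝ) 2 → g p x = 0 := by
    intro p x _ hx
    have h3 : χ x = 0 := by
      apply χ.zero_of_le_dist
      simp only [mem_closedBall, not_le] at hx
      exact hx.le
    show χ x * h (-x, p) = 0
    rw [h3, zero_mul]
  have hfi : LocallyIntegrable (indicator (Ioc (0 : ℝ) 1) (fun _ => (1 : ℝ))) volume := by
    apply Integrable.locallyIntegrable
    exact (integrable_indicator_iff measurableSet_Ioc).2 (integrableOn_const (by simp) (by simp))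
  have key := contDiffOn_convolution_right_with_param (𝕜 := ℝ) (n := ⊤) (μ := (volume : Measure ℝ))
    (ContinuousLinearMap.lsmul ℝ ℝ) isOpen_univ (isCompact_closedBall (0 : ℝ) 2) hgs hfi hg
  have key2 : ContDiff ℝ ∞ (fun p : P => ((indicator (Ioc (0 : ℝ) 1) (fun _ => (1 : ℝ)))
      ⋆[ContinuousLinearMap.lsmul ℝ ℝ, volume] g p) 0) := by
    have h2 : ContDiff ℝ ∞ (fun q : P × ℝ => ((indicator (Ioc (0 : ℝ) 1) (fun _ => (1 : ℝ)))
      ⋆[ContinuousLinearMap.lsmul ℝ ℝ, volume] g q.1) q.2) := by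
      rw [← contDiffOn_univ, ← univ_prod_univ]
      exact key
    exact h2.comp (contDiff_id.prodMk contDiff_const)
  have heq : (fun p : P => ∫ t in (0 : ℝ)..1, h (t, p)) =
      (fun p : P => ((indicator (Ioc (0 : ℝ) 1) (fun _ => (1 : ℝ)))
      ⋆[ContinuousLinearMap.lsmul ℝ ℝ, volume] g p) 0) := by
    funext p
    rw [convolution_def, intervalIntegral.integral_of_le zero_le_one,
      ← integral_indicator measurableSet_Ioc]
    congr 1
    funext t
    by_cases ht : t ∈ Ioc (0 : ℝ) 1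
    · rw [indicator_of_mem ht, indicator_of_mem ht]
      have h3 : χ (0 - t) = 1 := by
        apply χ.one_of_mem_closedBall
        simp only [mem_closedBall, zero_sub, dist_zero_right, norm_neg, Real.norm_eq_abs]
        show |t| ≤ 1
        rw [abs_of_pos ht.1]
        exact ht.2
      simp only [ContinuousLinearMap.lsmul_apply, smul_eq_mul, one_mul]
      show h (t, p) = χ (0 - t) * h (-(0 - t), p)
      rw [h3, one_mul]
      congr 2
      ring
    · rw [indicator_of_notMem ht, indicator_of_notMem ht]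
      simp
  rw [heq]
  exact key2

/-- Hadamard's lemma: division by the first variable. -/
theorem hadamard {Q : Type*} [NormedAddCommGroup Q] [NormedSpace ℝ Q] [FiniteDimensional ℝ Q]
    (f : ℝ × Q → ℝ) (hf : ContDiff ℝ ∞ f) (h0 : ∀ q, f (0, q) = 0) :
    ∃ k : ℝ × Q → ℝ, ContDiff ℝ ∞ k ∧ ∀ ρ q, f (ρ, q) = ρ * k (ρ, q) := by
  have hd : ContDiff ℝ ∞ (fun z : ℝ × Q => fderiv ℝ f z (1, 0)) :=
    (hf.fderiv_right (m := ∞) (by simp)).clm_apply contDiff_const
  refine ⟨fun z => ∫ t in (0 : ℝ)..1, fderiv ℝ f (t * z.1, z.2) (1, 0), ?_, ?_⟩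
  · exact smooth_integral (P := ℝ × Q) (fun w => fderiv ℝ f (w.1 * w.2.1, w.2.2) (1, 0))
      (hd.comp (((contDiff_fst.mul (contDiff_fst.comp contDiff_snd))).prodMk
        (contDiff_snd.comp contDiff_snd)))
  · intro ρ q
    have h1 : ∀ t ∈ uIcc (0 : ℝ) 1, HasDerivAt (fun t : ℝ => f (t * ρ, q))
        (ρ * fderiv ℝ f (t * ρ, q) (1, 0)) t := by
      intro t _
      have h2 : HasFDerivAt f (fderiv ℝ f (t * ρ, q)) (t * ρ, q) :=
        (hf.differentiable (by simp)).differentiableAt.hasFDerivAt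
      have h3 : HasDerivAt (fun t : ℝ => ((t * ρ, q) : ℝ × Q)) (ρ, 0) t := by
        have h4 : HasDerivAt (fun t : ℝ => t * ρ) ρ t := by
          simpa using (hasDerivAt_id t).mul_const ρ
        exact h4.prodMk (hasDerivAt_const t q)
      have h5 := h2.comp_hasDerivAt t h3
      have h6 : fderiv ℝ f (t * ρ, q) (ρ, 0) = ρ * fderiv ℝ f (t * ρ, q) (1, 0) := by
        have h7 : ((ρ, 0) : ℝ × Q) = ρ • ((1, 0) : ℝ × Q) := by simp
        rw [h7, map_smul, smul_eq_mul]
      rw [← h6]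
      exact h5
    have h8 : Continuous (fun t : ℝ => ρ * fderiv ℝ f (t * ρ, q) (1, 0)) := by
      have h9 : Continuous (fun t : ℝ => ((t * ρ, q) : ℝ × Q)) := by fun_prop
      exact continuous_const.mul (hd.continuous.comp h9)
    have h10 := intervalIntegral.integral_eq_sub_of_hasDerivAt h1 (h8.intervalIntegrable 0 1)
    rw [intervalIntegral.integral_const_mul] at h10
    simp only [one_mul, zero_mul, h0, sub_zero] at h10
    exact h10.symm

/-- Hadamard's lemma for even functions. -/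
theorem hadamard_even {Q : Type*} [NormedAddCommGroup Q] [NormedSpace ℝ Q] [FiniteDimensional ℝ Q]
    (f : ℝ × Q → ℝ) (hf : ContDiff ℝ ∞ f) (h0 : ∀ ρ q, f (-ρ, q) = f (ρ, q)) :
    ∃ k : ℝ × Q → ℝ, ContDiff ℝ ∞ k ∧ ∀ ρ q, f (ρ, q) = f (0, q) + ρ ^ 2 * k (ρ, q) := by
  have hc : ContDiff ℝ ∞ (fun z : ℝ × Q => f z - f (0, z.2)) :=
    hf.sub (hf.comp (contDiff_const.prodMk contDiff_snd))
  obtain ⟨k1, hk1, e1⟩ := hadamard (fun z : ℝ × Q => f z - f (0, z.2)) hc (by intro q; simp)
  have hz : ∀ q, k1 (0, q) = 0 := by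
    intro q
    have hcont : Continuous (fun ρ : ℝ => k1 (ρ, q) + k1 (-ρ, q)) := by
      have a1 : Continuous (fun ρ : ℝ => ((ρ, q) : ℝ × Q)) := by fun_prop
      have a2 : Continuous (fun ρ : ℝ => ((-ρ, q) : ℝ × Q)) := by fun_prop
      exact (hk1.continuous.comp a1).add (hk1.continuous.comp a2)
    have hne : ∀ ρ : ℝ, ρ ≠ 0 → k1 (ρ, q) + k1 (-ρ, q) = 0 := by
      intro ρ hρ
      have b1 := e1 ρ q
      have b2 := e1 (-ρ) q
      simp only [h0] at b1 b2
      have b3 : ρ * (k1 (ρ, q) + k1 (-ρ, q)) = 0 := by linarith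
      rcases mul_eq_zero.1 b3 with b4 | b4
      · exact absurd b4 hρ
      · exact b4
    have heq : (fun ρ : ℝ => k1 (ρ, q) + k1 (-ρ, q)) = fun _ => (0 : ℝ) := by
      apply Continuous.ext_on (dense_compl_singleton (0 : ℝ)) hcont continuous_const
      intro ρ hρ
      exact hne ρ hρ
    have h1 := congrFun heq 0
    simp only [neg_zero] at h1
    linarith
  obtain ⟨k, hk, e2⟩ := hadamard k1 hk1 hz
  refine ⟨k, hk, ?_⟩
  intro ρ q
  have h1 := e1 ρ q
  rw [e2 ρ q] at h1
  simp only at h1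
  linarith [h1]

end Pool.Agent.N1
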