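import Pool.Agent.N1.Defs

/-!
# Block AN: internal definitions
-/

namespace Pool.Agent.N1

open MeasureTheory Set Metric Pool.Agent.MST
open scoped ContDiff

/-- the oscillatory kernel -/
noncomputable def kk (lam : ℝ) (c : ℝ → V → V → ℝ) (F : V → V → ℝ) (a b : V) : ℂ :=
  ∫ s : ℝ, ((c s a b : ℝ) : ℂ) * ex (lam * (s * F a b))

/-- The dichotomy for the phase `F`, with the size function `D`, for `a, a'` in the cell `SA` and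
`b` in `closedBall b₀ (3 ρ)`. -/
structure Dich (F : V → V → ℝ) (D : V → V → ℝ) (SA : Set V) (b₀ : V)
    (ρ c₀ C₀ s₀ s₁ : ℝ) : Prop where
  smooth : ContDiff ℝ ∞ (fun x : V × V => F x.1 x.2)
  cont : Continuous (fun x : V × V => D x.1 x.2)
  nonneg : ∀ a a', 0 ≤ D a a'
  es : ∃ e : V, ‖e‖ ≤ 1 ∧ ∀ a ∈ SA, ∀ b ∈ closedBall b₀ (3 * ρ),
    c₀ ≤ |deriv (fun t : ℝ => F a (b + t • e)) 0|
  di : ∀ a ∈ SA, ∀ a' ∈ SA,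
    (∀ b ∈ closedBall b₀ (3 * ρ), c₀ * D a a' ≤ |F a b - F a' b|) ∨
    (∀ s s' : ℝ, s₀ ≤ |s| → |s| ≤ s₁ → s₀ ≤ |s'| → |s'| ≤ s₁ → ∃ e : V, ‖e‖ ≤ 1 ∧
      ∀ b ∈ closedBall b₀ (3 * ρ), c₀ * (|s - s'| + D a a')
        ≤ |deriv (fun t : ℝ => s * F a (b + t • e) - s' * F a' (b + t • e)) 0|)
  up : ∀ a ∈ SA, ∀ a' ∈ SA, ∀ s s' : ℝ, |s| ≤ s₁ → |s'| ≤ s₁ → ∀ e : V, ‖e‖ ≤ 1 →
    ∀ b ∈ closedBall b₀ (3 * ρ), ∀ j : ℕ, 1 ≤ j → j ≤ 9 →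
      |iteratedDeriv j (fun t : ℝ => s * F a (b + t • e) - s' * F a' (b + t • e)) 0|
        ≤ C₀ * (|s - s'| + D a a')

/-- The hypotheses on the amplitude `c` and the cutoff `φ`. -/
structure Ampl (c : ℝ → V → V → ℝ) (φ : V → ℝ) (SA : Set V) (b₀ : V)
    (ρ C₀ s₀ s₁ : ℝ) : Prop where
  smooth : ContDiff ℝ ∞ (fun x : ℝ × V × V => c x.1 x.2.1 x.2.2)
  smoothφ : ContDiff ℝ ∞ φ
  supp : ∀ s a b, c s a b ≠ 0 → s₀ ≤ |s| ∧ |s| ≤ s₁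
  suppφ : ∀ b, b ∉ ball b₀ ρ → φ b = 0
  oneφ : ∀ b ∈ ball b₀ (ρ / 2), φ b = 1
  nonneg : ∀ b, 0 ≤ φ b
  le : ∀ b, φ b ≤ 1
  ds : ∀ a ∈ SA, ∀ b ∈ closedBall b₀ (3 * ρ), ∀ s : ℝ, ∀ j ≤ 8,
    |iteratedDeriv j (fun s => c s a b) s| ≤ C₀
  db : ∀ a ∈ SA, ∀ a' ∈ SA, ∀ s s' : ℝ, ∀ e : V, ‖e‖ ≤ 1 → ∀ b : V, ∀ t : ℝ, ∀ j ≤ 8,
    |iteratedDeriv j (fun t : ℝ => c s a (b + t • e) * c s' a' (b + t • e) * φ (b + t • e)) t|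
      ≤ C₀

end Pool.Agent.N1
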