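import Pool.Agent.N1.AN0

/-!
Row [N1-AN1]. One-dimensional integral of a decaying function of a strictly monotone function.

Proof. `deriv f` is continuous and nonzero on the interval `Icc α β`, so it has a constant sign there
(`IsPreconnected`/intermediate value theorem); replacing `f` by `-f` (|f| does not change) we may assume
`deriv f ≥ c₀` on `Icc α β`. Then `1/(1 + lam |f|)² ≤ (1/c₀) (1/(1 + lam |f|)²) deriv f` and
`∫_α^β (g ∘ f) * deriv f = ∫_{f α}^{f β} g` (`intervalIntegral.integral_comp_mul_deriv`), for the continuous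
function `g v = 1/(1 + lam |v|)²`. Finally `∫_{x}^{y} g ≤ ∫_ℝ g = 2 ∫_0^∞ dv/(1 + lam v)² = 2/lam`, or
directly: the antiderivative `v ↦ v/(1 + lam |v|)` of `g` takes values in `[-1/lam, 1/lam]`
(`integral_eq_sub_of_hasDerivAt`, derivative also at `0`).
-/

namespace Pool.Agent.N1

open MeasureTheory Set Metric Pool.Agent.MST
open scoped ContDiff

private theorem AN1_hasDeriv (lam : ℝ) (hl : 0 < lam) (v : ℝ) :
    HasDerivAt (fun v : ℝ => v / (1 + lam * |v|)) (1 / (1 + lam * |v|) ^ 2) v := by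
  have hpos : ∀ v : ℝ, 0 < 1 + lam * |v| := fun v => by positivity
  have hne : ∀ v : ℝ, v ≠ 0 → HasDerivAt (fun v : ℝ => v / (1 + lam * |v|))
      (1 / (1 + lam * |v|) ^ 2) v := by
    intro v hv
    have h1 := (hasDerivAt_abs hv).const_mul lam
    have h2 := h1.const_add 1
    have h3 := (hasDerivAt_id v).div h2 (hpos v).ne'
    have h4 : (1 * (1 + lam * |v|) - v * (lam * ((SignType.sign v : SignType) : ℝ)))
        / (1 + lam * |v|) ^ 2 = 1 / (1 + lam * |v|) ^ 2 := by
      congr 1
      have : v * ((SignType.sign v : SignType) : ℝ) = |v| := by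
        rcases lt_trichotomy v 0 with h | h | h
        · simp [h, abs_of_neg h]
        · exact absurd h hv
        · simp [h, abs_of_pos h]
      nlinarith [this]
    rw [← h4]
    exact h3
  by_cases hv : v = 0
  · subst hv
    refine hasDerivAt_of_hasDerivAt_of_ne (g := fun v : ℝ => 1 / (1 + lam * |v|) ^ 2)
      (fun y hy => hne y hy) ?_ ?_
    · exact (continuous_id.div (by fun_prop) fun v => (hpos v).ne').continuousAt
    · exact (continuous_const.div (by fun_prop) fun v => (pow_pos (hpos v) 2).ne').continuousAt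
  · exact hne v hv

private theorem AN1_pos (f : ℝ → ℝ) (α β c₀ lam : ℝ) (hab : α ≤ β) (hf : ContDiff ℝ 1 f)
    (hc : 0 < c₀) (hl : 0 < lam) (h : ∀ t ∈ Icc α β, c₀ ≤ deriv f t) :
    ∫ t in α..β, 1 / (1 + lam * |f t|) ^ 2 ≤ 2 / (c₀ * lam) := by
  have hpos : ∀ v : ℝ, 0 < 1 + lam * |v| := fun v => by positivity
  have hfc : Continuous f := hf.continuous
  have hf' : Continuous (deriv f) := hf.continuous_deriv le_rfl
  have hg : Continuous fun t => 1 / (1 + lam * |f t|) ^ 2 :=
    continuous_const.div (by fun_prop) fun t => (pow_pos (hpos (f t)) 2).ne'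
  have hd : ∀ t, HasDerivAt (fun t => f t / (1 + lam * |f t|))
      (1 / (1 + lam * |f t|) ^ 2 * deriv f t) t := by
    intro t
    have h1 : HasDerivAt f (deriv f t) t := (hf.differentiable one_ne_zero t).hasDerivAt
    exact (AN1_hasDeriv lam hl (f t)).comp t h1
  have hI : ∫ t in α..β, 1 / (1 + lam * |f t|) ^ 2 * deriv f t
      = f β / (1 + lam * |f β|) - f α / (1 + lam * |f α|) :=
    intervalIntegral.integral_eq_sub_of_hasDerivAt (fun t _ => hd t)
      ((hg.mul hf').intervalIntegrable α β)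
  have hb : ∀ v : ℝ, |v / (1 + lam * |v|)| ≤ 1 / lam := by
    intro v
    rw [abs_div, abs_of_pos (hpos v), div_le_div_iff₀ (hpos v) hl]
    nlinarith [abs_nonneg v]
  have hmono : ∫ t in α..β, 1 / (1 + lam * |f t|) ^ 2
      ≤ ∫ t in α..β, (1 / c₀) * (1 / (1 + lam * |f t|) ^ 2 * deriv f t) := by
    refine intervalIntegral.integral_mono_on hab (hg.intervalIntegrable α β)
      ((continuous_const.mul (hg.mul hf')).intervalIntegrable α β) ?_
    intro t ht
    have h1 := h t ht
    have h2 : 0 ≤ 1 / (1 + lam * |f t|) ^ 2 := by positivity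
    have h3 : (1 / c₀) * (1 / (1 + lam * |f t|) ^ 2 * deriv f t)
        = 1 / (1 + lam * |f t|) ^ 2 * (deriv f t / c₀) := by ring
    rw [h3]
    refine le_mul_of_one_le_right h2 ?_
    rw [le_div_iff₀ hc]; linarith
  refine hmono.trans ?_
  rw [intervalIntegral.integral_const_mul, hI]
  have h1 := (abs_le.mp (hb (f β))).2
  have h2 := (abs_le.mp (hb (f α))).1
  have h3 : f β / (1 + lam * |f β|) - f α / (1 + lam * |f α|) ≤ 2 / lam := by
    have : (2 : ℝ) / lam = 1 / lam + 1 / lam := by ring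
    rw [this]; linarith
  have h4 : (2 : ℝ) / (c₀ * lam) = (1 / c₀) * (2 / lam) := by
    field_simp
  rw [h4]
  exact mul_le_mul_of_nonneg_left h3 (by positivity)

theorem mono_int (f : ℝ → ℝ) (α β c₀ lam : ℝ) (hab : α ≤ β) (hf : ContDiff ℝ 1 f) (hc : 0 < c₀)
    (hl : 0 < lam) (h : ∀ t ∈ Icc α β, c₀ ≤ |deriv f t|) :
    ∫ t in α..β, 1 / (1 + lam * |f t|) ^ 2 ≤ 2 / (c₀ * lam) := by
  have hf' : Continuous (deriv f) := hf.continuous_deriv le_rfl
  have hcase : (∀ t ∈ Icc α β, c₀ ≤ deriv f t) ∨ (∀ t ∈ Icc α β, deriv f t ≤ -c₀) := by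
    by_contra hcon
    push Not at hcon
    obtain ⟨⟨t1, ht1, h1⟩, ⟨t2, ht2, h2⟩⟩ := hcon
    have h1' : deriv f t1 < 0 := by
      have := h t1 ht1
      rcases le_or_gt 0 (deriv f t1) with h0 | h0
      · rw [abs_of_nonneg h0] at this; linarith
      · exact h0
    have h2' : 0 < deriv f t2 := by
      have := h t2 ht2
      rcases le_or_gt (deriv f t2) 0 with h0 | h0
      · rw [abs_of_nonpos h0] at this; linarith
      · exact h0
    have h3 : (0 : ℝ) ∈ deriv f '' Icc α β :=
      isPreconnected_Icc.intermediate_value ht1 ht2 hf'.continuousOn ⟨h1'.le, h2'.le⟩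
    obtain ⟨t, ht, h0⟩ := h3
    have := h t ht
    rw [h0, abs_zero] at this
    linarith
  rcases hcase with h1 | h1
  · exact AN1_pos f α β c₀ lam hab hf hc hl h1
  · have h2 := AN1_pos (fun t => -f t) α β c₀ lam hab hf.neg hc hl (fun t ht => by
      have := h1 t ht
      rw [show deriv (fun t => -f t) t = -deriv f t from deriv.fun_neg]
      linarith)
    simpa only [abs_neg] using h2

end Pool.Agent.N1
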