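import Pool.Agent.N1.AN0
import Pool.Agent.N1.A1

/-!
Row [N1-AN10]. Amplitudes: extension and uniform bounds.

Proof of `ext_amp`: `c̃ (s, q) = c (s, q) * β q` (`0` outside the ball) with a `ContDiffBump` `β` at `q0`, inner radius `r/2`,
outer radius `3r/4`: smooth near points of `univ ×ˢ ball q0 r` (product) and near the others it is locally `0`
(the closed ball of radius `3r/4`).
Proof of `ampl`: `φ` = `ContDiffBump b₀` with `rIn = ρ/2`, `rOut = ρ` (equal to one on `closedBall b₀ (ρ/2)`,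
support `ball b₀ ρ`, values in `[0,1]`). Bounds: `iter_bdd` (MST/IT.lean) for
(ds) `Ψ (τ, (p, a, b)) = c (τ, p, a, b)`: bounded for `|τ| ≤ R`, `‖(p,a,b)‖ ≤ R`; for `|s| > |s₁|` the function
`s ↦ c (s, p, a, b)` is locally zero, so its iterated derivatives vanish;
(db) `Ψ (τ, (s, s', p, a, a', b, e)) = c (s, p, a, b + τ e) * c (s', p, a', b + τ e) * φ (b + τ e)` at `τ = 0`, and
`iteratedDeriv j (fun t => Ψ (t, (.., b, e))) t = iteratedDeriv j (fun τ => Ψ (τ, (.., b + t e, e))) 0`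
(`iteratedDeriv_comp_add_const` or similar): with `b' = b + t e`: if `b' ∉ closedBall b₀ ρ`, or `|s| > |s₁|`, or
`|s'| > |s₁|`, the function vanishes near `0`, otherwise all parameters are in a fixed ball.
`R` is chosen larger than `|s₁|`, `‖p₀‖ + δ`, `‖a₀‖ + δ`, `‖b₀‖ + 3ρ`, `1`, and of the norms of the tuples (sup norm).
-/

namespace Pool.Agent.N1

open MeasureTheory Set Metric Pool.Agent.MST
open scoped ContDiff

theorem ext_amp {Q : Type*} [NormedAddCommGroup Q] [NormedSpace ℝ Q] [FiniteDimensional ℝ Q]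
    (c : ℝ × Q → ℝ) (q0 : Q) (r : ℝ) (hr : 0 < r) (hc : ContDiffOn ℝ ∞ c (univ ×ˢ ball q0 r)) :
    ∃ g : ℝ × Q → ℝ, ContDiff ℝ ∞ g ∧ (∀ s, ∀ q ∈ ball q0 (r / 2), g (s, q) = c (s, q)) ∧
      ∀ s q, g (s, q) ≠ 0 → q ∈ ball q0 r ∧ c (s, q) ≠ 0 := by
  let χ : ContDiffBump q0 := ⟨r / 2, 3 * r / 4, by linarith, by linarith⟩
  have h0 : ∀ q, q ∉ ball q0 (3 * r / 4) → χ q = 0 := by
    intro q hq
    apply χ.zero_of_le_dist
    rw [mem_ball, not_lt] at hq
    exact hq
  refine ⟨fun z => χ z.2 * c z, ?_, ?_, ?_⟩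
  · rw [contDiff_iff_contDiffAt]
    rintro ⟨s, x⟩
    by_cases hx : x ∈ ball q0 r
    · have h1 : ContDiffAt ℝ ∞ (fun z : ℝ × Q => χ z.2) (s, x) :=
        ((χ.contDiff (n := ⊤)).comp contDiff_snd).contDiffAt
      have ho : IsOpen ((univ : Set ℝ) ×ˢ ball q0 r) := isOpen_univ.prod isOpen_ball
      exact h1.mul (hc.contDiffAt (ho.mem_nhds ⟨mem_univ _, hx⟩))
    · have h1 : ∀ᶠ y in nhds ((s, x) : ℝ × Q), χ y.2 * c y = 0 := by
        have ho : IsOpen ((univ : Set ℝ) ×ˢ (closedBall q0 (3 * r / 4))ᶜ) :=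
          isOpen_univ.prod isClosed_closedBall.isOpen_compl
        have h2 : ((s, x) : ℝ × Q) ∈ (univ : Set ℝ) ×ˢ (closedBall q0 (3 * r / 4))ᶜ := by
          refine ⟨mem_univ _, ?_⟩
          simp only [mem_compl_iff, mem_closedBall, not_le]
          simp only [mem_ball, not_lt] at hx
          linarith
        filter_upwards [ho.mem_nhds h2] with y hy
        have h3 : χ y.2 = 0 := by
          apply h0
          intro h4
          exact hy.2 (ball_subset_closedBall h4)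
        rw [h3, zero_mul]
      exact (contDiffAt_const (c := (0 : ℝ))).congr_of_eventuallyEq h1
  · intro s q hq
    have h3 : χ q = 1 := χ.one_of_mem_closedBall (ball_subset_closedBall hq)
    show χ q * c (s, q) = c (s, q)
    rw [h3, one_mul]
  · intro s q hg
    have hg' : χ q * c (s, q) ≠ 0 := hg
    refine ⟨?_, right_ne_zero_of_mul hg'⟩
    by_contra hq
    refine left_ne_zero_of_mul hg' (h0 q fun h4 => hq ?_)
    exact ball_subset_ball (by linarith) h4

theorem AN10_iter_zero (f : ℝ → ℝ) (t : ℝ) (j : ℕ) (h : ∀ᶠ x in nhds t, f x = 0) :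
    iteratedDeriv j f t = 0 := by
  have h1 : f =ᶠ[nhds t] fun _ => (0 : ℝ) := h
  rw [h1.iteratedDeriv_eq j]
  rcases j with _ | j
  · simp
  · simp

theorem ampl {P : Type*} [NormedAddCommGroup P] [NormedSpace ℝ P] [FiniteDimensional ℝ P]
    (c : ℝ × P × V × V → ℝ) (hc : ContDiff ℝ ∞ c) (s₀ s₁ : ℝ)
    (hs : ∀ s q, c (s, q) ≠ 0 → s₀ ≤ |s| ∧ |s| ≤ s₁) (p₀ : P) (a₀ b₀ : V) (δ ρ : ℝ)
    (hρ : 0 < ρ) : ∃ (φ : V → ℝ) (C₀ : ℝ), 0 ≤ C₀ ∧ ∀ p ∈ ball p₀ δ,
      Ampl (fun s a b => c (s, p, a, b)) φ (ball a₀ δ) b₀ ρ C₀ s₀ s₁ := by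
  let χ : ContDiffBump b₀ := ⟨ρ / 2, ρ, by linarith, by linarith⟩
  have hχs : ContDiff ℝ ∞ (fun b : V => χ b) := χ.contDiff (n := ⊤)
  have hz : ∀ s q, |s₁| < |s| → c (s, q) = 0 := by
    intro s q h1
    by_contra h2
    have := (hs s q h2).2
    linarith [le_abs_self s₁]
  set R : ℝ := |s₁| + ‖p₀‖ + |δ| + ‖a₀‖ + ‖b₀‖ + 3 * ρ + 1 with hR
  have n1 := norm_nonneg p₀
  have n2 := norm_nonneg a₀
  have n3 := norm_nonneg b₀
  have n4 := abs_nonneg s₁
  have n5 := abs_nonneg δ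
  have hcn : ∀ n : ℕ, ContDiff ℝ n c := fun n => hc.of_le (by exact_mod_cast le_top)
  obtain ⟨C1, hC1, hb1⟩ := iter_bdd c hcn 8 R
  let Ψ : ℝ × (ℝ × ℝ × P × V × V × V × V) → ℝ := fun z =>
    c (z.2.1, z.2.2.2.1, z.2.2.2.2.1, z.2.2.2.2.2.2.1 + z.1 • z.2.2.2.2.2.2.2) *
      c (z.2.2.1, z.2.2.2.1, z.2.2.2.2.2.1, z.2.2.2.2.2.2.1 + z.1 • z.2.2.2.2.2.2.2) *
      χ (z.2.2.2.2.2.2.1 + z.1 • z.2.2.2.2.2.2.2)
  have hΨ : ContDiff ℝ ∞ Ψ := by
    have e1 : ContDiff ℝ ∞ (fun z : ℝ × (ℝ × ℝ × P × V × V × V × V) =>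
        z.2.2.2.2.2.2.1 + z.1 • z.2.2.2.2.2.2.2) := by fun_prop
    have e2 : ContDiff ℝ ∞ (fun z : ℝ × (ℝ × ℝ × P × V × V × V × V) =>
        ((z.2.1, z.2.2.2.1, z.2.2.2.2.1, z.2.2.2.2.2.2.1 + z.1 • z.2.2.2.2.2.2.2) :
          ℝ × P × V × V)) := by fun_prop
    have e3 : ContDiff ℝ ∞ (fun z : ℝ × (ℝ × ℝ × P × V × V × V × V) =>
        ((z.2.2.1, z.2.2.2.1, z.2.2.2.2.2.1, z.2.2.2.2.2.2.1 + z.1 • z.2.2.2.2.2.2.2) :
          ℝ × P × V × V)) := by fun_prop
    exact ((hc.comp e2).mul (hc.comp e3)).mul (hχs.comp e1)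
  have hΨn : ∀ n : ℕ, ContDiff ℝ n Ψ := fun n => hΨ.of_le (by exact_mod_cast le_top)
  obtain ⟨C2, hC2, hb2⟩ := iter_bdd Ψ hΨn 8 R
  refine ⟨fun b => χ b, C1 + C2, by positivity, fun p hp => ?_⟩
  have hpn : ‖p‖ ≤ R := by
    rw [mem_ball, dist_eq_norm] at hp
    have h1 : ‖p‖ ≤ ‖p - p₀‖ + ‖p₀‖ := by
      calc ‖p‖ = ‖(p - p₀) + p₀‖ := by rw [sub_add_cancel]
        _ ≤ _ := norm_add_le _ _
    linarith [le_abs_self δ]
  have han : ∀ a ∈ ball a₀ δ, ‖a‖ ≤ R := by
    intro a ha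
    rw [mem_ball, dist_eq_norm] at ha
    have h1 : ‖a‖ ≤ ‖a - a₀‖ + ‖a₀‖ := by
      calc ‖a‖ = ‖(a - a₀) + a₀‖ := by rw [sub_add_cancel]
        _ ≤ _ := norm_add_le _ _
    linarith [le_abs_self δ]
  have hbn : ∀ b ∈ closedBall b₀ (3 * ρ), ‖b‖ ≤ R := by
    intro b hb
    rw [mem_closedBall, dist_eq_norm] at hb
    have h1 : ‖b‖ ≤ ‖b - b₀‖ + ‖b₀‖ := by
      calc ‖b‖ = ‖(b - b₀) + b₀‖ := by rw [sub_add_cancel]
        _ ≤ _ := norm_add_le _ _
    linarith
  have hzero : ∀ b, b ∉ ball b₀ ρ → χ b = 0 := by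
    intro b hb
    apply χ.zero_of_le_dist
    rw [mem_ball, not_lt] at hb
    exact hb
  refine ⟨?_, hχs, fun s a b h => hs s (p, a, b) h, hzero, ?_, fun b => χ.nonneg,
    fun b => χ.le_one, ?_, ?_⟩
  · have e1 : ContDiff ℝ ∞ (fun x : ℝ × V × V => ((x.1, p, x.2.1, x.2.2) : ℝ × P × V × V)) := by
      fun_prop
    exact hc.comp e1
  · intro b hb
    exact χ.one_of_mem_closedBall (ball_subset_closedBall hb)
  · intro a ha b hb s j hj
    by_cases hsR : |s| ≤ R
    · have hq : ‖((p, a, b) : P × V × V)‖ ≤ R := by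
        rw [Prod.norm_def, Prod.norm_def]
        exact max_le hpn (max_le (han a ha) (hbn b hb))
      exact (hb1 (p, a, b) hq s hsR j hj).trans (by linarith)
    · have h1 : iteratedDeriv j (fun s => c (s, p, a, b)) s = 0 := by
        apply AN10_iter_zero
        have ho : IsOpen {x : ℝ | |s₁| < |x|} := isOpen_lt continuous_const continuous_abs
        have hm : s ∈ {x : ℝ | |s₁| < |x|} := by
          show |s₁| < |s|
          push Not at hsR
          linarith
        filter_upwards [ho.mem_nhds hm] with x hx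
        exact hz x _ hx
      rw [h1, abs_zero]
      positivity
  · intro a ha a' ha' s s' e he b t j hj
    set b' : V := b + t • e with hb'
    have hshift : iteratedDeriv j (fun t : ℝ => c (s, p, a, b + t • e) * c (s', p, a', b + t • e) *
        χ (b + t • e)) t = iteratedDeriv j (fun τ : ℝ => Ψ (τ, (s, s', p, a, a', b', e))) 0 := by
      have h1 : (fun τ : ℝ => Ψ (τ, (s, s', p, a, a', b', e))) = fun τ : ℝ =>
          (fun t : ℝ => c (s, p, a, b + t • e) * c (s', p, a', b + t • e) *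
            χ (b + t • e)) (τ + t) := by
        funext τ
        show c (s, p, a, b' + τ • e) * c (s', p, a', b' + τ • e) * χ (b' + τ • e) =
          c (s, p, a, b + (τ + t) • e) * c (s', p, a', b + (τ + t) • e) * χ (b + (τ + t) • e)
        have h2 : b' + τ • e = b + (τ + t) • e := by
          rw [hb', add_smul]
          abel
        rw [h2]
      rw [h1]
      have h3 := congrFun (iteratedDeriv_comp_add_const j (fun t : ℝ =>
        c (s, p, a, b + t • e) * c (s', p, a', b + t • e) * χ (b + t • e)) t) 0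
      rw [h3, zero_add]
    show |iteratedDeriv j (fun t : ℝ => c (s, p, a, b + t • e) * c (s', p, a', b + t • e) *
        χ (b + t • e)) t| ≤ C1 + C2
    rw [hshift]
    by_cases h1 : |s| ≤ R ∧ |s'| ≤ R ∧ b' ∈ closedBall b₀ ρ
    · obtain ⟨h2, h3, h4⟩ := h1
      have hq : ‖((s, s', p, a, a', b', e) : ℝ × ℝ × P × V × V × V × V)‖ ≤ R := by
        simp only [Prod.norm_def]
        refine max_le ?_ (max_le ?_ (max_le hpn (max_le ?_ (max_le ?_ (max_le ?_ ?_)))))
        · rwa [Real.norm_eq_abs]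
        · rwa [Real.norm_eq_abs]
        · exact han a ha
        · exact han a' ha'
        · exact hbn b' (closedBall_subset_closedBall (by linarith) h4)
        · have : ‖e‖ ≤ R := by linarith
          exact this
      exact (hb2 _ hq 0 (by rw [abs_zero]; positivity) j hj).trans (by linarith)
    · have h5 : iteratedDeriv j (fun τ : ℝ => Ψ (τ, (s, s', p, a, a', b', e))) 0 = 0 := by
        apply AN10_iter_zero
        by_cases h2 : |s| ≤ R
        · by_cases h3 : |s'| ≤ R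
          · have h4 : b' ∉ closedBall b₀ ρ := fun h4 => h1 ⟨h2, h3, h4⟩
            have hcont : Continuous (fun τ : ℝ => b' + τ • e) := by fun_prop
            have ho : IsOpen ((fun τ : ℝ => b' + τ • e) ⁻¹' (closedBall b₀ ρ)ᶜ) :=
              isClosed_closedBall.isOpen_compl.preimage hcont
            have hm : (0 : ℝ) ∈ (fun τ : ℝ => b' + τ • e) ⁻¹' (closedBall b₀ ρ)ᶜ := by
              simpa using h4
            filter_upwards [ho.mem_nhds hm] with τ hτ
            have h6 : χ (b' + τ • e) = 0 := hzero _ fun h7 => hτ (ball_subset_closedBall h7)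
            show _ * _ * χ (b' + τ • e) = 0
            rw [h6, mul_zero]
          · refine Filter.Eventually.of_forall fun τ => ?_
            show c (s, p, a, b' + τ • e) * c (s', p, a', b' + τ • e) * χ (b' + τ • e) = 0
            rw [hz s' _ (by push Not at h3; linarith), mul_zero, zero_mul]
        · refine Filter.Eventually.of_forall fun τ => ?_
          show c (s, p, a, b' + τ • e) * c (s', p, a', b' + τ • e) * χ (b' + τ • e) = 0
          rw [hz s _ (by push Not at h2; linarith), zero_mul, zero_mul]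
      rw [h5, abs_zero]
      positivity

end Pool.Agent.N1
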