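import Pool.Agent.N1.AN0

/-!
Row [N1-AN11]. Continuity of the first and the mixed second derivative near a base point.

Proof. `G : P × V × V → ℝ` smooth. (1) For fixed `b`, `p` the function
`a ↦ G (p, a, b) - (fderiv ℝ (fun a => G (p₀, a, b₀)) a₀) a` on the ball of radius `δ` has derivative
`fderiv (G(p, ·, b)) a - fderiv (G(p₀, ·, b₀)) a₀`, of norm `≤ ε` near the base point, because
`(p, a, b) ↦ fderiv ℝ (fun a => G (p, a, b)) a` is continuous (`ContDiff.fderiv` or: it is the restriction of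
`fderiv ℝ G (p, a, b)` to `{0} × V × {0}`: `fderiv ℝ (fun a => G (p, a, b)) a u = fderiv ℝ G (p, a, b) (0, u, 0)`); mean
value inequality on the convex ball (`Convex.norm_image_sub_le_of_norm_hasFDerivWithin_le`).
(2) `deriv (fun t => G (p, a, b + t • e)) 0 = fderiv ℝ G (p, a, b) (0, 0, e)`, continuous, uniformly in `‖e‖ ≤ 1`.
(3) `H (p, a, b, e) = fderiv ℝ G (p, a, b) (0, 0, e)` is smooth in all variables and linear in `e`; apply the argument of (1) to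
the function `a ↦ H (p, a, b, e) - H' (a)`, `H' = ` the derivative of `a ↦ H (p₀, a, b₀, e)` at `a₀`, uniformly
for `‖e‖ ≤ 1`: use that `(p, a, b) ↦ (fderiv in a of the operator fderiv ℝ G (p, a, b) ∘ (0,0,·))` is
continuous with values in `V →L[ℝ] V →L[ℝ] ℝ`. The iterated derivative in the statement is
`fderiv ℝ (fun b => fderiv ℝ (fun a => G (p₀, a, b)) a₀ u) b₀ e = fderiv ℝ (fderiv ℝ G) (p₀,a₀,b₀) (0,0,e) (0,u,0)`, symmetric
in the two directions (`ContDiffAt.isSymmSndFDerivAt` / `second_derivative_symmetric`).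
-/

namespace Pool.Agent.N1

open MeasureTheory Set Metric Pool.Agent.MST
open scoped ContDiff

private lemma AN11_strict {P : Type*} [NormedAddCommGroup P] [NormedSpace ℝ P]
    {F : Type*} [NormedAddCommGroup F] [NormedSpace ℝ F]
    (G : P × V × V → F) (hG : ContDiff ℝ 1 G) (p₀ : P) (a₀ b₀ : V) (ε : ℝ) (hε : 0 < ε) :
    ∃ δ : ℝ, 0 < δ ∧ ∀ p ∈ ball p₀ δ, ∀ a ∈ ball a₀ δ, ∀ a' ∈ ball a₀ δ, ∀ b ∈ ball b₀ δ,
      ‖G (p, a, b) - G (p, a', b) - fderiv ℝ G (p₀, a₀, b₀) (0, a - a', 0)‖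
        ≤ ε * ‖a - a'‖ := by
  have h1 : HasStrictFDerivAt G (fderiv ℝ G (p₀, a₀, b₀)) (p₀, a₀, b₀) :=
    (hG.contDiffAt).hasStrictFDerivAt (by norm_num)
  have h2 := (h1.isLittleO).def hε
  rw [Metric.eventually_nhds_iff_ball] at h2
  obtain ⟨δ, hδ, h3⟩ := h2
  refine ⟨δ, hδ, fun p hp a ha a' ha' b hb => ?_⟩
  have h4 : (((p, a, b), (p, a', b)) : (P × V × V) × (P × V × V)) ∈
      ball (((p₀, a₀, b₀), (p₀, a₀, b₀)) : (P × V × V) × (P × V × V)) δ := by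
    rw [mem_ball] at *
    simp only [Prod.dist_eq, max_lt_iff] at *
    exact ⟨⟨hp, ha, hb⟩, ⟨hp, ha', hb⟩⟩
  have h5 := h3 _ h4
  have h6 : ((p, a, b) : P × V × V) - (p, a', b) = (0, a - a', 0) := by
    ext <;> simp
  have h7 : ‖((0, a - a', 0) : P × V × V)‖ = ‖a - a'‖ := by
    simp [Prod.norm_def]
  simp only [h6, h7] at h5
  exact h5

private lemma AN11_ha {P : Type*} [NormedAddCommGroup P] [NormedSpace ℝ P]
    {F : Type*} [NormedAddCommGroup F] [NormedSpace ℝ F]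
    (G : P × V × V → F) (hG : Differentiable ℝ G) (p : P) (a b : V) (u : V) :
    fderiv ℝ (fun a => G (p, a, b)) a u = fderiv ℝ G (p, a, b) (0, u, 0) := by
  have h1 : HasFDerivAt (fun a : V => ((p, a, b) : P × V × V))
      ((ContinuousLinearMap.inr ℝ P (V × V)).comp (ContinuousLinearMap.inl ℝ V V)) a := by
    have h2 : HasFDerivAt (fun a : V => ((a, b) : V × V)) (ContinuousLinearMap.inl ℝ V V) a :=
      hasFDerivAt_prodMk_left a b
    exact (hasFDerivAt_prodMk_right p (a, b)).comp a h2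
  have h3 := ((hG (p, a, b)).hasFDerivAt.comp a h1).fderiv
  have h4 : (G ∘ fun a : V => ((p, a, b) : P × V × V)) = fun a => G (p, a, b) := rfl
  rw [h4] at h3
  rw [h3]
  simp

private lemma AN11_hb {P : Type*} [NormedAddCommGroup P] [NormedSpace ℝ P]
    {F : Type*} [NormedAddCommGroup F] [NormedSpace ℝ F]
    (G : P × V × V → F) (hG : Differentiable ℝ G) (p : P) (a b : V) (u : V) :
    fderiv ℝ (fun b => G (p, a, b)) b u = fderiv ℝ G (p, a, b) (0, 0, u) := by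
  have h1 : HasFDerivAt (fun b : V => ((p, a, b) : P × V × V))
      ((ContinuousLinearMap.inr ℝ P (V × V)).comp (ContinuousLinearMap.inr ℝ V V)) b := by
    have h2 : HasFDerivAt (fun b : V => ((a, b) : V × V)) (ContinuousLinearMap.inr ℝ V V) b :=
      hasFDerivAt_prodMk_right a b
    exact (hasFDerivAt_prodMk_right p (a, b)).comp b h2
  have h3 := ((hG (p, a, b)).hasFDerivAt.comp b h1).fderiv
  have h4 : (G ∘ fun b : V => ((p, a, b) : P × V × V)) = fun b => G (p, a, b) := rfl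
  rw [h4] at h3
  rw [h3]
  simp

private lemma AN11_he {P : Type*} [NormedAddCommGroup P] [NormedSpace ℝ P]
    (G : P × V × V → ℝ) (hG : Differentiable ℝ G) (p : P) (a b e : V) :
    deriv (fun t : ℝ => G (p, a, b + t • e)) 0 = fderiv ℝ G (p, a, b) (0, 0, e) := by
  have h1 : HasDerivAt (fun t : ℝ => ((p, a, b) : P × V × V) + t • ((0, 0, e) : P × V × V))
      ((0, 0, e) : P × V × V) 0 := by
    have h3 : HasDerivAt (fun τ : ℝ => τ • ((0, 0, e) : P × V × V))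
        ((1 : ℝ) • ((0, 0, e) : P × V × V)) 0 := (hasDerivAt_id (0 : ℝ)).smul_const _
    rw [one_smul] at h3
    exact h3.const_add _
  have h2 : HasFDerivAt G (fderiv ℝ G (p, a, b))
      (((p, a, b) : P × V × V) + (0 : ℝ) • ((0, 0, e) : P × V × V)) := by
    rw [zero_smul, add_zero]
    exact (hG (p, a, b)).hasFDerivAt
  have h3 := (h2.comp_hasDerivAt (0 : ℝ) h1).deriv
  have h4 : (G ∘ fun t : ℝ => ((p, a, b) : P × V × V) + t • ((0, 0, e) : P × V × V)) =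
      fun t : ℝ => G (p, a, b + t • e) := by
    funext t
    simp
  rw [h4] at h3
  exact h3

theorem close1 {P : Type*} [NormedAddCommGroup P] [NormedSpace ℝ P] [FiniteDimensional ℝ P]
    (G : P × V × V → ℝ) (hG : ContDiff ℝ ∞ G) (p₀ : P) (a₀ b₀ : V) (ε : ℝ) (hε : 0 < ε) :
    ∃ δ : ℝ, 0 < δ ∧ ∀ p ∈ ball p₀ δ, ∀ a ∈ ball a₀ δ, ∀ a' ∈ ball a₀ δ, ∀ b ∈ ball b₀ δ,
      |G (p, a, b) - G (p, a', b) - fderiv ℝ (fun a => G (p₀, a, b₀)) a₀ (a - a')|
        ≤ ε * ‖a - a'‖ := by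
  obtain ⟨δ, hδ, h⟩ := AN11_strict G (hG.of_le (by exact_mod_cast le_top)) p₀ a₀ b₀ ε hε
  refine ⟨δ, hδ, fun p hp a ha a' ha' b hb => ?_⟩
  rw [AN11_ha G (hG.differentiable (by simp)) p₀ a₀ b₀ (a - a')]
  exact h p hp a ha a' ha' b hb

theorem close2 {P : Type*} [NormedAddCommGroup P] [NormedSpace ℝ P] [FiniteDimensional ℝ P]
    (G : P × V × V → ℝ) (hG : ContDiff ℝ ∞ G) (p₀ : P) (a₀ b₀ : V) (ε : ℝ) (hε : 0 < ε) :
    ∃ δ : ℝ, 0 < δ ∧ ∀ p ∈ ball p₀ δ, ∀ a ∈ ball a₀ δ, ∀ b ∈ ball b₀ δ, ∀ e : V, ‖e‖ ≤ 1 →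
      |deriv (fun t : ℝ => G (p, a, b + t • e)) 0 - fderiv ℝ (fun b => G (p₀, a₀, b)) b₀ e|
        ≤ ε := by
  have hd : Differentiable ℝ G := hG.differentiable (by simp)
  have hc : Continuous (fderiv ℝ G) := hG.continuous_fderiv (by simp)
  obtain ⟨δ, hδ, h⟩ := Metric.continuous_iff.mp hc (p₀, a₀, b₀) ε hε
  refine ⟨δ, hδ, fun p hp a ha b hb e he => ?_⟩
  rw [AN11_he G hd, AN11_hb G hd]
  have h1 : dist (fderiv ℝ G (p, a, b)) (fderiv ℝ G (p₀, a₀, b₀)) < ε := by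
    apply h
    rw [mem_ball] at *
    simp only [Prod.dist_eq, max_lt_iff] at *
    exact ⟨hp, ha, hb⟩
  rw [dist_eq_norm] at h1
  have h2 := (fderiv ℝ G (p, a, b) - fderiv ℝ G (p₀, a₀, b₀)).le_opNorm
    ((0, 0, e) : P × V × V)
  have h3 : ‖((0, 0, e) : P × V × V)‖ = ‖e‖ := by simp [Prod.norm_def]
  rw [h3, Real.norm_eq_abs] at h2
  have h4 : ‖fderiv ℝ G (p, a, b) - fderiv ℝ G (p₀, a₀, b₀)‖ * ‖e‖ ≤ ε * 1 :=
    mul_le_mul h1.le he (norm_nonneg _) hε.le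
  have h5 : (fderiv ℝ G (p, a, b) - fderiv ℝ G (p₀, a₀, b₀)) ((0, 0, e) : P × V × V) =
      fderiv ℝ G (p, a, b) (0, 0, e) - fderiv ℝ G (p₀, a₀, b₀) (0, 0, e) := rfl
  rw [h5] at h2
  linarith

theorem close3 {P : Type*} [NormedAddCommGroup P] [NormedSpace ℝ P] [FiniteDimensional ℝ P]
    (G : P × V × V → ℝ) (hG : ContDiff ℝ ∞ G) (p₀ : P) (a₀ b₀ : V) (ε : ℝ) (hε : 0 < ε) :
    ∃ δ : ℝ, 0 < δ ∧ ∀ p ∈ ball p₀ δ, ∀ a ∈ ball a₀ δ, ∀ a' ∈ ball a₀ δ, ∀ b ∈ ball b₀ δ,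
      ∀ e : V, ‖e‖ ≤ 1 →
      |deriv (fun t : ℝ => G (p, a, b + t • e)) 0 - deriv (fun t : ℝ => G (p, a', b + t • e)) 0
        - fderiv ℝ (fun b => fderiv ℝ (fun a => G (p₀, a, b)) a₀ (a - a')) b₀ e|
        ≤ ε * ‖a - a'‖ := by
  have hd : Differentiable ℝ G := hG.differentiable (by simp)
  have hG1 : ContDiff ℝ 1 (fderiv ℝ G) :=
    (contDiff_infty.mp hG 2).fderiv_right (by norm_num)
  have hd1 : Differentiable ℝ (fderiv ℝ G) := hG1.differentiable (by norm_num)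
  obtain ⟨δ, hδ, h⟩ := AN11_strict (fderiv ℝ G) hG1 p₀ a₀ b₀ ε hε
  refine ⟨δ, hδ, fun p hp a ha a' ha' b hb e he => ?_⟩
  rw [AN11_he G hd, AN11_he G hd]
  have h0 : (fun b => fderiv ℝ (fun a => G (p₀, a, b)) a₀ (a - a')) =
      fun b => fderiv ℝ G (p₀, a₀, b) (0, a - a', 0) := by
    funext b
    exact AN11_ha G hd p₀ a₀ b (a - a')
  rw [h0]
  have h1 : fderiv ℝ (fun b => fderiv ℝ G (p₀, a₀, b) (0, a - a', 0)) b₀ e =
      fderiv ℝ (fderiv ℝ G) (p₀, a₀, b₀) (0, 0, e) (0, a - a', 0) := by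
    have h2 := AN11_hb (fun q => fderiv ℝ G q ((0, a - a', 0) : P × V × V))
      (fun q => (hd1 q).clm_apply (differentiableAt_const _)) p₀ a₀ b₀ e
    rw [h2]
    have h3 : HasFDerivAt (fun q => fderiv ℝ G q ((0, a - a', 0) : P × V × V))
        ((fderiv ℝ (fderiv ℝ G) (p₀, a₀, b₀)).flip ((0, a - a', 0) : P × V × V)) (p₀, a₀, b₀) := by
      have h4 := (hd1 (p₀, a₀, b₀)).hasFDerivAt.clm_apply
        (hasFDerivAt_const ((0, a - a', 0) : P × V × V) (p₀, a₀, b₀))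
      simpa using h4
    rw [h3.fderiv]
    rfl
  have hsymm : fderiv ℝ (fderiv ℝ G) (p₀, a₀, b₀) (0, 0, e) (0, a - a', 0) =
      fderiv ℝ (fderiv ℝ G) (p₀, a₀, b₀) (0, a - a', 0) (0, 0, e) :=
    second_derivative_symmetric (fun y => (hd y).hasFDerivAt) (hd1 _).hasFDerivAt _ _
  rw [h1, hsymm]
  have h5 := h p hp a ha a' ha' b hb
  have h6 := (fderiv ℝ G (p, a, b) - fderiv ℝ G (p, a', b) -
    fderiv ℝ (fderiv ℝ G) (p₀, a₀, b₀) (0, a - a', 0)).le_opNorm ((0, 0, e) : P × V × V)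
  have h3 : ‖((0, 0, e) : P × V × V)‖ = ‖e‖ := by simp [Prod.norm_def]
  rw [h3, Real.norm_eq_abs] at h6
  have h7 : ‖fderiv ℝ G (p, a, b) - fderiv ℝ G (p, a', b) -
    fderiv ℝ (fderiv ℝ G) (p₀, a₀, b₀) (0, a - a', 0)‖ * ‖e‖ ≤ (ε * ‖a - a'‖) * 1 :=
    mul_le_mul h5 he (norm_nonneg _) (by positivity)
  have h8 : (fderiv ℝ G (p, a, b) - fderiv ℝ G (p, a', b) -
    fderiv ℝ (fderiv ℝ G) (p₀, a₀, b₀) (0, a - a', 0)) ((0, 0, e) : P × V × V) =
      fderiv ℝ G (p, a, b) (0, 0, e) - fderiv ℝ G (p, a', b) (0, 0, e) -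
      fderiv ℝ (fderiv ℝ G) (p₀, a₀, b₀) (0, a - a', 0) (0, 0, e) := rfl
  rw [h8] at h6
  linarith

/-- Iterated directional derivatives. -/
private noncomputable def AN11_hitD {Q : Type*} [NormedAddCommGroup Q] [NormedSpace ℝ Q] (v : Q)
    (Ψ : Q → ℝ) : ℕ → Q → ℝ
  | 0 => Ψ
  | j + 1 => fun q => fderiv ℝ (AN11_hitD v Ψ j) q v

private lemma AN11_hit_smooth {Q : Type*} [NormedAddCommGroup Q] [NormedSpace ℝ Q] (v : Q)
    (Ψ : Q → ℝ) (h : ∀ n : ℕ, ContDiff ℝ n Ψ) (j : ℕ) :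
    ∀ n : ℕ, ContDiff ℝ n (AN11_hitD v Ψ j) := by
  induction j with
  | zero => exact h
  | succ j ih =>
    intro n
    have h1 := ih (n + 1)
    have h2 : ContDiff ℝ n (fderiv ℝ (AN11_hitD v Ψ j)) :=
      h1.fderiv_right (by push_cast; exact le_rfl)
    exact h2.clm_apply contDiff_const

private lemma AN11_hit_formula {Q : Type*} [NormedAddCommGroup Q] [NormedSpace ℝ Q] (v : Q)
    (Ψ : Q → ℝ) (h : ∀ n : ℕ, ContDiff ℝ n Ψ) (j : ℕ) (q : Q) : ∀ τ : ℝ,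
    iteratedDeriv j (fun τ : ℝ => Ψ (q + τ • v)) τ = AN11_hitD v Ψ j (q + τ • v) := by
  induction j with
  | zero => intro τ; simp [AN11_hitD]
  | succ j ih =>
    intro τ
    rw [iteratedDeriv_succ, funext ih]
    have h1 : DifferentiableAt ℝ (AN11_hitD v Ψ j) (q + τ • v) :=
      ((AN11_hit_smooth v Ψ h j 1).differentiable (by norm_num)) _
    have h2 : HasDerivAt (fun τ : ℝ => q + τ • v) v τ := by
      have h3 : HasDerivAt (fun τ : ℝ => τ • v) ((1 : ℝ) • v) τ := (hasDerivAt_id τ).smul_const v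
      rw [one_smul] at h3
      exact h3.const_add q
    exact (h1.hasFDerivAt.comp_hasDerivAt τ h2).deriv

private lemma AN11_psi {P : Type*} [NormedAddCommGroup P] [NormedSpace ℝ P]
    (G : P × V × V → ℝ) (hG : ContDiff ℝ ∞ G) (n : ℕ) :
    ContDiff ℝ n (fun x : ℝ × (P × V × V × V) =>
      G (x.2.1, x.2.2.1, x.2.2.2.1 + x.1 • x.2.2.2.2)) := by
  have h1 : ContDiff ℝ n G := hG.of_le (by exact_mod_cast le_top)
  apply h1.comp
  fun_prop

/-- Uniform bounds for all derivatives of order `≤ 9` along lines in `b`. -/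
theorem line_bdd {P : Type*} [NormedAddCommGroup P] [NormedSpace ℝ P] [FiniteDimensional ℝ P]
    (G : P × V × V → ℝ) (hG : ContDiff ℝ ∞ G) (R : ℝ) : ∃ C : ℝ, 0 ≤ C ∧
    ∀ (p : P) (a b e : V), ‖p‖ ≤ R → ‖a‖ ≤ R → ‖b‖ ≤ R → ‖e‖ ≤ 1 → ∀ j ≤ 9,
      |iteratedDeriv j (fun t : ℝ => G (p, a, b + t • e)) 0| ≤ C := by
  obtain ⟨C, hC, h⟩ := iter_bdd (P := P × V × V × V)
    (fun x : ℝ × (P × V × V × V) => G (x.2.1, x.2.2.1, x.2.2.2.1 + x.1 • x.2.2.2.2))
    (AN11_psi G hG) 9 (max R 1)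
  refine ⟨C, hC, fun p a b e hp ha hb he j hj => ?_⟩
  refine h (p, a, b, e) ?_ 0 (by simp) j hj
  simp only [Prod.norm_mk]
  exact max_le (hp.trans (le_max_left _ _)) (max_le (ha.trans (le_max_left _ _))
    (max_le (hb.trans (le_max_left _ _)) (he.trans (le_max_right _ _))))

/-- The same for differences in `a` (apply the mean value inequality in `a` to the smooth function
`(p, a, b, e) ↦ iteratedDeriv j (fun t => G (p, a, b + t • e)) 0`, `hit_smooth`, `hit_formula` in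
MST/IT.lean with `Ψ (τ, p, a, b, e) = G (p, a, b + τ • e)` and the direction `(1, 0)`). -/
theorem line_lip {P : Type*} [NormedAddCommGroup P] [NormedSpace ℝ P] [FiniteDimensional ℝ P]
    (G : P × V × V → ℝ) (hG : ContDiff ℝ ∞ G) (R : ℝ) : ∃ C : ℝ, 0 ≤ C ∧
    ∀ (p : P) (a a' b e : V), ‖p‖ ≤ R → ‖a‖ ≤ R → ‖a'‖ ≤ R → ‖b‖ ≤ R → ‖e‖ ≤ 1 → ∀ j ≤ 9,
      |iteratedDeriv j (fun t : ℝ => G (p, a, b + t • e) - G (p, a', b + t • e)) 0|
        ≤ C * ‖a - a'‖ := by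
  set Ψ : ℝ × (P × V × V × V) → ℝ :=
    fun x => G (x.2.1, x.2.2.1, x.2.2.2.1 + x.1 • x.2.2.2.2) with hΨ
  have hs : ∀ n : ℕ, ContDiff ℝ n Ψ := AN11_psi G hG
  set v : ℝ × (P × V × V × V) := (1, 0) with hv
  have hb : ∀ j : ℕ, ∃ C : ℝ, ∀ q ∈ Metric.closedBall (0 : ℝ × (P × V × V × V)) (max R 1),
      ‖fderiv ℝ (AN11_hitD v Ψ j) q‖ ≤ C := by
    intro j
    have : ProperSpace (ℝ × (P × V × V × V)) :=
      FiniteDimensional.proper_real (ℝ × (P × V × V × V))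
    exact (isCompact_closedBall (0 : ℝ × (P × V × V × V)) (max R 1)).exists_bound_of_continuousOn
      (((AN11_hit_smooth v Ψ hs j 1).continuous_fderiv (by norm_num)).continuousOn)
  choose C hC using hb
  refine ⟨∑ j ∈ Finset.range (9 + 1), |C j|, Finset.sum_nonneg fun _ _ => abs_nonneg _, ?_⟩
  intro p a a' b e hp ha ha' hb he j hj
  have hf : ∀ a : V, iteratedDeriv j (fun t : ℝ => G (p, a, b + t • e)) 0 =
      AN11_hitD v Ψ j (0, (p, a, b, e)) := by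
    intro a
    have h1 := AN11_hit_formula v Ψ hs j (0, (p, a, b, e)) 0
    have h2 : ∀ τ : ℝ, ((0, (p, a, b, e)) : ℝ × (P × V × V × V)) + τ • v =
        (τ, (p, a, b, e)) := by
      intro τ
      rw [hv]
      ext <;> simp
    simp only [h2] at h1
    exact h1
  have hline : ∀ a : V, ContDiff ℝ j (fun t : ℝ => G (p, a, b + t • e)) := by
    intro a
    have h1 : ContDiff ℝ j G := hG.of_le (by exact_mod_cast le_top)
    apply h1.comp
    fun_prop
  have hsub : iteratedDeriv j (fun t : ℝ => G (p, a, b + t • e) - G (p, a', b + t • e)) 0 =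
      iteratedDeriv j (fun t : ℝ => G (p, a, b + t • e)) 0 -
      iteratedDeriv j (fun t : ℝ => G (p, a', b + t • e)) 0 :=
    iteratedDeriv_fun_sub (hline a).contDiffAt (hline a').contDiffAt
  rw [hsub, hf, hf]
  have hmem : ∀ a : V, ‖a‖ ≤ R → ((0, (p, a, b, e)) : ℝ × (P × V × V × V)) ∈
      Metric.closedBall (0 : ℝ × (P × V × V × V)) (max R 1) := by
    intro a ha
    rw [mem_closedBall_zero_iff]
    simp only [Prod.norm_mk]
    refine max_le (by simp) ?_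
    exact max_le (hp.trans (le_max_left _ _)) (max_le (ha.trans (le_max_left _ _))
      (max_le (hb.trans (le_max_left _ _)) (he.trans (le_max_right _ _))))
  have hm := (convex_closedBall (0 : ℝ × (P × V × V × V)) (max R 1)).norm_image_sub_le_of_norm_fderiv_le
    (𝕜 := ℝ) (f := AN11_hitD v Ψ j)
    (fun x _ => ((AN11_hit_smooth v Ψ hs j 1).differentiable (by norm_num)) x)
    (fun x hx => hC j x hx) (hmem a' ha') (hmem a ha)
  have h6 : ((0, (p, a, b, e)) : ℝ × (P × V × V × V)) - (0, (p, a', b, e)) =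
      (0, (0, a - a', 0, 0)) := by
    ext <;> simp
  have h7 : ‖((0, (0, a - a', 0, 0)) : ℝ × (P × V × V × V))‖ = ‖a - a'‖ := by
    simp [Prod.norm_def]
  rw [h6, h7, Real.norm_eq_abs] at hm
  refine hm.trans (mul_le_mul_of_nonneg_right ?_ (norm_nonneg _))
  refine (le_abs_self _).trans ?_
  exact Finset.single_le_sum (f := fun j => |C j|) (fun _ _ => abs_nonneg _)
    (Finset.mem_range.mpr (by omega))

end Pool.Agent.N1
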