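import Pool.Agent.N1.AN11

/-!
Row [N1-AN12]. The dichotomy in the nondegenerate case.

Proof. `ℓ u = fderiv ℝ (fun a => F (p₀, a, b₀)) a₀ u`, `M u e = fderiv ℝ (fun b => fderiv ℝ (fun a => F (p₀,a,b)) a₀ u) b₀ e`,
`β e = fderiv ℝ (fun b => F (p₀, a₀, b)) b₀ e`. Compactness: the continuous function
`(u, d) ↦ |ℓ u| + ‖M u + d β‖` (`M` linear in `u`, values in `V →L[ℝ] ℝ`) is positive on the compact set
`max ‖u‖ |d| = 1` by `hnd`, so `≥ c₁ max ‖u‖ |d|` for all `(u, d)` by homogeneity, `c₁ > 0`. [That `u ↦ M u` is linear and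
continuous: `M u e = fderiv ℝ (fderiv ℝ F) (p₀,a₀,b₀) (0,0,e) (0,u,0)`.] In particular (`u = 0`, `d = 1`)
`‖β‖ ≥ c₁`, so there is `e₁`, `‖e₁‖ ≤ 1`, `|β e₁| ≥ c₁/2`.
Choose `ε` small compared with `c₁`, `s₀`, `1/(1 + s₁)`, and `δ'` from `close1`, `close2`, `close3` with this `ε`; let `δ = δ'/4`, `ρ = δ`
(so `closedBall b₀ (3 δ) ⊆ ball b₀ δ'`). `D a a' = ‖a - a'‖`. `es`: by `close2` `|deriv ..| ≥ c₁/2 - ε ≥ c₁/4`.
`di`: `u = a - a'`. If `|ℓ u| ≥ (c₁/4) ‖u‖` then `close1` gives `|F a b - F a' b| ≥ (c₁/4 - ε) ‖u‖ ≥ (c₁/8) ‖u‖`. Otherwise for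
`s, s'`: with `d = (s - s')/s'`: `‖M u + d β‖ ≥ c₁ max ‖u‖ |d| - (c₁/4)‖u‖ ≥ (3c₁/4) max ‖u‖ |d|`, so there is `e`, `‖e‖ ≤ 1`, with
`|M u e + d β e| ≥ (c₁/2) max ‖u‖ |d|` (operator norm: `ContinuousLinearMap.exists_lt_apply_of_lt_opNorm` or by
contradiction with `opNorm_le_bound`; the case `u = 0, d = 0` is trivial, any `e`). The derivative is
`s ∂_e F(a,b) - s' ∂_e F(a',b) = s' [ (∂_e F(a,b) - ∂_e F(a',b)) + d ∂_e F(a,b) ]`, and by `close3`, `close2` the bracket differs from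
`M u e + d β e` by at most `ε ‖u‖ + ε |d|`. So `|deriv| ≥ |s'| (c₁/2 - 2ε) max ‖u‖ |d| ≥ s₀ (c₁/4) max ‖u‖ |d|`, and
`|s - s'| = |s'| |d| ≤ s₁ |d|`, so `|s - s'| + ‖u‖ ≤ (1 + s₁) max ‖u‖ |d|`: `c₀ = min (c₁/8) (s₀ c₁/(4 (1 + s₁)))`.
`up`: `s F(a,·) - s' F(a',·) = (s - s') F(a,·) + s' (F(a,·) - F(a',·))`, `line_bdd`, `line_lip`: `C₀ = C (1 + s₁)`.
If `s₁ < s₀` the conditions on `s, s'` are void; `s₁` may be replaced by `|s₁|` in the constants.
-/

namespace Pool.Agent.N1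

open MeasureTheory Set Metric Pool.Agent.MST
open scoped ContDiff

/-- Linear algebra: the nondegeneracy constant. -/
theorem AN12_const (l β : V →L[ℝ] ℝ) (M : V →L[ℝ] V →L[ℝ] ℝ)
    (hnd : ∀ (u : V) (d : ℝ), l u = 0 → (∀ e : V, M u e + d * β e = 0) → u = 0 ∧ d = 0) :
    ∃ c₁ : ℝ, 0 < c₁ ∧ ∀ (u : V) (d : ℝ), c₁ * max ‖u‖ |d| ≤ max |l u| ‖M u + d • β‖ := by
  let T : V × ℝ →ₗ[ℝ] ℝ × (V →L[ℝ] ℝ) :=
    { toFun := fun x => (l x.1, M x.1 + x.2 • β)
      map_add' := by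
        intro x y
        refine Prod.ext ?_ ?_
        · simp
        · change M (x.1 + y.1) + (x.2 + y.2) • β = M x.1 + x.2 • β + (M y.1 + y.2 • β)
          rw [map_add, add_smul]; abel
      map_smul' := by
        intro c x
        refine Prod.ext ?_ ?_
        · simp
        · change M (c • x.1) + (c * x.2) • β = c • (M x.1 + x.2 • β)
          rw [map_smul, smul_add, smul_smul] }
  have hker : LinearMap.ker T = ⊥ := by
    rw [LinearMap.ker_eq_bot']
    intro x hx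
    have h1 : l x.1 = 0 := congrArg Prod.fst hx
    have h2 : M x.1 + x.2 • β = 0 := congrArg Prod.snd hx
    obtain ⟨h3, h4⟩ := hnd x.1 x.2 h1 (fun e => by
      have := congrArg (fun f : V →L[ℝ] ℝ => f e) h2
      simpa using this)
    exact Prod.ext h3 h4
  obtain ⟨K, hK, hT⟩ := LinearMap.exists_antilipschitzWith T hker
  have hK' : (0 : ℝ) < K := by exact_mod_cast hK
  refine ⟨(K : ℝ)⁻¹, inv_pos.2 hK', fun u d => ?_⟩
  have h1 := hT.le_mul_dist (u, d) (0 : V × ℝ)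
  rw [dist_zero_right, map_zero, dist_zero_right] at h1
  have h2 : ‖((u, d) : V × ℝ)‖ = max ‖u‖ |d| := by rw [Prod.norm_def, Real.norm_eq_abs]
  have h3 : ‖T (u, d)‖ = max |l u| ‖M u + d • β‖ := by
    rw [Prod.norm_def, ← Real.norm_eq_abs]
    rfl
  rw [h2, h3] at h1
  rw [inv_mul_le_iff₀ hK']
  exact h1

/-- A vector almost attaining the operator norm. -/
theorem AN12_exists (f : V →L[ℝ] ℝ) (r : ℝ) (hr : r < ‖f‖) : ∃ e : V, ‖e‖ ≤ 1 ∧ r ≤ |f e| := by
  obtain ⟨e, he1, he2⟩ := f.exists_lt_apply_of_lt_opNorm hr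
  exact ⟨e, he1.le, by rw [← Real.norm_eq_abs]; exact he2.le⟩

/-- The mixed derivative is bilinear. -/
theorem AN12_bilin {P : Type*} [NormedAddCommGroup P] [NormedSpace ℝ P] [FiniteDimensional ℝ P]
    (F : P × V × V → ℝ) (hF : ContDiff ℝ ∞ F) (p₀ : P) (a₀ b₀ : V) :
    ∃ M : V →L[ℝ] V →L[ℝ] ℝ, ∀ u e : V,
      fderiv ℝ (fun b => fderiv ℝ (fun a => F (p₀, a, b)) a₀ u) b₀ e = M u e := by
  set g : V → (V →L[ℝ] ℝ) := fun b => fderiv ℝ (fun a => F (p₀, a, b)) a₀ with hg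
  have hgs : ContDiff ℝ 1 g := by
    have h1 : ContDiff ℝ 2 (Function.uncurry (fun (b a : V) => F (p₀, a, b))) := by
      have h2 : ContDiff ℝ ∞ (fun x : V × V => F (p₀, x.2, x.1)) :=
        hF.comp (contDiff_const.prodMk (contDiff_snd.prodMk contDiff_fst))
      exact contDiff_infty.1 h2 2
    exact ContDiff.fderiv h1 contDiff_const (by norm_num)
  have hd : HasFDerivAt g (fderiv ℝ g b₀) b₀ :=
    ((hgs.differentiable (by norm_num)) b₀).hasFDerivAt
  refine ⟨(fderiv ℝ g b₀).flip, fun u e => ?_⟩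
  have h3 : HasFDerivAt (fun b => g b u)
      ((ContinuousLinearMap.apply ℝ ℝ u).comp (fderiv ℝ g b₀)) b₀ :=
    (ContinuousLinearMap.apply ℝ ℝ u).hasFDerivAt.comp b₀ hd
  change fderiv ℝ (fun b => g b u) b₀ e = _
  rw [h3.fderiv]
  rfl

theorem RC_geo {P : Type*} [NormedAddCommGroup P] [NormedSpace ℝ P] [FiniteDimensional ℝ P]
    (F : P × V × V → ℝ) (hF : ContDiff ℝ ∞ F) (p₀ : P) (a₀ b₀ : V) (s₀ s₁ : ℝ) (hs0 : 0 < s₀)
    (hnd : ∀ (u : V) (d : ℝ), fderiv ℝ (fun a => F (p₀, a, b₀)) a₀ u = 0 →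
      (∀ e : V, fderiv ℝ (fun b => fderiv ℝ (fun a => F (p₀, a, b)) a₀ u) b₀ e +
        d * fderiv ℝ (fun b => F (p₀, a₀, b)) b₀ e = 0) → u = 0 ∧ d = 0) :
    ∃ δ₀ c₀ C₀ : ℝ, 0 < δ₀ ∧ 0 < c₀ ∧ ∀ δ : ℝ, 0 < δ → δ ≤ δ₀ → ∀ p ∈ ball p₀ δ,
      Dich (fun a b => F (p, a, b)) (fun a a' => ‖a - a'‖) (ball a₀ δ) b₀ δ c₀ C₀ s₀ s₁ := by
  obtain ⟨M, hM⟩ := AN12_bilin F hF p₀ a₀ b₀
  set l : V →L[ℝ] ℝ := fderiv ℝ (fun a => F (p₀, a, b₀)) a₀ with hl
  set β : V →L[ℝ] ℝ := fderiv ℝ (fun b => F (p₀, a₀, b)) b₀ with hβ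
  obtain ⟨c₁, hc₁, hc⟩ := AN12_const l β M (fun u d h1 h2 => hnd u d h1 (fun e => by
    rw [hM u e]; exact h2 e))
  -- the direction for `es`
  have hβn : c₁ ≤ ‖β‖ := by
    have := hc 0 1
    simpa using this
  obtain ⟨e₁, he₁, he₁'⟩ := AN12_exists β (c₁ / 2) (by linarith)
  set ε : ℝ := c₁ / 8 with hε
  have hε0 : 0 < ε := by positivity
  obtain ⟨δ1, hδ1, H1⟩ := close1 F hF p₀ a₀ b₀ ε hε0
  obtain ⟨δ2, hδ2, H2⟩ := close2 F hF p₀ a₀ b₀ ε hε0
  obtain ⟨δ3, hδ3, H3⟩ := close3 F hF p₀ a₀ b₀ ε hε0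
  set δ' : ℝ := min δ1 (min δ2 δ3) with hδ'
  have hδ'0 : 0 < δ' := lt_min hδ1 (lt_min hδ2 hδ3)
  have hle1 : δ' ≤ δ1 := min_le_left _ _
  have hle2 : δ' ≤ δ2 := (min_le_right _ _).trans (min_le_left _ _)
  have hle3 : δ' ≤ δ3 := (min_le_right _ _).trans (min_le_right _ _)
  set R : ℝ := ‖p₀‖ + ‖a₀‖ + ‖b₀‖ + δ' with hR
  obtain ⟨C, hC0, HC⟩ := line_bdd F hF R
  obtain ⟨C', hC'0, HC'⟩ := line_lip F hF R
  have hden : 0 < 4 * (1 + |s₁|) := by positivity
  set c₀ : ℝ := min (c₁ / 8) (s₀ * c₁ / (4 * (1 + |s₁|))) with hc₀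
  have hc₀0 : 0 < c₀ := lt_min (by positivity) (by positivity)
  have hc₀1 : c₀ ≤ c₁ / 8 := min_le_left _ _
  have hc₀2 : c₀ ≤ s₀ * c₁ / (4 * (1 + |s₁|)) := min_le_right _ _
  refine ⟨δ' / 4, c₀, C + |s₁| * C', by positivity, hc₀0, fun δ hδ hδle p hp => ?_⟩
  have hδ4 : 3 * δ < δ' := by linarith
  have hδ1' : δ < δ' := by linarith
  have hpb : p ∈ ball p₀ δ' := ball_subset_ball hδ1'.le hp
  have hab : ∀ a ∈ ball a₀ δ, a ∈ ball a₀ δ' := fun a ha => ball_subset_ball hδ1'.le ha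
  have hbb : ∀ b ∈ closedBall b₀ (3 * δ), b ∈ ball b₀ δ' := fun b hb =>
    closedBall_subset_ball hδ4 hb
  -- smoothness along lines
  have hline : ∀ (a b e : V), ContDiff ℝ ∞ (fun t : ℝ => F (p, a, b + t • e)) := fun a b e =>
    hF.comp (contDiff_const.prodMk (contDiff_const.prodMk
      (contDiff_const.add (contDiff_id.smul contDiff_const))))
  have hdiff : ∀ (a b e : V), DifferentiableAt ℝ (fun t : ℝ => F (p, a, b + t • e)) 0 :=
    fun a b e => ((hline a b e).differentiable (by simp)) 0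
  refine
    { smooth := hF.comp (contDiff_const.prodMk (contDiff_fst.prodMk contDiff_snd))
      cont := by fun_prop
      nonneg := fun a a' => norm_nonneg _
      es := ⟨e₁, he₁, fun a ha b hb => ?_⟩
      di := fun a ha a' ha' => ?_
      up := fun a ha a' ha' s s' hs hs' e he b hb j hj1 hj9 => ?_ }
  · have h1 := H2 p (ball_subset_ball hle2 hpb) a (ball_subset_ball hle2 (hab a ha)) b
      (ball_subset_ball hle2 (hbb b hb)) e₁ he₁
    have h2 : |β e₁| - |deriv (fun t : ℝ => F (p, a, b + t • e₁)) 0| ≤ ε := by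
      have h3 := abs_sub_abs_le_abs_sub (β e₁) (deriv (fun t : ℝ => F (p, a, b + t • e₁)) 0)
      rw [abs_sub_comm] at h3
      exact h3.trans h1
    change c₀ ≤ |deriv (fun t : ℝ => F (p, a, b + t • e₁)) 0|
    linarith
  · by_cases hcase : c₁ / 4 * ‖a - a'‖ ≤ |l (a - a')|
    · left
      intro b hb
      have h1 := H1 p (ball_subset_ball hle1 hpb) a (ball_subset_ball hle1 (hab a ha)) a'
        (ball_subset_ball hle1 (hab a' ha')) b (ball_subset_ball hle1 (hbb b hb))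
      have h4 : |l (a - a')| - |F (p, a, b) - F (p, a', b)| ≤ ε * ‖a - a'‖ :=
        (abs_sub_abs_le_abs_sub (l (a - a')) (F (p, a, b) - F (p, a', b))).trans
          (by rw [abs_sub_comm]; exact h1)
      have hn : 0 ≤ ‖a - a'‖ := norm_nonneg _
      have h5 : c₀ * ‖a - a'‖ ≤ c₁ / 8 * ‖a - a'‖ := mul_le_mul_of_nonneg_right hc₀1 hn
      change c₀ * ‖a - a'‖ ≤ |F (p, a, b) - F (p, a', b)|
      have h6 : ε * ‖a - a'‖ = c₁ / 8 * ‖a - a'‖ := rfl
      nlinarith
    · right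
      push Not at hcase
      intro s s' hs hs1 hs' hs1'
      have hs'0 : s' ≠ 0 := by
        intro h0
        rw [h0, abs_zero] at hs'
        linarith
      set u : V := a - a' with hu
      set d : ℝ := (s - s') / s' with hd
      set μ : ℝ := max ‖u‖ |d| with hμ
      have hu0 : 0 < ‖u‖ := by
        rcases (norm_nonneg u).lt_or_eq with h | h
        · exact h
        · rw [← h, mul_zero] at hcase
          exact absurd hcase (not_lt.2 (abs_nonneg _))
      have hμu : ‖u‖ ≤ μ := le_max_left _ _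
      have hμd : |d| ≤ μ := le_max_right _ _
      have hμ0 : 0 < μ := hu0.trans_le hμu
      have h1 : c₁ * μ ≤ ‖M u + d • β‖ := by
        have h2 := hc u d
        rcases le_max_iff.1 h2 with h3 | h3
        · exfalso
          have h4 : c₁ / 4 * ‖u‖ ≤ c₁ * μ := by
            have := mul_le_mul_of_nonneg_left hμu hc₁.le
            have : c₁ / 4 * ‖u‖ ≤ c₁ * ‖u‖ := by nlinarith
            linarith
          linarith
        · exact h3
      obtain ⟨e, he, he'⟩ := AN12_exists (M u + d • β) (c₁ / 2 * μ) (by nlinarith)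
      refine ⟨e, he, fun b hb => ?_⟩
      have hA2 := H2 p (ball_subset_ball hle2 hpb) a (ball_subset_ball hle2 (hab a ha)) b
        (ball_subset_ball hle2 (hbb b hb)) e he
      have hA3 := H3 p (ball_subset_ball hle3 hpb) a (ball_subset_ball hle3 (hab a ha)) a'
        (ball_subset_ball hle3 (hab a' ha')) b (ball_subset_ball hle3 (hbb b hb)) e he
      rw [← hu, hM u e] at hA3
      set Da : ℝ := deriv (fun t : ℝ => F (p, a, b + t • e)) 0 with hDa
      set Da' : ℝ := deriv (fun t : ℝ => F (p, a', b + t • e)) 0 with hDa'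
      have hder : deriv (fun t : ℝ => s * F (p, a, b + t • e) - s' * F (p, a', b + t • e)) 0
          = s * Da - s' * Da' := by
        rw [deriv_fun_sub ((hdiff a b e).const_mul s) ((hdiff a' b e).const_mul s'),
          deriv_const_mul _ (hdiff a b e), deriv_const_mul _ (hdiff a' b e)]
      change c₀ * (|s - s'| + ‖a - a'‖) ≤
        |deriv (fun t : ℝ => s * F (p, a, b + t • e) - s' * F (p, a', b + t • e)) 0|
      rw [hder]
      have hsd : s - s' = s' * d := by rw [hd]; field_simp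
      have hsplit : s * Da - s' * Da' = s' * ((Da - Da') + d * Da) := by
        have : s = s' + s' * d := by rw [← hsd]; ring
        rw [this]; ring
      rw [hsplit, abs_mul]
      have hval : (M u + d • β) e = M u e + d * β e := by simp
      rw [hval] at he'
      have hbr : c₁ / 4 * μ ≤ |(Da - Da') + d * Da| := by
        have h2 : |((Da - Da') + d * Da) - (M u e + d * β e)| ≤ ε * ‖u‖ + |d| * ε := by
          have h3 : ((Da - Da') + d * Da) - (M u e + d * β e) =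
              (Da - Da' - M u e) + d * (Da - β e) := by ring
          rw [h3]
          refine (abs_add_le _ _).trans (add_le_add hA3 ?_)
          rw [abs_mul]
          exact mul_le_mul_of_nonneg_left hA2 (abs_nonneg _)
        have h4 := abs_sub_abs_le_abs_sub (M u e + d * β e) ((Da - Da') + d * Da)
        rw [abs_sub_comm] at h4
        have h5 : ε * ‖u‖ ≤ ε * μ := mul_le_mul_of_nonneg_left hμu hε0.le
        have h6 : |d| * ε ≤ μ * ε := mul_le_mul_of_nonneg_right hμd hε0.le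
        have h7 : ε * μ = c₁ / 8 * μ := rfl
        nlinarith
      have hs'1 : |s'| ≤ |s₁| := hs1'.trans (le_abs_self _)
      have h8 : |s - s'| + ‖a - a'‖ ≤ (1 + |s₁|) * μ := by
        rw [hsd, abs_mul, ← hu]
        have h9 : |s'| * |d| ≤ |s₁| * μ :=
          mul_le_mul hs'1 hμd (abs_nonneg _) (abs_nonneg _)
        nlinarith
      calc c₀ * (|s - s'| + ‖a - a'‖) ≤ c₀ * ((1 + |s₁|) * μ) :=
            mul_le_mul_of_nonneg_left h8 hc₀0.le
        _ ≤ (s₀ * c₁ / (4 * (1 + |s₁|))) * ((1 + |s₁|) * μ) :=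
            mul_le_mul_of_nonneg_right hc₀2 (by positivity)
        _ = s₀ * (c₁ / 4 * μ) := by
            have : (1 + |s₁|) ≠ 0 := by positivity
            field_simp
        _ ≤ |s'| * |(Da - Da') + d * Da| :=
            mul_le_mul hs' hbr (by positivity) (abs_nonneg _)
  · have hpR : ‖p‖ ≤ R := by
      have h1 : ‖p - p₀‖ < δ' := by rw [← dist_eq_norm]; exact mem_ball.1 hpb
      have h2 := norm_le_norm_add_norm_sub' p p₀
      have h3 := norm_nonneg a₀
      have h4 := norm_nonneg b₀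
      linarith
    have haR : ∀ x ∈ ball a₀ δ, ‖x‖ ≤ R := by
      intro x hx
      have h1 : ‖x - a₀‖ < δ' := by rw [← dist_eq_norm]; exact mem_ball.1 (hab x hx)
      have h2 := norm_le_norm_add_norm_sub' x a₀
      have h3 := norm_nonneg p₀
      have h4 := norm_nonneg b₀
      linarith
    have hbR : ‖b‖ ≤ R := by
      have h1 : ‖b - b₀‖ < δ' := by rw [← dist_eq_norm]; exact mem_ball.1 (hbb b hb)
      have h2 := norm_le_norm_add_norm_sub' b b₀
      have h3 := norm_nonneg p₀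
      have h4 := norm_nonneg a₀
      linarith
    have h1 := HC p a b e hpR (haR a ha) hbR he j hj9
    have h2 := HC' p a a' b e hpR (haR a ha) (haR a' ha') hbR he j hj9
    have hc1 : ContDiffAt ℝ j (fun t : ℝ => F (p, a, b + t • e)) 0 :=
      ((hline a b e).of_le (by exact_mod_cast le_top)).contDiffAt
    have hc2 : ContDiffAt ℝ j (fun t : ℝ => F (p, a', b + t • e)) 0 :=
      ((hline a' b e).of_le (by exact_mod_cast le_top)).contDiffAt
    have hc3 : ContDiffAt ℝ j (fun t : ℝ => F (p, a, b + t • e) - F (p, a', b + t • e)) 0 :=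
      hc1.sub hc2
    have hfun : (fun t : ℝ => s * F (p, a, b + t • e) - s' * F (p, a', b + t • e)) =
        (fun t : ℝ => (s - s') * F (p, a, b + t • e)) +
          (fun t : ℝ => s' * (F (p, a, b + t • e) - F (p, a', b + t • e))) := by
      funext t
      simp only [Pi.add_apply]
      ring
    change |iteratedDeriv j (fun t : ℝ => s * F (p, a, b + t • e) -
      s' * F (p, a', b + t • e)) 0| ≤ (C + |s₁| * C') * (|s - s'| + ‖a - a'‖)
    rw [hfun, iteratedDeriv_add (contDiffAt_const.mul hc1) (contDiffAt_const.mul hc3),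
      iteratedDeriv_const_mul _ hc1, iteratedDeriv_const_mul _ hc3]
    refine (abs_add_le _ _).trans ?_
    rw [abs_mul, abs_mul]
    have hs'1 : |s'| ≤ |s₁| := hs'.trans (le_abs_self _)
    have h3 : |s - s'| * |iteratedDeriv j (fun t : ℝ => F (p, a, b + t • e)) 0| ≤ |s - s'| * C :=
      mul_le_mul_of_nonneg_left h1 (abs_nonneg _)
    have h4 : |s'| * |iteratedDeriv j (fun t : ℝ => F (p, a, b + t • e) -
        F (p, a', b + t • e)) 0| ≤ |s₁| * (C' * ‖a - a'‖) :=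
      mul_le_mul hs'1 h2 (abs_nonneg _) (abs_nonneg _)
    have h5 : 0 ≤ C * ‖a - a'‖ := mul_nonneg hC0 (norm_nonneg _)
    have h6 : 0 ≤ |s₁| * C' * |s - s'| := by positivity
    nlinarith

end Pool.Agent.N1
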