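import Pool.Agent.N1.AN1

/-!
Row [N1-AN9]. The two volume integrals.

Proof. (1) is the special case of the estimate `(1 + lam ‖a - a'‖)⁶ ≥ ∏_{i=1}^3 (1 + lam |a_i - a'_i|)²` (sup norm),
`∫_{x ∈ ℝ} dx/(1 + lam |y - x|)² ≤ 2/lam`, so the inner integral is `≤ (2/lam)³` (the integral over the ball is at most
the one over `V = ℝ × ℝ × ℝ`, `integral_prod_mul`; or over a box containing the ball with `mono_int` for
`f x = x - y`), and the outer one adds the volume of `ball a₀ δ`.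
(2) `(1 + lam (|w a - w a'| + κ ‖a - a'‖))⁶ ≥ (1 + lam |w a - w a'|)² (1 + lam κ |a_2 - a'_2|)² (1 + lam κ |a_3 - a'_3|)²`.
The ball `ball a₀ δ` is the product `(Ioo) × (Ioo) × (Ioo)` of intervals of radius `δ` (sup norm). For fixed `a`, `a'_2`, `a'_3` the integral in
`a'_1` over the interval of `1/(1 + lam |w a - w (a'_1, a'_2, a'_3)|)²` is `≤ 2/(c₀ lam)` by `mono_int` (AN1)
(`f x = w (x, a'_2, a'_3) - w a`, closed interval; `deriv f x` is the derivative in the hypothesis);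
the other two integrals are `≤ 2/(lam κ)` each. So the inner integral is `≤ 8/(c₀ lam³ κ²)`.
-/

namespace Pool.Agent.N1

open MeasureTheory Set Metric Pool.Agent.MST
open scoped ContDiff

private theorem AN9_ball (a₀ : V) (δ : ℝ) :
    ball a₀ δ = ball a₀.1 δ ×ˢ ball a₀.2 δ := by
  rw [ball_prod_same]

private theorem AN9_ball2 (a₀ : ℝ × ℝ) (δ : ℝ) :
    ball a₀ δ = ball a₀.1 δ ×ˢ ball a₀.2 δ := by
  rw [ball_prod_same]

/-- integral of a product dominated function over a ball in `V` -/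
private theorem AN9_inner (a₀ : V) (δ : ℝ) (G g1 : V → ℝ) (g2 g3 : ℝ → ℝ) (M1 M2 M3 : ℝ)
    (hg1 : Continuous g1) (hg2 : Continuous g2) (hg3 : Continuous g3)
    (p0 : ∀ a, 0 ≤ G a) (p2 : ∀ y, 0 ≤ g2 y) (p3 : ∀ y, 0 ≤ g3 y)
    (hM1 : 0 ≤ M1) (hM2 : 0 ≤ M2)
    (hle : ∀ a : V, G a ≤ g1 a * (g2 a.2.1 * g3 a.2.2))
    (h1 : ∀ v ∈ ball a₀.2 δ, ∫ x in ball a₀.1 δ, g1 (x, v) ≤ M1)
    (h2 : ∫ y in ball a₀.2.1 δ, g2 y ≤ M2) (h3 : ∫ y in ball a₀.2.2 δ, g3 y ≤ M3) :
    ∫ a in ball a₀ δ, G a ≤ M1 * (M2 * M3) := by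
  have hcG : Continuous (fun a : V => g1 a * (g2 a.2.1 * g3 a.2.2)) := by fun_prop
  have hcompact : IsCompact (closure (ball a₀ δ)) :=
    (isBounded_ball (x := a₀) (r := δ)).isCompact_closure
  have hI : IntegrableOn (fun a : V => g1 a * (g2 a.2.1 * g3 a.2.2)) (ball a₀ δ) volume :=
    (hcG.continuousOn.integrableOn_compact hcompact).mono_set subset_closure
  have hstep1 : ∫ a in ball a₀ δ, G a ≤ ∫ a in ball a₀ δ, g1 a * (g2 a.2.1 * g3 a.2.2) := by
    refine integral_mono_of_nonneg ?_ hI ?_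
    · exact Filter.Eventually.of_forall p0
    · exact Filter.Eventually.of_forall hle
  refine hstep1.trans ?_
  -- Fubini
  have hprod : ∫ a in ball a₀ δ, g1 a * (g2 a.2.1 * g3 a.2.2) =
      ∫ v in ball a₀.2 δ, ∫ x in ball a₀.1 δ, g1 (x, v) * (g2 v.1 * g3 v.2) := by
    have hI' : IntegrableOn (fun a : V => g1 a * (g2 a.2.1 * g3 a.2.2))
        (ball a₀.1 δ ×ˢ ball a₀.2 δ) ((volume : Measure ℝ).prod (volume : Measure (ℝ × ℝ))) := by
      rw [← AN9_ball]; exact hI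
    have e1 : ∫ a in ball a₀ δ, g1 a * (g2 a.2.1 * g3 a.2.2) =
        ∫ x in ball a₀.1 δ, ∫ v in ball a₀.2 δ, g1 (x, v) * (g2 v.1 * g3 v.2) := by
      rw [AN9_ball]
      exact setIntegral_prod _ hI'
    rw [e1]
    apply integral_integral_swap
    rw [Measure.prod_restrict]
    exact hI'
  rw [hprod]
  have hmain : ∀ v ∈ ball a₀.2 δ, ∫ x in ball a₀.1 δ, g1 (x, v) * (g2 v.1 * g3 v.2) ≤
      M1 * (g2 v.1 * g3 v.2) := by
    intro v hv
    rw [integral_mul_const]
    exact mul_le_mul_of_nonneg_right (h1 v hv) (mul_nonneg (p2 _) (p3 _))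
  have hcomp2 : IsCompact (closure (ball a₀.2 δ)) :=
    (isBounded_ball (x := a₀.2) (r := δ)).isCompact_closure
  have hI2 : IntegrableOn (fun v : ℝ × ℝ => M1 * (g2 v.1 * g3 v.2)) (ball a₀.2 δ) volume := by
    have hc : Continuous (fun v : ℝ × ℝ => M1 * (g2 v.1 * g3 v.2)) := by fun_prop
    exact (hc.continuousOn.integrableOn_compact hcomp2).mono_set subset_closure
  have hIL : Integrable (fun v : ℝ × ℝ => ∫ x in ball a₀.1 δ, g1 (x, v) * (g2 v.1 * g3 v.2))
      (volume.restrict (ball a₀.2 δ)) := by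
    have hI' : IntegrableOn (fun a : V => g1 a * (g2 a.2.1 * g3 a.2.2))
        (ball a₀.1 δ ×ˢ ball a₀.2 δ) ((volume : Measure ℝ).prod (volume : Measure (ℝ × ℝ))) := by
      rw [← AN9_ball]; exact hI
    rw [IntegrableOn, ← Measure.prod_restrict] at hI'
    exact hI'.integral_prod_right
  have hstep2 : ∫ v in ball a₀.2 δ, ∫ x in ball a₀.1 δ, g1 (x, v) * (g2 v.1 * g3 v.2) ≤
      ∫ v in ball a₀.2 δ, M1 * (g2 v.1 * g3 v.2) := by
    refine setIntegral_mono_on hIL hI2 measurableSet_ball hmain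
  refine hstep2.trans ?_
  rw [integral_const_mul]
  refine mul_le_mul_of_nonneg_left ?_ hM1
  have e2 : ∫ v in ball a₀.2 δ, g2 v.1 * g3 v.2 =
      (∫ y in ball a₀.2.1 δ, g2 y) * ∫ y in ball a₀.2.2 δ, g3 y := by
    rw [AN9_ball2]
    exact setIntegral_prod_mul g2 g3 _ _
  rw [e2]
  have n3 : 0 ≤ ∫ y in ball a₀.2.2 δ, g3 y := integral_nonneg p3
  exact mul_le_mul h2 h3 n3 hM2

/-- one-dimensional integral over a ball -/
private theorem AN9_one (x₀ δ c₀ lam : ℝ) (hδ : 0 < δ) (f : ℝ → ℝ) (hf : ContDiff ℝ 1 f)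
    (hc : 0 < c₀) (hl : 0 < lam) (h : ∀ t ∈ closedBall x₀ δ, c₀ ≤ |deriv f t|) :
    ∫ t in ball x₀ δ, 1 / (1 + lam * |f t|) ^ 2 ≤ 2 / (c₀ * lam) := by
  have hab : x₀ - δ ≤ x₀ + δ := by linarith
  have := mono_int f (x₀ - δ) (x₀ + δ) c₀ lam hab hf hc hl (by
    intro t ht
    apply h
    rw [Real.closedBall_eq_Icc]
    exact ht)
  rw [intervalIntegral.integral_of_le hab, integral_Ioc_eq_integral_Ioo] at this
  rw [Real.ball_eq_Ioo]
  exact this

private theorem AN9_cont1 (lam : ℝ) (hl : 0 < lam) (f : V → ℝ) (hf : Continuous f) :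
    Continuous (fun a : V => 1 / (1 + lam * |f a|) ^ 2) := by
  refine Continuous.div continuous_const ?_ ?_
  · exact (continuous_const.add (continuous_const.mul hf.abs)).pow 2
  · intro x
    positivity

private theorem AN9_cont2 (lam y : ℝ) (hl : 0 < lam) :
    Continuous (fun x : ℝ => 1 / (1 + lam * |x - y|) ^ 2) := by
  refine Continuous.div continuous_const ?_ ?_
  · exact (continuous_const.add (continuous_const.mul (continuous_id.sub continuous_const).abs)).pow 2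
  · intro x
    positivity

private theorem AN9_lin (x₀ δ lam y : ℝ) (hδ : 0 < δ) (hl : 0 < lam) :
    ∫ t in ball x₀ δ, 1 / (1 + lam * |t - y|) ^ 2 ≤ 2 / lam := by
  have := AN9_one x₀ δ 1 lam hδ (fun t => t - y) (by fun_prop) one_pos hl (by
    intro t _
    have : deriv (fun t : ℝ => t - y) t = 1 := by
      rw [deriv_sub_const]; simp
    rw [this]; simp)
  simpa using this

private theorem AN9_alg (X p q r : ℝ) (hp : 0 ≤ p) (hq : 0 ≤ q) (hr : 0 ≤ r)
    (hpX : p ≤ X) (hqX : q ≤ X) (hrX : r ≤ X) :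
    1 / (1 + X) ^ 6 ≤ 1 / (1 + p) ^ 2 * (1 / (1 + q) ^ 2 * (1 / (1 + r) ^ 2)) := by
  have hX : 0 ≤ X := hp.trans hpX
  rw [one_div_mul_one_div, one_div_mul_one_div]
  apply one_div_le_one_div_of_le
  · positivity
  · have e : (1 + X) ^ 6 = (1 + X) ^ 2 * ((1 + X) ^ 2 * (1 + X) ^ 2) := by ring
    rw [e]
    gcongr

theorem vol_RC (a₀ : V) (δ : ℝ) : ∃ C : ℝ, 0 ≤ C ∧ ∀ lam : ℝ, 0 < lam →
    ∫ a in ball a₀ δ, ∫ a' in ball a₀ δ, 1 / (1 + lam * ‖a - a'‖) ^ 6 ≤ C / lam ^ 3 := by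
  refine ⟨8 * volume.real (ball a₀ δ), by positivity, ?_⟩
  intro lam hlam
  rcases le_or_gt δ 0 with hδ | hδ
  · rw [ball_eq_empty.2 hδ]; simp
  have hin : ∀ a : V, ∫ a' in ball a₀ δ, 1 / (1 + lam * ‖a - a'‖) ^ 6 ≤ 8 / lam ^ 3 := by
    intro a
    have key := AN9_inner a₀ δ (fun a' => 1 / (1 + lam * ‖a - a'‖) ^ 6)
      (fun a' => 1 / (1 + lam * |a'.1 - a.1|) ^ 2) (fun y => 1 / (1 + lam * |y - a.2.1|) ^ 2)
      (fun y => 1 / (1 + lam * |y - a.2.2|) ^ 2) (2 / lam) (2 / lam) (2 / lam)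
      (AN9_cont1 lam hlam (fun a' => a'.1 - a.1) (by fun_prop))
      (AN9_cont2 lam _ hlam) (AN9_cont2 lam _ hlam)
      (fun a' => by positivity) (fun a' => by positivity) (fun a' => by positivity)
      (by positivity) (by positivity) ?_ ?_ ?_ ?_
    · refine key.trans (le_of_eq ?_)
      field_simp
      norm_num
    · intro a'
      have n1 : |a'.1 - a.1| ≤ ‖a - a'‖ := by
        rw [abs_sub_comm]
        exact norm_fst_le (a - a')
      have n2 : |a'.2.1 - a.2.1| ≤ ‖a - a'‖ := by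
        rw [abs_sub_comm]
        exact (norm_fst_le (a - a').2).trans (norm_snd_le (a - a'))
      have n3 : |a'.2.2 - a.2.2| ≤ ‖a - a'‖ := by
        rw [abs_sub_comm]
        exact (norm_snd_le (a - a').2).trans (norm_snd_le (a - a'))
      exact AN9_alg _ _ _ _ (by positivity) (by positivity) (by positivity)
        (by gcongr) (by gcongr) (by gcongr)
    · intro v _
      exact AN9_lin a₀.1 δ lam a.1 hδ hlam
    · exact AN9_lin a₀.2.1 δ lam a.2.1 hδ hlam
    · exact AN9_lin a₀.2.2 δ lam a.2.2 hδ hlam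
  have hb := norm_setIntegral_le_of_norm_le_const (μ := volume) (s := ball a₀ δ)
    (f := fun a : V => ∫ a' in ball a₀ δ, 1 / (1 + lam * ‖a - a'‖) ^ 6) (C := 8 / lam ^ 3)
    measure_ball_lt_top (by
      intro a _
      rw [Real.norm_of_nonneg (integral_nonneg fun a' => by positivity)]
      exact hin a)
  refine (le_abs_self _).trans (hb.trans (le_of_eq ?_))
  ring

theorem vol_HL (a₀ : V) (δ c₀ : ℝ) (hc : 0 < c₀) : ∃ C : ℝ, 0 ≤ C ∧ ∀ (w : V → ℝ) (lam κ : ℝ),
    ContDiff ℝ ∞ w → 0 < lam → 0 < κ →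
    (∀ a ∈ closedBall a₀ δ, c₀ ≤ |deriv (fun x : ℝ => w (x, a.2)) a.1|) →
    ∫ a in ball a₀ δ, ∫ a' in ball a₀ δ, 1 / (1 + lam * (|w a - w a'| + κ * ‖a - a'‖)) ^ 6
      ≤ C / (lam ^ 3 * κ ^ 2) := by
  refine ⟨8 / c₀ * volume.real (ball a₀ δ), by positivity, ?_⟩
  intro w lam κ hw hlam hκ hder
  rcases le_or_gt δ 0 with hδ | hδ
  · rw [ball_eq_empty.2 hδ]; simp
  have hlk : 0 < lam * κ := mul_pos hlam hκ
  have hin : ∀ a : V, ∫ a' in ball a₀ δ, 1 / (1 + lam * (|w a - w a'| + κ * ‖a - a'‖)) ^ 6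
      ≤ 8 / c₀ / (lam ^ 3 * κ ^ 2) := by
    intro a
    have key := AN9_inner a₀ δ (fun a' => 1 / (1 + lam * (|w a - w a'| + κ * ‖a - a'‖)) ^ 6)
      (fun a' => 1 / (1 + lam * |w a' - w a|) ^ 2)
      (fun y => 1 / (1 + lam * κ * |y - a.2.1|) ^ 2)
      (fun y => 1 / (1 + lam * κ * |y - a.2.2|) ^ 2) (2 / (c₀ * lam)) (2 / (lam * κ))
      (2 / (lam * κ))
      (AN9_cont1 lam hlam (fun a' => w a' - w a) (hw.continuous.sub continuous_const))
      (AN9_cont2 (lam * κ) _ hlk) (AN9_cont2 (lam * κ) _ hlk)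
      (fun a' => by positivity) (fun a' => by positivity) (fun a' => by positivity)
      (by positivity) (by positivity) ?_ ?_ ?_ ?_
    · refine key.trans (le_of_eq ?_)
      field_simp
      norm_num
    · intro a'
      have n2 : |a'.2.1 - a.2.1| ≤ ‖a - a'‖ := by
        rw [abs_sub_comm]
        exact (norm_fst_le (a - a').2).trans (norm_snd_le (a - a'))
      have n3 : |a'.2.2 - a.2.2| ≤ ‖a - a'‖ := by
        rw [abs_sub_comm]
        exact (norm_snd_le (a - a').2).trans (norm_snd_le (a - a'))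
      have hk2 : lam * κ * |a'.2.1 - a.2.1| ≤ lam * (|w a - w a'| + κ * ‖a - a'‖) := by
        have h1 : κ * |a'.2.1 - a.2.1| ≤ |w a - w a'| + κ * ‖a - a'‖ := by
          have := mul_le_mul_of_nonneg_left n2 hκ.le
          have := abs_nonneg (w a - w a')
          linarith
        calc lam * κ * |a'.2.1 - a.2.1| = lam * (κ * |a'.2.1 - a.2.1|) := by ring
          _ ≤ _ := mul_le_mul_of_nonneg_left h1 hlam.le
      have hk3 : lam * κ * |a'.2.2 - a.2.2| ≤ lam * (|w a - w a'| + κ * ‖a - a'‖) := by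
        have h1 : κ * |a'.2.2 - a.2.2| ≤ |w a - w a'| + κ * ‖a - a'‖ := by
          have := mul_le_mul_of_nonneg_left n3 hκ.le
          have := abs_nonneg (w a - w a')
          linarith
        calc lam * κ * |a'.2.2 - a.2.2| = lam * (κ * |a'.2.2 - a.2.2|) := by ring
          _ ≤ _ := mul_le_mul_of_nonneg_left h1 hlam.le
      have hk1 : lam * |w a' - w a| ≤ lam * (|w a - w a'| + κ * ‖a - a'‖) := by
        apply mul_le_mul_of_nonneg_left _ hlam.le
        rw [abs_sub_comm]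
        have : 0 ≤ κ * ‖a - a'‖ := by positivity
        linarith
      exact AN9_alg _ _ _ _ (by positivity) (by positivity) (by positivity) hk1 hk2 hk3
    · intro v hv
      have hf : ContDiff ℝ 1 (fun x : ℝ => w (x, v) - w a) := by
        have : ContDiff ℝ ∞ (fun x : ℝ => w (x, v) - w a) :=
          (hw.comp (contDiff_id.prodMk contDiff_const)).sub contDiff_const
        exact this.of_le (by exact_mod_cast le_top)
      refine AN9_one a₀.1 δ c₀ lam hδ (fun x => w (x, v) - w a) hf hc hlam ?_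
      intro t ht
      rw [deriv_sub_const]
      have hmem : ((t, v) : V) ∈ closedBall a₀ δ := by
        rw [show a₀ = (a₀.1, a₀.2) from rfl, ← closedBall_prod_same]
        exact ⟨ht, ball_subset_closedBall hv⟩
      exact hder (t, v) hmem
    · exact AN9_lin a₀.2.1 δ (lam * κ) a.2.1 hδ hlk
    · exact AN9_lin a₀.2.2 δ (lam * κ) a.2.2 hδ hlk
  have hb := norm_setIntegral_le_of_norm_le_const (μ := volume) (s := ball a₀ δ)
    (f := fun a : V => ∫ a' in ball a₀ δ, 1 / (1 + lam * (|w a - w a'| + κ * ‖a - a'‖)) ^ 6)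
    (C := 8 / c₀ / (lam ^ 3 * κ ^ 2)) measure_ball_lt_top (by
      intro a _
      rw [Real.norm_of_nonneg (integral_nonneg fun a' => by positivity)]
      exact hin a)
  refine (le_abs_self _).trans (hb.trans (le_of_eq ?_))
  ring

end Pool.Agent.N1
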