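import Pool.Agent.N1.AN8
import Pool.Agent.N1.AN9
import Pool.Agent.N1.AN10
import Pool.Agent.N1.AN12

/-!
The local oscillatory estimate, nondegenerate case (interface statement RC).
-/

namespace Pool.Agent.N1

open MeasureTheory Set Metric Pool.Agent.MP_6cbfb8_an Pool.Agent.MST
open scoped ENNReal Real ContDiff

theorem Dich.mono {F : V → V → ℝ} {D : V → V → ℝ} {SA : Set V} {b₀ : V}
    {ρ c₀ C₀ C₁ s₀ s₁ : ℝ} (h : Dich F D SA b₀ ρ c₀ C₀ s₀ s₁) (hC : C₀ ≤ C₁) :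
    Dich F D SA b₀ ρ c₀ C₁ s₀ s₁ where
  smooth := h.smooth
  cont := h.cont
  nonneg := h.nonneg
  es := h.es
  di := h.di
  up := by
    intro a ha a' ha' s s' hs hs' e he b hb j h1 h2
    refine (h.up a ha a' ha' s s' hs hs' e he b hb j h1 h2).trans ?_
    have := h.nonneg a a'
    exact mul_le_mul_of_nonneg_right hC (by positivity)

theorem Ampl.mono {c : ℝ → V → V → ℝ} {φ : V → ℝ} {SA : Set V} {b₀ : V}
    {ρ C₀ C₁ s₀ s₁ : ℝ} (h : Ampl c φ SA b₀ ρ C₀ s₀ s₁) (hC : C₀ ≤ C₁) :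
    Ampl c φ SA b₀ ρ C₁ s₀ s₁ where
  smooth := h.smooth
  smoothφ := h.smoothφ
  supp := h.supp
  suppφ := h.suppφ
  oneφ := h.oneφ
  nonneg := h.nonneg
  le := h.le
  ds := fun a ha b hb s j hj => (h.ds a ha b hb s j hj).trans hC
  db := fun a ha a' ha' s s' e he b t j hj => (h.db a ha a' ha' s s' e he b t j hj).trans hC

theorem mem_ball3 {P : Type*} [NormedAddCommGroup P] {p p0 : P} {a a0 b b0 : V} {r : ℝ} :
    ((p, a, b) : P × V × V) ∈ ball ((p0, a0, b0) : P × V × V) r ↔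
      p ∈ ball p0 r ∧ a ∈ ball a0 r ∧ b ∈ ball b0 r := by
  simp only [mem_ball, Prod.dist_eq, max_lt_iff]

theorem RC {P : Type*} [NormedAddCommGroup P] [NormedSpace ℝ P] [FiniteDimensional ℝ P]
    (F : P × V × V → ℝ) (c : ℝ × P × V × V → ℝ) (p0 : P) (a0 b0 : V) (r s0 s1 : ℝ)
    (hr : 0 < r) (hs0 : 0 < s0)
    (hF : ContDiffOn ℝ ∞ F (ball (p0, a0, b0) r))
    (hc : ContDiffOn ℝ ∞ c (univ ×ˢ ball (p0, a0, b0) r))
    (hcs : ∀ s, ∀ q ∈ ball (p0, a0, b0) r, c (s, q) ≠ 0 → s0 ≤ |s| ∧ |s| ≤ s1)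
    (hnd : ∀ (u : V) (d : ℝ), fderiv ℝ (fun a => F (p0, a, b0)) a0 u = 0 →
      (∀ e : V, fderiv ℝ (fun b => fderiv ℝ (fun a => F (p0, a, b)) a0 u) b0 e +
        d * fderiv ℝ (fun b => F (p0, a0, b)) b0 e = 0) → u = 0 ∧ d = 0) :
    ∃ δ : ℝ, 0 < δ ∧ ∃ C : ℝ, 0 ≤ C ∧ ∀ p ∈ ball p0 δ, ∀ lam : ℝ, 0 < lam →
      ∀ A B : V → ℂ, Measurable A → Measurable B → (∀ a, ‖A a‖ ≤ 1) → (∀ b, ‖B b‖ ≤ 1) →
      (∀ a, A a ≠ 0 → a ∈ ball a0 δ) → (∀ b, B b ≠ 0 → b ∈ ball b0 δ) →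
      ‖∫ q : V × V, A q.1 * B q.2 * ∫ s : ℝ, ((c (s, p, q.1, q.2) : ℝ) : ℂ) *
        ex (lam * (s * F (p, q.1, q.2)))‖ ≤ C / lam ^ 2 := by
  obtain ⟨Ft, hFt, eFt⟩ := ext_smooth F (p0, a0, b0) r hr hF
  obtain ⟨ct, hct, ect, sct⟩ := ext_amp c (p0, a0, b0) r hr hc
  have hs : ∀ s q, ct (s, q) ≠ 0 → s0 ≤ |s| ∧ |s| ≤ s1 :=
    fun s q h => hcs s q (sct s q h).1 (sct s q h).2
  have hr2 : 0 < r / 2 := by positivity
  have eF : ∀ a ∈ ball a0 (r / 2), ∀ b ∈ ball b0 (r / 2), Ft (p0, a, b) = F (p0, a, b) := by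
    intro a ha b hb
    exact eFt _ (mem_ball3.2 ⟨mem_ball_self hr2, ha, hb⟩)
  have e1 : ∀ b ∈ ball b0 (r / 2), fderiv ℝ (fun a => Ft (p0, a, b)) a0
      = fderiv ℝ (fun a => F (p0, a, b)) a0 := by
    intro b hb
    apply Filter.EventuallyEq.fderiv_eq
    filter_upwards [ball_mem_nhds a0 hr2] with a ha
    exact eF a ha b hb
  have e2 : fderiv ℝ (fun b => Ft (p0, a0, b)) b0 = fderiv ℝ (fun b => F (p0, a0, b)) b0 := by
    apply Filter.EventuallyEq.fderiv_eq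
    filter_upwards [ball_mem_nhds b0 hr2] with b hb
    exact eF a0 (mem_ball_self hr2) b hb
  have e3 : ∀ u : V, fderiv ℝ (fun b => fderiv ℝ (fun a => Ft (p0, a, b)) a0 u) b0
      = fderiv ℝ (fun b => fderiv ℝ (fun a => F (p0, a, b)) a0 u) b0 := by
    intro u
    apply Filter.EventuallyEq.fderiv_eq
    filter_upwards [ball_mem_nhds b0 hr2] with b hb
    rw [e1 b hb]
  have hnd' : ∀ (u : V) (d : ℝ), fderiv ℝ (fun a => Ft (p0, a, b0)) a0 u = 0 →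
      (∀ e : V, fderiv ℝ (fun b => fderiv ℝ (fun a => Ft (p0, a, b)) a0 u) b0 e +
        d * fderiv ℝ (fun b => Ft (p0, a0, b)) b0 e = 0) → u = 0 ∧ d = 0 := by
    intro u d h1 h2
    apply hnd u d
    · rw [← e1 b0 (mem_ball_self hr2)]
      exact h1
    · intro e
      rw [← e3, ← e2]
      exact h2 e
  obtain ⟨δ₀, c₀, C₁, hδ₀, hc₀, hD⟩ := RC_geo Ft hFt p0 a0 b0 s0 s1 hs0 hnd'
  set δ₁ := min δ₀ (r / 2) with hδ₁
  have hδ₁0 : 0 < δ₁ := lt_min hδ₀ hr2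
  obtain ⟨φ, C₂, hC₂, hA⟩ := ampl ct hct s0 s1 hs p0 a0 b0 δ₁ δ₁ hδ₁0
  obtain ⟨Cb, hCb, hb⟩ := bil c₀ (max C₁ C₂) δ₁ s0 s1 hc₀ hδ₁0
  obtain ⟨Cv, hCv, hv⟩ := vol_RC a0 δ₁
  refine ⟨δ₁ / 2, by positivity, Real.sqrt (Cb * Cv), Real.sqrt_nonneg _, ?_⟩
  intro p hp lam hlam A B mA mB bA bB sA sB
  have hp1 : p ∈ ball p0 δ₁ := ball_subset_ball (by linarith) hp
  have key := hb (fun a b => Ft (p, a, b)) (fun a a' => ‖a - a'‖) a0 b0 δ₁
    (fun s a b => ct (s, p, a, b)) φ ((hD δ₁ hδ₁0 (min_le_left _ _) p hp1).mono (le_max_left _ _))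
    ((hA p hp1).mono (le_max_right _ _)) lam hlam A B mA mB bA bB
    (fun a ha => ball_subset_ball (by linarith) (sA a ha)) sB
  have hle : δ₁ / 2 ≤ r / 2 := by
    have := min_le_right δ₀ (r / 2)
    linarith
  have heq : ∫ q : V × V, A q.1 * B q.2 * ∫ s : ℝ, ((c (s, p, q.1, q.2) : ℝ) : ℂ) *
        ex (lam * (s * F (p, q.1, q.2)))
      = ∫ q : V × V, A q.1 * B q.2 * kk lam (fun s a b => ct (s, p, a, b))
        (fun a b => Ft (p, a, b)) q.1 q.2 := by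
    apply integral_congr_ae
    filter_upwards with q
    by_cases h1 : A q.1 = 0
    · simp [h1]
    by_cases h2 : B q.2 = 0
    · simp [h2]
    have hq : ((p, q.1, q.2) : P × V × V) ∈ ball ((p0, a0, b0) : P × V × V) (r / 2) :=
      mem_ball3.2 ⟨ball_subset_ball hle hp, ball_subset_ball hle (sA _ h1),
        ball_subset_ball hle (sB _ h2)⟩
    unfold kk
    congr 1
    apply integral_congr_ae
    filter_upwards with s
    rw [ect s _ hq, eFt _ hq]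
  rw [heq]
  have hv' := hv lam hlam
  have h3 : ‖∫ q : V × V, A q.1 * B q.2 * kk lam (fun s a b => ct (s, p, a, b))
        (fun a b => Ft (p, a, b)) q.1 q.2‖ ^ 2 ≤ (Cb * Cv) / (lam ^ 2) ^ 2 := by
    refine key.trans ?_
    calc Cb / lam * ∫ a in ball a0 δ₁, ∫ a' in ball a0 δ₁, 1 / (1 + lam * ‖a - a'‖) ^ 6
        ≤ Cb / lam * (Cv / lam ^ 3) := mul_le_mul_of_nonneg_left hv' (by positivity)
      _ = (Cb * Cv) / (lam ^ 2) ^ 2 := by
        field_simp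
  have h4 := Real.abs_le_sqrt h3
  rw [abs_of_nonneg (norm_nonneg _), Real.sqrt_div' _ (by positivity),
    Real.sqrt_sq (by positivity)] at h4
  exact h4

end Pool.Agent.N1
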