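import Pool.Agent.N1.AN1

/-!
Row [N1-AN2]. The same on a ball of `V`, with a direction `e` in which the derivative is not small.

Proof. `w b = 1/(1 + lam |f b|)²` (continuous, between 0 and 1), `𝟙` = indicator of `ball b₀ ρ`. For every `t`
translation invariance gives `∫_{ball b₀ ρ} w = ∫ b, (𝟙 w)(b + t e)`. Average over `t ∈ [-ρ, ρ]` and use Fubini:
`2ρ ∫_{ball b₀ ρ} w = ∫ b, ∫_{t=-ρ}^{ρ} (𝟙 w)(b + t e)`. For `b ∉ ball b₀ (2ρ)` the inner integral is `0`
(`‖t e‖ ≤ ρ`). For `b ∈ ball b₀ (2ρ)` all points `b + t e`, `|t| ≤ ρ`, are in `closedBall b₀ (3ρ)`, the derivative of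
`t ↦ f (b + t e)` at `t` is that of `τ ↦ f ((b + t e) + τ e)` at `0`, so `mono_int` gives
`∫_{-ρ}^{ρ} w(b + t e) dt ≤ 2/(c₀ lam)`. So the constant `C = volume(ball b₀ (2ρ)) / (ρ c₀)` works; the
volume of a ball of radius `2ρ` does not depend on the centre (`Measure.addHaar_ball_center`).
-/

namespace Pool.Agent.N1

open MeasureTheory Set Metric Pool.Agent.MST
open scoped ContDiff

theorem dir_int (c₀ ρ : ℝ) (hc : 0 < c₀) (hρ : 0 < ρ) : ∃ C : ℝ, 0 ≤ C ∧
    ∀ (f : V → ℝ) (b₀ e : V) (lam : ℝ), ContDiff ℝ ∞ f → ‖e‖ ≤ 1 → 0 < lam →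
      (∀ b ∈ closedBall b₀ (3 * ρ), c₀ ≤ |deriv (fun t : ℝ => f (b + t • e)) 0|) →
      ∫ b in ball b₀ ρ, 1 / (1 + lam * |f b|) ^ 2 ≤ C / lam := by
  have hHaar : (volume : Measure V).IsAddHaarMeasure :=
    Measure.prod.instIsAddHaarMeasure (volume : Measure ℝ) (volume : Measure (ℝ × ℝ))
  refine ⟨(volume (ball (0 : V) (2 * ρ))).toReal / (ρ * c₀), by positivity, ?_⟩
  intro f b₀ e lam hf he hl hd
  have hpos : ∀ v : ℝ, 0 < 1 + lam * |v| := fun v => by positivity
  have hfc : Continuous f := hf.continuous
  have hwc : Continuous fun b : V => 1 / (1 + lam * |f b|) ^ 2 :=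
    continuous_const.div (by fun_prop) fun b => (pow_pos (hpos (f b)) 2).ne'
  have hw0 : ∀ b : V, 0 ≤ 1 / (1 + lam * |f b|) ^ 2 := fun b => by positivity
  set W : V → ℝ := (ball b₀ ρ).indicator (fun b : V => 1 / (1 + lam * |f b|) ^ 2) with hW
  have hWi : Integrable W volume := by
    rw [hW, integrable_indicator_iff measurableSet_ball]
    exact (hwc.continuousOn.integrableOn_compact (isCompact_closedBall b₀ ρ)).mono_set
      ball_subset_closedBall
  have hW0 : ∀ b, 0 ≤ W b := fun b => indicator_nonneg (fun b _ => hw0 b) b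
  have hWle : ∀ b, W b ≤ 1 / (1 + lam * |f b|) ^ 2 := fun b =>
    indicator_le_self' (fun b _ => hw0 b) b
  have hWm : Measurable W := hwc.measurable.indicator measurableSet_ball
  have hlhs : ∫ b in ball b₀ ρ, 1 / (1 + lam * |f b|) ^ 2 = ∫ b, W b := by
    rw [hW, integral_indicator measurableSet_ball]
  -- the integrability on the product
  have hmeas : Measurable (Function.uncurry fun (t : ℝ) (b : V) => W (b + t • e)) := by
    refine hWm.comp ?_
    exact (Continuous.add continuous_snd (continuous_fst.smul continuous_const)).measurable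
  have hint : Integrable (Function.uncurry fun (t : ℝ) (b : V) => W (b + t • e))
      ((volume.restrict (Ioc (-ρ) ρ)).prod volume) := by
    rw [integrable_prod_iff hmeas.aestronglyMeasurable]
    refine ⟨Filter.Eventually.of_forall fun t => hWi.comp_add_right (t • e), ?_⟩
    have : (fun t : ℝ => ∫ b : V, ‖Function.uncurry (fun (t : ℝ) (b : V) => W (b + t • e)) (t, b)‖)
        = fun _ => ∫ b : V, ‖W b‖ := by
      funext t
      simp only [Function.uncurry_apply_pair]
      exact integral_add_right_eq_self (fun b : V => ‖W b‖) (t • e)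
    rw [this]
    exact integrable_const _
  have hswap : ∫ t in Ioc (-ρ) ρ, ∫ b : V, W (b + t • e)
      = ∫ b : V, ∫ t in Ioc (-ρ) ρ, W (b + t • e) := integral_integral_swap hint
  have hleft : ∫ t in Ioc (-ρ) ρ, ∫ b : V, W (b + t • e) = 2 * ρ * ∫ b, W b := by
    have : (fun t : ℝ => ∫ b : V, W (b + t • e)) = fun _ => ∫ b : V, W b := by
      funext t
      exact integral_add_right_eq_self W (t • e)
    rw [this, setIntegral_const, measureReal_def, Real.volume_Ioc,
      ENNReal.toReal_ofReal (by linarith), smul_eq_mul]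
    ring
  have hinner : ∀ b : V, ∫ t in Ioc (-ρ) ρ, W (b + t • e)
      ≤ (ball b₀ (2 * ρ)).indicator (fun _ => 2 / (c₀ * lam)) b := by
    intro b
    by_cases hb : b ∈ ball b₀ (2 * ρ)
    · rw [indicator_of_mem hb]
      have hcont : Continuous fun t : ℝ => f (b + t • e) := by fun_prop
      have hgc : Continuous fun t : ℝ => 1 / (1 + lam * |f (b + t • e)|) ^ 2 :=
        continuous_const.div (by fun_prop) fun t => (pow_pos (hpos _) 2).ne'
      have h1 : ∫ t in Ioc (-ρ) ρ, W (b + t • e)
          ≤ ∫ t in Ioc (-ρ) ρ, 1 / (1 + lam * |f (b + t • e)|) ^ 2 := by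
        refine integral_mono_of_nonneg (Filter.Eventually.of_forall fun t => hW0 _) ?_
          (Filter.Eventually.of_forall fun t => hWle _)
        exact (hgc.continuousOn.integrableOn_compact isCompact_Icc).mono_set Ioc_subset_Icc_self
      refine h1.trans ?_
      rw [← intervalIntegral.integral_of_le (by linarith : -ρ ≤ ρ)]
      refine mono_int (fun t => f (b + t • e)) (-ρ) ρ c₀ lam (by linarith) ?_ hc hl ?_
      · have h2 : ContDiff ℝ ∞ fun t : ℝ => f (b + t • e) :=
          hf.comp (contDiff_const.add (contDiff_id.smul contDiff_const))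
        exact h2.of_le (by exact_mod_cast le_top)
      · intro t ht
        have hmem : b + t • e ∈ closedBall b₀ (3 * ρ) := by
          rw [mem_closedBall, dist_eq_norm]
          rw [mem_ball, dist_eq_norm] at hb
          have h3 : b + t • e - b₀ = (b - b₀) + t • e := by abel
          rw [h3]
          refine (norm_add_le _ _).trans ?_
          have h4 : ‖t • e‖ ≤ ρ := by
            rw [norm_smul, Real.norm_eq_abs]
            have h5 : |t| ≤ ρ := abs_le.mpr ⟨ht.1, ht.2⟩
            calc |t| * ‖e‖ ≤ ρ * 1 := mul_le_mul h5 he (norm_nonneg _) hρ.le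
              _ = ρ := mul_one ρ
          linarith
        have h6 := hd _ hmem
        have h7 : deriv (fun τ : ℝ => f (b + t • e + τ • e)) 0
            = deriv (fun t : ℝ => f (b + t • e)) t := by
          have h8 : (fun τ : ℝ => f (b + t • e + τ • e))
              = fun τ : ℝ => (fun t : ℝ => f (b + t • e)) (t + τ) := by
            funext τ
            simp only [add_smul, add_assoc]
          rw [h8]
          have h10 := deriv_comp_const_add (f := fun t : ℝ => f (b + t • e)) t 0
          rw [add_zero] at h10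
          exact h10
        rw [h7] at h6
        exact h6
    · rw [indicator_of_notMem hb]
      have hz : ∀ t ∈ Ioc (-ρ) ρ, W (b + t • e) = 0 := by
        intro t ht
        rw [hW]
        refine indicator_of_notMem ?_ _
        intro hmem
        apply hb
        rw [mem_ball, dist_eq_norm] at hmem ⊢
        have h3 : b - b₀ = (b + t • e - b₀) - t • e := by abel
        rw [h3]
        have h4 : ‖t • e‖ ≤ ρ := by
          rw [norm_smul, Real.norm_eq_abs]
          have h5 : |t| ≤ ρ := abs_le.mpr ⟨ht.1.le, ht.2⟩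
          calc |t| * ‖e‖ ≤ ρ * 1 := mul_le_mul h5 he (norm_nonneg _) hρ.le
            _ = ρ := mul_one ρ
        have h9 := norm_sub_le (b + t • e - b₀) (t • e)
        linarith
      rw [setIntegral_congr_fun measurableSet_Ioc hz]
      simp
  have hfin : volume (ball b₀ (2 * ρ)) < ⊤ := measure_ball_lt_top
  have hri : Integrable (fun b : V => (ball b₀ (2 * ρ)).indicator (fun _ => 2 / (c₀ * lam)) b)
      volume := by
    rw [show (fun b : V => (ball b₀ (2 * ρ)).indicator (fun _ => 2 / (c₀ * lam)) b)
      = (ball b₀ (2 * ρ)).indicator (fun _ => 2 / (c₀ * lam)) from rfl,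
      integrable_indicator_iff measurableSet_ball]
    exact integrableOn_const hfin.ne
  have hright : ∫ b : V, ∫ t in Ioc (-ρ) ρ, W (b + t • e)
      ≤ (volume (ball b₀ (2 * ρ))).toReal * (2 / (c₀ * lam)) := by
    have h1 : ∫ b : V, ∫ t in Ioc (-ρ) ρ, W (b + t • e)
        ≤ ∫ b : V, (ball b₀ (2 * ρ)).indicator (fun _ => 2 / (c₀ * lam)) b := by
      refine integral_mono_of_nonneg (Filter.Eventually.of_forall fun b => ?_) hri
        (Filter.Eventually.of_forall hinner)
      exact integral_nonneg fun t => hW0 _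
    refine h1.trans (le_of_eq ?_)
    rw [integral_indicator measurableSet_ball, setIntegral_const, measureReal_def, smul_eq_mul]
  have hvol : (volume (ball b₀ (2 * ρ))).toReal = (volume (ball (0 : V) (2 * ρ))).toReal := by
    rw [Measure.addHaar_ball_center]
  rw [hlhs]
  rw [← hswap, hleft, hvol] at hright
  have hval : (volume (ball (0 : V) (2 * ρ))).toReal / (ρ * c₀) / lam
      = (volume (ball (0 : V) (2 * ρ))).toReal * (2 / (c₀ * lam)) / (2 * ρ) := by
    field_simp
  rw [hval, le_div_iff₀ (by linarith : (0 : ℝ) < 2 * ρ)]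
  linarith

end Pool.Agent.N1
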