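import Pool.Agent.N1.AN0

/-!
Row [N1-AN3]. Decay of a one-dimensional Fourier integral.

Proof. `nonstat` (MST/NS.lean) with `J = 8`, `L = 2 s₁`, the phase `f = id` (all derivatives of order `≥ 2`
vanish, `deriv = 1`), `α = -s₁`, `β = s₁`, gives `C/|x|⁸` for `x ≠ 0`; the trivial bound is `2 s₁ C₀`. For
`|x| ≥ 1`: `1/|x|⁸ ≤ 2⁸/(1 + |x|)⁸`, for `|x| ≤ 1`: `1 ≤ 2⁸/(1 + |x|)⁸`. (If `s₁ < 0` then `c = 0`.)
-/

namespace Pool.Agent.N1

open MeasureTheory Set Metric Pool.Agent.MST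
open scoped ContDiff

private theorem AN3_id (j : ℕ) (hj : 1 ≤ j) (τ : ℝ) : |iteratedDeriv j (fun t : ℝ => t) τ| ≤ 1 := by
  obtain ⟨k, rfl⟩ : ∃ k, j = k + 1 := ⟨j - 1, by omega⟩
  rw [iteratedDeriv_succ']
  have e : deriv (fun t : ℝ => t) = fun _ => 1 := by
    funext t
    exact deriv_id t
  rw [e, iteratedDeriv_const]
  split_ifs <;> simp

private theorem AN3_norm_ex (a : ℝ) : ‖ex a‖ = 1 := by
  unfold ex
  rw [Complex.norm_exp_ofReal_mul_I]

theorem k_decay (C₀ s₁ : ℝ) : ∃ C : ℝ, 0 ≤ C ∧ ∀ (c : ℝ → ℝ) (x : ℝ), ContDiff ℝ ∞ c →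
    (∀ s, c s ≠ 0 → |s| ≤ s₁) → (∀ s : ℝ, ∀ j ≤ 8, |iteratedDeriv j c s| ≤ C₀) →
    ‖∫ s : ℝ, ((c s : ℝ) : ℂ) * ex (x * s)‖ ≤ C / (1 + |x|) ^ 8 := by
  obtain ⟨C, hC, H⟩ := nonstat 8 (2 * |s₁|) (|C₀| + 1) 1 one_pos
  refine ⟨2 ^ 8 * (C + |C₀| * (2 * |s₁|)), by positivity, ?_⟩
  intro c x hc hs hd
  have hx0 := abs_nonneg x
  have hz : ∀ τ, τ ∉ Icc (-|s₁|) |s₁| → c τ = 0 := by
    intro τ hτ
    by_contra h
    apply hτ
    have := hs τ h
    exact abs_le.1 (this.trans (le_abs_self _))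
  have hab : -|s₁| ≤ |s₁| := by
    have := abs_nonneg s₁
    linarith
  by_cases hx : |x| ≤ 1
  · have h2 : ∫ τ : ℝ, ((c τ : ℝ) : ℂ) * ex (x * τ) =
        ∫ τ in Icc (-|s₁|) |s₁|, ((c τ : ℝ) : ℂ) * ex (x * τ) := by
      symm
      refine setIntegral_eq_integral_of_forall_compl_eq_zero fun τ hτ => ?_
      rw [hz τ hτ]
      simp
    have h3 : ∀ τ ∈ Icc (-|s₁|) |s₁|, ‖((c τ : ℝ) : ℂ) * ex (x * τ)‖ ≤ |C₀| := by
      intro τ _
      rw [norm_mul, AN3_norm_ex, mul_one, Complex.norm_real, Real.norm_eq_abs]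
      have := hd τ 0 (by norm_num)
      rw [iteratedDeriv_zero] at this
      exact this.trans (le_abs_self _)
    have h4 : ‖∫ s : ℝ, ((c s : ℝ) : ℂ) * ex (x * s)‖ ≤ |C₀| * (2 * |s₁|) := by
      rw [h2]
      refine (norm_setIntegral_le_of_norm_le_const (by simp) h3).trans ?_
      refine mul_le_mul_of_nonneg_left ?_ (abs_nonneg _)
      rw [Measure.real, Real.volume_Icc, ENNReal.toReal_ofReal (by linarith)]
      linarith
    rw [le_div_iff₀ (by positivity)]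
    calc ‖∫ s : ℝ, ((c s : ℝ) : ℂ) * ex (x * s)‖ * (1 + |x|) ^ 8
        ≤ (|C₀| * (2 * |s₁|)) * 2 ^ 8 := by
          refine mul_le_mul h4 ?_ (by positivity) (by positivity)
          exact pow_le_pow_left₀ (by positivity) (by linarith) 8
      _ ≤ 2 ^ 8 * (C + |C₀| * (2 * |s₁|)) := by linarith
  · rw [not_le] at hx
    have hxn : x ≠ 0 := by
      rintro rfl
      simp at hx
      linarith
    have h1 := H c (fun t => t) (fun n => contDiff_infty.1 hc n) (fun n => contDiff_id)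
      (-|s₁|) |s₁| hab (by linarith) hz
      (fun j hj τ => (hd τ j hj).trans ((le_abs_self _).trans (by linarith)))
      (fun j hj _ τ _ => (AN3_id j hj τ).trans (by linarith [abs_nonneg C₀]))
      (fun τ _ => by
        have e : deriv (fun t : ℝ => t) τ = 1 := deriv_id τ
        rw [e, abs_one]) x hxn
    have hxp : 0 < |x| := by linarith
    rw [le_div_iff₀ (by positivity)]
    calc ‖∫ s : ℝ, ((c s : ℝ) : ℂ) * ex (x * s)‖ * (1 + |x|) ^ 8
        ≤ (C / |x| ^ 8) * (2 * |x|) ^ 8 := by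
          refine mul_le_mul h1 ?_ (by positivity) (by positivity)
          exact pow_le_pow_left₀ (by positivity) (by linarith) 8
      _ = 2 ^ 8 * C := by
          rw [mul_pow]
          field_simp
      _ ≤ 2 ^ 8 * (C + |C₀| * (2 * |s₁|)) := by
          have : 0 ≤ |C₀| * (2 * |s₁|) := by positivity
          linarith

end Pool.Agent.N1
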