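import Pool.Agent.N1.AN0

/-!
Row [N1-AN4]. Non-stationary phase in a direction `e` of `V`.

Proof. Fix once for all a smooth bump `η : ℝ → ℝ` (e.g. from `ContDiffBump (0 : ℝ)` with radii `ρ/2 < ρ`, divided by
its integral: `ContDiffBump.normed`), supported in `Icc (-ρ) ρ`, `∫ η = 1`, with
`|iteratedDeriv j η| ≤ Cη` for `j ≤ 8` (continuous with compact support). By translation invariance and
Fubini (`h` is continuous with compact support, everything integrable)
`∫ h(b) ex(Φ b) db = ∫ db ∫ dt η(t) h(b + t e) ex(Φ(b + t e))`. For `b ∉ ball b₀ (2ρ)` the inner integral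
vanishes. For `b ∈ ball b₀ (2ρ)` and `|t| ≤ ρ` the point `b + t e` is in `closedBall b₀ (3ρ)`. If `Lam > 0`
apply `nonstat` (MST/NS.lean, `J = 8`) to the amplitude `t ↦ η(t) h(b + t e)` (Leibniz: derivatives `≤ 2⁸ Cη |C₀|`,
`iteratedDeriv_mul`), the phase `f(t) = Φ(b + t e)/Lam` and the parameter `Lam`, `α = -ρ`, `β = ρ`
(`iteratedDeriv j (fun t => Φ (b + t • e)) t = iteratedDeriv j (fun τ => Φ ((b + t • e) + τ • e)) 0`, from
`iteratedDeriv_comp_add_const` or the like): the inner integral is `≤ C/Lam⁸`. Trivial bound: inner integral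
`≤ 2ρ Cη |C₀|`. Together `≤ C'/(1 + Lam)⁸`, times the volume of `ball b₀ (2ρ)`
(`Measure.addHaar_ball_center`).
-/

namespace Pool.Agent.N1

open MeasureTheory Set Metric Pool.Agent.MST
open scoped ContDiff

private lemma AN4_norm_ex (a : ℝ) : ‖ex a‖ = 1 := by
  unfold ex
  rw [Complex.norm_exp_ofReal_mul_I]

private lemma AN4_zero (g : ℝ → ℝ) (α β : ℝ) (h0 : ∀ τ, τ ∉ Icc α β → g τ = 0) (j : ℕ) (τ : ℝ)
    (hτ : τ ∉ Icc α β) : iteratedDeriv j g τ = 0 := by
  have h2 : g =ᶠ[nhds τ] fun _ => (0 : ℝ) := by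
    filter_upwards [isClosed_Icc.isOpen_compl.mem_nhds hτ] with s hs
    exact h0 s hs
  rw [(h2.iteratedDeriv j).eq_of_nhds]
  simp

private lemma AN4_haar : (volume : Measure V).IsAddHaarMeasure := by
  have h1 : (volume : Measure V) =
      (volume : Measure ℝ).prod ((volume : Measure ℝ).prod (volume : Measure ℝ)) := rfl
  rw [h1]
  have h2 : ((volume : Measure ℝ).prod (volume : Measure ℝ)).IsAddHaarMeasure :=
    Measure.prod.instIsAddHaarMeasure _ _
  exact Measure.prod.instIsAddHaarMeasure _ _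

private lemma AN4_bump (ρ : ℝ) (hρ : 0 < ρ) : ∃ (η : ℝ → ℝ) (Cη : ℝ), 0 ≤ Cη ∧
    (∀ n : ℕ, ContDiff ℝ n η) ∧ (∀ t, ρ ≤ |t| → η t = 0) ∧ (∫ t : ℝ, η t = 1) ∧
    ∀ j ≤ 8, ∀ t, |iteratedDeriv j η t| ≤ Cη := by
  let χ : ContDiffBump (0 : ℝ) := ⟨ρ / 2, ρ, by linarith, by linarith⟩
  have hsm : ∀ n : ℕ, ContDiff ℝ n (χ.normed volume) := fun n => χ.contDiff_normed (n := n)
  have hz : ∀ t, ρ ≤ |t| → χ.normed volume t = 0 := by
    intro t ht
    have h1 : t ∉ Function.support (χ.normed volume) := by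
      rw [χ.support_normed_eq]
      simp only [mem_ball, dist_zero_right, Real.norm_eq_abs, not_lt]
      exact ht
    simpa using h1
  have hz' : ∀ t, t ∉ Icc (-ρ) ρ → χ.normed volume t = 0 := by
    intro t ht
    apply hz
    by_contra hcon
    push Not at hcon
    exact ht ⟨(abs_lt.1 hcon).1.le, (abs_lt.1 hcon).2.le⟩
  have hb : ∀ j : ℕ, ∃ C : ℝ, ∀ t, |iteratedDeriv j (χ.normed volume) t| ≤ C := by
    intro j
    have h1 : Continuous (iteratedDeriv j (χ.normed volume)) :=
      (hsm j).continuous_iteratedDeriv j le_rfl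
    have h2 : HasCompactSupport (iteratedDeriv j (χ.normed volume)) :=
      HasCompactSupport.intro isCompact_Icc (AN4_zero _ (-ρ) ρ hz' j)
    obtain ⟨C, hC⟩ := h1.bounded_above_of_compact_support h2
    exact ⟨C, fun t => by simpa using hC t⟩
  choose C hC using hb
  refine ⟨χ.normed volume, ∑ j ∈ Finset.range 9, |C j|, Finset.sum_nonneg fun _ _ => abs_nonneg _,
    hsm, hz, χ.integral_normed, ?_⟩
  intro j hj t
  refine ((hC j t).trans (le_abs_self _)).trans ?_
  exact Finset.single_le_sum (f := fun j => |C j|) (fun _ _ => abs_nonneg _)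
    (Finset.mem_range.2 (by omega))

private lemma AN4_fubini (η : ℝ → ℝ) (hη : Continuous η) (ρ : ℝ)
    (hz : ∀ t, ρ ≤ |t| → η t = 0) (h1 : ∫ t : ℝ, η t = 1) (g : V → ℂ) (hg : Continuous g)
    (b₀ e : V) (he : ‖e‖ ≤ 1) (hg0 : ∀ b, b ∉ ball b₀ ρ → g b = 0) :
    ∫ b : V, g b = ∫ b : V, ∫ t : ℝ, (η t : ℂ) * g (b + t • e) := by
  have := AN4_haar
  have hint : Integrable (Function.uncurry fun (t : ℝ) (b : V) => (η t : ℂ) * g (b + t • e))
      ((volume : Measure ℝ).prod (volume : Measure V)) := by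
    apply Continuous.integrable_of_hasCompactSupport
    · unfold Function.uncurry
      fun_prop
    · apply HasCompactSupport.intro
        ((isCompact_closedBall (0 : ℝ) ρ).prod (isCompact_closedBall b₀ (2 * ρ)))
      rintro ⟨t, b⟩ hn
      show (η t : ℂ) * g (b + t • e) = 0
      rw [Set.mem_prod, not_and_or] at hn
      rcases hn with hn | hn
      · rw [mem_closedBall, not_le, dist_zero_right, Real.norm_eq_abs] at hn
        rw [hz t hn.le]
        simp
      · by_cases ht : ρ ≤ |t|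
        · rw [hz t ht]
          simp
        · push Not at ht
          rw [mem_closedBall, not_le] at hn
          rw [hg0 (b + t • e), mul_zero]
          rw [mem_ball, not_lt]
          have h2 : dist b b₀ ≤ dist b (b + t • e) + dist (b + t • e) b₀ := dist_triangle _ _ _
          have h3 : dist b (b + t • e) ≤ |t| := by
            rw [dist_comm, dist_eq_norm, add_sub_cancel_left, norm_smul, Real.norm_eq_abs]
            exact mul_le_of_le_one_right (abs_nonneg _) he
          simp only at hn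
          linarith
  rw [← integral_integral_swap hint]
  have h2 : ∀ t : ℝ, ∫ b : V, (η t : ℂ) * g (b + t • e) = (η t : ℂ) * ∫ b : V, g b := by
    intro t
    rw [integral_const_mul, integral_add_right_eq_self (fun b => g b) (t • e)]
  simp_rw [h2]
  rw [integral_mul_const]
  have h3 : ∫ t : ℝ, (η t : ℂ) = 1 := by
    have h4 := integral_ofReal (𝕜 := ℂ) (f := η) (μ := (volume : Measure ℝ))
    rw [h1] at h4
    simpa using h4
  rw [h3, one_mul]

private lemma AN4_leib (F G : ℝ → ℝ) (A B : ℝ) (hA : 0 ≤ A) (hB : 0 ≤ B)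
    (hF : ∀ n : ℕ, ContDiff ℝ n F) (hG : ∀ n : ℕ, ContDiff ℝ n G)
    (hFb : ∀ j ≤ 8, ∀ t, |iteratedDeriv j F t| ≤ A) (hGb : ∀ j ≤ 8, ∀ t, |iteratedDeriv j G t| ≤ B) :
    ∀ j ≤ 8, ∀ t, |iteratedDeriv j (F * G) t| ≤ 256 * A * B := by
  intro j hj t
  rw [iteratedDeriv_mul ((hF j).contDiffAt) ((hG j).contDiffAt)]
  refine (Finset.abs_sum_le_sum_abs _ _).trans ?_
  have h1 : ∀ i ∈ Finset.range (j + 1), |((j.choose i : ℕ) : ℝ) * iteratedDeriv i F t *
      iteratedDeriv (j - i) G t| ≤ (j.choose i : ℝ) * (A * B) := by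
    intro i hi
    have hi' : i ≤ j := by
      have := Finset.mem_range.1 hi
      omega
    rw [abs_mul, abs_mul, Nat.abs_cast, mul_assoc]
    refine mul_le_mul_of_nonneg_left ?_ (Nat.cast_nonneg _)
    exact mul_le_mul (hFb i (by omega) t) (hGb (j - i) (by omega) t) (abs_nonneg _) hA
  refine (Finset.sum_le_sum h1).trans ?_
  rw [← Finset.sum_mul, mul_assoc]
  refine mul_le_mul_of_nonneg_right ?_ (mul_nonneg hA hB)
  have h2 : ∑ i ∈ Finset.range (j + 1), (j.choose i : ℝ) = ((2 ^ j : ℕ) : ℝ) := by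
    rw [← Nat.sum_range_choose j]
    push_cast
    rfl
  rw [h2]
  have h3 : 2 ^ j ≤ 2 ^ 8 := Nat.pow_le_pow_right (by norm_num) hj
  calc ((2 ^ j : ℕ) : ℝ) ≤ ((2 ^ 8 : ℕ) : ℝ) := by exact_mod_cast h3
    _ = 256 := by norm_num

theorem nonstat_dir (C₀ c₀ ρ : ℝ) (hc : 0 < c₀) (hρ : 0 < ρ) : ∃ C : ℝ, 0 ≤ C ∧
    ∀ (h Φ : V → ℝ) (b₀ e : V) (Lam : ℝ), ContDiff ℝ ∞ h → ContDiff ℝ ∞ Φ → ‖e‖ ≤ 1 → 0 ≤ Lam →
      (∀ b, b ∉ ball b₀ ρ → h b = 0) →
      (∀ (b : V) (t : ℝ), ∀ j ≤ 8, |iteratedDeriv j (fun t : ℝ => h (b + t • e)) t| ≤ C₀) →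
      (∀ b ∈ closedBall b₀ (3 * ρ), ∀ j : ℕ, 1 ≤ j → j ≤ 9 →
        |iteratedDeriv j (fun t : ℝ => Φ (b + t • e)) 0| ≤ C₀ * Lam) →
      (∀ b ∈ closedBall b₀ (3 * ρ), c₀ * Lam ≤ |deriv (fun t : ℝ => Φ (b + t • e)) 0|) →
      ‖∫ b : V, ((h b : ℝ) : ℂ) * ex (Φ b)‖ ≤ C / (1 + Lam) ^ 8 := by
  have := AN4_haar
  obtain ⟨η, Cη, hCη, hηs, hηz, hη1, hηb⟩ := AN4_bump ρ hρ
  obtain ⟨C, hC, hns⟩ := nonstat 8 (2 * ρ) (max (256 * Cη * |C₀|) |C₀|) c₀ hc
  refine ⟨256 * (C + 2 * ρ * (Cη * |C₀|)) * volume.real (ball (0 : V) (2 * ρ)), by positivity, ?_⟩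
  intro h Φ b₀ e Lam hh hΦ he hLam hh0 hhb hΦb hΦd
  have hgc : Continuous (fun b : V => ((h b : ℝ) : ℂ) * ex (Φ b)) := by
    have h1 := hh.continuous
    have h2 := hΦ.continuous
    unfold ex
    fun_prop
  have hg0 : ∀ b, b ∉ ball b₀ ρ → ((h b : ℝ) : ℂ) * ex (Φ b) = 0 := by
    intro b hb
    rw [hh0 b hb]
    simp
  rw [AN4_fubini η (hηs 0).continuous ρ hηz hη1 _ hgc b₀ e he hg0]
  -- smoothness along lines
  have hline : ∀ (b : V) (n : ℕ), ContDiff ℝ n (fun t : ℝ => b + t • e) := by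
    intro b n
    fun_prop
  have hhl : ∀ (b : V) (n : ℕ), ContDiff ℝ n (fun t : ℝ => h (b + t • e)) := fun b n =>
    (hh.of_le (by exact_mod_cast le_top)).comp (hline b n)
  have hΦl : ∀ (b : V) (n : ℕ), ContDiff ℝ n (fun t : ℝ => Φ (b + t • e)) := fun b n =>
    (hΦ.of_le (by exact_mod_cast le_top)).comp (hline b n)
  -- the inner integral vanishes outside the ball
  have hout : ∀ b, b ∉ ball b₀ (2 * ρ) →
      ∫ t : ℝ, (η t : ℂ) * (((h (b + t • e) : ℝ) : ℂ) * ex (Φ (b + t • e))) = 0 := by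
    intro b hb
    have h1 : ∀ t : ℝ, (η t : ℂ) * (((h (b + t • e) : ℝ) : ℂ) * ex (Φ (b + t • e))) = 0 := by
      intro t
      by_cases ht : ρ ≤ |t|
      · rw [hηz t ht]
        simp
      · push Not at ht
        rw [mem_ball, not_lt] at hb
        rw [hh0 (b + t • e)]
        · simp
        · rw [mem_ball, not_lt]
          have h2 : dist b b₀ ≤ dist b (b + t • e) + dist (b + t • e) b₀ := dist_triangle _ _ _
          have h3 : dist b (b + t • e) ≤ |t| := by
            rw [dist_comm, dist_eq_norm, add_sub_cancel_left, norm_smul, Real.norm_eq_abs]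
            exact mul_le_of_le_one_right (abs_nonneg _) he
          linarith
    simp [h1]
  -- the pointwise bound
  have hin : ∀ b ∈ ball b₀ (2 * ρ),
      ‖∫ t : ℝ, (η t : ℂ) * (((h (b + t • e) : ℝ) : ℂ) * ex (Φ (b + t • e)))‖ ≤
        256 * (C + 2 * ρ * (Cη * |C₀|)) / (1 + Lam) ^ 8 := by
    intro b hb
    have hmem : ∀ t ∈ Icc (-ρ) ρ, b + t • e ∈ closedBall b₀ (3 * ρ) := by
      intro t ht
      rw [mem_ball] at hb
      rw [mem_closedBall]
      have h2 : dist (b + t • e) b₀ ≤ dist (b + t • e) b + dist b b₀ := dist_triangle _ _ _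
      have h3 : dist (b + t • e) b ≤ |t| := by
        rw [dist_eq_norm, add_sub_cancel_left, norm_smul, Real.norm_eq_abs]
        exact mul_le_of_le_one_right (abs_nonneg _) he
      have h4 : |t| ≤ ρ := abs_le.2 ht
      linarith
    have hp : (0 : ℝ) < (1 + Lam) ^ 8 := by positivity
    have hK : (0 : ℝ) ≤ 2 * ρ * (Cη * |C₀|) := by positivity
    by_cases hL : 1 ≤ Lam
    · have hL0 : Lam ≠ 0 := by linarith
      have key := hns (η * fun t : ℝ => h (b + t • e)) (fun t : ℝ => Φ (b + t • e) / Lam)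
        (fun n => (hηs n).mul (hhl b n)) (fun n => (hΦl b n).div_const Lam) (-ρ) ρ (by linarith)
        (by linarith) ?_ ?_ ?_ ?_ Lam hL0
      · have h1 : (∫ t : ℝ, (η t : ℂ) * (((h (b + t • e) : ℝ) : ℂ) * ex (Φ (b + t • e)))) =
            ∫ t : ℝ, ((((η * fun t : ℝ => h (b + t • e)) t : ℝ)) : ℂ) *
              ex (Lam * (Φ (b + t • e) / Lam)) := by
          congr 1
          funext t
          rw [mul_div_cancel₀ _ hL0, Pi.mul_apply]
          push_cast
          ring
        rw [h1]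
        refine key.trans ?_
        rw [abs_of_nonneg hLam, div_le_div_iff₀ (by positivity) hp]
        have h2 : (1 + Lam) ^ 8 ≤ 256 * Lam ^ 8 := by
          calc (1 + Lam) ^ 8 ≤ (2 * Lam) ^ 8 := pow_le_pow_left₀ (by linarith) (by linarith) 8
            _ = 256 * Lam ^ 8 := by ring
        calc C * (1 + Lam) ^ 8 ≤ C * (256 * Lam ^ 8) := mul_le_mul_of_nonneg_left h2 hC
          _ ≤ (C + 2 * ρ * (Cη * |C₀|)) * (256 * Lam ^ 8) :=
            mul_le_mul_of_nonneg_right (by linarith) (by positivity)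
          _ = 256 * (C + 2 * ρ * (Cη * |C₀|)) * Lam ^ 8 := by ring
      · intro t ht
        rw [Pi.mul_apply, hηz t, zero_mul]
        by_contra hcon
        push Not at hcon
        exact ht ⟨(abs_lt.1 hcon).1.le, (abs_lt.1 hcon).2.le⟩
      · intro j hj t
        refine (AN4_leib η (fun t : ℝ => h (b + t • e)) Cη |C₀| hCη (abs_nonneg _) hηs (hhl b)
          hηb ?_ j hj t).trans (le_max_left _ _)
        intro j hj t
        exact (hhb b t j hj).trans (le_abs_self _)
      · intro j hj1 hj2 t ht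
        have h1 : iteratedDeriv j (fun t : ℝ => Φ (b + t • e) / Lam) t =
            Lam⁻¹ * iteratedDeriv j (fun τ : ℝ => Φ ((b + t • e) + τ • e)) 0 := by
          have h2 : (fun t : ℝ => Φ (b + t • e) / Lam) = fun t => Lam⁻¹ * Φ (b + t • e) := by
            funext t
            rw [div_eq_inv_mul]
          rw [h2, iteratedDeriv_const_mul_field Lam⁻¹ (fun t : ℝ => Φ (b + t • e))]
          congr 1
          have h3 := iteratedDeriv_comp_const_add j (fun τ : ℝ => Φ (b + τ • e)) t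
          have h4 := congrFun h3 0
          simp only [add_zero] at h4
          rw [← h4]
          congr 1
          funext τ
          rw [add_smul, add_assoc]
        rw [h1, abs_mul]
        refine le_trans ?_ (le_max_right _ _)
        have h5 := hΦb (b + t • e) (hmem t ht) j hj1 (by omega)
        have h6 : |Lam⁻¹| = Lam⁻¹ := abs_of_nonneg (by positivity)
        rw [h6]
        calc Lam⁻¹ * |iteratedDeriv j (fun τ : ℝ => Φ ((b + t • e) + τ • e)) 0| ≤
            Lam⁻¹ * (C₀ * Lam) := mul_le_mul_of_nonneg_left h5 (by positivity)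
          _ = C₀ := by field_simp
          _ ≤ |C₀| := le_abs_self _
      · intro t ht
        have h1 : deriv (fun t : ℝ => Φ (b + t • e) / Lam) t =
            deriv (fun τ : ℝ => Φ ((b + t • e) + τ • e)) 0 / Lam := by
          rw [deriv_div_const]
          congr 1
          have h3 := deriv_comp_const_add (fun τ : ℝ => Φ (b + τ • e)) t 0
          rw [add_zero] at h3
          rw [← h3]
          congr 1
          funext τ
          rw [add_smul, add_assoc]
        rw [h1, abs_div, abs_of_nonneg hLam, le_div_iff₀ (by linarith)]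
        exact hΦd (b + t • e) (hmem t ht)
    · push Not at hL
      have h1 : ∫ t : ℝ, (η t : ℂ) * (((h (b + t • e) : ℝ) : ℂ) * ex (Φ (b + t • e))) =
          ∫ t in Icc (-ρ) ρ, (η t : ℂ) * (((h (b + t • e) : ℝ) : ℂ) * ex (Φ (b + t • e))) := by
        symm
        refine setIntegral_eq_integral_of_forall_compl_eq_zero fun t ht => ?_
        rw [hηz t]
        · simp
        · by_contra hcon
          push Not at hcon
          exact ht ⟨(abs_lt.1 hcon).1.le, (abs_lt.1 hcon).2.le⟩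
      rw [h1]
      have h2 : ∀ t ∈ Icc (-ρ) ρ,
          ‖(η t : ℂ) * (((h (b + t • e) : ℝ) : ℂ) * ex (Φ (b + t • e)))‖ ≤ Cη * |C₀| := by
        intro t _
        rw [norm_mul, norm_mul, AN4_norm_ex, mul_one, Complex.norm_real, Complex.norm_real,
          Real.norm_eq_abs, Real.norm_eq_abs]
        have h3 := hηb 0 (by norm_num) t
        have h4 := hhb b t 0 (by norm_num)
        rw [iteratedDeriv_zero] at h3 h4
        exact mul_le_mul h3 (h4.trans (le_abs_self _)) (abs_nonneg _) hCη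
      refine (norm_setIntegral_le_of_norm_le_const (by simp) h2).trans ?_
      have h5 : volume.real (Icc (-ρ) ρ) = 2 * ρ := by
        rw [Measure.real, Real.volume_Icc, ENNReal.toReal_ofReal (by linarith)]
        ring
      rw [h5, le_div_iff₀ hp]
      have h6 : (1 + Lam) ^ 8 ≤ 256 := by
        calc (1 + Lam) ^ 8 ≤ 2 ^ 8 := pow_le_pow_left₀ (by linarith) (by linarith) 8
          _ = 256 := by norm_num
      calc Cη * |C₀| * (2 * ρ) * (1 + Lam) ^ 8 ≤ Cη * |C₀| * (2 * ρ) * 256 :=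
            mul_le_mul_of_nonneg_left h6 (by positivity)
        _ ≤ 256 * (C + 2 * ρ * (Cη * |C₀|)) := by nlinarith
  -- conclusion
  have hset : ∫ b : V, ∫ t : ℝ, (η t : ℂ) * (((h (b + t • e) : ℝ) : ℂ) * ex (Φ (b + t • e))) =
      ∫ b in ball b₀ (2 * ρ),
        ∫ t : ℝ, (η t : ℂ) * (((h (b + t • e) : ℝ) : ℂ) * ex (Φ (b + t • e))) := by
    symm
    exact setIntegral_eq_integral_of_forall_compl_eq_zero hout
  rw [hset]
  have hfin : volume (ball b₀ (2 * ρ)) < ⊤ := measure_ball_lt_top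
  refine (norm_setIntegral_le_of_norm_le_const hfin hin).trans ?_
  have hv : volume.real (ball b₀ (2 * ρ)) = volume.real (ball (0 : V) (2 * ρ)) := by
    rw [Measure.real, Measure.real, Measure.addHaar_ball_center]
  rw [hv]
  exact le_of_eq (by ring)

end Pool.Agent.N1
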