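import Pool.Agent.N1.AN2
import Pool.Agent.N1.AN3

/-!
Row [N1-AN5]. The kernel of `T T*`, case 1 of the dichotomy (absolute values only).

Proof. `k_decay` (AN3) with the function `s ↦ c s a b` (smooth: `hA.smooth` composed with `s ↦ (s, a, b)`), bounds
`hA.ds`, and `x = lam * F a b` (`lam * (s * F a b) = x * s`) gives `‖kk lam c F a b‖ ≤ C₁/(1 + lam |F a b|)⁸` for
`b ∈ closedBall b₀ (3ρ)`, `a ∈ SA`. With `X = lam |F a b|`, `Y = lam |F a' b|`, `X + Y ≥ lam c₀ D`: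
`(1+X)⁸ (1+Y)⁸ ≥ (1+X)² ((1+X)(1+Y))⁶ ≥ (1+X)² (1 + lam c₀ D)⁶ ≥ (1+X)² (min 1 c₀)⁶ (1 + lam D)⁶`. So the integrand
is bounded by `C₁² (min 1 c₀)⁻⁶ (1 + lam D)⁻⁶ * 1/(1 + lam |F a b|)²` on `ball b₀ ρ` and is zero outside
(`hA.suppφ`), `0 ≤ φ ≤ 1`; `dir_int` (AN2) with `f = F a` and the direction `hD.es` bounds the integral.
-/

namespace Pool.Agent.N1

open MeasureTheory Set Metric Pool.Agent.MST
open scoped ContDiff

theorem KK1 (c₀ C₀ ρ s₀ s₁ : ℝ) (hc : 0 < c₀) (hρ : 0 < ρ) : ∃ C : ℝ, 0 ≤ C ∧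
    ∀ (F : V → V → ℝ) (D : V → V → ℝ) (SA : Set V) (b₀ : V) (c : ℝ → V → V → ℝ) (φ : V → ℝ),
      Dich F D SA b₀ ρ c₀ C₀ s₀ s₁ → Ampl c φ SA b₀ ρ C₀ s₀ s₁ → ∀ lam : ℝ, 0 < lam →
      ∀ a ∈ SA, ∀ a' ∈ SA, (∀ b ∈ closedBall b₀ (3 * ρ), c₀ * D a a' ≤ |F a b - F a' b|) →
      ‖∫ b : V, ((φ b : ℝ) : ℂ) * (kk lam c F a b * (starRingEnd ℂ) (kk lam c F a' b))‖
        ≤ C / lam / (1 + lam * D a a') ^ 6 := by
  obtain ⟨C₁, hC1, hk⟩ := k_decay C₀ s₁
  obtain ⟨C₂, hC2, hdir⟩ := dir_int c₀ ρ hc hρ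
  obtain ⟨m, hm0, hm1, hmc⟩ : ∃ m : ℝ, 0 < m ∧ m ≤ 1 ∧ m ≤ c₀ :=
    ⟨min 1 c₀, lt_min one_pos hc, min_le_left _ _, min_le_right _ _⟩
  refine ⟨C₁ ^ 2 * C₂ / m ^ 6, by positivity, ?_⟩
  intro F D SA b₀ c φ hD hA lam hl a ha a' ha' hdi
  have hD0 : 0 ≤ D a a' := hD.nonneg a a'
  have hsub : ball b₀ ρ ⊆ closedBall b₀ (3 * ρ) :=
    ball_subset_closedBall.trans (closedBall_subset_closedBall (by linarith))
  -- decay of the kernel
  have hker : ∀ a ∈ SA, ∀ b ∈ closedBall b₀ (3 * ρ),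
      ‖kk lam c F a b‖ ≤ C₁ / (1 + lam * |F a b|) ^ 8 := by
    intro a ha b hb
    have hsm : ContDiff ℝ ∞ fun s : ℝ => c s a b :=
      hA.smooth.comp (contDiff_id.prodMk contDiff_const : ContDiff ℝ ∞ fun s : ℝ => (s, a, b))
    have h1 := hk (fun s => c s a b) (lam * F a b) hsm
      (fun s hs => (hA.supp s a b hs).2) (fun s j hj => hA.ds a ha b hb s j hj)
    have h2 : (∫ s : ℝ, ((c s a b : ℝ) : ℂ) * ex (lam * F a b * s)) = kk lam c F a b := by
      unfold kk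
      refine integral_congr_ae (Filter.Eventually.of_forall fun s => ?_)
      have h3 : lam * F a b * s = lam * (s * F a b) := by ring
      simp only [h3]
    rw [abs_mul, abs_of_pos hl] at h1
    rw [← h2]
    exact h1
  obtain ⟨e, he, hes⟩ := hD.es
  have hFc : Continuous (F a) := by
    have h := hD.smooth.continuous.comp (Continuous.prodMk_right (X := V) (Y := V) a)
    exact h
  have hFs : ContDiff ℝ ∞ (F a) := by
    have h := hD.smooth.comp (contDiff_const.prodMk contDiff_id :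
      ContDiff ℝ ∞ fun b : V => (a, b))
    exact h
  have hwc : Continuous fun b : V => 1 / (1 + lam * |F a b|) ^ 2 :=
    continuous_const.div (by fun_prop) fun b => by positivity
  have hwi : IntegrableOn (fun b : V => 1 / (1 + lam * |F a b|) ^ 2) (ball b₀ ρ) volume :=
    (hwc.continuousOn.integrableOn_compact (isCompact_closedBall b₀ ρ)).mono_set
      ball_subset_closedBall
  set K : ℝ := C₁ ^ 2 / (m ^ 6 * (1 + lam * D a a') ^ 6) with hK
  have hK0 : 0 ≤ K := by positivity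
  set G : V → ℝ := (ball b₀ ρ).indicator fun b => K * (1 / (1 + lam * |F a b|) ^ 2) with hG
  have hGi : Integrable G volume := by
    rw [hG, integrable_indicator_iff measurableSet_ball]
    exact hwi.const_mul K
  have hbound : ∀ b : V,
      ‖((φ b : ℝ) : ℂ) * (kk lam c F a b * (starRingEnd ℂ) (kk lam c F a' b))‖ ≤ G b := by
    intro b
    by_cases hb : b ∈ ball b₀ ρ
    · rw [hG, indicator_of_mem hb]
      have hb3 := hsub hb
      obtain ⟨X, hX⟩ : ∃ X : ℝ, X = lam * |F a b| := ⟨_, rfl⟩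
      obtain ⟨Y, hY⟩ : ∃ Y : ℝ, Y = lam * |F a' b| := ⟨_, rfl⟩
      have hX0 : 0 ≤ X := by rw [hX]; positivity
      have hY0 : 0 ≤ Y := by rw [hY]; positivity
      have hk1 := hker a ha b hb3
      have hk2 := hker a' ha' b hb3
      rw [← hX] at hk1 ⊢
      rw [← hY] at hk2
      have hsum : c₀ * (lam * D a a') ≤ X + Y := by
        have h1 := hdi b hb3
        have h2 : |F a b - F a' b| ≤ |F a b| + |F a' b| := abs_sub _ _
        have h3 := mul_le_mul_of_nonneg_left (h1.trans h2) hl.le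
        rw [hX, hY]
        linarith
      have hprod : m * (1 + lam * D a a') ≤ (1 + X) * (1 + Y) := by
        have h1 : m * (lam * D a a') ≤ c₀ * (lam * D a a') :=
          mul_le_mul_of_nonneg_right hmc (by positivity)
        nlinarith [mul_nonneg hX0 hY0]
      have hpow : (m * (1 + lam * D a a')) ^ 6 ≤ ((1 + X) * (1 + Y)) ^ 6 :=
        pow_le_pow_left₀ (by positivity) hprod 6
      have hden : (m ^ 6 * (1 + lam * D a a') ^ 6) * (1 + X) ^ 2 ≤ (1 + X) ^ 8 * (1 + Y) ^ 8 := by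
        calc (m ^ 6 * (1 + lam * D a a') ^ 6) * (1 + X) ^ 2
            = (m * (1 + lam * D a a')) ^ 6 * (1 + X) ^ 2 := by ring
          _ ≤ ((1 + X) * (1 + Y)) ^ 6 * (1 + X) ^ 2 :=
              mul_le_mul_of_nonneg_right hpow (by positivity)
          _ = (1 + X) ^ 8 * ((1 + Y) ^ 6 * 1) := by ring
          _ ≤ (1 + X) ^ 8 * ((1 + Y) ^ 6 * (1 + Y) ^ 2) := by
              have h1 : (1 : ℝ) ≤ (1 + Y) ^ 2 := one_le_pow₀ (by linarith)
              gcongr
          _ = (1 + X) ^ 8 * (1 + Y) ^ 8 := by ring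
      have hphi : ‖((φ b : ℝ) : ℂ)‖ ≤ 1 := by
        rw [Complex.norm_real, Real.norm_eq_abs, abs_of_nonneg (hA.nonneg b)]
        exact hA.le b
      rw [norm_mul, norm_mul, RCLike.norm_conj]
      calc ‖((φ b : ℝ) : ℂ)‖ * (‖kk lam c F a b‖ * ‖kk lam c F a' b‖)
          ≤ 1 * (C₁ / (1 + X) ^ 8 * (C₁ / (1 + Y) ^ 8)) := by
            refine mul_le_mul hphi ?_ (by positivity) zero_le_one
            exact mul_le_mul hk1 hk2 (norm_nonneg _) (by positivity)
        _ = C₁ ^ 2 / ((1 + X) ^ 8 * (1 + Y) ^ 8) := by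
            rw [one_mul, div_mul_div_comm, pow_two]
        _ ≤ C₁ ^ 2 / ((m ^ 6 * (1 + lam * D a a') ^ 6) * (1 + X) ^ 2) :=
            div_le_div_of_nonneg_left (by positivity) (by positivity) hden
        _ = K * (1 / (1 + X) ^ 2) := by
            rw [hK, div_mul_div_comm, mul_one]
    · rw [hG, indicator_of_notMem hb, hA.suppφ b hb]
      simp
  have hval : ∫ b : V, G b = K * ∫ b in ball b₀ ρ, 1 / (1 + lam * |F a b|) ^ 2 := by
    rw [hG, integral_indicator measurableSet_ball, integral_const_mul]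
  calc ‖∫ b : V, ((φ b : ℝ) : ℂ) * (kk lam c F a b * (starRingEnd ℂ) (kk lam c F a' b))‖
      ≤ ∫ b : V, G b := norm_integral_le_of_norm_le hGi (Filter.Eventually.of_forall hbound)
    _ = K * ∫ b in ball b₀ ρ, 1 / (1 + lam * |F a b|) ^ 2 := hval
    _ ≤ K * (C₂ / lam) :=
        mul_le_mul_of_nonneg_left (hdir (F a) b₀ e lam hFs he hl (hes a ha)) hK0
    _ = C₁ ^ 2 * C₂ / m ^ 6 / lam / (1 + lam * D a a') ^ 6 := by
        rw [hK]
        field_simp

end Pool.Agent.N1
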