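import Pool.Agent.N1.AN4
import Pool.Agent.N1.AN1

/-!
Row [N1-AN6]. The kernel of `T T*`, case 2 of the dichotomy.

Proof. `conj (ex x) = ex (-x)`, so
`φ kk(a,b) conj kk(a',b) = ∫_s ∫_{s'} φ(b) c(s,a,b) c(s',a',b) ex(Φ b)`, `Φ b = lam (s F a b - s' F a' b)`. Fubini (all
functions are continuous with compact support in `(s, s', b)`):
`K = ∫_{|s| ≤ s₁} ∫_{|s'| ≤ s₁} I(s,s')`, `I(s,s') = ∫ b, h(b) ex(Φ b)`, `h b = c s a b * c s' a' b * φ b`. If
`|s|` or `|s'|` is not in `[s₀, s₁]` then `h = 0`. Otherwise take `e` from the hypothesis and apply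
`nonstat_dir` (AN4) with `Lam = lam (|s - s'| + D a a')`; its derivative hypotheses are `hA.db`, `lam` times `hD.up`
and `lam` times the hypothesis (`iteratedDeriv_const_mul`, `deriv_const_mul`; rewrite
`lam * (s * F a (b + t • e) - s' * F a' (b + t • e))`). So
`‖I‖ ≤ C₁/(1 + lam |s - s'| + lam D)⁸ ≤ C₁ /(1 + lam D)⁶ * 1/(1 + lam |s - s'|)²` and
`∫_{|s'| ≤ s₁} ds'/(1 + lam |s - s'|)² ≤ 2/lam` (as in AN1; or `∫_ℝ`), `∫_{|s| ≤ s₁} ds ≤ 2 s₁`.
-/

namespace Pool.Agent.N1

open MeasureTheory Set Metric Pool.Agent.MST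
open scoped ContDiff

theorem AN6_exadd (x y : ℝ) : ex (x + y) = ex x * ex y := by
  unfold ex
  rw [← Complex.exp_add]
  congr 1
  push_cast
  ring

theorem AN6_exconj (x : ℝ) : (starRingEnd ℂ) (ex x) = ex (-x) := by
  unfold ex
  rw [← Complex.exp_conj, map_mul, Complex.conj_ofReal, Complex.conj_I]
  congr 1
  push_cast
  ring

theorem AN6_excont : Continuous ex := by
  unfold ex
  fun_prop

/-- the inner integral -/
theorem AN6_inner (lam s₁ K x : ℝ) (hl : 0 < lam) (hK : 0 ≤ K) :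
    ∫ y in Icc (-s₁) s₁, K / (1 + lam * |x - y|) ^ 2 ≤ K * (2 / lam) := by
  rcases lt_or_ge s₁ (-s₁) with h | h
  · rw [Icc_eq_empty (not_le.2 h), setIntegral_empty]
    positivity
  · rw [integral_Icc_eq_integral_Ioc, ← intervalIntegral.integral_of_le h]
    have e : ∀ y : ℝ, K / (1 + lam * |x - y|) ^ 2 = K * (1 / (1 + lam * |y - x|) ^ 2) := by
      intro y
      rw [abs_sub_comm x y]
      ring
    simp only [e]
    rw [intervalIntegral.integral_const_mul]
    have h1 := mono_int (fun y : ℝ => y - x) (-s₁) s₁ 1 lam h (by fun_prop) one_pos hl (by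
      intro t _
      rw [deriv_sub_const, deriv_id'', abs_one])
    rw [one_mul] at h1
    exact mul_le_mul_of_nonneg_left h1 hK

theorem KK2 (c₀ C₀ ρ s₀ s₁ : ℝ) (hc : 0 < c₀) (hρ : 0 < ρ) : ∃ C : ℝ, 0 ≤ C ∧
    ∀ (F : V → V → ℝ) (D : V → V → ℝ) (SA : Set V) (b₀ : V) (c : ℝ → V → V → ℝ) (φ : V → ℝ),
      Dich F D SA b₀ ρ c₀ C₀ s₀ s₁ → Ampl c φ SA b₀ ρ C₀ s₀ s₁ → ∀ lam : ℝ, 0 < lam →
      ∀ a ∈ SA, ∀ a' ∈ SA,
      (∀ s s' : ℝ, s₀ ≤ |s| → |s| ≤ s₁ → s₀ ≤ |s'| → |s'| ≤ s₁ → ∃ e : V, ‖e‖ ≤ 1 ∧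
        ∀ b ∈ closedBall b₀ (3 * ρ), c₀ * (|s - s'| + D a a')
          ≤ |deriv (fun t : ℝ => s * F a (b + t • e) - s' * F a' (b + t • e)) 0|) →
      ‖∫ b : V, ((φ b : ℝ) : ℂ) * (kk lam c F a b * (starRingEnd ℂ) (kk lam c F a' b))‖
        ≤ C / lam / (1 + lam * D a a') ^ 6 := by
  obtain ⟨C₁, hC₁, hns⟩ := nonstat_dir C₀ c₀ ρ hc hρ
  refine ⟨C₁ * 2 * (2 * |s₁|), by positivity, ?_⟩
  intro F D SA b₀ c φ hD hA lam hl a ha a' ha' hdir
  have hD0 : 0 ≤ D a a' := hD.nonneg a a'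
  -- smoothness
  have hcs : ∀ (s : ℝ) (a : V), ContDiff ℝ ∞ (fun b : V => c s a b) := fun s a =>
    hA.smooth.comp (contDiff_const.prodMk (contDiff_const.prodMk contDiff_id))
  have hFs : ∀ a : V, ContDiff ℝ ∞ (fun b : V => F a b) := fun a =>
    hD.smooth.comp (contDiff_const.prodMk contDiff_id)
  obtain ⟨K, hK⟩ : ∃ K : ℝ, K = C₁ / (1 + lam * D a a') ^ 6 := ⟨_, rfl⟩
  have hK0 : 0 ≤ K := by rw [hK]; positivity
  obtain ⟨I, hI⟩ : ∃ I : ℝ × ℝ → ℂ, I = fun z => ∫ b : V,
      ((c z.1 a b * c z.2 a' b * φ b : ℝ) : ℂ) * ex (lam * (z.1 * F a b - z.2 * F a' b)) :=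
    ⟨_, rfl⟩
  have hc0 : ∀ (s : ℝ) (a b : V), ¬ (s₀ ≤ |s| ∧ |s| ≤ s₁) → c s a b = 0 := by
    intro s a b h
    by_contra h0
    exact h (hA.supp s a b h0)
  have hIb : ∀ z : ℝ × ℝ, ‖I z‖ ≤ K / (1 + lam * |z.1 - z.2|) ^ 2 := by
    rintro ⟨s, s'⟩
    rw [hI]
    change ‖∫ b : V, ((c s a b * c s' a' b * φ b : ℝ) : ℂ) *
      ex (lam * (s * F a b - s' * F a' b))‖ ≤ K / (1 + lam * |s - s'|) ^ 2
    by_cases h1 : s₀ ≤ |s| ∧ |s| ≤ s₁
    swap
    · have : ∀ b : V, ((c s a b * c s' a' b * φ b : ℝ) : ℂ) *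
          ex (lam * (s * F a b - s' * F a' b)) = 0 := by
        intro b
        rw [hc0 s a b h1]
        simp
      simp only [this, integral_zero, norm_zero]
      positivity
    by_cases h2 : s₀ ≤ |s'| ∧ |s'| ≤ s₁
    swap
    · have : ∀ b : V, ((c s a b * c s' a' b * φ b : ℝ) : ℂ) *
          ex (lam * (s * F a b - s' * F a' b)) = 0 := by
        intro b
        rw [hc0 s' a' b h2]
        simp
      simp only [this, integral_zero, norm_zero]
      positivity
    obtain ⟨e, he, hde⟩ := hdir s s' h1.1 h1.2 h2.1 h2.2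
    have h3 := hns (fun b => c s a b * c s' a' b * φ b)
      (fun b => lam * (s * F a b - s' * F a' b)) b₀ e (lam * (|s - s'| + D a a'))
      (((hcs s a).mul (hcs s' a')).mul hA.smoothφ)
      (contDiff_const.mul ((contDiff_const.mul (hFs a)).sub (contDiff_const.mul (hFs a')))) he
      (by positivity) (fun b hb => by simp only [hA.suppφ b hb, mul_zero])
      (fun b t j hj => hA.db a ha a' ha' s s' e he b t j hj)
      (fun b hb j h1j hj => by
        have h4 := hD.up a ha a' ha' s s' h1.2 h2.2 e he b hb j h1j hj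
        rw [iteratedDeriv_const_mul_field, abs_mul, abs_of_pos hl]
        calc _ ≤ lam * (C₀ * (|s - s'| + D a a')) := mul_le_mul_of_nonneg_left h4 hl.le
          _ = _ := by ring)
      (fun b hb => by
        have h4 := hde b hb
        rw [deriv_const_mul_field, abs_mul, abs_of_pos hl]
        calc _ = lam * (c₀ * (|s - s'| + D a a')) := by ring
          _ ≤ _ := mul_le_mul_of_nonneg_left h4 hl.le)
    refine h3.trans ?_
    rw [hK, div_div]
    refine div_le_div_of_nonneg_left hC₁ (by positivity) ?_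
    have hx : 0 ≤ lam * |s - s'| := by positivity
    have hy : 0 ≤ lam * D a a' := by positivity
    have e1 : 1 + lam * (|s - s'| + D a a') = 1 + lam * |s - s'| + lam * D a a' := by ring
    rw [e1]
    calc (1 + lam * D a a') ^ 6 * (1 + lam * |s - s'|) ^ 2
        ≤ (1 + lam * |s - s'| + lam * D a a') ^ 6 * (1 + lam * |s - s'| + lam * D a a') ^ 2 := by
          refine mul_le_mul (pow_le_pow_left₀ (by positivity) (by linarith) 6)
            (pow_le_pow_left₀ (by positivity) (by linarith) 2) (by positivity) (by positivity)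
      _ = _ := by ring
  have hI0 : ∀ z : ℝ × ℝ, z ∉ Icc (-s₁) s₁ ×ˢ Icc (-s₁) s₁ → I z = 0 := by
    rintro ⟨s, s'⟩ hz
    rw [hI]
    change ∫ b : V, ((c s a b * c s' a' b * φ b : ℝ) : ℂ) *
      ex (lam * (s * F a b - s' * F a' b)) = 0
    have : ∀ b : V, ((c s a b * c s' a' b * φ b : ℝ) : ℂ) *
        ex (lam * (s * F a b - s' * F a' b)) = 0 := by
      intro b
      by_cases h1 : |s| ≤ s₁
      · have h2 : ¬ |s'| ≤ s₁ := fun h2 => hz ⟨abs_le.1 h1, abs_le.1 h2⟩
        rw [hc0 s' a' b fun h => h2 h.2]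
        simp
      · rw [hc0 s a b fun h => h1 h.2]
        simp
    simp only [this, integral_zero]
  -- Fubini
  have hfub : ∫ b : V, ((φ b : ℝ) : ℂ) * (kk lam c F a b * (starRingEnd ℂ) (kk lam c F a' b)) =
      ∫ z : ℝ × ℝ, I z := by
    obtain ⟨Gf, hG⟩ : ∃ Gf : V → ℝ × ℝ → ℂ, Gf = fun b z =>
        ((c z.1 a b * c z.2 a' b * φ b : ℝ) : ℂ) * ex (lam * (z.1 * F a b - z.2 * F a' b)) :=
      ⟨_, rfl⟩
    have hL : ∀ b : V, ((φ b : ℝ) : ℂ) * (kk lam c F a b * (starRingEnd ℂ) (kk lam c F a' b)) =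
        ∫ z : ℝ × ℝ, Gf b z := by
      intro b
      unfold kk
      rw [← integral_conj, ← integral_prod_mul, ← integral_const_mul, hG,
        ← Measure.volume_eq_prod]
      refine integral_congr_ae (Filter.Eventually.of_forall fun z => ?_)
      change ((φ b : ℝ) : ℂ) * (((c z.1 a b : ℝ) : ℂ) * ex (lam * (z.1 * F a b)) *
        (starRingEnd ℂ) (((c z.2 a' b : ℝ) : ℂ) * ex (lam * (z.2 * F a' b)))) =
        ((c z.1 a b * c z.2 a' b * φ b : ℝ) : ℂ) * ex (lam * (z.1 * F a b - z.2 * F a' b))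
      rw [map_mul, Complex.conj_ofReal, AN6_exconj]
      have e : lam * (z.1 * F a b - z.2 * F a' b) =
          lam * (z.1 * F a b) + -(lam * (z.2 * F a' b)) := by ring
      rw [e, AN6_exadd]
      push_cast
      ring
    have hcc : ∀ (a : V) (f : V × (ℝ × ℝ) → ℝ), Continuous f →
        Continuous fun x : V × (ℝ × ℝ) => c (f x) a x.1 := by
      intro a f hf
      exact hA.smooth.continuous.comp (hf.prodMk (continuous_const.prodMk continuous_fst))
    have hFc : ∀ a : V, Continuous fun x : V × (ℝ × ℝ) => F a x.1 := by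
      intro a
      exact hD.smooth.continuous.comp (continuous_const.prodMk continuous_fst)
    have h1 : Continuous fun x : V × (ℝ × ℝ) => x.2.1 := continuous_fst.comp continuous_snd
    have h2 : Continuous fun x : V × (ℝ × ℝ) => x.2.2 := continuous_snd.comp continuous_snd
    have hGc : Continuous (Function.uncurry Gf) := by
      rw [hG]
      change Continuous fun x : V × (ℝ × ℝ) =>
        ((c x.2.1 a x.1 * c x.2.2 a' x.1 * φ x.1 : ℝ) : ℂ) *
          ex (lam * (x.2.1 * F a x.1 - x.2.2 * F a' x.1))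
      refine (Complex.continuous_ofReal.comp (((hcc a _ h1).mul (hcc a' _ h2)).mul
        (hA.smoothφ.continuous.comp continuous_fst))).mul (AN6_excont.comp ?_)
      exact continuous_const.mul ((h1.mul (hFc a)).sub (h2.mul (hFc a')))
    have hGs : HasCompactSupport (Function.uncurry Gf) := by
      refine HasCompactSupport.intro ((isCompact_closedBall b₀ ρ).prod
        (isCompact_Icc (a := -s₁) (b := s₁) |>.prod (isCompact_Icc (a := -s₁) (b := s₁)))) ?_
      rintro ⟨b, s, s'⟩ hx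
      rw [hG]
      change ((c s a b * c s' a' b * φ b : ℝ) : ℂ) * ex (lam * (s * F a b - s' * F a' b)) = 0
      by_cases hs : |s| ≤ s₁
      · by_cases hs' : |s'| ≤ s₁
        · by_cases hb : b ∈ ball b₀ ρ
          · exact absurd ⟨ball_subset_closedBall hb, abs_le.1 hs, abs_le.1 hs'⟩ hx
          · rw [hA.suppφ b hb]
            simp
        · rw [hc0 s' a' b fun h => hs' h.2]
          simp
      · rw [hc0 s a b fun h => hs h.2]
        simp
    have hGi : Integrable (Function.uncurry Gf) ((volume : Measure V).prod volume) :=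
      hGc.integrable_of_hasCompactSupport hGs
    calc ∫ b : V, ((φ b : ℝ) : ℂ) * (kk lam c F a b * (starRingEnd ℂ) (kk lam c F a' b))
        = ∫ b : V, ∫ z : ℝ × ℝ, Gf b z := integral_congr_ae (Filter.Eventually.of_forall hL)
      _ = ∫ z : ℝ × ℝ, ∫ b : V, Gf b z := integral_integral_swap hGi
      _ = ∫ z : ℝ × ℝ, I z := by rw [hI, hG]
  rw [hfub, ← setIntegral_eq_integral_of_forall_compl_eq_zero hI0]
  have hgc : Continuous fun z : ℝ × ℝ => K / (1 + lam * |z.1 - z.2|) ^ 2 := by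
    refine continuous_const.div (by fun_prop) fun z => ?_
    positivity
  have hgi : IntegrableOn (fun z : ℝ × ℝ => K / (1 + lam * |z.1 - z.2|) ^ 2)
      (Icc (-s₁) s₁ ×ˢ Icc (-s₁) s₁) volume :=
    hgc.continuousOn.integrableOn_compact (isCompact_Icc.prod isCompact_Icc)
  refine (norm_integral_le_of_norm_le hgi (Filter.Eventually.of_forall hIb)).trans ?_
  rw [Measure.volume_eq_prod, setIntegral_prod _ (by rwa [Measure.volume_eq_prod] at hgi)]
  have h5 : ∫ x in Icc (-s₁) s₁, ∫ y in Icc (-s₁) s₁, K / (1 + lam * |x - y|) ^ 2 ≤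
      K * (2 / lam) * (2 * |s₁|) := by
    have h6 : ∫ x in Icc (-s₁) s₁, ∫ y in Icc (-s₁) s₁, K / (1 + lam * |x - y|) ^ 2 ≤
        ∫ x in Icc (-s₁) s₁, K * (2 / lam) := by
      refine integral_mono_of_nonneg (Filter.Eventually.of_forall fun x => ?_)
        (continuous_const.continuousOn.integrableOn_compact isCompact_Icc)
        (Filter.Eventually.of_forall fun x => AN6_inner lam s₁ K x hl hK0)
      change 0 ≤ ∫ y in Icc (-s₁) s₁, K / (1 + lam * |x - y|) ^ 2
      exact integral_nonneg fun y => by positivity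
    refine h6.trans ?_
    rw [setIntegral_const, smul_eq_mul, Real.volume_real_Icc, mul_comm]
    refine mul_le_mul_of_nonneg_left ?_ (by positivity)
    refine max_le ?_ (by positivity)
    linarith [le_abs_self s₁]
  refine h5.trans (le_of_eq ?_)
  rw [hK]
  field_simp

end Pool.Agent.N1
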