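import Pool.Agent.N1.AN0

/-!
Row [N1-AN7]. `T T*` for a general continuous kernel.

Proof. All functions are bounded, measurable and vanish outside bounded sets, so everything is integrable.
`H b = ∫ a, A a * K a b`. Fubini (`integral_prod_symm` or `integral_prod` after swapping):
`∫ q, A q.1 * B q.2 * K q.1 q.2 = ∫ b, B b * H b`; only `b ∈ ball b₀ ρ'` contributes, `‖B‖ ≤ 1`:
`‖.‖ ≤ ∫_{ball b₀ ρ'} ‖H‖`, and Cauchy-Schwarz `(∫_{ball} ‖H‖)² ≤ vol(ball) ∫_{ball} ‖H‖² ≤ vol ∫ φ ‖H‖²` as `φ = 1`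
on the ball and `φ ≥ 0`. `‖H b‖² = H conj H = ∫_{a} ∫_{a'} A a conj(A a') K a b conj(K a' b)`
(`integral_mul_const`, `integral_conj`), Fubini in `(b; a, a')`:
`∫ φ ‖H‖² = ∫_{a ∈ SA} ∫_{a' ∈ SA} A a conj(A a') (∫ b, φ K conj K)`, norm `≤ ∫_{SA}∫_{SA} ‖∫ b ..‖` (the functions
`(a, a') ↦ ∫ b, φ K conj K` are continuous: parameter integral over a compact set; bounded on the
bounded set `SA`).
-/

namespace Pool.Agent.N1

open MeasureTheory Set Metric Pool.Agent.MST
open scoped ContDiff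

/-- Cauchy-Schwarz. -/
private theorem AN7_cs {α : Type*} [MeasurableSpace α] (μ : Measure α) [IsFiniteMeasure μ]
    (f : α → ℝ) (hf : Integrable f μ) (hf2 : Integrable (fun x => f x ^ 2) μ) :
    (∫ x, f x ∂μ) ^ 2 ≤ μ.real univ * ∫ x, f x ^ 2 ∂μ := by
  have h : ∀ t : ℝ, 0 ≤ μ.real univ * (t * t) + (-2 * ∫ x, f x ∂μ) * t + ∫ x, f x ^ 2 ∂μ := by
    intro t
    have h1 : 0 ≤ ∫ x, (f x - t) ^ 2 ∂μ := integral_nonneg fun x => sq_nonneg _
    have h2 : ∫ x, (f x - t) ^ 2 ∂μ =
        μ.real univ * (t * t) + (-2 * ∫ x, f x ∂μ) * t + ∫ x, f x ^ 2 ∂μ := by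
      have e : (fun x => (f x - t) ^ 2) = fun x => (f x ^ 2 - 2 * t * f x) + t ^ 2 := by
        ext x; ring
      have i0 : Integrable (fun x => 2 * t * f x) μ := hf.const_mul _
      have i1 : Integrable (fun x => f x ^ 2 - 2 * t * f x) μ := hf2.sub i0
      rw [e, integral_add i1 (integrable_const _), integral_sub hf2 i0, integral_const_mul,
        integral_const, smul_eq_mul]
      ring
    rw [← h2]; exact h1
  have := discrim_le_zero h
  unfold discrim at this
  nlinarith

private theorem AN7_int {α E : Type*} [MeasurableSpace α] [NormedAddCommGroup E] (μ : Measure α)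
    (s : Set α) (hms : MeasurableSet s) (hs : μ s ≠ ⊤) (f : α → E)
    (hf : AEStronglyMeasurable f μ) (C : ℝ) (hb : ∀ x ∈ s, ‖f x‖ ≤ C) (h0 : ∀ x, x ∉ s → f x = 0) :
    Integrable f μ := by
  have h1 : IntegrableOn f s μ :=
    Measure.integrableOn_of_bounded hs hf (ae_restrict_of_forall_mem hms hb)
  refine (integrableOn_iff_integrable_of_support_subset ?_).1 h1
  intro x hx
  by_contra hxs
  exact hx (h0 x hxs)

theorem TT (K : V → V → ℂ) (hK : Continuous (fun x : V × V => K x.1 x.2)) (φ : V → ℝ)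
    (hφ : Continuous φ) (a₀ b₀ : V) (δ ρ ρ' : ℝ) (hφ0 : ∀ b, 0 ≤ φ b)
    (hφ1 : ∀ b ∈ ball b₀ ρ', φ b = 1) (hφs : ∀ b, b ∉ ball b₀ ρ → φ b = 0)
    (A B : V → ℂ) (hA : Measurable A) (hB : Measurable B) (bA : ∀ a, ‖A a‖ ≤ 1)
    (bB : ∀ b, ‖B b‖ ≤ 1) (sA : ∀ a, A a ≠ 0 → a ∈ ball a₀ δ)
    (sB : ∀ b, B b ≠ 0 → b ∈ ball b₀ ρ') :
    ‖∫ q : V × V, A q.1 * B q.2 * K q.1 q.2‖ ^ 2 ≤ (volume (ball b₀ ρ')).toReal *
      ∫ a in ball a₀ δ, ∫ a' in ball a₀ δ,
        ‖∫ b : V, ((φ b : ℝ) : ℂ) * (K a b * (starRingEnd ℂ) (K a' b))‖ := by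
  classical
  -- bounds
  have hKc : IsCompact (closedBall a₀ δ ×ˢ (closedBall b₀ ρ ∪ closedBall b₀ ρ')) :=
    (isCompact_closedBall _ _).prod ((isCompact_closedBall _ _).union (isCompact_closedBall _ _))
  obtain ⟨M₀, hM₀⟩ := hKc.exists_bound_of_continuousOn hK.continuousOn
  obtain ⟨M, hM0, hM⟩ : ∃ M : ℝ, 0 ≤ M ∧ ∀ a ∈ ball a₀ δ, ∀ b,
      (b ∈ ball b₀ ρ ∨ b ∈ ball b₀ ρ') → ‖K a b‖ ≤ M := by
    refine ⟨max M₀ 0, le_max_right _ _, fun a ha b hb => ?_⟩
    refine le_trans (hM₀ (a, b) ⟨ball_subset_closedBall ha, ?_⟩) (le_max_left _ _)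
    rcases hb with hb | hb
    · exact Or.inl (ball_subset_closedBall hb)
    · exact Or.inr (ball_subset_closedBall hb)
  obtain ⟨P₀, hP₀⟩ := (isCompact_closedBall b₀ ρ).exists_bound_of_continuousOn hφ.continuousOn
  obtain ⟨P, hP0, hP⟩ : ∃ P : ℝ, 0 ≤ P ∧ ∀ b ∈ ball b₀ ρ, ‖φ b‖ ≤ P :=
    ⟨max P₀ 0, le_max_right _ _, fun b hb =>
      le_trans (hP₀ b (ball_subset_closedBall hb)) (le_max_left _ _)⟩
  have mSA : MeasurableSet (ball a₀ δ) := measurableSet_ball
  have mSB : MeasurableSet (ball b₀ ρ') := measurableSet_ball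
  have mSR : MeasurableSet (ball b₀ ρ) := measurableSet_ball
  have fSA : volume (ball a₀ δ) ≠ ⊤ := measure_ball_lt_top.ne
  have fSB : volume (ball b₀ ρ') ≠ ⊤ := measure_ball_lt_top.ne
  have fSR : volume (ball b₀ ρ) ≠ ⊤ := measure_ball_lt_top.ne
  have mK : Measurable (fun x : V × V => K x.1 x.2) := hK.measurable
  have mconj : Measurable (fun z : ℂ => (starRingEnd ℂ) z) := Complex.continuous_conj.measurable
  -- the function `H`
  set H : V → ℂ := fun b => ∫ a, A a * K a b with hH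
  have mH : StronglyMeasurable H := by
    have h1 : StronglyMeasurable (fun q : V × V => A q.2 * K q.2 q.1) :=
      ((hA.comp measurable_snd).mul (mK.comp (measurable_snd.prodMk measurable_fst))).stronglyMeasurable
    exact h1.integral_prod_right'
  have bH : ∀ b, (b ∈ ball b₀ ρ ∨ b ∈ ball b₀ ρ') → ‖H b‖ ≤ M * (volume (ball a₀ δ)).toReal := by
    intro b hb
    have hi : Integrable (indicator (ball a₀ δ) fun _ : V => M) :=
      (integrable_indicator_iff mSA).2 (integrableOn_const fSA)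
    have h1 : ‖H b‖ ≤ ∫ a, indicator (ball a₀ δ) (fun _ : V => M) a := by
      refine norm_integral_le_of_norm_le hi (Filter.Eventually.of_forall fun a => ?_)
      by_cases ha : a ∈ ball a₀ δ
      · rw [indicator_of_mem ha, norm_mul]
        calc ‖A a‖ * ‖K a b‖ ≤ 1 * M :=
              mul_le_mul (bA a) (hM a ha b hb) (norm_nonneg _) zero_le_one
          _ = M := one_mul _
      · have h0 : A a = 0 := by
          by_contra h; exact ha (sA a h)
        rw [h0, zero_mul, norm_zero, indicator_of_notMem ha]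
    rw [integral_indicator mSA, setIntegral_const, smul_eq_mul, mul_comm] at h1
    exact h1
  -- step 1
  have s1 : ‖∫ q : V × V, A q.1 * B q.2 * K q.1 q.2‖ ≤ ∫ b in ball b₀ ρ', ‖H b‖ := by
    have hint : Integrable (fun q : V × V => A q.1 * B q.2 * K q.1 q.2)
        ((volume : Measure V).prod (volume : Measure V)) := by
      refine AN7_int _ (ball a₀ δ ×ˢ ball b₀ ρ') (mSA.prod mSB) ?_ _ ?_ M ?_ ?_
      · rw [Measure.prod_prod]; exact ENNReal.mul_ne_top fSA fSB
      · exact (((hA.comp measurable_fst).mul (hB.comp measurable_snd)).mul mK).aestronglyMeasurable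
      · rintro ⟨a, b⟩ ⟨ha, hb⟩
        simp only [norm_mul]
        calc ‖A a‖ * ‖B b‖ * ‖K a b‖ ≤ 1 * 1 * M := by
              refine mul_le_mul (mul_le_mul (bA a) (bB b) (norm_nonneg _) zero_le_one)
                (hM a ha b (Or.inr hb)) (norm_nonneg _) (by norm_num)
          _ = M := by ring
      · rintro ⟨a, b⟩ hab
        by_cases ha : a ∈ ball a₀ δ
        · have hb : B b = 0 := by
            by_contra h; exact hab ⟨ha, sB b h⟩
          simp [hb]
        · have h0 : A a = 0 := by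
            by_contra h; exact ha (sA a h)
          simp [h0]
    rw [Measure.volume_eq_prod, integral_prod_symm _ hint]
    have e1 : ∀ b, ∫ a, A a * B b * K a b = B b * H b := by
      intro b
      rw [hH, ← integral_const_mul]
      congr 1; ext a; ring
    simp only [e1]
    have hi : IntegrableOn (fun b => ‖H b‖) (ball b₀ ρ') :=
      Measure.integrableOn_of_bounded fSB mH.norm.aestronglyMeasurable
        (ae_restrict_of_forall_mem mSB fun b hb => by
          rw [norm_norm]; exact bH b (Or.inr hb))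
    rw [← integral_indicator mSB]
    refine norm_integral_le_of_norm_le ((integrable_indicator_iff mSB).2 hi)
      (Filter.Eventually.of_forall fun b => ?_)
    by_cases hb : b ∈ ball b₀ ρ'
    · rw [indicator_of_mem hb, norm_mul]
      calc ‖B b‖ * ‖H b‖ ≤ 1 * ‖H b‖ := mul_le_mul_of_nonneg_right (bB b) (norm_nonneg _)
        _ = ‖H b‖ := one_mul _
    · have h0 : B b = 0 := by
        by_contra h; exact hb (sB b h)
      rw [h0, zero_mul, norm_zero, indicator_of_notMem hb]
  -- step 2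
  have hi1 : IntegrableOn (fun b => ‖H b‖) (ball b₀ ρ') :=
    Measure.integrableOn_of_bounded fSB mH.norm.aestronglyMeasurable
      (ae_restrict_of_forall_mem mSB fun b hb => by
        rw [norm_norm]; exact bH b (Or.inr hb))
  have hi2 : IntegrableOn (fun b => ‖H b‖ ^ 2) (ball b₀ ρ') := by
    refine Measure.integrableOn_of_bounded (M := (M * (volume (ball a₀ δ)).toReal) ^ 2) fSB
      (mH.norm.pow 2).aestronglyMeasurable
      (ae_restrict_of_forall_mem mSB fun b hb => ?_)
    rw [norm_pow, norm_norm]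
    exact pow_le_pow_left₀ (norm_nonneg _) (bH b (Or.inr hb)) 2
  have s2 : (∫ b in ball b₀ ρ', ‖H b‖) ^ 2 ≤
      (volume (ball b₀ ρ')).toReal * ∫ b in ball b₀ ρ', ‖H b‖ ^ 2 := by
    have : IsFiniteMeasure (volume.restrict (ball b₀ ρ')) :=
      ⟨by rw [Measure.restrict_apply_univ]; exact measure_ball_lt_top⟩
    have h := AN7_cs (volume.restrict (ball b₀ ρ')) (fun b => ‖H b‖) hi1 hi2
    simpa [Measure.real, Measure.restrict_apply_univ] using h
  -- step 3
  have hi3 : Integrable (fun b => φ b * ‖H b‖ ^ 2) := by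
    refine AN7_int _ (ball b₀ ρ) mSR fSR _
      (hφ.aestronglyMeasurable.mul (mH.norm.pow 2).aestronglyMeasurable)
      (P * (M * (volume (ball a₀ δ)).toReal) ^ 2) ?_ ?_
    · intro b hb
      rw [norm_mul, norm_pow, norm_norm]
      exact mul_le_mul (hP b hb) (pow_le_pow_left₀ (norm_nonneg _) (bH b (Or.inl hb)) 2)
        (by positivity) hP0
    · intro b hb
      rw [hφs b hb, zero_mul]
  have s3 : ∫ b in ball b₀ ρ', ‖H b‖ ^ 2 ≤ ∫ b, φ b * ‖H b‖ ^ 2 := by
    calc ∫ b in ball b₀ ρ', ‖H b‖ ^ 2 = ∫ b in ball b₀ ρ', φ b * ‖H b‖ ^ 2 := by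
          refine setIntegral_congr_fun mSB fun b hb => ?_
          rw [hφ1 b hb, one_mul]
      _ ≤ ∫ b, φ b * ‖H b‖ ^ 2 :=
          setIntegral_le_integral hi3 (Filter.Eventually.of_forall fun b =>
            mul_nonneg (hφ0 b) (by positivity))
  -- step 4
  set L : V × V → ℂ := fun w => ∫ b : V, ((φ b : ℝ) : ℂ) * (K w.1 b * (starRingEnd ℂ) (K w.2 b))
    with hL
  have mL : StronglyMeasurable L := by
    have h1 : StronglyMeasurable (fun z : (V × V) × V =>
        ((φ z.2 : ℝ) : ℂ) * (K z.1.1 z.2 * (starRingEnd ℂ) (K z.1.2 z.2))) := by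
      refine Measurable.stronglyMeasurable ?_
      refine (Complex.measurable_ofReal.comp (hφ.measurable.comp measurable_snd)).mul ?_
      refine (mK.comp ((measurable_fst.comp measurable_fst).prodMk measurable_snd)).mul ?_
      exact mconj.comp (mK.comp ((measurable_snd.comp measurable_fst).prodMk measurable_snd))
    exact h1.integral_prod_right'
  have bL : ∀ w ∈ ball a₀ δ ×ˢ ball a₀ δ, ‖L w‖ ≤ P * (M * M) * (volume (ball b₀ ρ)).toReal := by
    rintro ⟨a, a'⟩ ⟨ha, ha'⟩
    have hi : Integrable (indicator (ball b₀ ρ) fun _ : V => P * (M * M)) :=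
      (integrable_indicator_iff mSR).2 (integrableOn_const fSR)
    have h1 : ‖L (a, a')‖ ≤ ∫ b, indicator (ball b₀ ρ) (fun _ : V => P * (M * M)) b := by
      refine norm_integral_le_of_norm_le hi (Filter.Eventually.of_forall fun b => ?_)
      by_cases hb : b ∈ ball b₀ ρ
      · rw [indicator_of_mem hb, norm_mul, norm_mul, Complex.norm_real, RCLike.norm_conj]
        exact mul_le_mul (hP b hb) (mul_le_mul (hM a ha b (Or.inl hb)) (hM a' ha' b (Or.inl hb))
          (norm_nonneg _) hM0) (by positivity) hP0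
      · rw [hφs b hb, Complex.ofReal_zero, zero_mul, norm_zero, indicator_of_notMem hb]
    rw [integral_indicator mSR, setIntegral_const, smul_eq_mul, mul_comm] at h1
    exact h1
  have hiL : IntegrableOn (fun w => ‖L w‖) (ball a₀ δ ×ˢ ball a₀ δ)
      ((volume : Measure V).prod (volume : Measure V)) := by
    refine Measure.integrableOn_of_bounded (M := P * (M * M) * (volume (ball b₀ ρ)).toReal) ?_
      mL.norm.aestronglyMeasurable (ae_restrict_of_forall_mem (mSA.prod mSA) fun w hw => ?_)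
    · rw [Measure.prod_prod]; exact ENNReal.mul_ne_top fSA fSA
    · rw [norm_norm]; exact bL w hw
  have e2 : ((∫ b, φ b * ‖H b‖ ^ 2 : ℝ) : ℂ) =
      ∫ w : V × V, (A w.1 * (starRingEnd ℂ) (A w.2)) * L w
        ∂((volume : Measure V).prod (volume : Measure V)) := by
    rw [← integral_complex_ofReal]
    have e3 : ∀ b, ((φ b * ‖H b‖ ^ 2 : ℝ) : ℂ) = ∫ w : V × V, ((φ b : ℝ) : ℂ) *
        ((A w.1 * K w.1 b) * (starRingEnd ℂ) (A w.2 * K w.2 b))
          ∂((volume : Measure V).prod (volume : Measure V)) := by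
      intro b
      rw [integral_const_mul, integral_prod_mul (fun a => A a * K a b)
        (fun a => (starRingEnd ℂ) (A a * K a b)), integral_conj, Complex.mul_conj']
      push_cast
      rfl
    have e4 : ∀ w : V × V, (A w.1 * (starRingEnd ℂ) (A w.2)) * L w = ∫ b, ((φ b : ℝ) : ℂ) *
        ((A w.1 * K w.1 b) * (starRingEnd ℂ) (A w.2 * K w.2 b)) := by
      intro w
      rw [hL, ← integral_const_mul]
      congr 1; ext b
      rw [map_mul]; ring
    have e3' : (fun b => ((φ b * ‖H b‖ ^ 2 : ℝ) : ℂ)) = fun b => ∫ w : V × V, ((φ b : ℝ) : ℂ) *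
        ((A w.1 * K w.1 b) * (starRingEnd ℂ) (A w.2 * K w.2 b))
          ∂((volume : Measure V).prod (volume : Measure V)) := funext e3
    have e4' : (fun w : V × V => (A w.1 * (starRingEnd ℂ) (A w.2)) * L w) =
        fun w => ∫ b, ((φ b : ℝ) : ℂ) *
        ((A w.1 * K w.1 b) * (starRingEnd ℂ) (A w.2 * K w.2 b)) := funext e4
    rw [e4']
    have e5 : ∫ b, ((φ b * ‖H b‖ ^ 2 : ℝ) : ℂ) = ∫ b, ∫ w : V × V, ((φ b : ℝ) : ℂ) *
        ((A w.1 * K w.1 b) * (starRingEnd ℂ) (A w.2 * K w.2 b))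
          ∂((volume : Measure V).prod (volume : Measure V)) := by rw [← e3']
    refine e5.trans ?_
    refine integral_integral_swap ?_
    refine AN7_int _ (ball b₀ ρ ×ˢ (ball a₀ δ ×ˢ ball a₀ δ)) (mSR.prod (mSA.prod mSA)) ?_ _ ?_
      (P * (M * M)) ?_ ?_
    · rw [Measure.prod_prod, Measure.prod_prod]
      exact ENNReal.mul_ne_top fSR (ENNReal.mul_ne_top fSA fSA)
    · refine Measurable.aestronglyMeasurable ?_
      have m1 : Measurable (fun z : V × (V × V) => A z.2.1 * K z.2.1 z.1) :=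
        (hA.comp (measurable_fst.comp measurable_snd)).mul
          (mK.comp ((measurable_fst.comp measurable_snd).prodMk measurable_fst))
      have m2 : Measurable (fun z : V × (V × V) => A z.2.2 * K z.2.2 z.1) :=
        (hA.comp (measurable_snd.comp measurable_snd)).mul
          (mK.comp ((measurable_snd.comp measurable_snd).prodMk measurable_fst))
      exact (Complex.measurable_ofReal.comp (hφ.measurable.comp measurable_fst)).mul
        (m1.mul (mconj.comp m2))
    · rintro ⟨b, a, a'⟩ ⟨hb, ha, ha'⟩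
      simp only [Function.uncurry]
      rw [norm_mul, norm_mul, Complex.norm_real, RCLike.norm_conj, norm_mul, norm_mul]
      have h1 : ‖A a‖ * ‖K a b‖ ≤ M := by
        calc ‖A a‖ * ‖K a b‖ ≤ 1 * M :=
              mul_le_mul (bA a) (hM a ha b (Or.inl hb)) (norm_nonneg _) zero_le_one
          _ = M := one_mul _
      have h2 : ‖A a'‖ * ‖K a' b‖ ≤ M := by
        calc ‖A a'‖ * ‖K a' b‖ ≤ 1 * M :=
              mul_le_mul (bA a') (hM a' ha' b (Or.inl hb)) (norm_nonneg _) zero_le_one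
          _ = M := one_mul _
      exact mul_le_mul (hP b hb) (mul_le_mul h1 h2 (by positivity) hM0) (by positivity) hP0
    · rintro ⟨b, a, a'⟩ h
      simp only [Function.uncurry]
      by_cases hb : b ∈ ball b₀ ρ
      · by_cases ha : a ∈ ball a₀ δ
        · have h0 : A a' = 0 := by
            by_contra h'; exact h ⟨hb, ha, sA a' h'⟩
          rw [h0, zero_mul, map_zero, mul_zero, mul_zero]
        · have h0 : A a = 0 := by
            by_contra h'; exact ha (sA a h')
          rw [h0, zero_mul, zero_mul, mul_zero]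
      · rw [hφs b hb, Complex.ofReal_zero, zero_mul]
  have s4 : ∫ b, φ b * ‖H b‖ ^ 2 ≤ ∫ a in ball a₀ δ, ∫ a' in ball a₀ δ, ‖L (a, a')‖ := by
    calc ∫ b, φ b * ‖H b‖ ^ 2 ≤ ‖((∫ b, φ b * ‖H b‖ ^ 2 : ℝ) : ℂ)‖ := by
          rw [Complex.norm_real]; exact le_abs_self _
      _ = ‖∫ w : V × V, (A w.1 * (starRingEnd ℂ) (A w.2)) * L w
        ∂((volume : Measure V).prod (volume : Measure V))‖ := by rw [e2]
      _ ≤ ∫ w : V × V, indicator (ball a₀ δ ×ˢ ball a₀ δ) (fun w => ‖L w‖) w
        ∂((volume : Measure V).prod (volume : Measure V)) := by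
          refine norm_integral_le_of_norm_le ((integrable_indicator_iff (mSA.prod mSA)).2 hiL)
            (Filter.Eventually.of_forall fun w => ?_)
          by_cases hw : w ∈ ball a₀ δ ×ˢ ball a₀ δ
          · rw [indicator_of_mem hw, norm_mul, norm_mul, RCLike.norm_conj]
            calc ‖A w.1‖ * ‖A w.2‖ * ‖L w‖ ≤ 1 * 1 * ‖L w‖ := by
                  refine mul_le_mul_of_nonneg_right ?_ (norm_nonneg _)
                  exact mul_le_mul (bA _) (bA _) (norm_nonneg _) zero_le_one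
              _ = ‖L w‖ := by ring
          · rw [indicator_of_notMem hw]
            by_cases ha : w.1 ∈ ball a₀ δ
            · have h0 : A w.2 = 0 := by
                by_contra h'; exact hw ⟨ha, sA _ h'⟩
              rw [h0, map_zero, mul_zero, zero_mul, norm_zero]
            · have h0 : A w.1 = 0 := by
                by_contra h'; exact ha (sA _ h')
              rw [h0, zero_mul, zero_mul, norm_zero]
      _ = ∫ a in ball a₀ δ, ∫ a' in ball a₀ δ, ‖L (a, a')‖ := by
          rw [integral_indicator (mSA.prod mSA), setIntegral_prod _ hiL]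
  have hv : (0 : ℝ) ≤ (volume (ball b₀ ρ')).toReal := ENNReal.toReal_nonneg
  calc ‖∫ q : V × V, A q.1 * B q.2 * K q.1 q.2‖ ^ 2 ≤ (∫ b in ball b₀ ρ', ‖H b‖) ^ 2 :=
        pow_le_pow_left₀ (norm_nonneg _) s1 2
    _ ≤ (volume (ball b₀ ρ')).toReal * ∫ b in ball b₀ ρ', ‖H b‖ ^ 2 := s2
    _ ≤ (volume (ball b₀ ρ')).toReal * ∫ a in ball a₀ δ, ∫ a' in ball a₀ δ, ‖L (a, a')‖ :=
        mul_le_mul_of_nonneg_left (s3.trans s4) hv

end Pool.Agent.N1
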