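import Pool.Agent.N1.AN5
import Pool.Agent.N1.AN6
import Pool.Agent.N1.AN7

/-!
Row [N1-AN8]. The bilinear bound.

Proof. `KK1` or `KK2` (by `hD.di a a'`), constant `C = max`. `TT` with `K = kk lam c F` (continuous: `c`, `F`
continuous, the `s`-integral is over the compact `[-s₁, s₁]` since `c s a b = 0` for `|s| > s₁`:
`continuous_parametric_intervalIntegral_of_continuous'` or dominated convergence), `ρ' = ρ/2`. Volume of
`ball b₀ (ρ/2)` is independent of `b₀` (`Measure.addHaar_ball_center`). The right side is an integral of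
a continuous bounded function of `(a, a')` (`hD.cont`) over a bounded set.
-/

namespace Pool.Agent.N1

open MeasureTheory Set Metric Pool.Agent.MST
open scoped ContDiff

private theorem AN8_cont_ex : Continuous ex := by
  unfold ex
  fun_prop

private theorem AN8_cont_kk (lam s₁ : ℝ) (c : ℝ → V → V → ℝ) (F : V → V → ℝ)
    (hc : Continuous (fun x : ℝ × V × V => c x.1 x.2.1 x.2.2))
    (hF : Continuous (fun x : V × V => F x.1 x.2))
    (hs : ∀ s a b, c s a b ≠ 0 → |s| ≤ s₁) :
    Continuous (fun x : V × V => kk lam c F x.1 x.2) := by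
  have h1 : (fun x : V × V => kk lam c F x.1 x.2) =
      fun x : V × V => ∫ s in Icc (-s₁) s₁, ((c s x.1 x.2 : ℝ) : ℂ) * ex (lam * (s * F x.1 x.2)) := by
    funext x
    unfold kk
    symm
    apply setIntegral_eq_integral_of_forall_compl_eq_zero
    intro s hsn
    have : c s x.1 x.2 = 0 := by
      by_contra hne
      exact hsn (abs_le.mp (hs s x.1 x.2 hne))
    simp [this]
  rw [h1]
  apply continuous_parametric_integral_of_continuous _ isCompact_Icc
  have hc' : Continuous (fun p : (V × V) × ℝ => c p.2 p.1.1 p.1.2) :=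
    hc.comp (by fun_prop : Continuous (fun p : (V × V) × ℝ => (p.2, p.1.1, p.1.2)))
  have hF' : Continuous (fun p : (V × V) × ℝ => F p.1.1 p.1.2) :=
    hF.comp (by fun_prop : Continuous (fun p : (V × V) × ℝ => (p.1.1, p.1.2)))
  have h2 : Continuous (fun p : (V × V) × ℝ =>
      ((c p.2 p.1.1 p.1.2 : ℝ) : ℂ) * ex (lam * (p.2 * F p.1.1 p.1.2))) := by
    refine (Complex.continuous_ofReal.comp hc').mul (AN8_cont_ex.comp ?_)
    exact continuous_const.mul (continuous_snd.mul hF')
  exact h2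

private theorem AN8_int (S : Set V) (hS : Bornology.IsBounded S) (g : V × V → ℝ)
    (hg : Continuous g) : Integrable g ((volume.restrict S).prod (volume.restrict S)) := by
  rw [Measure.prod_restrict]
  have hK : IsCompact (closure S ×ˢ closure S) :=
    (hS.isCompact_closure).prod (hS.isCompact_closure)
  have := hg.continuousOn.integrableOn_compact (μ := (volume : Measure V).prod volume) hK
  exact this.mono_set (Set.prod_mono subset_closure subset_closure)

private theorem AN8_mono (S : Set V) (hS : Bornology.IsBounded S) (hm : MeasurableSet S)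
    (N g : V → V → ℝ) (hN : ∀ a a', 0 ≤ N a a') (hg : Continuous (fun x : V × V => g x.1 x.2))
    (h : ∀ a ∈ S, ∀ a' ∈ S, N a a' ≤ g a a') :
    ∫ a in S, ∫ a' in S, N a a' ≤ ∫ a in S, ∫ a' in S, g a a' := by
  have hint := (AN8_int S hS _ hg).integral_prod_left
  refine integral_mono_of_nonneg ?_ hint ?_
  · exact Filter.Eventually.of_forall fun a => integral_nonneg fun a' => hN a a'
  · rw [Filter.EventuallyLE, ae_restrict_iff' hm]
    refine Filter.Eventually.of_forall fun a ha => ?_
    have hI : IntegrableOn (fun a' : V => g a a') S volume := by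
      have hc2 : Continuous (fun a' : V => g a a') := hg.comp (Continuous.prodMk_right a)
      exact (hc2.continuousOn.integrableOn_compact hS.isCompact_closure).mono_set subset_closure
    refine integral_mono_of_nonneg ?_ hI ?_
    · exact Filter.Eventually.of_forall fun a' => hN a a'
    · rw [Filter.EventuallyLE, ae_restrict_iff' hm]
      exact Filter.Eventually.of_forall fun a' ha' => h a ha a' ha'

private theorem AN8_haar : (volume : Measure V).IsAddHaarMeasure := by
  have h2 : (volume : Measure (ℝ × ℝ)).IsAddHaarMeasure :=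
    (inferInstance : ((volume : Measure ℝ).prod (volume : Measure ℝ)).IsAddHaarMeasure)
  exact (inferInstance : ((volume : Measure ℝ).prod (volume : Measure (ℝ × ℝ))).IsAddHaarMeasure)

theorem bil (c₀ C₀ ρ s₀ s₁ : ℝ) (hc : 0 < c₀) (hρ : 0 < ρ) : ∃ C : ℝ, 0 ≤ C ∧
    ∀ (F : V → V → ℝ) (D : V → V → ℝ) (a₀ b₀ : V) (δ : ℝ) (c : ℝ → V → V → ℝ) (φ : V → ℝ),
      Dich F D (ball a₀ δ) b₀ ρ c₀ C₀ s₀ s₁ → Ampl c φ (ball a₀ δ) b₀ ρ C₀ s₀ s₁ →
      ∀ lam : ℝ, 0 < lam → ∀ A B : V → ℂ, Measurable A → Measurable B → (∀ a, ‖A a‖ ≤ 1) →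
      (∀ b, ‖B b‖ ≤ 1) → (∀ a, A a ≠ 0 → a ∈ ball a₀ δ) →
      (∀ b, B b ≠ 0 → b ∈ ball b₀ (ρ / 2)) →
      ‖∫ q : V × V, A q.1 * B q.2 * kk lam c F q.1 q.2‖ ^ 2
        ≤ C / lam * ∫ a in ball a₀ δ, ∫ a' in ball a₀ δ, 1 / (1 + lam * D a a') ^ 6 := by
  obtain ⟨C1, hC1, H1⟩ := KK1 c₀ C₀ ρ s₀ s₁ hc hρ
  obtain ⟨C2, hC2, H2⟩ := KK2 c₀ C₀ ρ s₀ s₁ hc hρ
  refine ⟨(volume (ball (0 : V) (ρ / 2))).toReal * max C1 C2,
    mul_nonneg ENNReal.toReal_nonneg (le_max_of_le_left hC1), ?_⟩
  intro F D a₀ b₀ δ c φ hD hA lam hlam A B mA mB bA bB sA sB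
  have hcont : Continuous (fun x : V × V => kk lam c F x.1 x.2) :=
    AN8_cont_kk lam s₁ c F hA.smooth.continuous hD.smooth.continuous
      (fun s a b h => (hA.supp s a b h).2)
  have hTT := TT (kk lam c F) hcont φ hA.smoothφ.continuous a₀ b₀ δ ρ (ρ / 2) hA.nonneg hA.oneφ
    hA.suppφ A B mA mB bA bB sA sB
  have hvol : (volume (ball b₀ (ρ / 2))).toReal = (volume (ball (0 : V) (ρ / 2))).toReal := by
    have := AN8_haar
    rw [Measure.addHaar_ball_center]
  rw [hvol] at hTT
  refine hTT.trans ?_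
  rw [mul_div_assoc, mul_assoc]
  refine mul_le_mul_of_nonneg_left ?_ ENNReal.toReal_nonneg
  -- kernel bound
  have hker : ∀ a ∈ ball a₀ δ, ∀ a' ∈ ball a₀ δ,
      ‖∫ b : V, ((φ b : ℝ) : ℂ) * (kk lam c F a b * (starRingEnd ℂ) (kk lam c F a' b))‖ ≤
        max C1 C2 / lam * (1 / (1 + lam * D a a') ^ 6) := by
    intro a ha a' ha'
    have hpos : 0 < (1 + lam * D a a') ^ 6 := by
      have : 0 ≤ lam * D a a' := mul_nonneg hlam.le (hD.nonneg a a')
      positivity
    rw [mul_one_div]
    rcases hD.di a ha a' ha' with h | h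
    · refine (H1 F D (ball a₀ δ) b₀ c φ hD hA lam hlam a ha a' ha' h).trans ?_
      gcongr
      exact le_max_left _ _
    · refine (H2 F D (ball a₀ δ) b₀ c φ hD hA lam hlam a ha a' ha' h).trans ?_
      gcongr
      exact le_max_right _ _
  have hgc : Continuous (fun x : V × V => max C1 C2 / lam * (1 / (1 + lam * D x.1 x.2) ^ 6)) := by
    refine continuous_const.mul (Continuous.div continuous_const ?_ ?_)
    · exact (continuous_const.add (continuous_const.mul hD.cont)).pow 6
    · intro x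
      have : 0 ≤ lam * D x.1 x.2 := mul_nonneg hlam.le (hD.nonneg x.1 x.2)
      positivity
  have hmono := AN8_mono (ball a₀ δ) isBounded_ball measurableSet_ball
    (fun a a' => ‖∫ b : V, ((φ b : ℝ) : ℂ) * (kk lam c F a b * (starRingEnd ℂ) (kk lam c F a' b))‖)
    (fun a a' => max C1 C2 / lam * (1 / (1 + lam * D a a') ^ 6))
    (fun a a' => norm_nonneg _) hgc hker
  refine hmono.trans (le_of_eq ?_)
  rw [← integral_const_mul]
  congr 1
  funext a
  rw [← integral_const_mul]

end Pool.Agent.N1
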