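import Pool.Agent.N1.Defs2

/-!
N1, block C: cut-off functions, part 1.
-/

namespace Pool.Agent.N1

open MeasureTheory Set Metric Pool.Agent.MP_6cbfb8_an Pool.Agent.MST
open scoped ENNReal Real ContDiff FourierTransform SchwartzMap

theorem FT1_scale (B : ℝ) (m : ℝ → ℂ) (h : FT1 B m) (s : ℝ) (hs : s ≠ 0) :
    FT1 B (fun x => m (s * x)) := by
  obtain ⟨w, hw1, hw2, hw3⟩ := h
  refine ⟨fun η => ((|s⁻¹| : ℝ) : ℂ) * w (s⁻¹ * η), ?_, ?_, fun x => ?_⟩
  · exact (hw1.comp_mul_left' (inv_ne_zero hs)).const_mul _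
  · have h1 : (∫ η, ‖((|s⁻¹| : ℝ) : ℂ) * w (s⁻¹ * η)‖) = |s⁻¹| * ∫ η, ‖w (s⁻¹ * η)‖ := by
      rw [← integral_const_mul]
      refine integral_congr_ae (Filter.Eventually.of_forall fun η => ?_)
      simp [abs_abs]
    rw [h1, Measure.integral_comp_mul_left (fun η => ‖w η‖) s⁻¹, inv_inv, smul_eq_mul,
      ← mul_assoc, ← abs_mul, inv_mul_cancel₀ hs, abs_one, one_mul]
    exact hw2
  · show m (s * x) = _
    rw [hw3 (s * x)]
    have h2 : (fun η => w η * ex (η * (s * x))) =
        fun η => (fun t => w (s⁻¹ * t) * ex (t * x)) (s * η) := by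
      funext η
      simp only
      rw [← mul_assoc s⁻¹, inv_mul_cancel₀ hs, one_mul]
      ring_nf
    rw [h2, Measure.integral_comp_mul_left (fun t => w (s⁻¹ * t) * ex (t * x)) s,
      Complex.real_smul, ← integral_const_mul]
    refine integral_congr_ae (Filter.Eventually.of_forall fun η => ?_)
    simp only
    ring

theorem FT1_sub (B B' : ℝ) (m m' : ℝ → ℂ) (h : FT1 B m) (h' : FT1 B' m') :
    FT1 (B + B') (fun x => m x - m' x) := by
  obtain ⟨w, hw1, hw2, hw3⟩ := h
  obtain ⟨w', hw1', hw2', hw3'⟩ := h'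
  refine ⟨fun η => w η - w' η, hw1.sub hw1', ?_, fun x => ?_⟩
  · calc (∫ η, ‖w η - w' η‖) ≤ ∫ η, (‖w η‖ + ‖w' η‖) :=
          integral_mono (hw1.sub hw1').norm (hw1.norm.add hw1'.norm) fun η => norm_sub_le _ _
      _ = (∫ η, ‖w η‖) + ∫ η, ‖w' η‖ := integral_add hw1.norm hw1'.norm
      _ ≤ B + B' := add_le_add hw2 hw2'
  · have hint : ∀ v : ℝ → ℂ, Integrable v → Integrable fun η => v η * ex (η * x) := by
      intro v hv
      have h1 : Continuous fun η : ℝ => ex (η * x) := by
        unfold ex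
        fun_prop
      refine hv.mul_bdd (c := 1) h1.aestronglyMeasurable (Filter.Eventually.of_forall fun η => ?_)
      exact (hns_norm_ex _).le
    show m x - m' x = _
    rw [hw3 x, hw3' x, ← integral_sub (hint w hw1) (hint w' hw1')]
    refine integral_congr_ae (Filter.Eventually.of_forall fun η => ?_)
    simp only
    ring

/-- Smooth compactly supported functions are Fourier transforms of integrable functions. -/
theorem FT1_smooth (f : ℝ → ℝ) (hf : ContDiff ℝ ∞ f) (hc : HasCompactSupport f) :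
    ∃ B : ℝ, 0 ≤ B ∧ FT1 B (fun x => ((f x : ℝ) : ℂ)) := by
  have h1 : HasCompactSupport fun x : ℝ => ((f x : ℝ) : ℂ) :=
    hc.comp_left (g := fun y : ℝ => (y : ℂ)) Complex.ofReal_zero
  have h2 : ContDiff ℝ ∞ fun x : ℝ => ((f x : ℝ) : ℂ) := Complex.ofRealCLM.contDiff.comp hf
  set φ : 𝓢(ℝ, ℂ) := h1.toSchwartzMap h2 with hφ
  set w : 𝓢(ℝ, ℂ) := 𝓕⁻ φ with hw
  refine ⟨∫ η, ‖w η‖, integral_nonneg fun _ => norm_nonneg _, w, w.integrable, le_rfl,
    fun x => ?_⟩
  have h3 : 𝓕 w = φ := FourierTransform.fourier_fourierInv_eq φ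
  have h4 : (φ : ℝ → ℂ) x = ((f x : ℝ) : ℂ) := rfl
  show ((f x : ℝ) : ℂ) = _
  rw [← h4, ← h3, SchwartzMap.fourier_coe, Real.fourier_real_eq_integral_exp_smul]
  refine integral_congr_ae (Filter.Eventually.of_forall fun η => ?_)
  simp only [smul_eq_mul]
  rw [mul_comm]
  congr 1
  unfold ex
  congr 2
  push_cast
  ring

theorem th_contDiff : ContDiff ℝ ∞ th := by
  unfold th
  exact (Real.smoothTransition.contDiff.comp (contDiff_const.sub contDiff_id)).mul
    (Real.smoothTransition.contDiff.comp (contDiff_const.add contDiff_id))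

theorem th_zero (x : ℝ) (hx : 2 ≤ |x|) : th x = 0 := by
  unfold th
  rcases le_abs.1 hx with h | h
  · rw [Real.smoothTransition.zero_of_nonpos (by linarith), zero_mul]
  · rw [Real.smoothTransition.zero_of_nonpos (x := 2 + x) (by linarith), mul_zero]

theorem th_one (x : ℝ) (hx : |x| ≤ 1) : th x = 1 := by
  obtain ⟨h1, h2⟩ := abs_le.1 hx
  unfold th
  rw [Real.smoothTransition.one_of_one_le (by linarith),
    Real.smoothTransition.one_of_one_le (by linarith), one_mul]

theorem th_nonneg (x : ℝ) : 0 ≤ th x :=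
  mul_nonneg (Real.smoothTransition.nonneg _) (Real.smoothTransition.nonneg _)

theorem th_le_one (x : ℝ) : th x ≤ 1 :=
  mul_le_one₀ (Real.smoothTransition.le_one _) (Real.smoothTransition.nonneg _)
    (Real.smoothTransition.le_one _)

theorem th_neg (x : ℝ) : th (-x) = th x := by
  unfold th
  rw [mul_comm]
  ring_nf

theorem th_support (x : ℝ) (hx : th x ≠ 0) : |x| < 2 := by
  by_contra h
  exact hx (th_zero x (not_lt.1 h))

theorem uj_abs_le (j : ℕ) (x : ℝ) : |uj j x| ≤ 1 := by
  unfold uj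
  rw [abs_le]
  constructor
  · linarith [th_nonneg (2 ^ j * x), th_le_one (2 ^ (j + 1) * x)]
  · linarith [th_le_one (2 ^ j * x), th_nonneg (2 ^ (j + 1) * x)]

/-- Support of a dyadic piece. -/
theorem uj_support (j : ℕ) (x : ℝ) (hx : uj j x ≠ 0) :
    1 / 2 ^ (j + 1) < |x| ∧ |x| < 2 / 2 ^ j := by
  constructor
  · by_contra h
    rw [not_lt, le_div_iff₀ (by positivity), mul_comm] at h
    apply hx
    unfold uj
    have h1 : |2 ^ (j + 1) * x| ≤ 1 := by
      rwa [abs_mul, abs_of_pos (by positivity : (0 : ℝ) < 2 ^ (j + 1))]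
    have h2 : |2 ^ j * x| ≤ 1 := by
      refine le_trans ?_ h1
      rw [abs_mul, abs_mul, pow_succ, abs_mul, abs_of_pos (by positivity : (0 : ℝ) < 2 ^ j)]
      have := abs_nonneg x
      have h3 : (0 : ℝ) < 2 ^ j := by positivity
      rw [abs_of_pos (by norm_num : (0 : ℝ) < 2)]
      nlinarith [mul_nonneg h3.le this]
    rw [th_one _ h1, th_one _ h2, sub_self]
  · by_contra h
    rw [not_lt, div_le_iff₀ (by positivity), mul_comm] at h
    apply hx
    unfold uj
    have h1 : 2 ≤ |2 ^ j * x| := by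
      rwa [abs_mul, abs_of_pos (by positivity : (0 : ℝ) < 2 ^ j)]
    have h2 : 2 ≤ |2 ^ (j + 1) * x| := by
      refine h1.trans ?_
      rw [abs_mul, abs_mul, pow_succ, abs_mul, abs_of_pos (by positivity : (0 : ℝ) < 2 ^ j)]
      have := abs_nonneg x
      have h3 : (0 : ℝ) < 2 ^ j := by positivity
      rw [abs_of_pos (by norm_num : (0 : ℝ) < 2)]
      nlinarith [mul_nonneg h3.le this]
    rw [th_zero _ h1, th_zero _ h2, sub_self]

theorem uj_zero_eq (x : ℝ) : uj 0 x = th x - th (2 * x) := by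
  unfold uj
  norm_num

theorem uj_eq_zero_scale (j : ℕ) (x : ℝ) : uj j x = uj 0 (2 ^ j * x) := by
  unfold uj
  rw [pow_zero, one_mul, zero_add, pow_one, pow_succ]
  ring_nf

theorem measurable_th : Measurable th := th_contDiff.continuous.measurable

theorem measurable_uj (j : ℕ) : Measurable (uj j) := by
  unfold uj
  exact (measurable_th.comp (measurable_const.mul measurable_id)).sub
    (measurable_th.comp (measurable_const.mul measurable_id))

theorem FT1_th : ∃ B : ℝ, 0 ≤ B ∧ FT1 B (fun x => ((th x : ℝ) : ℂ)) := by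
  refine FT1_smooth th th_contDiff ?_
  refine HasCompactSupport.intro (isCompact_closedBall (0 : ℝ) 2) fun x hx => th_zero x ?_
  rw [mem_closedBall, dist_zero_right, Real.norm_eq_abs, not_le] at hx
  exact hx.le

/-- `th x - th (2 * x)` vanishes near the origin. -/
theorem uj_zero_small (x : ℝ) (hx : |x| ≤ 1 / 2) : th x - th (2 * x) = 0 := by
  have h1 : |2 * x| ≤ 1 := by
    rw [abs_mul, abs_of_pos (by norm_num : (0 : ℝ) < 2)]
    linarith
  rw [th_one x (by linarith), th_one _ h1, sub_self]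

theorem mpl_eq (x : ℝ) : mpl x = (th x - th (2 * x)) * Real.smoothTransition (2 * x) := by
  unfold mpl
  split_ifs with h
  · rcases le_total x (1 / 2) with h1 | h1
    · rw [uj_zero_small x (by rw [abs_of_pos h]; exact h1), zero_mul]
    · rw [Real.smoothTransition.one_of_one_le (by linarith), mul_one]
  · rw [Real.smoothTransition.zero_of_nonpos (by linarith), mul_zero]

theorem mpl_contDiff : ContDiff ℝ ∞ mpl := by
  have h : mpl = fun x => (th x - th (2 * x)) * Real.smoothTransition (2 * x) := funext mpl_eq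
  rw [h]
  exact (th_contDiff.sub (th_contDiff.comp (contDiff_const.mul contDiff_id))).mul
    (Real.smoothTransition.contDiff.comp (contDiff_const.mul contDiff_id))

theorem measurable_mpl : Measurable mpl := mpl_contDiff.continuous.measurable

/-- Support of the one-sided dyadic piece. -/
theorem mpl_support (x : ℝ) (hx : mpl x ≠ 0) : 1 / 2 < x ∧ x < 2 := by
  unfold mpl at hx
  split_ifs at hx with h
  · constructor
    · by_contra h1
      exact hx (uj_zero_small x (by rw [abs_of_pos h]; exact not_lt.1 h1))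
    · by_contra h1
      rw [not_lt] at h1
      apply hx
      rw [th_zero x (by rw [abs_of_pos h]; exact h1),
        th_zero (2 * x) (by rw [abs_of_pos (by linarith)]; linarith), sub_self]
  · exact absurd rfl hx

theorem mpl_abs_le (x : ℝ) : |mpl x| ≤ 1 := by
  unfold mpl
  split_ifs
  · rw [abs_le]
    constructor
    · linarith [th_nonneg x, th_le_one (2 * x)]
    · linarith [th_le_one x, th_nonneg (2 * x)]
  · simp

theorem FT1_mpl : ∃ B : ℝ, 0 ≤ B ∧ FT1 B (fun x => ((mpl x : ℝ) : ℂ)) := by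
  refine FT1_smooth mpl mpl_contDiff ?_
  refine HasCompactSupport.intro (isCompact_closedBall (0 : ℝ) 2) fun x hx => ?_
  by_contra h
  obtain ⟨h1, h2⟩ := mpl_support x h
  apply hx
  rw [mem_closedBall, dist_zero_right, Real.norm_eq_abs, abs_of_pos (by linarith)]
  exact h2.le

theorem uj_sum_from (a J : ℕ) (haJ : a ≤ J) (x : ℝ) :
    ∑ j ∈ Finset.Ico a J, uj j x + th (2 ^ J * x) = th (2 ^ a * x) := by
  induction J, haJ using Nat.le_induction with
  | base => simp
  | succ n hn ih =>
    rw [Finset.sum_Ico_succ_top hn, ← ih]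
    unfold uj
    ring

/-- Partition in one dyadic direction. -/
theorem th_sum (J : ℕ) (x : ℝ) (hx : |x| ≤ 1) :
    ∑ j ∈ Finset.range J, uj j x + th (2 ^ J * x) = 1 := by
  have h := uj_sum_from 0 J (Nat.zero_le J) x
  rw [← Finset.range_eq_Ico, pow_zero, one_mul, th_one x hx] at h
  exact h

theorem mpl_add_neg (x : ℝ) : mpl x + mpl (-x) = th x - th (2 * x) := by
  unfold mpl
  rcases lt_trichotomy x 0 with h | h | h
  · rw [if_neg (by linarith), if_pos (by linarith), zero_add, th_neg,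
      show 2 * -x = -(2 * x) by ring, th_neg]
  · subst h
    simp
  · rw [if_pos h, if_neg (by linarith), add_zero]

theorem mpl_sum (J : ℕ) (x : ℝ) (hx : |x| ≤ 1) :
    ∑ j ∈ Finset.range J, mpl (2 ^ j * x) + ∑ j ∈ Finset.range J, mpl (-(2 ^ j * x)) +
      th (2 ^ J * x) = 1 := by
  rw [← Finset.sum_add_distrib, ← th_sum J x hx]
  congr 1
  refine Finset.sum_congr rfl fun j _ => ?_
  rw [mpl_add_neg]
  unfold uj
  rw [pow_succ]
  ring_nf

/-- Partition of unity in `y` (index `J` means the low part). -/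
theorem part2 (k0 J : ℕ) (hk : 1 ≤ k0) (hJ : k0 ≤ J) :
    ∃ rest : ℝ × ℝ → ℝ, Measurable rest ∧ (∀ y, |rest y| ≤ 4 * (k0 : ℝ) + 4) ∧
    (∀ y, rest y ≠ 0 → (|y.1| ≤ 2 ^ (k0 + 2) / 2 ^ J ∧ |y.2| ≤ 2 ^ (k0 + 2) / 2 ^ J)) ∧
    ∀ y : ℝ × ℝ, |y.1| ≤ 1 → |y.2| ≤ 1 →
      ∑ j ∈ Finset.range J, ∑ k ∈ Finset.range J,
        (if j < k + k0 ∧ k < j + k0 then uj j y.1 * uj k y.2 else 0) +
      ∑ j ∈ Finset.range (J - k0 + 1), uj j y.1 * th (2 ^ (j + k0) * y.2) +
      ∑ k ∈ Finset.range (J - k0 + 1), th (2 ^ (k + k0) * y.1) * uj k y.2 + rest y = 1 := by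
  classical
  set a := J - k0 + 1 with ha
  have haJ : a ≤ J := by omega
  refine ⟨fun y => ∑ j ∈ Finset.Ico a J, uj j y.1 * th (2 ^ J * y.2) +
    ∑ k ∈ Finset.Ico a J, th (2 ^ J * y.1) * uj k y.2 + th (2 ^ J * y.1) * th (2 ^ J * y.2),
    ?_, ?_, ?_, ?_⟩
  · refine ((Finset.measurable_sum _ fun j _ => ?_).add (Finset.measurable_sum _ fun j _ => ?_)).add
      ?_
    · exact ((measurable_uj j).comp measurable_fst).mul
        (measurable_th.comp (measurable_const.mul measurable_snd))
    · exact (measurable_th.comp (measurable_const.mul measurable_fst)).mul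
        ((measurable_uj j).comp measurable_snd)
    · exact (measurable_th.comp (measurable_const.mul measurable_fst)).mul
        (measurable_th.comp (measurable_const.mul measurable_snd))
  · intro y
    have hth : ∀ x, |th x| ≤ 1 := fun x => by
      rw [abs_of_nonneg (th_nonneg x)]
      exact th_le_one x
    have hcard : ((Finset.Ico a J).card : ℝ) ≤ k0 := by
      rw [Nat.card_Ico]
      exact_mod_cast (by omega : J - a ≤ k0)
    have h1 : |∑ j ∈ Finset.Ico a J, uj j y.1 * th (2 ^ J * y.2)| ≤ k0 := by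
      refine (Finset.abs_sum_le_sum_abs _ _).trans ?_
      refine (Finset.sum_le_card_nsmul _ _ 1 fun j _ => ?_).trans ?_
      · rw [abs_mul]
        exact mul_le_one₀ (uj_abs_le _ _) (abs_nonneg _) (hth _)
      · rw [nsmul_eq_mul, mul_one]
        exact hcard
    have h2 : |∑ k ∈ Finset.Ico a J, th (2 ^ J * y.1) * uj k y.2| ≤ k0 := by
      refine (Finset.abs_sum_le_sum_abs _ _).trans ?_
      refine (Finset.sum_le_card_nsmul _ _ 1 fun j _ => ?_).trans ?_
      · rw [abs_mul]
        exact mul_le_one₀ (hth _) (abs_nonneg _) (uj_abs_le _ _)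
      · rw [nsmul_eq_mul, mul_one]
        exact hcard
    have h3 : |th (2 ^ J * y.1) * th (2 ^ J * y.2)| ≤ 1 := by
      rw [abs_mul]
      exact mul_le_one₀ (hth _) (abs_nonneg _) (hth _)
    have h4 : (0 : ℝ) ≤ k0 := Nat.cast_nonneg _
    refine (abs_add_le _ _).trans ?_
    have h5 := abs_add_le (∑ j ∈ Finset.Ico a J, uj j y.1 * th (2 ^ J * y.2))
      (∑ k ∈ Finset.Ico a J, th (2 ^ J * y.1) * uj k y.2)
    linarith
  · intro y hy
    have hpow : (0 : ℝ) < 2 ^ J := by positivity
    have hk4 : (2 : ℝ) ≤ 2 ^ (k0 + 2) := by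
      calc (2 : ℝ) = 2 ^ 1 := by norm_num
        _ ≤ 2 ^ (k0 + 2) := pow_le_pow_right₀ (by norm_num) (by omega)
    have hT : ∀ x, th (2 ^ J * x) ≠ 0 → |x| ≤ 2 ^ (k0 + 2) / 2 ^ J := by
      intro x hx
      have h1 := th_support _ hx
      rw [abs_mul, abs_of_pos hpow] at h1
      rw [le_div_iff₀ hpow, mul_comm]
      linarith
    have hU : ∀ j ∈ Finset.Ico a J, ∀ x, uj j x ≠ 0 → |x| ≤ 2 ^ (k0 + 2) / 2 ^ J := by
      intro j hj x hx
      obtain ⟨_, h1⟩ := uj_support j x hx
      refine h1.le.trans ?_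
      rw [div_le_div_iff₀ (by positivity) hpow]
      have h2 : J ≤ j + k0 := by
        have := (Finset.mem_Ico.1 hj).1
        omega
      calc (2 : ℝ) * 2 ^ J ≤ 2 * 2 ^ (j + k0) :=
            mul_le_mul_of_nonneg_left (pow_le_pow_right₀ (by norm_num) h2) (by norm_num)
        _ = 2 ^ (k0 + 1) * 2 ^ j := by ring
        _ ≤ 2 ^ (k0 + 2) * 2 ^ j :=
            mul_le_mul_of_nonneg_right (pow_le_pow_right₀ (by norm_num) (by omega))
              (by positivity)
    by_contra hcon
    apply hy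
    have e1 : ∑ j ∈ Finset.Ico a J, uj j y.1 * th (2 ^ J * y.2) = 0 := by
      refine Finset.sum_eq_zero fun j hj => ?_
      by_contra h
      exact hcon ⟨hU j hj _ (left_ne_zero_of_mul h), hT _ (right_ne_zero_of_mul h)⟩
    have e2 : ∑ k ∈ Finset.Ico a J, th (2 ^ J * y.1) * uj k y.2 = 0 := by
      refine Finset.sum_eq_zero fun j hj => ?_
      by_contra h
      exact hcon ⟨hT _ (left_ne_zero_of_mul h), hU j hj _ (right_ne_zero_of_mul h)⟩
    have e3 : th (2 ^ J * y.1) * th (2 ^ J * y.2) = 0 := by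
      by_contra h
      exact hcon ⟨hT _ (left_ne_zero_of_mul h), hT _ (right_ne_zero_of_mul h)⟩
    simp only [e1, e2, e3, add_zero]
  · intro y hy1 hy2
    -- the two degenerate sums
    have key : ∀ (f : ℕ → ℝ) (x : ℝ), ∑ j ∈ Finset.range a, f j * th (2 ^ (j + k0) * x) =
        ∑ j ∈ Finset.range J, ∑ k ∈ Finset.range J, (if j + k0 ≤ k then f j * uj k x else 0) +
          ∑ j ∈ Finset.range a, f j * th (2 ^ J * x) := by
      intro f x
      have h1 : ∀ j ∈ Finset.range a, f j * th (2 ^ (j + k0) * x) =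
          ∑ k ∈ Finset.range J, (if j + k0 ≤ k then f j * uj k x else 0) +
            f j * th (2 ^ J * x) := by
        intro j hj
        have hj' : j + k0 ≤ J := by
          have := Finset.mem_range.1 hj
          omega
        rw [← uj_sum_from (j + k0) J hj' x, mul_add, Finset.mul_sum]
        congr 1
        rw [← Finset.sum_filter]
        refine Finset.sum_congr ?_ fun _ _ => rfl
        ext k
        simp only [Finset.mem_Ico, Finset.mem_filter, Finset.mem_range]
        omega
      rw [Finset.sum_congr rfl h1, Finset.sum_add_distrib]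
      congr 1
      refine Finset.sum_subset (Finset.range_subset_range.2 haJ) fun j _ hj2 => ?_
      refine Finset.sum_eq_zero fun k hk => ?_
      rw [if_neg]
      have h2 := Finset.mem_range.1 hk
      have h3 : ¬ j < a := fun h => hj2 (Finset.mem_range.2 h)
      omega
    have k1 := key (fun j => uj j y.1) y.2
    have k2 := key (fun j => uj j y.2) y.1
    have k3 : ∑ k ∈ Finset.range a, th (2 ^ (k + k0) * y.1) * uj k y.2 =
        ∑ j ∈ Finset.range a, uj j y.2 * th (2 ^ (j + k0) * y.1) :=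
      Finset.sum_congr rfl fun _ _ => mul_comm _ _
    have k4 : ∑ j ∈ Finset.range J, ∑ k ∈ Finset.range J,
        (if j + k0 ≤ k then uj j y.2 * uj k y.1 else 0) =
        ∑ j ∈ Finset.range J, ∑ k ∈ Finset.range J,
          (if k + k0 ≤ j then uj j y.1 * uj k y.2 else 0) := by
      rw [Finset.sum_comm]
      refine Finset.sum_congr rfl fun j _ => Finset.sum_congr rfl fun k _ => ?_
      split_ifs
      · ring
      · rfl
    have k5 : ∑ j ∈ Finset.range J, ∑ k ∈ Finset.range J,
        (if j < k + k0 ∧ k < j + k0 then uj j y.1 * uj k y.2 else 0) +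
        ∑ j ∈ Finset.range J, ∑ k ∈ Finset.range J,
          (if j + k0 ≤ k then uj j y.1 * uj k y.2 else 0) +
        ∑ j ∈ Finset.range J, ∑ k ∈ Finset.range J,
          (if k + k0 ≤ j then uj j y.1 * uj k y.2 else 0) =
        (∑ j ∈ Finset.range J, uj j y.1) * ∑ k ∈ Finset.range J, uj k y.2 := by
      rw [Finset.sum_mul_sum, ← Finset.sum_add_distrib, ← Finset.sum_add_distrib]
      refine Finset.sum_congr rfl fun j _ => ?_
      rw [← Finset.sum_add_distrib, ← Finset.sum_add_distrib]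
      refine Finset.sum_congr rfl fun k _ => ?_
      by_cases h1 : j + k0 ≤ k
      · rw [if_neg (by omega), if_pos h1, if_neg (by omega)]
        ring
      · by_cases h2 : k + k0 ≤ j
        · rw [if_neg (by omega), if_neg h1, if_pos h2]
          ring
        · rw [if_pos (by omega), if_neg h1, if_neg h2]
          ring
    have s1 : ∑ j ∈ Finset.range J, uj j y.1 =
        ∑ j ∈ Finset.range a, uj j y.1 + ∑ j ∈ Finset.Ico a J, uj j y.1 :=
      (Finset.sum_range_add_sum_Ico _ haJ).symm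
    have s2 : ∑ j ∈ Finset.range J, uj j y.2 =
        ∑ j ∈ Finset.range a, uj j y.2 + ∑ j ∈ Finset.Ico a J, uj j y.2 :=
      (Finset.sum_range_add_sum_Ico _ haJ).symm
    have t1 := th_sum J y.1 hy1
    have t2 := th_sum J y.2 hy2
    rw [k3, k1, k2, k4]
    beta_reduce
    rw [← Finset.sum_mul, ← Finset.sum_mul, ← Finset.sum_mul, ← Finset.mul_sum]
    have k6 : (∑ j ∈ Finset.range J, uj j y.1 + th (2 ^ J * y.1)) *
        (∑ j ∈ Finset.range J, uj j y.2 + th (2 ^ J * y.2)) = 1 := by
      rw [t1, t2, one_mul]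
    rw [add_mul, mul_add, mul_add, ← k5] at k6
    linear_combination k6 - s1 * th (2 ^ J * y.2) - s2 * th (2 ^ J * y.1)

end Pool.Agent.N1
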