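import Pool.Agent.N1.Defs2

/-!
N1, block F, part 1: elementary properties of the forms.
-/

namespace Pool.Agent.N1

open MeasureTheory Set Metric Pool.Agent.MP_6cbfb8_an Pool.Agent.MST
open scoped ENNReal Real ContDiff

/-! ### The kernel in the time variable -/

theorem f1_chi_smooth (n : ℕ) : ContDiff ℝ n chi := by
  have h1 : ContDiff ℝ n Real.smoothTransition := Real.smoothTransition.contDiff
  unfold chi
  exact (h1.comp (by fun_prop)).mul (h1.comp (by fun_prop))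

theorem f1_chi_zero (s : ℝ) (h : s ∉ Icc (1 / 2 : ℝ) 3) : chi s = 0 := by
  unfold chi
  rcases lt_or_ge s (1 / 2) with h1 | h1
  · rw [Real.smoothTransition.zero_of_nonpos (by linarith), zero_mul]
  · have h2 : 3 < s := by
      by_contra h3
      exact h ⟨h1, not_lt.1 h3⟩
    rw [Real.smoothTransition.zero_of_nonpos (x := 3 - s) (by linarith), mul_zero]

theorem f1_chi_nonneg (s : ℝ) : 0 ≤ chi s :=
  mul_nonneg (Real.smoothTransition.nonneg _) (Real.smoothTransition.nonneg _)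

theorem f1_chi_int : Integrable chi :=
  (f1_chi_smooth 0).continuous.integrable_of_hasCompactSupport
    (HasCompactSupport.intro isCompact_Icc f1_chi_zero)

theorem f1_ex_cont : Continuous ex := by
  unfold ex
  fun_prop

theorem f1_Kt_scale (T x : ℝ) (hT : 0 < T) :
    Kt T x = (T : ℂ) * ∫ s : ℝ, ((chi s : ℝ) : ℂ) * ex (T * x * s) := by
  have h1 := Measure.integral_comp_div (fun s : ℝ => ((chi s : ℝ) : ℂ) * ex (T * x * s)) T
  rw [abs_of_pos hT, Complex.real_smul] at h1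
  rw [← h1]
  unfold Kt
  refine integral_congr_ae (Filter.Eventually.of_forall fun t => ?_)
  simp only
  congr 2
  field_simp

theorem Kt_le : ∃ C : ℝ, 0 ≤ C ∧ ∀ T x : ℝ, 0 < T → ‖Kt T x‖ ≤ C * T / (1 + T * |x|) ^ 3 := by
  -- bounds for the derivatives of `chi`
  have hb : ∃ C0 : ℝ, ∀ j ≤ 3, ∀ τ, |iteratedDeriv j chi τ| ≤ C0 := by
    have h1 : ∀ j : ℕ, ∃ C, ∀ τ, |iteratedDeriv j chi τ| ≤ C := by
      intro j
      have h2 : Continuous (iteratedDeriv j chi) :=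
        (f1_chi_smooth j).continuous_iteratedDeriv j le_rfl
      have h3 : HasCompactSupport (iteratedDeriv j chi) :=
        HasCompactSupport.intro isCompact_Icc fun τ hτ => hns_zero chi _ _ f1_chi_zero j τ hτ
      obtain ⟨C, hC⟩ := h3.exists_bound_of_continuous h2
      exact ⟨C, hC⟩
    choose C hC using h1
    refine ⟨max (max (C 0) (C 1)) (max (C 2) (C 3)), fun j hj τ => ?_⟩
    interval_cases j
    · exact (hC 0 τ).trans ((le_max_left _ _).trans (le_max_left _ _))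
    · exact (hC 1 τ).trans ((le_max_right _ _).trans (le_max_left _ _))
    · exact (hC 2 τ).trans ((le_max_left _ _).trans (le_max_right _ _))
    · exact (hC 3 τ).trans ((le_max_right _ _).trans (le_max_right _ _))
  obtain ⟨C0, hC0⟩ := hb
  obtain ⟨C, hC, H⟩ := nonstat 3 3 (max C0 1) 1 one_pos
  have hid : ∀ j : ℕ, 1 ≤ j → j ≤ 3 + 1 → ∀ τ ∈ Icc (1 / 2 : ℝ) 3,
      |iteratedDeriv j (fun s : ℝ => s) τ| ≤ max C0 1 := by
    intro j hj1 _ τ _
    have h1 : |iteratedDeriv j (fun s : ℝ => s) τ| ≤ 1 := by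
      obtain ⟨k, rfl⟩ : ∃ k, j = k + 1 := ⟨j - 1, by omega⟩
      rw [iteratedDeriv_succ']
      have h2 : deriv (fun s : ℝ => s) = fun _ => 1 := by
        funext s
        simp
      rw [h2, iteratedDeriv_const]
      split_ifs <;> simp
    exact h1.trans (le_max_right _ _)
  have H1 : ∀ lam : ℝ, lam ≠ 0 →
      ‖∫ s : ℝ, ((chi s : ℝ) : ℂ) * ex (lam * s)‖ ≤ C / |lam| ^ 3 := by
    intro lam hlam
    refine H chi (fun s => s) f1_chi_smooth (fun n => contDiff_id) (1 / 2) 3 (by norm_num)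
      (by norm_num) f1_chi_zero (fun j hj τ => (hC0 j hj τ).trans (le_max_left _ _)) hid
      (fun τ _ => ?_) lam hlam
    simp
  set A : ℝ := ∫ s, ‖((chi s : ℝ) : ℂ)‖ with hA
  have hA0 : 0 ≤ A := integral_nonneg fun _ => norm_nonneg _
  have H0 : ∀ lam : ℝ, ‖∫ s : ℝ, ((chi s : ℝ) : ℂ) * ex (lam * s)‖ ≤ A := by
    intro lam
    refine (norm_integral_le_integral_norm _).trans (le_of_eq ?_)
    rw [hA]
    congr 1
    funext s
    rw [norm_mul, hns_norm_ex, mul_one]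
  have H2 : ∀ lam : ℝ, ‖∫ s : ℝ, ((chi s : ℝ) : ℂ) * ex (lam * s)‖ ≤
      8 * (A + C) / (1 + |lam|) ^ 3 := by
    intro lam
    have hl : 0 ≤ |lam| := abs_nonneg _
    rcases le_or_gt |lam| 1 with h | h
    · refine (H0 lam).trans ?_
      rw [le_div_iff₀ (by positivity)]
      have h1 : (1 + |lam|) ^ 3 ≤ 2 ^ 3 := pow_le_pow_left₀ (by positivity) (by linarith) 3
      nlinarith
    · refine (H1 lam (by intro h0; rw [h0, abs_zero] at h; linarith)).trans ?_
      rw [div_le_div_iff₀ (by positivity) (by positivity)]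
      have h1 : (1 + |lam|) ^ 3 ≤ (2 * |lam|) ^ 3 :=
        pow_le_pow_left₀ (by positivity) (by linarith) 3
      have h2 : 0 ≤ |lam| ^ 3 := by positivity
      calc C * (1 + |lam|) ^ 3 ≤ C * (2 * |lam|) ^ 3 := mul_le_mul_of_nonneg_left h1 hC
        _ = 8 * C * |lam| ^ 3 := by ring
        _ ≤ 8 * (A + C) * |lam| ^ 3 := by nlinarith
  refine ⟨8 * (A + C), by positivity, fun T x hT => ?_⟩
  rw [f1_Kt_scale T x hT, norm_mul, Complex.norm_real, Real.norm_eq_abs, abs_of_pos hT]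
  have h1 := H2 (T * x)
  rw [abs_mul, abs_of_pos hT] at h1
  calc T * ‖∫ s : ℝ, ((chi s : ℝ) : ℂ) * ex (T * x * s)‖
      ≤ T * (8 * (A + C) / (1 + T * |x|) ^ 3) := mul_le_mul_of_nonneg_left h1 hT.le
    _ = 8 * (A + C) * T / (1 + T * |x|) ^ 3 := by ring

theorem f1_Kt_meas (T : ℝ) : Measurable (Kt T) := by
  have h1 : Measurable fun p : ℝ × ℝ => ((chi (p.2 / T) : ℝ) : ℂ) * ex (p.2 * p.1) := by
    have h2 : Measurable chi := (f1_chi_smooth 0).continuous.measurable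
    have h3 : Measurable fun p : ℝ × ℝ => ((chi (p.2 / T) : ℝ) : ℂ) :=
      Complex.measurable_ofReal.comp (h2.comp (measurable_snd.div_const T))
    have h4 : Measurable fun p : ℝ × ℝ => ex (p.2 * p.1) :=
      f1_ex_cont.measurable.comp (by fun_prop)
    exact h3.mul h4
  have h5 := h1.stronglyMeasurable.integral_prod_right' (ν := (volume : Measure ℝ))
  exact h5.measurable

/-! ### The amplitude -/

theorem f1_sma_zero (c : ℝ) (hc : 0 < c) (v : ℝ) (hv : v ≤ c ^ 2 / 4) : sma c v = 0 := by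
  unfold sma smb
  rw [Real.smoothTransition.zero_of_nonpos, zero_div]
  refine div_nonpos_of_nonpos_of_nonneg ?_ hc.le
  have : √v ≤ c / 2 := by
    rw [Real.sqrt_le_left (by positivity)]
    linarith
  linarith

theorem f1_sma_le (c : ℝ) (hc : 0 < c) (v : ℝ) : |sma c v| ≤ 2 / c := by
  rcases le_or_gt v (c ^ 2 / 4) with h | h
  · rw [f1_sma_zero c hc v h, abs_zero]
    positivity
  · have h1 : c / 2 ≤ √v := by
      apply Real.le_sqrt_of_sq_le
      linarith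
    have h2 : 0 < √v := lt_of_lt_of_le (by positivity) h1
    unfold sma smb
    rw [abs_div, abs_of_pos h2, abs_of_nonneg (Real.smoothTransition.nonneg _)]
    calc Real.smoothTransition ((2 * √v - c) / c) / √v ≤ 1 / √v :=
          div_le_div_of_nonneg_right (Real.smoothTransition.le_one _) h2.le
      _ ≤ 1 / (c / 2) := one_div_le_one_div_of_le (by positivity) h1
      _ = 2 / c := by field_simp

theorem f1_wf_le (c : ℝ) (hc : 0 < c) (a b : ℝ) : |wf c a b| ≤ 2 / c := f1_sma_le c hc _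

theorem f1_wf_supp (c : ℝ) (hc : 0 < c) (a b : ℝ) (h : wf c a b ≠ 0) : |a| ≤ 1 ∧ |b| ≤ 1 := by
  have h1 : ¬ (1 - a ^ 2 - b ^ 2 ≤ c ^ 2 / 4) := fun h2 => h (f1_sma_zero c hc _ h2)
  have h3 : a ^ 2 + b ^ 2 < 1 := by nlinarith [sq_nonneg c]
  constructor
  · rw [abs_le_one_iff_mul_self_le_one]
    nlinarith [sq_nonneg b]
  · rw [abs_le_one_iff_mul_self_le_one]
    nlinarith [sq_nonneg a]

theorem f1_sma_cont (c : ℝ) (hc : 0 < c) : Continuous (sma c) := by
  rw [continuous_iff_continuousAt]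
  intro v
  rcases lt_or_ge v (c ^ 2 / 4) with h | h
  · have h1 : sma c =ᶠ[nhds v] fun _ => 0 := by
      filter_upwards [Iio_mem_nhds h] with w hw
      exact f1_sma_zero c hc w (le_of_lt hw)
    exact continuousAt_const.congr h1.symm
  · have hv : 0 < v := lt_of_lt_of_le (by positivity) h
    have h1 : Continuous Real.smoothTransition := Real.smoothTransition.continuous
    have h2 : Continuous fun v : ℝ => smb c √v := by
      unfold smb
      exact h1.comp (by fun_prop)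
    exact h2.continuousAt.div Real.continuous_sqrt.continuousAt (Real.sqrt_pos.2 hv).ne'

theorem f1_wf_cont (c : ℝ) (hc : 0 < c) : Continuous fun x : ℝ × ℝ => wf c x.1 x.2 := by
  unfold wf
  exact (f1_sma_cont c hc).comp (by fun_prop)

theorem f1_qf_cont (c : ℝ) : Continuous fun x : ℝ × ℝ => qf c x.1 x.2 := by
  unfold qf Sq
  have h1 : Continuous Real.smoothTransition := Real.smoothTransition.continuous
  have h2 : Continuous fun x : ℝ × ℝ => √(1 - x.1 ^ 2 - x.2 ^ 2) := by fun_prop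
  have h3 : Continuous fun x : ℝ × ℝ => (16 * (1 - x.1 ^ 2 - x.2 ^ 2) - c ^ 2) / c ^ 2 := by
    fun_prop
  exact h2.mul (h1.comp h3)

theorem f1_Fr_cont (c : ℝ) : Continuous fun q : V × V => Fr c q.1 q.2 := by
  unfold Fr
  have h := f1_qf_cont c
  have h1 : Continuous fun q : V × V => qf c q.1.2.1 q.2.2.1 :=
    h.comp (f := fun q : V × V => (q.1.2.1, q.2.2.1)) (by fun_prop)
  have h2 : Continuous fun q : V × V => qf c (q.1.2.1 - q.1.1) (q.2.2.1 - q.2.1) :=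
    h.comp (f := fun q : V × V => (q.1.2.1 - q.1.1, q.2.2.1 - q.2.1)) (by fun_prop)
  have h3 : Continuous fun q : V × V => qf c (q.1.2.1 - q.1.2.2) (q.2.2.1 - q.2.2.2) :=
    h.comp (f := fun q : V × V => (q.1.2.1 - q.1.2.2, q.2.2.1 - q.2.2.2)) (by fun_prop)
  have h4 : Continuous fun q : V × V =>
      qf c (q.1.2.1 - q.1.1 - q.1.2.2) (q.2.2.1 - q.2.1 - q.2.2.2) :=
    h.comp (f := fun q : V × V => (q.1.2.1 - q.1.1 - q.1.2.2, q.2.2.1 - q.2.1 - q.2.2.2))
      (by fun_prop)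
  exact ((h1.sub h2).sub h3).add h4

theorem f1_Wr_cont (c : ℝ) (hc : 0 < c) : Continuous fun q : V × V => Wr c q.1 q.2 := by
  unfold Wr
  have h := f1_wf_cont c hc
  have h1 : Continuous fun q : V × V => wf c q.1.2.1 q.2.2.1 :=
    h.comp (f := fun q : V × V => (q.1.2.1, q.2.2.1)) (by fun_prop)
  have h2 : Continuous fun q : V × V => wf c (q.1.2.1 - q.1.1) (q.2.2.1 - q.2.1) :=
    h.comp (f := fun q : V × V => (q.1.2.1 - q.1.1, q.2.2.1 - q.2.1)) (by fun_prop)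
  have h3 : Continuous fun q : V × V => wf c (q.1.2.1 - q.1.2.2) (q.2.2.1 - q.2.2.2) :=
    h.comp (f := fun q : V × V => (q.1.2.1 - q.1.2.2, q.2.2.1 - q.2.2.2)) (by fun_prop)
  have h4 : Continuous fun q : V × V =>
      wf c (q.1.2.1 - q.1.1 - q.1.2.2) (q.2.2.1 - q.2.1 - q.2.2.2) :=
    h.comp (f := fun q : V × V => (q.1.2.1 - q.1.1 - q.1.2.2, q.2.2.1 - q.2.1 - q.2.2.2))
      (by fun_prop)
  exact ((h1.mul h2).mul h3).mul h4

theorem Wr_bdd (c : ℝ) (hc : 0 < c) : ∃ C : ℝ, 0 ≤ C ∧ ∀ u v : V, |Wr c u v| ≤ C := by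
  refine ⟨(2 / c) * (2 / c) * (2 / c) * (2 / c), by positivity, fun u v => ?_⟩
  have h0 : 0 ≤ 2 / c := by positivity
  unfold Wr
  rw [abs_mul, abs_mul, abs_mul]
  have h1 := f1_wf_le c hc u.2.1 v.2.1
  have h2 := f1_wf_le c hc (u.2.1 - u.1) (v.2.1 - v.1)
  have h3 := f1_wf_le c hc (u.2.1 - u.2.2) (v.2.1 - v.2.2)
  have h4 := f1_wf_le c hc (u.2.1 - u.1 - u.2.2) (v.2.1 - v.1 - v.2.2)
  exact mul_le_mul (mul_le_mul (mul_le_mul h1 h2 (abs_nonneg _) h0) h3 (abs_nonneg _)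
    (by positivity)) h4 (abs_nonneg _) (by positivity)

theorem f1_Wr_ne (c : ℝ) (u v : V) (h : Wr c u v ≠ 0) : wf c u.2.1 v.2.1 ≠ 0 ∧
    wf c (u.2.1 - u.1) (v.2.1 - v.1) ≠ 0 ∧ wf c (u.2.1 - u.2.2) (v.2.1 - v.2.2) ≠ 0 ∧
    wf c (u.2.1 - u.1 - u.2.2) (v.2.1 - v.1 - v.2.2) ≠ 0 := by
  unfold Wr at h
  have h1 := left_ne_zero_of_mul h
  have h2 := left_ne_zero_of_mul h1
  exact ⟨left_ne_zero_of_mul h2, right_ne_zero_of_mul h2, right_ne_zero_of_mul h1,
    right_ne_zero_of_mul h⟩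

/-- The support of the amplitude of a rectangle. -/
theorem f1_Wr_supp (c : ℝ) (hc : 0 < c) (q : V × V) (h : Wr c q.1 q.2 ≠ 0) :
    q ∈ closedBall (0 : V × V) 2 := by
  obtain ⟨h1, h2, h3, _⟩ := f1_Wr_ne c q.1 q.2 h
  obtain ⟨a1, b1⟩ := f1_wf_supp c hc _ _ h1
  obtain ⟨a2, b2⟩ := f1_wf_supp c hc _ _ h2
  obtain ⟨a3, b3⟩ := f1_wf_supp c hc _ _ h3
  rw [abs_le] at a1 b1 a2 b2 a3 b3
  rw [mem_closedBall_zero_iff, Prod.norm_def, Prod.norm_def, Prod.norm_def, Prod.norm_def,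
    Prod.norm_def]
  simp only [Real.norm_eq_abs]
  refine max_le (max_le ?_ (max_le ?_ ?_)) (max_le ?_ (max_le ?_ ?_)) <;> rw [abs_le] <;>
    constructor <;> linarith [a1.1, a1.2, b1.1, b1.2, a2.1, a2.2, b2.1, b2.2, a3.1, a3.2, b3.1,
      b3.2]

theorem f1_Wr_int (c : ℝ) (hc : 0 < c) : Integrable fun q : V × V => Wr c q.1 q.2 := by
  refine (f1_Wr_cont c hc).integrable_of_hasCompactSupport ?_
  refine HasCompactSupport.intro (isCompact_closedBall (0 : V × V) 2) fun q hq => ?_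
  by_contra h
  exact hq (f1_Wr_supp c hc q h)

theorem f1_KF_meas (c T : ℝ) : Measurable fun q : V × V => Kt T (Fr c q.1 q.2) :=
  (f1_Kt_meas T).comp (f1_Fr_cont c).measurable

theorem FF_int (c : ℝ) (hc : 0 < c) (T : ℝ) (hT : 0 < T) (M : V × V → ℂ) (hM : Measurable M)
    (B : ℝ) (hB : ∀ q, ‖M q‖ ≤ B) :
    Integrable fun q : V × V => M q * ((Wr c q.1 q.2 : ℝ) : ℂ) * Kt T (Fr c q.1 q.2) := by
  obtain ⟨C, hC, hK⟩ := Kt_le
  have h1 : Integrable fun q : V × V => ((Wr c q.1 q.2 : ℝ) : ℂ) := (f1_Wr_int c hc).ofReal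
  have h2 : Integrable fun q : V × V => M q * ((Wr c q.1 q.2 : ℝ) : ℂ) :=
    h1.bdd_mul (c := B) hM.aestronglyMeasurable (Filter.Eventually.of_forall hB)
  refine h2.mul_bdd (c := C * T) (f1_KF_meas c T).aestronglyMeasurable
    (Filter.Eventually.of_forall fun q => ?_)
  refine (hK T _ hT).trans (div_le_self (by positivity) ?_)
  exact one_le_pow₀ (by nlinarith [abs_nonneg (Fr c q.1 q.2)])

theorem FF_sum (c : ℝ) (hc : 0 < c) (T : ℝ) (hT : 0 < T) {ι : Type*} (s : Finset ι)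
    (M : ι → V × V → ℂ) (hM : ∀ i, Measurable (M i)) (B : ℝ) (hB : ∀ i q, ‖M i q‖ ≤ B) :
    FF c T (fun q => ∑ i ∈ s, M i q) = ∑ i ∈ s, FF c T (M i) := by
  unfold FF
  rw [← integral_finsetSum s fun i _ => FF_int c hc T hT (M i) (hM i) B (hB i)]
  refine integral_congr_ae (Filter.Eventually.of_forall fun q => ?_)
  simp only
  rw [Finset.sum_mul, Finset.sum_mul]

/-! ### Interchange of the two sides -/

/-- Interchange of the first and the last coordinate. -/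
def f1_s : V ≃ᵐ V where
  toFun v := (v.2.2, v.2.1, v.1)
  invFun v := (v.2.2, v.2.1, v.1)
  left_inv _ := rfl
  right_inv _ := rfl
  measurable_toFun := by
    simp only [Equiv.coe_fn_mk]
    fun_prop
  measurable_invFun := by
    simp only [Equiv.coe_fn_symm_mk]
    fun_prop

theorem f1_s_mp : MeasurePreserving f1_s (volume : Measure V) volume := by
  have h1 : MeasurePreserving (Prod.swap : ℝ × (ℝ × ℝ) → (ℝ × ℝ) × ℝ)
      (volume : Measure (ℝ × (ℝ × ℝ))) (volume : Measure ((ℝ × ℝ) × ℝ)) :=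
    Measure.measurePreserving_swap
  have h2 : MeasurePreserving (Prod.map (Prod.swap : ℝ × ℝ → ℝ × ℝ) (id : ℝ → ℝ))
      (volume : Measure ((ℝ × ℝ) × ℝ)) (volume : Measure ((ℝ × ℝ) × ℝ)) :=
    Measure.measurePreserving_swap.prod (MeasurePreserving.id _)
  have h3 : MeasurePreserving (MeasurableEquiv.prodAssoc : (ℝ × ℝ) × ℝ ≃ᵐ ℝ × ℝ × ℝ)
      (volume : Measure ((ℝ × ℝ) × ℝ)) (volume : Measure (ℝ × ℝ × ℝ)) :=
    measurePreserving_prodAssoc volume volume volume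
  exact h3.comp (h2.comp h1)

/-- Interchange of the two sides of the rectangle. -/
def f1_sw : V × V ≃ᵐ V × V := f1_s.prodCongr f1_s

theorem f1_sw_mp : MeasurePreserving f1_sw (volume : Measure (V × V)) volume :=
  f1_s_mp.prod f1_s_mp

theorem f1_sw_eq (q : V × V) : f1_sw q = swp q := rfl

theorem f1_Fr_swp (c : ℝ) (q : V × V) : Fr c (swp q).1 (swp q).2 = Fr c q.1 q.2 := by
  unfold Fr swp
  simp only
  rw [sub_right_comm q.1.2.1 q.1.2.2 q.1.1, sub_right_comm q.2.2.1 q.2.2.2 q.2.1]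
  ring

theorem f1_Wr_swp (c : ℝ) (q : V × V) : Wr c (swp q).1 (swp q).2 = Wr c q.1 q.2 := by
  unfold Wr swp
  simp only
  rw [sub_right_comm q.1.2.1 q.1.2.2 q.1.1, sub_right_comm q.2.2.1 q.2.2.2 q.2.1]
  ring

theorem FF_swp (c T : ℝ) (M : V × V → ℂ) : FF c T (fun q => M (swp q)) = FF c T M := by
  unfold FF
  rw [← f1_sw_mp.integral_comp f1_sw.measurableEmbedding
    (fun q : V × V => M q * ((Wr c q.1 q.2 : ℝ) : ℂ) * Kt T (Fr c q.1 q.2))]
  refine integral_congr_ae (Filter.Eventually.of_forall fun q => ?_)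
  simp only [f1_sw_eq]
  rw [f1_Fr_swp, f1_Wr_swp]

/-! ### Absolute estimate -/

theorem FF_abs (c : ℝ) (hc : 0 < c) : ∃ C : ℝ, 0 ≤ C ∧ ∀ T : ℝ, 0 < T → ∀ (M : V × V → ℂ)
    (S : Set (V × V)) (f0 v0 : ℝ), Measurable M → (∀ q, ‖M q‖ ≤ 1) →
    (∀ q, M q ≠ 0 → Wr c q.1 q.2 ≠ 0 → q ∈ S) → 0 ≤ v0 → volume S ≤ ENNReal.ofReal v0 → 0 ≤ f0 →
    (∀ q ∈ S, f0 ≤ |Fr c q.1 q.2|) → ‖FF c T M‖ ≤ C * T * v0 / (1 + T * f0) ^ 3 := by
  obtain ⟨C1, hC1, hW⟩ := Wr_bdd c hc
  obtain ⟨C2, hC2, hK⟩ := Kt_le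
  refine ⟨C1 * C2, by positivity, fun T hT M S f0 v0 hM hM1 hS hv0 hvS hf0 hF => ?_⟩
  set S' : Set (V × V) := {q | M q ≠ 0 ∧ Wr c q.1 q.2 ≠ 0} with hS'
  have hS'm : MeasurableSet S' := by
    refine MeasurableSet.inter ?_ ?_
    · exact (hM (measurableSet_singleton (0 : ℂ))).compl
    · exact ((f1_Wr_cont c hc).measurable (measurableSet_singleton (0 : ℝ))).compl
  have hS'S : S' ⊆ S := fun q hq => hS q hq.1 hq.2
  have hv : volume S' ≤ ENNReal.ofReal v0 := (measure_mono hS'S).trans hvS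
  have h1 : FF c T M = ∫ q in S', M q * ((Wr c q.1 q.2 : ℝ) : ℂ) * Kt T (Fr c q.1 q.2) := by
    unfold FF
    symm
    refine setIntegral_eq_integral_of_forall_compl_eq_zero fun q hq => ?_
    by_cases hq1 : M q = 0
    · rw [hq1, zero_mul, zero_mul]
    · have hq2 : Wr c q.1 q.2 = 0 := by
        by_contra h
        exact hq ⟨hq1, h⟩
      rw [hq2]
      simp
  have h2 : ∀ q ∈ S', ‖M q * ((Wr c q.1 q.2 : ℝ) : ℂ) * Kt T (Fr c q.1 q.2)‖ ≤
      C1 * (C2 * T / (1 + T * f0) ^ 3) := by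
    intro q hq
    rw [norm_mul, norm_mul, Complex.norm_real, Real.norm_eq_abs]
    have h3 : ‖M q‖ * |Wr c q.1 q.2| ≤ C1 := by
      calc ‖M q‖ * |Wr c q.1 q.2| ≤ 1 * C1 :=
            mul_le_mul (hM1 q) (hW _ _) (abs_nonneg _) zero_le_one
        _ = C1 := one_mul _
    have h4 : ‖Kt T (Fr c q.1 q.2)‖ ≤ C2 * T / (1 + T * f0) ^ 3 := by
      refine (hK T _ hT).trans ?_
      refine div_le_div_of_nonneg_left (by positivity) (by positivity) ?_
      refine pow_le_pow_left₀ (by positivity) ?_ 3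
      have := mul_le_mul_of_nonneg_left (hF q (hS'S hq)) hT.le
      linarith
    exact mul_le_mul h3 h4 (norm_nonneg _) hC1
  rw [h1]
  have h5 := norm_setIntegral_le_of_norm_le_const (lt_of_le_of_lt hv ENNReal.ofReal_lt_top) h2
  refine h5.trans ?_
  have h6 : volume.real S' ≤ v0 := by
    rw [Measure.real]
    exact ENNReal.toReal_le_of_le_ofReal hv0 hv
  calc C1 * (C2 * T / (1 + T * f0) ^ 3) * volume.real S' ≤
        C1 * (C2 * T / (1 + T * f0) ^ 3) * v0 := mul_le_mul_of_nonneg_left h6 (by positivity)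
    _ = C1 * C2 * T * v0 / (1 + T * f0) ^ 3 := by ring

/-! ### Interchange of the two coordinates -/

theorem f1_wf_comm (c a b : ℝ) : wf c a b = wf c b a := by
  unfold wf
  congr 1
  ring

theorem f1_qf_comm (c a b : ℝ) : qf c a b = qf c b a := by
  unfold qf
  congr 1
  ring

theorem f1_Hy_comm (c : ℝ) (α β : ℝ × ℝ → ℂ) (y : ℝ × ℝ) (t : ℝ) :
    Hy c (pd α β) y.swap t = Hy c (pd β α) y t := by
  unfold Hy
  have h1 : MeasurePreserving (MeasurableEquiv.prodComm : ℝ × ℝ ≃ᵐ ℝ × ℝ)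
      (volume : Measure (ℝ × ℝ)) volume := Measure.measurePreserving_swap
  rw [← h1.integral_comp MeasurableEquiv.prodComm.measurableEmbedding]
  refine integral_congr_ae (Filter.Eventually.of_forall fun x => ?_)
  have e : ∀ x : ℝ × ℝ, (MeasurableEquiv.prodComm : ℝ × ℝ ≃ᵐ ℝ × ℝ) x = (x.2, x.1) :=
    fun _ => rfl
  simp only [e, Prod.fst_swap, Prod.snd_swap, pd]
  rw [f1_wf_comm c x.2 x.1, f1_qf_comm c x.2 x.1, f1_wf_comm c (x.2 - y.2) (x.1 - y.1),
    f1_qf_comm c (x.2 - y.2) (x.1 - y.1), mul_comm (α (y.2, x.2)) (β (y.1, x.1))]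

/-- Interchange of the two coordinates. -/
theorem Th_comm (c T : ℝ) (α β : ℝ × ℝ → ℂ) : Th c T (pd α β) = Th c T (pd β α) := by
  unfold Th
  have h1 : MeasurePreserving (MeasurableEquiv.prodComm : ℝ × ℝ ≃ᵐ ℝ × ℝ)
      (volume : Measure (ℝ × ℝ)) volume := Measure.measurePreserving_swap
  rw [← h1.lintegral_comp_emb MeasurableEquiv.prodComm.measurableEmbedding]
  refine lintegral_congr fun y => ?_
  refine lintegral_congr fun t => ?_
  have e : ∀ x : ℝ × ℝ, (MeasurableEquiv.prodComm : ℝ × ℝ ≃ᵐ ℝ × ℝ) x = x.swap :=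
    fun _ => rfl
  simp only [e]
  rw [f1_Hy_comm]

end Pool.Agent.N1
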