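import Pool.Agent.N1.C2
import Pool.Agent.N1.F1

/-!
N1, block C: expansion of a cut-off.
-/

namespace Pool.Agent.N1

open MeasureTheory Set Metric Pool.Agent.MP_6cbfb8_an Pool.Agent.MST
open scoped ENNReal Real ContDiff

/-- Expansion of a cut-off. -/
theorem expand (c : ℝ) (hc : 0 < c) (T : ℝ) (hT : 0 < T) (B : ℝ) (m : ℝ → ℂ) (hm : FT1 B m)
    (M : V × V → ℂ) (hM : Measurable M) (B' : ℝ) (hB : ∀ q, ‖M q‖ ≤ B') (h : V × V → ℝ)
    (hh : Measurable h) (K : ℝ)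
    (hK : ∀ η : ℝ, ‖FF c T (fun q => ex (η * h q) * M q)‖ ≤ K) :
    ‖FF c T (fun q => m (h q) * M q)‖ ≤ B * K :=
  expand_of c T B m hm M (FF_int c hc T hT M hM B' hB) h hh K hK

end Pool.Agent.N1
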