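import Pool.Agent.N1.Defs2

namespace Pool.Agent.N1

open MeasureTheory Set Metric Pool.Agent.MP_6cbfb8_an Pool.Agent.MST
open scoped ENNReal Real ContDiff

/-- From local to uniform on a compact set. -/
theorem g2_unif {X : Type*} [PseudoMetricSpace X] {K : Set X} (hK : IsCompact K)
    (P : X → ℝ → ℝ → Prop)
    (hmono : ∀ x δ δ' C C', 0 < δ' → δ' ≤ δ → C ≤ C' → P x δ C → P x δ' C')
    (hloc : ∀ x ∈ K, ∃ δ : ℝ, 0 < δ ∧ ∃ C : ℝ, 0 ≤ C ∧ P x δ C)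
    (hshift : ∀ x x' δ C, 0 < δ → dist x' x ≤ δ / 2 → P x δ C → P x' (δ / 2) C) :
    ∃ δ : ℝ, 0 < δ ∧ ∃ C : ℝ, 0 ≤ C ∧ ∀ x ∈ K, P x δ C := by
  refine hK.induction_on
    (p := fun S => ∃ δ : ℝ, 0 < δ ∧ ∃ C : ℝ, 0 ≤ C ∧ ∀ x ∈ S, P x δ C) ?_ ?_ ?_ ?_
  · exact ⟨1, one_pos, 0, le_rfl, fun x hx => absurd hx (notMem_empty x)⟩
  · rintro S S' hS ⟨δ, hδ, C, hC, h⟩
    exact ⟨δ, hδ, C, hC, fun x hx => h x (hS hx)⟩
  · rintro S S' ⟨δ, hδ, C, hC, h⟩ ⟨δ', hδ', C', hC', h'⟩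
    refine ⟨min δ δ', lt_min hδ hδ', max C C', le_max_of_le_left hC, ?_⟩
    rintro x (hx | hx)
    · exact hmono x δ _ C _ (lt_min hδ hδ') (min_le_left _ _) (le_max_left _ _) (h x hx)
    · exact hmono x δ' _ C' _ (lt_min hδ hδ') (min_le_right _ _) (le_max_right _ _) (h' x hx)
  · intro x hx
    obtain ⟨δ, hδ, C, hC, h⟩ := hloc x hx
    refine ⟨closedBall x (δ / 2),
      mem_nhdsWithin_of_mem_nhds (closedBall_mem_nhds x (half_pos hδ)), δ / 2, half_pos hδ, C,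
      hC, ?_⟩
    intro x' hx'
    exact hshift x x' δ C hδ hx' h

/-- the cell index -/
noncomputable def g2_ix (R δ s : ℝ) : ℕ := ⌊(s + R) / δ⌋₊

theorem g2_ix_lt {R δ s : ℝ} (hδ : 0 < δ) (hs : |s| ≤ R) :
    g2_ix R δ s < ⌊2 * R / δ⌋₊ + 1 := by
  unfold g2_ix
  refine Nat.lt_succ_of_le (Nat.floor_le_floor ?_)
  have := (abs_le.1 hs).2
  gcongr
  linarith

theorem g2_ix_near {R δ s t : ℝ} (hδ : 0 < δ) (hs : |s| ≤ R) (ht : |t| ≤ R)
    (h : g2_ix R δ s = g2_ix R δ t) : |s - t| ≤ δ := by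
  unfold g2_ix at h
  have hs0 : 0 ≤ (s + R) / δ := div_nonneg (by linarith [(abs_le.1 hs).1]) hδ.le
  have ht0 : 0 ≤ (t + R) / δ := div_nonneg (by linarith [(abs_le.1 ht).1]) hδ.le
  have h1 := Nat.floor_le hs0
  have h2 := Nat.lt_floor_add_one ((s + R) / δ)
  have h3 := Nat.floor_le ht0
  have h4 := Nat.lt_floor_add_one ((t + R) / δ)
  rw [h] at h1 h2
  have h5 : (s + R) / δ - (t + R) / δ < 1 := by linarith
  have h6 : (t + R) / δ - (s + R) / δ < 1 := by linarith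
  have h7 : (s + R) / δ - (t + R) / δ = (s - t) / δ := by ring
  rw [h7] at h5
  have h8 : (t + R) / δ - (s + R) / δ = (t - s) / δ := by ring
  rw [h8] at h6
  rw [div_lt_one hδ] at h5 h6
  rw [abs_le]
  constructor <;> linarith

theorem g2_ix_meas (R δ : ℝ) : Measurable (g2_ix R δ) := by
  unfold g2_ix
  exact Nat.measurable_floor.comp (by fun_prop)

/-- restriction to a cell -/
noncomputable def g2_cut {α : Type*} (φ : α → ℝ) (R δ : ℝ) (A : α → ℂ) (i : ℕ) (u : α) : ℂ :=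
  if g2_ix R δ (φ u) = i then A u else 0

theorem g2_cut_meas {α : Type*} [MeasurableSpace α] {φ : α → ℝ} (hφ : Measurable φ) (R δ : ℝ)
    {A : α → ℂ} (hA : Measurable A) (i : ℕ) : Measurable (g2_cut φ R δ A i) := by
  unfold g2_cut
  refine Measurable.ite ?_ hA measurable_const
  exact ((g2_ix_meas R δ).comp hφ) (measurableSet_singleton i)

theorem g2_cut_norm {α : Type*} (φ : α → ℝ) (R δ : ℝ) {A : α → ℂ} (hA : ∀ a, ‖A a‖ ≤ 1) (i : ℕ)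
    (u : α) : ‖g2_cut φ R δ A i u‖ ≤ 1 := by
  unfold g2_cut
  split_ifs
  · exact hA u
  · simp

theorem g2_cut_ne {α : Type*} {φ : α → ℝ} {R δ : ℝ} {A : α → ℂ} {i : ℕ} {u : α}
    (h : g2_cut φ R δ A i u ≠ 0) : g2_ix R δ (φ u) = i ∧ A u ≠ 0 := by
  unfold g2_cut at h
  split_ifs at h with h1
  · exact ⟨h1, h⟩
  · exact absurd rfl h

theorem g2_cut_sum {α : Type*} (φ : α → ℝ) (R δ : ℝ) (hδ : 0 < δ) (A : α → ℂ)
    (hAs : ∀ u, A u ≠ 0 → |φ u| ≤ R) (u : α) :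
    ∑ i ∈ Finset.range (⌊2 * R / δ⌋₊ + 1), g2_cut φ R δ A i u = A u := by
  by_cases hA : A u = 0
  · rw [hA]
    refine Finset.sum_eq_zero fun i _ => ?_
    unfold g2_cut
    rw [hA]
    simp
  · unfold g2_cut
    rw [Finset.sum_ite_eq, if_pos]
    exact Finset.mem_range.2 (g2_ix_lt hδ (hAs u hA))

end Pool.Agent.N1
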