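import Pool.Agent.MST.NS
import Pool.Agent.MST.IT

/-!
Definitions for the restriction theorem for product densities `G₁(x₁) G₂(x₂)`.
-/

namespace Pool.Agent.N1

open MeasureTheory Set Pool.Agent.MP_6cbfb8_an Pool.Agent.MST
open scoped ENNReal Real ContDiff

/-- Triples of real numbers. -/
abbrev V : Type := ℝ × ℝ × ℝ

/-- A globally smooth function, equal to `√v` for `v ≥ c ^ 2 / 8`. -/
noncomputable def Sq (c v : ℝ) : ℝ := √v * Real.smoothTransition ((16 * v - c ^ 2) / c ^ 2)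

/-- The height of the point of the sphere over `(a, b)`. -/
noncomputable def qf (c a b : ℝ) : ℝ := Sq c (1 - a ^ 2 - b ^ 2)

/-- Smooth cut-off function: `0` below `c / 2`, `1` above `c` (this is `MST.hft_b`). -/
noncomputable def smb (c x : ℝ) : ℝ := Real.smoothTransition ((2 * x - c) / c)

/-- The amplitude belonging to `smb` (this is `MST.hft_a`). -/
noncomputable def sma (c v : ℝ) : ℝ := smb c √v / √v

/-- The amplitude. -/
noncomputable def wf (c a b : ℝ) : ℝ := sma c (1 - a ^ 2 - b ^ 2)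

/-- The phase of a rectangle; `u = (y₁, a, z₁)`, `v = (y₂, b, z₂)`. -/
noncomputable def Fr (c : ℝ) (u v : V) : ℝ :=
  qf c u.2.1 v.2.1 - qf c (u.2.1 - u.1) (v.2.1 - v.1) - qf c (u.2.1 - u.2.2) (v.2.1 - v.2.2) +
    qf c (u.2.1 - u.1 - u.2.2) (v.2.1 - v.1 - v.2.2)

/-- The amplitude of a rectangle. -/
noncomputable def Wr (c : ℝ) (u v : V) : ℝ :=
  wf c u.2.1 v.2.1 * wf c (u.2.1 - u.1) (v.2.1 - v.1) * wf c (u.2.1 - u.2.2) (v.2.1 - v.2.2) *
    wf c (u.2.1 - u.1 - u.2.2) (v.2.1 - v.1 - v.2.2)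

/-- A smooth weight, `1` on `[1, 2]`, supported in `[1 / 2, 3]`. -/
noncomputable def chi (s : ℝ) : ℝ :=
  Real.smoothTransition (2 * s - 1) * Real.smoothTransition (3 - s)

/-- The kernel in the time variable. -/
noncomputable def Kt (T x : ℝ) : ℂ := ∫ t : ℝ, ((chi (t / T) : ℝ) : ℂ) * ex (t * x)

/-- The four-linear form with a general density `M` on the space of rectangles. -/
noncomputable def FF (c T : ℝ) (M : V × V → ℂ) : ℂ :=
  ∫ q : V × V, M q * ((Wr c q.1 q.2 : ℝ) : ℂ) * Kt T (Fr c q.1 q.2)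

/-- The tensor product of two functions. -/
noncomputable def tp (A B : V → ℂ) (q : V × V) : ℂ := A q.1 * B q.2

/-- Interchange of the two sides of the rectangle. -/
def swp (q : V × V) : V × V := ((q.1.2.2, q.1.2.1, q.1.1), (q.2.2.2, q.2.2.1, q.2.1))

/-- The inner integral of a positive form; `y = (y₁, y₂)`, `x = (a, b)`. -/
noncomputable def Hy (c : ℝ) (M : (ℝ × ℝ) × (ℝ × ℝ) → ℂ) (y : ℝ × ℝ) (t : ℝ) : ℂ :=
  ∫ x : ℝ × ℝ, M (y, x) * ((wf c x.1 x.2 * wf c (x.1 - y.1) (x.2 - y.2) : ℝ) : ℂ) *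
    ex (t * (qf c x.1 x.2 - qf c (x.1 - y.1) (x.2 - y.2)))

/-- The positive form. -/
noncomputable def Th (c T : ℝ) (M : (ℝ × ℝ) × (ℝ × ℝ) → ℂ) : ℝ≥0∞ :=
  ∫⁻ y : ℝ × ℝ, ∫⁻ t : ℝ, ENNReal.ofReal (chi (t / T)) * ‖Hy c M y t‖ₑ ^ 2

/-- The density on the space of rectangles belonging to a positive form. -/
noncomputable def sqM (M : (ℝ × ℝ) × (ℝ × ℝ) → ℂ) (q : V × V) : ℂ :=
  M ((q.1.1, q.2.1), (q.1.2.1, q.2.2.1)) *
    (starRingEnd ℂ) (M ((q.1.1, q.2.1), (q.1.2.1 - q.1.2.2, q.2.2.1 - q.2.2.2)))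

/-- Product densities `α (y₁, a) β (y₂, b)` for positive forms. -/
noncomputable def pd (α β : ℝ × ℝ → ℂ) (p : (ℝ × ℝ) × (ℝ × ℝ)) : ℂ :=
  α (p.1.1, p.2.1) * β (p.1.2, p.2.2)

/-- The extension operator for product densities in the chart. -/
noncomputable def Eo (c : ℝ) (G₁ G₂ : ℝ → ℂ) (t : ℝ) (ξ : ℝ × ℝ) : ℂ :=
  ∫ x : ℝ × ℝ, G₁ x.1 * G₂ x.2 * ((wf c x.1 x.2 : ℝ) : ℂ) * ex (t * qf c x.1 x.2) *
    ex (x.1 * ξ.1 + x.2 * ξ.2)

/-- The compact part of the disc on which everything takes place. -/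
def Kc (c : ℝ) : Set (ℝ × ℝ) := {x | c ≤ x.1 ∧ c ≤ x.2 ∧ x.1 ^ 2 + x.2 ^ 2 ≤ 1 - c ^ 2 / 4}

/-- First separated function. -/
noncomputable def om (ρ y a : ℝ) : ℝ := y * (2 * a - ρ * y) / (a - ρ * y) ^ 2

/-- Second separated function. -/
noncomputable def sg (ρ y b : ℝ) : ℝ := -(y * (2 * b - ρ * y) / (1 - (b - ρ * y) ^ 2))

/-- The first derivative of the phase vanishes when this function does. -/
noncomputable def Nf (ρ : ℝ) (y x : ℝ × ℝ) : ℝ := om ρ y.1 x.1 - sg ρ y.2 x.2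

end Pool.Agent.N1
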