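import Pool.Agent.N1.Defs

/-!
N1: definitions used by the blocks F, E, M.
-/

namespace Pool.Agent.N1

open MeasureTheory Set Metric Pool.Agent.MP_6cbfb8_an Pool.Agent.MST
open scoped ENNReal Real ContDiff

/-- `m` is the Fourier transform of an integrable function of total mass at most `B`. -/
def FT1 (B : ℝ) (m : ℝ → ℂ) : Prop :=
  ∃ w : ℝ → ℂ, Integrable w ∧ (∫ η, ‖w η‖) ≤ B ∧ ∀ x, m x = ∫ η, w η * ex (η * x)

/-- Smooth cut-off: `1` on `[-1, 1]`, supported in `[-2, 2]`. -/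
noncomputable def th (x : ℝ) : ℝ := Real.smoothTransition (2 - x) * Real.smoothTransition (2 + x)

/-- Dyadic piece: supported in `2 ^ (-j - 1) ≤ |x| ≤ 2 ^ (1 - j)`. -/
noncomputable def uj (j : ℕ) (x : ℝ) : ℝ := th (2 ^ j * x) - th (2 ^ (j + 1) * x)

/-- One-sided dyadic piece: supported in `[1 / 2, 2]`. -/
noncomputable def mpl (x : ℝ) : ℝ := if 0 < x then th x - th (2 * x) else 0

/-- `G(a) conj G(a - y)`. -/
noncomputable def da (G : ℝ → ℂ) (p : ℝ × ℝ) : ℂ := G p.2 * (starRingEnd ℂ) (G (p.2 - p.1))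

/-- The neighbourhood of a base point. -/
def Nb (δ ρ : ℝ) (x0 y0 : ℝ × ℝ) (q : V × V) : Prop :=
  |q.1.1 / ρ - y0.1| ≤ δ ∧ |q.2.1 / ρ - y0.2| ≤ δ ∧ |q.1.2.1 - x0.1| ≤ δ ∧ |q.2.2.1 - x0.2| ≤ δ ∧
    |q.1.2.2| ≤ δ ∧ |q.2.2.2| ≤ δ

/-- The function `N` at the point `x`. -/
noncomputable def Nx (ρ : ℝ) (q : V × V) : ℝ := Nf ρ (q.1.1 / ρ, q.2.1 / ρ) (q.1.2.1, q.2.2.1)

/-- The function `N` at the point `x - z`. -/
noncomputable def Nz (ρ : ℝ) (q : V × V) : ℝ :=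
  Nf ρ (q.1.1 / ρ, q.2.1 / ρ) (q.1.2.1 - q.1.2.2, q.2.2.1 - q.2.2.2)

/-- All four points have coordinates at least `c`. -/
def Ge (c : ℝ) (u : V) : Prop :=
  c ≤ u.2.1 ∧ c ≤ u.2.1 - u.1 ∧ c ≤ u.2.1 - u.2.2 ∧ c ≤ u.2.1 - u.1 - u.2.2

/-- The product density on the sphere. -/
noncomputable def prd (c : ℝ) (G₁ G₂ : ℝ → ℂ) (x : E 2) : ℂ :=
  if c < |x 0| ∧ c < |x 1| ∧ x 0 ^ 2 + x 1 ^ 2 < 1 - c ^ 2 then G₁ (x 0) * G₂ (x 1) else 0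

end Pool.Agent.N1
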