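import Pool.Agent.N1.Eb

/-!
N1, block E: elementary estimates.
-/

namespace Pool.Agent.N1

open MeasureTheory Set Metric Pool.Agent.MP_6cbfb8_an Pool.Agent.MST
open Pool.Agent.N1E (Dom In4 F6 NN NNu dS dR P6)
open scoped ENNReal Real ContDiff

/-- `N` and `N'` do not vanish together. -/
theorem Nf_ne (c : ℝ) (hc : 0 < c) (x0 y0 : ℝ × ℝ) (hx : x0 ∈ Kc c) (hy1 : y0.1 ≠ 0)
    (h : Nf 0 y0 x0 = 0) : Nf 0 y0.swap x0.swap ≠ 0 := by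
  obtain ⟨h1, h2, h3⟩ := hx
  intro h'
  have a0 : 0 < x0.1 := by linarith
  have b0 : 0 < x0.2 := by linarith
  have hc2 : 0 < c ^ 2 := by positivity
  have p1 : 0 < 1 - x0.1 ^ 2 := by nlinarith [sq_nonneg x0.2]
  have p2 : 0 < 1 - x0.2 ^ 2 := by nlinarith [sq_nonneg x0.1]
  have e1 : y0.1 * (1 - x0.2 ^ 2) + y0.2 * (x0.1 * x0.2) = 0 := by
    have : Nf 0 y0 x0 = 2 * (y0.1 * (1 - x0.2 ^ 2) + y0.2 * (x0.1 * x0.2)) /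
        (x0.1 * (1 - x0.2 ^ 2)) := by
      unfold Nf om sg
      simp only [zero_mul, sub_zero]
      field_simp
      ring
    rw [this, div_eq_zero_iff] at h
    rcases h with h | h
    · linarith
    · exact absurd h (by positivity)
  have e2 : y0.2 * (1 - x0.1 ^ 2) + y0.1 * (x0.1 * x0.2) = 0 := by
    have : Nf 0 y0.swap x0.swap = 2 * (y0.2 * (1 - x0.1 ^ 2) + y0.1 * (x0.1 * x0.2)) /
        (x0.2 * (1 - x0.1 ^ 2)) := by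
      unfold Nf om sg
      simp only [zero_mul, sub_zero, Prod.fst_swap, Prod.snd_swap]
      field_simp
      ring
    rw [this, div_eq_zero_iff] at h'
    rcases h' with h' | h'
    · linarith
    · exact absurd h' (by positivity)
  have e3 : y0.1 * (1 - x0.1 ^ 2 - x0.2 ^ 2) = 0 := by
    linear_combination (1 - x0.1 ^ 2) * e1 - (x0.1 * x0.2) * e2
  rcases mul_eq_zero.1 e3 with h4 | h4
  · exact hy1 h4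
  · nlinarith

theorem E_N (c : ℝ) (hc : 0 < c) (x0 y0 : ℝ × ℝ) (hx : x0 ∈ Kc c) (h1 : Nf 0 y0 x0 ≠ 0)
    (h2 : Nf 0 y0.swap x0.swap ≠ 0) : ∃ δ c1 C7 : ℝ, 0 < δ ∧ 0 < c1 ∧ 1 ≤ C7 ∧ ∀ ρ : ℝ, 0 < ρ →
    ρ < δ → ∀ q : V × V, Nb δ ρ x0 y0 q →
    (C7 * |q.2.2.2| ≤ |q.1.2.2| → c1 * ρ * |q.1.2.2| ≤ |Fr c q.1 q.2|) ∧
    (C7 * |q.1.2.2| ≤ |q.2.2.2| → c1 * ρ * |q.2.2.2| ≤ |Fr c q.1 q.2|) := by
  have hc1 := e_Kc hc hx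
  obtain ⟨m, hm, hm1, hm2⟩ : ∃ m : ℝ, 0 < m ∧ m ≤ |Nf 0 y0 x0| / 2 ∧
      m ≤ |Nf 0 y0.swap x0.swap| / 2 :=
    ⟨min (|Nf 0 y0 x0| / 2) (|Nf 0 y0.swap x0.swap| / 2), by positivity, min_le_left _ _,
      min_le_right _ _⟩
  obtain ⟨δ1, d1, d1', H1⟩ := e_base hc (y0 := y0) hx hm
  obtain ⟨δ2, d2, d2', H2⟩ := e_base hc (y0 := y0.swap) (e_Kc_swap hx) hm
  obtain ⟨Y, hY⟩ : ∃ Y : ℝ, Y = |y0.1| + |y0.2| + 2 := ⟨_, rfl⟩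
  have hY2 : 2 ≤ Y := by
    have := abs_nonneg y0.1
    have := abs_nonneg y0.2
    linarith
  refine ⟨min δ1 δ2, c ^ 5 / 192 * m, 1 + 6912 * Y / (c ^ 8 * m), lt_min d1 d2, by positivity,
    by simp; positivity, fun ρ hρ hρδ q hq => ?_⟩
  obtain ⟨g1, g2, g3, g4, -, -⟩ := H1 ρ hρ (hρδ.trans_le (min_le_left _ _)) q
    (e_Nb_mono (min_le_left _ _) hq)
  obtain ⟨-, -, -, g4', -, -⟩ := H2 ρ hρ (hρδ.trans_le (min_le_right _ _)) q.swap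
    (e_Nb_swap (e_Nb_mono (min_le_right _ _) hq))
  have hS : ∀ u ∈ Icc (0:ℝ) 1, c ^ 5 / 96 * (ρ * m) ≤ |dS q u| := by
    intro u hu
    refine e_dS_ge hc g1 hu (by positivity) ?_
    have e1 := g4 u hu
    have e2 := abs_sub_abs_le_abs_sub (ρ * Nf 0 y0 x0) (NNu q u)
    rw [abs_sub_comm (ρ * Nf 0 y0 x0), abs_mul, abs_of_pos hρ] at e2
    nlinarith
  have hR : ∀ u ∈ Icc (0:ℝ) 1, c ^ 5 / 96 * (ρ * m) ≤ |dR q u| := by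
    intro u hu
    rw [e_dR_swap]
    refine e_dS_ge hc (e_In4_swap g1) hu (by positivity) ?_
    have e1 := g4' u hu
    have e2 := abs_sub_abs_le_abs_sub (ρ * Nf 0 y0.swap x0.swap) (NNu q.swap u)
    rw [abs_sub_comm (ρ * Nf 0 y0.swap x0.swap), abs_mul, abs_of_pos hρ] at e2
    nlinarith
  have hyy : |q.1.1| + |q.2.1| ≤ ρ * Y := by
    rw [hY]
    linarith
  have hS' : ∀ u ∈ Icc (0:ℝ) 1, |dS q u| ≤ 36 / c ^ 3 * (ρ * Y) := by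
    intro u hu
    refine (N1E.dS_le hc hc1 g1 hu).trans ?_
    gcongr
  have hR' : ∀ u ∈ Icc (0:ℝ) 1, |dR q u| ≤ 36 / c ^ 3 * (ρ * Y) := by
    intro u hu
    refine (N1E.dR_le hc hc1 g1 hu).trans ?_
    gcongr
  obtain ⟨k1, k2⟩ := N1E.low_both hc g1 hS hS' hR hR'
  rw [e_Fr_eq hc g1]
  have key : ∀ s t : ℝ, 0 ≤ s → 0 ≤ t → (1 + 6912 * Y / (c ^ 8 * m)) * s ≤ t →
      36 / c ^ 3 * (ρ * Y) * s ≤ c ^ 5 / 192 * m * ρ * t := by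
    intro s t hs ht hst
    have e1 : 6912 * Y / (c ^ 8 * m) * s ≤ t := by nlinarith
    calc 36 / c ^ 3 * (ρ * Y) * s = c ^ 5 / 192 * m * ρ * (6912 * Y / (c ^ 8 * m) * s) := by
          field_simp
          ring
      _ ≤ c ^ 5 / 192 * m * ρ * t := mul_le_mul_of_nonneg_left e1 (by positivity)
  constructor
  · intro h3
    have e1 := key _ _ (abs_nonneg _) (abs_nonneg _) h3
    refine le_trans ?_ k1
    calc c ^ 5 / 192 * m * ρ * |q.1.2.2| = c ^ 5 / 96 * (ρ * m) * |q.1.2.2| -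
          c ^ 5 / 192 * m * ρ * |q.1.2.2| := by ring
      _ ≤ _ := by linarith
  · intro h3
    have e1 := key _ _ (abs_nonneg _) (abs_nonneg _) h3
    refine le_trans ?_ k2
    calc c ^ 5 / 192 * m * ρ * |q.2.2.2| = c ^ 5 / 96 * (ρ * m) * |q.2.2.2| -
          c ^ 5 / 192 * m * ρ * |q.2.2.2| := by ring
      _ ≤ _ := by linarith

/-- basic facts in case (D) -/
theorem e_baseD {c : ℝ} (hc : 0 < c) {x0 y0 : ℝ × ℝ} (hx : x0 ∈ Kc c) (hy1 : y0.1 ≠ 0)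
    (h1 : Nf 0 y0 x0 = 0) : ∃ l : ℝ, 0 < l ∧ ∀ ε : ℝ, 0 < ε →
    ∃ δ : ℝ, 0 < δ ∧ δ ≤ 1 ∧ ∀ ρ : ℝ, 0 < ρ → ρ < δ → ∀ q : V × V, Nb δ ρ x0 y0 q →
      In4 c q ∧ |q.1.1| ≤ ρ * (|y0.1| + 1) ∧ |q.2.1| ≤ ρ * (|y0.2| + 1) ∧
      ρ * (|y0.1| / 2) ≤ |q.1.1| ∧
      (∀ u ∈ Icc (0:ℝ) 1, |NNu q u| ≤ ρ * ε) ∧ (∀ u ∈ Icc (0:ℝ) 1, ρ * l ≤ |dR q u|) ∧
      (NNu q 0 = ρ * Nx ρ q) ∧ (NNu q 1 = ρ * Nz ρ q) := by
  have h2 := Nf_ne c hc x0 y0 hx hy1 h1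
  have hy : 0 < |y0.1| := abs_pos.2 hy1
  obtain ⟨m, hm⟩ : ∃ m : ℝ, m = |Nf 0 y0.swap x0.swap| / 2 := ⟨_, rfl⟩
  have hm0 : 0 < m := by
    rw [hm]
    positivity
  refine ⟨c ^ 5 / 96 * m, by positivity, fun ε hε => ?_⟩
  obtain ⟨δ1, d1, d1', H1⟩ := e_base hc (y0 := y0) hx hε
  obtain ⟨δ2, d2, d2', H2⟩ := e_base hc (y0 := y0.swap) (e_Kc_swap hx) hm0
  refine ⟨min (min δ1 δ2) (|y0.1| / 2), by positivity,
    ((min_le_left _ _).trans (min_le_left _ _)).trans d1', fun ρ hρ hρδ q hq => ?_⟩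
  have m1 : min (min δ1 δ2) (|y0.1| / 2) ≤ δ1 := (min_le_left _ _).trans (min_le_left _ _)
  have m2 : min (min δ1 δ2) (|y0.1| / 2) ≤ δ2 := (min_le_left _ _).trans (min_le_right _ _)
  obtain ⟨g1, g2, g3, g4, g5, g6⟩ := H1 ρ hρ (hρδ.trans_le m1) q (e_Nb_mono m1 hq)
  obtain ⟨-, -, -, g4', -, -⟩ := H2 ρ hρ (hρδ.trans_le m2) q.swap
    (e_Nb_swap (e_Nb_mono m2 hq))
  refine ⟨g1, g2, g3, ?_, fun u hu => ?_, fun u hu => ?_, g5, g6⟩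
  · have e1 : |q.1.1 / ρ - y0.1| ≤ |y0.1| / 2 := hq.1.trans (min_le_right _ _)
    have e2 := abs_sub_abs_le_abs_sub y0.1 (q.1.1 / ρ)
    rw [abs_sub_comm y0.1] at e2
    have e3 : |q.1.1 / ρ| = |q.1.1| / ρ := by rw [abs_div, abs_of_pos hρ]
    have e4 : |y0.1| / 2 ≤ |q.1.1| / ρ := by
      rw [← e3]
      linarith
    rw [le_div_iff₀ hρ] at e4
    linarith
  · have := g4 u hu
    rwa [h1, mul_zero, sub_zero] at this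
  · rw [e_dR_swap]
    have e0 : ρ * (c ^ 5 / 96 * m) = c ^ 5 / 96 * (ρ * m) := by ring
    rw [e0]
    refine e_dS_ge hc (e_In4_swap g1) hu (by positivity) ?_
    have e1 := g4' u hu
    have e2 := abs_sub_abs_le_abs_sub (ρ * Nf 0 y0.swap x0.swap) (NNu q.swap u)
    rw [abs_sub_comm (ρ * Nf 0 y0.swap x0.swap), abs_mul, abs_of_pos hρ] at e2
    nlinarith

/-- R1. -/
theorem E_D1 (c : ℝ) (hc : 0 < c) (x0 y0 : ℝ × ℝ) (hx : x0 ∈ Kc c) (hy1 : y0.1 ≠ 0)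
    (hy2 : y0.2 ≠ 0) (h1 : Nf 0 y0 x0 = 0) (θ : ℝ) (hθ : 0 < θ) :
    ∃ δ c1 : ℝ, 0 < δ ∧ 0 < c1 ∧ ∀ ρ : ℝ, 0 < ρ → ρ < δ → ∀ q : V × V, Nb δ ρ x0 y0 q →
    θ * |q.1.2.2| ≤ |q.2.2.2| → c1 * ρ * |q.2.2.2| ≤ |Fr c q.1 q.2| := by
  obtain ⟨l, hl, H⟩ := e_baseD hc hx hy1 h1
  obtain ⟨δ, d1, -, H⟩ := H (l * θ * c ^ 5 / 162) (by positivity)
  refine ⟨δ, l / 2, d1, by positivity, fun ρ hρ hρδ q hq h2 => ?_⟩
  obtain ⟨g1, -, -, -, g5, g6, -, -⟩ := H ρ hρ hρδ q hq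
  have k := N1E.low_R hc g1 g6 g5
  rw [e_Fr_eq hc g1]
  refine le_trans ?_ k
  have e1 : 81 / c ^ 5 * (ρ * (l * θ * c ^ 5 / 162)) * |q.1.2.2| = l / 2 * ρ * (θ * |q.1.2.2|) := by
    field_simp
    ring
  rw [e1]
  have e2 : l / 2 * ρ * (θ * |q.1.2.2|) ≤ l / 2 * ρ * |q.2.2.2| :=
    mul_le_mul_of_nonneg_left h2 (by positivity)
  calc l / 2 * ρ * |q.2.2.2| = ρ * l * |q.2.2.2| - l / 2 * ρ * |q.2.2.2| := by ring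
    _ ≤ _ := by linarith

/-- R0. -/
theorem E_D0 (c : ℝ) (hc : 0 < c) (x0 y0 : ℝ × ℝ) (hx : x0 ∈ Kc c) (hy1 : y0.1 ≠ 0)
    (hy2 : y0.2 ≠ 0) (h1 : Nf 0 y0 x0 = 0) :
    ∃ δ θ C5 : ℝ, 0 < δ ∧ 0 < θ ∧ 0 < C5 ∧ ∀ ρ : ℝ, 0 < ρ → ρ < δ → ∀ κ : ℝ, 0 < κ →
    ∀ q : V × V, Nb δ ρ x0 y0 q → |q.2.2.2| ≤ θ * |q.1.2.2| → |Nx ρ q| ≤ 2 * κ →
    |Nz ρ q| ≤ 2 * κ → |q.1.2.2| ≤ C5 * κ := by
  obtain ⟨l, hl, H⟩ := e_baseD hc hx hy1 h1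
  obtain ⟨δ, d1, -, H⟩ := H 1 zero_lt_one
  have hy : 0 < |y0.1| := abs_pos.2 hy1
  have hy' : 0 < |y0.2| + 1 := by positivity
  refine ⟨δ, c ^ 5 * |y0.1| / (256 * (|y0.2| + 1)), 16 / (c * |y0.1|), d1, by positivity,
    by positivity, fun ρ hρ hρδ κ hκ q hq h2 h3 h4 => ?_⟩
  obtain ⟨g1, g2, g3, g4, -, -, g7, g8⟩ := H ρ hρ hρδ q hq
  have hA : c / 4 * |y0.1| * ρ * |q.1.2.2| + 64 / c ^ 4 * (|q.2.1| * |q.2.2.2|) ≤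
      c * (|q.1.1| * |q.1.2.2|) := by
    have e1 : |q.2.1| * |q.2.2.2| ≤ ρ * (|y0.2| + 1) *
        (c ^ 5 * |y0.1| / (256 * (|y0.2| + 1)) * |q.1.2.2|) :=
      mul_le_mul g3 h2 (abs_nonneg _) (by positivity)
    have e2 : 64 / c ^ 4 * (|q.2.1| * |q.2.2.2|) ≤ c / 4 * |y0.1| * ρ * |q.1.2.2| := by
      calc _ ≤ 64 / c ^ 4 * (ρ * (|y0.2| + 1) *
          (c ^ 5 * |y0.1| / (256 * (|y0.2| + 1)) * |q.1.2.2|)) :=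
            mul_le_mul_of_nonneg_left e1 (by positivity)
        _ = _ := by
            field_simp
            ring
    have e3 : ρ * (|y0.1| / 2) * |q.1.2.2| ≤ |q.1.1| * |q.1.2.2| :=
      mul_le_mul_of_nonneg_right g4 (abs_nonneg _)
    nlinarith
  obtain ⟨s, hs, hmono⟩ := N1E.NN_mono hc g1 hA
  have e4 := hmono 0 ⟨le_rfl, zero_le_one⟩ 1 ⟨zero_le_one, le_rfl⟩ zero_le_one
  rw [g7, g8, sub_zero, mul_one] at e4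
  have e5 : s * (ρ * Nz ρ q - ρ * Nx ρ q) ≤ 4 * κ * ρ := by
    obtain ⟨x1, x2⟩ := abs_le.1 h3
    obtain ⟨x3, x4⟩ := abs_le.1 h4
    rcases hs with rfl | rfl <;> nlinarith
  have e6 : c / 4 * |y0.1| * |q.1.2.2| ≤ 4 * κ := by
    have : c / 4 * |y0.1| * |q.1.2.2| * ρ ≤ 4 * κ * ρ := by
      calc _ = c / 4 * |y0.1| * ρ * |q.1.2.2| := by ring
        _ ≤ _ := e4.trans e5
    exact le_of_mul_le_mul_right this hρ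
  rw [div_mul_eq_mul_div, le_div_iff₀ (by positivity)]
  linarith

/-- R2a. -/
theorem E_D2a (c : ℝ) (hc : 0 < c) (x0 y0 : ℝ × ℝ) (hx : x0 ∈ Kc c) (hy1 : y0.1 ≠ 0)
    (hy2 : y0.2 ≠ 0) (h1 : Nf 0 y0 x0 = 0) (C5 : ℝ) :
    ∃ δ c1 C4 : ℝ, 0 < δ ∧ 0 < c1 ∧ 0 < C4 ∧ ∀ ρ : ℝ, 0 < ρ → ρ < δ → ∀ κ : ℝ, 0 < κ → κ < δ →
    ∀ q : V × V, Nb δ ρ x0 y0 q → |Nx ρ q| ≤ 2 * κ → |q.1.2.2| ≤ C5 * κ →
    |q.2.2.2| ≤ |q.1.2.2| → C4 * κ * |q.1.2.2| ≤ |q.2.2.2| →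
    c1 * ρ * |q.2.2.2| ≤ |Fr c q.1 q.2| := by
  obtain ⟨l, hl, H⟩ := e_baseD hc hx hy1 h1
  obtain ⟨δ, d1, -, H⟩ := H 1 zero_lt_one
  obtain ⟨M, hM⟩ : ∃ M : ℝ, M = 2 + (16 / c ^ 3 * (|y0.1| + 1) + 64 / c ^ 4 * (|y0.2| + 1)) *
    |C5| := ⟨_, rfl⟩
  have hM0 : 0 < M := by
    rw [hM]
    positivity
  refine ⟨δ, l / 2, 162 * M / (c ^ 5 * l), d1, by positivity, by positivity,
    fun ρ hρ hρδ κ hκ _ q hq h2 h3 h4 h5 => ?_⟩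
  obtain ⟨g1, g2, g3, g4, -, g6, g7, g8⟩ := H ρ hρ hρδ q hq
  have h3' : |q.1.2.2| ≤ |C5| * κ :=
    h3.trans (mul_le_mul_of_nonneg_right (le_abs_self _) hκ.le)
  have hN : ∀ u ∈ Icc (0:ℝ) 1, |NNu q u| ≤ ρ * κ * M := by
    intro u hu
    have e1 := N1E.NN_lip hc g1 hu
    have e2 : |NNu q 0| ≤ ρ * (2 * κ) := by
      rw [g7, abs_mul, abs_of_pos hρ]
      exact mul_le_mul_of_nonneg_left h2 hρ.le
    have e3 : |q.1.1| * |q.1.2.2| ≤ ρ * (|y0.1| + 1) * (|C5| * κ) :=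
      mul_le_mul g2 h3' (abs_nonneg _) (by positivity)
    have e4 : |q.2.1| * |q.2.2.2| ≤ ρ * (|y0.2| + 1) * (|C5| * κ) :=
      mul_le_mul g3 (h4.trans h3') (abs_nonneg _) (by positivity)
    have e5 := abs_sub_abs_le_abs_sub (NNu q u) (NNu q 0)
    have e6 : 16 / c ^ 3 * (|q.1.1| * |q.1.2.2|) ≤ 16 / c ^ 3 * (ρ * (|y0.1| + 1) * (|C5| * κ)) :=
      mul_le_mul_of_nonneg_left e3 (by positivity)
    have e7 : 64 / c ^ 4 * (|q.2.1| * |q.2.2.2|) ≤ 64 / c ^ 4 * (ρ * (|y0.2| + 1) * (|C5| * κ)) :=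
      mul_le_mul_of_nonneg_left e4 (by positivity)
    calc |NNu q u| ≤ ρ * (2 * κ) + (16 / c ^ 3 * (ρ * (|y0.1| + 1) * (|C5| * κ)) +
          64 / c ^ 4 * (ρ * (|y0.2| + 1) * (|C5| * κ))) := by linarith
      _ = ρ * κ * M := by
          rw [hM]
          ring
  have k := N1E.low_R hc g1 g6 hN
  rw [e_Fr_eq hc g1]
  refine le_trans ?_ k
  have e1 : 81 / c ^ 5 * (ρ * κ * M) * |q.1.2.2| =
      l / 2 * ρ * (162 * M / (c ^ 5 * l) * κ * |q.1.2.2|) := by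
    field_simp
    ring
  rw [e1]
  have e2 : l / 2 * ρ * (162 * M / (c ^ 5 * l) * κ * |q.1.2.2|) ≤ l / 2 * ρ * |q.2.2.2| :=
    mul_le_mul_of_nonneg_left h5 (by positivity)
  calc l / 2 * ρ * |q.2.2.2| = ρ * l * |q.2.2.2| - l / 2 * ρ * |q.2.2.2| := by ring
    _ ≤ _ := by linarith

/-- R2b. -/
theorem E_D2b (c : ℝ) (hc : 0 < c) (x0 y0 : ℝ × ℝ) (hx : x0 ∈ Kc c) (hy1 : y0.1 ≠ 0)
    (hy2 : y0.2 ≠ 0) (h1 : Nf 0 y0 x0 = 0) :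
    ∃ δ c1 C4 : ℝ, 0 < δ ∧ 0 < c1 ∧ 0 < C4 ∧ ∀ ρ : ℝ, 0 < ρ → ρ < δ → ∀ κ : ℝ, 0 < κ → κ < δ →
    ∀ q : V × V, Nb δ ρ x0 y0 q →
    ((κ / 2 ≤ Nx ρ q ∧ κ / 2 ≤ Nz ρ q) ∨ (Nx ρ q ≤ -(κ / 2) ∧ Nz ρ q ≤ -(κ / 2))) →
    C4 * |q.2.2.2| ≤ κ * |q.1.2.2| → c1 * ρ * κ * |q.1.2.2| ≤ |Fr c q.1 q.2| := by
  have hc1 := e_Kc hc hx
  obtain ⟨l, hl, H⟩ := e_baseD hc hx hy1 h1
  obtain ⟨δ, d1, -, H⟩ := H 1 zero_lt_one
  have hy : 0 < |y0.1| := abs_pos.2 hy1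
  have hy' : 0 < |y0.2| + 1 := by positivity
  obtain ⟨Y, hY⟩ : ∃ Y : ℝ, Y = |y0.1| + |y0.2| + 2 := ⟨_, rfl⟩
  have hY2 : 2 ≤ Y := by
    have := abs_nonneg y0.2
    linarith
  obtain ⟨θ, hθ⟩ : ∃ θ : ℝ, θ = c ^ 5 * |y0.1| / (128 * (|y0.2| + 1)) := ⟨_, rfl⟩
  have hθ0 : 0 < θ := by
    rw [hθ]
    positivity
  refine ⟨min δ θ, c ^ 5 / 384, 1 + 13824 * Y / c ^ 8, lt_min d1 hθ0, by positivity,
    by positivity, fun ρ hρ hρδ κ hκ hκδ q hq h2 h3 => ?_⟩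
  obtain ⟨g1, g2, g3, g4, -, g6, g7, g8⟩ := H ρ hρ (hρδ.trans_le (min_le_left _ _)) q
    (e_Nb_mono (min_le_left _ _) hq)
  have a1 := abs_nonneg q.1.2.2
  have a2 := abs_nonneg q.2.2.2
  have h4 : |q.2.2.2| ≤ θ * |q.1.2.2| := by
    have e1 : |q.2.2.2| ≤ κ * |q.1.2.2| := by
      refine le_trans ?_ h3
      have : 0 ≤ 13824 * Y / c ^ 8 := by positivity
      nlinarith
    refine e1.trans (mul_le_mul_of_nonneg_right ?_ a1)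
    exact hκδ.le.trans (min_le_right _ _)
  have hA : 0 + 64 / c ^ 4 * (|q.2.1| * |q.2.2.2|) ≤ c * (|q.1.1| * |q.1.2.2|) := by
    have e1 : |q.2.1| * |q.2.2.2| ≤ ρ * (|y0.2| + 1) * (θ * |q.1.2.2|) :=
      mul_le_mul g3 h4 (abs_nonneg _) (by positivity)
    have e2 : 64 / c ^ 4 * (|q.2.1| * |q.2.2.2|) ≤ c / 2 * |y0.1| * ρ * |q.1.2.2| := by
      calc _ ≤ 64 / c ^ 4 * (ρ * (|y0.2| + 1) * (θ * |q.1.2.2|)) :=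
            mul_le_mul_of_nonneg_left e1 (by positivity)
        _ = _ := by
            rw [hθ]
            field_simp
            ring
    have e3 : ρ * (|y0.1| / 2) * |q.1.2.2| ≤ |q.1.1| * |q.1.2.2| :=
      mul_le_mul_of_nonneg_right g4 (abs_nonneg _)
    nlinarith
  obtain ⟨s, hs, hmono⟩ := N1E.NN_mono hc g1 hA
  have i0 : (0:ℝ) ∈ Icc (0:ℝ) 1 := ⟨le_rfl, zero_le_one⟩
  have i1 : (1:ℝ) ∈ Icc (0:ℝ) 1 := ⟨zero_le_one, le_rfl⟩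
  have hN : ∀ u ∈ Icc (0:ℝ) 1, ρ * (κ / 2) ≤ |NNu q u| := by
    intro u hu
    have e1 := hmono 0 i0 u hu hu.1
    have e2 := hmono u hu 1 i1 hu.2
    rw [g7, zero_mul] at e1
    rw [g8, zero_mul] at e2
    rcases h2 with ⟨h5, h6⟩ | ⟨h5, h6⟩
    · have h5' := mul_le_mul_of_nonneg_left h5 hρ.le
      have h6' := mul_le_mul_of_nonneg_left h6 hρ.le
      refine le_trans ?_ (le_abs_self _)
      rcases hs with rfl | rfl <;> linarith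
    · have h5' := mul_le_mul_of_nonneg_left h5 hρ.le
      have h6' := mul_le_mul_of_nonneg_left h6 hρ.le
      refine le_trans ?_ (neg_le_abs _)
      rcases hs with rfl | rfl <;> linarith
  have k := N1E.low_S hc hc1 g1 (by positivity) hN
  rw [e_Fr_eq hc g1]
  refine le_trans ?_ k
  have e1 : |q.1.1| + |q.2.1| ≤ ρ * Y := by
    rw [hY]
    linarith
  have e2 : 36 / c ^ 3 * (|q.1.1| + |q.2.1|) * |q.2.2.2| ≤ 36 / c ^ 3 * (ρ * Y) * |q.2.2.2| := by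
    gcongr
  have e3 : 13824 * Y / c ^ 8 * |q.2.2.2| ≤ κ * |q.1.2.2| := by nlinarith
  have e4 : 36 / c ^ 3 * (ρ * Y) * |q.2.2.2| ≤ c ^ 5 / 384 * ρ * (κ * |q.1.2.2|) := by
    calc 36 / c ^ 3 * (ρ * Y) * |q.2.2.2| =
        c ^ 5 / 384 * ρ * (13824 * Y / c ^ 8 * |q.2.2.2|) := by
          field_simp
          ring
      _ ≤ _ := mul_le_mul_of_nonneg_left e3 (by positivity)
  calc c ^ 5 / 384 * ρ * κ * |q.1.2.2| = c ^ 5 / 96 * (ρ * (κ / 2)) * |q.1.2.2| -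
        c ^ 5 / 384 * ρ * (κ * |q.1.2.2|) := by ring
    _ ≤ _ := by linarith

end Pool.Agent.N1
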