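import Pool.Agent.N1.Eb

/-!
N1, block E: both outer directions near the axes.
-/

namespace Pool.Agent.N1

open MeasureTheory Set Metric Pool.Agent.MP_6cbfb8_an Pool.Agent.MST
open Pool.Agent.N1E (Dom In4 F6 NN NNu dS dR P6)
open scoped ENNReal Real ContDiff

theorem e_wf_ne {c a b : ℝ} (hc : 0 < c) (ha : c ≤ a) (hb : c ≤ b) (h : wf c a b ≠ 0) :
    Dom c a b ∧ c ≤ 1 := by
  have h1 : c ^ 2 / 4 < 1 - a ^ 2 - b ^ 2 := by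
    by_contra h2
    push Not at h2
    apply h
    unfold wf sma smb
    rw [Real.smoothTransition.zero_of_nonpos, zero_div]
    refine div_nonpos_of_nonpos_of_nonneg ?_ hc.le
    have : √(1 - a ^ 2 - b ^ 2) ≤ c / 2 := by
      rw [Real.sqrt_le_left (by positivity)]
      linarith
    linarith
  have hc2 : 0 < c ^ 2 := by positivity
  refine ⟨⟨by linarith, by linarith, by linarith⟩, ?_⟩
  nlinarith [pow_le_pow_left₀ hc.le ha 2, pow_le_pow_left₀ hc.le hb 2]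

theorem e_Fr_swap {c : ℝ} (hc : 0 < c) {q : V × V} (h : In4 c q) :
    Fr c q.swap.1 q.swap.2 = Fr c q.1 q.2 := by
  rw [e_Fr_eq hc h, e_Fr_eq hc (q := q.swap) ⟨N1E.dom_swap h.p1, N1E.dom_swap h.p2,
    N1E.dom_swap h.p3, N1E.dom_swap h.p4⟩]
  unfold F6 N1E.ph
  simp only [Prod.fst_swap, Prod.snd_swap]
  rw [N1E.qf_comm q.2.2.1, N1E.qf_comm (q.2.2.1 - q.2.1), N1E.qf_comm (q.2.2.1 - q.2.2.2),
    N1E.qf_comm (q.2.2.1 - q.2.2.2 - q.2.1)]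

theorem e_DD1 {c ε : ℝ} (hc : 0 < c) (hc1 : c ≤ 1) (hε : 0 ≤ ε) (hε' : ε ≤ c ^ 5 / 1152)
    {q : V × V} (h : In4 c q) (h1 : |q.2.1| ≤ ε * |q.1.1|) :
    (|q.2.2.2| ≤ ε * |q.1.2.2| → c ^ 2 / 16 * |q.1.1| * |q.1.2.2| ≤ |Fr c q.1 q.2|) ∧
    (|q.1.2.2| ≤ ε * |q.2.2.2| → c ^ 2 / 16 * |q.1.1| * |q.2.2.2| ≤ |Fr c q.1 q.2|) := by
  have y0 := abs_nonneg q.1.1
  have hc2 : c ^ 2 ≤ 1 := pow_le_one₀ hc.le hc1
  have ε1 : ε ≤ c ^ 3 / 1152 := by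
    refine hε'.trans ?_
    have : c ^ 5 ≤ c ^ 3 := pow_le_pow_of_le_one hc.le hc1 (by norm_num)
    linarith
  have ε2 : ε ≤ 1 := by
    refine ε1.trans ?_
    have : c ^ 3 ≤ 1 := pow_le_one₀ hc.le hc1
    linarith
  have hyy : |q.1.1| + |q.2.1| ≤ 2 * |q.1.1| := by nlinarith
  have k1 : 72 / c ^ 3 * ε ≤ c ^ 2 / 16 := by
    calc 72 / c ^ 3 * ε ≤ 72 / c ^ 3 * (c ^ 5 / 1152) := mul_le_mul_of_nonneg_left hε' (by positivity)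
      _ = c ^ 2 / 16 := by
          field_simp
          ring
  have hS : ∀ u ∈ Icc (0:ℝ) 1, 1 / 2 * |q.1.1| ≤ |dS q u| := by
    intro u hu
    have e := N1E.sf_ge hc (N1E.seg1 h hu) (N1E.seg2 h hu)
    have e1 : 27 / c ^ 3 * |q.2.1| ≤ 1 / 2 * |q.1.1| := by
      calc 27 / c ^ 3 * |q.2.1| ≤ 27 / c ^ 3 * (c ^ 3 / 1152 * |q.1.1|) := by
            refine mul_le_mul_of_nonneg_left (h1.trans ?_) (by positivity)
            exact mul_le_mul_of_nonneg_right ε1 y0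
        _ = 27 / 1152 * |q.1.1| := by
            field_simp
        _ ≤ _ := by linarith
    simp only [sub_sub_cancel] at e
    unfold dS
    linarith
  have hR : ∀ u ∈ Icc (0:ℝ) 1, c ^ 2 / 8 * |q.1.1| ≤ |dR q u| := by
    intro u hu
    have e := N1E.rf_ge hc hc1 (N1E.seg1 h hu) (N1E.seg2 h hu)
    have e1 : 30 / c ^ 3 * |q.2.1| ≤ c ^ 2 / 8 * |q.1.1| := by
      calc 30 / c ^ 3 * |q.2.1| ≤ 30 / c ^ 3 * (c ^ 5 / 1152 * |q.1.1|) := by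
            refine mul_le_mul_of_nonneg_left (h1.trans ?_) (by positivity)
            exact mul_le_mul_of_nonneg_right hε' y0
        _ = 30 / 1152 * c ^ 2 * |q.1.1| := by
            field_simp
        _ ≤ _ := by nlinarith [mul_nonneg (sq_nonneg c) y0]
    simp only [sub_sub_cancel] at e
    unfold dR
    linarith
  have hS' : ∀ u ∈ Icc (0:ℝ) 1, |dS q u| ≤ 72 / c ^ 3 * |q.1.1| := by
    intro u hu
    refine (N1E.dS_le hc hc1 h hu).trans ?_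
    calc 36 / c ^ 3 * (|q.1.1| + |q.2.1|) ≤ 36 / c ^ 3 * (2 * |q.1.1|) :=
          mul_le_mul_of_nonneg_left hyy (by positivity)
      _ = _ := by ring
  have hR' : ∀ u ∈ Icc (0:ℝ) 1, |dR q u| ≤ 72 / c ^ 3 * |q.1.1| := by
    intro u hu
    refine (N1E.dR_le hc hc1 h hu).trans ?_
    calc 36 / c ^ 3 * (|q.1.1| + |q.2.1|) ≤ 36 / c ^ 3 * (2 * |q.1.1|) :=
          mul_le_mul_of_nonneg_left hyy (by positivity)
      _ = _ := by ring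
  obtain ⟨m1, m2⟩ := N1E.low_both hc h hS hS' hR hR'
  rw [e_Fr_eq hc h]
  constructor
  · intro h2
    refine le_trans ?_ m1
    have e1 : 72 / c ^ 3 * |q.1.1| * |q.2.2.2| ≤ c ^ 2 / 16 * (|q.1.1| * |q.1.2.2|) := by
      calc 72 / c ^ 3 * |q.1.1| * |q.2.2.2| ≤ 72 / c ^ 3 * |q.1.1| * (ε * |q.1.2.2|) :=
            mul_le_mul_of_nonneg_left h2 (by positivity)
        _ = 72 / c ^ 3 * ε * (|q.1.1| * |q.1.2.2|) := by ring
        _ ≤ _ := mul_le_mul_of_nonneg_right k1 (by positivity)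
    have e2 : 0 ≤ |q.1.1| * |q.1.2.2| := by positivity
    nlinarith
  · intro h2
    refine le_trans ?_ m2
    have e1 : 72 / c ^ 3 * |q.1.1| * |q.1.2.2| ≤ c ^ 2 / 16 * (|q.1.1| * |q.2.2.2|) := by
      calc 72 / c ^ 3 * |q.1.1| * |q.1.2.2| ≤ 72 / c ^ 3 * |q.1.1| * (ε * |q.2.2.2|) :=
            mul_le_mul_of_nonneg_left h2 (by positivity)
        _ = 72 / c ^ 3 * ε * (|q.1.1| * |q.2.2.2|) := by ring
        _ ≤ _ := mul_le_mul_of_nonneg_right k1 (by positivity)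
    have e2 : 0 ≤ |q.1.1| * |q.2.2.2| := by positivity
    nlinarith

/-- Both outer directions near the axes. -/
theorem E_DD (c : ℝ) (hc : 0 < c) : ∃ (k0 : ℕ) (c1 : ℝ), 1 ≤ k0 ∧ 0 < c1 ∧ ∀ q : V × V,
    Ge c q.1 → Ge c q.2 → Wr c q.1 q.2 ≠ 0 →
    (|q.2.1| ≤ 4 / 2 ^ k0 * |q.1.1| → |q.2.2.2| ≤ 4 / 2 ^ k0 * |q.1.2.2| →
      c1 * |q.1.1| * |q.1.2.2| ≤ |Fr c q.1 q.2|) ∧
    (|q.2.1| ≤ 4 / 2 ^ k0 * |q.1.1| → |q.1.2.2| ≤ 4 / 2 ^ k0 * |q.2.2.2| →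
      c1 * |q.1.1| * |q.2.2.2| ≤ |Fr c q.1 q.2|) ∧
    (|q.1.1| ≤ 4 / 2 ^ k0 * |q.2.1| → |q.2.2.2| ≤ 4 / 2 ^ k0 * |q.1.2.2| →
      c1 * |q.2.1| * |q.1.2.2| ≤ |Fr c q.1 q.2|) ∧
    (|q.1.1| ≤ 4 / 2 ^ k0 * |q.2.1| → |q.1.2.2| ≤ 4 / 2 ^ k0 * |q.2.2.2| →
      c1 * |q.2.1| * |q.2.2.2| ≤ |Fr c q.1 q.2|) := by
  obtain ⟨n, hn⟩ := exists_pow_lt_of_lt_one (show 0 < c ^ 5 / 4608 by positivity)
    (show (1/2 : ℝ) < 1 by norm_num)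
  have hε : 4 / 2 ^ (n + 1) ≤ c ^ 5 / 1152 := by
    have e1 : (4 : ℝ) / 2 ^ (n + 1) = 2 * (1 / 2) ^ n := by
      rw [pow_succ, one_div, inv_pow]
      field_simp
      norm_num
    rw [e1]
    have : 0 < c ^ 5 := by positivity
    linarith
  have hε0 : (0:ℝ) ≤ 4 / 2 ^ (n + 1) := by positivity
  refine ⟨n + 1, c ^ 2 / 16, by omega, by positivity, fun q hu hv hW => ?_⟩
  unfold Wr at hW
  have w4 : wf c (q.1.2.1 - q.1.1 - q.1.2.2) (q.2.2.1 - q.2.1 - q.2.2.2) ≠ 0 :=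
    right_ne_zero_of_mul hW
  have hW' := left_ne_zero_of_mul hW
  have w3 : wf c (q.1.2.1 - q.1.2.2) (q.2.2.1 - q.2.2.2) ≠ 0 := right_ne_zero_of_mul hW'
  have hW'' := left_ne_zero_of_mul hW'
  have w2 : wf c (q.1.2.1 - q.1.1) (q.2.2.1 - q.2.1) ≠ 0 := right_ne_zero_of_mul hW''
  have w1 : wf c q.1.2.1 q.2.2.1 ≠ 0 := left_ne_zero_of_mul hW''
  obtain ⟨u1, u2, u3, u4⟩ := hu
  obtain ⟨v1, v2, v3, v4⟩ := hv
  have p4 := (e_wf_ne hc u4 v4 w4).1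
  have hin : In4 c q := by
    refine ⟨(e_wf_ne hc u1 v1 w1).1, (e_wf_ne hc u2 v2 w2).1, (e_wf_ne hc u3 v3 w3).1, ?_⟩
    convert p4 using 1 <;> ring
  have hc1 : c ≤ 1 := (e_wf_ne hc u1 v1 w1).2
  have hin' : In4 c q.swap := ⟨N1E.dom_swap hin.p1, N1E.dom_swap hin.p2, N1E.dom_swap hin.p3,
    N1E.dom_swap hin.p4⟩
  refine ⟨fun h1 h2 => (e_DD1 hc hc1 hε0 hε hin h1).1 h2,
    fun h1 h2 => (e_DD1 hc hc1 hε0 hε hin h1).2 h2, fun h1 h2 => ?_, fun h1 h2 => ?_⟩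
  · rw [← e_Fr_swap hc hin]
    exact (e_DD1 hc hc1 hε0 hε hin' h1).2 h2
  · rw [← e_Fr_swap hc hin]
    exact (e_DD1 hc hc1 hε0 hε hin' h1).1 h2

end Pool.Agent.N1
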