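import Pool.Agent.N1.Defs2
import Pool.Agent.N1E.E3
import Pool.Agent.N1E.E5

/-!
N1, block E: `vol_box`, `vol_strip`.
-/

namespace Pool.Agent.N1

open MeasureTheory Set Metric Pool.Agent.MP_6cbfb8_an Pool.Agent.MST
open scoped ENNReal Real ContDiff

theorem vol_box (x0 y0 : ℝ × ℝ) (δ ρ g d : ℝ) (hδ : 0 ≤ δ) (hδ1 : δ ≤ 1) (hρ : 0 < ρ)
    (hg : 0 ≤ g) (hd : 0 ≤ d) :
    volume {q : V × V | Nb δ ρ x0 y0 q ∧ |q.1.2.2| ≤ g ∧ |q.2.2.2| ≤ d} ≤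
      ENNReal.ofReal (64 * ρ ^ 2 * g * d) := by
  have hsub : {q : V × V | Nb δ ρ x0 y0 q ∧ |q.1.2.2| ≤ g ∧ |q.2.2.2| ≤ d} ⊆
      (Icc (ρ * (y0.1 - 1)) (ρ * (y0.1 + 1)) ×ˢ Icc (x0.1 - 1) (x0.1 + 1) ×ˢ Icc (-g) g) ×ˢ
      (Icc (ρ * (y0.2 - 1)) (ρ * (y0.2 + 1)) ×ˢ Icc (x0.2 - 1) (x0.2 + 1) ×ˢ Icc (-d) d) := by
    rintro ⟨⟨y1, a, z1⟩, ⟨y2, b, z2⟩⟩ ⟨⟨h1, h2, h3, h4, h5, h6⟩, h7, h8⟩
    simp only at h1 h2 h3 h4 h5 h6 h7 h8
    have key : ∀ y t : ℝ, |y / ρ - t| ≤ δ → ρ * (t - 1) ≤ y ∧ y ≤ ρ * (t + 1) := by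
      intro y t ht
      rw [abs_le] at ht
      have e : y = ρ * (y / ρ) := by field_simp
      constructor
      · rw [e]; exact mul_le_mul_of_nonneg_left (by linarith [ht.1]) hρ.le
      · rw [e]; exact mul_le_mul_of_nonneg_left (by linarith [ht.2]) hρ.le
    rw [abs_le] at h3 h4 h7 h8
    exact ⟨⟨key y1 _ h1, ⟨by linarith [h3.1], by linarith [h3.2]⟩, ⟨h7.1, h7.2⟩⟩,
      ⟨key y2 _ h2, ⟨by linarith [h4.1], by linarith [h4.2]⟩, ⟨h8.1, h8.2⟩⟩⟩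
  refine (measure_mono hsub).trans ?_
  simp only [Measure.volume_eq_prod, Measure.prod_prod, Real.volume_Icc]
  rw [← ENNReal.ofReal_mul (by linarith), ← ENNReal.ofReal_mul (by nlinarith),
    ← ENNReal.ofReal_mul (by linarith), ← ENNReal.ofReal_mul (by nlinarith),
    ← ENNReal.ofReal_mul (by
      refine mul_nonneg (by nlinarith) (mul_nonneg (by linarith) (by linarith)))]
  apply ENNReal.ofReal_le_ofReal
  apply le_of_eq
  ring

/-- measurability of `Nx` -/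
private theorem vol_Nx_meas (ρ : ℝ) : Measurable (fun q : V × V => Nx ρ q) := by
  unfold Nx Nf om sg
  fun_prop

/-- lower bound of the difference of `om` -/
private theorem vol_om {c ρ y a a' : ℝ} (hc : 0 < c) (hρ : 0 < ρ)
    (h1 : c / 2 ≤ a) (h2 : a ≤ 1) (h1' : c / 2 ≤ a') (h2' : a' ≤ 1)
    (h3 : c / 2 ≤ a - y) (h4 : a - y ≤ 1) (h3' : c / 2 ≤ a' - y) (h4' : a' - y ≤ 1) :
    c * |y / ρ| * |a - a'| ≤ |om ρ (y / ρ) a - om ρ (y / ρ) a'| := by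
  have hρy : ρ * (y / ρ) = y := by field_simp
  have e : ∀ t : ℝ, 0 < t - y → om ρ (y / ρ) t = (N1E.om y t - 1) / ρ := by
    intro t ht
    unfold om N1E.om
    rw [hρy]
    field_simp
    ring
  have p1 : 0 < a - y := by linarith
  have p2 : 0 < a' - y := by linarith
  rw [e a p1, e a' p2]
  have e2 : (N1E.om y a - 1) / ρ - (N1E.om y a' - 1) / ρ = (N1E.om y a - N1E.om y a') / ρ := by
    ring
  rw [e2, abs_div, abs_div, abs_of_pos hρ]
  have e3 : c * (|y| / ρ) * |a - a'| = c * (|y| * |a - a'|) / ρ := by ring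
  rw [e3]
  refine div_le_div_of_nonneg_right ?_ hρ.le
  rw [← abs_mul]
  rcases le_total 0 (y * (a' - a)) with h | h
  · have h5 := N1E.om_sub hc h1 h2 h1' h2' h3 h4 h3' h4' h
    have h6 : |y * (a - a')| = y * (a' - a) := by
      rw [show y * (a - a') = -(y * (a' - a)) by ring, abs_neg, abs_of_nonneg h]
    rw [h6]
    exact h5.trans (le_abs_self _)
  · have h' : 0 ≤ y * (a - a') := by nlinarith
    have h5 := N1E.om_sub hc h1' h2' h1 h2 h3' h4' h3 h4 h'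
    rw [abs_of_nonneg h', abs_sub_comm]
    exact h5.trans (le_abs_self _)

theorem vol_strip (c : ℝ) (hc : 0 < c) (x0 y0 : ℝ × ℝ) (hx : x0 ∈ Kc c) (hy1 : y0.1 ≠ 0) :
    ∃ δ C : ℝ, 0 < δ ∧ 0 < C ∧ ∀ ρ : ℝ, 0 < ρ → ρ < δ → ∀ κ g d : ℝ, 0 ≤ κ → 0 ≤ g → 0 ≤ d →
    volume {q : V × V | Nb δ ρ x0 y0 q ∧ |Nx ρ q| ≤ 2 * κ ∧ |q.1.2.2| ≤ g ∧ |q.2.2.2| ≤ d} ≤
      ENNReal.ofReal (C * ρ ^ 2 * κ * g * d) := by
  obtain ⟨hx1, hx2, hx3⟩ := hx
  have hy0 : 0 < |y0.1| := abs_pos.2 hy1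
  have hden : 0 < 2 * (2 + |y0.1|) := by positivity
  obtain ⟨δ, hδ0, hδ1, hδ2, hδ3, hδ4⟩ : ∃ δ : ℝ, 0 < δ ∧ δ ≤ 1 ∧ δ ≤ |y0.1| / 2 ∧
      δ * (2 + |y0.1|) ≤ c / 2 ∧ δ * (2 + |y0.1|) ≤ c ^ 2 / 2 := by
    refine ⟨min (min 1 (|y0.1| / 2)) (min (c / (2 * (2 + |y0.1|))) (c ^ 2 / (2 * (2 + |y0.1|)))),
      by positivity, (min_le_left _ _).trans (min_le_left _ _),
      (min_le_left _ _).trans (min_le_right _ _), ?_, ?_⟩
    · have h := (min_le_right (min 1 (|y0.1| / 2))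
        (min (c / (2 * (2 + |y0.1|))) (c ^ 2 / (2 * (2 + |y0.1|))))).trans (min_le_left _ _)
      rw [le_div_iff₀ hden] at h
      linarith
    · have h := (min_le_right (min 1 (|y0.1| / 2))
        (min (c / (2 * (2 + |y0.1|))) (c ^ 2 / (2 * (2 + |y0.1|))))).trans (min_le_right _ _)
      rw [le_div_iff₀ hden] at h
      linarith
  refine ⟨δ, 256 / (c * |y0.1|), hδ0, by positivity, ?_⟩
  intro ρ hρ hρδ κ g d hκ hg hd
  -- measurability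
  have mN := vol_Nx_meas ρ
  have hR : MeasurableSet {q : V × V | Nb δ ρ x0 y0 q ∧ |Nx ρ q| ≤ 2 * κ ∧ |q.1.2.2| ≤ g ∧
      |q.2.2.2| ≤ d} := by
    refine MeasurableSet.inter (s₁ := {q : V × V | Nb δ ρ x0 y0 q}) ?_ (MeasurableSet.inter
      (s₁ := {q : V × V | |Nx ρ q| ≤ 2 * κ}) (s₂ := {q : V × V | |q.1.2.2| ≤ g ∧ |q.2.2.2| ≤ d})
      (measurableSet_le mN.abs measurable_const) ?_)
    · have e : {q : V × V | Nb δ ρ x0 y0 q} = {q : V × V | |q.1.1 / ρ - y0.1| ≤ δ} ∩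
          ({q : V × V | |q.2.1 / ρ - y0.2| ≤ δ} ∩ ({q : V × V | |q.1.2.1 - x0.1| ≤ δ} ∩
          ({q : V × V | |q.2.2.1 - x0.2| ≤ δ} ∩ ({q : V × V | |q.1.2.2| ≤ δ} ∩
          {q : V × V | |q.2.2.2| ≤ δ})))) := rfl
      rw [e]
      refine (measurableSet_le (by fun_prop) measurable_const).inter
        ((measurableSet_le (by fun_prop) measurable_const).inter
        ((measurableSet_le (by fun_prop) measurable_const).inter
        ((measurableSet_le (by fun_prop) measurable_const).inter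
        ((measurableSet_le (by fun_prop) measurable_const).inter
        (measurableSet_le (by fun_prop) measurable_const)))))
    · have m1 : Measurable fun q : V × V => |q.1.2.2| := by fun_prop
      have m2 : Measurable fun q : V × V => |q.2.2.2| := by fun_prop
      exact MeasurableSet.inter (s₁ := {q : V × V | |q.1.2.2| ≤ g})
        (s₂ := {q : V × V | |q.2.2.2| ≤ d}) (measurableSet_le m1 measurable_const)
        (measurableSet_le m2 measurable_const)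
  have hk : 0 ≤ 8 * κ / (c * |y0.1|) := by positivity
  have key : ∀ y t : ℝ, |y / ρ - t| ≤ δ → ρ * (t - 1) ≤ y ∧ y ≤ ρ * (t + 1) := by
    intro y t ht
    rw [abs_le] at ht
    have e : y = ρ * (y / ρ) := by field_simp
    constructor
    · rw [e]; exact mul_le_mul_of_nonneg_left (by linarith [ht.1]) hρ.le
    · rw [e]; exact mul_le_mul_of_nonneg_left (by linarith [ht.2]) hρ.le
  have h := N1E.vol_slice (I1 := Icc (ρ * (y0.1 - 1)) (ρ * (y0.1 + 1))) (I3 := Icc (-g) g)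
    (J1 := Icc (ρ * (y0.2 - 1)) (ρ * (y0.2 + 1))) (J2 := Icc (x0.2 - 1) (x0.2 + 1))
    (J3 := Icc (-d) d) hk _ hR ?_ ?_
  · refine h.trans ?_
    simp only [Real.volume_Icc]
    rw [← ENNReal.ofReal_mul hk, ← ENNReal.ofReal_mul (by
        refine mul_nonneg hk (by linarith)), ← ENNReal.ofReal_mul (by linarith),
      ← ENNReal.ofReal_mul (by nlinarith), ← ENNReal.ofReal_mul (by
        refine mul_nonneg (mul_nonneg hk (by linarith)) (by nlinarith))]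
    apply ENNReal.ofReal_le_ofReal
    apply le_of_eq
    field_simp
    ring
  · rintro ⟨⟨y1, a, z1⟩, ⟨y2, b, z2⟩⟩ ⟨⟨h1, h2, h3, h4, h5, h6⟩, h7, h8, h9⟩
    simp only at h1 h2 h3 h4 h5 h6 h8 h9
    rw [abs_le] at h4 h8 h9
    exact ⟨key y1 _ h1, ⟨h8.1, h8.2⟩, key y2 _ h2, ⟨by linarith [h4.1], by linarith [h4.2]⟩,
      ⟨h9.1, h9.2⟩⟩
  · rintro y1 a a' z1 ⟨y2, b, z2⟩ ⟨⟨h1, h2, h3, h4, h5, h6⟩, h7, h8, h9⟩
      ⟨⟨-, -, h3', -, -, -⟩, h7', -, -⟩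
    simp only at h1 h2 h3 h4 h5 h6 h8 h9 h3'
    have hyρ : |y1| ≤ δ * (|y0.1| + 1) := by
      have e : y1 = ρ * (y1 / ρ) := by field_simp
      have e1 : |y1 / ρ| ≤ |y0.1| + 1 := by
        have := abs_sub_abs_le_abs_sub (y1 / ρ) y0.1
        linarith
      rw [e, abs_mul, abs_of_pos hρ]
      exact mul_le_mul hρδ.le e1 (abs_nonneg _) hδ0.le
    have hylow : |y0.1| / 2 ≤ |y1 / ρ| := by
      have := abs_sub_abs_le_abs_sub y0.1 (y1 / ρ)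
      rw [abs_sub_comm] at this
      linarith
    have hxu : x0.1 ≤ 1 - c ^ 2 / 2 := by nlinarith [sq_nonneg (x0.1 - 1), sq_nonneg (x0.1 + 1)]
    have rng : ∀ t : ℝ, |t - x0.1| ≤ δ → c / 2 ≤ t ∧ t ≤ 1 ∧ c / 2 ≤ t - y1 ∧ t - y1 ≤ 1 := by
      intro t ht
      rw [abs_le] at ht
      have hy := abs_le.1 hyρ
      refine ⟨?_, ?_, ?_, ?_⟩ <;> nlinarith [ht.1, ht.2, hy.1, hy.2, abs_nonneg y0.1]
    obtain ⟨r1, r2, r3, r4⟩ := rng a h3
    obtain ⟨r1', r2', r3', r4'⟩ := rng a' h3'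
    have hlow := vol_om hc hρ r1 r2 r1' r2' r3 r4 r3' r4'
    have hN : |om ρ (y1 / ρ) a - om ρ (y1 / ρ) a'| ≤ 4 * κ := by
      simp only [Nx, Nf] at h7 h7'
      have e : om ρ (y1 / ρ) a - om ρ (y1 / ρ) a' = (om ρ (y1 / ρ) a - sg ρ (y2 / ρ) b) -
        (om ρ (y1 / ρ) a' - sg ρ (y2 / ρ) b) := by ring
      rw [e]
      exact (abs_sub _ _).trans (by linarith)
    rw [le_div_iff₀ (by positivity)]
    have h10 : c * (|y0.1| / 2) * |a - a'| ≤ 4 * κ := by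
      refine le_trans ?_ (hlow.trans hN)
      exact mul_le_mul_of_nonneg_right (mul_le_mul_of_nonneg_left hylow hc.le) (abs_nonneg _)
    nlinarith

end Pool.Agent.N1
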