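import Pool.Agent.N1.GN

/-!
N1, block G: Proposition N, proof.
-/

namespace Pool.Agent.N1

open MeasureTheory Set Metric Pool.Agent.MP_6cbfb8_an Pool.Agent.MST
open scoped ENNReal Real ContDiff Topology

/-- Good points in case (N). -/
def okN (c : ℝ) (x : (ℝ × ℝ) × V × V) : Prop :=
  x.2.1.1 ≠ 0 ∧ 0 < x.2.1.2.1 ∧ x.2.1.2.2 ≠ 0 ∧ x.2.2.1 ≠ 0 ∧ 0 < x.2.2.2.1 ∧ x.2.2.2.2 ≠ 0 ∧
    c ^ 2 / 8 < 1 - x.2.1.2.1 ^ 2 - x.2.2.2.1 ^ 2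

lemma okN_ev (c : ℝ) (x : (ℝ × ℝ) × V × V) (h : okN c x) : ∀ᶠ y in 𝓝 x, okN c y := by
  obtain ⟨h1, h2, h3, h4, h5, h6, h7⟩ := h
  have e1 : ∀ᶠ y : (ℝ × ℝ) × V × V in 𝓝 x, y.2.1.1 ≠ 0 :=
    (by fun_prop : ContinuousAt (fun y : (ℝ × ℝ) × V × V => y.2.1.1) x).eventually_ne h1
  have e2 : ∀ᶠ y : (ℝ × ℝ) × V × V in 𝓝 x, 0 < y.2.1.2.1 :=
    (by fun_prop : ContinuousAt (fun y : (ℝ × ℝ) × V × V => y.2.1.2.1) x).eventually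
      (lt_mem_nhds h2)
  have e3 : ∀ᶠ y : (ℝ × ℝ) × V × V in 𝓝 x, y.2.1.2.2 ≠ 0 :=
    (by fun_prop : ContinuousAt (fun y : (ℝ × ℝ) × V × V => y.2.1.2.2) x).eventually_ne h3
  have e4 : ∀ᶠ y : (ℝ × ℝ) × V × V in 𝓝 x, y.2.2.1 ≠ 0 :=
    (by fun_prop : ContinuousAt (fun y : (ℝ × ℝ) × V × V => y.2.2.1) x).eventually_ne h4
  have e5 : ∀ᶠ y : (ℝ × ℝ) × V × V in 𝓝 x, 0 < y.2.2.2.1 :=
    (by fun_prop : ContinuousAt (fun y : (ℝ × ℝ) × V × V => y.2.2.2.1) x).eventually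
      (lt_mem_nhds h5)
  have e6 : ∀ᶠ y : (ℝ × ℝ) × V × V in 𝓝 x, y.2.2.2.2 ≠ 0 :=
    (by fun_prop : ContinuousAt (fun y : (ℝ × ℝ) × V × V => y.2.2.2.2) x).eventually_ne h6
  have e7 : ∀ᶠ y : (ℝ × ℝ) × V × V in 𝓝 x, c ^ 2 / 8 < 1 - y.2.1.2.1 ^ 2 - y.2.2.2.1 ^ 2 :=
    (by fun_prop : ContinuousAt (fun y : (ℝ × ℝ) × V × V =>
      1 - y.2.1.2.1 ^ 2 - y.2.2.2.1 ^ 2) x).eventually (lt_mem_nhds h7)
  filter_upwards [e1, e2, e3, e4, e5, e6, e7] with y d1 d2 d3 d4 d5 d6 d7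
  exact ⟨d1, d2, d3, d4, d5, d6, d7⟩

lemma qfx_smooth (c : ℝ) (hc : 0 < c) :
    ContDiff ℝ ∞ fun x : (ℝ × ℝ) × V × V => qf c x.2.1.2.1 x.2.2.2.1 :=
  qf_comp c hc (f := fun x : (ℝ × ℝ) × V × V => x.2.1.2.1)
    (g := fun x : (ℝ × ℝ) × V × V => x.2.2.2.1) (by fun_prop) (by fun_prop)

lemma EN_smooth (c : ℝ) (hc : 0 < c) (x : (ℝ × ℝ) × V × V) (h : okN c x) :
    ContDiffAt ℝ ∞ (EN c) x := by
  unfold EN
  refine ContDiffAt.div (by fun_prop) ((qfx_smooth c hc).contDiffAt.pow 3) ?_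
  exact (pow_pos (qf_pos c hc _ _ h.2.2.2.2.2.2.le) 3).ne'

lemma EN_ne (c : ℝ) (hc : 0 < c) (x : (ℝ × ℝ) × V × V) (h : okN c x) : EN c x ≠ 0 := by
  unfold EN
  obtain ⟨h1, h2, h3, h4, h5, h6, h7⟩ := h
  exact div_ne_zero (neg_ne_zero.2 (mul_ne_zero (mul_ne_zero h1 h4) (mul_ne_zero h3 h6)))
    (pow_pos (qf_pos c hc _ _ h7.le) 3).ne'

theorem propN (c : ℝ) (hc : 0 < c) (x0 y0 z0 : ℝ × ℝ) (hx : x0 ∈ Kc c) (hy1 : y0.1 ≠ 0)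
    (hy2 : y0.2 ≠ 0) (hz1 : z0.1 ≠ 0) (hz2 : z0.2 ≠ 0) :
    ∃ δ : ℝ, 0 < δ ∧ ∃ C : ℝ, 0 ≤ C ∧ ∀ T ρ γ : ℝ, 0 < T → 0 < ρ → ρ < δ → 0 < γ → γ < δ →
      ∀ A B : V → ℂ, Measurable A → Measurable B → (∀ a, ‖A a‖ ≤ 1) → (∀ b, ‖B b‖ ≤ 1) →
      (∀ u, A u ≠ 0 → |u.1 / ρ - y0.1| ≤ δ ∧ |u.2.1 - x0.1| ≤ δ ∧ |u.2.2 / γ - z0.1| ≤ δ) →
      (∀ v, B v ≠ 0 → |v.1 / ρ - y0.2| ≤ δ ∧ |v.2.1 - x0.2| ≤ δ ∧ |v.2.2 / γ - z0.2| ≤ δ) →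
      ‖FF c T (tp A B)‖ ≤ C / T := by
  obtain ⟨G, k, hG, hk, key, -⟩ := Gfun c hc
  set a0 : V := (y0.1, x0.1, z0.1) with ha0
  set b0 : V := (y0.2, x0.2, z0.2) with hb0
  set p0 : ℝ × ℝ := (0, 0) with hp0
  have hc8 : 0 < c ^ 2 / 8 := by positivity
  have hok : okN c (p0, a0, b0) := by
    obtain ⟨k1, k2, k3⟩ := hx
    refine ⟨hy1, lt_of_lt_of_le hc k1, hz1, hy2, lt_of_lt_of_le hc k2, hz2, ?_⟩
    show c ^ 2 / 8 < 1 - x0.1 ^ 2 - x0.2 ^ 2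
    nlinarith
  -- the factor E near the base point
  have hE0 : 0 < |EN c (p0, a0, b0)| := abs_pos.2 (EN_ne c hc _ hok)
  set e := |EN c (p0, a0, b0)| with he
  have hEc : ContinuousAt (fun x => |EN c x|) (p0, a0, b0) :=
    (EN_smooth c hc _ hok).continuousAt.abs
  have ev : ∀ᶠ x in 𝓝 (p0, a0, b0), okN c x ∧ e / 2 ≤ |EN c x| ∧ |EN c x| ≤ 2 * e := by
    filter_upwards [okN_ev c _ hok, hEc.eventually (lt_mem_nhds (show e / 2 < e by linarith)),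
      hEc.eventually (gt_mem_nhds (show e < 2 * e by linarith))] with x d1 d2 d3
    exact ⟨d1, d2.le, d3.le⟩
  obtain ⟨r, hr, hball⟩ := g_ball ev
  -- apply RC
  have hF : ContDiffOn ℝ ∞ (fun x => G (ptN x) / EN c x) (ball (p0, a0, b0) r) := by
    intro x hx
    have h1 := (hball x hx).1
    exact ((hG.comp ptN_smooth).contDiffAt.div (EN_smooth c hc x h1)
      (EN_ne c hc x h1)).contDiffWithinAt
  have hcc : ContDiffOn ℝ ∞ (amN c (EN c)) (univ ×ˢ ball (p0, a0, b0) r) :=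
    amN_smooth c hc _ _ (fun x hx => (EN_smooth c hc x (hball x hx).1).contDiffWithinAt)
      (fun x hx => EN_ne c hc x (hball x hx).1)
  have hcs : ∀ s, ∀ q ∈ ball (p0, a0, b0) r, amN c (EN c) (s, q) ≠ 0 →
      e / 2 / 2 ≤ |s| ∧ |s| ≤ 3 * (2 * e) := fun s q hq h =>
    amN_supp c (EN c) (e / 2) (2 * e) s q (by linarith) (hball q hq).2.1 (hball q hq).2.2 h
  have hsep : ∀ᶠ q in 𝓝 (a0, b0), (fun q : V × V => G (ptN (p0, q.1, q.2)) /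
      EN c (p0, q.1, q.2)) q = nX0 q.1 + nX0 q.2 + nX1 q.1 * nX2 q.2 + nX2 q.1 * nX1 q.2 := by
    have h2 : Filter.Tendsto (fun q : V × V => (p0, q.1, q.2)) (𝓝 (a0, b0)) (𝓝 (p0, a0, b0)) :=
      (by fun_prop : Continuous fun q : V × V => (p0, q.1, q.2)).tendsto (a0, b0)
    filter_upwards [h2.eventually (okN_ev c _ hok)] with q hq
    obtain ⟨g1, g2, g3, g4, g5, g6, g7⟩ := hq
    simp only at g1 g2 g3 g4 g5 g6 g7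
    have h3 : ptN (p0, q.1, q.2) = (0, (0, q.1, q.2)) := by
      unfold ptN
      simp [hp0]
    show G (ptN (p0, q.1, q.2)) / EN c (p0, q.1, q.2) = _
    rw [h3, G_zero c hc G hG key 0 q.1 q.2 ⟨g2, by simpa using g2, g5, by simpa using g5, g7,
      by simpa using g7⟩]
    exact G0_N c hc q.1 q.2 g1 g2 g3 g4 g5 g6 g7
  have n0 := nX0_diff a0 hy1 hz1
  have n1 := nX1_diff a0 hz1
  have n2 := nX2_diff a0 hy1
  have m0 := nX0_diff b0 hy2 hz2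
  have m1 := nX1_diff b0 hz2
  have m2 := nX2_diff b0 hy2
  have hnd : ∀ (u : V) (d : ℝ), fderiv ℝ (fun a => G (ptN (p0, a, b0)) / EN c (p0, a, b0)) a0 u = 0 →
      (∀ e : V, fderiv ℝ (fun b => fderiv ℝ (fun a => G (ptN (p0, a, b)) / EN c (p0, a, b)) a0 u)
        b0 e + d * fderiv ℝ (fun b => G (ptN (p0, a0, b)) / EN c (p0, a0, b)) b0 e = 0) →
        u = 0 ∧ d = 0 := by
    intro u d h1 h2
    refine nd_N a0 b0 u d hy1 (lt_of_lt_of_le hc hx.1).ne' hz1 hy2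
      (lt_of_lt_of_le hc hx.2.1).ne' hz2 ?_ ?_
    · rw [← sep_1 _ nX0 nX1 nX2 nX0 nX2 nX1 a0 b0 hsep n0 n1 n2 u]
      exact h1
    · intro e'
      rw [← sep_2 _ nX0 nX1 nX2 nX0 nX2 nX1 a0 b0 hsep n0 n1 n2 m0 m2 m1 u e',
        ← sep_3 _ nX0 nX1 nX2 nX0 nX2 nX1 a0 b0 hsep n0 n1 n2 m0 m2 m1 e']
      exact h2 e'
  obtain ⟨δ, hδ, C, hC, hRC⟩ := RC (fun x => G (ptN x) / EN c x) (amN c (EN c)) p0 a0 b0 r
    (e / 2 / 2) (3 * (2 * e)) hr (by positivity) hF hcc hcs hnd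
  set δ' := min δ r / 2 with hδ'
  have hδp : 0 < min δ r := lt_min hδ hr
  have hδ1 : δ' < δ := by
    have := min_le_left δ r
    rw [hδ']; linarith
  have hδ2 : δ' < r := by
    have := min_le_right δ r
    rw [hδ']; linarith
  refine ⟨δ', by positivity, C, hC, ?_⟩
  intro T ρ γ hT hρ hρδ hγ hγδ A B hA hB hA1 hB1 hAs hBs
  have hball' : ∀ (u : V) (x y z : ℝ), |u.1 - x| ≤ δ' ∧ |u.2.1 - y| ≤ δ' ∧ |u.2.2 - z| ≤ δ' →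
      ∀ R, δ' < R → u ∈ ball ((x, y, z) : V) R := by
    intro u x y z h R hR
    rw [mem_ball, Prod.dist_eq, Prod.dist_eq, Real.dist_eq, Real.dist_eq, Real.dist_eq]
    exact max_lt (lt_of_le_of_lt h.1 hR) (max_lt (lt_of_le_of_lt h.2.1 hR)
      (lt_of_le_of_lt h.2.2 hR))
  have hAs' : ∀ u, A (Sc ρ γ u) ≠ 0 →
      |u.1 - y0.1| ≤ δ' ∧ |u.2.1 - x0.1| ≤ δ' ∧ |u.2.2 - z0.1| ≤ δ' := by
    intro u hu
    have h := hAs _ hu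
    unfold Sc at h
    simp only at h
    rwa [mul_div_cancel_left₀ _ hρ.ne', mul_div_cancel_left₀ _ hγ.ne'] at h
  have hBs' : ∀ u, B (Sc ρ γ u) ≠ 0 →
      |u.1 - y0.2| ≤ δ' ∧ |u.2.1 - x0.2| ≤ δ' ∧ |u.2.2 - z0.2| ≤ δ' := by
    intro u hu
    have h := hBs _ hu
    unfold Sc at h
    simp only at h
    rwa [mul_div_cancel_left₀ _ hρ.ne', mul_div_cancel_left₀ _ hγ.ne'] at h
  have hpR : ∀ R, δ' < R → ((ρ, γ) : ℝ × ℝ) ∈ ball p0 R := by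
    intro R hR
    rw [mem_ball, Prod.dist_eq, Real.dist_eq, Real.dist_eq]
    simp only [hp0, sub_zero, abs_of_pos hρ, abs_of_pos hγ]
    exact max_lt (hρδ.trans hR) (hγδ.trans hR)
  have hmain := hRC (ρ, γ) (hpR δ hδ1) (T * (ρ * γ)) (by positivity)
    (fun u => A (Sc ρ γ u)) (fun u => B (Sc ρ γ u)) (hA.comp (Sc_cont ρ γ).measurable)
    (hB.comp (Sc_cont ρ γ).measurable) (fun a => hA1 _) (fun b => hB1 _)
    (fun a ha => hball' a _ _ _ (hAs' a ha) δ hδ1) (fun b hb => hball' b _ _ _ (hBs' b hb) δ hδ1)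
  have hid : FF c T (tp A B) = ((((ρ * γ) * (ρ * γ) : ℝ) : ℂ) * (T : ℂ)) *
      ∫ q : V × V, A (Sc ρ γ q.1) * B (Sc ρ γ q.2) * ∫ s : ℝ,
        ((amN c (EN c) (s, (ρ, γ), q.1, q.2) : ℝ) : ℂ) *
        ex (T * (ρ * γ) * (s * (G (ptN ((ρ, γ), q.1, q.2)) / EN c ((ρ, γ), q.1, q.2)))) := by
    unfold FF
    rw [integral_scale _ ρ γ γ hρ hγ hγ, mul_assoc ((((ρ * γ) * (ρ * γ) : ℝ) : ℂ)) (T : ℂ),
      ← integral_const_mul (T : ℂ)]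
    congr 1
    refine integral_congr_ae (Filter.Eventually.of_forall fun q => ?_)
    simp only [tp]
    by_cases hq : A (Sc ρ γ q.1) = 0
    · rw [hq]; simp
    by_cases hq' : B (Sc ρ γ q.2) = 0
    · rw [hq']; simp
    have hin : (((ρ, γ), q.1, q.2) : (ℝ × ℝ) × V × V) ∈ ball (p0, a0, b0) r := by
      rw [mem_ball, Prod.dist_eq, Prod.dist_eq]
      exact max_lt (hpR r hδ2) (max_lt (hball' _ _ _ _ (hAs' _ hq) r hδ2)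
        (hball' _ _ _ _ (hBs' _ hq') r hδ2))
    have hEne := EN_ne c hc _ (hball _ hin).1
    rw [Fr_Sc c G key ρ γ q.1 q.2, Kt_scale T _ (EN c ((ρ, γ), q.1, q.2))
      (G (ptN ((ρ, γ), q.1, q.2)) / EN c ((ρ, γ), q.1, q.2)) hT hEne (ρ * γ)
      (by field_simp)]
    have h5 : ∀ s : ℝ, ((amN c (EN c) (s, (ρ, γ), q.1, q.2) : ℝ) : ℂ) *
        ex (T * (ρ * γ) * (s * (G (ptN ((ρ, γ), q.1, q.2)) / EN c ((ρ, γ), q.1, q.2)))) =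
        ((Wr c (Sc ρ γ q.1) (Sc ρ γ q.2) : ℝ) : ℂ) *
        (((chi (s / EN c ((ρ, γ), q.1, q.2)) / |EN c ((ρ, γ), q.1, q.2)| : ℝ) : ℂ) *
        ex (T * (ρ * γ) * (s * (G (ptN ((ρ, γ), q.1, q.2)) / EN c ((ρ, γ), q.1, q.2))))) := by
      intro s
      unfold amN
      simp only
      rw [Complex.ofReal_mul]
      ring
    simp only [h5]
    rw [integral_const_mul]
    ring
  rw [hid, norm_mul, norm_mul, Complex.norm_real, Complex.norm_real, Real.norm_eq_abs,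
    Real.norm_eq_abs, abs_of_pos hT, abs_of_pos (by positivity)]
  calc ρ * γ * (ρ * γ) * T * ‖_‖ ≤ ρ * γ * (ρ * γ) * T * (C / (T * (ρ * γ)) ^ 2) :=
        mul_le_mul_of_nonneg_left hmain (by positivity)
    _ = C / T := by
      field_simp

end Pool.Agent.N1
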