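import Pool.Agent.N1.GP

/-!
N1, block G: Proposition D, proof.
-/

namespace Pool.Agent.N1

open MeasureTheory Set Metric Pool.Agent.MP_6cbfb8_an Pool.Agent.MST
open scoped ENNReal Real ContDiff Topology

/-- The amplitude in scaled variables. -/
noncomputable def amD (c : ℝ) (Ef : P4 × V × V → ℝ) (x : ℝ × P4 × V × V) : ℝ :=
  Wr c (Sc x.2.1.1 x.2.1.2.1 x.2.2.1) (Sc x.2.1.1 (x.2.1.2.2.1 * x.2.1.2.1) x.2.2.2) *
    (chi (x.1 / Ef x.2) / |Ef x.2|)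

lemma amD_smooth (c : ℝ) (hc : 0 < c) (Ef : P4 × V × V → ℝ) (S : Set (P4 × V × V))
    (hE : ContDiffOn ℝ ∞ Ef S) (hE0 : ∀ x ∈ S, Ef x ≠ 0) :
    ContDiffOn ℝ ∞ (amD c Ef) (univ ×ˢ S) := by
  have h1 : ContDiffOn ℝ ∞ (fun x : ℝ × P4 × V × V => Ef x.2) (univ ×ˢ S) :=
    hE.comp contDiff_snd.contDiffOn (fun x hx => hx.2)
  have h2 : ContDiff ℝ ∞ (fun x : ℝ × P4 × V × V =>
      Wr c (Sc x.2.1.1 x.2.1.2.1 x.2.2.1) (Sc x.2.1.1 (x.2.1.2.2.1 * x.2.1.2.1) x.2.2.2)) := by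
    have h3 := (Wr_smooth c hc).comp (f := fun x : ℝ × P4 × V × V =>
      (((x.2.1.1 * x.2.2.1.1, x.2.2.1.2.1, x.2.1.2.1 * x.2.2.1.2.2) : V),
        ((x.2.1.1 * x.2.2.2.1, x.2.2.2.2.1, x.2.1.2.2.1 * x.2.1.2.1 * x.2.2.2.2.2) : V)))
        (by fun_prop)
    exact h3
  have h4 : ContDiffOn ℝ ∞ (fun x : ℝ × P4 × V × V => chi (x.1 / Ef x.2)) (univ ×ˢ S) :=
    chi_smooth.comp_contDiffOn (contDiff_fst.contDiffOn.div h1 (fun x hx => hE0 _ hx.2))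
  have h5 : ContDiffOn ℝ ∞ (fun x : ℝ × P4 × V × V => |Ef x.2|) (univ ×ˢ S) := by
    intro x hx
    exact (contDiffAt_abs (hE0 _ hx.2)).comp_contDiffWithinAt x (h1 x hx)
  exact h2.contDiffOn.mul (h4.div h5 (fun x hx => abs_ne_zero.2 (hE0 _ hx.2)))

lemma amD_supp (c : ℝ) (Ef : P4 × V × V → ℝ) (e0 e1 s : ℝ) (q : P4 × V × V)
    (he0 : 0 < e0) (h0 : e0 ≤ |Ef q|) (h1 : |Ef q| ≤ e1) (h : amD c Ef (s, q) ≠ 0) :
    e0 / 2 ≤ |s| ∧ |s| ≤ 3 * e1 := by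
  have hchi : chi (s / Ef q) ≠ 0 := by
    intro h2
    apply h
    unfold amD
    simp only
    rw [h2, zero_div, mul_zero]
  obtain ⟨g1, g2⟩ := chi_zero _ hchi
  have hE : 0 < |Ef q| := lt_of_lt_of_le he0 h0
  have h3 : |s| = |s / Ef q| * |Ef q| := by
    rw [abs_div]
    field_simp
  have h4 : |s / Ef q| = s / Ef q := abs_of_nonneg (by linarith)
  rw [h4] at h3
  rw [h3]
  constructor
  · nlinarith
  · nlinarith

lemma wD_ev (c : ℝ) (x : P4 × V) (h2 : 0 < (aD x.1 x.2).2.1 - x.1.1 * (aD x.1 x.2).1) :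
    ∀ᶠ y in 𝓝 x, 0 < (aD y.1 y.2).2.1 - y.1.1 * (aD y.1 y.2).1 := by
  unfold aD at *
  simp only at *
  exact (by fun_prop : ContinuousAt (fun y : P4 × V => y.2.2.1 - y.1.2.1 * y.2.2.2 / 2 -
      y.1.1 * y.2.1) x).eventually (lt_mem_nhds h2)

lemma sD_ev (x : P4 × V) (h2 : 0 < 1 - ((bD x.1 x.2).2.1 - x.1.1 * (bD x.1 x.2).1) ^ 2) :
    ∀ᶠ y in 𝓝 x, 0 < 1 - ((bD y.1 y.2).2.1 - y.1.1 * (bD y.1 y.2).1) ^ 2 := by
  unfold bD at *
  simp only at *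
  exact (by fun_prop : ContinuousAt (fun y : P4 × V => 1 - (y.2.2.1 -
    y.1.2.1 * (y.1.2.2.1 * y.2.2.2) / 2 - y.1.1 * y.2.1) ^ 2) x).eventually (lt_mem_nhds h2)

lemma wD_smooth (x : P4 × V) (h2 : 0 < (aD x.1 x.2).2.1 - x.1.1 * (aD x.1 x.2).1) :
    ContDiffAt ℝ ∞ wD x := by
  exact om_smooth (f1 := fun x : P4 × V => x.1.1) (f2 := fun x : P4 × V => (aD x.1 x.2).1)
    (f3 := fun x : P4 × V => (aD x.1 x.2).2.1) (by fun_prop) (by unfold aD; fun_prop)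
    (by unfold aD; fun_prop) x h2

lemma sD_smooth (x : P4 × V) (h2 : 0 < 1 - ((bD x.1 x.2).2.1 - x.1.1 * (bD x.1 x.2).1) ^ 2) :
    ContDiffAt ℝ ∞ sD x := by
  exact sg_smooth (f1 := fun x : P4 × V => x.1.1) (f2 := fun x : P4 × V => (bD x.1 x.2).1)
    (f3 := fun x : P4 × V => (bD x.1 x.2).2.1) (by fun_prop) (by unfold bD; fun_prop)
    (by unfold bD; fun_prop) x h2

theorem propD (c : ℝ) (hc : 0 < c) (x0 y0 z0 : ℝ × ℝ) (hx : x0 ∈ Kc c) (hy1 : y0.1 ≠ 0)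
    (hy2 : y0.2 ≠ 0) (_hN : Nf 0 y0 x0 = 0) (hz1 : z0.1 ≠ 0) (hz2 : z0.2 ≠ 0) (C5 : ℝ) :
    ∃ δ : ℝ, 0 < δ ∧ ∃ C : ℝ, 0 ≤ C ∧ ∀ T ρ γ κ : ℝ, 0 < T → 0 < ρ → ρ < δ → 0 < γ → γ < δ →
      0 < κ → κ < δ → γ ≤ C5 * κ →
      ∀ A B : V → ℂ, Measurable A → Measurable B → (∀ a, ‖A a‖ ≤ 1) → (∀ b, ‖B b‖ ≤ 1) →
      (∀ u, A u ≠ 0 → |u.1 / ρ - y0.1| ≤ δ ∧ |u.2.1 - x0.1| ≤ δ ∧ |u.2.2 / γ - z0.1| ≤ δ) →
      (∀ v, B v ≠ 0 → |v.1 / ρ - y0.2| ≤ δ ∧ |v.2.1 - x0.2| ≤ δ ∧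
        |v.2.2 / (κ * γ) - z0.2| ≤ δ) →
      ‖FF c T (tp A B)‖ ≤ C / T := by
  obtain ⟨G, k, hG, hk, key, hGk⟩ := Gfun c hc
  set a0 : V := (y0.1, x0.1, z0.1) with ha0
  set b0 : V := (y0.2, x0.2, z0.2) with hb0
  set p0 : P4 := (0, 0, 0, 0) with hp0
  have hc8 : 0 < c ^ 2 / 8 := by positivity
  have hx1 : 0 < x0.1 := lt_of_lt_of_le hc hx.1
  have hx2 : 0 < x0.2 := lt_of_lt_of_le hc hx.2.1
  have hx3 : c ^ 2 / 8 < 1 - x0.1 ^ 2 - x0.2 ^ 2 := by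
    obtain ⟨k1, k2, k3⟩ := hx
    nlinarith
  have hb1 : 0 < 1 - x0.2 ^ 2 := by nlinarith [sq_nonneg x0.1]
  have hok : okD c (p0, a0, b0) := by
    refine ⟨⟨?_, ?_, ?_, ?_, ?_, ?_⟩, hz1⟩ <;> simp only [aD, bD, hp0, ha0, hb0, zero_mul,
      sub_zero, zero_div, mul_zero]
    · exact hx1
    · exact hx1
    · exact hx2
    · exact hx2
    · exact hx3
    · exact hx3
  -- the factor E near the base point
  have hE0 : 0 < |ED c (p0, a0, b0)| := abs_pos.2 (ED_smooth c hc _ hok).2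
  set e := |ED c (p0, a0, b0)| with he
  have hEc : ContinuousAt (fun x => |ED c x|) (p0, a0, b0) :=
    (ED_smooth c hc _ hok).1.continuousAt.abs
  have ev : ∀ᶠ x in 𝓝 (p0, a0, b0), okD c x ∧ e / 2 ≤ |ED c x| ∧ |ED c x| ≤ 2 * e := by
    filter_upwards [okD_ev c _ hok, hEc.eventually (lt_mem_nhds (show e / 2 < e by linarith)),
      hEc.eventually (gt_mem_nhds (show e < 2 * e by linarith))] with x d1 d2 d3
    exact ⟨d1, d2.le, d3.le⟩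
  obtain ⟨r1, hr1, hball1⟩ := g_ball ev
  have hw0 : 0 < (aD p0 a0).2.1 - p0.1 * (aD p0 a0).1 := by
    simp only [aD, hp0, ha0, zero_mul, sub_zero, zero_div]
    exact hx1
  have hs0 : 0 < 1 - ((bD p0 b0).2.1 - p0.1 * (bD p0 b0).1) ^ 2 := by
    simp only [bD, hp0, hb0, zero_mul, sub_zero, zero_div]
    exact hb1
  obtain ⟨r2, hr2, hball2⟩ := g_ball (wD_ev c (p0, a0) hw0)
  obtain ⟨r3, hr3, hball3⟩ := g_ball (sD_ev (p0, b0) hs0)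
  set r := min r1 (min r2 r3) with hrdef
  have hr : 0 < r := lt_min hr1 (lt_min hr2 hr3)
  have hball : ∀ y ∈ ball (p0, a0, b0) r, okD c y ∧ e / 2 ≤ |ED c y| ∧ |ED c y| ≤ 2 * e :=
    fun y hy => hball1 y (ball_subset_ball (min_le_left _ _) hy)
  -- apply HLk
  have hw : ContDiffOn ℝ ∞ wD (ball (p0, a0) r) := fun x hx =>
    (wD_smooth x (hball2 x (ball_subset_ball ((min_le_right _ _).trans (min_le_left _ _))
      hx))).contDiffWithinAt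
  have hs : ContDiffOn ℝ ∞ sD (ball (p0, b0) r) := fun x hx =>
    (sD_smooth x (hball3 x (ball_subset_ball ((min_le_right _ _).trans (min_le_right _ _))
      hx))).contDiffWithinAt
  have hg : ContDiffOn ℝ ∞ (gD c k) (ball (p0, a0, b0) r) := fun x hx =>
    (gD_smooth c hc k hk x (hball x hx).1).contDiffWithinAt
  have hcc : ContDiffOn ℝ ∞ (amD c (ED c)) (univ ×ˢ ball (p0, a0, b0) r) :=
    amD_smooth c hc _ _ (fun x hx => (ED_smooth c hc x (hball x hx).1).1.contDiffWithinAt)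
      (fun x hx => (ED_smooth c hc x (hball x hx).1).2)
  have hcs : ∀ s, ∀ q ∈ ball (p0, a0, b0) r, amD c (ED c) (s, q) ≠ 0 →
      e / 2 / 2 ≤ |s| ∧ |s| ≤ 3 * (2 * e) := fun s q hq h =>
    amD_supp c (ED c) (e / 2) (2 * e) s q (by linarith) (hball q hq).2.1 (hball q hq).2.2 h
  have hweq : (fun a : V => wD (p0, a)) = fun a : V => om 0 a.1 a.2.1 := by
    funext a
    simp [wD, aD, hp0]
  have hseq : (fun b : V => sD (p0, b)) = fun b : V => sg 0 b.1 b.2.1 := by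
    funext b
    simp [sD, bD, hp0]
  have hb1' : 1 - b0.2.1 ^ 2 ≠ 0 := hb1.ne'
  have hsep : ∀ᶠ q in 𝓝 (a0, b0), (fun q : V × V => gD c k (p0, q.1, q.2)) q =
      (fun _ : V => (0:ℝ)) q.1 + (fun _ : V => (0:ℝ)) q.2 + dX1 q.1 * dY1 q.2 +
        dX2 q.1 * dY2 q.2 := by
    have h2 : Filter.Tendsto (fun q : V × V => (p0, q.1, q.2)) (𝓝 (a0, b0)) (𝓝 (p0, a0, b0)) :=
      (by fun_prop : Continuous fun q : V × V => (p0, q.1, q.2)).tendsto (a0, b0)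
    filter_upwards [h2.eventually (okD_ev c _ hok)] with q hq
    obtain ⟨⟨g1, g2, g3, g4, g5, g6⟩, g7⟩ := hq
    simp only [aD, bD, hp0, zero_mul, sub_zero, zero_div] at g1 g3 g5 g7
    exact gD_zero c hc k q.1 q.2 g1 g7 g3 g5
  have n0 : DifferentiableAt ℝ (fun _ : V => (0:ℝ)) a0 := differentiableAt_const _
  have m0 : DifferentiableAt ℝ (fun _ : V => (0:ℝ)) b0 := differentiableAt_const _
  have n1 := dX1_diff a0 hx1.ne' hz1
  have n2 := dX2_diff a0 hz1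
  have m1 := dY1_diff b0 hb1'
  have m2 := dY2_diff b0 hb1'
  have hnd : ∀ u : V, fderiv ℝ (fun a => wD (p0, a)) a0 u = 0 →
      (∀ e : V, fderiv ℝ (fun b => sD (p0, b)) b0 e = 0 →
        fderiv ℝ (fun b => fderiv ℝ (fun a => gD c k (p0, a, b)) a0 u) b0 e = 0) → u = 0 := by
    intro u h1 h2
    rw [hweq] at h1
    refine nd_D a0 b0 u hy1 hx1.ne' hz1 hy2 hx2.ne' hz2 hb1' h1 ?_
    intro e' he'
    rw [← sep_2 _ (fun _ : V => (0:ℝ)) dX1 dX2 (fun _ : V => (0:ℝ)) dY1 dY2 a0 b0 hsep n0 n1 n2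
      m0 m1 m2 u e']
    refine h2 e' ?_
    rw [hseq]
    exact he'
  have h1 : fderiv ℝ (fun a => wD (p0, a)) a0 (1, 0, 0) ≠ 0 := by
    rw [hweq, om0_fd a0 _ hx1.ne']
    simp only [mul_one, mul_zero, sub_zero]
    have := hx1.ne'
    exact div_ne_zero (mul_ne_zero two_ne_zero this) (pow_ne_zero 2 this)
  have h2 : fderiv ℝ (fun b => sD (p0, b)) b0 (1, 0, 0) ≠ 0 := by
    rw [hseq, sg0_fd b0 _ hb1']
    simp only [mul_one, mul_zero, add_zero]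
    have := hx2.ne'
    exact neg_ne_zero.2 (div_ne_zero (mul_ne_zero (mul_ne_zero two_ne_zero this) hb1')
      (pow_ne_zero 2 hb1'))
  obtain ⟨δ, hδ, C, hC, hRC⟩ := HLk wD sD (gD c k) (amD c (ED c)) p0 a0 b0 r
    (e / 2 / 2) (3 * (2 * e)) hr (by positivity) hw hs hg hcc hcs h1 h2 hnd
  set M := 1 + |C5| with hM
  have hM1 : 1 ≤ M := by rw [hM]; linarith [abs_nonneg C5]
  set δ' := min δ r / (2 * M) with hδ'
  have hδp : 0 < min δ r := lt_min hδ hr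
  have hδM : M * δ' = min δ r / 2 := by rw [hδ']; field_simp
  have hδ'p : 0 < δ' := by rw [hδ']; positivity
  have hδ1 : M * δ' < δ := by
    have := min_le_left δ r
    rw [hδM]; linarith
  have hδ2 : M * δ' < r := by
    have := min_le_right δ r
    rw [hδM]; linarith
  have hδle : δ' ≤ M * δ' := by nlinarith
  refine ⟨δ', hδ'p, C, hC, ?_⟩
  intro T ρ γ κ hT hρ hρδ hγ hγδ hκ hκδ hγκ A B hA hB hA1 hB1 hAs hBs
  have hball' : ∀ (u : V) (x y z : ℝ), |u.1 - x| ≤ δ' ∧ |u.2.1 - y| ≤ δ' ∧ |u.2.2 - z| ≤ δ' →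
      ∀ R, M * δ' < R → u ∈ ball ((x, y, z) : V) R := by
    intro u x y z h R hR
    rw [mem_ball, Prod.dist_eq, Prod.dist_eq, Real.dist_eq, Real.dist_eq, Real.dist_eq]
    exact max_lt (lt_of_le_of_lt (h.1.trans hδle) hR) (max_lt (lt_of_le_of_lt
      (h.2.1.trans hδle) hR) (lt_of_le_of_lt (h.2.2.trans hδle) hR))
  have hAs' : ∀ u, A (Sc ρ γ u) ≠ 0 →
      |u.1 - y0.1| ≤ δ' ∧ |u.2.1 - x0.1| ≤ δ' ∧ |u.2.2 - z0.1| ≤ δ' := by
    intro u hu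
    have h := hAs _ hu
    unfold Sc at h
    simp only at h
    rwa [mul_div_cancel_left₀ _ hρ.ne', mul_div_cancel_left₀ _ hγ.ne'] at h
  have hBs' : ∀ u, B (Sc ρ (κ * γ) u) ≠ 0 →
      |u.1 - y0.2| ≤ δ' ∧ |u.2.1 - x0.2| ≤ δ' ∧ |u.2.2 - z0.2| ≤ δ' := by
    intro u hu
    have h := hBs _ hu
    unfold Sc at h
    simp only at h
    rwa [mul_div_cancel_left₀ _ hρ.ne', mul_div_cancel_left₀ _ (mul_pos hκ hγ).ne'] at h
  set ε := γ ^ 2 / κ with hε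
  have hε0 : 0 ≤ ε := by rw [hε]; positivity
  have hεle : ε ≤ M * δ' := by
    rw [hε, div_le_iff₀ hκ]
    have h3 : γ ≤ |C5| * κ := hγκ.trans (mul_le_mul_of_nonneg_right (le_abs_self _) hκ.le)
    calc γ ^ 2 = γ * γ := by ring
      _ ≤ (|C5| * κ) * δ' := mul_le_mul h3 hγδ.le hγ.le (by positivity)
      _ ≤ M * δ' * κ := by
        rw [hM]
        nlinarith [mul_pos hδ'p hκ]
  have hpR : ∀ R, M * δ' < R → ((ρ, γ, κ, ε) : P4) ∈ ball p0 R := by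
    intro R hR
    rw [mem_ball, Prod.dist_eq, Prod.dist_eq, Prod.dist_eq, Real.dist_eq, Real.dist_eq,
      Real.dist_eq, Real.dist_eq]
    simp only [hp0, sub_zero, abs_of_pos hρ, abs_of_pos hγ, abs_of_pos hκ, abs_of_nonneg hε0]
    exact max_lt (lt_of_lt_of_le hρδ (hδle.trans hR.le)) (max_lt (lt_of_lt_of_le hγδ
      (hδle.trans hR.le)) (max_lt (lt_of_lt_of_le hκδ (hδle.trans hR.le))
      (lt_of_le_of_lt hεle hR)))
  have hmain := hRC (ρ, γ, κ, ε) (hpR δ hδ1) κ (T * (ρ * γ)) hκ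
    (lt_of_lt_of_le hκδ (hδle.trans hδ1.le)) (by positivity)
    (fun u => A (Sc ρ γ u)) (fun u => B (Sc ρ (κ * γ) u)) (hA.comp (Sc_cont ρ γ).measurable)
    (hB.comp (Sc_cont ρ (κ * γ)).measurable) (fun a => hA1 _) (fun b => hB1 _)
    (fun a ha => hball' a _ _ _ (hAs' a ha) δ hδ1) (fun b hb => hball' b _ _ _ (hBs' b hb) δ hδ1)
  have hid : FF c T (tp A B) = ((((ρ * γ) * (ρ * (κ * γ)) : ℝ) : ℂ) * (T : ℂ)) *
      ∫ q : V × V, A (Sc ρ γ q.1) * B (Sc ρ (κ * γ) q.2) * ∫ s : ℝ,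
        ((amD c (ED c) (s, (ρ, γ, κ, ε), q.1, q.2) : ℝ) : ℂ) *
        ex (T * (ρ * γ) * (s * (wD ((ρ, γ, κ, ε), q.1) - sD ((ρ, γ, κ, ε), q.2) +
          κ * gD c k ((ρ, γ, κ, ε), q.1, q.2)))) := by
    unfold FF
    rw [integral_scale _ ρ γ (κ * γ) hρ hγ (mul_pos hκ hγ),
      mul_assoc ((((ρ * γ) * (ρ * (κ * γ)) : ℝ) : ℂ)) (T : ℂ), ← integral_const_mul (T : ℂ)]
    congr 1
    refine integral_congr_ae (Filter.Eventually.of_forall fun q => ?_)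
    simp only [tp]
    by_cases hq : A (Sc ρ γ q.1) = 0
    · rw [hq]; simp
    by_cases hq' : B (Sc ρ (κ * γ) q.2) = 0
    · rw [hq']; simp
    have hin : (((ρ, γ, κ, ε), q.1, q.2) : P4 × V × V) ∈ ball (p0, a0, b0) r := by
      rw [mem_ball, Prod.dist_eq, Prod.dist_eq]
      exact max_lt (hpR r hδ2) (max_lt (hball' _ _ _ _ (hAs' _ hq) r hδ2)
        (hball' _ _ _ _ (hBs' _ hq') r hδ2))
    have hEne := (ED_smooth c hc _ (hball _ hin).1).2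
    have hfac := G_fac c hc G k hG key hGk _ (hball _ hin).1
      (by simp only [hε]; field_simp)
    simp only at hfac
    rw [Fr_ScD c G key ρ γ κ ε q.1 q.2, Kt_scale T _ (ED c ((ρ, γ, κ, ε), q.1, q.2))
      (wD ((ρ, γ, κ, ε), q.1) - sD ((ρ, γ, κ, ε), q.2) +
          κ * gD c k ((ρ, γ, κ, ε), q.1, q.2)) hT hEne (ρ * γ) (by rw [hfac])]
    have h5 : ∀ s : ℝ, ((amD c (ED c) (s, (ρ, γ, κ, ε), q.1, q.2) : ℝ) : ℂ) *
        ex (T * (ρ * γ) * (s * (wD ((ρ, γ, κ, ε), q.1) - sD ((ρ, γ, κ, ε), q.2) +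
          κ * gD c k ((ρ, γ, κ, ε), q.1, q.2)))) =
        ((Wr c (Sc ρ γ q.1) (Sc ρ (κ * γ) q.2) : ℝ) : ℂ) *
        (((chi (s / ED c ((ρ, γ, κ, ε), q.1, q.2)) / |ED c ((ρ, γ, κ, ε), q.1, q.2)| : ℝ) : ℂ) *
        ex (T * (ρ * γ) * (s * (wD ((ρ, γ, κ, ε), q.1) - sD ((ρ, γ, κ, ε), q.2) +
          κ * gD c k ((ρ, γ, κ, ε), q.1, q.2))))) := by
      intro s
      unfold amD
      simp only
      rw [Complex.ofReal_mul]
      ring
    simp only [h5]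
    rw [integral_const_mul]
    ring
  rw [hid, norm_mul, norm_mul, Complex.norm_real, Complex.norm_real, Real.norm_eq_abs,
    Real.norm_eq_abs, abs_of_pos hT, abs_of_pos (by positivity)]
  calc ρ * γ * (ρ * (κ * γ)) * T * ‖_‖ ≤
      ρ * γ * (ρ * (κ * γ)) * T * (C / ((T * (ρ * γ)) ^ 2 * κ)) :=
        mul_le_mul_of_nonneg_left hmain (by positivity)
    _ = C / T := by
      field_simp

end Pool.Agent.N1
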