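import Pool.Agent.N1.F1
import Pool.Agent.N1.GN2
import Pool.Agent.N1.GQ
import Pool.Agent.N1.Cell

namespace Pool.Agent.N1

open MeasureTheory Set Metric Pool.Agent.MP_6cbfb8_an Pool.Agent.MST
open scoped ENNReal Real ContDiff

/-- Splitting a four-linear form with product density in cells. -/
theorem g2_split (c : ℝ) (hc : 0 < c) (T : ℝ) (hT : 0 < T) (A B : V → ℂ) (hA : Measurable A)
    (hB : Measurable B) (hA1 : ∀ a, ‖A a‖ ≤ 1) (hB1 : ∀ b, ‖B b‖ ≤ 1) (φ ψ : V → ℝ)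
    (hφ : Measurable φ) (hψ : Measurable ψ) (R δ K : ℝ) (hδ : 0 < δ) (hK : 0 ≤ K)
    (hAs : ∀ u, A u ≠ 0 → |φ u| ≤ R) (hBs : ∀ v, B v ≠ 0 → |ψ v| ≤ R)
    (hloc : ∀ A' B' : V → ℂ, Measurable A' → Measurable B' → (∀ a, ‖A' a‖ ≤ 1) →
      (∀ b, ‖B' b‖ ≤ 1) → ∀ u0 v0, A u0 ≠ 0 → B v0 ≠ 0 →
      (∀ u, A' u ≠ 0 → A u ≠ 0 ∧ |φ u - φ u0| ≤ δ) →
      (∀ v, B' v ≠ 0 → B v ≠ 0 ∧ |ψ v - ψ v0| ≤ δ) → ‖FF c T (tp A' B')‖ ≤ K) :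
    ‖FF c T (tp A B)‖ ≤ ((⌊2 * R / δ⌋₊ + 1 : ℕ) : ℝ) ^ 2 * K := by
  set N : ℕ := ⌊2 * R / δ⌋₊ + 1 with hN
  have h1 : tp A B = fun q => ∑ p ∈ Finset.range N ×ˢ Finset.range N,
      tp (g2_cut φ R δ A p.1) (g2_cut ψ R δ B p.2) q := by
    funext q
    rw [Finset.sum_product]
    unfold tp
    simp only
    rw [← Finset.sum_mul_sum, g2_cut_sum φ R δ hδ A hAs, g2_cut_sum ψ R δ hδ B hBs]
  rw [h1, FF_sum c hc T hT _ _ (fun p => ?_) 1 (fun p q => ?_)]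
  · refine (norm_sum_le _ _).trans ?_
    have h2 : ∀ p ∈ Finset.range N ×ˢ Finset.range N,
        ‖FF c T (tp (g2_cut φ R δ A p.1) (g2_cut ψ R δ B p.2))‖ ≤ K := by
      intro p _
      by_cases hu : ∃ u0, g2_cut φ R δ A p.1 u0 ≠ 0
      · by_cases hv : ∃ v0, g2_cut ψ R δ B p.2 v0 ≠ 0
        · obtain ⟨u0, hu0⟩ := hu
          obtain ⟨v0, hv0⟩ := hv
          have a0 := g2_cut_ne hu0
          have b0 := g2_cut_ne hv0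
          refine hloc _ _ (g2_cut_meas hφ R δ hA _) (g2_cut_meas hψ R δ hB _)
            (g2_cut_norm φ R δ hA1 _) (g2_cut_norm ψ R δ hB1 _) u0 v0 a0.2 b0.2 ?_ ?_
          · intro u hu
            have a1 := g2_cut_ne hu
            exact ⟨a1.2, g2_ix_near hδ (hAs u a1.2) (hAs u0 a0.2) (a1.1.trans a0.1.symm)⟩
          · intro v hv
            have b1 := g2_cut_ne hv
            exact ⟨b1.2, g2_ix_near hδ (hBs v b1.2) (hBs v0 b0.2) (b1.1.trans b0.1.symm)⟩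
        · push Not at hv
          have h3 : tp (g2_cut φ R δ A p.1) (g2_cut ψ R δ B p.2) = fun _ => 0 := by
            funext q
            unfold tp
            rw [hv, mul_zero]
          rw [h3]
          unfold FF
          simpa using hK
      · push Not at hu
        have h3 : tp (g2_cut φ R δ A p.1) (g2_cut ψ R δ B p.2) = fun _ => 0 := by
          funext q
          unfold tp
          rw [hu, zero_mul]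
        rw [h3]
        unfold FF
        simpa using hK
    refine (Finset.sum_le_sum h2).trans (le_of_eq ?_)
    rw [Finset.sum_const, Finset.card_product, Finset.card_range, nsmul_eq_mul]
    push_cast
    ring
  · exact ((g2_cut_meas hφ R δ hA _).comp measurable_fst).mul
      ((g2_cut_meas hψ R δ hB _).comp measurable_snd)
  · unfold tp
    rw [norm_mul]
    exact mul_le_one₀ (g2_cut_norm φ R δ hA1 _ _) (norm_nonneg _) (g2_cut_norm ψ R δ hB1 _ _)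

/-- The set of scaled inner directions. -/
def g2_Z (C7 : ℝ) : Set (ℝ × ℝ) :=
  {z | (1 / C7 ≤ |z.1| ∧ |z.1| ≤ C7) ∧ (1 / C7 ≤ |z.2| ∧ |z.2| ≤ C7)}

theorem g2_Z_compact (C7 : ℝ) : IsCompact (g2_Z C7) := by
  have h1 : g2_Z C7 ⊆ Icc (-C7) C7 ×ˢ Icc (-C7) C7 := by
    rintro z ⟨⟨-, h2⟩, -, h4⟩
    exact ⟨abs_le.1 h2, abs_le.1 h4⟩
  refine (isCompact_Icc.prod isCompact_Icc).of_isClosed_subset ?_ h1
  unfold g2_Z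
  refine IsClosed.inter (IsClosed.inter ?_ ?_) (IsClosed.inter ?_ ?_)
  · exact isClosed_le continuous_const (continuous_abs.comp continuous_fst)
  · exact isClosed_le (continuous_abs.comp continuous_fst) continuous_const
  · exact isClosed_le continuous_const (continuous_abs.comp continuous_snd)
  · exact isClosed_le (continuous_abs.comp continuous_snd) continuous_const

theorem propN2 (c : ℝ) (hc : 0 < c) (x0 y0 : ℝ × ℝ) (hx : x0 ∈ Kc c) (hy1 : y0.1 ≠ 0)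
    (hy2 : y0.2 ≠ 0) (C7 : ℝ) (hC7 : 1 ≤ C7) :
    ∃ δ : ℝ, 0 < δ ∧ ∃ C : ℝ, 0 ≤ C ∧ ∀ T ρ γ : ℝ, 0 < T → 0 < ρ → ρ < δ → 0 < γ → γ < δ →
      ∀ A B : V → ℂ, Measurable A → Measurable B → (∀ a, ‖A a‖ ≤ 1) → (∀ b, ‖B b‖ ≤ 1) →
      (∀ u, A u ≠ 0 → |u.1 / ρ - y0.1| ≤ δ ∧ |u.2.1 - x0.1| ≤ δ ∧ 1 / C7 ≤ |u.2.2 / γ| ∧
        |u.2.2 / γ| ≤ C7) →
      (∀ v, B v ≠ 0 → |v.1 / ρ - y0.2| ≤ δ ∧ |v.2.1 - x0.2| ≤ δ ∧ 1 / C7 ≤ |v.2.2 / γ| ∧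
        |v.2.2 / γ| ≤ C7) →
      ‖FF c T (tp A B)‖ ≤ C / T := by
  have hC7' : 0 < C7 := by linarith
  have key : ∃ δ : ℝ, 0 < δ ∧ ∃ C : ℝ, 0 ≤ C ∧ ∀ z0 ∈ g2_Z C7, ∀ T ρ γ : ℝ, 0 < T →
      0 < ρ → ρ < δ → 0 < γ → γ < δ →
      ∀ A B : V → ℂ, Measurable A → Measurable B → (∀ a, ‖A a‖ ≤ 1) → (∀ b, ‖B b‖ ≤ 1) →
      (∀ u, A u ≠ 0 → |u.1 / ρ - y0.1| ≤ δ ∧ |u.2.1 - x0.1| ≤ δ ∧ |u.2.2 / γ - z0.1| ≤ δ) →
      (∀ v, B v ≠ 0 → |v.1 / ρ - y0.2| ≤ δ ∧ |v.2.1 - x0.2| ≤ δ ∧ |v.2.2 / γ - z0.2| ≤ δ) →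
      ‖FF c T (tp A B)‖ ≤ C / T := by
    refine g2_unif (g2_Z_compact C7) (fun z0 δ C => ∀ T ρ γ : ℝ, 0 < T →
      0 < ρ → ρ < δ → 0 < γ → γ < δ →
      ∀ A B : V → ℂ, Measurable A → Measurable B → (∀ a, ‖A a‖ ≤ 1) → (∀ b, ‖B b‖ ≤ 1) →
      (∀ u, A u ≠ 0 → |u.1 / ρ - y0.1| ≤ δ ∧ |u.2.1 - x0.1| ≤ δ ∧ |u.2.2 / γ - z0.1| ≤ δ) →
      (∀ v, B v ≠ 0 → |v.1 / ρ - y0.2| ≤ δ ∧ |v.2.1 - x0.2| ≤ δ ∧ |v.2.2 / γ - z0.2| ≤ δ) →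
      ‖FF c T (tp A B)‖ ≤ C / T) ?_ ?_ ?_
    · intro z0 δ δ' C C' hδ' hδδ hCC h T ρ γ hT hρ hρδ hγ hγδ A B hA hB hA1 hB1 hAs hBs
      refine (h T ρ γ hT hρ (hρδ.trans_le hδδ) hγ (hγδ.trans_le hδδ) A B hA hB hA1 hB1 ?_ ?_).trans ?_
      · intro u hu
        have h2 := hAs u hu
        exact ⟨h2.1.trans hδδ, h2.2.1.trans hδδ, h2.2.2.trans hδδ⟩
      · intro v hv
        have h2 := hBs v hv
        exact ⟨h2.1.trans hδδ, h2.2.1.trans hδδ, h2.2.2.trans hδδ⟩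
      · gcongr
    · rintro z0 ⟨⟨h1, -⟩, h2, -⟩
      have h3 : 0 < 1 / C7 := by positivity
      exact propN c hc x0 y0 z0 hx hy1 hy2 (abs_pos.1 (h3.trans_le h1)) (abs_pos.1 (h3.trans_le h2))
    · intro z0 z0' δ C hδ hd h T ρ γ hT hρ hρδ hγ hγδ A B hA hB hA1 hB1 hAs hBs
      rw [Prod.dist_eq, max_le_iff, Real.dist_eq, Real.dist_eq] at hd
      refine h T ρ γ hT hρ (by linarith) hγ (by linarith) A B hA hB hA1 hB1 ?_ ?_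
      · intro u hu
        have h2 := hAs u hu
        refine ⟨by linarith, by linarith, ?_⟩
        have h4 := abs_sub_le (u.2.2 / γ) z0'.1 z0.1
        linarith
      · intro v hv
        have h2 := hBs v hv
        refine ⟨by linarith, by linarith, ?_⟩
        have h4 := abs_sub_le (v.2.2 / γ) z0'.2 z0.2
        linarith
  obtain ⟨δ, hδ, C, hC, h⟩ := key
  refine ⟨δ, hδ, ((⌊2 * C7 / δ⌋₊ + 1 : ℕ) : ℝ) ^ 2 * C, by positivity, ?_⟩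
  intro T ρ γ hT hρ hρδ hγ hγδ A B hA hB hA1 hB1 hAs hBs
  rw [mul_div_assoc]
  refine g2_split c hc T hT A B hA hB hA1 hB1 (fun u => u.2.2 / γ) (fun v => v.2.2 / γ)
    (by fun_prop) (by fun_prop) C7 δ (C / T) hδ (by positivity) (fun u hu => (hAs u hu).2.2.2)
    (fun v hv => (hBs v hv).2.2.2) ?_
  intro A' B' hA' hB' hA1' hB1' u0 v0 hu0 hv0 hAs' hBs'
  refine h (u0.2.2 / γ, v0.2.2 / γ) ⟨(hAs u0 hu0).2.2, (hBs v0 hv0).2.2⟩ T ρ γ hT hρ hρδ hγ hγδ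
    A' B' hA' hB' hA1' hB1' ?_ ?_
  · intro u hu
    have h1 := hAs' u hu
    have h2 := hAs u h1.1
    exact ⟨h2.1, h2.2.1, h1.2⟩
  · intro v hv
    have h1 := hBs' v hv
    have h2 := hBs v h1.1
    exact ⟨h2.1, h2.2.1, h1.2⟩

theorem propD2 (c : ℝ) (hc : 0 < c) (x0 y0 : ℝ × ℝ) (hx : x0 ∈ Kc c) (hy1 : y0.1 ≠ 0)
    (hy2 : y0.2 ≠ 0) (hN : Nf 0 y0 x0 = 0) (C5 C7 : ℝ) (hC7 : 1 ≤ C7) :
    ∃ δ : ℝ, 0 < δ ∧ ∃ C : ℝ, 0 ≤ C ∧ ∀ T ρ γ κ : ℝ, 0 < T → 0 < ρ → ρ < δ → 0 < γ → γ < δ →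
      0 < κ → κ < δ → γ ≤ C5 * κ →
      ∀ A B : V → ℂ, Measurable A → Measurable B → (∀ a, ‖A a‖ ≤ 1) → (∀ b, ‖B b‖ ≤ 1) →
      (∀ u, A u ≠ 0 → |u.1 / ρ - y0.1| ≤ δ ∧ |u.2.1 - x0.1| ≤ δ ∧ 1 / C7 ≤ |u.2.2 / γ| ∧
        |u.2.2 / γ| ≤ C7) →
      (∀ v, B v ≠ 0 → |v.1 / ρ - y0.2| ≤ δ ∧ |v.2.1 - x0.2| ≤ δ ∧
        1 / C7 ≤ |v.2.2 / (κ * γ)| ∧ |v.2.2 / (κ * γ)| ≤ C7) →
      ‖FF c T (tp A B)‖ ≤ C / T := by
  have hC7' : 0 < C7 := by linarith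
  have key : ∃ δ : ℝ, 0 < δ ∧ ∃ C : ℝ, 0 ≤ C ∧ ∀ z0 ∈ g2_Z C7, ∀ T ρ γ κ : ℝ, 0 < T →
      0 < ρ → ρ < δ → 0 < γ → γ < δ → 0 < κ → κ < δ → γ ≤ C5 * κ →
      ∀ A B : V → ℂ, Measurable A → Measurable B → (∀ a, ‖A a‖ ≤ 1) → (∀ b, ‖B b‖ ≤ 1) →
      (∀ u, A u ≠ 0 → |u.1 / ρ - y0.1| ≤ δ ∧ |u.2.1 - x0.1| ≤ δ ∧ |u.2.2 / γ - z0.1| ≤ δ) →
      (∀ v, B v ≠ 0 → |v.1 / ρ - y0.2| ≤ δ ∧ |v.2.1 - x0.2| ≤ δ ∧
        |v.2.2 / (κ * γ) - z0.2| ≤ δ) →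
      ‖FF c T (tp A B)‖ ≤ C / T := by
    refine g2_unif (g2_Z_compact C7) (fun z0 δ C => ∀ T ρ γ κ : ℝ, 0 < T →
      0 < ρ → ρ < δ → 0 < γ → γ < δ → 0 < κ → κ < δ → γ ≤ C5 * κ →
      ∀ A B : V → ℂ, Measurable A → Measurable B → (∀ a, ‖A a‖ ≤ 1) → (∀ b, ‖B b‖ ≤ 1) →
      (∀ u, A u ≠ 0 → |u.1 / ρ - y0.1| ≤ δ ∧ |u.2.1 - x0.1| ≤ δ ∧ |u.2.2 / γ - z0.1| ≤ δ) →
      (∀ v, B v ≠ 0 → |v.1 / ρ - y0.2| ≤ δ ∧ |v.2.1 - x0.2| ≤ δ ∧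
        |v.2.2 / (κ * γ) - z0.2| ≤ δ) →
      ‖FF c T (tp A B)‖ ≤ C / T) ?_ ?_ ?_
    · intro z0 δ δ' C C' hδ' hδδ hCC h T ρ γ κ hT hρ hρδ hγ hγδ hκ hκδ hγκ A B hA hB hA1 hB1 hAs hBs
      refine (h T ρ γ κ hT hρ (hρδ.trans_le hδδ) hγ (hγδ.trans_le hδδ) hκ (hκδ.trans_le hδδ) hγκ
        A B hA hB hA1 hB1 ?_ ?_).trans ?_
      · intro u hu
        have h2 := hAs u hu
        exact ⟨h2.1.trans hδδ, h2.2.1.trans hδδ, h2.2.2.trans hδδ⟩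
      · intro v hv
        have h2 := hBs v hv
        exact ⟨h2.1.trans hδδ, h2.2.1.trans hδδ, h2.2.2.trans hδδ⟩
      · gcongr
    · rintro z0 ⟨⟨h1, -⟩, h2, -⟩
      have h3 : 0 < 1 / C7 := by positivity
      exact propD c hc x0 y0 z0 hx hy1 hy2 hN (abs_pos.1 (h3.trans_le h1))
        (abs_pos.1 (h3.trans_le h2)) C5
    · intro z0 z0' δ C hδ hd h T ρ γ κ hT hρ hρδ hγ hγδ hκ hκδ hγκ A B hA hB hA1 hB1 hAs hBs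
      rw [Prod.dist_eq, max_le_iff, Real.dist_eq, Real.dist_eq] at hd
      refine h T ρ γ κ hT hρ (by linarith) hγ (by linarith) hκ (by linarith) hγκ A B hA hB hA1 hB1
        ?_ ?_
      · intro u hu
        have h2 := hAs u hu
        refine ⟨by linarith, by linarith, ?_⟩
        have h4 := abs_sub_le (u.2.2 / γ) z0'.1 z0.1
        linarith
      · intro v hv
        have h2 := hBs v hv
        refine ⟨by linarith, by linarith, ?_⟩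
        have h4 := abs_sub_le (v.2.2 / (κ * γ)) z0'.2 z0.2
        linarith
  obtain ⟨δ, hδ, C, hC, h⟩ := key
  refine ⟨δ, hδ, ((⌊2 * C7 / δ⌋₊ + 1 : ℕ) : ℝ) ^ 2 * C, by positivity, ?_⟩
  intro T ρ γ κ hT hρ hρδ hγ hγδ hκ hκδ hγκ A B hA hB hA1 hB1 hAs hBs
  rw [mul_div_assoc]
  refine g2_split c hc T hT A B hA hB hA1 hB1 (fun u => u.2.2 / γ) (fun v => v.2.2 / (κ * γ))
    (by fun_prop) (by fun_prop) C7 δ (C / T) hδ (by positivity) (fun u hu => (hAs u hu).2.2.2)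
    (fun v hv => (hBs v hv).2.2.2) ?_
  intro A' B' hA' hB' hA1' hB1' u0 v0 hu0 hv0 hAs' hBs'
  refine h (u0.2.2 / γ, v0.2.2 / (κ * γ)) ⟨(hAs u0 hu0).2.2, (hBs v0 hv0).2.2⟩ T ρ γ κ hT hρ hρδ
    hγ hγδ hκ hκδ hγκ A' B' hA' hB' hA1' hB1' ?_ ?_
  · intro u hu
    have h1 := hAs' u hu
    have h2 := hAs u h1.1
    exact ⟨h2.1, h2.2.1, h1.2⟩
  · intro v hv
    have h1 := hBs' v hv
    have h2 := hBs v h1.1
    exact ⟨h2.1, h2.2.1, h1.2⟩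

end Pool.Agent.N1
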