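import Pool.Agent.N1.G1
import Pool.Agent.N1.A1

/-!
N1, block G: the divided rectangle phase.
-/

namespace Pool.Agent.N1

open MeasureTheory Set Metric Pool.Agent.MP_6cbfb8_an Pool.Agent.MST
open scoped ENNReal Real ContDiff Topology

/-- The coefficient `ℓ`. -/
noncomputable def el (c ρ y₁ a y₂ b : ℝ) : ℝ :=
  (a - ρ * y₁) ^ 2 * (1 - (b - ρ * y₂) ^ 2) / (qf c a b * qf c (a - ρ * y₁) (b - ρ * y₂) *
    (a * qf c (a - ρ * y₁) (b - ρ * y₂) + (a - ρ * y₁) * qf c a b))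

/-- The scaled rectangle phase, with the midpoint in the `z` direction. -/
noncomputable def Ph (c ρ γ : ℝ) (a b : V) : ℝ :=
  Fr c (ρ * a.1, a.2.1 + γ * a.2.2 / 2, γ * a.2.2) (ρ * b.1, b.2.1 + γ * b.2.2 / 2, γ * b.2.2)

lemma Ph_smooth (c : ℝ) (hc : 0 < c) :
    ContDiff ℝ ∞ fun p : ℝ × (ℝ × V × V) => Ph c p.1 p.2.1 p.2.2.1 p.2.2.2 := by
  have h := (Fr_smooth c hc).comp (f := fun p : ℝ × (ℝ × V × V) =>
    (((p.1 * p.2.2.1.1, p.2.2.1.2.1 + p.2.1 * p.2.2.1.2.2 / 2, p.2.1 * p.2.2.1.2.2) : V),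
      ((p.1 * p.2.2.2.1, p.2.2.2.2.1 + p.2.1 * p.2.2.2.2.2 / 2, p.2.1 * p.2.2.2.2.2) : V)))
    (by fun_prop)
  exact h

lemma Ph_zero (c γ : ℝ) (a b : V) : Ph c 0 γ a b = 0 := by
  unfold Ph Fr
  simp only [zero_mul, sub_zero]
  ring

lemma Ph_zero' (c ρ : ℝ) (a b : V) : Ph c ρ 0 a b = 0 := by
  unfold Ph Fr
  simp only [zero_mul, sub_zero, zero_div, add_zero]
  ring

lemma Ph_odd (c ρ γ : ℝ) (a b : V) : Ph c ρ (-γ) a b = -Ph c ρ γ a b := by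
  unfold Ph Fr
  simp only
  rw [show a.2.1 + -γ * a.2.2 / 2 - -γ * a.2.2 = a.2.1 + γ * a.2.2 / 2 by ring,
    show b.2.1 + -γ * b.2.2 / 2 - -γ * b.2.2 = b.2.1 + γ * b.2.2 / 2 by ring,
    show a.2.1 + γ * a.2.2 / 2 - γ * a.2.2 = a.2.1 + -γ * a.2.2 / 2 by ring,
    show b.2.1 + γ * b.2.2 / 2 - γ * b.2.2 = b.2.1 + -γ * b.2.2 / 2 by ring,
    show a.2.1 + -γ * a.2.2 / 2 - ρ * a.1 - -γ * a.2.2 = a.2.1 + γ * a.2.2 / 2 - ρ * a.1 by ring,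
    show b.2.1 + -γ * b.2.2 / 2 - ρ * b.1 - -γ * b.2.2 = b.2.1 + γ * b.2.2 / 2 - ρ * b.1 by ring,
    show a.2.1 + γ * a.2.2 / 2 - ρ * a.1 - γ * a.2.2 = a.2.1 + -γ * a.2.2 / 2 - ρ * a.1 by ring,
    show b.2.1 + γ * b.2.2 / 2 - ρ * b.1 - γ * b.2.2 = b.2.1 + -γ * b.2.2 / 2 - ρ * b.1 by ring]
  ring

/-- Two continuous functions of one real variable that agree away from `0` agree. -/
lemma g_ext {f g : ℝ → ℝ} (hf : ContinuousAt f 0) (hg : ContinuousAt g 0)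
    (h : ∀ᶠ x in 𝓝[≠] (0 : ℝ), f x = g x) : f 0 = g 0 := by
  have h1 : Filter.Tendsto f (𝓝[≠] (0 : ℝ)) (𝓝 (f 0)) := hf.tendsto.mono_left nhdsWithin_le_nhds
  have h2 : Filter.Tendsto g (𝓝[≠] (0 : ℝ)) (𝓝 (g 0)) := hg.tendsto.mono_left nhdsWithin_le_nhds
  exact tendsto_nhds_unique (h1.congr' h) h2

theorem Gfun (c : ℝ) (hc : 0 < c) : ∃ G k : ℝ × (ℝ × V × V) → ℝ, ContDiff ℝ ∞ G ∧
    ContDiff ℝ ∞ k ∧ (∀ γ ρ a b, Ph c ρ γ a b = ρ * γ * G (γ, (ρ, a, b))) ∧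
    ∀ γ ρ a b, G (γ, (ρ, a, b)) = G (0, (ρ, a, b)) + γ ^ 2 * k (γ, (ρ, a, b)) := by
  obtain ⟨F1, hF1, h1⟩ := hadamard (fun p : ℝ × (ℝ × V × V) => Ph c p.1 p.2.1 p.2.2.1 p.2.2.2)
    (Ph_smooth c hc) (fun q => Ph_zero c _ _ _)
  simp only at h1
  have hF1' : ContDiff ℝ ∞ fun p : ℝ × (ℝ × V × V) => F1 (p.2.1, (p.1, p.2.2.1, p.2.2.2)) :=
    hF1.comp (f := fun p : ℝ × (ℝ × V × V) => (p.2.1, (p.1, p.2.2.1, p.2.2.2))) (by fun_prop)
  obtain ⟨G, hG, h2⟩ := hadamard (fun p : ℝ × (ℝ × V × V) => F1 (p.2.1, (p.1, p.2.2.1, p.2.2.2)))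
    hF1' (by
      rintro ⟨ρ, a, b⟩
      simp only
      by_cases hρ : ρ = 0
      · subst hρ
        refine g_ext (f := fun ρ => F1 (ρ, (0, a, b))) (g := fun _ => 0) ?_ continuousAt_const ?_
        · exact (hF1.continuous.comp (by fun_prop)).continuousAt
        · filter_upwards [self_mem_nhdsWithin] with ρ hρ
          have h3 := h1 ρ (0, a, b)
          simp only [Ph_zero'] at h3
          rcases mul_eq_zero.1 h3.symm with h4 | h4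
          · exact absurd h4 hρ
          · exact h4
      · have h3 := h1 ρ (0, a, b)
        simp only [Ph_zero'] at h3
        rcases mul_eq_zero.1 h3.symm with h4 | h4
        · exact absurd h4 hρ
        · exact h4)
  simp only at h2
  have key : ∀ γ ρ a b, Ph c ρ γ a b = ρ * γ * G (γ, (ρ, a, b)) := by
    intro γ ρ a b
    have h3 := h1 ρ (γ, a, b)
    have h4 := h2 γ (ρ, a, b)
    simp only at h3 h4
    rw [h3, h4]
    ring
  obtain ⟨k, hk, h5⟩ := hadamard_even G hG (by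
    rintro γ ⟨ρ, a, b⟩
    have h6 : ∀ ρ : ℝ, ρ ≠ 0 → G (-γ, (ρ, a, b)) = G (γ, (ρ, a, b)) := by
      intro ρ hρ
      by_cases hγ : γ = 0
      · rw [hγ, neg_zero]
      · have h7 := key γ ρ a b
        have h8 := key (-γ) ρ a b
        rw [Ph_odd, h7] at h8
        have h9 : ρ * γ ≠ 0 := mul_ne_zero hρ hγ
        apply mul_left_cancel₀ h9
        linarith
    by_cases hρ : ρ = 0
    · subst hρ
      refine g_ext (f := fun ρ => G (-γ, (ρ, a, b))) (g := fun ρ => G (γ, (ρ, a, b))) ?_ ?_ ?_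
      · exact (hG.continuous.comp (by fun_prop)).continuousAt
      · exact (hG.continuous.comp (by fun_prop)).continuousAt
      · filter_upwards [self_mem_nhdsWithin] with ρ hρ
        exact h6 ρ hρ
    · exact h6 ρ hρ)
  exact ⟨G, k, hG, hk, key, fun γ ρ a b => h5 γ (ρ, a, b)⟩

end Pool.Agent.N1
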