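import Pool.Agent.N1.GA

/-!
N1, block G: the divided phase at `γ = 0`.
-/

namespace Pool.Agent.N1

open MeasureTheory Set Metric Pool.Agent.MP_6cbfb8_an Pool.Agent.MST
open scoped ENNReal Real ContDiff Topology

/-- The good region: the endpoints lie well inside the quarter disc. -/
def Gd (c ρ : ℝ) (a b : V) : Prop :=
  0 < a.2.1 ∧ 0 < a.2.1 - ρ * a.1 ∧ 0 < b.2.1 ∧ 0 < b.2.1 - ρ * b.1 ∧
  c ^ 2 / 8 < 1 - a.2.1 ^ 2 - b.2.1 ^ 2 ∧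
  c ^ 2 / 8 < 1 - (a.2.1 - ρ * a.1) ^ 2 - (b.2.1 - ρ * b.1) ^ 2

lemma qf_comm (c a b : ℝ) : qf c a b = qf c b a := by
  unfold qf
  congr 1
  ring

lemma el_id (c : ℝ) (hc : 0 < c) (ρ y₁ a y₂ b : ℝ) (ha : 0 < a) (ha' : 0 < a - ρ * y₁)
    (hb : 0 < b) (hb' : 0 < b - ρ * y₂)
    (h1 : c ^ 2 / 8 < 1 - a ^ 2 - b ^ 2)
    (h2 : c ^ 2 / 8 < 1 - (a - ρ * y₁) ^ 2 - (b - ρ * y₂) ^ 2) :
    a / qf c a b - (a - ρ * y₁) / qf c (a - ρ * y₁) (b - ρ * y₂) =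
      ρ * (el c ρ y₁ a y₂ b * (om ρ y₁ a - sg ρ y₂ b)) := by
  have q1 := qf_sq c hc a b h1.le
  have q2 := qf_sq c hc _ _ h2.le
  have p1 := qf_pos c hc a b h1.le
  have p2 := qf_pos c hc _ _ h2.le
  have hc8 : 0 < c ^ 2 / 8 := by positivity
  have hb1 : 0 < 1 - (b - ρ * y₂) ^ 2 := by nlinarith [sq_nonneg (a - ρ * y₁)]
  unfold el om sg
  set Q := qf c a b with hQ
  set Q' := qf c (a - ρ * y₁) (b - ρ * y₂) with hQ'
  set a' := a - ρ * y₁ with hA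
  set b' := b - ρ * y₂ with hB
  have e1 : y₁ * (2 * a - ρ * y₁) * ρ = a ^ 2 - a' ^ 2 := by rw [hA]; ring
  have e2 : y₂ * (2 * b - ρ * y₂) * ρ = b ^ 2 - b' ^ 2 := by rw [hB]; ring
  have hS : 0 < a * Q' + a' * Q := by positivity
  have h3 : ρ * (a' ^ 2 * (1 - b' ^ 2) / (Q * Q' * (a * Q' + a' * Q)) *
      (y₁ * (2 * a - ρ * y₁) / a' ^ 2 - -(y₂ * (2 * b - ρ * y₂) / (1 - b' ^ 2)))) =
      ((1 - b' ^ 2) * (y₁ * (2 * a - ρ * y₁) * ρ) + a' ^ 2 * (y₂ * (2 * b - ρ * y₂) * ρ)) /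
        (Q * Q' * (a * Q' + a' * Q)) := by
    field_simp
    ring
  rw [h3, e1, e2]
  have h4 : (1 - b' ^ 2) * (a ^ 2 - a' ^ 2) + a' ^ 2 * (b ^ 2 - b' ^ 2) =
      (a * Q' + a' * Q) * (a * Q' - a' * Q) := by
    have : (a * Q' + a' * Q) * (a * Q' - a' * Q) = a ^ 2 * Q' ^ 2 - a' ^ 2 * Q ^ 2 := by ring
    rw [this, q1, q2]
    ring
  rw [h4]
  field_simp

/-- difference of `qf` at two points symmetric about `(m, n)` -/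
lemma qf_diff (c : ℝ) (hc : 0 < c) (m n z w : ℝ) (h1 : c ^ 2 / 8 ≤ 1 - (m + z / 2) ^ 2 - (n + w / 2) ^ 2)
    (h2 : c ^ 2 / 8 ≤ 1 - (m - z / 2) ^ 2 - (n - w / 2) ^ 2) :
    qf c (m + z / 2) (n + w / 2) - qf c (m - z / 2) (n - w / 2) =
      -(2 * (m * z + n * w)) / (qf c (m + z / 2) (n + w / 2) + qf c (m - z / 2) (n - w / 2)) := by
  have q1 := qf_sq c hc _ _ h1
  have q2 := qf_sq c hc _ _ h2
  have p1 := qf_pos c hc _ _ h1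
  have p2 := qf_pos c hc _ _ h2
  rw [eq_div_iff (by positivity)]
  have : (qf c (m + z / 2) (n + w / 2) - qf c (m - z / 2) (n - w / 2)) *
    (qf c (m + z / 2) (n + w / 2) + qf c (m - z / 2) (n - w / 2)) =
    qf c (m + z / 2) (n + w / 2) ^ 2 - qf c (m - z / 2) (n - w / 2) ^ 2 := by ring
  rw [this, q1, q2]
  ring

end Pool.Agent.N1
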