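import Pool.Agent.N1.GB

/-!
N1, block G: formula for the divided phase at `γ = 0`.
-/

namespace Pool.Agent.N1

open MeasureTheory Set Metric Pool.Agent.MP_6cbfb8_an Pool.Agent.MST
open scoped ENNReal Real ContDiff Topology

/-- The value of the divided phase at `γ = 0`. -/
noncomputable def G0 (c ρ : ℝ) (a b : V) : ℝ :=
  -(a.2.2 * (el c ρ a.1 a.2.1 b.1 b.2.1 * (om ρ a.1 a.2.1 - sg ρ b.1 b.2.1))) -
    b.2.2 * (el c ρ b.1 b.2.1 a.1 a.2.1 * (om ρ b.1 b.2.1 - sg ρ a.1 a.2.1))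

lemma Ph_eq (c ρ γ : ℝ) (a b : V) : Ph c ρ γ a b =
    (qf c (a.2.1 + γ * a.2.2 / 2) (b.2.1 + γ * b.2.2 / 2) -
      qf c (a.2.1 - γ * a.2.2 / 2) (b.2.1 - γ * b.2.2 / 2)) -
    (qf c (a.2.1 - ρ * a.1 + γ * a.2.2 / 2) (b.2.1 - ρ * b.1 + γ * b.2.2 / 2) -
      qf c (a.2.1 - ρ * a.1 - γ * a.2.2 / 2) (b.2.1 - ρ * b.1 - γ * b.2.2 / 2)) := by
  unfold Ph Fr
  simp only
  rw [show a.2.1 + γ * a.2.2 / 2 - ρ * a.1 = a.2.1 - ρ * a.1 + γ * a.2.2 / 2 by ring,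
    show b.2.1 + γ * b.2.2 / 2 - ρ * b.1 = b.2.1 - ρ * b.1 + γ * b.2.2 / 2 by ring,
    show a.2.1 + γ * a.2.2 / 2 - γ * a.2.2 = a.2.1 - γ * a.2.2 / 2 by ring,
    show b.2.1 + γ * b.2.2 / 2 - γ * b.2.2 = b.2.1 - γ * b.2.2 / 2 by ring,
    show a.2.1 - ρ * a.1 + γ * a.2.2 / 2 - γ * a.2.2 = a.2.1 - ρ * a.1 - γ * a.2.2 / 2 by ring,
    show b.2.1 - ρ * b.1 + γ * b.2.2 / 2 - γ * b.2.2 = b.2.1 - ρ * b.1 - γ * b.2.2 / 2 by ring]
  ring

lemma G_lim (c : ℝ) (hc : 0 < c) (G : ℝ × (ℝ × V × V) → ℝ) (hG : ContDiff ℝ ∞ G)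
    (key : ∀ γ ρ a b, Ph c ρ γ a b = ρ * γ * G (γ, (ρ, a, b))) (ρ : ℝ) (a b : V)
    (h1 : c ^ 2 / 8 < 1 - a.2.1 ^ 2 - b.2.1 ^ 2)
    (h2 : c ^ 2 / 8 < 1 - (a.2.1 - ρ * a.1) ^ 2 - (b.2.1 - ρ * b.1) ^ 2) :
    ρ * G (0, (ρ, a, b)) = -((a.2.1 * a.2.2 + b.2.1 * b.2.2) / qf c a.2.1 b.2.1) +
      ((a.2.1 - ρ * a.1) * a.2.2 + (b.2.1 - ρ * b.1) * b.2.2) /
        qf c (a.2.1 - ρ * a.1) (b.2.1 - ρ * b.1) := by
  have hq : ∀ m n z w : ℝ, Continuous fun γ : ℝ => qf c (m + γ * z / 2) (n + γ * w / 2) :=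
    fun m n z w => (qf_comp c hc (f := fun γ : ℝ => m + γ * z / 2)
      (g := fun γ : ℝ => n + γ * w / 2) (by fun_prop) (by fun_prop)).continuous
  have hq' : ∀ m n z w : ℝ, Continuous fun γ : ℝ => qf c (m - γ * z / 2) (n - γ * w / 2) :=
    fun m n z w => (qf_comp c hc (f := fun γ : ℝ => m - γ * z / 2)
      (g := fun γ : ℝ => n - γ * w / 2) (by fun_prop) (by fun_prop)).continuous
  have gen : ∀ m n z w : ℝ, c ^ 2 / 8 < 1 - m ^ 2 - n ^ 2 →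
      (∀ᶠ γ in 𝓝[≠] (0:ℝ), qf c (m + γ * z / 2) (n + γ * w / 2) -
        qf c (m - γ * z / 2) (n - γ * w / 2) = -(2 * (m * z + n * w)) * γ /
          (qf c (m + γ * z / 2) (n + γ * w / 2) + qf c (m - γ * z / 2) (n - γ * w / 2))) ∧
      ContinuousAt (fun γ : ℝ => -(2 * (m * z + n * w)) /
          (qf c (m + γ * z / 2) (n + γ * w / 2) + qf c (m - γ * z / 2) (n - γ * w / 2))) 0 := by
    intro m n z w h
    constructor
    · have e1 : ∀ᶠ γ in 𝓝 (0:ℝ), c ^ 2 / 8 < 1 - (m + γ * z / 2) ^ 2 - (n + γ * w / 2) ^ 2 := by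
        have : ContinuousAt (fun γ : ℝ => 1 - (m + γ * z / 2) ^ 2 - (n + γ * w / 2) ^ 2) 0 := by
          fun_prop
        refine this.eventually (lt_mem_nhds ?_)
        simpa using h
      have e2 : ∀ᶠ γ in 𝓝 (0:ℝ), c ^ 2 / 8 < 1 - (m - γ * z / 2) ^ 2 - (n - γ * w / 2) ^ 2 := by
        have : ContinuousAt (fun γ : ℝ => 1 - (m - γ * z / 2) ^ 2 - (n - γ * w / 2) ^ 2) 0 := by
          fun_prop
        refine this.eventually (lt_mem_nhds ?_)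
        simpa using h
      filter_upwards [nhdsWithin_le_nhds e1, nhdsWithin_le_nhds e2] with γ g1 g2
      rw [qf_diff c hc m n (γ * z) (γ * w) g1.le g2.le]
      congr 1
      ring
    · refine ContinuousAt.div continuousAt_const ?_ ?_
      · exact ((hq m n z w).add (hq' m n z w)).continuousAt
      · have := qf_pos c hc m n h.le
        simp only [zero_mul, zero_div, add_zero, sub_zero]
        positivity
  obtain ⟨A1, A2⟩ := gen a.2.1 b.2.1 a.2.2 b.2.2 h1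
  obtain ⟨B1, B2⟩ := gen (a.2.1 - ρ * a.1) (b.2.1 - ρ * b.1) a.2.2 b.2.2 h2
  have h3 := g_ext (f := fun γ => ρ * G (γ, (ρ, a, b))) (g := fun γ =>
    -(2 * (a.2.1 * a.2.2 + b.2.1 * b.2.2)) /
      (qf c (a.2.1 + γ * a.2.2 / 2) (b.2.1 + γ * b.2.2 / 2) +
        qf c (a.2.1 - γ * a.2.2 / 2) (b.2.1 - γ * b.2.2 / 2)) -
    -(2 * ((a.2.1 - ρ * a.1) * a.2.2 + (b.2.1 - ρ * b.1) * b.2.2)) /
      (qf c (a.2.1 - ρ * a.1 + γ * a.2.2 / 2) (b.2.1 - ρ * b.1 + γ * b.2.2 / 2) +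
        qf c (a.2.1 - ρ * a.1 - γ * a.2.2 / 2) (b.2.1 - ρ * b.1 - γ * b.2.2 / 2)))
    ((continuous_const.mul (hG.continuous.comp (by fun_prop))).continuousAt) (A2.sub B2) (by
      filter_upwards [A1, B1, self_mem_nhdsWithin] with γ g1 g2 g3
      have hγ : γ ≠ 0 := g3
      have h4 := key γ ρ a b
      rw [Ph_eq, g1, g2] at h4
      apply mul_left_cancel₀ hγ
      calc γ * (ρ * G (γ, (ρ, a, b))) = ρ * γ * G (γ, (ρ, a, b)) := by ring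
        _ = _ := by rw [← h4]; ring)
  simp only [zero_mul, zero_div, add_zero, sub_zero] at h3
  rw [h3]
  have p1 := qf_pos c hc _ _ h1.le
  have p2 := qf_pos c hc _ _ h2.le
  field_simp
  ring

lemma G_zero' (c : ℝ) (hc : 0 < c) (G : ℝ × (ℝ × V × V) → ℝ) (hG : ContDiff ℝ ∞ G)
    (key : ∀ γ ρ a b, Ph c ρ γ a b = ρ * γ * G (γ, (ρ, a, b))) (ρ : ℝ) (hρ : ρ ≠ 0) (a b : V)
    (h : Gd c ρ a b) : G (0, (ρ, a, b)) = G0 c ρ a b := by
  obtain ⟨g1, g2, g3, g4, g5, g6⟩ := h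
  have h1 := G_lim c hc G hG key ρ a b g5 g6
  have h2 := el_id c hc ρ a.1 a.2.1 b.1 b.2.1 g1 g2 g3 g4 g5 g6
  have h3 := el_id c hc ρ b.1 b.2.1 a.1 a.2.1 g3 g4 g1 g2 (by linarith) (by linarith)
  rw [qf_comm c b.2.1 a.2.1, qf_comm c (b.2.1 - ρ * b.1) (a.2.1 - ρ * a.1)] at h3
  apply mul_left_cancel₀ hρ
  rw [h1]
  unfold G0
  have h4 : ρ * (-(a.2.2 * (el c ρ a.1 a.2.1 b.1 b.2.1 * (om ρ a.1 a.2.1 - sg ρ b.1 b.2.1))) -
    b.2.2 * (el c ρ b.1 b.2.1 a.1 a.2.1 * (om ρ b.1 b.2.1 - sg ρ a.1 a.2.1))) =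
    -(a.2.2 * (ρ * (el c ρ a.1 a.2.1 b.1 b.2.1 * (om ρ a.1 a.2.1 - sg ρ b.1 b.2.1)))) -
    b.2.2 * (ρ * (el c ρ b.1 b.2.1 a.1 a.2.1 * (om ρ b.1 b.2.1 - sg ρ a.1 a.2.1))) := by ring
  rw [h4, ← h2, ← h3]
  ring

/-- Continuity of the coefficient in the parameter `ρ` at `0`. -/
lemma G0_cont (c : ℝ) (hc : 0 < c) (a b : V) (h : Gd c 0 a b) :
    ContinuousAt (fun ρ : ℝ => G0 c ρ a b) 0 := by
  obtain ⟨g1, g2, g3, g4, g5, g6⟩ := h
  simp only [zero_mul, sub_zero] at g2 g4 g6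
  have hc8 : 0 < c ^ 2 / 8 := by positivity
  have p1 := qf_pos c hc _ _ g5.le
  have hq : Continuous fun ρ : ℝ => qf c (a.2.1 - ρ * a.1) (b.2.1 - ρ * b.1) :=
    (qf_comp c hc (f := fun ρ : ℝ => a.2.1 - ρ * a.1) (g := fun ρ : ℝ => b.2.1 - ρ * b.1)
      (by fun_prop) (by fun_prop)).continuous
  have hq' : Continuous fun ρ : ℝ => qf c (b.2.1 - ρ * b.1) (a.2.1 - ρ * a.1) :=
    (qf_comp c hc (f := fun ρ : ℝ => b.2.1 - ρ * b.1) (g := fun ρ : ℝ => a.2.1 - ρ * a.1)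
      (by fun_prop) (by fun_prop)).continuous
  have p1' : 0 < qf c b.2.1 a.2.1 := by rw [qf_comm]; exact p1
  have n1 : 1 - b.2.1 ^ 2 ≠ 0 := by nlinarith [sq_nonneg a.2.1]
  have n2 : 1 - a.2.1 ^ 2 ≠ 0 := by nlinarith [sq_nonneg b.2.1]
  unfold G0 el om sg
  refine ContinuousAt.sub (ContinuousAt.neg (continuousAt_const.mul (ContinuousAt.mul
    (ContinuousAt.div (by fun_prop) ?_ ?_) (ContinuousAt.sub (ContinuousAt.div (by fun_prop)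
      (by fun_prop) ?_) (ContinuousAt.neg (ContinuousAt.div (by fun_prop) (by fun_prop) ?_))))))
    (continuousAt_const.mul (ContinuousAt.mul
    (ContinuousAt.div (by fun_prop) ?_ ?_) (ContinuousAt.sub (ContinuousAt.div (by fun_prop)
      (by fun_prop) ?_) (ContinuousAt.neg (ContinuousAt.div (by fun_prop) (by fun_prop) ?_)))))
  · exact ((continuous_const.mul hq).mul ((continuous_const.mul hq).add
      ((by fun_prop : Continuous fun ρ : ℝ => a.2.1 - ρ * a.1).mul continuous_const))).continuousAt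
  · simp only [zero_mul, sub_zero]; positivity
  · simp only [zero_mul, sub_zero]; positivity
  · simpa using n1
  · exact ((continuous_const.mul hq').mul ((continuous_const.mul hq').add
      ((by fun_prop : Continuous fun ρ : ℝ => b.2.1 - ρ * b.1).mul continuous_const))).continuousAt
  · simp only [zero_mul, sub_zero]; positivity
  · simp only [zero_mul, sub_zero]; positivity
  · simpa using n2

theorem G_zero (c : ℝ) (hc : 0 < c) (G : ℝ × (ℝ × V × V) → ℝ) (hG : ContDiff ℝ ∞ G)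
    (key : ∀ γ ρ a b, Ph c ρ γ a b = ρ * γ * G (γ, (ρ, a, b))) (ρ : ℝ) (a b : V)
    (h : Gd c ρ a b) : G (0, (ρ, a, b)) = G0 c ρ a b := by
  by_cases hρ : ρ = 0
  · subst hρ
    refine g_ext (f := fun ρ => G (0, (ρ, a, b))) (g := fun ρ => G0 c ρ a b) ?_
      (G0_cont c hc a b h) ?_
    · exact (hG.continuous.comp (by fun_prop)).continuousAt
    · have e : ∀ᶠ ρ in 𝓝 (0:ℝ), Gd c ρ a b := by
        unfold Gd at h ⊢
        obtain ⟨g1, g2, g3, g4, g5, g6⟩ := h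
        have c1 : ∀ᶠ ρ in 𝓝 (0:ℝ), 0 < a.2.1 - ρ * a.1 :=
          (by fun_prop : ContinuousAt (fun ρ : ℝ => a.2.1 - ρ * a.1) 0).eventually
            (lt_mem_nhds g2)
        have c2 : ∀ᶠ ρ in 𝓝 (0:ℝ), 0 < b.2.1 - ρ * b.1 :=
          (by fun_prop : ContinuousAt (fun ρ : ℝ => b.2.1 - ρ * b.1) 0).eventually
            (lt_mem_nhds g4)
        have c3 : ∀ᶠ ρ in 𝓝 (0:ℝ), c ^ 2 / 8 < 1 - (a.2.1 - ρ * a.1) ^ 2 -
            (b.2.1 - ρ * b.1) ^ 2 :=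
          (by fun_prop : ContinuousAt (fun ρ : ℝ => 1 - (a.2.1 - ρ * a.1) ^ 2 -
            (b.2.1 - ρ * b.1) ^ 2) 0).eventually (lt_mem_nhds g6)
        filter_upwards [c1, c2, c3] with ρ d1 d2 d3
        exact ⟨g1, d1, g3, d2, g5, d3⟩
      filter_upwards [nhdsWithin_le_nhds e, self_mem_nhdsWithin] with ρ h1 h2
      exact G_zero' c hc G hG key ρ h2 a b h1
  · exact G_zero' c hc G hG key ρ hρ a b h

end Pool.Agent.N1
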