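import Pool.Agent.N1.GC

/-!
N1, block G: scaling.
-/

namespace Pool.Agent.N1

open MeasureTheory Set Metric Pool.Agent.MP_6cbfb8_an Pool.Agent.MST
open scoped ENNReal Real ContDiff Topology

/-- Scaling of a triple. -/
noncomputable def Sc (ρ γ : ℝ) (u : V) : V := (ρ * u.1, u.2.1, γ * u.2.2)

lemma Sc_cont (ρ γ : ℝ) : Continuous (Sc ρ γ) := by
  unfold Sc
  fun_prop

lemma Sc_eq (ρ γ : ℝ) : Sc ρ γ = Prod.map (fun x : ℝ => ρ * x) (Prod.map (fun x : ℝ => x)
    (fun x : ℝ => γ * x)) := rfl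

lemma map_Sc (ρ γ : ℝ) (hρ : 0 < ρ) (hγ : 0 < γ) :
    Measure.map (Sc ρ γ) (volume : Measure V) = ENNReal.ofReal ((ρ * γ)⁻¹) • volume := by
  rw [Sc_eq]
  have h1 : (volume : Measure V) = (volume : Measure ℝ).prod
    ((volume : Measure ℝ).prod (volume : Measure ℝ)) := rfl
  rw [h1, ← Measure.map_prod_map _ _ (by fun_prop) (by fun_prop),
    ← Measure.map_prod_map _ _ (by fun_prop) (by fun_prop)]
  rw [Real.map_volume_mul_left hρ.ne', Real.map_volume_mul_left hγ.ne']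
  have h2 : Measure.map (fun x : ℝ => x) volume = (volume : Measure ℝ) := Measure.map_id
  rw [h2, Measure.prod_smul_right, Measure.prod_smul_left, Measure.prod_smul_right, smul_smul]
  congr 1
  rw [abs_of_pos (by positivity), abs_of_pos (by positivity),
    ← ENNReal.ofReal_mul (by positivity), mul_inv]

/-- Scaling as a measurable equivalence. -/
noncomputable def ScE (ρ γ : ℝ) (hρ : ρ ≠ 0) (hγ : γ ≠ 0) : V ≃ᵐ V :=
  ((Homeomorph.mulLeft₀ ρ hρ).prodCongr ((Homeomorph.refl ℝ).prodCongr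
    (Homeomorph.mulLeft₀ γ hγ))).toMeasurableEquiv

lemma ScE_apply (ρ γ : ℝ) (hρ : ρ ≠ 0) (hγ : γ ≠ 0) (u : V) :
    ScE ρ γ hρ hγ u = Sc ρ γ u := rfl

theorem integral_scale (f : V × V → ℂ) (ρ γ γ' : ℝ) (hρ : 0 < ρ) (hγ : 0 < γ) (hγ' : 0 < γ') :
    ∫ q : V × V, f q = (((ρ * γ) * (ρ * γ') : ℝ) : ℂ) *
      ∫ q : V × V, f (Sc ρ γ q.1, Sc ρ γ' q.2) := by
  have h0 : Measure.map (fun q : V × V => (Sc ρ γ q.1, Sc ρ γ' q.2)) volume =
      ENNReal.ofReal (((ρ * γ) * (ρ * γ'))⁻¹) • (volume : Measure (V × V)) := by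
    have h1 : (volume : Measure (V × V)) = (volume : Measure V).prod (volume : Measure V) := rfl
    have h2 : (fun q : V × V => (Sc ρ γ q.1, Sc ρ γ' q.2)) = Prod.map (Sc ρ γ) (Sc ρ γ') := rfl
    rw [h1, h2, ← Measure.map_prod_map _ _ (Sc_cont ρ γ).measurable (Sc_cont ρ γ').measurable,
      map_Sc ρ γ hρ hγ, map_Sc ρ γ' hρ hγ', Measure.prod_smul_right, Measure.prod_smul_left,
      smul_smul]
    congr 1
    rw [← ENNReal.ofReal_mul (by positivity)]
    congr 1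
    rw [← mul_inv, mul_comm]
  have h3 := integral_map_equiv (μ := (volume : Measure (V × V)))
    (MeasurableEquiv.prodCongr (ScE ρ γ hρ.ne' hγ.ne') (ScE ρ γ' hρ.ne' hγ'.ne')) f
  have h4 : (⇑(MeasurableEquiv.prodCongr (ScE ρ γ hρ.ne' hγ.ne') (ScE ρ γ' hρ.ne' hγ'.ne'))) =
    fun q : V × V => (Sc ρ γ q.1, Sc ρ γ' q.2) := rfl
  rw [h4, h0, integral_smul_measure] at h3
  rw [← h3, ENNReal.toReal_ofReal (by positivity), Complex.real_smul, ← mul_assoc,
    ← Complex.ofReal_mul, mul_inv_cancel₀ (by positivity), Complex.ofReal_one, one_mul]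

/-- The kernel in scaled form. -/
theorem Kt_scale (T x E F : ℝ) (hT : 0 < T) (hE : E ≠ 0) (m : ℝ) (hx : x = m * (E * F)) :
    Kt T x = (T : ℂ) * ∫ s : ℝ, ((chi (s / E) / |E| : ℝ) : ℂ) * ex (T * m * (s * F)) := by
  unfold Kt
  have h1 : ∫ t : ℝ, ((chi (t / T) : ℝ) : ℂ) * ex (t * x) = (T : ℂ) *
      ∫ s : ℝ, ((chi s : ℝ) : ℂ) * ex (T * s * x) := by
    have h2 := Measure.integral_comp_mul_left (fun t : ℝ => ((chi (t / T) : ℝ) : ℂ) * ex (t * x)) T
    have h3 : ∀ s : ℝ, T * s / T = s := fun s => by field_simp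
    simp only [h3] at h2
    rw [h2, abs_of_pos (by positivity), Complex.real_smul, ← mul_assoc, ← Complex.ofReal_mul,
      mul_inv_cancel₀ hT.ne', Complex.ofReal_one, one_mul]
  rw [h1]
  congr 1
  have h4 := Measure.integral_comp_mul_left (fun s : ℝ => ((chi (s / E) / |E| : ℝ) : ℂ) *
    ex (T * m * (s * F))) E
  have h5 : ∀ s : ℝ, E * s / E = s := fun s => by field_simp
  simp only [h5] at h4
  have hEa : 0 < |E| := abs_pos.2 hE
  rw [abs_inv, Complex.real_smul] at h4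
  have h6 : ∫ s : ℝ, ((chi (s / E) / |E| : ℝ) : ℂ) * ex (T * m * (s * F)) =
      ((|E| : ℝ) : ℂ) * ∫ s : ℝ, ((chi s / |E| : ℝ) : ℂ) * ex (T * m * (E * s * F)) := by
    rw [h4, ← mul_assoc, ← Complex.ofReal_mul, mul_inv_cancel₀ hEa.ne', Complex.ofReal_one,
      one_mul]
  rw [h6, ← integral_const_mul]
  refine integral_congr_ae (Filter.Eventually.of_forall fun s => ?_)
  simp only
  have hE' : ((|E| : ℝ) : ℂ) ≠ 0 := by exact_mod_cast hEa.ne'
  rw [hx, show T * s * (m * (E * F)) = T * m * (E * s * F) by ring, Complex.ofReal_div]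
  field_simp

end Pool.Agent.N1
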