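import Pool.Agent.N1.G1

/-!
N1, block G: derivatives of separated functions and nondegeneracy.
-/

namespace Pool.Agent.N1

open MeasureTheory Set Metric Pool.Agent.MP_6cbfb8_an Pool.Agent.MST
open scoped ENNReal Real ContDiff Topology

lemma fd_of (f : V → ℝ) (x u : V) (d : ℝ) (hf : DifferentiableAt ℝ f x)
    (h : HasDerivAt (fun t : ℝ => f (x.1 + t * u.1, x.2.1 + t * u.2.1, x.2.2 + t * u.2.2)) d 0) :
    fderiv ℝ f x u = d := by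
  have h1 : HasDerivAt (fun t : ℝ => x + t • u) u 0 := by
    have h3 : HasDerivAt (fun t : ℝ => t • u) ((1 : ℝ) • u) 0 := (hasDerivAt_id 0).smul_const u
    rw [one_smul] at h3
    exact h3.const_add x
  have h2 : HasFDerivAt f (fderiv ℝ f x) (x + (0:ℝ) • u) := by
    rw [zero_smul, add_zero]
    exact hf.hasFDerivAt
  have h3 := h2.comp_hasDerivAt (0:ℝ) h1
  have h4 : (f ∘ fun t : ℝ => x + t • u) = fun t : ℝ =>
    f (x.1 + t * u.1, x.2.1 + t * u.2.1, x.2.2 + t * u.2.2) := by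
    funext t
    rfl
  rw [h4] at h3
  exact h3.unique h

lemma g_lin (x u : ℝ) : HasDerivAt (fun t : ℝ => x + t * u) u 0 := by
  simpa using ((hasDerivAt_id (0:ℝ)).mul_const u).const_add x

section sep

variable (F : V × V → ℝ) (X0 X1 X2 Y0 Y1 Y2 : V → ℝ) (a0 b0 : V)

lemma sep_a (hX0 : DifferentiableAt ℝ X0 a0) (hX1 : DifferentiableAt ℝ X1 a0)
    (hX2 : DifferentiableAt ℝ X2 a0) (y0 y1 y2 : ℝ) (u : V) :
    fderiv ℝ (fun a => X0 a + y0 + X1 a * y1 + X2 a * y2) a0 u =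
      fderiv ℝ X0 a0 u + fderiv ℝ X1 a0 u * y1 + fderiv ℝ X2 a0 u * y2 := by
  have h := ((hX0.hasFDerivAt.add_const y0).add (hX1.hasFDerivAt.mul_const y1)).add
    (hX2.hasFDerivAt.mul_const y2)
  have h' := h.fderiv
  have e : (fun a => X0 a + y0 + X1 a * y1 + X2 a * y2) = ((fun a => X0 a + y0) +
    fun a => X1 a * y1) + fun a => X2 a * y2 := rfl
  rw [e, h']
  simp only [ContinuousLinearMap.add_apply, ContinuousLinearMap.smul_apply, smul_eq_mul]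
  ring

lemma sep_b (hY0 : DifferentiableAt ℝ Y0 b0) (hY1 : DifferentiableAt ℝ Y1 b0)
    (hY2 : DifferentiableAt ℝ Y2 b0) (x0 x1 x2 : ℝ) (e : V) :
    fderiv ℝ (fun b => x0 + Y0 b + x1 * Y1 b + x2 * Y2 b) b0 e =
      fderiv ℝ Y0 b0 e + x1 * fderiv ℝ Y1 b0 e + x2 * fderiv ℝ Y2 b0 e := by
  have h := ((hY0.hasFDerivAt.const_add x0).add (hY1.hasFDerivAt.const_mul x1)).add
    (hY2.hasFDerivAt.const_mul x2)
  have h' := h.fderiv
  have e' : (fun b => x0 + Y0 b + x1 * Y1 b + x2 * Y2 b) = ((fun b => x0 + Y0 b) +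
    fun b => x1 * Y1 b) + fun b => x2 * Y2 b := rfl
  rw [e', h']
  simp only [ContinuousLinearMap.add_apply, ContinuousLinearMap.smul_apply, smul_eq_mul]

variable (hF : ∀ᶠ q in 𝓝 (a0, b0), F q = X0 q.1 + Y0 q.2 + X1 q.1 * Y1 q.2 + X2 q.1 * Y2 q.2)
  (hX0 : DifferentiableAt ℝ X0 a0) (hX1 : DifferentiableAt ℝ X1 a0)
  (hX2 : DifferentiableAt ℝ X2 a0) (hY0 : DifferentiableAt ℝ Y0 b0)
  (hY1 : DifferentiableAt ℝ Y1 b0) (hY2 : DifferentiableAt ℝ Y2 b0)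

include hF hX0 hX1 hX2

lemma sep_1 (u : V) : fderiv ℝ (fun a => F (a, b0)) a0 u =
    fderiv ℝ X0 a0 u + fderiv ℝ X1 a0 u * Y1 b0 + fderiv ℝ X2 a0 u * Y2 b0 := by
  have h1 : (fun a => F (a, b0)) =ᶠ[𝓝 a0] fun a => X0 a + Y0 b0 + X1 a * Y1 b0 + X2 a * Y2 b0 := by
    have h2 : Filter.Tendsto (fun a : V => (a, b0)) (𝓝 a0) (𝓝 (a0, b0)) :=
      (by fun_prop : Continuous fun a : V => (a, b0)).tendsto a0
    exact h2.eventually hF
  rw [h1.fderiv_eq]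
  exact sep_a X0 X1 X2 a0 hX0 hX1 hX2 _ _ _ u

include hY0 hY1 hY2

lemma sep_3 (e : V) : fderiv ℝ (fun b => F (a0, b)) b0 e =
    fderiv ℝ Y0 b0 e + X1 a0 * fderiv ℝ Y1 b0 e + X2 a0 * fderiv ℝ Y2 b0 e := by
  have h1 : (fun b => F (a0, b)) =ᶠ[𝓝 b0] fun b => X0 a0 + Y0 b + X1 a0 * Y1 b + X2 a0 * Y2 b := by
    have h2 : Filter.Tendsto (fun b : V => (a0, b)) (𝓝 b0) (𝓝 (a0, b0)) :=
      (by fun_prop : Continuous fun b : V => (a0, b)).tendsto b0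
    exact h2.eventually hF
  rw [h1.fderiv_eq]
  exact sep_b Y0 Y1 Y2 b0 hY0 hY1 hY2 _ _ _ e

lemma sep_2 (u e : V) : fderiv ℝ (fun b => fderiv ℝ (fun a => F (a, b)) a0 u) b0 e =
    fderiv ℝ X1 a0 u * fderiv ℝ Y1 b0 e + fderiv ℝ X2 a0 u * fderiv ℝ Y2 b0 e := by
  have h0 : ∀ᶠ q in 𝓝 (b0, a0), F (q.2, q.1) =
      X0 q.2 + Y0 q.1 + X1 q.2 * Y1 q.1 + X2 q.2 * Y2 q.1 := by
    have h2 : Filter.Tendsto (fun q : V × V => (q.2, q.1)) (𝓝 (b0, a0)) (𝓝 (a0, b0)) :=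
      (by fun_prop : Continuous fun q : V × V => (q.2, q.1)).tendsto (b0, a0)
    exact h2.eventually hF
  have h1 : (fun b => fderiv ℝ (fun a => F (a, b)) a0 u) =ᶠ[𝓝 b0] fun b =>
      fderiv ℝ X0 a0 u + 0 + fderiv ℝ X1 a0 u * Y1 b + fderiv ℝ X2 a0 u * Y2 b := by
    filter_upwards [h0.curry_nhds] with b hb
    have h3 : (fun a => F (a, b)) =ᶠ[𝓝 a0] fun a => X0 a + Y0 b + X1 a * Y1 b + X2 a * Y2 b := hb
    rw [h3.fderiv_eq, sep_a X0 X1 X2 a0 hX0 hX1 hX2]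
    ring
  rw [h1.fderiv_eq]
  have h4 := sep_b (fun _ => 0) Y1 Y2 b0 (differentiableAt_const _) hY1 hY2 (fderiv ℝ X0 a0 u)
    (fderiv ℝ X1 a0 u) (fderiv ℝ X2 a0 u) e
  rw [h4]
  simp

end sep

end Pool.Agent.N1
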