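import Pool.Agent.N1.GE

/-!
N1, block G: nondegeneracy of the two limiting phases.
-/

namespace Pool.Agent.N1

open MeasureTheory Set Metric Pool.Agent.MP_6cbfb8_an Pool.Agent.MST
open scoped ENNReal Real ContDiff Topology

/-! ### Case (N) -/

noncomputable def nX0 (a : V) : ℝ := (1 - a.2.1 ^ 2) / (a.1 * a.2.2)
noncomputable def nX1 (a : V) : ℝ := a.2.1 / a.2.2
noncomputable def nX2 (a : V) : ℝ := a.2.1 / a.1

lemma nX0_diff (a : V) (h1 : a.1 ≠ 0) (h3 : a.2.2 ≠ 0) : DifferentiableAt ℝ nX0 a := by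
  unfold nX0
  fun_prop (disch := exact (mul_ne_zero h1 h3))

lemma nX1_diff (a : V) (h3 : a.2.2 ≠ 0) : DifferentiableAt ℝ nX1 a := by
  unfold nX1
  fun_prop (disch := exact h3)

lemma nX2_diff (a : V) (h1 : a.1 ≠ 0) : DifferentiableAt ℝ nX2 a := by
  unfold nX2
  fun_prop (disch := exact h1)

lemma nX0_fd (a u : V) (h1 : a.1 ≠ 0) (h3 : a.2.2 ≠ 0) : fderiv ℝ nX0 a u =
    (-(2 * a.2.1 * u.2.1) * (a.1 * a.2.2) - (1 - a.2.1 ^ 2) * (u.1 * a.2.2 + a.1 * u.2.2)) /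
      (a.1 * a.2.2) ^ 2 := by
  refine fd_of _ _ _ _ (nX0_diff a h1 h3) ?_
  have h := (((g_lin a.2.1 u.2.1).fun_pow 2).const_sub 1).fun_div
    ((g_lin a.1 u.1).fun_mul (g_lin a.2.2 u.2.2)) (by simpa using ⟨h1, h3⟩)
  refine HasDerivAt.congr_deriv h ?_
  simp

lemma nX1_fd (a u : V) (h3 : a.2.2 ≠ 0) : fderiv ℝ nX1 a u =
    (u.2.1 * a.2.2 - a.2.1 * u.2.2) / a.2.2 ^ 2 := by
  refine fd_of _ _ _ _ (nX1_diff a h3) ?_
  have h := (g_lin a.2.1 u.2.1).fun_div (g_lin a.2.2 u.2.2) (by simpa using h3)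
  refine HasDerivAt.congr_deriv h ?_
  simp

lemma nX2_fd (a u : V) (h1 : a.1 ≠ 0) : fderiv ℝ nX2 a u =
    (u.2.1 * a.1 - a.2.1 * u.1) / a.1 ^ 2 := by
  refine fd_of _ _ _ _ (nX2_diff a h1) ?_
  have h := (g_lin a.2.1 u.2.1).fun_div (g_lin a.1 u.1) (by simpa using h1)
  refine HasDerivAt.congr_deriv h ?_
  simp

theorem nd_N (a b u : V) (d : ℝ) (ha1 : a.1 ≠ 0) (ha2 : a.2.1 ≠ 0) (ha3 : a.2.2 ≠ 0)
    (hb1 : b.1 ≠ 0) (hb2 : b.2.1 ≠ 0) (hb3 : b.2.2 ≠ 0)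
    (h1 : fderiv ℝ nX0 a u + fderiv ℝ nX1 a u * nX2 b + fderiv ℝ nX2 a u * nX1 b = 0)
    (h2 : ∀ e : V, fderiv ℝ nX1 a u * fderiv ℝ nX2 b e + fderiv ℝ nX2 a u * fderiv ℝ nX1 b e +
      d * (fderiv ℝ nX0 b e + nX1 a * fderiv ℝ nX2 b e + nX2 a * fderiv ℝ nX1 b e) = 0) :
    u = 0 ∧ d = 0 := by
  have hd : d = 0 := by
    have h := h2 b
    rw [nX2_fd b b hb1, nX1_fd b b hb3, nX0_fd b b hb1 hb3] at h
    have e1 : (b.2.1 * b.1 - b.2.1 * b.1) / b.1 ^ 2 = 0 := by rw [sub_self, zero_div]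
    have e2 : (b.2.1 * b.2.2 - b.2.1 * b.2.2) / b.2.2 ^ 2 = 0 := by rw [sub_self, zero_div]
    rw [e1, e2] at h
    have e3 : (-(2 * b.2.1 * b.2.1) * (b.1 * b.2.2) - (1 - b.2.1 ^ 2) * (b.1 * b.2.2 + b.1 * b.2.2)) /
      (b.1 * b.2.2) ^ 2 = -2 / (b.1 * b.2.2) := by
      field_simp
      ring
    rw [e3] at h
    simp only [mul_zero, add_zero, zero_add] at h
    rcases mul_eq_zero.1 h with h' | h'
    · exact h'
    · exfalso
      have : b.1 * b.2.2 ≠ 0 := mul_ne_zero hb1 hb3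
      rw [div_eq_zero_iff] at h'
      rcases h' with h' | h'
      · norm_num at h'
      · exact this h'
  subst hd
  have hX1 : fderiv ℝ nX1 a u = 0 := by
    have h := h2 (1, 0, 0)
    rw [nX2_fd b _ hb1, nX1_fd b _ hb3] at h
    simp only [zero_mul, mul_zero, sub_zero, zero_div, add_zero, mul_one, zero_sub] at h
    rcases mul_eq_zero.1 h with h' | h'
    · exact h'
    · exfalso
      rw [div_eq_zero_iff] at h'
      rcases h' with h' | h'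
      · exact hb2 (neg_eq_zero.1 h')
      · exact (pow_ne_zero 2 hb1) h'
  have hX2 : fderiv ℝ nX2 a u = 0 := by
    have h := h2 (0, 0, 1)
    rw [nX2_fd b _ hb1, nX1_fd b _ hb3] at h
    simp only [zero_mul, mul_zero, sub_zero, zero_div, add_zero, mul_one, zero_sub, zero_add] at h
    rcases mul_eq_zero.1 h with h' | h'
    · exact h'
    · exfalso
      rw [div_eq_zero_iff] at h'
      rcases h' with h' | h'
      · exact hb2 (neg_eq_zero.1 h')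
      · exact (pow_ne_zero 2 hb3) h'
  have hX0 : fderiv ℝ nX0 a u = 0 := by
    rw [hX1, hX2] at h1
    simpa using h1
  rw [nX0_fd a u ha1 ha3, div_eq_zero_iff] at hX0
  rw [nX1_fd a u ha3, div_eq_zero_iff] at hX1
  rw [nX2_fd a u ha1, div_eq_zero_iff] at hX2
  have k0 := hX0.resolve_right (pow_ne_zero 2 (mul_ne_zero ha1 ha3))
  have k1 := hX1.resolve_right (pow_ne_zero 2 ha3)
  have k2 := hX2.resolve_right (pow_ne_zero 2 ha1)
  have k3 : a.1 * a.2.2 * u.2.1 = 0 := by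
    have : -(2 * a.2.1 * u.2.1) * (a.1 * a.2.2) * a.2.1 -
      (1 - a.2.1 ^ 2) * (a.2.1 * u.1 * a.2.2 + a.1 * (a.2.1 * u.2.2)) = 0 := by
      linear_combination a.2.1 * k0
    have e1 : a.2.1 * u.1 = u.2.1 * a.1 := by linarith
    have e2 : a.2.1 * u.2.2 = u.2.1 * a.2.2 := by linarith
    rw [e1, e2] at this
    linear_combination (-1 / 2) * this
  have k4 : u.2.1 = 0 := (mul_eq_zero.1 k3).resolve_left (mul_ne_zero ha1 ha3)
  have k5 : u.1 = 0 := by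
    have : a.2.1 * u.1 = 0 := by rw [k4] at k2; linarith
    exact (mul_eq_zero.1 this).resolve_left ha2
  have k6 : u.2.2 = 0 := by
    have : a.2.1 * u.2.2 = 0 := by rw [k4] at k1; linarith
    exact (mul_eq_zero.1 this).resolve_left ha2
  exact ⟨Prod.ext k5 (Prod.ext k4 k6), rfl⟩

/-! ### Case (D) -/

noncomputable def dX1 (a : V) : ℝ := (1 - a.2.1 ^ 2) / (a.2.1 * a.2.2)
noncomputable def dX2 (a : V) : ℝ := a.1 / a.2.2
noncomputable def dY1 (b : V) : ℝ := 2 * b.1 * b.2.2 / (1 - b.2.1 ^ 2)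
noncomputable def dY2 (b : V) : ℝ := 2 * b.2.1 * b.2.2 / (1 - b.2.1 ^ 2)

lemma dX1_diff (a : V) (h2 : a.2.1 ≠ 0) (h3 : a.2.2 ≠ 0) : DifferentiableAt ℝ dX1 a := by
  unfold dX1
  fun_prop (disch := exact (mul_ne_zero h2 h3))

lemma dX2_diff (a : V) (h3 : a.2.2 ≠ 0) : DifferentiableAt ℝ dX2 a := by
  unfold dX2
  fun_prop (disch := exact h3)

lemma dY1_diff (b : V) (h : 1 - b.2.1 ^ 2 ≠ 0) : DifferentiableAt ℝ dY1 b := by
  unfold dY1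
  fun_prop (disch := exact h)

lemma dY2_diff (b : V) (h : 1 - b.2.1 ^ 2 ≠ 0) : DifferentiableAt ℝ dY2 b := by
  unfold dY2
  fun_prop (disch := exact h)

lemma dX1_fd (a u : V) (h2 : a.2.1 ≠ 0) (h3 : a.2.2 ≠ 0) : fderiv ℝ dX1 a u =
    (-(2 * a.2.1 * u.2.1) * (a.2.1 * a.2.2) -
      (1 - a.2.1 ^ 2) * (u.2.1 * a.2.2 + a.2.1 * u.2.2)) / (a.2.1 * a.2.2) ^ 2 := by
  refine fd_of _ _ _ _ (dX1_diff a h2 h3) ?_
  have h := (((g_lin a.2.1 u.2.1).fun_pow 2).const_sub 1).fun_div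
    ((g_lin a.2.1 u.2.1).fun_mul (g_lin a.2.2 u.2.2)) (by simpa using ⟨h2, h3⟩)
  refine HasDerivAt.congr_deriv h ?_
  simp

lemma dX2_fd (a u : V) (h3 : a.2.2 ≠ 0) : fderiv ℝ dX2 a u =
    (u.1 * a.2.2 - a.1 * u.2.2) / a.2.2 ^ 2 := by
  refine fd_of _ _ _ _ (dX2_diff a h3) ?_
  have h := (g_lin a.1 u.1).fun_div (g_lin a.2.2 u.2.2) (by simpa using h3)
  refine HasDerivAt.congr_deriv h ?_
  simp

lemma dY1_fd (b e : V) (h : 1 - b.2.1 ^ 2 ≠ 0) : fderiv ℝ dY1 b e =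
    ((2 * e.1 * b.2.2 + 2 * b.1 * e.2.2) * (1 - b.2.1 ^ 2) +
      2 * b.1 * b.2.2 * (2 * b.2.1 * e.2.1)) / (1 - b.2.1 ^ 2) ^ 2 := by
  refine fd_of _ _ _ _ (dY1_diff b h) ?_
  have h := (((g_lin b.1 e.1).const_mul 2).fun_mul (g_lin b.2.2 e.2.2)).fun_div
    (((g_lin b.2.1 e.2.1).fun_pow 2).const_sub 1) (by simpa using h)
  refine HasDerivAt.congr_deriv h ?_
  simp

lemma dY2_fd (b e : V) (h : 1 - b.2.1 ^ 2 ≠ 0) : fderiv ℝ dY2 b e =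
    ((2 * e.2.1 * b.2.2 + 2 * b.2.1 * e.2.2) * (1 - b.2.1 ^ 2) +
      2 * b.2.1 * b.2.2 * (2 * b.2.1 * e.2.1)) / (1 - b.2.1 ^ 2) ^ 2 := by
  refine fd_of _ _ _ _ (dY2_diff b h) ?_
  have h := (((g_lin b.2.1 e.2.1).const_mul 2).fun_mul (g_lin b.2.2 e.2.2)).fun_div
    (((g_lin b.2.1 e.2.1).fun_pow 2).const_sub 1) (by simpa using h)
  refine HasDerivAt.congr_deriv h ?_
  simp

lemma om0_diff (a : V) (h2 : a.2.1 ≠ 0) :
    DifferentiableAt ℝ (fun a : V => om 0 a.1 a.2.1) a := by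
  unfold om
  fun_prop (disch := simpa using h2)

lemma om0_fd (a u : V) (h2 : a.2.1 ≠ 0) : fderiv ℝ (fun a : V => om 0 a.1 a.2.1) a u =
    2 * (a.2.1 * u.1 - a.1 * u.2.1) / a.2.1 ^ 2 := by
  refine fd_of _ _ _ _ (om0_diff a h2) ?_
  have h := ((g_lin a.1 u.1).fun_mul ((g_lin a.2.1 u.2.1).const_mul 2)).fun_div
    ((g_lin a.2.1 u.2.1).fun_pow 2) (by simpa using h2)
  have e1 : (fun t : ℝ => om 0 (a.1 + t * u.1, a.2.1 + t * u.2.1, a.2.2 + t * u.2.2).1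
      (a.1 + t * u.1, a.2.1 + t * u.2.1, a.2.2 + t * u.2.2).2.1) =
      fun t : ℝ => (a.1 + t * u.1) * (2 * (a.2.1 + t * u.2.1)) / (a.2.1 + t * u.2.1) ^ 2 := by
    funext t
    simp [om]
  rw [e1]
  refine HasDerivAt.congr_deriv h ?_
  simp
  field_simp
  ring

lemma sg0_diff (b : V) (h : 1 - b.2.1 ^ 2 ≠ 0) :
    DifferentiableAt ℝ (fun b : V => sg 0 b.1 b.2.1) b := by
  unfold sg
  fun_prop (disch := simpa using h)

lemma sg0_fd (b e : V) (h : 1 - b.2.1 ^ 2 ≠ 0) : fderiv ℝ (fun b : V => sg 0 b.1 b.2.1) b e =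
    -((2 * b.2.1 * (1 - b.2.1 ^ 2) * e.1 + 2 * b.1 * (1 + b.2.1 ^ 2) * e.2.1) /
      (1 - b.2.1 ^ 2) ^ 2) := by
  refine fd_of _ _ _ _ (sg0_diff b h) ?_
  have h := (((g_lin b.1 e.1).fun_mul ((g_lin b.2.1 e.2.1).const_mul 2)).fun_div
    (((g_lin b.2.1 e.2.1).fun_pow 2).const_sub 1) (by simpa using h)).fun_neg
  have e1 : (fun t : ℝ => sg 0 (b.1 + t * e.1, b.2.1 + t * e.2.1, b.2.2 + t * e.2.2).1
      (b.1 + t * e.1, b.2.1 + t * e.2.1, b.2.2 + t * e.2.2).2.1) =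
      fun t : ℝ => -((b.1 + t * e.1) * (2 * (b.2.1 + t * e.2.1)) /
        (1 - (b.2.1 + t * e.2.1) ^ 2)) := by
    funext t
    simp [sg]
  rw [e1]
  refine HasDerivAt.congr_deriv h ?_
  simp
  ring

theorem nd_D (a b u : V) (ha1 : a.1 ≠ 0) (ha2 : a.2.1 ≠ 0) (ha3 : a.2.2 ≠ 0)
    (hb1 : b.1 ≠ 0) (hb2 : b.2.1 ≠ 0) (hb3 : b.2.2 ≠ 0) (hb : 1 - b.2.1 ^ 2 ≠ 0)
    (h1 : fderiv ℝ (fun a : V => om 0 a.1 a.2.1) a u = 0)
    (h2 : ∀ e : V, fderiv ℝ (fun b : V => sg 0 b.1 b.2.1) b e = 0 →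
      fderiv ℝ dX1 a u * fderiv ℝ dY1 b e + fderiv ℝ dX2 a u * fderiv ℝ dY2 b e = 0) :
    u = 0 := by
  set P := fderiv ℝ dX1 a u with hP
  set Q := fderiv ℝ dX2 a u with hQ
  have i1 : b.1 * P + b.2.1 * Q = 0 := by
    have h := h2 (0, 0, 1) (by rw [sg0_fd b _ hb]; simp)
    rw [dY1_fd b _ hb, dY2_fd b _ hb] at h
    simp only [mul_zero, zero_mul, zero_add, add_zero, mul_one] at h
    field_simp at h
    linear_combination (1 / 2) * h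
  have i2 : -(b.1 * P) * (1 - b.2.1 ^ 2) + b.2.1 * (1 + b.2.1 ^ 2) * Q = 0 := by
    have h := h2 (-(b.1 * (1 + b.2.1 ^ 2)), b.2.1 * (1 - b.2.1 ^ 2), 0)
      (by rw [sg0_fd b _ hb]; simp only; ring)
    rw [dY1_fd b _ hb, dY2_fd b _ hb] at h
    simp only [mul_zero, add_zero] at h
    have e1 : (2 * -(b.1 * (1 + b.2.1 ^ 2)) * b.2.2 * (1 - b.2.1 ^ 2) +
      2 * b.1 * b.2.2 * (2 * b.2.1 * (b.2.1 * (1 - b.2.1 ^ 2)))) / (1 - b.2.1 ^ 2) ^ 2 =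
      -(2 * b.1 * b.2.2) := by
      field_simp
      ring
    have e2 : (2 * (b.2.1 * (1 - b.2.1 ^ 2)) * b.2.2 * (1 - b.2.1 ^ 2) +
      2 * b.2.1 * b.2.2 * (2 * b.2.1 * (b.2.1 * (1 - b.2.1 ^ 2)))) / (1 - b.2.1 ^ 2) ^ 2 =
      2 * b.2.1 * b.2.2 * (1 + b.2.1 ^ 2) / (1 - b.2.1 ^ 2) := by
      field_simp
      ring
    rw [e1, e2] at h
    have h3 : b.2.2 * (-(b.1 * P) * (1 - b.2.1 ^ 2) + b.2.1 * (1 + b.2.1 ^ 2) * Q) = 0 := by
      field_simp at h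
      linear_combination (1 / 2) * h
    exact (mul_eq_zero.1 h3).resolve_left hb3
  have hQ0 : Q = 0 := by
    have : b.2.1 * Q = 0 := by linear_combination (1 / 2) * i2 + (1 / 2) * (1 - b.2.1 ^ 2) * i1
    exact (mul_eq_zero.1 this).resolve_left hb2
  have hP0 : P = 0 := by
    rw [hQ0, mul_zero, add_zero] at i1
    exact (mul_eq_zero.1 i1).resolve_left hb1
  rw [hP, dX1_fd a u ha2 ha3, div_eq_zero_iff] at hP0
  rw [hQ, dX2_fd a u ha3, div_eq_zero_iff] at hQ0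
  rw [om0_fd a u ha2, div_eq_zero_iff] at h1
  have k0 := hP0.resolve_right (pow_ne_zero 2 (mul_ne_zero ha2 ha3))
  have k1 := hQ0.resolve_right (pow_ne_zero 2 ha3)
  have k2 := h1.resolve_right (pow_ne_zero 2 ha2)
  have e1 : a.1 * u.2.1 = a.2.1 * u.1 := by linarith
  have e2 : a.1 * u.2.2 = u.1 * a.2.2 := by linarith
  have k3 : (a.2.1 * a.2.2) * u.1 = 0 := by
    have : -(2 * a.2.1 * (a.1 * u.2.1)) * (a.2.1 * a.2.2) -
      (1 - a.2.1 ^ 2) * ((a.1 * u.2.1) * a.2.2 + a.2.1 * (a.1 * u.2.2)) = 0 := by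
      linear_combination a.1 * k0
    rw [e1, e2] at this
    linear_combination (-1 / 2) * this
  have k4 : u.1 = 0 := (mul_eq_zero.1 k3).resolve_left (mul_ne_zero ha2 ha3)
  rw [k4, mul_zero] at e1
  rw [k4, zero_mul] at e2
  have k5 := (mul_eq_zero.1 e1).resolve_left ha1
  have k6 := (mul_eq_zero.1 e2).resolve_left ha1
  exact Prod.ext k4 (Prod.ext k5 k6)

end Pool.Agent.N1
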