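import Pool.Agent.N1.HL3
import Pool.Agent.N1.AN8
import Pool.Agent.N1.AN9
import Pool.Agent.N1.AN10
import Pool.Agent.N1.AN13

/-!
The local oscillatory estimate, degenerate case (interface statement `HLk`).
-/

namespace Pool.Agent.N1

open MeasureTheory Set Metric Pool.Agent.MP_6cbfb8_an Pool.Agent.MST
open scoped ENNReal Real ContDiff

theorem hl_fd1 {P : Type*} [NormedAddCommGroup P] [NormedSpace ℝ P]
    (f : P × V → ℝ) (hf : ContDiff ℝ ∞ f) (p : P) (a u : V) :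
    fderiv ℝ (fun a => f (p, a)) a u = fderiv ℝ f (p, a) (0, u) := by
  have h1 : HasFDerivAt f (fderiv ℝ f (p, a)) (p, a) :=
    ((hf.differentiable (by simp)) _).hasFDerivAt
  have h2 : HasFDerivAt (fun a : V => ((p, a) : P × V))
      ((0 : V →L[ℝ] P).prod (ContinuousLinearMap.id ℝ V)) a :=
    (hasFDerivAt_const p a).prodMk (hasFDerivAt_id a)
  have h3 := (h1.comp a h2).fderiv
  have h4 : fderiv ℝ (fun a => f (p, a)) a =
      (fderiv ℝ f (p, a)).comp ((0 : V →L[ℝ] P).prod (ContinuousLinearMap.id ℝ V)) := h3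
  rw [h4]
  rfl

theorem hl_fd2 {P : Type*} [NormedAddCommGroup P] [NormedSpace ℝ P]
    (f : P × V × V → ℝ) (hf : ContDiff ℝ ∞ f) (p : P) (a b u : V) :
    fderiv ℝ (fun a => f (p, a, b)) a u = fderiv ℝ f (p, a, b) (0, u, 0) := by
  have h1 : HasFDerivAt f (fderiv ℝ f (p, a, b)) (p, a, b) :=
    ((hf.differentiable (by simp)) _).hasFDerivAt
  have h2 : HasFDerivAt (fun a : V => ((p, a, b) : P × V × V))
      ((0 : V →L[ℝ] P).prod ((ContinuousLinearMap.id ℝ V).prod (0 : V →L[ℝ] V))) a :=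
    (hasFDerivAt_const p a).prodMk ((hasFDerivAt_id a).prodMk (hasFDerivAt_const b a))
  have h3 := (h1.comp a h2).fderiv
  have h4 : fderiv ℝ (fun a => f (p, a, b)) a = (fderiv ℝ f (p, a, b)).comp
      ((0 : V →L[ℝ] P).prod ((ContinuousLinearMap.id ℝ V).prod (0 : V →L[ℝ] V))) := h3
  rw [h4]
  rfl

theorem hl_fd3 {P : Type*} [NormedAddCommGroup P] [NormedSpace ℝ P]
    (f : P × V × V → ℝ) (hf : ContDiff ℝ ∞ f) (p : P) (a b u e : V) :
    fderiv ℝ (fun b => fderiv ℝ f (p, a, b) (0, u, 0)) b e =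
      fderiv ℝ (fderiv ℝ f) (p, a, b) (0, u, 0) (0, 0, e) := by
  have hDf : ContDiff ℝ ∞ (fderiv ℝ f) := hf.fderiv_right (by simp)
  have h1 : HasFDerivAt (fderiv ℝ f) (fderiv ℝ (fderiv ℝ f) (p, a, b)) (p, a, b) :=
    ((hDf.differentiable (by simp)) _).hasFDerivAt
  have h2 : HasFDerivAt (fun b : V => ((p, a, b) : P × V × V))
      ((0 : V →L[ℝ] P).prod ((0 : V →L[ℝ] V).prod (ContinuousLinearMap.id ℝ V))) b :=
    (hasFDerivAt_const p b).prodMk ((hasFDerivAt_const a b).prodMk (hasFDerivAt_id b))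
  have h3 := h1.comp b h2
  have h4 : HasFDerivAt (fun b : V => fderiv ℝ f (p, a, b) (0, u, 0))
      ((ContinuousLinearMap.apply ℝ ℝ ((0, u, 0) : P × V × V)).comp
        ((fderiv ℝ (fderiv ℝ f) (p, a, b)).comp
          ((0 : V →L[ℝ] P).prod ((0 : V →L[ℝ] V).prod (ContinuousLinearMap.id ℝ V))))) b :=
    (ContinuousLinearMap.apply ℝ ℝ ((0, u, 0) : P × V × V)).hasFDerivAt.comp b h3
  rw [h4.fderiv]
  have h5 : IsSymmSndFDerivAt ℝ f (p, a, b) := hf.contDiffAt.isSymmSndFDerivAt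
    (by rw [minSmoothness_of_isRCLikeNormedField]; exact WithTop.coe_le_coe.mpr le_top)
  exact h5.eq (0, 0, e) (0, u, 0)

theorem hl_mem2 {P : Type*} [NormedAddCommGroup P] {p p0 : P} {a a0 : V} {r : ℝ} :
    ((p, a) : P × V) ∈ ball ((p0, a0) : P × V) r ↔ p ∈ ball p0 r ∧ a ∈ ball a0 r := by
  simp only [mem_ball, Prod.dist_eq, max_lt_iff]

theorem HLk {P : Type*} [NormedAddCommGroup P] [NormedSpace ℝ P] [FiniteDimensional ℝ P]
    (w : P × V → ℝ) (σ : P × V → ℝ) (g : P × V × V → ℝ)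
    (c : ℝ × P × V × V → ℝ) (p0 : P) (a0 b0 : V) (r s0 s1 : ℝ)
    (hr : 0 < r) (hs0 : 0 < s0)
    (hw : ContDiffOn ℝ ∞ w (ball (p0, a0) r)) (hσ : ContDiffOn ℝ ∞ σ (ball (p0, b0) r))
    (hg : ContDiffOn ℝ ∞ g (ball (p0, a0, b0) r))
    (hc : ContDiffOn ℝ ∞ c (univ ×ˢ ball (p0, a0, b0) r))
    (hcs : ∀ s, ∀ q ∈ ball (p0, a0, b0) r, c (s, q) ≠ 0 → s0 ≤ |s| ∧ |s| ≤ s1)
    (h1 : fderiv ℝ (fun a => w (p0, a)) a0 (1, 0, 0) ≠ 0)
    (h2 : fderiv ℝ (fun b => σ (p0, b)) b0 (1, 0, 0) ≠ 0)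
    (hnd : ∀ u : V, fderiv ℝ (fun a => w (p0, a)) a0 u = 0 →
      (∀ e : V, fderiv ℝ (fun b => σ (p0, b)) b0 e = 0 →
        fderiv ℝ (fun b => fderiv ℝ (fun a => g (p0, a, b)) a0 u) b0 e = 0) → u = 0) :
    ∃ δ : ℝ, 0 < δ ∧ ∃ C : ℝ, 0 ≤ C ∧ ∀ p ∈ ball p0 δ, ∀ κ lam : ℝ, 0 < κ → κ < δ → 0 < lam →
      ∀ A B : V → ℂ, Measurable A → Measurable B → (∀ a, ‖A a‖ ≤ 1) → (∀ b, ‖B b‖ ≤ 1) →
      (∀ a, A a ≠ 0 → a ∈ ball a0 δ) → (∀ b, B b ≠ 0 → b ∈ ball b0 δ) →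
      ‖∫ q : V × V, A q.1 * B q.2 * ∫ s : ℝ, ((c (s, p, q.1, q.2) : ℝ) : ℂ) *
        ex (lam * (s * (w (p, q.1) - σ (p, q.2) + κ * g (p, q.1, q.2))))‖ ≤ C / (lam ^ 2 * κ) := by
  obtain ⟨wt, hwt, ewt⟩ := ext_smooth w (p0, a0) r hr hw
  obtain ⟨σt, hσt, eσt⟩ := ext_smooth σ (p0, b0) r hr hσ
  obtain ⟨gt, hgt, egt⟩ := ext_smooth g (p0, a0, b0) r hr hg
  obtain ⟨ct, hct, ect, sct⟩ := ext_amp c (p0, a0, b0) r hr hc
  have hs : ∀ s q, ct (s, q) ≠ 0 → s0 ≤ |s| ∧ |s| ≤ s1 :=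
    fun s q h => hcs s q (sct s q h).1 (sct s q h).2
  have hr2 : 0 < r / 2 := by positivity
  have e1 : fderiv ℝ (fun a => wt (p0, a)) a0 = fderiv ℝ (fun a => w (p0, a)) a0 := by
    apply Filter.EventuallyEq.fderiv_eq
    filter_upwards [ball_mem_nhds a0 hr2] with a ha
    exact ewt _ (hl_mem2.2 ⟨mem_ball_self hr2, ha⟩)
  have e2 : fderiv ℝ (fun b => σt (p0, b)) b0 = fderiv ℝ (fun b => σ (p0, b)) b0 := by
    apply Filter.EventuallyEq.fderiv_eq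
    filter_upwards [ball_mem_nhds b0 hr2] with b hb
    exact eσt _ (hl_mem2.2 ⟨mem_ball_self hr2, hb⟩)
  have e3' : ∀ b ∈ ball b0 (r / 2), fderiv ℝ (fun a => gt (p0, a, b)) a0
      = fderiv ℝ (fun a => g (p0, a, b)) a0 := by
    intro b hb
    apply Filter.EventuallyEq.fderiv_eq
    filter_upwards [ball_mem_nhds a0 hr2] with a ha
    exact egt _ (mem_ball3.2 ⟨mem_ball_self hr2, ha, hb⟩)
  have e3 : ∀ u : V, fderiv ℝ (fun b => fderiv ℝ (fun a => gt (p0, a, b)) a0 u) b0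
      = fderiv ℝ (fun b => fderiv ℝ (fun a => g (p0, a, b)) a0 u) b0 := by
    intro u
    apply Filter.EventuallyEq.fderiv_eq
    filter_upwards [ball_mem_nhds b0 hr2] with b hb
    rw [e3' b hb]
  have e4 : ∀ u e : V, fderiv ℝ (fderiv ℝ gt) (p0, a0, b0) (0, u, 0) (0, 0, e) =
      fderiv ℝ (fun b => fderiv ℝ (fun a => g (p0, a, b)) a0 u) b0 e := by
    intro u e
    rw [← e3 u, ← hl_fd3 gt hgt]
    have h5 : (fun b => fderiv ℝ (fun a => gt (p0, a, b)) a0 u) =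
        fun b => fderiv ℝ gt (p0, a0, b) (0, u, 0) := by
      funext b
      exact hl_fd2 gt hgt p0 a0 b u
    rw [h5]
  obtain ⟨δ₀, c₀, C₁, hδ₀, hc₀, hC₁, hD⟩ := HL_geo wt σt gt p0 a0 b0 s0 s1 hs0 hwt hσt hgt
    (by rw [← hl_fd1 wt hwt, e1]; exact h1) (by rw [← hl_fd1 σt hσt, e2]; exact h2)
    (by
      intro u hu hu2
      refine hnd u ?_ (fun e he => ?_)
      · rw [← e1, hl_fd1 wt hwt]
        exact hu
      · rw [← e4]
        refine hu2 e ?_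
        rw [← hl_fd1 σt hσt, e2]
        exact he)
  set δ₁ := min δ₀ (r / 2) with hδ₁
  have hδ₁0 : 0 < δ₁ := lt_min hδ₀ hr2
  have hδ₁δ : δ₁ ≤ δ₀ := min_le_left _ _
  obtain ⟨φ, C₂, hC₂, hA⟩ := ampl ct hct s0 s1 hs p0 a0 b0 δ₁ δ₁ hδ₁0
  obtain ⟨Cb, hCb, hb⟩ := bil c₀ (max C₁ C₂) δ₁ s0 s1 hc₀ hδ₁0
  obtain ⟨Cv, hCv, hv⟩ := vol_HL a0 δ₁ c₀ hc₀
  refine ⟨δ₁ / 2, by positivity, Real.sqrt (Cb * Cv), Real.sqrt_nonneg _, ?_⟩
  intro p hp κ lam hκ hκδ hlam A B mA mB bA bB sA sB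
  have hp1 : p ∈ ball p0 δ₁ := ball_subset_ball (by linarith) hp
  have hp0 : p ∈ ball p0 δ₀ := ball_subset_ball hδ₁δ hp1
  obtain ⟨hDich, hmono⟩ := hD p hp0 κ hκ (by linarith)
  have key := hb (fun a b => wt (p, a) - σt (p, b) + κ * gt (p, a, b))
    (fun a a' => |wt (p, a) - wt (p, a')| + κ * ‖a - a'‖) a0 b0 δ₁
    (fun s a b => ct (s, p, a, b)) φ ((hDich δ₁ δ₁ hδ₁δ hδ₁δ).mono (le_max_left _ _))
    ((hA p hp1).mono (le_max_right _ _)) lam hlam A B mA mB bA bB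
    (fun a ha => ball_subset_ball (by linarith) (sA a ha)) sB
  have hle : δ₁ / 2 ≤ r / 2 := by
    have := min_le_right δ₀ (r / 2)
    linarith
  have heq : ∫ q : V × V, A q.1 * B q.2 * ∫ s : ℝ, ((c (s, p, q.1, q.2) : ℝ) : ℂ) *
        ex (lam * (s * (w (p, q.1) - σ (p, q.2) + κ * g (p, q.1, q.2))))
      = ∫ q : V × V, A q.1 * B q.2 * kk lam (fun s a b => ct (s, p, a, b))
        (fun a b => wt (p, a) - σt (p, b) + κ * gt (p, a, b)) q.1 q.2 := by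
    apply integral_congr_ae
    filter_upwards with q
    by_cases h1 : A q.1 = 0
    · simp [h1]
    by_cases h2 : B q.2 = 0
    · simp [h2]
    have hpr : p ∈ ball p0 (r / 2) := ball_subset_ball hle hp
    have har : q.1 ∈ ball a0 (r / 2) := ball_subset_ball hle (sA _ h1)
    have hbr : q.2 ∈ ball b0 (r / 2) := ball_subset_ball hle (sB _ h2)
    have hq : ((p, q.1, q.2) : P × V × V) ∈ ball ((p0, a0, b0) : P × V × V) (r / 2) :=
      mem_ball3.2 ⟨hpr, har, hbr⟩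
    unfold kk
    congr 1
    apply integral_congr_ae
    filter_upwards with s
    rw [ect s _ hq, egt _ hq, ewt _ (hl_mem2.2 ⟨hpr, har⟩), eσt _ (hl_mem2.2 ⟨hpr, hbr⟩)]
  rw [heq]
  have hwp : ContDiff ℝ ∞ (fun a : V => wt (p, a)) := hwt.comp (by fun_prop)
  have hv' := hv (fun a => wt (p, a)) lam κ hwp hlam hκ
    (fun a ha => hmono a (closedBall_subset_closedBall hδ₁δ ha))
  have h3 : ‖∫ q : V × V, A q.1 * B q.2 * kk lam (fun s a b => ct (s, p, a, b))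
        (fun a b => wt (p, a) - σt (p, b) + κ * gt (p, a, b)) q.1 q.2‖ ^ 2 ≤
        (Cb * Cv) / (lam ^ 2 * κ) ^ 2 := by
    refine key.trans ?_
    calc Cb / lam * ∫ a in ball a0 δ₁, ∫ a' in ball a0 δ₁,
          1 / (1 + lam * (|wt (p, a) - wt (p, a')| + κ * ‖a - a'‖)) ^ 6
        ≤ Cb / lam * (Cv / (lam ^ 3 * κ ^ 2)) := mul_le_mul_of_nonneg_left hv' (by positivity)
      _ = (Cb * Cv) / (lam ^ 2 * κ) ^ 2 := by
        field_simp
  have h4 := Real.abs_le_sqrt h3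
  rw [abs_of_nonneg (norm_nonneg _), Real.sqrt_div' _ (by positivity),
    Real.sqrt_sq (by positivity)] at h4
  exact h4

end Pool.Agent.N1
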