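import Pool.Agent.N1.GD
import Pool.Agent.N1.GF
import Pool.Agent.N1.AN13
import Pool.Agent.N1.HL4

/-!
N1, block G: Proposition N.
-/

namespace Pool.Agent.N1

open MeasureTheory Set Metric Pool.Agent.MP_6cbfb8_an Pool.Agent.MST
open scoped ENNReal Real ContDiff Topology

/-- From a local property to a ball. -/
lemma g_ball {Q : Type*} [PseudoMetricSpace Q] {x : Q} {p : Q → Prop} (h : ∀ᶠ y in 𝓝 x, p y) :
    ∃ r : ℝ, 0 < r ∧ ∀ y ∈ ball x r, p y := by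
  obtain ⟨r, hr, h1⟩ := Metric.eventually_nhds_iff_ball.1 h
  exact ⟨r, hr, h1⟩

/-- The amplitude in scaled variables. -/
noncomputable def amN (c : ℝ) (Ef : (ℝ × ℝ) × V × V → ℝ) (x : ℝ × (ℝ × ℝ) × V × V) : ℝ :=
  Wr c (Sc x.2.1.1 x.2.1.2 x.2.2.1) (Sc x.2.1.1 x.2.1.2 x.2.2.2) *
    (chi (x.1 / Ef x.2) / |Ef x.2|)

lemma amN_smooth (c : ℝ) (hc : 0 < c) (Ef : (ℝ × ℝ) × V × V → ℝ) (S : Set ((ℝ × ℝ) × V × V))
    (hE : ContDiffOn ℝ ∞ Ef S) (hE0 : ∀ x ∈ S, Ef x ≠ 0) :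
    ContDiffOn ℝ ∞ (amN c Ef) (univ ×ˢ S) := by
  have h1 : ContDiffOn ℝ ∞ (fun x : ℝ × (ℝ × ℝ) × V × V => Ef x.2) (univ ×ˢ S) :=
    hE.comp contDiff_snd.contDiffOn (fun x hx => hx.2)
  have h2 : ContDiff ℝ ∞ (fun x : ℝ × (ℝ × ℝ) × V × V =>
      Wr c (Sc x.2.1.1 x.2.1.2 x.2.2.1) (Sc x.2.1.1 x.2.1.2 x.2.2.2)) := by
    have h3 := (Wr_smooth c hc).comp (f := fun x : ℝ × (ℝ × ℝ) × V × V =>
      (((x.2.1.1 * x.2.2.1.1, x.2.2.1.2.1, x.2.1.2 * x.2.2.1.2.2) : V),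
        ((x.2.1.1 * x.2.2.2.1, x.2.2.2.2.1, x.2.1.2 * x.2.2.2.2.2) : V))) (by fun_prop)
    exact h3
  have h4 : ContDiffOn ℝ ∞ (fun x : ℝ × (ℝ × ℝ) × V × V => chi (x.1 / Ef x.2)) (univ ×ˢ S) :=
    chi_smooth.comp_contDiffOn (contDiff_fst.contDiffOn.div h1 (fun x hx => hE0 _ hx.2))
  have h5 : ContDiffOn ℝ ∞ (fun x : ℝ × (ℝ × ℝ) × V × V => |Ef x.2|) (univ ×ˢ S) := by
    intro x hx
    exact (contDiffAt_abs (hE0 _ hx.2)).comp_contDiffWithinAt x (h1 x hx)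
  exact h2.contDiffOn.mul (h4.div h5 (fun x hx => abs_ne_zero.2 (hE0 _ hx.2)))

lemma amN_supp (c : ℝ) (Ef : (ℝ × ℝ) × V × V → ℝ) (e0 e1 s : ℝ) (q : (ℝ × ℝ) × V × V)
    (he0 : 0 < e0) (h0 : e0 ≤ |Ef q|) (h1 : |Ef q| ≤ e1) (h : amN c Ef (s, q) ≠ 0) :
    e0 / 2 ≤ |s| ∧ |s| ≤ 3 * e1 := by
  have hchi : chi (s / Ef q) ≠ 0 := by
    intro h2
    apply h
    unfold amN
    simp only
    rw [h2, zero_div, mul_zero]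
  obtain ⟨g1, g2⟩ := chi_zero _ hchi
  have hE : 0 < |Ef q| := lt_of_lt_of_le he0 h0
  have h3 : |s| = |s / Ef q| * |Ef q| := by
    rw [abs_div]
    field_simp
  have h4 : |s / Ef q| = s / Ef q := abs_of_nonneg (by linarith)
  rw [h4] at h3
  rw [h3]
  constructor
  · nlinarith
  · nlinarith

/-- The factor `E` of case (N). -/
noncomputable def EN (c : ℝ) (x : (ℝ × ℝ) × V × V) : ℝ :=
  -(x.2.1.1 * x.2.2.1 * (x.2.1.2.2 * x.2.2.2.2)) / qf c x.2.1.2.1 x.2.2.2.1 ^ 3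

/-- The point at which the divided phase is evaluated. -/
noncomputable def ptN (x : (ℝ × ℝ) × V × V) : ℝ × (ℝ × V × V) :=
  (x.1.2, (x.1.1, ((x.2.1.1, x.2.1.2.1 - x.1.2 * x.2.1.2.2 / 2, x.2.1.2.2) : V),
    ((x.2.2.1, x.2.2.2.1 - x.1.2 * x.2.2.2.2 / 2, x.2.2.2.2) : V)))

lemma ptN_smooth : ContDiff ℝ ∞ ptN := by
  unfold ptN
  fun_prop

lemma Fr_Sc (c : ℝ) (G : ℝ × (ℝ × V × V) → ℝ)
    (key : ∀ γ ρ a b, Ph c ρ γ a b = ρ * γ * G (γ, (ρ, a, b))) (ρ γ : ℝ) (a b : V) :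
    Fr c (Sc ρ γ a) (Sc ρ γ b) = ρ * γ * G (ptN ((ρ, γ), a, b)) := by
  unfold ptN
  simp only
  rw [← key]
  unfold Ph Sc
  simp only
  rw [show a.2.1 - γ * a.2.2 / 2 + γ * a.2.2 / 2 = a.2.1 by ring,
    show b.2.1 - γ * b.2.2 / 2 + γ * b.2.2 / 2 = b.2.1 by ring]

/-- The limit of the divided phase in case (N). -/
lemma G0_N (c : ℝ) (hc : 0 < c) (a b : V) (ha1 : a.1 ≠ 0) (ha2 : 0 < a.2.1) (ha3 : a.2.2 ≠ 0)
    (hb1 : b.1 ≠ 0) (hb2 : 0 < b.2.1) (hb3 : b.2.2 ≠ 0)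
    (h : c ^ 2 / 8 < 1 - a.2.1 ^ 2 - b.2.1 ^ 2) :
    G0 c 0 a b / EN c ((0, 0), a, b) =
      nX0 a + nX0 b + nX1 a * nX2 b + nX2 a * nX1 b := by
  have p1 := qf_pos c hc _ _ h.le
  have q1 := qf_sq c hc _ _ h.le
  have hc8 : 0 < c ^ 2 / 8 := by positivity
  have n1 : 1 - b.2.1 ^ 2 ≠ 0 := by nlinarith [sq_nonneg a.2.1]
  have n2 : 1 - a.2.1 ^ 2 ≠ 0 := by nlinarith [sq_nonneg b.2.1]
  have ha2' := ha2.ne'
  have hb2' := hb2.ne'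
  unfold G0 EN el om sg nX0 nX1 nX2
  simp only [zero_mul, sub_zero]
  rw [qf_comm c b.2.1 a.2.1]
  set Q := qf c a.2.1 b.2.1 with hQ
  field_simp
  ring

end Pool.Agent.N1
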