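import Pool.Agent.N1.GN2

/-!
N1, block G: Proposition D, definitions and smoothness.
-/

namespace Pool.Agent.N1

open MeasureTheory Set Metric Pool.Agent.MP_6cbfb8_an Pool.Agent.MST
open scoped ENNReal Real ContDiff Topology

/-- Parameters `(ρ, γ, κ, ε)`. -/
abbrev P4 : Type := ℝ × ℝ × ℝ × ℝ

noncomputable def aD (p : P4) (a : V) : V := (a.1, a.2.1 - p.2.1 * a.2.2 / 2, a.2.2)
noncomputable def bD (p : P4) (b : V) : V :=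
  (b.1, b.2.1 - p.2.1 * (p.2.2.1 * b.2.2) / 2, p.2.2.1 * b.2.2)

/-- The point at which the divided phase is evaluated. -/
noncomputable def ptD (x : P4 × V × V) : ℝ × (ℝ × V × V) :=
  (x.1.2.1, (x.1.1, (aD x.1 x.2.1, bD x.1 x.2.2)))

noncomputable def el1 (c : ℝ) (x : P4 × V × V) : ℝ :=
  el c x.1.1 (aD x.1 x.2.1).1 (aD x.1 x.2.1).2.1 (bD x.1 x.2.2).1 (bD x.1 x.2.2).2.1

noncomputable def el2 (c : ℝ) (x : P4 × V × V) : ℝ :=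
  el c x.1.1 (bD x.1 x.2.2).1 (bD x.1 x.2.2).2.1 (aD x.1 x.2.1).1 (aD x.1 x.2.1).2.1

noncomputable def wD (x : P4 × V) : ℝ := om x.1.1 (aD x.1 x.2).1 (aD x.1 x.2).2.1
noncomputable def sD (x : P4 × V) : ℝ := sg x.1.1 (bD x.1 x.2).1 (bD x.1 x.2).2.1

/-- The function `N'`. -/
noncomputable def Nd (x : P4 × V × V) : ℝ :=
  om x.1.1 (bD x.1 x.2.2).1 (bD x.1 x.2.2).2.1 - sg x.1.1 (aD x.1 x.2.1).1 (aD x.1 x.2.1).2.1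

noncomputable def ED (c : ℝ) (x : P4 × V × V) : ℝ := -(x.2.1.2.2 * el1 c x)

noncomputable def gD (c : ℝ) (k : ℝ × (ℝ × V × V) → ℝ) (x : P4 × V × V) : ℝ :=
  x.2.2.2.2 * (el2 c x * Nd x) / (x.2.1.2.2 * el1 c x) -
    x.1.2.2.2 * k (ptD x) / (x.2.1.2.2 * el1 c x)

/-- Good points in case (D). -/
def okD (c : ℝ) (x : P4 × V × V) : Prop :=
  Gd c x.1.1 (aD x.1 x.2.1) (bD x.1 x.2.2) ∧ x.2.1.2.2 ≠ 0

lemma okD_ev (c : ℝ) (x : P4 × V × V) (h : okD c x) : ∀ᶠ y in 𝓝 x, okD c y := by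
  obtain ⟨⟨h1, h2, h3, h4, h5, h6⟩, h7⟩ := h
  simp only [aD, bD] at h1 h2 h3 h4 h5 h6
  have e1 : ∀ᶠ y : P4 × V × V in 𝓝 x, 0 < y.2.1.2.1 - y.1.2.1 * y.2.1.2.2 / 2 :=
    (by fun_prop : ContinuousAt (fun y : P4 × V × V => y.2.1.2.1 - y.1.2.1 * y.2.1.2.2 / 2)
      x).eventually (lt_mem_nhds h1)
  have e2 : ∀ᶠ y : P4 × V × V in 𝓝 x, 0 < y.2.1.2.1 - y.1.2.1 * y.2.1.2.2 / 2 -
      y.1.1 * y.2.1.1 :=
    (by fun_prop : ContinuousAt (fun y : P4 × V × V => y.2.1.2.1 - y.1.2.1 * y.2.1.2.2 / 2 -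
      y.1.1 * y.2.1.1) x).eventually (lt_mem_nhds h2)
  have e3 : ∀ᶠ y : P4 × V × V in 𝓝 x, 0 < y.2.2.2.1 - y.1.2.1 * (y.1.2.2.1 * y.2.2.2.2) / 2 :=
    (by fun_prop : ContinuousAt (fun y : P4 × V × V => y.2.2.2.1 -
      y.1.2.1 * (y.1.2.2.1 * y.2.2.2.2) / 2) x).eventually (lt_mem_nhds h3)
  have e4 : ∀ᶠ y : P4 × V × V in 𝓝 x, 0 < y.2.2.2.1 - y.1.2.1 * (y.1.2.2.1 * y.2.2.2.2) / 2 -
      y.1.1 * y.2.2.1 :=
    (by fun_prop : ContinuousAt (fun y : P4 × V × V => y.2.2.2.1 -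
      y.1.2.1 * (y.1.2.2.1 * y.2.2.2.2) / 2 - y.1.1 * y.2.2.1) x).eventually (lt_mem_nhds h4)
  have e5 : ∀ᶠ y : P4 × V × V in 𝓝 x, c ^ 2 / 8 <
      1 - (y.2.1.2.1 - y.1.2.1 * y.2.1.2.2 / 2) ^ 2 -
        (y.2.2.2.1 - y.1.2.1 * (y.1.2.2.1 * y.2.2.2.2) / 2) ^ 2 :=
    (by fun_prop : ContinuousAt (fun y : P4 × V × V =>
      1 - (y.2.1.2.1 - y.1.2.1 * y.2.1.2.2 / 2) ^ 2 -
        (y.2.2.2.1 - y.1.2.1 * (y.1.2.2.1 * y.2.2.2.2) / 2) ^ 2) x).eventually (lt_mem_nhds h5)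
  have e6 : ∀ᶠ y : P4 × V × V in 𝓝 x, c ^ 2 / 8 <
      1 - (y.2.1.2.1 - y.1.2.1 * y.2.1.2.2 / 2 - y.1.1 * y.2.1.1) ^ 2 -
        (y.2.2.2.1 - y.1.2.1 * (y.1.2.2.1 * y.2.2.2.2) / 2 - y.1.1 * y.2.2.1) ^ 2 :=
    (by fun_prop : ContinuousAt (fun y : P4 × V × V =>
      1 - (y.2.1.2.1 - y.1.2.1 * y.2.1.2.2 / 2 - y.1.1 * y.2.1.1) ^ 2 -
        (y.2.2.2.1 - y.1.2.1 * (y.1.2.2.1 * y.2.2.2.2) / 2 - y.1.1 * y.2.2.1) ^ 2)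
      x).eventually (lt_mem_nhds h6)
  have e7 : ∀ᶠ y : P4 × V × V in 𝓝 x, y.2.1.2.2 ≠ 0 :=
    (by fun_prop : ContinuousAt (fun y : P4 × V × V => y.2.1.2.2) x).eventually_ne h7
  filter_upwards [e1, e2, e3, e4, e5, e6, e7] with y d1 d2 d3 d4 d5 d6 d7
  exact ⟨⟨d1, d2, d3, d4, d5, d6⟩, d7⟩

/-- Smoothness of the coefficient `ℓ`, in any variables. -/
lemma el_smooth {Q : Type*} [NormedAddCommGroup Q] [NormedSpace ℝ Q] (c : ℝ) (hc : 0 < c)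
    {f1 f2 f3 f4 f5 : Q → ℝ} (h1 : ContDiff ℝ ∞ f1) (h2 : ContDiff ℝ ∞ f2) (h3 : ContDiff ℝ ∞ f3)
    (h4 : ContDiff ℝ ∞ f4) (h5 : ContDiff ℝ ∞ f5) (x : Q) (g1 : 0 < f3 x)
    (g2 : 0 < f3 x - f1 x * f2 x) (g5 : c ^ 2 / 8 < 1 - f3 x ^ 2 - f5 x ^ 2)
    (g6 : c ^ 2 / 8 < 1 - (f3 x - f1 x * f2 x) ^ 2 - (f5 x - f1 x * f4 x) ^ 2) :
    ContDiffAt ℝ ∞ (fun x => el c (f1 x) (f2 x) (f3 x) (f4 x) (f5 x)) x ∧
      el c (f1 x) (f2 x) (f3 x) (f4 x) (f5 x) ≠ 0 := by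
  have p1 := qf_pos c hc _ _ g5.le
  have p2 := qf_pos c hc _ _ g6.le
  have hc8 : 0 < c ^ 2 / 8 := by positivity
  have hb1 : 0 < 1 - (f5 x - f1 x * f4 x) ^ 2 := by nlinarith [sq_nonneg (f3 x - f1 x * f2 x)]
  have s1 := qf_comp c hc h3 h5
  have s2 := qf_comp c hc (h3.sub (h1.mul h2)) (h5.sub (h1.mul h4))
  constructor
  · unfold el
    have hn : ContDiffAt ℝ ∞ (fun x => (f3 x - f1 x * f2 x) ^ 2 *
        (1 - (f5 x - f1 x * f4 x) ^ 2)) x := by fun_prop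
    have hd : ContDiff ℝ ∞ (fun x => qf c (f3 x) (f5 x) *
        qf c (f3 x - f1 x * f2 x) (f5 x - f1 x * f4 x) *
        (f3 x * qf c (f3 x - f1 x * f2 x) (f5 x - f1 x * f4 x) +
          (f3 x - f1 x * f2 x) * qf c (f3 x) (f5 x))) :=
      (s1.mul s2).mul ((h3.mul s2).add ((h3.sub (h1.mul h2)).mul s1))
    refine hn.div hd.contDiffAt ?_
    positivity
  · unfold el
    positivity

lemma om_smooth {Q : Type*} [NormedAddCommGroup Q] [NormedSpace ℝ Q]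
    {f1 f2 f3 : Q → ℝ} (h1 : ContDiff ℝ ∞ f1) (h2 : ContDiff ℝ ∞ f2) (h3 : ContDiff ℝ ∞ f3)
    (x : Q) (g2 : 0 < f3 x - f1 x * f2 x) :
    ContDiffAt ℝ ∞ (fun x => om (f1 x) (f2 x) (f3 x)) x := by
  have hn : ContDiffAt ℝ ∞ (fun x => f2 x * (2 * f3 x - f1 x * f2 x)) x := by fun_prop
  have hd : ContDiffAt ℝ ∞ (fun x => (f3 x - f1 x * f2 x) ^ 2) x := by fun_prop
  exact hn.div hd (pow_pos g2 2).ne'

lemma sg_smooth {Q : Type*} [NormedAddCommGroup Q] [NormedSpace ℝ Q]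
    {f1 f2 f3 : Q → ℝ} (h1 : ContDiff ℝ ∞ f1) (h2 : ContDiff ℝ ∞ f2) (h3 : ContDiff ℝ ∞ f3)
    (x : Q) (g2 : 0 < 1 - (f3 x - f1 x * f2 x) ^ 2) :
    ContDiffAt ℝ ∞ (fun x => sg (f1 x) (f2 x) (f3 x)) x := by
  have hn : ContDiffAt ℝ ∞ (fun x => f2 x * (2 * f3 x - f1 x * f2 x)) x := by fun_prop
  have hd : ContDiffAt ℝ ∞ (fun x => 1 - (f3 x - f1 x * f2 x) ^ 2) x := by fun_prop
  exact (hn.div hd g2.ne').neg

lemma el1_smooth (c : ℝ) (hc : 0 < c) (x : P4 × V × V) (h : okD c x) :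
    ContDiffAt ℝ ∞ (el1 c) x ∧ el1 c x ≠ 0 := by
  obtain ⟨⟨h1, h2, h3, h4, h5, h6⟩, h7⟩ := h
  exact el_smooth c hc (f1 := fun x : P4 × V × V => x.1.1)
    (f2 := fun x : P4 × V × V => (aD x.1 x.2.1).1) (f3 := fun x : P4 × V × V => (aD x.1 x.2.1).2.1)
    (f4 := fun x : P4 × V × V => (bD x.1 x.2.2).1) (f5 := fun x : P4 × V × V => (bD x.1 x.2.2).2.1)
    (by fun_prop) (by unfold aD; fun_prop) (by unfold aD; fun_prop) (by unfold bD; fun_prop)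
    (by unfold bD; fun_prop) x h1 h2 h5 h6

lemma el2_smooth (c : ℝ) (hc : 0 < c) (x : P4 × V × V) (h : okD c x) :
    ContDiffAt ℝ ∞ (el2 c) x := by
  obtain ⟨⟨h1, h2, h3, h4, h5, h6⟩, h7⟩ := h
  exact (el_smooth c hc (f1 := fun x : P4 × V × V => x.1.1)
    (f2 := fun x : P4 × V × V => (bD x.1 x.2.2).1) (f3 := fun x : P4 × V × V => (bD x.1 x.2.2).2.1)
    (f4 := fun x : P4 × V × V => (aD x.1 x.2.1).1) (f5 := fun x : P4 × V × V => (aD x.1 x.2.1).2.1)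
    (by fun_prop) (by unfold bD; fun_prop) (by unfold bD; fun_prop) (by unfold aD; fun_prop)
    (by unfold aD; fun_prop) x h3 h4 (by linarith) (by linarith)).1

lemma okD_pos (c : ℝ) (hc : 0 < c) (x : P4 × V × V) (h : okD c x) :
    0 < 1 - ((bD x.1 x.2.2).2.1 - x.1.1 * (bD x.1 x.2.2).1) ^ 2 ∧
      0 < 1 - ((aD x.1 x.2.1).2.1 - x.1.1 * (aD x.1 x.2.1).1) ^ 2 := by
  obtain ⟨⟨h1, h2, h3, h4, h5, h6⟩, h7⟩ := h
  have hc8 : 0 < c ^ 2 / 8 := by positivity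
  constructor
  · nlinarith [sq_nonneg ((aD x.1 x.2.1).2.1 - x.1.1 * (aD x.1 x.2.1).1)]
  · nlinarith [sq_nonneg ((bD x.1 x.2.2).2.1 - x.1.1 * (bD x.1 x.2.2).1)]

lemma Nd_smooth (c : ℝ) (hc : 0 < c) (x : P4 × V × V) (h : okD c x) :
    ContDiffAt ℝ ∞ Nd x := by
  have hp := okD_pos c hc x h
  obtain ⟨⟨h1, h2, h3, h4, h5, h6⟩, h7⟩ := h
  unfold Nd
  exact (om_smooth (f1 := fun x : P4 × V × V => x.1.1)
    (f2 := fun x : P4 × V × V => (bD x.1 x.2.2).1) (f3 := fun x : P4 × V × V => (bD x.1 x.2.2).2.1)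
    (by fun_prop) (by unfold bD; fun_prop) (by unfold bD; fun_prop) x h4).sub
    (sg_smooth (f1 := fun x : P4 × V × V => x.1.1)
    (f2 := fun x : P4 × V × V => (aD x.1 x.2.1).1) (f3 := fun x : P4 × V × V => (aD x.1 x.2.1).2.1)
    (by fun_prop) (by unfold aD; fun_prop) (by unfold aD; fun_prop) x hp.2)

lemma ptD_smooth : ContDiff ℝ ∞ ptD := by
  unfold ptD aD bD
  fun_prop

lemma ED_smooth (c : ℝ) (hc : 0 < c) (x : P4 × V × V) (h : okD c x) :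
    ContDiffAt ℝ ∞ (ED c) x ∧ ED c x ≠ 0 := by
  have h1 := el1_smooth c hc x h
  unfold ED
  exact ⟨((by fun_prop : ContDiffAt ℝ ∞ (fun x : P4 × V × V => x.2.1.2.2) x).mul h1.1).neg,
    neg_ne_zero.2 (mul_ne_zero h.2 h1.2)⟩

lemma gD_smooth (c : ℝ) (hc : 0 < c) (k : ℝ × (ℝ × V × V) → ℝ) (hk : ContDiff ℝ ∞ k)
    (x : P4 × V × V) (h : okD c x) : ContDiffAt ℝ ∞ (gD c k) x := by
  have h1 := el1_smooth c hc x h
  have h2 := el2_smooth c hc x h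
  have h3 := Nd_smooth c hc x h
  have h4 : ContDiffAt ℝ ∞ (fun x : P4 × V × V => x.2.1.2.2 * el1 c x) x :=
    (by fun_prop : ContDiffAt ℝ ∞ (fun x : P4 × V × V => x.2.1.2.2) x).mul h1.1
  have h5 : x.2.1.2.2 * el1 c x ≠ 0 := mul_ne_zero h.2 h1.2
  unfold gD
  refine ContDiffAt.sub (ContDiffAt.div ?_ h4 h5) (ContDiffAt.div ?_ h4 h5)
  · exact (by fun_prop : ContDiffAt ℝ ∞ (fun x : P4 × V × V => x.2.2.2.2) x).mul (h2.mul h3)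
  · exact (by fun_prop : ContDiffAt ℝ ∞ (fun x : P4 × V × V => x.1.2.2.2) x).mul
      (hk.comp ptD_smooth).contDiffAt

/-- The factorisation of the divided phase. -/
lemma G_fac (c : ℝ) (hc : 0 < c) (G k : ℝ × (ℝ × V × V) → ℝ) (hG : ContDiff ℝ ∞ G)
    (key : ∀ γ ρ a b, Ph c ρ γ a b = ρ * γ * G (γ, (ρ, a, b)))
    (hk : ∀ γ ρ a b, G (γ, (ρ, a, b)) = G (0, (ρ, a, b)) + γ ^ 2 * k (γ, (ρ, a, b)))
    (x : P4 × V × V) (h : okD c x) (hp : x.1.2.2.1 * x.1.2.2.2 = x.1.2.1 ^ 2) :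
    G (ptD x) = ED c x * (wD (x.1, x.2.1) - sD (x.1, x.2.2) + x.1.2.2.1 * gD c k x) := by
  have h1 := el1_smooth c hc x h
  have h2 := h.2
  unfold ptD
  rw [hk, G_zero c hc G hG key x.1.1 _ _ h.1]
  have e1 := h1.2
  unfold gD ED G0 wD sD Nd ptD
  unfold el1 at e1
  unfold el1 el2
  set L1 := el c x.1.1 (aD x.1 x.2.1).1 (aD x.1 x.2.1).2.1 (bD x.1 x.2.2).1 (bD x.1 x.2.2).2.1
  set L2 := el c x.1.1 (bD x.1 x.2.2).1 (bD x.1 x.2.2).2.1 (aD x.1 x.2.1).1 (aD x.1 x.2.1).2.1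
  set K := k (x.1.2.1, x.1.1, aD x.1 x.2.1, bD x.1 x.2.2)
  rw [← hp]
  have e2 : (aD x.1 x.2.1).2.2 = x.2.1.2.2 := rfl
  have e3 : (bD x.1 x.2.2).2.2 = x.1.2.2.1 * x.2.2.2.2 := rfl
  rw [e2, e3]
  field_simp
  ring

lemma Fr_ScD (c : ℝ) (G : ℝ × (ℝ × V × V) → ℝ)
    (key : ∀ γ ρ a b, Ph c ρ γ a b = ρ * γ * G (γ, (ρ, a, b))) (ρ γ κ ε : ℝ) (a b : V) :
    Fr c (Sc ρ γ a) (Sc ρ (κ * γ) b) = ρ * γ * G (ptD ((ρ, γ, κ, ε), a, b)) := by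
  unfold ptD
  simp only
  rw [← key]
  unfold Ph Sc aD bD
  simp only
  rw [show a.2.1 - γ * a.2.2 / 2 + γ * a.2.2 / 2 = a.2.1 by ring,
    show b.2.1 - γ * (κ * b.2.2) / 2 + γ * (κ * b.2.2) / 2 = b.2.1 by ring,
    show γ * (κ * b.2.2) = κ * γ * b.2.2 by ring]

/-- The limit of `g`. -/
lemma gD_zero (c : ℝ) (hc : 0 < c) (k : ℝ × (ℝ × V × V) → ℝ) (a b : V) (ha2 : 0 < a.2.1)
    (ha3 : a.2.2 ≠ 0) (hb2 : 0 < b.2.1) (h : c ^ 2 / 8 < 1 - a.2.1 ^ 2 - b.2.1 ^ 2) :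
    gD c k (((0, 0, 0, 0) : P4), a, b) = (0 + 0 + dX1 a * dY1 b + dX2 a * dY2 b) := by
  have p1 := qf_pos c hc _ _ h.le
  have hc8 : 0 < c ^ 2 / 8 := by positivity
  have n1 : 1 - b.2.1 ^ 2 ≠ 0 := by nlinarith [sq_nonneg a.2.1]
  have n2 : 1 - a.2.1 ^ 2 ≠ 0 := by nlinarith [sq_nonneg b.2.1]
  have ha2' := ha2.ne'
  have hb2' := hb2.ne'
  unfold gD el1 el2 Nd el om sg dX1 dX2 dY1 dY2 aD bD
  simp only [zero_mul, sub_zero, zero_div, zero_add, mul_zero]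
  rw [qf_comm c b.2.1 a.2.1]
  set Q := qf c a.2.1 b.2.1 with hQ
  field_simp
  ring

end Pool.Agent.N1
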