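import Pool.Agent.N1.AN0

/-!
Block AN, degenerate case: preliminaries for the geometry of the phase
`w (p, a) - σ (p, b) + κ g (p, a, b)`.
-/

namespace Pool.Agent.N1

open MeasureTheory Set Metric Pool.Agent.MST
open scoped ContDiff

theorem hl_strict {X Y : Type*} [NormedAddCommGroup X] [NormedSpace ℝ X] [NormedAddCommGroup Y]
    [NormedSpace ℝ Y] (f : X → Y) (f' : X →L[ℝ] Y) (x0 : X) (hf : HasStrictFDerivAt f f' x0)
    (ε : ℝ) (hε : 0 < ε) : ∃ r : ℝ, 0 < r ∧ ∀ x ∈ ball x0 r, ∀ y ∈ ball x0 r,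
      ‖f x - f y - f' (x - y)‖ ≤ ε * ‖x - y‖ := by
  have h := hf.isLittleO.def hε
  obtain ⟨r, hr, hb⟩ := Metric.eventually_nhds_iff_ball.mp h
  refine ⟨r, hr, fun x hx y hy => hb (x, y) ?_⟩
  rw [← ball_prod_same]
  exact ⟨hx, hy⟩

theorem hl_cont {X Y : Type*} [SeminormedAddCommGroup X] [SeminormedAddCommGroup Y] (f : X → Y)
    (x0 : X) (hf : ContinuousAt f x0) (ε : ℝ) (hε : 0 < ε) :
    ∃ r : ℝ, 0 < r ∧ ∀ x ∈ ball x0 r, ‖f x - f x0‖ ≤ ε := by
  obtain ⟨r, hr, hb⟩ := Metric.continuousAt_iff.mp hf ε hε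
  exact ⟨r, hr, fun x hx => by rw [← dist_eq_norm]; exact (hb hx).le⟩

theorem hl_alg (wl θ : V →L[ℝ] ℝ) (β : V →L[ℝ] V →L[ℝ] ℝ)
    (h : ∀ u, wl u = 0 → (∀ e, θ e = 0 → β u e = 0) → u = 0) :
    ∃ η c : ℝ, 0 < η ∧ 0 < c ∧ ∀ v, |wl v| ≤ η * ‖v‖ →
      ∃ e, ‖e‖ ≤ 1 ∧ θ e = 0 ∧ c * ‖v‖ ≤ |β v e| := by
  let S : Submodule ℝ V := LinearMap.ker θ.toLinearMap
  let L : V →L[ℝ] ℝ × (S →L[ℝ] ℝ) := wl.prod ((ContinuousLinearMap.precomp ℝ S.subtypeL) ∘L β)
  have hL : ∀ v, L v = (wl v, (β v) ∘L S.subtypeL) := fun v => rfl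
  have hker : LinearMap.ker L.toLinearMap = ⊥ := by
    rw [LinearMap.ker_eq_bot']
    intro v hv
    have hv' : L v = 0 := hv
    rw [hL, Prod.mk_eq_zero] at hv'
    refine h v hv'.1 (fun e he => ?_)
    have h3 := congrArg (fun f : S →L[ℝ] ℝ => f ⟨e, he⟩) hv'.2
    simpa using h3
  obtain ⟨K, hK, hanti⟩ :=
    LinearMap.exists_antilipschitzWith (𝕜 := ℝ) (E := V) (F := ℝ × (S →L[ℝ] ℝ)) L.toLinearMap hker
  have hK' : (0 : ℝ) < K := hK
  have hb : ∀ v, ‖v‖ ≤ K * ‖L v‖ := by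
    intro v
    have h0 := hanti.le_mul_dist v 0
    have h1 : dist (L.toLinearMap v) (L.toLinearMap 0) = ‖L v‖ := by
      rw [map_zero]
      exact dist_zero_right (L v)
    rw [h1, dist_zero_right] at h0
    exact h0
  refine ⟨1 / (2 * K), 1 / (2 * K), by positivity, by positivity, fun v hv => ?_⟩
  by_cases hv0 : v = 0
  · exact ⟨0, by simp, by simp, by simp [hv0]⟩
  · have hvp : 0 < ‖v‖ := norm_pos_iff.mpr hv0
    have h1 := hb v
    rw [hL, Prod.norm_def] at h1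
    have h2 : ‖v‖ / K ≤ max ‖wl v‖ ‖(β v) ∘L S.subtypeL‖ := by
      rw [div_le_iff₀ hK', mul_comm]
      exact h1
    have h3 : ‖wl v‖ < ‖v‖ / K := by
      rw [Real.norm_eq_abs]
      refine hv.trans_lt ?_
      rw [div_mul_eq_mul_div, one_mul, div_lt_div_iff₀ (by positivity) hK']
      nlinarith
    have h4 : ‖v‖ / K ≤ ‖(β v) ∘L S.subtypeL‖ := by
      rcases le_max_iff.mp h2 with h5 | h5
      · exact absurd h5 (not_le.mpr h3)
      · exact h5
    have h5 : 1 / (2 * K) * ‖v‖ < ‖(β v) ∘L S.subtypeL‖ := by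
      refine lt_of_lt_of_le ?_ h4
      rw [div_mul_eq_mul_div, one_mul, div_lt_div_iff₀ (by positivity) hK']
      nlinarith
    obtain ⟨x, hx1, hx2⟩ := ContinuousLinearMap.exists_lt_apply_of_lt_opNorm _ h5
    refine ⟨(x : V), hx1.le, x.2, ?_⟩
    have h6 : ‖((β v) ∘L S.subtypeL) x‖ = |β v (x : V)| := by
      rw [Real.norm_eq_abs]
      rfl
    rw [← h6]
    exact hx2.le

theorem hl_dirH {P : Type*} [NormedAddCommGroup P] [NormedSpace ℝ P]
    (f : P × V × V → ℝ) (hf : ContDiff ℝ ∞ f) (j : ℕ) :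
    ∃ H : V × P × V × V → ℝ, ContDiff ℝ ∞ H ∧ ∀ (e : V) (p : P) (a b : V),
      iteratedDeriv j (fun t : ℝ => f (p, a, b + t • e)) 0 = H (e, p, a, b) := by
  let Ψ : ℝ × V × P × V × V → ℝ := fun z => f (z.2.2.1, z.2.2.2.1, z.2.2.2.2 + z.1 • z.2.1)
  have hΨ : ContDiff ℝ ∞ Ψ := hf.comp (by fun_prop)
  have hn : ∀ n : ℕ, ContDiff ℝ n Ψ := fun n => hΨ.of_le (by exact_mod_cast le_top)
  refine ⟨fun q => hitD ((1, 0) : ℝ × V × P × V × V) Ψ j (0, q), ?_, ?_⟩
  · have h1 : ContDiff ℝ ∞ (hitD ((1, 0) : ℝ × V × P × V × V) Ψ j) := by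
      rw [contDiff_infty]
      exact hit_smooth _ _ hn j
    exact h1.comp (contDiff_const.prodMk contDiff_id)
  · intro e p a b
    have h1 := hit_formula ((1, 0) : ℝ × V × P × V × V) Ψ hn j (0, (e, p, a, b)) 0
    have h2 : ∀ τ : ℝ, Ψ (((0, (e, p, a, b)) : ℝ × V × P × V × V) +
        τ • ((1, 0) : ℝ × V × P × V × V)) = f (p, a, b + τ • e) := by
      intro τ
      simp [Ψ]
    simp only [h2] at h1
    simpa using h1

theorem hl_bounds {P : Type*} [NormedAddCommGroup P] [NormedSpace ℝ P] [FiniteDimensional ℝ P]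
    (f : P × V × V → ℝ) (hf : ContDiff ℝ ∞ f) (p0 : P) (a0 b0 : V) (R : ℝ) :
    ∃ L : ℝ, 0 ≤ L ∧ ∀ j ≤ 9, ∀ e : V, ‖e‖ ≤ 1 → ∀ p ∈ closedBall p0 R, ∀ a ∈ closedBall a0 R,
      ∀ a' ∈ closedBall a0 R, ∀ b ∈ closedBall b0 R,
      |iteratedDeriv j (fun t : ℝ => f (p, a, b + t • e)) 0| ≤ L ∧
      |iteratedDeriv j (fun t : ℝ => f (p, a, b + t • e)) 0 -
        iteratedDeriv j (fun t : ℝ => f (p, a', b + t • e)) 0| ≤ L * ‖a - a'‖ := by
  have hP : ProperSpace P := FiniteDimensional.proper_real P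
  let K : Set (V × P × V × V) :=
    closedBall 0 1 ×ˢ (closedBall p0 R ×ˢ (closedBall a0 R ×ˢ closedBall b0 R))
  have hK : IsCompact K := (isCompact_closedBall _ _).prod ((isCompact_closedBall _ _).prod
    ((isCompact_closedBall _ _).prod (isCompact_closedBall _ _)))
  have hKc : Convex ℝ K := (convex_closedBall _ _).prod ((convex_closedBall _ _).prod
    ((convex_closedBall _ _).prod (convex_closedBall _ _)))
  choose H hH hHe using hl_dirH f hf
  have hb1 : ∀ j, ∃ C : ℝ, ∀ q ∈ K, ‖H j q‖ ≤ C := fun j =>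
    hK.exists_bound_of_continuousOn (hH j).continuous.continuousOn
  have hb2 : ∀ j, ∃ C : ℝ, ∀ q ∈ K, ‖fderiv ℝ (H j) q‖ ≤ C := fun j =>
    hK.exists_bound_of_continuousOn ((hH j).continuous_fderiv (by simp)).continuousOn
  choose C1 hC1 using hb1
  choose C2 hC2 using hb2
  refine ⟨∑ j ∈ Finset.range 10, (|C1 j| + |C2 j|), Finset.sum_nonneg fun _ _ => by positivity, ?_⟩
  intro j hj e he p hp a ha a' ha' b hb
  have hle : |C1 j| + |C2 j| ≤ ∑ j ∈ Finset.range 10, (|C1 j| + |C2 j|) :=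
    Finset.single_le_sum (f := fun j => |C1 j| + |C2 j|) (fun _ _ => by positivity)
      (Finset.mem_range.mpr (by omega))
  have he' : e ∈ closedBall (0 : V) 1 := by simpa using he
  have hq : (e, p, a, b) ∈ K := ⟨he', hp, ha, hb⟩
  have hq' : (e, p, a', b) ∈ K := ⟨he', hp, ha', hb⟩
  rw [hHe, hHe]
  constructor
  · have h1 := hC1 j _ hq
    rw [Real.norm_eq_abs] at h1
    have h2 := le_abs_self (C1 j)
    have h3 := abs_nonneg (C2 j)
    linarith
  · have h1 := hKc.norm_image_sub_le_of_norm_fderiv_le (𝕜 := ℝ) (f := H j) (C := C2 j)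
      (fun x _ => ((hH j).differentiable (by simp)) x) (fun x hx => hC2 j x hx) hq' hq
    rw [Real.norm_eq_abs] at h1
    have h2 : ((e, p, a, b) : V × P × V × V) - (e, p, a', b) = (0, 0, a - a', 0) := by
      simp
    have h3 : ‖((0, 0, a - a', 0) : V × P × V × V)‖ = ‖a - a'‖ := by
      simp [Prod.norm_def]
    rw [h2, h3] at h1
    refine h1.trans (mul_le_mul_of_nonneg_right ?_ (norm_nonneg _))
    have h4 := le_abs_self (C2 j)
    have h5 := abs_nonneg (C1 j)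
    linarith

theorem hl_iter (f1 f2 f3 : ℝ → ℝ) (h1 : ContDiff ℝ ∞ f1) (h2 : ContDiff ℝ ∞ f2)
    (h3 : ContDiff ℝ ∞ f3) (s s' W W' κ : ℝ) (j : ℕ) (hj : 1 ≤ j) :
    iteratedDeriv j (fun t => s * (W - f1 t + κ * f2 t) - s' * (W' - f1 t + κ * f3 t)) 0 =
      (s - s') * (-iteratedDeriv j f1 0 + κ * iteratedDeriv j f3 0) +
        s * κ * (iteratedDeriv j f2 0 - iteratedDeriv j f3 0) := by
  have g1 : ContDiffAt ℝ j f1 0 := (h1.of_le (by exact_mod_cast le_top)).contDiffAt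
  have g2 : ContDiffAt ℝ j f2 0 := (h2.of_le (by exact_mod_cast le_top)).contDiffAt
  have g3 : ContDiffAt ℝ j f3 0 := (h3.of_le (by exact_mod_cast le_top)).contDiffAt
  have e : (fun t => s * (W - f1 t + κ * f2 t) - s' * (W' - f1 t + κ * f3 t)) =
      fun t => (s * W - s' * W') + ((s - s') * (-f1 t + κ * f3 t) + s * κ * (f2 t - f3 t)) := by
    funext t
    ring
  have k1 : ContDiffAt ℝ j (fun t => -f1 t + κ * f3 t) 0 := g1.neg.add (contDiffAt_const.mul g3)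
  have k2 : ContDiffAt ℝ j (fun t => f2 t - f3 t) 0 := g2.sub g3
  rw [e, iteratedDeriv_const_add (by omega), iteratedDeriv_fun_add (contDiffAt_const.mul k1)
    (contDiffAt_const.mul k2), iteratedDeriv_const_mul_field, iteratedDeriv_const_mul_field,
    iteratedDeriv_fun_add g1.neg (contDiffAt_const.mul g3), iteratedDeriv_fun_neg,
    iteratedDeriv_const_mul_field, iteratedDeriv_fun_sub g2 g3]

theorem hl_dir1 {P : Type*} [NormedAddCommGroup P] [NormedSpace ℝ P]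
    (f : P × V × V → ℝ) (hf : ContDiff ℝ ∞ f) (p : P) (a b e : V) :
    iteratedDeriv 1 (fun t : ℝ => f (p, a, b + t • e)) 0 = fderiv ℝ f (p, a, b) (0, 0, e) := by
  rw [iteratedDeriv_one]
  have h1 : HasFDerivAt f (fderiv ℝ f (p, a, b)) (p, a, b + (0 : ℝ) • e) := by
    simp only [zero_smul, add_zero]
    exact ((hf.differentiable (by simp)) _).hasFDerivAt
  have h2 : HasDerivAt (fun t : ℝ => ((p, a, b + t • e) : P × V × V)) (0, 0, e) 0 := by
    have h3 : HasDerivAt (fun t : ℝ => b + t • e) e 0 := by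
      have h4 : HasDerivAt (fun t : ℝ => t • e) ((1 : ℝ) • e) 0 := (hasDerivAt_id 0).smul_const e
      rw [one_smul] at h4
      exact h4.const_add b
    exact (hasDerivAt_const _ _).prodMk ((hasDerivAt_const _ _).prodMk h3)
  exact (h1.comp_hasDerivAt (0 : ℝ) h2).deriv

theorem hl_dir2 {P : Type*} [NormedAddCommGroup P] [NormedSpace ℝ P]
    (f : P × V → ℝ) (hf : ContDiff ℝ ∞ f) (p : P) (b e : V) :
    iteratedDeriv 1 (fun t : ℝ => f (p, b + t • e)) 0 = fderiv ℝ f (p, b) (0, e) := by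
  rw [iteratedDeriv_one]
  have h1 : HasFDerivAt f (fderiv ℝ f (p, b)) (p, b + (0 : ℝ) • e) := by
    simp only [zero_smul, add_zero]
    exact ((hf.differentiable (by simp)) _).hasFDerivAt
  have h2 : HasDerivAt (fun t : ℝ => ((p, b + t • e) : P × V)) (0, e) 0 := by
    have h3 : HasDerivAt (fun t : ℝ => b + t • e) e 0 := by
      have h4 : HasDerivAt (fun t : ℝ => t • e) ((1 : ℝ) • e) 0 := (hasDerivAt_id 0).smul_const e
      rw [one_smul] at h4
      exact h4.const_add b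
    exact (hasDerivAt_const _ _).prodMk h3
  exact (h1.comp_hasDerivAt (0 : ℝ) h2).deriv

end Pool.Agent.N1
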