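import Pool.Agent.N1.HL1

/-!
Block AN, degenerate case: the geometry of the phase `w (p, a) - σ (p, b) + κ g (p, a, b)`.
-/

namespace Pool.Agent.N1

open MeasureTheory Set Metric Pool.Agent.MST
open scoped ContDiff

theorem hl_pick (r1 r2 r3 r4 M L η ε σ1 : ℝ) (h1 : 0 < r1) (h2 : 0 < r2) (h3 : 0 < r3)
    (h4 : 0 < r4) (hM : 0 < M) (hL : 0 < L) (hη : 0 < η) (hε : 0 < ε) (hσ : 0 < σ1) :
    ∃ δ : ℝ, 0 < δ ∧ 4 * δ ≤ 1 ∧ 4 * δ ≤ r1 ∧ 4 * δ ≤ r2 ∧ 4 * δ ≤ r3 ∧ 4 * δ ≤ r4 ∧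
      M * δ ≤ η / 2 ∧ L * δ ≤ ε ∧ L * δ ≤ σ1 / 4 := by
  refine ⟨min (1 / 4) (min (r1 / 4) (min (r2 / 4) (min (r3 / 4) (min (r4 / 4)
    (min (η / 2 / M) (min (ε / L) (σ1 / 4 / L))))))), ?_, ?_, ?_, ?_, ?_, ?_, ?_, ?_, ?_⟩
  · refine lt_min (by norm_num) (lt_min ?_ (lt_min ?_ (lt_min ?_ (lt_min ?_ (lt_min ?_
      (lt_min ?_ ?_)))))) <;> positivity
  · have := min_le_left (1 / 4 : ℝ) (min (r1 / 4) (min (r2 / 4) (min (r3 / 4) (min (r4 / 4)
      (min (η / 2 / M) (min (ε / L) (σ1 / 4 / L)))))))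
    linarith
  · have h : min (1 / 4) (min (r1 / 4) (min (r2 / 4) (min (r3 / 4) (min (r4 / 4)
      (min (η / 2 / M) (min (ε / L) (σ1 / 4 / L))))))) ≤ r1 / 4 := by
      refine (min_le_right _ _).trans (min_le_left _ _)
    linarith
  · have h : min (1 / 4) (min (r1 / 4) (min (r2 / 4) (min (r3 / 4) (min (r4 / 4)
      (min (η / 2 / M) (min (ε / L) (σ1 / 4 / L))))))) ≤ r2 / 4 := by
      refine (min_le_right _ _).trans ((min_le_right _ _).trans (min_le_left _ _))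
    linarith
  · have h : min (1 / 4) (min (r1 / 4) (min (r2 / 4) (min (r3 / 4) (min (r4 / 4)
      (min (η / 2 / M) (min (ε / L) (σ1 / 4 / L))))))) ≤ r3 / 4 := by
      refine (min_le_right _ _).trans ((min_le_right _ _).trans ((min_le_right _ _).trans
        (min_le_left _ _)))
    linarith
  · have h : min (1 / 4) (min (r1 / 4) (min (r2 / 4) (min (r3 / 4) (min (r4 / 4)
      (min (η / 2 / M) (min (ε / L) (σ1 / 4 / L))))))) ≤ r4 / 4 := by
      refine (min_le_right _ _).trans ((min_le_right _ _).trans ((min_le_right _ _).trans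
        ((min_le_right _ _).trans (min_le_left _ _))))
    linarith
  · have h : min (1 / 4) (min (r1 / 4) (min (r2 / 4) (min (r3 / 4) (min (r4 / 4)
      (min (η / 2 / M) (min (ε / L) (σ1 / 4 / L))))))) ≤ η / 2 / M := by
      refine (min_le_right _ _).trans ((min_le_right _ _).trans ((min_le_right _ _).trans
        ((min_le_right _ _).trans ((min_le_right _ _).trans (min_le_left _ _)))))
    calc _ ≤ M * (η / 2 / M) := mul_le_mul_of_nonneg_left h hM.le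
      _ = η / 2 := by field_simp
  · have h : min (1 / 4) (min (r1 / 4) (min (r2 / 4) (min (r3 / 4) (min (r4 / 4)
      (min (η / 2 / M) (min (ε / L) (σ1 / 4 / L))))))) ≤ ε / L := by
      refine (min_le_right _ _).trans ((min_le_right _ _).trans ((min_le_right _ _).trans
        ((min_le_right _ _).trans ((min_le_right _ _).trans ((min_le_right _ _).trans
        (min_le_left _ _))))))
    calc _ ≤ L * (ε / L) := mul_le_mul_of_nonneg_left h hL.le
      _ = ε := by field_simp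
  · have h : min (1 / 4) (min (r1 / 4) (min (r2 / 4) (min (r3 / 4) (min (r4 / 4)
      (min (η / 2 / M) (min (ε / L) (σ1 / 4 / L))))))) ≤ σ1 / 4 / L := by
      refine (min_le_right _ _).trans ((min_le_right _ _).trans ((min_le_right _ _).trans
        ((min_le_right _ _).trans ((min_le_right _ _).trans ((min_le_right _ _).trans
        (min_le_right _ _))))))
    calc _ ≤ L * (σ1 / 4 / L) := mul_le_mul_of_nonneg_left h hL.le
      _ = σ1 / 4 := by field_simp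

theorem hl_pick2 (M C2 σ1 w1 q : ℝ) (hM : 0 < M) (hC : 0 < C2) (hσ : 0 < σ1) (hw : 0 < w1)
    (hq : 0 < q) : ∃ c : ℝ, 0 < c ∧ c ≤ 1 / 3 ∧ c * (M + 2) ≤ σ1 / 4 ∧ c * (C2 + M + 1) ≤ q ∧
      c ≤ σ1 / 2 ∧ c ≤ w1 / 2 := by
  refine ⟨min (1 / 3) (min (σ1 / 4 / (M + 2)) (min (q / (C2 + M + 1)) (min (σ1 / 2) (w1 / 2)))),
    ?_, ?_, ?_, ?_, ?_, ?_⟩
  · refine lt_min (by norm_num) (lt_min ?_ (lt_min ?_ (lt_min ?_ ?_))) <;> positivity
  · exact min_le_left _ _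
  · have h : min (1 / 3) (min (σ1 / 4 / (M + 2)) (min (q / (C2 + M + 1))
      (min (σ1 / 2) (w1 / 2)))) ≤ σ1 / 4 / (M + 2) := (min_le_right _ _).trans (min_le_left _ _)
    calc _ ≤ σ1 / 4 / (M + 2) * (M + 2) := mul_le_mul_of_nonneg_right h (by positivity)
      _ = σ1 / 4 := by field_simp
  · have h : min (1 / 3) (min (σ1 / 4 / (M + 2)) (min (q / (C2 + M + 1))
      (min (σ1 / 2) (w1 / 2)))) ≤ q / (C2 + M + 1) :=
      (min_le_right _ _).trans ((min_le_right _ _).trans (min_le_left _ _))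
    calc _ ≤ q / (C2 + M + 1) * (C2 + M + 1) := mul_le_mul_of_nonneg_right h (by positivity)
      _ = q := by field_simp
  · exact (min_le_right _ _).trans ((min_le_right _ _).trans ((min_le_right _ _).trans
      (min_le_left _ _)))
  · exact (min_le_right _ _).trans ((min_le_right _ _).trans ((min_le_right _ _).trans
      (min_le_right _ _)))

/-- Case 2a. -/
theorem hl_num1 (d X Y Z s κ u L S σ1 C2 M W c : ℝ) (hκ : 0 < κ) (hu : 0 ≤ u) (hL : 0 < L)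
    (hs : |s| ≤ S) (hS : 0 < S) (hσ : 0 < σ1) (hX : 3 * σ1 / 4 ≤ |X|) (hY : κ * |Y| ≤ σ1 / 4)
    (hZ : |Z| ≤ L * u) (hC2 : C2 * (κ * u) ≤ |d|) (hC2a : S * L ≤ σ1 / 4 * C2) (hC21 : 1 ≤ C2)
    (hW : |W| ≤ M * (κ * u)) (hc : 0 < c) (hM : 0 < M) (hcM : c * (M + 2) ≤ σ1 / 4) :
    c * (|d| + (|W| + κ * u)) ≤ |d * (-X + κ * Y) + s * κ * Z| := by
  have hku : 0 ≤ κ * u := by positivity
  have h1 : σ1 / 2 ≤ |-X + κ * Y| := by
    have h2 : |X| - |κ * Y| ≤ |-X + κ * Y| := by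
      have h3 := abs_sub_abs_le_abs_sub (-X) (-(κ * Y))
      rw [abs_neg, abs_neg, sub_neg_eq_add] at h3
      exact h3
    rw [abs_mul, abs_of_pos hκ] at h2
    linarith
  have h4 : |s * κ * Z| ≤ S * L * (κ * u) := by
    rw [abs_mul, abs_mul, abs_of_pos hκ]
    calc |s| * κ * |Z| ≤ S * κ * (L * u) := by gcongr
      _ = S * L * (κ * u) := by ring
  have h5 : S * L * (κ * u) ≤ σ1 / 4 * |d| := by
    calc S * L * (κ * u) ≤ σ1 / 4 * C2 * (κ * u) := mul_le_mul_of_nonneg_right hC2a hku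
      _ = σ1 / 4 * (C2 * (κ * u)) := by ring
      _ ≤ σ1 / 4 * |d| := mul_le_mul_of_nonneg_left hC2 (by positivity)
  have h6 : |d| * (σ1 / 2) ≤ |d * (-X + κ * Y)| := by
    rw [abs_mul]
    exact mul_le_mul_of_nonneg_left h1 (abs_nonneg _)
  have h7 : |d * (-X + κ * Y)| - |s * κ * Z| ≤ |d * (-X + κ * Y) + s * κ * Z| := by
    have h3 := abs_sub_abs_le_abs_sub (d * (-X + κ * Y)) (-(s * κ * Z))
    rw [abs_neg, sub_neg_eq_add] at h3
    exact h3
  have h8 : κ * u ≤ |d| := by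
    calc κ * u = 1 * (κ * u) := by ring
      _ ≤ C2 * (κ * u) := mul_le_mul_of_nonneg_right hC21 hku
      _ ≤ |d| := hC2
  have h9 : c * (|d| + (|W| + κ * u)) ≤ c * (M + 2) * |d| := by
    have h10 : |d| + (|W| + κ * u) ≤ (M + 2) * |d| := by
      have h11 : M * (κ * u) ≤ M * |d| := mul_le_mul_of_nonneg_left h8 hM.le
      linarith
    calc c * (|d| + (|W| + κ * u)) ≤ c * ((M + 2) * |d|) := mul_le_mul_of_nonneg_left h10 hc.le
      _ = c * (M + 2) * |d| := by ring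
  have h12 : c * (M + 2) * |d| ≤ σ1 / 4 * |d| := mul_le_mul_of_nonneg_right hcM (abs_nonneg _)
  linarith

/-- Case 2b. -/
theorem hl_num2 (d X Y Z B s κ u s0 c3 ε C2 M W c : ℝ) (hκ : 0 < κ) (hu : 0 ≤ u)
    (hs : s0 ≤ |s|) (hs0 : 0 < s0) (hε : 0 < ε) (hC2p : 0 < C2) (hX : |X| ≤ ε)
    (hY : κ * |Y| ≤ ε) (hZ : |Z - B| ≤ ε * u) (hB : c3 * u ≤ |B|) (hd : |d| ≤ C2 * (κ * u))
    (hεc : ε * (s0 + 2 * C2) ≤ s0 * c3 / 2)
    (hW : |W| ≤ M * (κ * u)) (hc : 0 < c) (hcM : c * (C2 + M + 1) ≤ s0 * c3 / 2) :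
    c * (|d| + (|W| + κ * u)) ≤ |d * (-X + κ * Y) + s * κ * Z| := by
  have hku : 0 ≤ κ * u := by positivity
  have h1 : |-X + κ * Y| ≤ 2 * ε := by
    have h2 := abs_add_le (-X) (κ * Y)
    rw [abs_neg, abs_mul, abs_of_pos hκ] at h2
    linarith
  have h2 : |d * (-X + κ * Y)| ≤ C2 * (κ * u) * (2 * ε) := by
    rw [abs_mul]
    exact mul_le_mul hd h1 (abs_nonneg _) (by positivity)
  have hεc3 : ε ≤ c3 := by
    have h3 : ε * s0 ≤ s0 * c3 / 2 := by nlinarith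
    have h4 : 0 < s0 * c3 := by nlinarith [mul_pos hε hs0]
    nlinarith
  have h3 : (c3 - ε) * u ≤ |Z| := by
    have h4 := abs_sub_abs_le_abs_sub B (B - Z)
    rw [sub_sub_cancel, abs_sub_comm B Z] at h4
    linarith
  have h4 : s0 * κ * ((c3 - ε) * u) ≤ |s * κ * Z| := by
    rw [abs_mul, abs_mul, abs_of_pos hκ]
    have h5 : 0 ≤ (c3 - ε) * u := mul_nonneg (by linarith) hu
    exact mul_le_mul (mul_le_mul_of_nonneg_right hs hκ.le) h3 h5 (by positivity)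
  have h5 : |s * κ * Z| - |d * (-X + κ * Y)| ≤ |d * (-X + κ * Y) + s * κ * Z| := by
    have h6 := abs_sub_abs_le_abs_sub (s * κ * Z) (-(d * (-X + κ * Y)))
    rw [abs_neg, sub_neg_eq_add, add_comm (s * κ * Z)] at h6
    exact h6
  have h6 : c * (|d| + (|W| + κ * u)) ≤ c * (C2 + M + 1) * (κ * u) := by
    have h7 : |d| + (|W| + κ * u) ≤ (C2 + M + 1) * (κ * u) := by linarith
    calc c * (|d| + (|W| + κ * u)) ≤ c * ((C2 + M + 1) * (κ * u)) :=
          mul_le_mul_of_nonneg_left h7 hc.le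
      _ = c * (C2 + M + 1) * (κ * u) := by ring
  have h8 : c * (C2 + M + 1) * (κ * u) ≤ s0 * c3 / 2 * (κ * u) :=
    mul_le_mul_of_nonneg_right hcM hku
  have h9 : ε * (s0 + 2 * C2) * (κ * u) ≤ s0 * c3 / 2 * (κ * u) :=
    mul_le_mul_of_nonneg_right hεc hku
  have h10 : s0 * κ * ((c3 - ε) * u) - C2 * (κ * u) * (2 * ε) =
      s0 * c3 * (κ * u) - ε * (s0 + 2 * C2) * (κ * u) := by ring
  linarith

end Pool.Agent.N1
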