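import Pool.Agent.N1.HL2

/-!
Block AN, degenerate case: the geometry of the phase `w (p, a) - σ (p, b) + κ g (p, a, b)`.
-/

namespace Pool.Agent.N1

open MeasureTheory Set Metric Pool.Agent.MST
open scoped ContDiff

theorem hl_inA {P : Type*} [NormedAddCommGroup P] (p p0 : P) (a a0 : V) (r δ : ℝ)
    (hp : p ∈ ball p0 δ) (ha : a ∈ ball a0 δ) (h : δ ≤ r) : (p, a) ∈ ball (p0, a0) r := by
  rw [← ball_prod_same]
  exact ⟨ball_subset_ball h hp, ball_subset_ball h ha⟩

theorem hl_inB {P : Type*} [NormedAddCommGroup P] (p p0 : P) (b b0 : V) (r δ ρ : ℝ) (hδ : 0 < δ)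
    (hp : p ∈ ball p0 δ) (hb : b ∈ closedBall b0 (3 * ρ)) (hρ : ρ ≤ δ) (h : 4 * δ ≤ r) :
    (p, b) ∈ ball (p0, b0) r := by
  rw [← ball_prod_same]
  exact ⟨ball_subset_ball (by linarith) hp, closedBall_subset_ball (by linarith) hb⟩

theorem hl_inC {P : Type*} [NormedAddCommGroup P] (p p0 : P) (a a0 b b0 : V) (r δ ρ : ℝ)
    (hδ : 0 < δ) (hp : p ∈ ball p0 δ) (ha : a ∈ ball a0 δ) (hb : b ∈ closedBall b0 (3 * ρ))
    (hρ : ρ ≤ δ) (h : 4 * δ ≤ r) : (p, a, b) ∈ ball (p0, a0, b0) r := by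
  rw [← ball_prod_same, ← ball_prod_same]
  exact ⟨ball_subset_ball (by linarith) hp, ball_subset_ball (by linarith) ha,
    closedBall_subset_ball (by linarith) hb⟩

theorem HL_geo {P : Type*} [NormedAddCommGroup P] [NormedSpace ℝ P] [FiniteDimensional ℝ P]
    (w : P × V → ℝ) (σ : P × V → ℝ) (g : P × V × V → ℝ) (p0 : P) (a0 b0 : V) (s0 s1 : ℝ)
    (hs0 : 0 < s0) (hw : ContDiff ℝ ∞ w) (hσ : ContDiff ℝ ∞ σ) (hg : ContDiff ℝ ∞ g)
    (h1 : fderiv ℝ w (p0, a0) (0, (1, 0, 0)) ≠ 0)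
    (h2 : fderiv ℝ σ (p0, b0) (0, (1, 0, 0)) ≠ 0)
    (hnd : ∀ u : V, fderiv ℝ w (p0, a0) (0, u) = 0 →
      (∀ e : V, fderiv ℝ σ (p0, b0) (0, e) = 0 →
        fderiv ℝ (fderiv ℝ g) (p0, a0, b0) (0, u, 0) (0, 0, e) = 0) → u = 0) :
    ∃ δ0 c0 C0 : ℝ, 0 < δ0 ∧ 0 < c0 ∧ 0 ≤ C0 ∧ ∀ p ∈ ball p0 δ0, ∀ κ : ℝ, 0 < κ → κ < δ0 →
      (∀ δ ρ : ℝ, δ ≤ δ0 → ρ ≤ δ0 →
        Dich (fun a b => w (p, a) - σ (p, b) + κ * g (p, a, b))
          (fun a a' => |w (p, a) - w (p, a')| + κ * ‖a - a'‖) (ball a0 δ) b0 ρ c0 C0 s0 s1) ∧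
      (∀ a ∈ closedBall a0 δ0, c0 ≤ |deriv (fun x : ℝ => w (p, (x, a.2))) a.1|) := by
  set e1 : V := (1, 0, 0) with he1
  have he1n : ‖e1‖ ≤ 1 := by simp [he1, Prod.norm_def]
  have hVn : ∀ e : V, ‖((0, e) : P × V)‖ = ‖e‖ := fun e => by simp [Prod.norm_def]
  have hVVa : ∀ e : V, ‖((0, e, 0) : P × V × V)‖ = ‖e‖ := fun e => by simp [Prod.norm_def]
  have hVVb : ∀ e : V, ‖((0, 0, e) : P × V × V)‖ = ‖e‖ := fun e => by simp [Prod.norm_def]
  set σ1 : ℝ := |fderiv ℝ σ (p0, b0) (0, e1)| with hσ1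
  set w1 : ℝ := |fderiv ℝ w (p0, a0) (0, e1)| with hw1
  have hσ1p : 0 < σ1 := abs_pos.mpr h2
  have hw1p : 0 < w1 := abs_pos.mpr h1
  -- linear algebra
  let iA : V →L[ℝ] P × V × V := (ContinuousLinearMap.inr ℝ P (V × V)) ∘L
    (ContinuousLinearMap.inl ℝ V V)
  let iB : V →L[ℝ] P × V × V := (ContinuousLinearMap.inr ℝ P (V × V)) ∘L
    (ContinuousLinearMap.inr ℝ V V)
  have hiA : ∀ u, iA u = (0, u, 0) := fun u => rfl
  have hiB : ∀ u, iB u = (0, 0, u) := fun u => rfl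
  obtain ⟨η, c3, hη, hc3, halg⟩ := hl_alg
    ((fderiv ℝ w (p0, a0)) ∘L (ContinuousLinearMap.inr ℝ P V))
    ((fderiv ℝ σ (p0, b0)) ∘L (ContinuousLinearMap.inr ℝ P V))
    ((ContinuousLinearMap.precomp ℝ iB) ∘L (fderiv ℝ (fderiv ℝ g) (p0, a0, b0) ∘L iA))
    (fun u hu hu2 => hnd u hu (fun e he => hu2 e he))
  have halg' : ∀ v : V, |fderiv ℝ w (p0, a0) (0, v)| ≤ η * ‖v‖ →
      ∃ e : V, ‖e‖ ≤ 1 ∧ fderiv ℝ σ (p0, b0) (0, e) = 0 ∧
        c3 * ‖v‖ ≤ |fderiv ℝ (fderiv ℝ g) (p0, a0, b0) (0, v, 0) (0, 0, e)| := fun v hv => halg v hv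
  -- bounds
  have hσ' : ContDiff ℝ ∞ (fun q : P × V × V => σ (q.1, q.2.2)) := hσ.comp (by fun_prop)
  obtain ⟨Ls, hLs, hbs⟩ := hl_bounds (fun q : P × V × V => σ (q.1, q.2.2)) hσ' p0 a0 b0 1
  obtain ⟨Lg, hLg, hbg⟩ := hl_bounds g hg p0 a0 b0 1
  set L : ℝ := Ls + Lg + 1 with hL
  have hL1 : 1 ≤ L := by linarith
  have hLp : 0 < L := by linarith
  set S : ℝ := |s1| + 1 with hS
  have hSp : 0 < S := by positivity
  set M : ℝ := 2 * L with hM
  have hMp : 0 < M := by positivity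
  set C2 : ℝ := 4 * S * L / σ1 + 1 with hC2
  have hC21 : 1 ≤ C2 := by
    have : 0 ≤ 4 * S * L / σ1 := by positivity
    linarith
  have hC2p : 0 < C2 := by linarith
  have hC2a : S * L ≤ σ1 / 4 * C2 := by
    have h3 : σ1 / 4 * (4 * S * L / σ1) = S * L := by field_simp
    have h4 : σ1 / 4 * C2 = σ1 / 4 * (4 * S * L / σ1) + σ1 / 4 := by rw [hC2]; ring
    rw [h4, h3]
    linarith
  set ε : ℝ := min (η / 2) (s0 * c3 / 2 / (s0 + 2 * C2)) with hε
  have hεp : 0 < ε := lt_min (by positivity) (by positivity)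
  have hεη : ε ≤ η / 2 := min_le_left _ _
  have hεc : ε * (s0 + 2 * C2) ≤ s0 * c3 / 2 := by
    calc ε * (s0 + 2 * C2) ≤ s0 * c3 / 2 / (s0 + 2 * C2) * (s0 + 2 * C2) :=
          mul_le_mul_of_nonneg_right (min_le_right _ _) (by positivity)
      _ = s0 * c3 / 2 := by field_simp
  -- neighbourhoods
  obtain ⟨r1, hr1, hN1⟩ := hl_strict w _ (p0, a0) (hw.hasStrictFDerivAt (by simp)) ε hεp
  obtain ⟨r2, hr2, hN2⟩ := hl_cont (fderiv ℝ σ) (p0, b0)
    (hσ.continuous_fderiv (by simp)).continuousAt (min ε (σ1 / 4)) (lt_min hεp (by positivity))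
  have hDg : ContDiff ℝ ∞ (fderiv ℝ g) := hg.fderiv_right (by simp)
  obtain ⟨r3, hr3, hN3⟩ := hl_strict (fderiv ℝ g) _ (p0, a0, b0)
    (hDg.hasStrictFDerivAt (by simp)) ε hεp
  obtain ⟨r4, hr4, hN4⟩ := hl_cont (fderiv ℝ w) (p0, a0)
    (hw.continuous_fderiv (by simp)).continuousAt (w1 / 2) (by positivity)
  obtain ⟨δ0, hδ0, hd1, hdr1, hdr2, hdr3, hdr4, hdM, hdε, hdσ⟩ :=
    hl_pick r1 r2 r3 r4 M L η ε σ1 hr1 hr2 hr3 hr4 hMp hLp hη hεp hσ1p
  obtain ⟨c0, hc0, hc1, hc2, hc3', hc4, hc5⟩ := hl_pick2 M C2 σ1 w1 (s0 * c3 / 2) hMp hC2p hσ1p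
    hw1p (by positivity)
  refine ⟨δ0, c0, L * (1 + S), hδ0, hc0, by positivity, ?_⟩
  intro p hp κ hκ hκδ
  have hκ1 : κ ≤ 1 := by linarith
  constructor
  swap
  · -- monotonicity
    intro a ha
    have hq : (p, a) ∈ ball (p0, a0) r4 := by
      rw [← ball_prod_same]
      exact ⟨ball_subset_ball (by linarith) hp, closedBall_subset_ball (by linarith) ha⟩
    have h3 := hN4 _ hq
    have h4 : deriv (fun x : ℝ => w (p, (x, a.2))) a.1 = fderiv ℝ w (p, a) (0, e1) := by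
      have h5 : HasFDerivAt w (fderiv ℝ w (p, a)) (p, (a.1, a.2)) :=
        ((hw.differentiable (by simp)) _).hasFDerivAt
      have h6 : HasDerivAt (fun x : ℝ => ((p, (x, a.2)) : P × V)) (0, (1, 0)) a.1 :=
        (hasDerivAt_const _ _).prodMk ((hasDerivAt_id _).prodMk (hasDerivAt_const _ _))
      exact (h5.comp_hasDerivAt a.1 h6).deriv
    rw [h4]
    have h7 : |fderiv ℝ w (p, a) (0, e1) - fderiv ℝ w (p0, a0) (0, e1)| ≤ w1 / 2 := by
      have h8 := (fderiv ℝ w (p, a) - fderiv ℝ w (p0, a0)).le_opNorm (0, e1)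
      rw [hVn, sub_apply, Real.norm_eq_abs] at h8
      refine h8.trans ?_
      calc _ ≤ (w1 / 2) * 1 := mul_le_mul h3 he1n (norm_nonneg _) (by positivity)
        _ = w1 / 2 := by ring
    have h9 := abs_sub_abs_le_abs_sub (fderiv ℝ w (p0, a0) (0, e1)) (fderiv ℝ w (p, a) (0, e1))
    rw [abs_sub_comm] at h9
    linarith
  · intro δ ρ hδ hρ
    have hsub : ∀ a ∈ ball a0 δ, a ∈ ball a0 δ0 := fun a ha => ball_subset_ball hδ ha
    have hpc : p ∈ closedBall p0 1 := ball_subset_closedBall (ball_subset_ball (by linarith) hp)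
    have hac : ∀ a ∈ ball a0 δ, a ∈ closedBall a0 1 := fun a ha =>
      ball_subset_closedBall (ball_subset_ball (by linarith) (hsub a ha))
    have hbc : ∀ b ∈ closedBall b0 (3 * ρ), b ∈ closedBall b0 1 := fun b hb =>
      closedBall_subset_closedBall (by linarith) hb
    have sm1 : ∀ b e : V, ContDiff ℝ ∞ (fun t : ℝ => σ (p, b + t • e)) := fun b e =>
      hσ.comp (by fun_prop)
    have sm2 : ∀ a b e : V, ContDiff ℝ ∞ (fun t : ℝ => g (p, a, b + t • e)) := fun a b e =>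
      hg.comp (by fun_prop)
    -- first derivatives
    have key1 : ∀ (s s' : ℝ) (a a' b e : V),
        deriv (fun t : ℝ => s * (w (p, a) - σ (p, b + t • e) + κ * g (p, a, b + t • e)) -
          s' * (w (p, a') - σ (p, b + t • e) + κ * g (p, a', b + t • e))) 0 =
        (s - s') * (-(fderiv ℝ σ (p, b) (0, e)) + κ * fderiv ℝ g (p, a', b) (0, 0, e)) +
          s * κ * (fderiv ℝ g (p, a, b) (0, 0, e) - fderiv ℝ g (p, a', b) (0, 0, e)) := by
      intro s s' a a' b e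
      rw [← iteratedDeriv_one, hl_iter _ _ _ (sm1 b e) (sm2 a b e) (sm2 a' b e) s s' _ _ κ 1 le_rfl,
        hl_dir1 g hg, hl_dir1 g hg, hl_dir2 σ hσ]
    have bdG : ∀ a ∈ ball a0 δ, ∀ b ∈ closedBall b0 (3 * ρ), ∀ e : V, ‖e‖ ≤ 1 →
        |fderiv ℝ g (p, a, b) (0, 0, e)| ≤ L := by
      intro a ha b hb e he
      have h3 := (hbg 1 (by norm_num) e he p hpc a (hac a ha) a (hac a ha) b (hbc b hb)).1
      rw [hl_dir1 g hg] at h3
      linarith
    have bdG2 : ∀ a ∈ ball a0 δ, ∀ a' ∈ ball a0 δ, ∀ b ∈ closedBall b0 (3 * ρ), ∀ e : V,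
        ‖e‖ ≤ 1 → |fderiv ℝ g (p, a, b) (0, 0, e) - fderiv ℝ g (p, a', b) (0, 0, e)| ≤
          L * ‖a - a'‖ := by
      intro a ha a' ha' b hb e he
      have h3 := (hbg 1 (by norm_num) e he p hpc a (hac a ha) a' (hac a' ha') b (hbc b hb)).2
      rw [hl_dir1 g hg, hl_dir1 g hg] at h3
      refine h3.trans (mul_le_mul_of_nonneg_right (by linarith) (norm_nonneg _))
    have hκL : κ * L ≤ L * δ0 := by
      rw [mul_comm]
      exact mul_le_mul_of_nonneg_left hκδ.le hLp.le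
    have bdκ : ∀ a ∈ ball a0 δ, ∀ b ∈ closedBall b0 (3 * ρ), ∀ e : V, ‖e‖ ≤ 1 →
        κ * |fderiv ℝ g (p, a, b) (0, 0, e)| ≤ L * δ0 := fun a ha b hb e he =>
      (mul_le_mul_of_nonneg_left (bdG a ha b hb e he) hκ.le).trans hκL
    have bdσ : ∀ b ∈ closedBall b0 (3 * ρ), ∀ e : V, ‖e‖ ≤ 1 →
        |fderiv ℝ σ (p, b) (0, e) - fderiv ℝ σ (p0, b0) (0, e)| ≤ min ε (σ1 / 4) := by
      intro b hb e he
      have h3 := hN2 (p, b) (hl_inB p p0 b b0 r2 δ0 ρ hδ0 hp hb hρ hdr2)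
      have h8 := (fderiv ℝ σ (p, b) - fderiv ℝ σ (p0, b0)).le_opNorm (0, e)
      rw [hVn, sub_apply, Real.norm_eq_abs] at h8
      refine h8.trans ?_
      have hm : 0 < min ε (σ1 / 4) := lt_min hεp (by positivity)
      calc _ ≤ min ε (σ1 / 4) * 1 := mul_le_mul h3 he (norm_nonneg _) hm.le
        _ = min ε (σ1 / 4) := by ring
    have lowσ : ∀ b ∈ closedBall b0 (3 * ρ), 3 * σ1 / 4 ≤ |fderiv ℝ σ (p, b) (0, e1)| := by
      intro b hb
      have h3 := (bdσ b hb e1 he1n).trans (min_le_right _ _)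
      have h4 := abs_sub_abs_le_abs_sub (fderiv ℝ σ (p0, b0) (0, e1)) (fderiv ℝ σ (p, b) (0, e1))
      rw [abs_sub_comm] at h4
      linarith
    refine ⟨?_, ?_, ?_, ?_, ?_, ?_⟩
    · exact ((hw.comp (by fun_prop)).sub (hσ.comp (by fun_prop))).add
        (contDiff_const.mul (hg.comp (by fun_prop)))
    · have c1 : Continuous (fun x : V × V => w (p, x.1)) := hw.continuous.comp (by fun_prop)
      have c2 : Continuous (fun x : V × V => w (p, x.2)) := hw.continuous.comp (by fun_prop)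
      exact (c1.sub c2).abs.add (continuous_const.mul (continuous_fst.sub continuous_snd).norm)
    · intro a a'
      positivity
    · refine ⟨e1, he1n, fun a ha b hb => ?_⟩
      have h3 := key1 1 0 a a b e1
      have h4 : (fun t : ℝ => 1 * (w (p, a) - σ (p, b + t • e1) + κ * g (p, a, b + t • e1)) -
          0 * (w (p, a) - σ (p, b + t • e1) + κ * g (p, a, b + t • e1))) =
          fun t : ℝ => w (p, a) - σ (p, b + t • e1) + κ * g (p, a, b + t • e1) := by
        funext t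
        ring
      rw [h4] at h3
      show c0 ≤ |deriv (fun t : ℝ => w (p, a) - σ (p, b + t • e1) + κ * g (p, a, b + t • e1)) 0|
      rw [h3]
      have h5 := lowσ b hb
      have h6 := bdκ a ha b hb e1 he1n
      have h7 : |fderiv ℝ σ (p, b) (0, e1)| - |κ * fderiv ℝ g (p, a, b) (0, 0, e1)| ≤
          |-(fderiv ℝ σ (p, b) (0, e1)) + κ * fderiv ℝ g (p, a, b) (0, 0, e1)| := by
        have h8 := abs_sub_abs_le_abs_sub (-(fderiv ℝ σ (p, b) (0, e1)))
          (-(κ * fderiv ℝ g (p, a, b) (0, 0, e1)))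
        rw [abs_neg, abs_neg, sub_neg_eq_add] at h8
        exact h8
      rw [abs_mul, abs_of_pos hκ] at h7
      have h9 : (1 - 0 : ℝ) * (-(fderiv ℝ σ (p, b) (0, e1)) + κ * fderiv ℝ g (p, a, b) (0, 0, e1)) +
          1 * κ * (fderiv ℝ g (p, a, b) (0, 0, e1) - fderiv ℝ g (p, a, b) (0, 0, e1)) =
          -(fderiv ℝ σ (p, b) (0, e1)) + κ * fderiv ℝ g (p, a, b) (0, 0, e1) := by ring
      rw [h9]
      linarith
    · intro a ha a' ha'
      by_cases hW : M * (κ * ‖a - a'‖) ≤ |w (p, a) - w (p, a')|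
      · left
        intro b hb
        show c0 * (|w (p, a) - w (p, a')| + κ * ‖a - a'‖) ≤
          |w (p, a) - σ (p, b) + κ * g (p, a, b) - (w (p, a') - σ (p, b) + κ * g (p, a', b))|
        have h3 := (hbg 0 (by norm_num) 0 (by simp) p hpc a (hac a ha) a' (hac a' ha') b
          (hbc b hb)).2
        simp only [iteratedDeriv_zero, smul_zero, add_zero] at h3
        have h4 : |κ * (g (p, a, b) - g (p, a', b))| ≤ L * (κ * ‖a - a'‖) := by
          rw [abs_mul, abs_of_pos hκ]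
          calc κ * |g (p, a, b) - g (p, a', b)| ≤ κ * (Lg * ‖a - a'‖) :=
                mul_le_mul_of_nonneg_left h3 hκ.le
            _ = Lg * (κ * ‖a - a'‖) := by ring
            _ ≤ L * (κ * ‖a - a'‖) :=
                mul_le_mul_of_nonneg_right (by linarith) (by positivity)
        have h5 : w (p, a) - σ (p, b) + κ * g (p, a, b) -
            (w (p, a') - σ (p, b) + κ * g (p, a', b)) =
            (w (p, a) - w (p, a')) + κ * (g (p, a, b) - g (p, a', b)) := by ring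
        rw [h5]
        have h6 : |w (p, a) - w (p, a')| - |κ * (g (p, a, b) - g (p, a', b))| ≤
            |(w (p, a) - w (p, a')) + κ * (g (p, a, b) - g (p, a', b))| := by
          have h8 := abs_sub_abs_le_abs_sub (w (p, a) - w (p, a'))
            (-(κ * (g (p, a, b) - g (p, a', b))))
          rw [abs_neg, sub_neg_eq_add] at h8
          exact h8
        have hku : 0 ≤ κ * ‖a - a'‖ := by positivity
        have h7 : L * (κ * ‖a - a'‖) ≤ |w (p, a) - w (p, a')| / 2 := by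
          rw [hM] at hW
          linarith
        have h8 : κ * ‖a - a'‖ ≤ |w (p, a) - w (p, a')| / 2 := by
          have h9 : 1 * (κ * ‖a - a'‖) ≤ L * (κ * ‖a - a'‖) :=
            mul_le_mul_of_nonneg_right hL1 hku
          linarith
        have h9 : 0 ≤ |w (p, a) - w (p, a')| := abs_nonneg _
        have h10 : c0 * (|w (p, a) - w (p, a')| + κ * ‖a - a'‖) ≤
            1 / 3 * (|w (p, a) - w (p, a')| + κ * ‖a - a'‖) :=
          mul_le_mul_of_nonneg_right hc1 (by positivity)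
        linarith
      · right
        have hW' : |w (p, a) - w (p, a')| ≤ M * (κ * ‖a - a'‖) := (not_le.mp hW).le
        intro s s' hs hs1 hs' hs1'
        have hsS : |s| ≤ S := by
          have := le_abs_self s1
          linarith
        by_cases hd : C2 * (κ * ‖a - a'‖) ≤ |s - s'|
        · refine ⟨e1, he1n, fun b hb => ?_⟩
          show c0 * (|s - s'| + (|w (p, a) - w (p, a')| + κ * ‖a - a'‖)) ≤
            |deriv (fun t : ℝ => s * (w (p, a) - σ (p, b + t • e1) + κ * g (p, a, b + t • e1)) -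
              s' * (w (p, a') - σ (p, b + t • e1) + κ * g (p, a', b + t • e1))) 0|
          rw [key1]
          exact hl_num1 (s - s') _ _ _ s κ ‖a - a'‖ L S σ1 C2 M _ c0 hκ (norm_nonneg _) hLp hsS hSp
            hσ1p (lowσ b hb) ((bdκ a' ha' b hb e1 he1n).trans hdσ)
            (bdG2 a ha a' ha' b hb e1 he1n) hd hC2a hC21 hW' hc0 hMp hc2
        · have hd' : |s - s'| ≤ C2 * (κ * ‖a - a'‖) := (not_le.mp hd).le
          have h3 : |fderiv ℝ w (p0, a0) (0, a - a')| ≤ η * ‖a - a'‖ := by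
            have h4 := hN1 (p, a) (hl_inA p p0 a a0 r1 δ0 hp (hsub a ha) (by linarith)) (p, a')
              (hl_inA p p0 a' a0 r1 δ0 hp (hsub a' ha') (by linarith))
            have h5 : ((p, a) : P × V) - (p, a') = (0, a - a') := by simp
            rw [h5, hVn, Real.norm_eq_abs] at h4
            have h6 := abs_sub_abs_le_abs_sub (fderiv ℝ w (p0, a0) (0, a - a'))
              (w (p, a) - w (p, a'))
            rw [abs_sub_comm (fderiv ℝ w (p0, a0) (0, a - a'))] at h6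
            have h7 : M * (κ * ‖a - a'‖) ≤ η / 2 * ‖a - a'‖ := by
              calc M * (κ * ‖a - a'‖) = (M * κ) * ‖a - a'‖ := by ring
                _ ≤ (M * δ0) * ‖a - a'‖ := by gcongr
                _ ≤ η / 2 * ‖a - a'‖ := mul_le_mul_of_nonneg_right hdM (norm_nonneg _)
            have h8 : ε * ‖a - a'‖ ≤ η / 2 * ‖a - a'‖ :=
              mul_le_mul_of_nonneg_right hεη (norm_nonneg _)
            linarith
          obtain ⟨e, he, heσ, heB⟩ := halg' (a - a') h3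
          refine ⟨e, he, fun b hb => ?_⟩
          show c0 * (|s - s'| + (|w (p, a) - w (p, a')| + κ * ‖a - a'‖)) ≤
            |deriv (fun t : ℝ => s * (w (p, a) - σ (p, b + t • e) + κ * g (p, a, b + t • e)) -
              s' * (w (p, a') - σ (p, b + t • e) + κ * g (p, a', b + t • e))) 0|
          rw [key1]
          have h4 : |fderiv ℝ σ (p, b) (0, e)| ≤ ε := by
            have h5 := (bdσ b hb e he).trans (min_le_left _ _)
            rw [heσ, sub_zero] at h5
            exact h5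
          have h5 : |fderiv ℝ g (p, a, b) (0, 0, e) - fderiv ℝ g (p, a', b) (0, 0, e) -
              fderiv ℝ (fderiv ℝ g) (p0, a0, b0) (0, a - a', 0) (0, 0, e)| ≤ ε * ‖a - a'‖ := by
            have h6 := hN3 (p, a, b) (hl_inC p p0 a a0 b b0 r3 δ0 ρ hδ0 hp (hsub a ha) hb hρ hdr3)
              (p, a', b) (hl_inC p p0 a' a0 b b0 r3 δ0 ρ hδ0 hp (hsub a' ha') hb hρ hdr3)
            have h7 : ((p, a, b) : P × V × V) - (p, a', b) = (0, a - a', 0) := by simp
            rw [h7, hVVa] at h6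
            have h8 := (fderiv ℝ g (p, a, b) - fderiv ℝ g (p, a', b) -
              fderiv ℝ (fderiv ℝ g) (p0, a0, b0) (0, a - a', 0)).le_opNorm (0, 0, e)
            rw [hVVb, sub_apply, sub_apply,
              Real.norm_eq_abs] at h8
            refine h8.trans ?_
            calc _ ≤ (ε * ‖a - a'‖) * 1 := mul_le_mul h6 he (norm_nonneg _) (by positivity)
              _ = ε * ‖a - a'‖ := by ring
          exact hl_num2 (s - s') _ _ _ _ s κ ‖a - a'‖ s0 c3 ε C2 M _ c0 hκ (norm_nonneg _) hs hs0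
            hεp hC2p h4 ((bdκ a' ha' b hb e he).trans hdε) h5 heB hd' hεc hW' hc0 hc3'
    · intro a ha a' ha' s s' hs hs' e he b hb j hj hj9
      show |iteratedDeriv j (fun t : ℝ =>
          s * (w (p, a) - σ (p, b + t • e) + κ * g (p, a, b + t • e)) -
          s' * (w (p, a') - σ (p, b + t • e) + κ * g (p, a', b + t • e))) 0| ≤
        L * (1 + S) * (|s - s'| + (|w (p, a) - w (p, a')| + κ * ‖a - a'‖))
      rw [hl_iter _ _ _ (sm1 b e) (sm2 a b e) (sm2 a' b e) s s' _ _ κ j hj]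
      have h3 := (hbs j hj9 e he p hpc a (hac a ha) a (hac a ha) b (hbc b hb)).1
      have h4 := (hbg j hj9 e he p hpc a' (hac a' ha') a' (hac a' ha') b (hbc b hb)).1
      have h5 := (hbg j hj9 e he p hpc a (hac a ha) a' (hac a' ha') b (hbc b hb)).2
      simp only at h3
      have hsS : |s| ≤ S := by
        have := le_abs_self s1
        linarith
      have hku : 0 ≤ κ * ‖a - a'‖ := by positivity
      have h6 : |-iteratedDeriv j (fun t : ℝ => σ (p, b + t • e)) 0 +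
          κ * iteratedDeriv j (fun t : ℝ => g (p, a', b + t • e)) 0| ≤ L := by
        refine (abs_add_le _ _).trans ?_
        rw [abs_neg, abs_mul, abs_of_pos hκ]
        have h7 : κ * |iteratedDeriv j (fun t : ℝ => g (p, a', b + t • e)) 0| ≤ 1 * Lg :=
          mul_le_mul hκ1 h4 (abs_nonneg _) (by norm_num)
        linarith
      have h7 : |(s - s') * (-iteratedDeriv j (fun t : ℝ => σ (p, b + t • e)) 0 +
          κ * iteratedDeriv j (fun t : ℝ => g (p, a', b + t • e)) 0)| ≤ |s - s'| * L := by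
        rw [abs_mul]
        exact mul_le_mul_of_nonneg_left h6 (abs_nonneg _)
      have h8 : |s * κ * (iteratedDeriv j (fun t : ℝ => g (p, a, b + t • e)) 0 -
          iteratedDeriv j (fun t : ℝ => g (p, a', b + t • e)) 0)| ≤ S * L * (κ * ‖a - a'‖) := by
        rw [abs_mul, abs_mul, abs_of_pos hκ]
        calc _ ≤ S * κ * (Lg * ‖a - a'‖) :=
              mul_le_mul (mul_le_mul_of_nonneg_right hsS hκ.le) h5 (abs_nonneg _) (by positivity)
          _ = S * Lg * (κ * ‖a - a'‖) := by ring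
          _ ≤ S * L * (κ * ‖a - a'‖) := by
            refine mul_le_mul_of_nonneg_right (mul_le_mul_of_nonneg_left ?_ hSp.le) hku
            linarith
      refine ((abs_add_le _ _).trans (add_le_add h7 h8)).trans ?_
      have h9 : 0 ≤ |w (p, a) - w (p, a')| := abs_nonneg _
      have h10 : 0 ≤ |s - s'| := abs_nonneg _
      have h11 : 0 ≤ L * |s - s'| := by positivity
      have h12 : 0 ≤ L * S * |s - s'| := by positivity
      have h13 : 0 ≤ L * (κ * ‖a - a'‖) := by positivity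
      have h14 : 0 ≤ L * (1 + S) * |w (p, a) - w (p, a')| := by positivity
      nlinarith

end Pool.Agent.N1
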