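import Pool.Agent.N1.MN
import Pool.Agent.N1.MD4
import Pool.Agent.N1.Ec
import Pool.Agent.N1.C3
import Pool.Agent.N1.Cell

/-!
N1, block M2, part 1: the global estimate for nondegenerate outer directions.
-/

namespace Pool.Agent.N1

open MeasureTheory Set Metric Pool.Agent.MP_6cbfb8_an Pool.Agent.MST
open scoped ENNReal Real ContDiff

/-- The local estimate at the base point `P = (x0, y0)`. -/
def m2_P (c : ℝ) (P : (ℝ × ℝ) × (ℝ × ℝ)) (δ C : ℝ) : Prop :=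
  ∀ T : ℝ, 1 ≤ T → ∀ ρ : ℝ, 0 < ρ → ρ < δ →
      ∀ α β : ℝ × ℝ → ℂ, Measurable α → Measurable β → (∀ p, ‖α p‖ ≤ 1) → (∀ p, ‖β p‖ ≤ 1) →
      (∀ p, α p ≠ 0 → |p.1 / ρ - P.2.1| ≤ δ ∧ |p.2 - P.1.1| ≤ δ) →
      (∀ p, β p ≠ 0 → |p.1 / ρ - P.2.2| ≤ δ ∧ |p.2 - P.1.2| ≤ δ) →
      Th c T (pd α β) ≤ ENNReal.ofReal (C * (1 + Real.log T) ^ 5 / T)

theorem m2_P_mono (c : ℝ) (x : (ℝ × ℝ) × (ℝ × ℝ)) (δ δ' C C' : ℝ) (hδδ : δ' ≤ δ)
    (hCC : C ≤ C') (h : m2_P c x δ C) : m2_P c x δ' C' := by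
  intro T hT ρ hρ hρδ α β hα hβ hα1 hβ1 hαs hβs
  refine (h T hT ρ hρ (hρδ.trans_le hδδ) α β hα hβ hα1 hβ1 ?_ ?_).trans ?_
  · intro p hp
    have h2 := hαs p hp
    exact ⟨h2.1.trans hδδ, h2.2.trans hδδ⟩
  · intro p hp
    have h2 := hβs p hp
    exact ⟨h2.1.trans hδδ, h2.2.trans hδδ⟩
  · have h3 : 0 ≤ Real.log T := Real.log_nonneg hT
    have h4 : 0 < T := by linarith
    apply ENNReal.ofReal_le_ofReal
    gcongr

theorem m2_P_shift (c : ℝ) (x x' : (ℝ × ℝ) × (ℝ × ℝ)) (δ C : ℝ) (_hδ : 0 < δ)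
    (hd : dist x' x ≤ δ / 2) (h : m2_P c x δ C) : m2_P c x' (δ / 2) C := by
  rw [Prod.dist_eq, Prod.dist_eq, Prod.dist_eq, max_le_iff, max_le_iff, max_le_iff, Real.dist_eq,
    Real.dist_eq, Real.dist_eq, Real.dist_eq] at hd
  intro T hT ρ hρ hρδ α β hα hβ hα1 hβ1 hαs hβs
  refine h T hT ρ hρ (by linarith) α β hα hβ hα1 hβ1 ?_ ?_
  · intro p hp
    have h2 := hαs p hp
    have h3 := abs_sub_le (p.1 / ρ) x'.2.1 x.2.1
    have h4 := abs_sub_le p.2 x'.1.1 x.1.1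
    constructor <;> linarith [hd.1.1, hd.2.1]
  · intro p hp
    have h2 := hβs p hp
    have h3 := abs_sub_le (p.1 / ρ) x'.2.2 x.2.2
    have h4 := abs_sub_le p.2 x'.1.2 x.1.2
    constructor <;> linarith [hd.1.2, hd.2.2]

theorem m2_Kc_swap {c : ℝ} {x : ℝ × ℝ} (hx : x ∈ Kc c) : x.swap ∈ Kc c := by
  obtain ⟨h1, h2, h3⟩ := hx
  refine ⟨h2, h1, ?_⟩
  simp only [Prod.fst_swap, Prod.snd_swap]
  linarith

theorem m2_Kc_compact {c : ℝ} (hc : 0 < c) : IsCompact (Kc c) := by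
  have h1 : Kc c ⊆ Icc c 1 ×ˢ Icc c 1 := by
    rintro x ⟨h1, h2, h3⟩
    have h4 : 0 ≤ c ^ 2 / 4 := by positivity
    refine ⟨⟨h1, ?_⟩, h2, ?_⟩ <;> nlinarith
  refine (isCompact_Icc.prod isCompact_Icc).of_isClosed_subset ?_ h1
  have h2 : Kc c = {x | c ≤ x.1} ∩ ({x | c ≤ x.2} ∩ {x | x.1 ^ 2 + x.2 ^ 2 ≤ 1 - c ^ 2 / 4}) := by
    ext x
    rfl
  rw [h2]
  refine IsClosed.inter ?_ (IsClosed.inter ?_ ?_)
  · exact isClosed_le continuous_const continuous_fst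
  · exact isClosed_le continuous_const continuous_snd
  · exact isClosed_le ((continuous_fst.pow 2).add (continuous_snd.pow 2)) continuous_const

/-- The set of scaled outer directions. -/
def m2_Y (k0 : ℕ) : Set (ℝ × ℝ) :=
  {z | (1 / 2 ≤ |z.1| ∧ |z.1| ≤ 2) ∧ (1 / 2 ^ (k0 + 1) ≤ |z.2| ∧ |z.2| ≤ 2 ^ (k0 + 1))}

theorem m2_Y_compact (k0 : ℕ) : IsCompact (m2_Y k0) := by
  have h1 : m2_Y k0 ⊆ Icc (-2) 2 ×ˢ Icc (-(2 ^ (k0 + 1))) (2 ^ (k0 + 1)) := by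
    rintro z ⟨⟨-, h2⟩, -, h4⟩
    exact ⟨abs_le.1 h2, abs_le.1 h4⟩
  refine (isCompact_Icc.prod isCompact_Icc).of_isClosed_subset ?_ h1
  unfold m2_Y
  refine IsClosed.inter (IsClosed.inter ?_ ?_) (IsClosed.inter ?_ ?_)
  · exact isClosed_le continuous_const (continuous_abs.comp continuous_fst)
  · exact isClosed_le (continuous_abs.comp continuous_fst) continuous_const
  · exact isClosed_le continuous_const (continuous_abs.comp continuous_snd)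
  · exact isClosed_le (continuous_abs.comp continuous_snd) continuous_const

theorem m2_loc (c : ℝ) (hc : 0 < c) (k0 : ℕ) : ∃ δ : ℝ, 0 < δ ∧ ∃ C : ℝ, 0 ≤ C ∧
    ∀ P ∈ Kc c ×ˢ m2_Y k0, m2_P c P δ C := by
  refine g2_unif ((m2_Kc_compact hc).prod (m2_Y_compact k0)) (m2_P c) ?_ ?_ ?_
  · intro x δ δ' C C' _ hδδ hCC h
    exact m2_P_mono c x δ δ' C C' hδδ hCC h
  · rintro ⟨x0, y0⟩ ⟨hx, ⟨h1, -⟩, h2, -⟩
    have hx : x0 ∈ Kc c := hx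
    have hy1 : y0.1 ≠ 0 := by
      have h3 : (0 : ℝ) < 1 / 2 := by norm_num
      exact abs_pos.1 (h3.trans_le h1)
    have hy2 : y0.2 ≠ 0 := by
      have h3 : (0 : ℝ) < 1 / 2 ^ (k0 + 1) := by positivity
      exact abs_pos.1 (h3.trans_le h2)
    by_cases hN : Nf 0 y0 x0 = 0
    · exact TH_D c hc x0 y0 hx hy1 hy2 hN
    · by_cases hN' : Nf 0 y0.swap x0.swap = 0
      · obtain ⟨δ, hδ, C, hC, h⟩ := TH_D c hc x0.swap y0.swap (m2_Kc_swap hx) hy2 hy1 hN'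
        refine ⟨δ, hδ, C, hC, ?_⟩
        intro T hT ρ hρ hρδ α β hα hβ hα1 hβ1 hαs hβs
        rw [Th_comm]
        exact h T hT ρ hρ hρδ β α hβ hα hβ1 hα1 hβs hαs
      · exact TH_N c hc x0 y0 hx hy1 hy2 hN hN'
  · intro x x' δ C hδ hd h
    exact m2_P_shift c x x' δ C hδ hd h

end Pool.Agent.N1
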