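import Pool.Agent.N1.M2b
import Pool.Agent.N1.C2
import Pool.Agent.N1.G1

/-!
N1, block M2, part 3: tools for the forms.
-/

namespace Pool.Agent.N1

open MeasureTheory Set Metric Pool.Agent.MP_6cbfb8_an Pool.Agent.MST
open scoped ENNReal Real ContDiff

theorem m2_FF_smul (c T : ℝ) (z : ℂ) (M : V × V → ℂ) :
    FF c T (fun q => z * M q) = z * FF c T M := by
  unfold FF
  rw [← integral_const_mul]
  simp only [mul_assoc]

/-- absolute estimate on a box -/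
theorem m2_abs (c : ℝ) (hc : 0 < c) : ∃ C : ℝ, 0 ≤ C ∧ ∀ T : ℝ, 0 < T → ∀ (M : V × V → ℂ)
    (e d f0 : ℝ), Measurable M → (∀ q, ‖M q‖ ≤ 1) → 0 ≤ e → 0 ≤ d → 0 ≤ f0 →
    (∀ q, M q ≠ 0 → Wr c q.1 q.2 ≠ 0 → |q.1.1| ≤ e ∧ |q.2.1| ≤ e ∧ |q.1.2.2| ≤ d ∧
      |q.2.2.2| ≤ d ∧ f0 ≤ |Fr c q.1 q.2|) →
    ‖FF c T M‖ ≤ C * T * (e ^ 2 * d ^ 2) / (1 + T * f0) ^ 3 := by
  obtain ⟨C, hC, h⟩ := FF_abs c hc
  refine ⟨64 * C, by positivity, ?_⟩
  intro T hT M e d f0 hM hM1 he hd hf0 hs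
  have h1 := h T hT M {q : V × V | |q.1.1| ≤ e ∧ |q.2.1| ≤ e ∧ |q.1.2.2| ≤ d ∧ |q.2.2.2| ≤ d ∧
    |q.1.2.1| ≤ 1 ∧ |q.2.2.1| ≤ 1 ∧ f0 ≤ |Fr c q.1 q.2|} f0 (64 * (e ^ 2 * d ^ 2)) hM hM1 ?_
    (by positivity) ?_ hf0 ?_
  · refine h1.trans (le_of_eq ?_)
    ring
  · intro q hq hW
    obtain ⟨h2, h3, h4, h5, h6⟩ := hs q hq hW
    have h7 : wf c q.1.2.1 q.2.2.1 ≠ 0 := by
      intro h8
      apply hW
      unfold Wr
      rw [h8]
      simp
    have h8 := m2_wf_ne hc h7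
    have h9 : 0 ≤ c ^ 2 / 4 := by positivity
    refine ⟨h2, h3, h4, h5, ?_, ?_, h6⟩
    · rw [← sq_le_one_iff_abs_le_one]
      nlinarith [sq_nonneg q.2.2.1]
    · rw [← sq_le_one_iff_abs_le_one]
      nlinarith [sq_nonneg q.1.2.1]
  · have h2 : {q : V × V | |q.1.1| ≤ e ∧ |q.2.1| ≤ e ∧ |q.1.2.2| ≤ d ∧ |q.2.2.2| ≤ d ∧
        |q.1.2.1| ≤ 1 ∧ |q.2.2.1| ≤ 1 ∧ f0 ≤ |Fr c q.1 q.2|} ⊆
        (Icc (-e) e ×ˢ Icc (-1) 1 ×ˢ Icc (-d) d) ×ˢ
          (Icc (-e) e ×ˢ Icc (-1) 1 ×ˢ Icc (-d) d) := by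
      rintro q ⟨h2, h3, h4, h5, h6, h7, -⟩
      exact ⟨⟨abs_le.1 h2, abs_le.1 h6, abs_le.1 h4⟩, abs_le.1 h3, abs_le.1 h7, abs_le.1 h5⟩
    refine (measure_mono h2).trans (le_of_eq ?_)
    rw [Measure.volume_eq_prod, Measure.prod_prod, Measure.volume_eq_prod, Measure.prod_prod,
      Measure.volume_eq_prod, Measure.prod_prod, Real.volume_Icc, Real.volume_Icc,
      Real.volume_Icc, ← ENNReal.ofReal_mul (by linarith), ← ENNReal.ofReal_mul (by linarith),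
      ← ENNReal.ofReal_mul (by nlinarith [mul_nonneg he hd])]
    congr 1
    ring
  · rintro q ⟨-, -, -, -, -, -, h2⟩
    exact h2

/-- Splitting by the partition of unity in a pair of coordinates. -/
theorem m2_part (c : ℝ) (hc : 0 < c) (T : ℝ) (hT : 0 < T) (k0 J : ℕ) (hk : 1 ≤ k0) (hJ : k0 ≤ J)
    (Y : V × V → ℝ × ℝ) (hY : Measurable Y) (M : V × V → ℂ) (hM : Measurable M)
    (hM1 : ∀ q, ‖M q‖ ≤ 1) (hMs : ∀ q, M q ≠ 0 → |(Y q).1| ≤ 1 ∧ |(Y q).2| ≤ 1)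
    (K1 K2 K3 : ℝ) (hK1 : 0 ≤ K1) (hK2 : 0 ≤ K2)
    (h1 : ∀ j k : ℕ, j < k + k0 → k < j + k0 →
      ‖FF c T (fun q => ((uj j (Y q).1 * uj k (Y q).2 : ℝ) : ℂ) * M q)‖ ≤ K1)
    (h2 : ∀ j : ℕ, ‖FF c T (fun q =>
      ((uj j (Y q).1 * th (2 ^ (j + k0) * (Y q).2) : ℝ) : ℂ) * M q)‖ ≤ K2)
    (h3 : ∀ k : ℕ, ‖FF c T (fun q =>
      ((th (2 ^ (k + k0) * (Y q).1) * uj k (Y q).2 : ℝ) : ℂ) * M q)‖ ≤ K2)
    (h4 : ∀ rest : ℝ × ℝ → ℝ, Measurable rest → (∀ y, |rest y| ≤ 4 * (k0 : ℝ) + 4) →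
      (∀ y, rest y ≠ 0 → (|y.1| ≤ 2 ^ (k0 + 2) / 2 ^ J ∧ |y.2| ≤ 2 ^ (k0 + 2) / 2 ^ J)) →
      ‖FF c T (fun q => ((rest (Y q) : ℝ) : ℂ) * M q)‖ ≤ K3) :
    ‖FF c T M‖ ≤ (J : ℝ) ^ 2 * K1 + 2 * J * K2 + K3 := by
  classical
  obtain ⟨rest, hr1, hr2, hr3, hr4⟩ := part2 k0 J hk hJ
  set a := J - k0 + 1 with ha
  have haJ : a ≤ J := by omega
  let F : (ℕ × ℕ) ⊕ (ℕ ⊕ (ℕ ⊕ Unit)) → V × V → ℂ :=
    Sum.elim (fun p q => if p.1 < p.2 + k0 ∧ p.2 < p.1 + k0 then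
        ((uj p.1 (Y q).1 * uj p.2 (Y q).2 : ℝ) : ℂ) * M q else 0)
      (Sum.elim (fun j q => ((uj j (Y q).1 * th (2 ^ (j + k0) * (Y q).2) : ℝ) : ℂ) * M q)
        (Sum.elim (fun k q => ((th (2 ^ (k + k0) * (Y q).1) * uj k (Y q).2 : ℝ) : ℂ) * M q)
          (fun _ q => ((rest (Y q) : ℝ) : ℂ) * M q)))
  let s : Finset ((ℕ × ℕ) ⊕ (ℕ ⊕ (ℕ ⊕ Unit))) :=
    (Finset.range J ×ˢ Finset.range J).disjSum
      ((Finset.range a).disjSum ((Finset.range a).disjSum {()}))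
  have hY1 : Measurable fun q => (Y q).1 := measurable_fst.comp hY
  have hY2 : Measurable fun q => (Y q).2 := measurable_snd.comp hY
  have hsum : (fun q => ∑ i ∈ s, F i q) = M := by
    funext q
    by_cases hq : M q = 0
    · rw [hq]
      refine Finset.sum_eq_zero ?_
      rintro (p | j | k | u) - <;> simp [F, hq]
    · have h5 := hr4 (Y q) (hMs q hq).1 (hMs q hq).2
      simp only [s, Finset.sum_disjSum, Finset.sum_singleton, F, Sum.elim_inl, Sum.elim_inr,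
        Finset.sum_product]
      have h6 : (1 : ℂ) * M q = M q := one_mul _
      rw [← Complex.ofReal_one, ← h5] at h6
      refine Eq.trans ?_ h6
      push_cast
      rw [add_mul, add_mul, add_mul, Finset.sum_mul, Finset.sum_mul, Finset.sum_mul]
      simp only [Finset.sum_mul]
      rw [← add_assoc, ← add_assoc]
      congr 3
      refine Finset.sum_congr rfl fun j _ => Finset.sum_congr rfl fun k _ => ?_
      split_ifs <;> push_cast <;> ring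
  have hth : ∀ x, |th x| ≤ 1 := fun x => by
    rw [abs_of_nonneg (th_nonneg x)]
    exact th_le_one x
  have hF : ∀ i, Measurable (F i) := by
    rintro (p | j | k | u)
    · show Measurable fun q => if p.1 < p.2 + k0 ∧ p.2 < p.1 + k0 then
        ((uj p.1 (Y q).1 * uj p.2 (Y q).2 : ℝ) : ℂ) * M q else 0
      split_ifs
      · exact (Complex.measurable_ofReal.comp (((measurable_uj _).comp hY1).mul
          ((measurable_uj _).comp hY2))).mul hM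
      · exact measurable_const
    · exact (Complex.measurable_ofReal.comp (((measurable_uj _).comp hY1).mul
          (measurable_th.comp (hY2.const_mul _)))).mul hM
    · exact (Complex.measurable_ofReal.comp ((measurable_th.comp (hY1.const_mul _)).mul
          ((measurable_uj _).comp hY2))).mul hM
    · exact (Complex.measurable_ofReal.comp (hr1.comp hY)).mul hM
  have hB1 : (1 : ℝ) ≤ 4 * (k0 : ℝ) + 4 := by
    have : (0 : ℝ) ≤ k0 := by positivity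
    linarith
  have hB : ∀ i q, ‖F i q‖ ≤ 4 * (k0 : ℝ) + 4 := by
    have hb : ∀ (x y : ℝ) (z : ℂ), |x| ≤ 1 → |y| ≤ 1 → ‖z‖ ≤ 1 →
        ‖((x * y : ℝ) : ℂ) * z‖ ≤ 4 * (k0 : ℝ) + 4 := by
      intro x y z hx hy hz
      refine le_trans ?_ hB1
      rw [norm_mul, Complex.norm_real, Real.norm_eq_abs, abs_mul]
      exact mul_le_one₀ (mul_le_one₀ hx (abs_nonneg _) hy) (norm_nonneg _) hz
    rintro (p | j | k | u) q
    · show ‖if p.1 < p.2 + k0 ∧ p.2 < p.1 + k0 then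
        ((uj p.1 (Y q).1 * uj p.2 (Y q).2 : ℝ) : ℂ) * M q else 0‖ ≤ _
      split_ifs
      · exact hb _ _ _ (uj_abs_le _ _) (uj_abs_le _ _) (hM1 q)
      · rw [norm_zero]
        linarith
    · exact hb _ _ _ (uj_abs_le _ _) (hth _) (hM1 q)
    · exact hb _ _ _ (hth _) (uj_abs_le _ _) (hM1 q)
    · show ‖((rest (Y q) : ℝ) : ℂ) * M q‖ ≤ _
      rw [norm_mul, Complex.norm_real, Real.norm_eq_abs]
      calc |rest (Y q)| * ‖M q‖ ≤ (4 * (k0 : ℝ) + 4) * 1 :=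
            mul_le_mul (hr2 _) (hM1 q) (norm_nonneg _) (by linarith)
        _ = _ := mul_one _
  have h5 := FF_sum c hc T hT s F hF _ hB
  rw [hsum] at h5
  rw [h5]
  refine (norm_sum_le _ _).trans ?_
  simp only [s, Finset.sum_disjSum, Finset.sum_singleton, F, Sum.elim_inl, Sum.elim_inr]
  have h6 : ∑ x ∈ Finset.range J ×ˢ Finset.range J,
      ‖FF c T fun q => if x.1 < x.2 + k0 ∧ x.2 < x.1 + k0 then
        ((uj x.1 (Y q).1 * uj x.2 (Y q).2 : ℝ) : ℂ) * M q else 0‖ ≤ (J : ℝ) ^ 2 * K1 := by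
    refine (Finset.sum_le_card_nsmul _ _ K1 ?_).trans (le_of_eq ?_)
    · rintro ⟨j, k⟩ -
      simp only
      by_cases h7 : j < k + k0 ∧ k < j + k0
      · simp only [h7, and_self, if_true]
        exact h1 j k h7.1 h7.2
      · simp only [h7, if_false]
        have h8 : FF c T (fun _ => 0) = 0 := by
          unfold FF
          simp
        rw [h8, norm_zero]
        exact hK1
    · rw [Finset.card_product, Finset.card_range, nsmul_eq_mul]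
      push_cast
      ring
  have haJ' : (a : ℝ) ≤ J := by exact_mod_cast haJ
  have h7 : ∑ j ∈ Finset.range a, ‖FF c T fun q =>
      ((uj j (Y q).1 * th (2 ^ (j + k0) * (Y q).2) : ℝ) : ℂ) * M q‖ ≤ J * K2 := by
    refine (Finset.sum_le_card_nsmul _ _ K2 fun j _ => h2 j).trans ?_
    rw [Finset.card_range, nsmul_eq_mul]
    gcongr
  have h8 : ∑ k ∈ Finset.range a, ‖FF c T fun q =>
      ((th (2 ^ (k + k0) * (Y q).1) * uj k (Y q).2 : ℝ) : ℂ) * M q‖ ≤ J * K2 := by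
    refine (Finset.sum_le_card_nsmul _ _ K2 fun j _ => h3 j).trans ?_
    rw [Finset.card_range, nsmul_eq_mul]
    gcongr
  have h9 := h4 rest hr1 hr2 hr3
  linarith

end Pool.Agent.N1
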