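import Pool.Agent.N1.M2c

/-!
N1, block M2, part 4: the pieces of the dyadic decomposition.
-/

namespace Pool.Agent.N1

open MeasureTheory Set Metric Pool.Agent.MP_6cbfb8_an Pool.Agent.MST
open scoped ENNReal Real ContDiff

theorem m2_ex_add (x y : ℝ) : ex (x + y) = ex x * ex y := by
  unfold ex
  rw [← Complex.exp_add]
  congr 1
  push_cast
  ring

theorem m2_ex_conj (x : ℝ) : (starRingEnd ℂ) (ex x) = ex (-x) := by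
  unfold ex
  rw [← Complex.exp_conj, map_mul, Complex.conj_I, Complex.conj_ofReal]
  congr 1
  push_cast
  ring

theorem m2_ex_norm (x : ℝ) : ‖ex x‖ = 1 := hns_norm_ex x

/-- the density -/
noncomputable def m2_Q (G₁ G₂ : ℝ → ℂ) (q : V × V) : ℂ := sqM (pd (da G₁) (da G₂)) q

theorem m2_Q_swp (G₁ G₂ : ℝ → ℂ) (q : V × V) : m2_Q G₁ G₂ (swp q) = m2_Q G₁ G₂ q := by
  unfold m2_Q sqM pd da swp
  simp only [map_mul, Complex.conj_conj]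
  rw [sub_right_comm q.1.2.1 q.1.1, sub_right_comm q.2.2.1 q.2.1]
  ring

/-- the modulated density -/
noncomputable def m2_al (G : ℝ → ℂ) (η : ℝ) (p : ℝ × ℝ) : ℂ := da G p * ex (η * p.2)

theorem m2_sq_mod (G₁ G₂ : ℝ → ℂ) (η₁ η₂ : ℝ) (q : V × V) :
    sqM (pd (m2_al G₁ η₁) (m2_al G₂ η₂)) q =
      ex (η₁ * q.1.2.2) * ex (η₂ * q.2.2.2) * m2_Q G₁ G₂ q := by
  have h1 : ∀ η a z : ℝ, ex (η * a) * (starRingEnd ℂ) (ex (η * (a - z))) = ex (η * z) := by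
    intro η a z
    rw [m2_ex_conj, ← m2_ex_add]
    congr 1
    ring
  rw [← h1 η₁ q.1.2.1 q.1.2.2, ← h1 η₂ q.2.2.1 q.2.2.2]
  unfold m2_Q sqM pd m2_al
  simp only [map_mul]
  ring

theorem m2_da_meas {G : ℝ → ℂ} (hG : Measurable G) : Measurable (da G) := by
  unfold da
  exact (hG.comp measurable_snd).mul
    (Complex.continuous_conj.measurable.comp (hG.comp (measurable_snd.sub measurable_fst)))

theorem m2_al_meas {G : ℝ → ℂ} (hG : Measurable G) (η : ℝ) : Measurable (m2_al G η) := by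
  unfold m2_al
  exact (m2_da_meas hG).mul (measurable_ex.comp (measurable_snd.const_mul η))

theorem m2_da_norm {G : ℝ → ℂ} (hG : ∀ a, ‖G a‖ ≤ 1) (p : ℝ × ℝ) : ‖da G p‖ ≤ 1 := by
  unfold da
  rw [norm_mul, RCLike.norm_conj]
  exact mul_le_one₀ (hG _) (norm_nonneg _) (hG _)

theorem m2_al_norm {G : ℝ → ℂ} (hG : ∀ a, ‖G a‖ ≤ 1) (η : ℝ) (p : ℝ × ℝ) :
    ‖m2_al G η p‖ ≤ 1 := by
  unfold m2_al
  rw [norm_mul, m2_ex_norm, mul_one]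
  exact m2_da_norm hG p

theorem m2_pd_meas {α β : ℝ × ℝ → ℂ} (hα : Measurable α) (hβ : Measurable β) :
    Measurable (pd α β) := by
  unfold pd
  fun_prop

theorem m2_pd_norm {α β : ℝ × ℝ → ℂ} (hα : ∀ p, ‖α p‖ ≤ 1) (hβ : ∀ p, ‖β p‖ ≤ 1)
    (p : (ℝ × ℝ) × (ℝ × ℝ)) : ‖pd α β p‖ ≤ 1 := by
  unfold pd
  rw [norm_mul]
  exact mul_le_one₀ (hα _) (norm_nonneg _) (hβ _)

theorem m2_sqM_meas {M : (ℝ × ℝ) × (ℝ × ℝ) → ℂ} (hM : Measurable M) : Measurable (sqM M) := by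
  unfold sqM
  refine (hM.comp ?_).mul (Complex.continuous_conj.measurable.comp (hM.comp ?_)) <;> fun_prop

theorem m2_sqM_norm {M : (ℝ × ℝ) × (ℝ × ℝ) → ℂ} (hM : ∀ p, ‖M p‖ ≤ 1) (q : V × V) :
    ‖sqM M q‖ ≤ 1 := by
  unfold sqM
  rw [norm_mul, RCLike.norm_conj]
  exact mul_le_one₀ (hM _) (norm_nonneg _) (hM _)

theorem m2_Q_meas {G₁ G₂ : ℝ → ℂ} (h1 : Measurable G₁) (h2 : Measurable G₂) :
    Measurable (m2_Q G₁ G₂) :=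
  m2_sqM_meas (m2_pd_meas (m2_da_meas h1) (m2_da_meas h2))

theorem m2_Q_norm {G₁ G₂ : ℝ → ℂ} (h1 : ∀ a, ‖G₁ a‖ ≤ 1) (h2 : ∀ a, ‖G₂ a‖ ≤ 1) (q : V × V) :
    ‖m2_Q G₁ G₂ q‖ ≤ 1 :=
  m2_sqM_norm (m2_pd_norm (m2_da_norm h1) (m2_da_norm h2)) q

/-- the support condition of a cap -/
def m2_cap (c r x : ℝ) (G : ℝ → ℂ) : Prop := ∀ a, G a ≠ 0 → c ≤ a ∧ |a - x| ≤ r

theorem m2_da_ne {G : ℝ → ℂ} {p : ℝ × ℝ} (h : da G p ≠ 0) : G p.2 ≠ 0 ∧ G (p.2 - p.1) ≠ 0 := by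
  unfold da at h
  refine ⟨left_ne_zero_of_mul h, ?_⟩
  have h1 := right_ne_zero_of_mul h
  intro h2
  rw [h2] at h1
  simp at h1

theorem m2_Q_ne {G₁ G₂ : ℝ → ℂ} {q : V × V} (h : m2_Q G₁ G₂ q ≠ 0) :
    (G₁ q.1.2.1 ≠ 0 ∧ G₁ (q.1.2.1 - q.1.1) ≠ 0 ∧ G₁ (q.1.2.1 - q.1.2.2) ≠ 0 ∧
      G₁ (q.1.2.1 - q.1.1 - q.1.2.2) ≠ 0) ∧
    (G₂ q.2.2.1 ≠ 0 ∧ G₂ (q.2.2.1 - q.2.1) ≠ 0 ∧ G₂ (q.2.2.1 - q.2.2.2) ≠ 0 ∧
      G₂ (q.2.2.1 - q.2.1 - q.2.2.2) ≠ 0) := by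
  unfold m2_Q sqM at h
  have h1 := left_ne_zero_of_mul h
  have h2 : pd (da G₁) (da G₂)
      ((q.1.1, q.2.1), (q.1.2.1 - q.1.2.2, q.2.2.1 - q.2.2.2)) ≠ 0 := by
    intro h3
    rw [h3] at h
    simp at h
  unfold pd at h1 h2
  have h3 := m2_da_ne (left_ne_zero_of_mul h1)
  have h4 := m2_da_ne (right_ne_zero_of_mul h1)
  have h5 := m2_da_ne (left_ne_zero_of_mul h2)
  have h6 := m2_da_ne (right_ne_zero_of_mul h2)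
  simp only at h3 h4 h5 h6
  rw [sub_right_comm] at h5 h6
  exact ⟨⟨h3.1, h3.2, h5.1, h5.2⟩, h4.1, h4.2, h6.1, h6.2⟩

theorem m2_Q_Ge {c r x1 x2 : ℝ} {G₁ G₂ : ℝ → ℂ} (h1 : m2_cap c r x1 G₁) (h2 : m2_cap c r x2 G₂)
    {q : V × V} (h : m2_Q G₁ G₂ q ≠ 0) : Ge c q.1 ∧ Ge c q.2 := by
  obtain ⟨⟨a1, a2, a3, a4⟩, b1, b2, b3, b4⟩ := m2_Q_ne h
  exact ⟨⟨(h1 _ a1).1, (h1 _ a2).1, (h1 _ a3).1, (h1 _ a4).1⟩,
    (h2 _ b1).1, (h2 _ b2).1, (h2 _ b3).1, (h2 _ b4).1⟩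

theorem m2_Q_le {c r x1 x2 : ℝ} {G₁ G₂ : ℝ → ℂ} (h1 : m2_cap c r x1 G₁) (h2 : m2_cap c r x2 G₂)
    (hr : r ≤ 1 / 2) {q : V × V} (h : m2_Q G₁ G₂ q ≠ 0) :
    |q.1.1| ≤ 1 ∧ |q.2.1| ≤ 1 ∧ |q.1.2.2| ≤ 1 ∧ |q.2.2.2| ≤ 1 := by
  obtain ⟨⟨a1, a2, a3, a4⟩, b1, b2, b3, b4⟩ := m2_Q_ne h
  have key : ∀ (x a y : ℝ), |a - x| ≤ r → |a - y - x| ≤ r → |y| ≤ 1 := by
    intro x a y h3 h4
    rw [abs_le] at *
    constructor <;> linarith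
  exact ⟨key x1 _ _ (h1 _ a1).2 (h1 _ a2).2, key x2 _ _ (h2 _ b1).2 (h2 _ b2).2,
    key x1 _ _ (h1 _ a1).2 (h1 _ a3).2, key x2 _ _ (h2 _ b1).2 (h2 _ b3).2⟩

theorem m2_enorm_le {z : ℂ} {K : ℝ} (hK : 0 ≤ K) (h : ‖z‖ₑ ≤ ENNReal.ofReal K) : ‖z‖ ≤ K := by
  rw [← ofReal_norm] at h
  exact (ENNReal.ofReal_le_ofReal_iff hK).1 h


/-- a product of two dyadic pieces -/
noncomputable def m2_psi (j k : ℕ) (y : ℝ × ℝ) : ℂ := ((uj j y.1 * uj k y.2 : ℝ) : ℂ)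

theorem m2_psi_meas (j k : ℕ) : Measurable (m2_psi j k) :=
  Complex.measurable_ofReal.comp (((measurable_uj j).comp measurable_fst).mul
      ((measurable_uj k).comp measurable_snd))

theorem m2_psi_norm (j k : ℕ) (y : ℝ × ℝ) : ‖m2_psi j k y‖ ≤ 1 := by
  unfold m2_psi
  rw [Complex.norm_real, Real.norm_eq_abs, abs_mul]
  exact mul_le_one₀ (uj_abs_le _ _) (abs_nonneg _) (uj_abs_le _ _)

/-- a modulated density with a dyadic cut-off -/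
noncomputable def m2_ac (j : ℕ) (G : ℝ → ℂ) (η : ℝ) (p : ℝ × ℝ) : ℂ :=
  if uj j p.1 = 0 then 0 else m2_al G η p

theorem m2_ac_ne {j : ℕ} {G : ℝ → ℂ} {η : ℝ} {p : ℝ × ℝ} (hp : m2_ac j G η p ≠ 0) :
    uj j p.1 ≠ 0 ∧ G p.2 ≠ 0 ∧ G (p.2 - p.1) ≠ 0 := by
  unfold m2_ac at hp
  split_ifs at hp with h3
  · exact absurd rfl hp
  · unfold m2_al at hp
    exact ⟨h3, m2_da_ne (left_ne_zero_of_mul hp)⟩

theorem m2_ac_meas (j : ℕ) {G : ℝ → ℂ} (η : ℝ) (hG : Measurable G) :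
    Measurable (m2_ac j G η) := by
  unfold m2_ac
  refine Measurable.ite ?_ measurable_const (m2_al_meas hG η)
  exact ((measurable_uj j).comp measurable_fst) (measurableSet_singleton 0)

theorem m2_ac_norm (j : ℕ) {G : ℝ → ℂ} (η : ℝ) (hG : ∀ a, ‖G a‖ ≤ 1) (p : ℝ × ℝ) :
    ‖m2_ac j G η p‖ ≤ 1 := by
  unfold m2_ac
  split_ifs
  · simp
  · exact m2_al_norm hG η p

theorem m2_ac_pd (j k : ℕ) (G₁ G₂ : ℝ → ℂ) (η₁ η₂ : ℝ) :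
    (fun p : (ℝ × ℝ) × (ℝ × ℝ) =>
      if m2_psi j k p.1 = 0 then 0 else pd (m2_al G₁ η₁) (m2_al G₂ η₂) p) =
      pd (m2_ac j G₁ η₁) (m2_ac k G₂ η₂) := by
  funext p
  unfold pd m2_ac m2_psi
  simp only [Complex.ofReal_eq_zero, mul_eq_zero]
  by_cases h3 : uj j p.1.1 = 0
  · simp [h3]
  · by_cases h4 : uj k p.1.2 = 0
    · simp [h4]
    · simp [h3, h4]

/-- scaled form of the support of a dyadic piece -/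
theorem m2_uj_scale {j k k0 : ℕ} (hjk : j < k + k0) (hkj : k < j + k0) {x : ℝ}
    (h : uj k x ≠ 0) : 1 / 2 ^ (k0 + 1) ≤ |x / (1 / 2 ^ j)| ∧ |x / (1 / 2 ^ j)| ≤ 2 ^ (k0 + 1) := by
  obtain ⟨h6, h7⟩ := uj_support k x h
  have hj : (0 : ℝ) < 2 ^ j := by positivity
  have h0 : x / (1 / 2 ^ j) = x * 2 ^ j := by
    rw [div_div_eq_mul_div, div_one]
  rw [h0, abs_mul, abs_of_pos hj]
  rw [div_lt_iff₀ (by positivity)] at h6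
  rw [lt_div_iff₀ (by positivity)] at h7
  constructor
  · rw [div_le_iff₀ (by positivity)]
    have h1 : (2 : ℝ) ^ (k + 1) ≤ 2 ^ j * 2 ^ (k0 + 1) := by
      rw [← pow_add]
      exact pow_le_pow_right₀ (by norm_num) (by omega)
    nlinarith [abs_nonneg x]
  · have h1 : (2 : ℝ) ^ j * 2 ≤ 2 ^ k * 2 ^ (k0 + 1) := by
      rw [← pow_add, ← pow_succ]
      exact pow_le_pow_right₀ (by norm_num) (by omega)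
    have hk : (0 : ℝ) < 2 ^ k := by positivity
    have h2 : |x| * 2 ^ j * 2 ^ k ≤ 2 * 2 ^ j := by nlinarith
    nlinarith

theorem m2_uj_scale1 {j : ℕ} {x : ℝ}
    (h : uj j x ≠ 0) : 1 / 2 ≤ |x / (1 / 2 ^ j)| ∧ |x / (1 / 2 ^ j)| ≤ 2 := by
  obtain ⟨h6, h7⟩ := uj_support j x h
  have hj : (0 : ℝ) < 2 ^ j := by positivity
  have h0 : x / (1 / 2 ^ j) = x * 2 ^ j := by
    rw [div_div_eq_mul_div, div_one]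
  rw [h0, abs_mul, abs_of_pos hj]
  rw [div_lt_iff₀ (by positivity), pow_succ] at h6
  rw [lt_div_iff₀ (by positivity)] at h7
  constructor
  · linarith
  · linarith

/-- The conclusion of TH, as a property of the constants. -/
def m2_TH (c : ℝ) (k0 : ℕ) (r C : ℝ) : Prop := ∀ T : ℝ, 1 ≤ T →
    ∀ ρ : ℝ, 0 < ρ → ∀ x0 : ℝ × ℝ, ∀ α β : ℝ × ℝ → ℂ, Measurable α → Measurable β →
      (∀ p, ‖α p‖ ≤ 1) → (∀ p, ‖β p‖ ≤ 1) →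
      (∀ p, α p ≠ 0 → c ≤ p.2 ∧ c ≤ p.2 - p.1 ∧ |p.2 - x0.1| ≤ r ∧ |p.2 - p.1 - x0.1| ≤ r ∧
        1 / 2 ≤ |p.1 / ρ| ∧ |p.1 / ρ| ≤ 2) →
      (∀ p, β p ≠ 0 → c ≤ p.2 ∧ c ≤ p.2 - p.1 ∧ |p.2 - x0.2| ≤ r ∧ |p.2 - p.1 - x0.2| ≤ r ∧
        1 / 2 ^ (k0 + 1) ≤ |p.1 / ρ| ∧ |p.1 / ρ| ≤ 2 ^ (k0 + 1)) →
      Th c T (pd α β) ≤ ENNReal.ofReal (C * (1 + Real.log T) ^ 5 / T)

theorem m2_N0 (c : ℝ) (k0 : ℕ) (r C : ℝ) (hTH : m2_TH c k0 r C)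
    (T : ℝ) (hT : 1 ≤ T) (x1 x2 : ℝ) (G₁ G₂ : ℝ → ℂ) (h1 : Measurable G₁) (h2 : Measurable G₂)
    (b1 : ∀ a, ‖G₁ a‖ ≤ 1) (b2 : ∀ a, ‖G₂ a‖ ≤ 1) (hG1 : m2_cap c r x1 G₁)
    (hG2 : m2_cap c r x2 G₂) (j k : ℕ) (hjk : j < k + k0) (hkj : k < j + k0) (η₁ η₂ : ℝ) :
    Th c T (pd (m2_ac j G₁ η₁) (m2_ac k G₂ η₂)) ≤
      ENNReal.ofReal (C * (1 + Real.log T) ^ 5 / T) := by
  refine hTH T hT (1 / 2 ^ j) (by positivity) (x1, x2) _ _ (m2_ac_meas j η₁ h1)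
    (m2_ac_meas k η₂ h2) (m2_ac_norm j η₁ b1) (m2_ac_norm k η₂ b2) ?_ ?_
  · intro p hp
    obtain ⟨h3, h4, h5⟩ := m2_ac_ne hp
    obtain ⟨h6, h7⟩ := m2_uj_scale1 h3
    exact ⟨(hG1 _ h4).1, (hG1 _ h5).1, (hG1 _ h4).2, (hG1 _ h5).2, h6, h7⟩
  · intro p hp
    obtain ⟨h3, h4, h5⟩ := m2_ac_ne hp
    obtain ⟨h6, h7⟩ := m2_uj_scale hjk hkj h3
    exact ⟨(hG2 _ h4).1, (hG2 _ h5).1, (hG2 _ h4).2, (hG2 _ h5).2, h6, h7⟩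

/-- The nondegenerate pieces. -/
theorem m2_N (c : ℝ) (hc : 0 < c) (k0 : ℕ) (r C : ℝ) (hC : 0 ≤ C) (hTH : m2_TH c k0 r C)
    (T : ℝ) (hT : 1 ≤ T) (x1 x2 : ℝ) (G₁ G₂ : ℝ → ℂ) (h1 : Measurable G₁) (h2 : Measurable G₂)
    (b1 : ∀ a, ‖G₁ a‖ ≤ 1) (b2 : ∀ a, ‖G₂ a‖ ≤ 1) (hG1 : m2_cap c r x1 G₁)
    (hG2 : m2_cap c r x2 G₂) (j k : ℕ) (hjk : j < k + k0) (hkj : k < j + k0) (η₁ η₂ : ℝ) :
    ‖FF c T (fun q => m2_psi j k (q.1.1, q.2.1) *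
      (ex (η₁ * q.1.2.2) * ex (η₂ * q.2.2.2) * m2_Q G₁ G₂ q))‖ ≤
      C * (1 + Real.log T) ^ 5 / T := by
  have hT0 : 0 < T := by linarith
  have hL : 0 ≤ Real.log T := Real.log_nonneg hT
  refine m2_enorm_le (by positivity) ?_
  have h3 := FF_weight c hc T hT0 (pd (m2_al G₁ η₁) (m2_al G₂ η₂))
    (m2_pd_meas (m2_al_meas h1 η₁) (m2_al_meas h2 η₂))
    (m2_pd_norm (m2_al_norm b1 η₁) (m2_al_norm b2 η₂)) (m2_psi j k) (m2_psi_meas j k)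
    (m2_psi_norm j k)
  rw [m2_ac_pd] at h3
  simp only [m2_sq_mod] at h3
  exact h3.trans (m2_N0 c k0 r C hTH T hT x1 x2 G₁ G₂ h1 h2 b1 b2 hG1 hG2 j k hjk hkj η₁ η₂)

end Pool.Agent.N1
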