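import Pool.Agent.N1.M2d

/-!
N1, block M2, part 5: the estimate for one cap.
-/

namespace Pool.Agent.N1

open MeasureTheory Set Metric Pool.Agent.MP_6cbfb8_an Pool.Agent.MST
open scoped ENNReal Real ContDiff

/-- Outer direction near an axis, inner direction nondegenerate. -/
theorem m2_DN (c : ℝ) (hc : 0 < c) (k0 : ℕ) (r C : ℝ) (hC : 0 ≤ C) (hTH : m2_TH c k0 r C)
    (T : ℝ) (hT : 1 ≤ T) (x1 x2 : ℝ) (G₁ G₂ : ℝ → ℂ) (h1 : Measurable G₁) (h2 : Measurable G₂)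
    (b1 : ∀ a, ‖G₁ a‖ ≤ 1) (b2 : ∀ a, ‖G₂ a‖ ≤ 1) (hG1 : m2_cap c r x1 G₁)
    (hG2 : m2_cap c r x2 G₂) (j k : ℕ) (hjk : j < k + k0) (hkj : k < j + k0)
    (B : ℝ) (m1 m2 : ℝ → ℂ) (hm1 : FT1 B m1) (hm2 : FT1 B m2) (m2m : Measurable m2)
    (m2b : ∀ x, ‖m2 x‖ ≤ 1) :
    ‖FF c T (fun q => m2_psi j k (q.1.2.2, q.2.2.2) *
      (m1 q.1.1 * m2 q.2.1 * m2_Q G₁ G₂ q))‖ ≤
      B * (B * (C * (1 + Real.log T) ^ 5 / T)) := by
  have hT0 : 0 < T := by linarith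
  have hQm := m2_Q_meas h1 h2
  have hQn := m2_Q_norm b1 b2
  have hpm : Measurable fun q : V × V => m2_psi j k (q.1.2.2, q.2.2.2) :=
    (m2_psi_meas j k).comp (by fun_prop)
  -- the innermost estimate
  have k1 : ∀ η₁ η₂ : ℝ, ‖FF c T (fun q => ex (η₂ * q.2.1) * (ex (η₁ * q.1.1) *
      (m2_psi j k (q.1.2.2, q.2.2.2) * m2_Q G₁ G₂ q)))‖ ≤ C * (1 + Real.log T) ^ 5 / T := by
    intro η₁ η₂
    have h3 := m2_N c hc k0 r C hC hTH T hT x1 x2 G₁ G₂ h1 h2 b1 b2 hG1 hG2 j k hjk hkj η₁ η₂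
    rw [← FF_swp] at h3
    have h4 : (fun q : V × V => m2_psi j k ((swp q).1.1, (swp q).2.1) *
        (ex (η₁ * (swp q).1.2.2) * ex (η₂ * (swp q).2.2.2) * m2_Q G₁ G₂ (swp q))) =
        fun q => ex (η₂ * q.2.1) * (ex (η₁ * q.1.1) *
          (m2_psi j k (q.1.2.2, q.2.2.2) * m2_Q G₁ G₂ q)) := by
      funext q
      rw [m2_Q_swp]
      unfold swp
      simp only
      ring
    rw [h4] at h3
    exact h3
  have k2 : ∀ η₁ : ℝ, ‖FF c T (fun q => ex (η₁ * q.1.1) * (m2 q.2.1 *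
      (m2_psi j k (q.1.2.2, q.2.2.2) * m2_Q G₁ G₂ q)))‖ ≤
      B * (C * (1 + Real.log T) ^ 5 / T) := by
    intro η₁
    have h3 := expand c hc T hT0 B m2 hm2 (fun q => ex (η₁ * q.1.1) *
      (m2_psi j k (q.1.2.2, q.2.2.2) * m2_Q G₁ G₂ q)) ?_ 1 ?_ (fun q => q.2.1) (by fun_prop)
      (C * (1 + Real.log T) ^ 5 / T) (k1 η₁)
    · have h4 : (fun q : V × V => ex (η₁ * q.1.1) * (m2 q.2.1 *
          (m2_psi j k (q.1.2.2, q.2.2.2) * m2_Q G₁ G₂ q))) =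
          fun q : V × V => m2 q.2.1 * (ex (η₁ * q.1.1) *
          (m2_psi j k (q.1.2.2, q.2.2.2) * m2_Q G₁ G₂ q)) := by
        funext q
        ring
      rw [h4]
      exact h3
    · exact (measurable_ex.comp (by fun_prop)).mul (hpm.mul hQm)
    · intro q
      rw [norm_mul, norm_mul, m2_ex_norm, one_mul]
      exact mul_le_one₀ (m2_psi_norm _ _ _) (norm_nonneg _) (hQn _)
  have h3 := expand c hc T hT0 B m1 hm1 (fun q => m2 q.2.1 *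
      (m2_psi j k (q.1.2.2, q.2.2.2) * m2_Q G₁ G₂ q)) ?_ 1 ?_ (fun q => q.1.1) (by fun_prop)
      (B * (C * (1 + Real.log T) ^ 5 / T)) k2
  · have h4 : (fun q : V × V => m2_psi j k (q.1.2.2, q.2.2.2) *
        (m1 q.1.1 * m2 q.2.1 * m2_Q G₁ G₂ q)) =
        fun q : V × V => m1 q.1.1 * (m2 q.2.1 *
          (m2_psi j k (q.1.2.2, q.2.2.2) * m2_Q G₁ G₂ q)) := by
      funext q
      ring
    rw [h4]
    exact h3
  · exact (m2m.comp (by fun_prop)).mul (hpm.mul hQm)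
  · intro q
    rw [norm_mul, norm_mul]
    exact mul_le_one₀ (m2b _) (by positivity)
      (mul_le_one₀ (m2_psi_norm _ _ _) (norm_nonneg _) (hQn _))

/-- directions near one of the axes -/
def m2_Dg (k0 : ℕ) (s : ℝ) (y : ℝ × ℝ) : Prop :=
  |y.1| ≤ 2 * s ∧ |y.2| ≤ 2 * s ∧ ((s / 2 ≤ |y.1| ∧ |y.2| ≤ 4 / 2 ^ k0 * |y.1|) ∨
    (s / 2 ≤ |y.2| ∧ |y.1| ≤ 4 / 2 ^ k0 * |y.2|))

theorem m2_Dg_uj {j k0 : ℕ} {x y : ℝ} (h : uj j x * th (2 ^ (j + k0) * y) ≠ 0) :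
    |x| ≤ 2 * (1 / 2 ^ j) ∧ |y| ≤ 2 * (1 / 2 ^ j) ∧
      (1 / 2 ^ j) / 2 ≤ |x| ∧ |y| ≤ 4 / 2 ^ k0 * |x| := by
  obtain ⟨h1, h2⟩ := uj_support j x (left_ne_zero_of_mul h)
  have h3 := th_support _ (right_ne_zero_of_mul h)
  have hj : (0 : ℝ) < 2 ^ j := by positivity
  have hk : (0 : ℝ) < 2 ^ k0 := by positivity
  have hk1 : (1 : ℝ) ≤ 2 ^ k0 := one_le_pow₀ (by norm_num)
  rw [abs_mul, abs_of_pos (by positivity), pow_add] at h3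
  have h4 : |y| ≤ 2 / 2 ^ k0 * (1 / 2 ^ j) := by
    rw [div_mul_div_comm, le_div_iff₀ (by positivity)]
    nlinarith
  have h5 : (1 / 2 ^ j) / 2 ≤ |x| := by
    rw [pow_succ] at h1
    have : (1 : ℝ) / (2 ^ j * 2) = 1 / 2 ^ j / 2 := by ring
    rw [← this]
    exact h1.le
  refine ⟨?_, ?_, h5, ?_⟩
  · have : (2 : ℝ) / 2 ^ j = 2 * (1 / 2 ^ j) := by ring
    rw [← this]
    exact h2.le
  · refine h4.trans ?_
    have h6 : 2 / (2 : ℝ) ^ k0 ≤ 2 := div_le_self (by norm_num) hk1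
    gcongr
  · refine h4.trans ?_
    have h6 : 4 / (2 : ℝ) ^ k0 * (1 / 2 ^ j / 2) ≤ 4 / 2 ^ k0 * |x| := by gcongr
    refine le_trans (le_of_eq ?_) h6
    ring

/-- Both directions near an axis. -/
theorem m2_DD (c : ℝ) (hc : 0 < c) : ∃ k0 : ℕ, 1 ≤ k0 ∧ ∃ C : ℝ, 0 ≤ C ∧ ∀ T : ℝ, 0 < T →
    ∀ (M : V × V → ℂ) (s s' : ℝ), Measurable M → (∀ q, ‖M q‖ ≤ 1) → 0 < s → 0 < s' →
    (∀ q, M q ≠ 0 → Ge c q.1 ∧ Ge c q.2 ∧ m2_Dg k0 s (q.1.1, q.2.1) ∧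
      m2_Dg k0 s' (q.1.2.2, q.2.2.2)) →
    ‖FF c T M‖ ≤ C / T := by
  obtain ⟨k0, c1, hk0, hc1, hE⟩ := E_DD c hc
  obtain ⟨C, hC, hA⟩ := m2_abs c hc
  refine ⟨k0, hk0, 256 * C / c1 ^ 2, by positivity, ?_⟩
  intro T hT M s s' hM hM1 hs hs' hsup
  have h1 := hA T hT M (2 * s) (2 * s') (c1 * (s / 2) * (s' / 2)) hM hM1 (by positivity)
    (by positivity) (by positivity) ?_
  · refine h1.trans ?_
    set X : ℝ := T * (c1 * (s / 2) * (s' / 2)) with hX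
    have hX0 : 0 ≤ X := by positivity
    have h2 : C * T * ((2 * s) ^ 2 * (2 * s') ^ 2) = 256 * C / c1 ^ 2 / T * X ^ 2 := by
      rw [hX]
      field_simp
      ring
    rw [h2, div_le_iff₀ (by positivity)]
    have h3 : X ^ 2 ≤ (1 + X) ^ 3 := by nlinarith [pow_nonneg hX0 3, pow_nonneg hX0 2]
    have h4 : 0 ≤ 256 * C / c1 ^ 2 / T := by positivity
    gcongr
  · intro q hq hW
    obtain ⟨hG1, hG2, ⟨a1, a2, a3⟩, d1, d2, d3⟩ := hsup q hq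
    simp only at a1 a2 a3 d1 d2 d3
    obtain ⟨e1, e2, e3, e4⟩ := hE q hG1 hG2 hW
    refine ⟨a1, a2, d1, d2, ?_⟩
    have key : ∀ u v w : ℝ, s / 2 ≤ u → s' / 2 ≤ v → c1 * u * v ≤ w →
        c1 * (s / 2) * (s' / 2) ≤ w := by
      intro u v w hu hv hw
      have hu0 : 0 ≤ u := le_trans (by positivity) hu
      refine le_trans ?_ hw
      gcongr
    rcases a3 with ⟨a3, a4⟩ | ⟨a3, a4⟩
    · rcases d3 with ⟨d3, d4⟩ | ⟨d3, d4⟩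
      · exact key _ _ _ a3 d3 (e1 a4 d4)
      · exact key _ _ _ a3 d3 (e2 a4 d4)
    · rcases d3 with ⟨d3, d4⟩ | ⟨d3, d4⟩
      · exact key _ _ _ a3 d3 (e3 a4 d4)
      · exact key _ _ _ a3 d3 (e4 a4 d4)

/-- The low part of a partition. -/
theorem m2_rest (c : ℝ) (hc : 0 < c) (k0 : ℕ) : ∃ C : ℝ, 0 ≤ C ∧ ∀ T : ℝ, 1 ≤ T → ∀ J : ℕ,
    T ≤ 2 ^ J → ∀ (M : V × V → ℂ) (rest : ℝ × ℝ → ℝ) (Y : V × V → ℝ × ℝ), Measurable M →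
    (∀ q, ‖M q‖ ≤ 1) → Measurable Y → Measurable rest → (∀ y, |rest y| ≤ 4 * (k0 : ℝ) + 4) →
    (∀ y, rest y ≠ 0 → (|y.1| ≤ 2 ^ (k0 + 2) / 2 ^ J ∧ |y.2| ≤ 2 ^ (k0 + 2) / 2 ^ J)) →
    (∀ q, M q ≠ 0 → |q.1.1| ≤ 1 ∧ |q.2.1| ≤ 1 ∧ |q.1.2.2| ≤ 1 ∧ |q.2.2.2| ≤ 1) →
    ((∀ q, Y q = (q.1.1, q.2.1)) ∨ (∀ q, Y q = (q.1.2.2, q.2.2.2))) →
    ‖FF c T (fun q => ((rest (Y q) : ℝ) : ℂ) * M q)‖ ≤ C / T := by
  obtain ⟨C, hC, hA⟩ := m2_abs c hc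
  refine ⟨(4 * (k0 : ℝ) + 4) * (C * (2 ^ (k0 + 2)) ^ 2), by positivity, ?_⟩
  intro T hT J hJ M rest Y hM hM1 hY hr hr1 hr2 hMs hYc
  have hT0 : 0 < T := by linarith
  have hk : (0 : ℝ) < 4 * (k0 : ℝ) + 4 := by positivity
  have e1 : (fun q => ((rest (Y q) : ℝ) : ℂ) * M q) =
      fun q => ((4 * (k0 : ℝ) + 4 : ℝ) : ℂ) *
        (((rest (Y q) / (4 * (k0 : ℝ) + 4) : ℝ) : ℂ) * M q) := by
    funext q
    rw [← mul_assoc, ← Complex.ofReal_mul]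
    congr 3
    field_simp
  rw [e1, m2_FF_smul, norm_mul, Complex.norm_real, Real.norm_eq_abs, abs_of_pos hk]
  set e : ℝ := 2 ^ (k0 + 2) / 2 ^ J with he
  have he0 : 0 ≤ e := by positivity
  have hbound : C * T * e ^ 2 ≤ C * (2 ^ (k0 + 2)) ^ 2 / T := by
    rw [he, div_pow, le_div_iff₀ hT0]
    have h3 : T ^ 2 ≤ (2 ^ J) ^ 2 := by gcongr
    have h4 : (0 : ℝ) < (2 ^ J) ^ 2 := by positivity
    have h5 : C * T * ((2 ^ (k0 + 2)) ^ 2 / (2 ^ J) ^ 2) * T =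
        C * (2 ^ (k0 + 2)) ^ 2 * (T ^ 2 / (2 ^ J) ^ 2) := by ring
    rw [h5]
    have h6 : T ^ 2 / (2 ^ J) ^ 2 ≤ 1 := (div_le_one h4).2 h3
    calc C * (2 ^ (k0 + 2)) ^ 2 * (T ^ 2 / (2 ^ J) ^ 2) ≤ C * (2 ^ (k0 + 2)) ^ 2 * 1 := by
          gcongr
      _ = _ := mul_one _
  have hm : Measurable fun q => ((rest (Y q) / (4 * (k0 : ℝ) + 4) : ℝ) : ℂ) * M q :=
    (Complex.measurable_ofReal.comp ((hr.comp hY).div_const _)).mul hM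
  have hn : ∀ q, ‖((rest (Y q) / (4 * (k0 : ℝ) + 4) : ℝ) : ℂ) * M q‖ ≤ 1 := by
    intro q
    rw [norm_mul, Complex.norm_real, Real.norm_eq_abs, abs_div, abs_of_pos hk]
    exact mul_le_one₀ ((div_le_one hk).2 (hr1 _)) (norm_nonneg _) (hM1 _)
  have hne : ∀ q, ((rest (Y q) / (4 * (k0 : ℝ) + 4) : ℝ) : ℂ) * M q ≠ 0 →
      rest (Y q) ≠ 0 ∧ M q ≠ 0 := by
    intro q hq
    refine ⟨?_, right_ne_zero_of_mul hq⟩
    intro h3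
    rw [h3] at hq
    simp at hq
  have hfin : ‖FF c T fun q => ((rest (Y q) / (4 * (k0 : ℝ) + 4) : ℝ) : ℂ) * M q‖ ≤
      C * (2 ^ (k0 + 2)) ^ 2 / T := by
    refine le_trans ?_ hbound
    rcases hYc with hYc | hYc
    · have h3 := hA T hT0 _ e 1 0 hm hn he0 zero_le_one le_rfl ?_
      · refine h3.trans (le_of_eq ?_)
        ring
      · intro q hq _
        obtain ⟨h4, h5⟩ := hne q hq
        have h6 := hr2 _ h4
        rw [hYc] at h6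
        have h7 := hMs q h5
        exact ⟨h6.1, h6.2, h7.2.2.1, h7.2.2.2, abs_nonneg _⟩
    · have h3 := hA T hT0 _ 1 e 0 hm hn zero_le_one he0 le_rfl ?_
      · refine h3.trans (le_of_eq ?_)
        ring
      · intro q hq _
        obtain ⟨h4, h5⟩ := hne q hq
        have h6 := hr2 _ h4
        rw [hYc] at h6
        have h7 := hMs q h5
        exact ⟨h7.1, h7.2.1, h6.1, h6.2, abs_nonneg _⟩
  calc (4 * (k0 : ℝ) + 4) * ‖FF c T fun q =>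
        ((rest (Y q) / (4 * (k0 : ℝ) + 4) : ℝ) : ℂ) * M q‖ ≤
        (4 * (k0 : ℝ) + 4) * (C * (2 ^ (k0 + 2)) ^ 2 / T) := by gcongr
    _ = _ := by ring

end Pool.Agent.N1
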