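import Pool.Agent.N1.M2e

/-!
N1, block M2, part 6: the estimate for one cap, assembly.
-/

namespace Pool.Agent.N1

open MeasureTheory Set Metric Pool.Agent.MP_6cbfb8_an Pool.Agent.MST
open scoped ENNReal Real ContDiff

/-- The conclusion of `m2_DD`. -/
def m2_DDp (c : ℝ) (k0 : ℕ) (C : ℝ) : Prop := ∀ T : ℝ, 0 < T →
    ∀ (M : V × V → ℂ) (s s' : ℝ), Measurable M → (∀ q, ‖M q‖ ≤ 1) → 0 < s → 0 < s' →
    (∀ q, M q ≠ 0 → Ge c q.1 ∧ Ge c q.2 ∧ m2_Dg k0 s (q.1.1, q.2.1) ∧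
      m2_Dg k0 s' (q.1.2.2, q.2.2.2)) →
    ‖FF c T M‖ ≤ C / T

/-- The conclusion of `m2_rest`. -/
def m2_Rp (c : ℝ) (k0 : ℕ) (C : ℝ) : Prop := ∀ T : ℝ, 1 ≤ T → ∀ J : ℕ,
    T ≤ 2 ^ J → ∀ (M : V × V → ℂ) (rest : ℝ × ℝ → ℝ) (Y : V × V → ℝ × ℝ), Measurable M →
    (∀ q, ‖M q‖ ≤ 1) → Measurable Y → Measurable rest → (∀ y, |rest y| ≤ 4 * (k0 : ℝ) + 4) →
    (∀ y, rest y ≠ 0 → (|y.1| ≤ 2 ^ (k0 + 2) / 2 ^ J ∧ |y.2| ≤ 2 ^ (k0 + 2) / 2 ^ J)) →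
    (∀ q, M q ≠ 0 → |q.1.1| ≤ 1 ∧ |q.2.1| ≤ 1 ∧ |q.1.2.2| ≤ 1 ∧ |q.2.2.2| ≤ 1) →
    ((∀ q, Y q = (q.1.1, q.2.1)) ∨ (∀ q, Y q = (q.1.2.2, q.2.2.2))) →
    ‖FF c T (fun q => ((rest (Y q) : ℝ) : ℂ) * M q)‖ ≤ C / T

theorem m2_abs_th (x : ℝ) : |th x| ≤ 1 := by
  rw [abs_of_nonneg (th_nonneg x)]
  exact th_le_one x

theorem m2_mul_norm {x y : ℝ} {z : ℂ} (hx : |x| ≤ 1) (hy : |y| ≤ 1) (hz : ‖z‖ ≤ 1) :
    ‖((x * y : ℝ) : ℂ) * z‖ ≤ 1 := by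
  rw [norm_mul, Complex.norm_real, Real.norm_eq_abs, abs_mul]
  exact mul_le_one₀ (mul_le_one₀ hx (abs_nonneg _) hy) (norm_nonneg _) hz

theorem m2_mul_ne {x y : ℝ} {z : ℂ} (h : ((x * y : ℝ) : ℂ) * z ≠ 0) : x * y ≠ 0 ∧ z ≠ 0 := by
  refine ⟨?_, right_ne_zero_of_mul h⟩
  intro h1
  rw [h1] at h
  simp at h

/-- Outer direction near an axis. -/
theorem m2_D (c : ℝ) (hc : 0 < c) (k0 : ℕ) (hk0 : 1 ≤ k0) (r C CD CR : ℝ) (hC : 0 ≤ C)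
    (hCD : 0 ≤ CD) (hr : r ≤ 1 / 2) (hTH : m2_TH c k0 r C) (hDD : m2_DDp c k0 CD)
    (hRR : m2_Rp c k0 CR) (T : ℝ) (hT : 1 ≤ T) (J : ℕ) (hJ : k0 ≤ J) (hTJ : T ≤ 2 ^ J)
    (x1 x2 : ℝ) (G₁ G₂ : ℝ → ℂ) (h1 : Measurable G₁) (h2 : Measurable G₂)
    (b1 : ∀ a, ‖G₁ a‖ ≤ 1) (b2 : ∀ a, ‖G₂ a‖ ≤ 1) (hG1 : m2_cap c r x1 G₁)
    (hG2 : m2_cap c r x2 G₂) (B : ℝ) (hB : 0 ≤ B) (m1 m2 : ℝ → ℝ)
    (hm1 : FT1 B fun x => ((m1 x : ℝ) : ℂ)) (hm2 : FT1 B fun x => ((m2 x : ℝ) : ℂ))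
    (m1m : Measurable m1) (m2m : Measurable m2) (m1b : ∀ x, |m1 x| ≤ 1) (m2b : ∀ x, |m2 x| ≤ 1)
    (s : ℝ) (hs : 0 < s) (hm : ∀ x y, m1 x * m2 y ≠ 0 → m2_Dg k0 s (x, y)) :
    ‖FF c T (fun q => ((m1 q.1.1 * m2 q.2.1 : ℝ) : ℂ) * m2_Q G₁ G₂ q)‖ ≤
      (J : ℝ) ^ 2 * (B * (B * (C * (1 + Real.log T) ^ 5 / T))) + 2 * J * (CD / T) + CR / T := by
  have hT0 : 0 < T := by linarith
  have hL : 0 ≤ Real.log T := Real.log_nonneg hT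
  have hQm := m2_Q_meas h1 h2
  have hQn := m2_Q_norm b1 b2
  have hYm : Measurable fun q : V × V => (q.1.2.2, q.2.2.2) := by fun_prop
  have hMm : Measurable fun q : V × V => ((m1 q.1.1 * m2 q.2.1 : ℝ) : ℂ) * m2_Q G₁ G₂ q :=
    (Complex.measurable_ofReal.comp ((m1m.comp (by fun_prop)).mul (m2m.comp (by fun_prop)))).mul
      hQm
  have hMn : ∀ q : V × V, ‖((m1 q.1.1 * m2 q.2.1 : ℝ) : ℂ) * m2_Q G₁ G₂ q‖ ≤ 1 :=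
    fun q => m2_mul_norm (m1b _) (m2b _) (hQn q)
  have hMs : ∀ q : V × V, ((m1 q.1.1 * m2 q.2.1 : ℝ) : ℂ) * m2_Q G₁ G₂ q ≠ 0 →
      m2_Dg k0 s (q.1.1, q.2.1) ∧ m2_Q G₁ G₂ q ≠ 0 := by
    intro q hq
    obtain ⟨h3, h4⟩ := m2_mul_ne hq
    exact ⟨hm _ _ h3, h4⟩
  refine m2_part c hc T hT0 k0 J hk0 hJ (fun q => (q.1.2.2, q.2.2.2)) hYm
    (fun q => ((m1 q.1.1 * m2 q.2.1 : ℝ) : ℂ) * m2_Q G₁ G₂ q) hMm hMn ?_ _ _ _ (by positivity)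
    (by positivity) ?_ ?_ ?_ ?_
  · intro q hq
    have h3 := m2_Q_le hG1 hG2 hr (hMs q hq).2
    exact ⟨h3.2.2.1, h3.2.2.2⟩
  · intro j k hjk hkj
    have h3 := m2_DN c hc k0 r C hC hTH T hT x1 x2 G₁ G₂ h1 h2 b1 b2 hG1 hG2 j k hjk hkj B
      (fun x => ((m1 x : ℝ) : ℂ)) (fun x => ((m2 x : ℝ) : ℂ)) hm1 hm2
      (Complex.measurable_ofReal.comp m2m) (fun x => by
        rw [Complex.norm_real, Real.norm_eq_abs]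
        exact m2b x)
    have e1 : (fun q : V × V => m2_psi j k (q.1.2.2, q.2.2.2) *
        (((m1 q.1.1 : ℝ) : ℂ) * ((m2 q.2.1 : ℝ) : ℂ) * m2_Q G₁ G₂ q)) =
        fun q : V × V => ((uj j q.1.2.2 * uj k q.2.2.2 : ℝ) : ℂ) *
          (((m1 q.1.1 * m2 q.2.1 : ℝ) : ℂ) * m2_Q G₁ G₂ q) := by
      funext q
      unfold m2_psi
      push_cast
      ring
    rw [e1] at h3
    exact h3
  · intro j
    refine hDD T hT0 _ s (1 / 2 ^ j) ?_ ?_ hs (by positivity) ?_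
    · exact (Complex.measurable_ofReal.comp (((measurable_uj j).comp (by fun_prop)).mul
        (measurable_th.comp (by fun_prop)))).mul hMm
    · intro q
      exact m2_mul_norm (uj_abs_le _ _) (m2_abs_th _) (hMn q)
    · intro q hq
      obtain ⟨h3, h4⟩ := m2_mul_ne hq
      obtain ⟨h5, h6⟩ := hMs q h4
      have h7 := m2_Q_Ge hG1 hG2 h6
      obtain ⟨d1, d2, d3, d4⟩ := m2_Dg_uj h3
      exact ⟨h7.1, h7.2, h5, d1, d2, Or.inl ⟨d3, d4⟩⟩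
  · intro j
    refine hDD T hT0 _ s (1 / 2 ^ j) ?_ ?_ hs (by positivity) ?_
    · exact (Complex.measurable_ofReal.comp ((measurable_th.comp (by fun_prop)).mul
        ((measurable_uj j).comp (by fun_prop)))).mul hMm
    · intro q
      exact m2_mul_norm (m2_abs_th _) (uj_abs_le _ _) (hMn q)
    · intro q hq
      obtain ⟨h3, h4⟩ := m2_mul_ne hq
      obtain ⟨h5, h6⟩ := hMs q h4
      have h7 := m2_Q_Ge hG1 hG2 h6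
      rw [mul_comm] at h3
      obtain ⟨d1, d2, d3, d4⟩ := m2_Dg_uj h3
      exact ⟨h7.1, h7.2, h5, d2, d1, Or.inr ⟨d3, d4⟩⟩
  · intro rest hr1 hr2 hr3
    refine hRR T hT J hTJ _ rest _ hMm hMn hYm hr1 hr2 hr3 ?_ (Or.inr fun q => rfl)
    intro q hq
    exact m2_Q_le hG1 hG2 hr (hMs q hq).2

/-- The form of one cap. -/
theorem m2_cap_FF (c : ℝ) (hc : 0 < c) (k0 : ℕ) (hk0 : 1 ≤ k0) (r C CD CR : ℝ) (hC : 0 ≤ C)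
    (hCD : 0 ≤ CD) (hCR : 0 ≤ CR) (hr : r ≤ 1 / 2) (hTH : m2_TH c k0 r C)
    (hDD : m2_DDp c k0 CD)
    (hRR : m2_Rp c k0 CR) (T : ℝ) (hT : 1 ≤ T) (J : ℕ) (hJ : k0 ≤ J) (hTJ : T ≤ 2 ^ J)
    (x1 x2 : ℝ) (G₁ G₂ : ℝ → ℂ) (h1 : Measurable G₁) (h2 : Measurable G₂)
    (b1 : ∀ a, ‖G₁ a‖ ≤ 1) (b2 : ∀ a, ‖G₂ a‖ ≤ 1) (hG1 : m2_cap c r x1 G₁)
    (hG2 : m2_cap c r x2 G₂) (B : ℝ) (hB : 0 ≤ B) (hth : FT1 B fun x => ((th x : ℝ) : ℂ)) :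
    ‖FF c T (m2_Q G₁ G₂)‖ ≤
      (J : ℝ) ^ 2 * (C * (1 + Real.log T) ^ 5 / T) + 2 * J *
      ((J : ℝ) ^ 2 * ((B + B) * ((B + B) * (C * (1 + Real.log T) ^ 5 / T))) +
        2 * J * (CD / T) + CR / T) + CR / T := by
  have hT0 : 0 < T := by linarith
  have hL : 0 ≤ Real.log T := Real.log_nonneg hT
  have hQm := m2_Q_meas h1 h2
  have hQn := m2_Q_norm b1 b2
  have hYm : Measurable fun q : V × V => (q.1.1, q.2.1) := by fun_prop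
  have f1 : ∀ n : ℕ, FT1 B fun x => ((th (2 ^ n * x) : ℝ) : ℂ) := fun n =>
    FT1_scale B _ hth (2 ^ n) (by positivity)
  have f2 : ∀ n : ℕ, FT1 (B + B) fun x => ((uj n x : ℝ) : ℂ) := by
    intro n
    have h3 := FT1_sub B B _ _ (f1 n) (f1 (n + 1))
    have e1 : (fun x => ((uj n x : ℝ) : ℂ)) =
        fun x => ((th (2 ^ n * x) : ℝ) : ℂ) - ((th (2 ^ (n + 1) * x) : ℝ) : ℂ) := by
      funext x
      unfold uj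
      push_cast
      rfl
    rw [e1]
    exact h3
  have f3 : ∀ n : ℕ, FT1 (B + B) fun x => ((th (2 ^ n * x) : ℝ) : ℂ) := by
    intro n
    obtain ⟨w, hw1, hw2, hw3⟩ := f1 n
    exact ⟨w, hw1, by linarith, hw3⟩
  have mth : ∀ n : ℕ, Measurable fun x : ℝ => th (2 ^ n * x) := fun n =>
    measurable_th.comp (by fun_prop)
  refine m2_part c hc T hT0 k0 J hk0 hJ (fun q => (q.1.1, q.2.1)) hYm
    (m2_Q G₁ G₂) hQm hQn ?_ _ _ _ (by positivity) (by positivity) ?_ ?_ ?_ ?_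
  · intro q hq
    have h3 := m2_Q_le hG1 hG2 hr hq
    exact ⟨h3.1, h3.2.1⟩
  · intro j k hjk hkj
    have h3 := m2_N c hc k0 r C hC hTH T hT x1 x2 G₁ G₂ h1 h2 b1 b2 hG1 hG2 j k hjk hkj 0 0
    have h0 : ex 0 = 1 := by
      unfold ex
      simp
    simp only [zero_mul, h0, one_mul] at h3
    exact h3
  · intro j
    exact m2_D c hc k0 hk0 r C CD CR hC hCD hr hTH hDD hRR T hT J hJ hTJ x1 x2 G₁ G₂ h1 h2 b1 b2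
      hG1 hG2 (B + B) (by positivity) (uj j) (fun x => th (2 ^ (j + k0) * x)) (f2 j)
      (f3 (j + k0)) (measurable_uj j) (mth _) (uj_abs_le j) (fun x => m2_abs_th _) (1 / 2 ^ j)
      (by positivity) (fun x y h => by
        obtain ⟨d1, d2, d3, d4⟩ := m2_Dg_uj h
        exact ⟨d1, d2, Or.inl ⟨d3, d4⟩⟩)
  · intro j
    exact m2_D c hc k0 hk0 r C CD CR hC hCD hr hTH hDD hRR T hT J hJ hTJ x1 x2 G₁ G₂ h1 h2 b1 b2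
      hG1 hG2 (B + B) (by positivity) (fun x => th (2 ^ (j + k0) * x)) (uj j)
      (f3 (j + k0)) (f2 j) (mth _) (measurable_uj j) (fun x => m2_abs_th _) (uj_abs_le j)
      (1 / 2 ^ j) (by positivity) (fun x y h => by
        rw [mul_comm] at h
        obtain ⟨d1, d2, d3, d4⟩ := m2_Dg_uj h
        exact ⟨d2, d1, Or.inr ⟨d3, d4⟩⟩)
  · intro rest hr1 hr2 hr3
    refine hRR T hT J hTJ _ rest _ hQm hQn hYm hr1 hr2 hr3 ?_ (Or.inl fun q => rfl)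
    intro q hq
    exact m2_Q_le hG1 hG2 hr hq

/-- The number of dyadic scales. -/
theorem m2_scales (k0 : ℕ) (T : ℝ) (hT : 1 ≤ T) : ∃ J : ℕ, k0 ≤ J ∧ T ≤ 2 ^ J ∧
    (J : ℝ) ≤ ((k0 : ℝ) + 2) * (1 + Real.log T) := by
  have hT0 : 0 < T := by linarith
  have hL : 0 ≤ Real.log T := Real.log_nonneg hT
  refine ⟨k0 + ⌈Real.logb 2 T⌉₊, Nat.le_add_right _ _, ?_, ?_⟩
  · calc T = (2 : ℝ) ^ Real.logb 2 T := (Real.rpow_logb (by norm_num) (by norm_num) hT0).symm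
      _ ≤ (2 : ℝ) ^ ((k0 + ⌈Real.logb 2 T⌉₊ : ℕ) : ℝ) := by
          apply Real.rpow_le_rpow_of_exponent_le (by norm_num)
          push_cast
          have h1 := Nat.le_ceil (Real.logb 2 T)
          have h2 : (0 : ℝ) ≤ k0 := Nat.cast_nonneg _
          linarith
      _ = _ := Real.rpow_natCast _ _
  · have h1 : 0 ≤ Real.logb 2 T := Real.logb_nonneg (by norm_num) hT
    have h2 := Nat.ceil_lt_add_one h1
    have h3 : Real.logb 2 T ≤ 2 * Real.log T := by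
      unfold Real.logb
      rw [div_le_iff₀ (Real.log_pos (by norm_num))]
      have h4 := Real.log_two_gt_d9
      nlinarith
    have h4 : (0 : ℝ) ≤ k0 := Nat.cast_nonneg _
    push_cast
    nlinarith

/-- The estimate for one cap. -/
theorem m2_capest (c : ℝ) (hc : 0 < c) : ∃ r : ℝ, 0 < r ∧ ∃ C : ℝ, 0 ≤ C ∧ ∀ T : ℝ, 1 ≤ T →
    ∀ (x1 x2 : ℝ) (G₁ G₂ : ℝ → ℂ), Measurable G₁ → Measurable G₂ →
    (∀ a, ‖G₁ a‖ ≤ 1) → (∀ a, ‖G₂ a‖ ≤ 1) → m2_cap c r x1 G₁ → m2_cap c r x2 G₂ →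
    ∫⁻ t in Icc T (2 * T), ∫⁻ ξ : ℝ × ℝ, ‖Eo c G₁ G₂ t ξ‖ₑ ^ 4 ≤
      ENNReal.ofReal (C * (1 + Real.log T) ^ 8 / T) := by
  obtain ⟨k0, hk0, CD, hCD, hDD⟩ := m2_DD c hc
  obtain ⟨r', hr', C, hC, hTH⟩ := TH c hc k0
  obtain ⟨CR, hCR, hRR⟩ := m2_rest c hc k0
  obtain ⟨B, hB, hth⟩ := FT1_th
  have hTH1 : m2_TH c k0 (min r' (1 / 2)) C := by
    intro T hT ρ hρ x0 α β hα hβ hα1 hβ1 hαs hβs
    refine hTH T hT ρ hρ x0 α β hα hβ hα1 hβ1 ?_ ?_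
    · intro p hp
      obtain ⟨h1, h2, h3, h4, h5⟩ := hαs p hp
      exact ⟨h1, h2, h3.trans (min_le_left _ _), h4.trans (min_le_left _ _), h5⟩
    · intro p hp
      obtain ⟨h1, h2, h3, h4, h5⟩ := hβs p hp
      exact ⟨h1, h2, h3.trans (min_le_left _ _), h4.trans (min_le_left _ _), h5⟩
  set A : ℝ := (k0 : ℝ) + 2 with hA
  have hA0 : 0 ≤ A := by positivity
  refine ⟨min r' (1 / 2), lt_min hr' (by norm_num),
    A ^ 2 * C + 2 * A ^ 3 * (2 * B) ^ 2 * C + 4 * A ^ 2 * CD + 2 * A * CR + CR, by positivity, ?_⟩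
  intro T hT x1 x2 G₁ G₂ h1 h2 b1 b2 hG1 hG2
  have hT0 : 0 < T := by linarith
  have hL : 0 ≤ Real.log T := Real.log_nonneg hT
  obtain ⟨J, hJ, hTJ, hJA⟩ := m2_scales k0 T hT
  refine (four c hc T hT0 G₁ G₂ h1 h2 b1 b2).trans ?_
  rw [Th_eq c hc T hT0 _ (m2_pd_meas (m2_da_meas h1) (m2_da_meas h2))
    (m2_pd_norm (m2_da_norm b1) (m2_da_norm b2))]
  have h3 := m2_cap_FF c hc k0 hk0 (min r' (1 / 2)) C CD CR hC hCD hCR (min_le_right _ _) hTH1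
    hDD hRR T hT J hJ hTJ x1 x2 G₁ G₂ h1 h2 b1 b2 hG1 hG2 B hB hth
  have h4 : FF c T (sqM (pd (da G₁) (da G₂))) = FF c T (m2_Q G₁ G₂) := rfl
  rw [h4, ← ofReal_norm]
  apply ENNReal.ofReal_le_ofReal
  refine h3.trans ?_
  set L : ℝ := 1 + Real.log T with hLdef
  have hL1 : 1 ≤ L := by linarith
  have hJ0 : (0 : ℝ) ≤ J := Nat.cast_nonneg _
  have j1 : (J : ℝ) ≤ A * L := hJA
  have j2 : (J : ℝ) ^ 2 ≤ A ^ 2 * L ^ 2 := by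
    rw [← mul_pow]
    gcongr
  have j3 : (J : ℝ) ^ 3 ≤ A ^ 3 * L ^ 3 := by
    rw [← mul_pow]
    gcongr
  have l8 : ∀ n : ℕ, n ≤ 8 → L ^ n ≤ L ^ 8 := fun n hn => pow_le_pow_right₀ hL1 hn
  rw [le_div_iff₀ hT0]
  have e1 : ((J : ℝ) ^ 2 * (C * L ^ 5 / T) + 2 * J *
      ((J : ℝ) ^ 2 * ((B + B) * ((B + B) * (C * L ^ 5 / T))) +
        2 * J * (CD / T) + CR / T) + CR / T) * T =
      (J : ℝ) ^ 2 * (C * L ^ 5) + 2 * (2 * B) ^ 2 * C * ((J : ℝ) ^ 3 * L ^ 5) +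
        4 * CD * (J : ℝ) ^ 2 + 2 * CR * J + CR := by
    field_simp
    ring
  rw [e1]
  have t1 : (J : ℝ) ^ 2 * (C * L ^ 5) ≤ A ^ 2 * C * L ^ 8 := by
    calc (J : ℝ) ^ 2 * (C * L ^ 5) ≤ (A ^ 2 * L ^ 2) * (C * L ^ 5) := by gcongr
      _ = A ^ 2 * C * L ^ 7 := by ring
      _ ≤ A ^ 2 * C * L ^ 8 := by
          have := l8 7 (by norm_num)
          gcongr
  have t2 : 2 * (2 * B) ^ 2 * C * ((J : ℝ) ^ 3 * L ^ 5) ≤ 2 * A ^ 3 * (2 * B) ^ 2 * C * L ^ 8 := by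
    calc 2 * (2 * B) ^ 2 * C * ((J : ℝ) ^ 3 * L ^ 5) ≤
        2 * (2 * B) ^ 2 * C * ((A ^ 3 * L ^ 3) * L ^ 5) := by gcongr
      _ = _ := by ring
  have t3 : 4 * CD * (J : ℝ) ^ 2 ≤ 4 * A ^ 2 * CD * L ^ 8 := by
    calc 4 * CD * (J : ℝ) ^ 2 ≤ 4 * CD * (A ^ 2 * L ^ 2) := by gcongr
      _ = 4 * A ^ 2 * CD * L ^ 2 := by ring
      _ ≤ _ := by
          have := l8 2 (by norm_num)
          gcongr
  have t4 : 2 * CR * (J : ℝ) ≤ 2 * A * CR * L ^ 8 := by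
    calc 2 * CR * (J : ℝ) ≤ 2 * CR * (A * L) := by gcongr
      _ = 2 * A * CR * L ^ 1 := by ring
      _ ≤ _ := by
          have := l8 1 (by norm_num)
          gcongr
  have t5 : CR ≤ CR * L ^ 8 := by
    have := l8 0 (by norm_num)
    rw [pow_zero] at this
    nlinarith
  calc _ ≤ A ^ 2 * C * L ^ 8 + 2 * A ^ 3 * (2 * B) ^ 2 * C * L ^ 8 + 4 * A ^ 2 * CD * L ^ 8 +
        2 * A * CR * L ^ 8 + CR * L ^ 8 := by linarith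
    _ = _ := by ring

end Pool.Agent.N1
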