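import Pool.Agent.N1.M2f

/-!
N1, block M2, part 7: the dyadic `L⁴` estimate.
-/

namespace Pool.Agent.N1

open MeasureTheory Set Metric Pool.Agent.MP_6cbfb8_an Pool.Agent.MST
open scoped ENNReal Real ContDiff

theorem m2_sum_four {ι : Type*} (s : Finset ι) (a : ι → ℝ≥0∞) :
    (∑ i ∈ s, a i) ^ 4 ≤ (s.card : ℝ≥0∞) ^ 4 * ∑ i ∈ s, a i ^ 4 := by
  rcases s.eq_empty_or_nonempty with rfl | hs
  · simp
  obtain ⟨i0, hi0, hmax⟩ := Finset.exists_max_image s a hs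
  have h1 : ∑ i ∈ s, a i ≤ s.card * a i0 := by
    refine (Finset.sum_le_card_nsmul s a (a i0) hmax).trans (le_of_eq ?_)
    rw [nsmul_eq_mul]
  calc (∑ i ∈ s, a i) ^ 4 ≤ (s.card * a i0) ^ 4 := by gcongr
    _ = (s.card : ℝ≥0∞) ^ 4 * a i0 ^ 4 := by rw [mul_pow]
    _ ≤ _ := by
        gcongr
        exact Finset.single_le_sum (f := fun i => a i ^ 4) (fun _ _ => zero_le) hi0

theorem m2_Eo_int (c : ℝ) (hc : 0 < c) (G₁ G₂ : ℝ → ℂ) (h1 : Measurable G₁) (h2 : Measurable G₂)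
    (b1 : ∀ a, ‖G₁ a‖ ≤ 1) (b2 : ∀ a, ‖G₂ a‖ ≤ 1) (t : ℝ) (ξ : ℝ × ℝ) :
    Integrable fun x : ℝ × ℝ => G₁ x.1 * G₂ x.2 * ((wf c x.1 x.2 : ℝ) : ℂ) *
      ex (t * qf c x.1 x.2) * ex (x.1 * ξ.1 + x.2 * ξ.2) := by
  have hwc : Continuous fun x : ℝ × ℝ => wf c x.1 x.2 := (wf_smooth c hc).continuous
  have hqc : Continuous fun x : ℝ × ℝ => qf c x.1 x.2 := (qf_smooth c hc).continuous
  have hw : Integrable fun x : ℝ × ℝ => wf c x.1 x.2 := by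
    refine hwc.integrable_of_hasCompactSupport ?_
    refine HasCompactSupport.intro (isCompact_closedBall (0 : ℝ × ℝ) 1) ?_
    intro x hx
    by_contra h3
    have h4 := m2_wf_ne hc h3
    have h5 : 0 ≤ c ^ 2 / 4 := by positivity
    apply hx
    rw [mem_closedBall, dist_zero_right, Prod.norm_def, max_le_iff, Real.norm_eq_abs,
      Real.norm_eq_abs, ← sq_le_one_iff_abs_le_one, ← sq_le_one_iff_abs_le_one]
    constructor <;> nlinarith [sq_nonneg x.1, sq_nonneg x.2]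
  refine hw.mono ?_ (ae_of_all _ fun x => ?_)
  · refine Measurable.aestronglyMeasurable ?_
    refine Measurable.mul (Measurable.mul (Measurable.mul (Measurable.mul ?_ ?_) ?_) ?_) ?_
    · exact h1.comp measurable_fst
    · exact h2.comp measurable_snd
    · exact Complex.measurable_ofReal.comp hwc.measurable
    · exact measurable_ex.comp (hqc.measurable.const_mul t)
    · exact measurable_ex.comp (by fun_prop)
  · rw [norm_mul, norm_mul, norm_mul, norm_mul, m2_ex_norm, m2_ex_norm, mul_one, mul_one,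
      Complex.norm_real]
    have h3 : ‖G₁ x.1‖ * ‖G₂ x.2‖ ≤ 1 := mul_le_one₀ (b1 _) (norm_nonneg _) (b2 _)
    calc ‖G₁ x.1‖ * ‖G₂ x.2‖ * ‖wf c x.1 x.2‖ ≤ 1 * ‖wf c x.1 x.2‖ := by gcongr
      _ = _ := one_mul _

theorem m2_Eo_meas (c : ℝ) (hc : 0 < c) (G₁ G₂ : ℝ → ℂ) (h1 : Measurable G₁)
    (h2 : Measurable G₂) : Measurable fun p : ℝ × (ℝ × ℝ) => Eo c G₁ G₂ p.1 p.2 := by
  have hwc : Continuous fun x : ℝ × ℝ => wf c x.1 x.2 := (wf_smooth c hc).continuous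
  have hqc : Continuous fun x : ℝ × ℝ => qf c x.1 x.2 := (qf_smooth c hc).continuous
  unfold Eo
  have h3 : Measurable fun z : (ℝ × (ℝ × ℝ)) × (ℝ × ℝ) =>
      G₁ z.2.1 * G₂ z.2.2 * ((wf c z.2.1 z.2.2 : ℝ) : ℂ) *
      ex (z.1.1 * qf c z.2.1 z.2.2) * ex (z.2.1 * z.1.2.1 + z.2.2 * z.1.2.2) := by
    refine Measurable.mul (Measurable.mul (Measurable.mul (Measurable.mul ?_ ?_) ?_) ?_) ?_
    · exact h1.comp (by fun_prop)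
    · exact h2.comp (by fun_prop)
    · exact Complex.measurable_ofReal.comp (hwc.measurable.comp measurable_snd)
    · exact measurable_ex.comp ((measurable_fst.comp measurable_fst).mul
        (hqc.measurable.comp measurable_snd))
    · exact measurable_ex.comp (by fun_prop)
  exact (h3.stronglyMeasurable.integral_prod_right').measurable

theorem m2_lint_sum {ι : Type*} (s : Finset ι) (f : ι → ℝ × (ℝ × ℝ) → ℂ)
    (hf : ∀ i ∈ s, Measurable (f i)) (S : Set ℝ) (K : ℝ≥0∞)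
    (hK : ∀ i ∈ s, ∫⁻ t in S, ∫⁻ ξ : ℝ × ℝ, ‖f i (t, ξ)‖ₑ ^ 4 ≤ K) :
    ∫⁻ t in S, ∫⁻ ξ : ℝ × ℝ, ‖∑ i ∈ s, f i (t, ξ)‖ₑ ^ 4 ≤
      (s.card : ℝ≥0∞) ^ 4 * (s.card * K) := by
  have hm : ∀ i ∈ s, Measurable fun p : ℝ × (ℝ × ℝ) => ‖f i p‖ₑ ^ 4 := fun i hi =>
    (hf i hi).enorm.pow_const 4
  have hm2 : ∀ i ∈ s, Measurable fun t : ℝ => ∫⁻ ξ : ℝ × ℝ, ‖f i (t, ξ)‖ₑ ^ 4 := fun i hi =>
    (hm i hi).lintegral_prod_right'
  have hm3 : ∀ i ∈ s, ∀ t : ℝ, Measurable fun ξ : ℝ × ℝ => ‖f i (t, ξ)‖ₑ ^ 4 := fun i hi t =>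
    (hm i hi).comp (measurable_const.prodMk measurable_id)
  have e1 : ∀ t : ℝ, ∫⁻ ξ : ℝ × ℝ, ‖∑ i ∈ s, f i (t, ξ)‖ₑ ^ 4 ≤
      (s.card : ℝ≥0∞) ^ 4 * ∑ i ∈ s, ∫⁻ ξ : ℝ × ℝ, ‖f i (t, ξ)‖ₑ ^ 4 := by
    intro t
    rw [← lintegral_finsetSum' _ fun i hi => (hm3 i hi t).aemeasurable,
      ← lintegral_const_mul _ (Finset.measurable_sum _ fun i hi => hm3 i hi t)]
    refine lintegral_mono fun ξ => ?_
    refine le_trans ?_ (m2_sum_four s fun i => ‖f i (t, ξ)‖ₑ)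
    gcongr
    exact enorm_sum_le _ _
  refine (lintegral_mono e1).trans ?_
  rw [lintegral_const_mul _ (Finset.measurable_sum _ hm2),
    lintegral_finsetSum' _ fun i hi => (hm2 i hi).aemeasurable]
  gcongr
  refine (Finset.sum_le_card_nsmul s _ K hK).trans (le_of_eq ?_)
  rw [nsmul_eq_mul]

/-- truncation at `1` -/
noncomputable def m2_tr (G : ℝ → ℂ) (a : ℝ) : ℂ := if a ≤ 1 then G a else 0

theorem m2_tr_Eo (c : ℝ) (hc : 0 < c) (G₁ G₂ : ℝ → ℂ) (t : ℝ) (ξ : ℝ × ℝ) :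
    Eo c (m2_tr G₁) (m2_tr G₂) t ξ = Eo c G₁ G₂ t ξ := by
  unfold Eo
  congr 1
  funext x
  by_cases h : wf c x.1 x.2 = 0
  · rw [h]
    simp
  · have h1 := m2_wf_ne hc h
    have h2 : 0 ≤ c ^ 2 / 4 := by positivity
    have h3 : x.1 ≤ 1 := by nlinarith [sq_nonneg x.2]
    have h4 : x.2 ≤ 1 := by nlinarith [sq_nonneg x.1]
    unfold m2_tr
    rw [if_pos h3, if_pos h4]

theorem m2_tr_meas {G : ℝ → ℂ} (hG : Measurable G) : Measurable (m2_tr G) := by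
  unfold m2_tr
  exact Measurable.ite measurableSet_Iic hG measurable_const

theorem m2_tr_norm {G : ℝ → ℂ} (hG : ∀ a, ‖G a‖ ≤ 1) (a : ℝ) : ‖m2_tr G a‖ ≤ 1 := by
  unfold m2_tr
  split_ifs
  · exact hG a
  · simp

theorem m2_tr_ne {G : ℝ → ℂ} {a : ℝ} (h : m2_tr G a ≠ 0) : a ≤ 1 ∧ G a ≠ 0 := by
  unfold m2_tr at h
  split_ifs at h with h1
  · exact ⟨h1, h⟩
  · exact absurd rfl h

/-- the caps -/
noncomputable def m2_cp (r : ℝ) (G : ℝ → ℂ) (i : ℕ) (a : ℝ) : ℂ :=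
  g2_cut (fun a : ℝ => a) 1 r (m2_tr G) i a

theorem m2_cp_meas (r : ℝ) {G : ℝ → ℂ} (hG : Measurable G) (i : ℕ) : Measurable (m2_cp r G i) :=
  g2_cut_meas measurable_id _ _ (m2_tr_meas hG) _

theorem m2_cp_norm (r : ℝ) {G : ℝ → ℂ} (hG : ∀ a, ‖G a‖ ≤ 1) (i : ℕ) (a : ℝ) :
    ‖m2_cp r G i a‖ ≤ 1 := g2_cut_norm _ _ _ (m2_tr_norm hG) _ _

theorem m2_cp_cap {c r : ℝ} (hc : 0 < c) (hr : 0 < r) {G : ℝ → ℂ} (hG : ∀ a, G a ≠ 0 → c ≤ a)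
    (i : ℕ) : ∃ x : ℝ, m2_cap c r x (m2_cp r G i) := by
  by_cases h : ∃ a, m2_cp r G i a ≠ 0
  · obtain ⟨x, hx⟩ := h
    obtain ⟨h1, h2⟩ := g2_cut_ne hx
    obtain ⟨h3, h4⟩ := m2_tr_ne h2
    have h5 := hG x h4
    refine ⟨x, fun a ha => ?_⟩
    obtain ⟨g1, g2⟩ := g2_cut_ne ha
    obtain ⟨g3, g4⟩ := m2_tr_ne g2
    have g5 := hG a g4
    refine ⟨g5, ?_⟩
    exact g2_ix_near (R := 1) hr (abs_le.2 ⟨by linarith, g3⟩) (abs_le.2 ⟨by linarith, h3⟩)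
      (g1.trans h1.symm)
  · push Not at h
    exact ⟨0, fun a ha => absurd (h a) ha⟩

theorem m2_cp_sum {c r : ℝ} (hc : 0 < c) (hr : 0 < r) {G : ℝ → ℂ} (hG : ∀ a, G a ≠ 0 → c ≤ a)
    (a : ℝ) : ∑ i ∈ Finset.range (⌊2 * 1 / r⌋₊ + 1), m2_cp r G i a = m2_tr G a := by
  refine g2_cut_sum (fun a : ℝ => a) 1 r hr (m2_tr G) ?_ a
  intro u hu
  obtain ⟨h3, h4⟩ := m2_tr_ne hu
  have h5 := hG u h4
  exact abs_le.2 ⟨by linarith, h3⟩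

/-- The dyadic `L⁴` estimate. -/
theorem L4 (c : ℝ) (hc : 0 < c) : ∃ C : ℝ, 0 ≤ C ∧ ∀ T : ℝ, 1 ≤ T → ∀ G₁ G₂ : ℝ → ℂ,
    Measurable G₁ → Measurable G₂ → (∀ a, ‖G₁ a‖ ≤ 1) → (∀ b, ‖G₂ b‖ ≤ 1) →
    (∀ a, G₁ a ≠ 0 → c ≤ a) → (∀ b, G₂ b ≠ 0 → c ≤ b) →
    ∫⁻ t in Icc T (2 * T), ∫⁻ ξ : ℝ × ℝ, ‖Eo c G₁ G₂ t ξ‖ₑ ^ 4 ≤
      ENNReal.ofReal (C * (1 + Real.log T) ^ 8 / T) := by
  obtain ⟨r, hr, C, hC, hcap⟩ := m2_capest c hc
  set n : ℕ := ⌊2 * 1 / r⌋₊ + 1 with hn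
  set s : Finset (ℕ × ℕ) := Finset.range n ×ˢ Finset.range n with hs
  refine ⟨(s.card : ℝ) ^ 5 * C, by positivity, ?_⟩
  intro T hT G₁ G₂ h1 h2 b1 b2 s1 s2
  have hT0 : 0 < T := by linarith
  have hL : 0 ≤ Real.log T := Real.log_nonneg hT
  have hsum : ∀ t ξ, Eo c G₁ G₂ t ξ =
      ∑ p ∈ s, Eo c (m2_cp r G₁ p.1) (m2_cp r G₂ p.2) t ξ := by
    intro t ξ
    rw [← m2_tr_Eo c hc]
    unfold Eo
    rw [← integral_finsetSum s fun p _ => m2_Eo_int c hc (m2_cp r G₁ p.1) (m2_cp r G₂ p.2)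
      (m2_cp_meas r h1 _) (m2_cp_meas r h2 _) (m2_cp_norm r b1 _) (m2_cp_norm r b2 _) t ξ]
    congr 1
    funext x
    rw [← m2_cp_sum hc hr s1 x.1, ← m2_cp_sum hc hr s2 x.2, Finset.sum_mul_sum,
      ← Finset.sum_product', Finset.sum_mul, Finset.sum_mul, Finset.sum_mul]
  simp only [hsum]
  refine (m2_lint_sum s (fun p z => Eo c (m2_cp r G₁ p.1) (m2_cp r G₂ p.2) z.1 z.2)
    (fun p _ => m2_Eo_meas c hc _ _ (m2_cp_meas r h1 _) (m2_cp_meas r h2 _)) (Icc T (2 * T))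
    (ENNReal.ofReal (C * (1 + Real.log T) ^ 8 / T)) ?_).trans (le_of_eq ?_)
  · intro p _
    obtain ⟨x1, hx1⟩ := m2_cp_cap hc hr s1 p.1
    obtain ⟨x2, hx2⟩ := m2_cp_cap hc hr s2 p.2
    exact hcap T hT x1 x2 _ _ (m2_cp_meas r h1 _) (m2_cp_meas r h2 _) (m2_cp_norm r b1 _)
      (m2_cp_norm r b2 _) hx1 hx2
  · rw [show (s.card : ℝ) ^ 5 * C * (1 + Real.log T) ^ 8 / T =
      (s.card : ℝ) ^ 4 * (s.card * (C * (1 + Real.log T) ^ 8 / T)) by ring,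
      ENNReal.ofReal_mul (by positivity), ENNReal.ofReal_mul (by positivity),
      ENNReal.ofReal_pow (by positivity), ENNReal.ofReal_natCast]

end Pool.Agent.N1
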