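import Pool.Agent.N1.MN

/-!
N1, block M1: the dyadic decomposition in `z`, second form.
-/

namespace Pool.Agent.N1.MD

open MeasureTheory Set Metric Pool.Agent.MP_6cbfb8_an Pool.Agent.MST
open scoped ENNReal Real ContDiff

/-- Restriction to a dyadic rectangle of inner differences. -/
noncomputable def rec (γ d : ℝ) (M : V × V → ℂ) (q : V × V) : ℂ :=
  if γ / 2 < |q.1.2.2| ∧ |q.1.2.2| ≤ γ ∧ d / 2 < |q.2.2.2| ∧ |q.2.2.2| ≤ d then M q else 0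

theorem zix_eq (K j : ℕ) (hj : j ≤ K) (t : ℝ) (h1 : |t| ≤ (1 / 2) ^ j)
    (h2 : (1 / 2) ^ (j + 1) < |t|) : zix K t = j := by
  classical
  unfold zix
  rw [Nat.findGreatest_eq_iff]
  refine ⟨hj, fun _ => h1, fun n hn _ h3 => ?_⟩
  have h4 : ((1 : ℝ) / 2) ^ n ≤ (1 / 2) ^ (j + 1) :=
    pow_le_pow_of_le_one (by norm_num) (by norm_num) hn
  linarith

theorem zc_eq_rec (K j k : ℕ) (hj : j < K) (hk : k < K) (M : V × V → ℂ)
    (hM : ∀ q, M q ≠ 0 → |q.1.2.2| ≤ 1 ∧ |q.2.2.2| ≤ 1) :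
    zc K j k M = rec ((1 / 2) ^ j) ((1 / 2) ^ k) M := by
  funext q
  by_cases hq : M q = 0
  · unfold zc rec
    rw [hq]
    split_ifs <;> rfl
  · have hhalf : ∀ n : ℕ, ((1 : ℝ) / 2) ^ n / 2 = (1 / 2) ^ (n + 1) := fun n => by
      rw [pow_succ]
      ring
    obtain ⟨h1, h2⟩ := hM q hq
    by_cases hz : zix K q.1.2.2 = j ∧ zix K q.2.2.2 = k
    · have h3 : zc K j k M q = M q := by
        unfold zc
        rw [if_pos hz]
      obtain ⟨_, e1, e2, e3, e4⟩ := zc_rect (K := K) (j := j) (k := k) (M := M) (q := q)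
        (by rw [h3]; exact hq) h1 h2
      rw [h3]
      unfold rec
      rw [if_pos]
      rw [hhalf, hhalf]
      exact ⟨e3 hj, e1, e4 hk, e2⟩
    · unfold zc rec
      rw [if_neg hz, if_neg]
      rintro ⟨e1, e2, e3, e4⟩
      rw [hhalf] at e1 e3
      exact hz ⟨zix_eq K j hj.le _ e2 e1, zix_eq K k hk.le _ e4 e3⟩

theorem z_split (c : ℝ) (hc : 0 < c) : ∃ C : ℝ, 0 ≤ C ∧ ∀ T : ℝ, 1 ≤ T → ∀ ρ : ℝ, 0 < ρ →
    ρ ≤ 1 → ∀ (x0 y0 : ℝ × ℝ) (M : V × V → ℂ), Measurable M → (∀ q, ‖M q‖ ≤ 1) →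
    (∀ q, M q ≠ 0 → Nb 1 ρ x0 y0 q) → ∀ Q : ℝ, 0 ≤ Q →
    (∀ γ d : ℝ, 0 < γ → γ ≤ 1 → 0 < d → d ≤ 1 → ‖FF c T (rec γ d M)‖ ≤ Q) →
    ‖FF c T M‖ ≤ C * (1 + Real.log T) ^ 2 * (Q + 1 / T) := by
  obtain ⟨C0, hC0, h0⟩ := FF_abs0 c hc
  refine ⟨25 * (1 + C0 * 64), by positivity,
    fun T hT ρ hρ hρ1 x0 y0 M hM hM1 hMs Q hQ hr => ?_⟩
  have hT0 : 0 < T := by linarith
  obtain ⟨K, hK1, hK2⟩ := dy_num T hT
  have hz : ∀ q, M q ≠ 0 → |q.1.2.2| ≤ 1 ∧ |q.2.2.2| ≤ 1 := fun q hq => by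
    obtain ⟨_, _, _, _, e5, e6⟩ := hMs q hq
    exact ⟨e5, e6⟩
  have hlog : 0 ≤ Real.log T := Real.log_nonneg hT
  have key : ∀ j ≤ K, ∀ k ≤ K, ‖FF c T (zc K j k M)‖ ≤ (1 + C0 * 64) * (Q + 1 / T) := by
    intro j hj k hk
    have hTinv : 0 ≤ 1 / T := by positivity
    have hbig : C0 * 64 / T ≤ (1 + C0 * 64) * (Q + 1 / T) := by
      have e1 : C0 * 64 / T = C0 * 64 * (1 / T) := by ring
      rw [e1]
      have e2 : 0 ≤ C0 * 64 * Q := by positivity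
      nlinarith
    rcases lt_or_ge j K with hj' | hj'
    · rcases lt_or_ge k K with hk' | hk'
      · rw [zc_eq_rec K j k hj' hk' M hz]
        refine (hr _ _ (by positivity) (pow_le_one₀ (by norm_num) (by norm_num)) (by positivity)
          (pow_le_one₀ (by norm_num) (by norm_num))).trans ?_
        have e2 : 0 ≤ C0 * 64 * Q := by positivity
        have e3 : 0 ≤ C0 * 64 * (1 / T) := by positivity
        nlinarith
      · refine le_trans ?_ hbig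
        refine h0 T hT0 (zc K j k M) {q | Nb 1 ρ x0 y0 q ∧ |q.1.2.2| ≤ 1 ∧
          |q.2.2.2| ≤ (1 / 2) ^ K} (64 * ρ ^ 2 * 1 * (1 / 2) ^ K) 64 (zc_meas K j k M hM)
          (fun q => zc_norm K j k M 1 zero_le_one hM1 q) (fun q hq _ => ?_) (by positivity)
          (vol_box x0 y0 1 ρ 1 _ zero_le_one le_rfl hρ zero_le_one (by positivity)) ?_
        · have e1 := (zc_ne hq).2.2
          obtain ⟨_, e2, e3, _, _⟩ := zc_rect hq (hz q e1).1 (hz q e1).2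
          have : k = K := le_antisymm hk hk'
          subst this
          exact ⟨hMs q e1, (hz q e1).1, e3⟩
        · rw [mul_one]
          calc 64 * ρ ^ 2 * (1 / 2) ^ K ≤ 64 * 1 ^ 2 * (1 / T ^ 2) := by gcongr
            _ = 64 / T ^ 2 := by ring
    · refine le_trans ?_ hbig
      refine h0 T hT0 (zc K j k M) {q | Nb 1 ρ x0 y0 q ∧ |q.1.2.2| ≤ (1 / 2) ^ K ∧
        |q.2.2.2| ≤ 1} (64 * ρ ^ 2 * (1 / 2) ^ K * 1) 64 (zc_meas K j k M hM)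
        (fun q => zc_norm K j k M 1 zero_le_one hM1 q) (fun q hq _ => ?_) (by positivity)
        (vol_box x0 y0 1 ρ _ 1 zero_le_one le_rfl hρ (by positivity) zero_le_one) ?_
      · have e1 := (zc_ne hq).2.2
        obtain ⟨_, e2, e3, _, _⟩ := zc_rect hq (hz q e1).1 (hz q e1).2
        have : j = K := le_antisymm hj hj'
        subst this
        exact ⟨hMs q e1, e2, (hz q e1).2⟩
      · rw [mul_one]
        calc 64 * ρ ^ 2 * (1 / 2) ^ K ≤ 64 * 1 ^ 2 * (1 / T ^ 2) := by gcongr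
          _ = 64 / T ^ 2 := by ring
  have h1 := FF_dy c hc T hT0 M hM 1 hM1 K _ key
  refine h1.trans ?_
  have h2 : ((K : ℝ) + 1) ^ 2 ≤ (5 * (1 + Real.log T)) ^ 2 := by gcongr
  calc ((K : ℝ) + 1) ^ 2 * ((1 + C0 * 64) * (Q + 1 / T)) ≤
        (5 * (1 + Real.log T)) ^ 2 * ((1 + C0 * 64) * (Q + 1 / T)) := by gcongr
    _ = 25 * (1 + C0 * 64) * (1 + Real.log T) ^ 2 * (Q + 1 / T) := by ring

end Pool.Agent.N1.MD
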