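import Pool.Agent.N1.MD0

/-!
N1, block M1, case (D): preparations.
-/

namespace Pool.Agent.N1.MD

open MeasureTheory Set Metric Pool.Agent.MP_6cbfb8_an Pool.Agent.MST
open scoped ENNReal Real ContDiff

theorem measurable_om (ρ : ℝ) {X : Type*} [MeasurableSpace X] {f g : X → ℝ} (hf : Measurable f)
    (hg : Measurable g) : Measurable fun x => om ρ (f x) (g x) := by
  unfold om
  fun_prop

theorem measurable_sg (ρ : ℝ) {X : Type*} [MeasurableSpace X] {f g : X → ℝ} (hf : Measurable f)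
    (hg : Measurable g) : Measurable fun x => sg ρ (f x) (g x) := by
  unfold sg
  fun_prop

theorem measurable_Nf (ρ : ℝ) {X : Type*} [MeasurableSpace X] {f g : X → ℝ × ℝ}
    (hf : Measurable f) (hg : Measurable g) : Measurable fun x => Nf ρ (f x) (g x) := by
  unfold Nf
  exact (measurable_om ρ hf.fst hg.fst).sub (measurable_sg ρ hf.snd hg.snd)

theorem measurable_Nx (ρ : ℝ) : Measurable (Nx ρ) := by
  unfold Nx
  apply measurable_Nf <;> fun_prop

theorem measurable_Nz (ρ : ℝ) : Measurable (Nz ρ) := by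
  unfold Nz
  apply measurable_Nf <;> fun_prop

/-- Continuity of `N` at a base point. -/
theorem Nf_small (c : ℝ) (hc : 0 < c) (x0 y0 : ℝ × ℝ) (hx : x0 ∈ Kc c) (h1 : Nf 0 y0 x0 = 0)
    (η : ℝ) (hη : 0 < η) : ∃ δ : ℝ, 0 < δ ∧ ∀ ρ : ℝ, 0 < ρ → ρ < δ → ∀ y x : ℝ × ℝ,
    |y.1 - y0.1| ≤ δ → |y.2 - y0.2| ≤ δ → |x.1 - x0.1| ≤ δ → |x.2 - x0.2| ≤ δ →
    |Nf ρ y x| ≤ η := by
  obtain ⟨hx1, hx2, hx3⟩ := hx
  have hden1 : (x0.1 - 0 * y0.1) ^ 2 ≠ 0 := by
    have : 0 < x0.1 := lt_of_lt_of_le hc hx1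
    rw [zero_mul, sub_zero]
    positivity
  have hden2 : 1 - (x0.2 - 0 * y0.2) ^ 2 ≠ 0 := by
    have h2 : 0 < x0.1 := lt_of_lt_of_le hc hx1
    have h3 : 0 < x0.1 ^ 2 := by positivity
    have h4 : 0 < c ^ 2 := by positivity
    rw [zero_mul, sub_zero]
    intro h5
    nlinarith
  have hcont : ContinuousAt (fun q : ℝ × (ℝ × ℝ) × (ℝ × ℝ) => Nf q.1 q.2.1 q.2.2)
      (0, y0, x0) := by
    unfold Nf om sg
    refine ContinuousAt.sub (ContinuousAt.div ?_ ?_ hden1) (ContinuousAt.neg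
      (ContinuousAt.div ?_ ?_ hden2))
    all_goals fun_prop
  rw [Metric.continuousAt_iff] at hcont
  obtain ⟨δ, hδ, h⟩ := hcont η hη
  refine ⟨δ / 2, by positivity, fun ρ hρ hρδ y x e1 e2 e3 e4 => ?_⟩
  have h5 := h (x := (ρ, y, x)) ?_
  · simp only [h1, dist_zero_right, Real.norm_eq_abs] at h5
    exact h5.le
  · rw [Prod.dist_eq, Prod.dist_eq, Prod.dist_eq, Prod.dist_eq]
    simp only [Real.dist_eq, sub_zero]
    rw [abs_of_pos hρ]
    simp only [max_lt_iff]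
    refine ⟨by linarith, ⟨by linarith, by linarith⟩, by linarith, by linarith⟩

/-- Comparison of volume and size of the phase. -/
theorem abs_num (C A T v0 f0 : ℝ) (hC : 0 ≤ C) (hT : 0 < T) (hf : 0 ≤ f0)
    (hA : 0 ≤ A) (h : v0 ≤ A * f0 ^ 2) : C * T * v0 / (1 + T * f0) ^ 3 ≤ C * A / T := by
  have hX : 0 ≤ T * f0 := by positivity
  have h1 : (0 : ℝ) < (1 + T * f0) ^ 3 := by positivity
  rw [div_le_div_iff₀ h1 hT]
  have h2 : (T * f0) ^ 2 ≤ (1 + T * f0) ^ 3 := by nlinarith [mul_nonneg hX hX]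
  calc C * T * v0 * T ≤ C * T * (A * f0 ^ 2) * T := by gcongr
    _ = C * A * (T * f0) ^ 2 := by ring
    _ ≤ C * A * (1 + T * f0) ^ 3 := by gcongr

/-- Trivial estimate. -/
theorem triv_num (C A T v0 : ℝ) (hC : 0 ≤ C) (hT : 0 < T) (h : v0 ≤ A / T ^ 2) :
    C * T * v0 / (1 + T * 0) ^ 3 ≤ C * A / T := by
  rw [mul_zero, add_zero, one_pow, div_one]
  calc C * T * v0 ≤ C * T * (A / T ^ 2) := by gcongr
    _ = C * A / T := by
      field_simp

/-- The first separated part of `exp (i η N(x))`. -/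
theorem ex_Nx (ρ η : ℝ) (q : V × V) : ex (η * Nx ρ q) =
    ex (η * om ρ (q.1.1 / ρ) q.1.2.1) * ex (-(η * sg ρ (q.2.1 / ρ) q.2.2.1)) := by
  unfold Nx Nf ex
  rw [← Complex.exp_add]
  congr 1
  push_cast
  ring

theorem ex_Nz (ρ η : ℝ) (q : V × V) : ex (η * Nz ρ q) =
    ex (η * om ρ (q.1.1 / ρ) (q.1.2.1 - q.1.2.2)) *
      ex (-(η * sg ρ (q.2.1 / ρ) (q.2.2.1 - q.2.2.2))) := by
  unfold Nz Nf ex
  rw [← Complex.exp_add]
  congr 1
  push_cast
  ring

/-- Two cut-offs in `N(x)`, `N(x - z)` in front of a product density. -/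
theorem expand_twice (c : ℝ) (hc : 0 < c) (T : ℝ) (hT : 0 < T) (B : ℝ) (m : ℝ → ℂ)
    (hm : FT1 B m) (hmm : Measurable m) (hm1 : ∀ x, ‖m x‖ ≤ 1) (ρ κ : ℝ) (A₁ A₂ : V → ℂ)
    (h1 : Measurable A₁)
    (h2 : Measurable A₂) (b1 : ∀ a, ‖A₁ a‖ ≤ 1) (b2 : ∀ b, ‖A₂ b‖ ≤ 1) (K : ℝ)
    (hK : ∀ A₁' A₂' : V → ℂ, Measurable A₁' → Measurable A₂' → (∀ a, ‖A₁' a‖ ≤ 1) →
      (∀ b, ‖A₂' b‖ ≤ 1) → (∀ a, A₁' a ≠ 0 → A₁ a ≠ 0) → (∀ b, A₂' b ≠ 0 → A₂ b ≠ 0) →
      ‖FF c T (tp A₁' A₂')‖ ≤ K) :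
    ‖FF c T (fun q => m (Nx ρ q / κ) * (m (Nz ρ q / κ) * tp A₁ A₂ q))‖ ≤ B * (B * K) := by
  have htp : Measurable (tp A₁ A₂) := by
    unfold tp
    exact (h1.comp measurable_fst).mul (h2.comp measurable_snd)
  have htb : ∀ q, ‖tp A₁ A₂ q‖ ≤ 1 := fun q => by
    unfold tp
    rw [norm_mul]
    exact mul_le_one₀ (b1 _) (norm_nonneg _) (b2 _)
  have hNx : Measurable fun q : V × V => Nx ρ q / κ := (measurable_Nx ρ).div_const κ
  have hNz : Measurable fun q : V × V => Nz ρ q / κ := (measurable_Nz ρ).div_const κ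
  refine expand c hc T hT B m hm (fun q => m (Nz ρ q / κ) * tp A₁ A₂ q)
    ((hmm.comp hNz).mul htp) 1 (fun q => ?_) (fun q => Nx ρ q / κ) hNx (B * K) (fun η => ?_)
  · rw [norm_mul]
    exact mul_le_one₀ (hm1 _) (norm_nonneg _) (htb _)
  · have e1 : (fun q : V × V => ex (η * (Nx ρ q / κ)) * (m (Nz ρ q / κ) * tp A₁ A₂ q)) =
        fun q => m (Nz ρ q / κ) * (ex (η * (Nx ρ q / κ)) * tp A₁ A₂ q) := by
      funext q
      ring
    rw [e1]
    have hex1 : Measurable fun q : V × V => ex (η * (Nx ρ q / κ)) :=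
      measurable_ex.comp (measurable_const.mul hNx)
    refine expand c hc T hT B m hm (fun q => ex (η * (Nx ρ q / κ)) * tp A₁ A₂ q)
      (hex1.mul htp) 1 (fun q => ?_) (fun q => Nz ρ q / κ) hNz K (fun η' => ?_)
    · rw [norm_mul, hns_norm_ex, one_mul]
      exact htb q
    · set A' : V → ℂ := fun u => ex (η' / κ * om ρ (u.1 / ρ) (u.2.1 - u.2.2)) *
        (ex (η / κ * om ρ (u.1 / ρ) u.2.1) * A₁ u) with hA'
      set B' : V → ℂ := fun v => ex (-(η' / κ * sg ρ (v.1 / ρ) (v.2.1 - v.2.2))) *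
        (ex (-(η / κ * sg ρ (v.1 / ρ) v.2.1)) * A₂ v) with hB'
      have e2 : (fun q : V × V => ex (η' * (Nz ρ q / κ)) *
          (ex (η * (Nx ρ q / κ)) * tp A₁ A₂ q)) = tp A' B' := by
        funext q
        have e3 : ex (η' * (Nz ρ q / κ)) = ex (η' / κ * Nz ρ q) := by ring_nf
        have e4 : ex (η * (Nx ρ q / κ)) = ex (η / κ * Nx ρ q) := by ring_nf
        rw [e3, e4, ex_Nx, ex_Nz]
        unfold tp
        rw [hA', hB']
        ring
      rw [e2]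
      refine hK A' B' ?_ ?_ ?_ ?_ ?_ ?_
      · refine (measurable_ex.comp (measurable_const.mul (measurable_om ρ ?_ ?_))).mul
          ((measurable_ex.comp (measurable_const.mul (measurable_om ρ ?_ ?_))).mul h1) <;> fun_prop
      · refine (measurable_ex.comp (measurable_const.mul (measurable_sg ρ ?_ ?_)).neg).mul
          ((measurable_ex.comp (measurable_const.mul (measurable_sg ρ ?_ ?_)).neg).mul h2) <;>
          fun_prop
      · intro a
        rw [hA', norm_mul, norm_mul, hns_norm_ex, hns_norm_ex, one_mul, one_mul]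
        exact b1 a
      · intro a
        rw [hB', norm_mul, norm_mul, hns_norm_ex, hns_norm_ex, one_mul, one_mul]
        exact b2 a
      · intro a ha
        exact right_ne_zero_of_mul (right_ne_zero_of_mul ha)
      · intro a ha
        exact right_ne_zero_of_mul (right_ne_zero_of_mul ha)

end Pool.Agent.N1.MD
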