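import Pool.Agent.N1.MD1

/-!
N1, block M1, case (D): one dyadic rectangle.
-/

namespace Pool.Agent.N1.MD

open MeasureTheory Set Metric Pool.Agent.MP_6cbfb8_an Pool.Agent.MST
open scoped ENNReal Real ContDiff

theorem measurable_rec (γ d : ℝ) (M : V × V → ℂ) (hM : Measurable M) :
    Measurable (rec γ d M) := by
  unfold rec
  refine Measurable.ite ?_ hM measurable_const
  have h1 : Measurable fun q : V × V => |q.1.2.2| := by fun_prop
  have h2 : Measurable fun q : V × V => |q.2.2.2| := by fun_prop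
  exact (measurableSet_lt measurable_const h1).inter ((measurableSet_le h1 measurable_const).inter
    ((measurableSet_lt measurable_const h2).inter (measurableSet_le h2 measurable_const)))

theorem rec_le_one (γ d : ℝ) (M : V × V → ℂ) (hM : ∀ q, ‖M q‖ ≤ 1) (q : V × V) :
    ‖rec γ d M q‖ ≤ 1 := by
  unfold rec
  split_ifs
  · exact hM q
  · simp

theorem rec_ne_zero (γ d : ℝ) (M : V × V → ℂ) (q : V × V) (h : rec γ d M q ≠ 0) :
    M q ≠ 0 ∧ γ / 2 < |q.1.2.2| ∧ |q.1.2.2| ≤ γ ∧ d / 2 < |q.2.2.2| ∧ |q.2.2.2| ≤ d := by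
  unfold rec at h
  split_ifs at h with h1
  · exact ⟨h, h1⟩
  · exact absurd rfl h

/-- The rectangles which can be treated with absolute values. -/
theorem rect_abs (c : ℝ) (hc : 0 < c) (x0 y0 : ℝ × ℝ) (hx : x0 ∈ Kc c) (hy1 : y0.1 ≠ 0)
    (hy2 : y0.2 ≠ 0) (h1 : Nf 0 y0 x0 = 0) :
    ∃ δ C5 C4 C : ℝ, 0 < δ ∧ 0 < C5 ∧ 0 < C4 ∧ 0 ≤ C ∧ ∀ T : ℝ, 0 < T → ∀ ρ : ℝ, 0 < ρ → ρ < δ →
    ∀ κ : ℝ, 0 < κ → κ < δ → ∀ M : V × V → ℂ, Measurable M → (∀ q, ‖M q‖ ≤ 1) →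
    (∀ q, M q ≠ 0 → Nb δ ρ x0 y0 q ∧ |Nx ρ q| ≤ 2 * κ ∧ |Nz ρ q| ≤ 2 * κ) →
    ∀ γ d : ℝ, 0 < γ → 0 < d →
    (‖FF c T (rec γ d M)‖ ≤ C / T ∨ (γ ≤ C5 * κ ∧ d ≤ C4 * κ * γ)) := by
  obtain ⟨δ0, θ0, C5, hδ0, hθ0, hC5, hE0⟩ := E_D0 c hc x0 y0 hx hy1 hy2 h1
  set θ : ℝ := min θ0 1 / 4 with hθdef
  have hθ : 0 < θ := by positivity
  have hθ0' : 4 * θ ≤ θ0 := by
    have := min_le_left θ0 1
    rw [hθdef]
    linarith
  have hθ1' : 4 * θ ≤ 1 := by
    have := min_le_right θ0 1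
    rw [hθdef]
    linarith
  obtain ⟨δ1, c1, hδ1, hc1, hE1⟩ := E_D1 c hc x0 y0 hx hy1 hy2 h1 θ hθ
  obtain ⟨δ2, c2, C4, hδ2, hc2, hC4, hE2⟩ := E_D2a c hc x0 y0 hx hy1 hy2 h1 (2 * C5)
  obtain ⟨δ3, C3, hδ3, hC3, hV⟩ := vol_strip c hc x0 y0 hx hy1
  obtain ⟨CF, hCF, hF⟩ := FF_abs c hc
  set δ : ℝ := min (min (min δ0 δ1) (min δ2 δ3)) 1 with hδdef
  have hδ : 0 < δ := by positivity
  have g0 : δ ≤ δ0 := (min_le_left _ _).trans ((min_le_left _ _).trans (min_le_left _ _))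
  have g1 : δ ≤ δ1 := (min_le_left _ _).trans ((min_le_left _ _).trans (min_le_right _ _))
  have g2 : δ ≤ δ2 := (min_le_left _ _).trans ((min_le_right _ _).trans (min_le_left _ _))
  have g3 : δ ≤ δ3 := (min_le_left _ _).trans ((min_le_right _ _).trans (min_le_right _ _))
  have g4 : δ ≤ 1 := min_le_right _ _
  set A1 : ℝ := 32 / θ * (4 / c1 ^ 2) with hA1
  set A2 : ℝ := C3 / (2 * C4) * (4 / c2 ^ 2) with hA2
  have hA1p : 0 ≤ A1 := by positivity
  have hA2p : 0 ≤ A2 := by positivity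
  refine ⟨δ, 2 * C5, 2 * C4, CF * A1 + CF * A2, hδ, by positivity, by positivity, by positivity,
    fun T hT ρ hρ hρδ κ hκ hκδ M hM hM1 hMs γ d hγ hd => ?_⟩
  have hadd1 : CF * A1 / T ≤ (CF * A1 + CF * A2) / T := by
    gcongr
    linarith [mul_nonneg hCF hA2p]
  have hadd2 : CF * A2 / T ≤ (CF * A1 + CF * A2) / T := by
    gcongr
    linarith [mul_nonneg hCF hA1p]
  rcases le_or_gt (2 * θ * γ) d with hR1 | hR1
  · -- R1
    left
    refine le_trans ?_ hadd1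
    have hS := hF T hT (rec γ d M)
      {q | (Nb δ ρ x0 y0 q ∧ |q.1.2.2| ≤ γ ∧ |q.2.2.2| ≤ d) ∧ d / 2 < |q.2.2.2|}
      (c1 * ρ * (d / 2)) (64 * ρ ^ 2 * γ * d) (measurable_rec γ d M hM) (rec_le_one γ d M hM1)
      (fun q hq _ => by
        obtain ⟨e1, e2, e3, e4, e5⟩ := rec_ne_zero γ d M q hq
        exact ⟨⟨(hMs q e1).1, e3, e5⟩, e4⟩) (by positivity)
      ((measure_mono fun q hq => hq.1).trans (vol_box x0 y0 δ ρ γ d hδ.le g4 hρ hγ.le hd.le))
      (by positivity)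
      (fun q hq => by
        obtain ⟨⟨e1, e2, e3⟩, e4⟩ := hq
        have e5 := hE1 ρ hρ (hρδ.trans_le g1) q (Nb_mono g1 e1)
          (by nlinarith [mul_le_mul_of_nonneg_left e2 hθ.le])
        refine le_trans ?_ e5
        gcongr)
    refine hS.trans (abs_num CF A1 T _ _ hCF hT (by positivity) hA1p ?_)
    have e1 : A1 * (c1 * ρ * (d / 2)) ^ 2 = 32 / θ * ρ ^ 2 * d ^ 2 := by
      rw [hA1]
      field_simp
      norm_num
    rw [e1]
    have e2 : γ ≤ d / (2 * θ) := by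
      rw [le_div_iff₀ (by positivity)]
      linarith
    calc 64 * ρ ^ 2 * γ * d ≤ 64 * ρ ^ 2 * (d / (2 * θ)) * d := by gcongr
      _ = 32 / θ * ρ ^ 2 * d ^ 2 := by
        field_simp
        ring
  · -- now `|z₂| ≤ θ₀ |z₁|`
    have hz : ∀ q : V × V, γ / 2 < |q.1.2.2| → |q.2.2.2| ≤ d → |q.2.2.2| ≤ θ0 * |q.1.2.2| := by
      intro q e1 e2
      have e3 : θ * γ ≤ θ * (2 * |q.1.2.2|) := mul_le_mul_of_nonneg_left (by linarith) hθ.le
      have e4 : 4 * θ * |q.1.2.2| ≤ θ0 * |q.1.2.2| :=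
        mul_le_mul_of_nonneg_right hθ0' (abs_nonneg _)
      linarith
    have hz1 : ∀ q : V × V, γ / 2 < |q.1.2.2| → |q.2.2.2| ≤ d → |q.2.2.2| ≤ |q.1.2.2| := by
      intro q e1 e2
      have e3 : θ * γ ≤ θ * (2 * |q.1.2.2|) := mul_le_mul_of_nonneg_left (by linarith) hθ.le
      have e4 : 4 * θ * |q.1.2.2| ≤ 1 * |q.1.2.2| :=
        mul_le_mul_of_nonneg_right hθ1' (abs_nonneg _)
      linarith
    rcases le_or_gt γ (2 * C5 * κ) with hR0 | hR0
    · rcases le_or_gt d (2 * C4 * κ * γ) with hR2 | hR2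
      · exact Or.inr ⟨hR0, hR2⟩
      · -- R2a
        left
        refine le_trans ?_ hadd2
        have hS := hF T hT (rec γ d M)
          {q | (Nb δ ρ x0 y0 q ∧ |Nx ρ q| ≤ 2 * κ ∧ |q.1.2.2| ≤ γ ∧ |q.2.2.2| ≤ d) ∧
            d / 2 < |q.2.2.2| ∧ γ / 2 < |q.1.2.2|}
          (c2 * ρ * (d / 2)) (C3 * ρ ^ 2 * κ * γ * d) (measurable_rec γ d M hM)
          (rec_le_one γ d M hM1)
          (fun q hq _ => by
            obtain ⟨e1, e2, e3, e4, e5⟩ := rec_ne_zero γ d M q hq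
            exact ⟨⟨(hMs q e1).1, (hMs q e1).2.1, e3, e5⟩, e4, e2⟩) (by positivity)
          ((measure_mono fun q hq => ?_).trans
            (hV ρ hρ (hρδ.trans_le g3) κ γ d hκ.le hγ.le hd.le))
          (by positivity)
          (fun q hq => by
            obtain ⟨⟨e1, e2, e3, e4⟩, e5, e6⟩ := hq
            have e7 := hE2 ρ hρ (hρδ.trans_le g2) κ hκ (hκδ.trans_le g2) q (Nb_mono g2 e1) e2
              (e3.trans hR0) (hz1 q e6 e4)
              (by nlinarith [mul_le_mul_of_nonneg_left e3 (mul_pos hC4 hκ).le])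
            refine le_trans ?_ e7
            gcongr)
        · refine hS.trans (abs_num CF A2 T _ _ hCF hT (by positivity) hA2p ?_)
          have e1 : A2 * (c2 * ρ * (d / 2)) ^ 2 = C3 / (2 * C4) * ρ ^ 2 * d ^ 2 := by
            rw [hA2]
            field_simp
            norm_num
          rw [e1]
          have e2 : κ * γ ≤ d / (2 * C4) := by
            rw [le_div_iff₀ (by positivity)]
            linarith
          calc C3 * ρ ^ 2 * κ * γ * d = C3 * ρ ^ 2 * (κ * γ) * d := by ring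
            _ ≤ C3 * ρ ^ 2 * (d / (2 * C4)) * d := by gcongr
            _ = C3 / (2 * C4) * ρ ^ 2 * d ^ 2 := by
              field_simp
        · exact ⟨Nb_mono g3 hq.1.1, hq.1.2.1, hq.1.2.2.1, hq.1.2.2.2⟩
    · -- R0: the density vanishes
      left
      have e0 : rec γ d M = fun _ => 0 := by
        funext q
        by_contra hq
        obtain ⟨e1, e2, e3, e4, e5⟩ := rec_ne_zero γ d M q hq
        obtain ⟨f1, f2, f3⟩ := hMs q e1
        have e6 := hE0 ρ hρ (hρδ.trans_le g0) κ hκ q (Nb_mono g0 f1) (hz q e2 e5) f2 f3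
        linarith
      rw [e0]
      unfold FF
      simp only [zero_mul, integral_zero, norm_zero]
      positivity

end Pool.Agent.N1.MD
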