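import Pool.Agent.N1.MD2

/-!
N1, block M1, case (D): the pieces.
-/

namespace Pool.Agent.N1.MD

open MeasureTheory Set Metric Pool.Agent.MP_6cbfb8_an Pool.Agent.MST
open scoped ENNReal Real ContDiff

/-- The one-sided cut-offs. -/
noncomputable def mp (s x : ℝ) : ℂ := ((mpl (s * x) : ℝ) : ℂ)

theorem mp_norm (s x : ℝ) : ‖mp s x‖ ≤ 1 := by
  unfold mp
  rw [Complex.norm_real, Real.norm_eq_abs]
  exact mpl_abs_le _

theorem measurable_mp (s : ℝ) : Measurable (mp s) := by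
  unfold mp
  exact Complex.measurable_ofReal.comp (measurable_mpl.comp (measurable_const.mul measurable_id))

theorem FT1_mp (s : ℝ) (hs : s ≠ 0) : ∃ B : ℝ, 0 ≤ B ∧ FT1 B (mp s) := by
  obtain ⟨B, hB, h⟩ := FT1_mpl
  exact ⟨B, hB, FT1_scale B _ h s hs⟩

/-- On the support of a one-sided cut-off. -/
theorem mp_ne_zero (s x κ : ℝ) (hs : s = 1 ∨ s = -1) (hκ : 0 < κ) (h : mp s (x / κ) ≠ 0) :
    |x| ≤ 2 * κ ∧ ((s = 1 ∧ κ / 2 ≤ x) ∨ (s = -1 ∧ x ≤ -(κ / 2))) := by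
  unfold mp at h
  have h1 : mpl (s * (x / κ)) ≠ 0 := fun h2 => h (by rw [h2, Complex.ofReal_zero])
  obtain ⟨h2, h3⟩ := mpl_support _ h1
  rcases hs with rfl | rfl
  · rw [one_mul] at h2 h3
    rw [lt_div_iff₀ hκ] at h2
    rw [div_lt_iff₀ hκ] at h3
    exact ⟨abs_le.2 ⟨by linarith, by linarith⟩, Or.inl ⟨rfl, by linarith⟩⟩
  · have e : -1 * (x / κ) = -x / κ := by ring
    rw [e, lt_div_iff₀ hκ] at h2
    rw [e, div_lt_iff₀ hκ] at h3
    exact ⟨abs_le.2 ⟨by linarith, by linarith⟩, Or.inr ⟨rfl, by linarith⟩⟩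

/-- Restriction of a function of one side to dyadic inner differences. -/
noncomputable def rc (γ : ℝ) (A : V → ℂ) (u : V) : ℂ :=
  if γ / 2 < |u.2.2| ∧ |u.2.2| ≤ γ then A u else 0

theorem measurable_rc (γ : ℝ) (A : V → ℂ) (h : Measurable A) : Measurable (rc γ A) := by
  unfold rc
  refine Measurable.ite ?_ h measurable_const
  have h1 : Measurable fun q : V => |q.2.2| := by fun_prop
  exact (measurableSet_lt measurable_const h1).inter (measurableSet_le h1 measurable_const)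

theorem rc_le_one (γ : ℝ) (A : V → ℂ) (h : ∀ u, ‖A u‖ ≤ 1) (u : V) : ‖rc γ A u‖ ≤ 1 := by
  unfold rc
  split_ifs
  · exact h u
  · simp

theorem rc_ne_zero (γ : ℝ) (A : V → ℂ) (u : V) (h : rc γ A u ≠ 0) :
    A u ≠ 0 ∧ γ / 2 < |u.2.2| ∧ |u.2.2| ≤ γ := by
  unfold rc at h
  split_ifs at h with h1
  · exact ⟨h, h1⟩
  · exact absurd rfl h

theorem rec_eq_rc (γ d : ℝ) (m₁ m₂ : V × V → ℂ) (A₁ A₂ : V → ℂ) :
    rec γ d (fun q => m₁ q * (m₂ q * tp A₁ A₂ q)) =
      fun q => m₁ q * (m₂ q * tp (rc γ A₁) (rc d A₂) q) := by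
  funext q
  unfold rec tp rc
  by_cases h1 : γ / 2 < |q.1.2.2| ∧ |q.1.2.2| ≤ γ
  · by_cases h2 : d / 2 < |q.2.2.2| ∧ |q.2.2.2| ≤ d
    · rw [if_pos ⟨h1.1, h1.2, h2.1, h2.2⟩, if_pos h1, if_pos h2]
    · rw [if_neg (fun h => h2 ⟨h.2.2.1, h.2.2.2⟩), if_neg h2]
      simp
  · rw [if_neg (fun h => h1 ⟨h.1, h.2.1⟩), if_neg h1]
    simp

/-- One dyadic rectangle of a one-sided piece. -/
theorem rect_mpl (c : ℝ) (hc : 0 < c) (x0 y0 : ℝ × ℝ) (hx : x0 ∈ Kc c) (hy1 : y0.1 ≠ 0)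
    (hy2 : y0.2 ≠ 0) (h1 : Nf 0 y0 x0 = 0) :
    ∃ δ C : ℝ, 0 < δ ∧ 0 ≤ C ∧ ∀ T : ℝ, 0 < T → ∀ ρ : ℝ, 0 < ρ → ρ < δ →
    ∀ κ : ℝ, 0 < κ → κ < δ → ∀ s : ℝ, s = 1 ∨ s = -1 → ∀ A₁ A₂ : V → ℂ,
    Measurable A₁ → Measurable A₂ → (∀ a, ‖A₁ a‖ ≤ 1) → (∀ b, ‖A₂ b‖ ≤ 1) →
    (∀ u, A₁ u ≠ 0 → |u.1 / ρ - y0.1| ≤ δ ∧ |u.2.1 - x0.1| ≤ δ ∧ |u.2.2| ≤ δ) →
    (∀ v, A₂ v ≠ 0 → |v.1 / ρ - y0.2| ≤ δ ∧ |v.2.1 - x0.2| ≤ δ ∧ |v.2.2| ≤ δ) →
    ∀ γ d : ℝ, 0 < γ → 0 < d →
    ‖FF c T (rec γ d (fun q => mp s (Nx ρ q / κ) * (mp s (Nz ρ q / κ) * tp A₁ A₂ q)))‖ ≤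
      C / T := by
  obtain ⟨δa, C5, C4, Ca, hδa, hC5, hC4, hCa, habs⟩ := rect_abs c hc x0 y0 hx hy1 hy2 h1
  obtain ⟨δb, cb, C4b, hδb, hcb, hC4b, hE⟩ := E_D2b c hc x0 y0 hx hy1 hy2 h1
  obtain ⟨δv, Cv, hδv, hCv, hV⟩ := vol_strip c hc x0 y0 hx hy1
  obtain ⟨CF, hCF, hF⟩ := FF_abs c hc
  set C7 : ℝ := 2 + C4 + 4 * C4b with hC7
  obtain ⟨δp, hδp, Cp, hCp, hP⟩ := propD2 c hc x0 y0 hx hy1 hy2 h1 C5 C7 (by linarith)
  obtain ⟨B1, hB1, hft1⟩ := FT1_mp 1 one_ne_zero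
  obtain ⟨B2, hB2, hft2⟩ := FT1_mp (-1) (by norm_num)
  set δ : ℝ := min (min δa δb) (min δv δp) / 4 with hδdef
  have hδ : 0 < δ := by positivity
  have m1 : min (min δa δb) (min δv δp) ≤ δa := (min_le_left _ _).trans (min_le_left _ _)
  have m2 : min (min δa δb) (min δv δp) ≤ δb := (min_le_left _ _).trans (min_le_right _ _)
  have m3 : min (min δa δb) (min δv δp) ≤ δv := (min_le_right _ _).trans (min_le_left _ _)
  have m4 : min (min δa δb) (min δv δp) ≤ δp := (min_le_right _ _).trans (min_le_right _ _)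
  have ga : 4 * δ ≤ δa := by rw [hδdef]; linarith
  have gb : 4 * δ ≤ δb := by rw [hδdef]; linarith
  have gv : 4 * δ ≤ δv := by rw [hδdef]; linarith
  have gp : 4 * δ ≤ δp := by rw [hδdef]; linarith
  set A : ℝ := Cv / C4b * (2 / cb ^ 2) with hA
  have hAp : 0 ≤ A := by positivity
  have k1 : 0 ≤ CF * A := mul_nonneg hCF hAp
  have k2 : 0 ≤ B1 * (B1 * Cp) := by positivity
  have k3 : 0 ≤ B2 * (B2 * Cp) := by positivity
  refine ⟨δ, Ca + CF * A + B1 * (B1 * Cp) + B2 * (B2 * Cp), hδ, by positivity,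
    fun T hT ρ hρ hρδ κ hκ hκδ s hs A₁ A₂ hA1 hA2 b1 b2 s1 s2 γ d hγ hd => ?_⟩
  set M : V × V → ℂ := fun q => mp s (Nx ρ q / κ) * (mp s (Nz ρ q / κ) * tp A₁ A₂ q) with hM
  have htp : Measurable (tp A₁ A₂) := by
    unfold tp
    exact (hA1.comp measurable_fst).mul (hA2.comp measurable_snd)
  have hMm : Measurable M := by
    refine ((measurable_mp s).comp ((measurable_Nx ρ).div_const κ)).mul
      (((measurable_mp s).comp ((measurable_Nz ρ).div_const κ)).mul htp)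
  have hM1 : ∀ q, ‖M q‖ ≤ 1 := fun q => by
    rw [hM, norm_mul, norm_mul]
    unfold tp
    rw [norm_mul]
    exact mul_le_one₀ (mp_norm _ _) (by positivity) (mul_le_one₀ (mp_norm _ _) (by positivity)
      (mul_le_one₀ (b1 _) (norm_nonneg _) (b2 _)))
  have hMs : ∀ q, M q ≠ 0 → Nb δ ρ x0 y0 q ∧ mp s (Nx ρ q / κ) ≠ 0 ∧ mp s (Nz ρ q / κ) ≠ 0 := by
    intro q hq
    have e1 := left_ne_zero_of_mul hq
    have e2 := left_ne_zero_of_mul (right_ne_zero_of_mul hq)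
    have e3 : tp A₁ A₂ q ≠ 0 := right_ne_zero_of_mul (right_ne_zero_of_mul hq)
    obtain ⟨f1, f2, f3⟩ := s1 q.1 (left_ne_zero_of_mul e3)
    obtain ⟨f4, f5, f6⟩ := s2 q.2 (right_ne_zero_of_mul e3)
    exact ⟨⟨f1, f4, f2, f5, f3, f6⟩, e1, e2⟩
  have fin : ∀ D : ℝ, D ≤ Ca + CF * A + B1 * (B1 * Cp) + B2 * (B2 * Cp) →
      ‖FF c T (rec γ d M)‖ ≤ D / T →
      ‖FF c T (rec γ d M)‖ ≤ (Ca + CF * A + B1 * (B1 * Cp) + B2 * (B2 * Cp)) / T := by
    intro D hD h
    refine h.trans ?_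
    gcongr
  rcases habs T hT ρ hρ (by linarith) κ hκ (by linarith) M hMm hM1 (fun q hq => by
    obtain ⟨e1, e2, e3⟩ := hMs q hq
    exact ⟨Nb_mono (by linarith) e1, (mp_ne_zero s _ κ hs hκ e2).1,
      (mp_ne_zero s _ κ hs hκ e3).1⟩) γ d hγ hd with h2 | ⟨h2, h3⟩
  · exact fin Ca (by linarith) h2
  · rcases le_or_gt (2 * C4b * d) (κ * γ) with h4 | h4
    · -- R2b
      refine fin (CF * A) (by linarith) ?_
      have hS := hF T hT (rec γ d M)
        {q | (Nb δ ρ x0 y0 q ∧ |Nx ρ q| ≤ 2 * κ ∧ |q.1.2.2| ≤ γ ∧ |q.2.2.2| ≤ d) ∧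
          γ / 2 < |q.1.2.2| ∧
          ((κ / 2 ≤ Nx ρ q ∧ κ / 2 ≤ Nz ρ q) ∨ (Nx ρ q ≤ -(κ / 2) ∧ Nz ρ q ≤ -(κ / 2)))}
        (cb * ρ * κ * (γ / 2)) (Cv * ρ ^ 2 * κ * γ * d) (measurable_rec γ d M hMm)
        (rec_le_one γ d M hM1)
        (fun q hq _ => by
          obtain ⟨e1, e2, e3, e4, e5⟩ := rec_ne_zero γ d M q hq
          obtain ⟨f1, f2, f3⟩ := hMs q e1
          obtain ⟨g1, g2⟩ := mp_ne_zero s _ κ hs hκ f2
          obtain ⟨g3, g4⟩ := mp_ne_zero s _ κ hs hκ f3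
          refine ⟨⟨f1, g1, e3, e5⟩, e2, ?_⟩
          rcases hs with rfl | rfl
          · rcases g2 with g2 | g2
            · rcases g4 with g4 | g4
              · exact Or.inl ⟨g2.2, g4.2⟩
              · norm_num at g4
            · norm_num at g2
          · rcases g2 with g2 | g2
            · norm_num at g2
            · rcases g4 with g4 | g4
              · norm_num at g4
              · exact Or.inr ⟨g2.2, g4.2⟩) (by positivity)
        ((measure_mono fun q hq => ?_).trans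
          (hV ρ hρ (by linarith) κ γ d hκ.le hγ.le hd.le))
        (by positivity)
        (fun q hq => by
          obtain ⟨⟨e1, e2, e3, e4⟩, e5, e6⟩ := hq
          have e7 := hE ρ hρ (by linarith) κ hκ (by linarith) q (Nb_mono (by linarith) e1) e6
            (by
              have i1 := mul_le_mul_of_nonneg_left e4 hC4b.le
              have i2 := mul_le_mul_of_nonneg_left e5.le hκ.le
              linarith)
          refine le_trans ?_ e7
          gcongr)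
      · refine hS.trans (abs_num CF A T _ _ hCF hT (by positivity) hAp ?_)
        have e1 : A * (cb * ρ * κ * (γ / 2)) ^ 2 = Cv / (2 * C4b) * ρ ^ 2 * (κ * γ) ^ 2 := by
          rw [hA]
          field_simp
        rw [e1]
        have e2 : d ≤ κ * γ / (2 * C4b) := by
          rw [le_div_iff₀ (by positivity)]
          linarith
        calc Cv * ρ ^ 2 * κ * γ * d ≤ Cv * ρ ^ 2 * κ * γ * (κ * γ / (2 * C4b)) := by gcongr
          _ = Cv / (2 * C4b) * ρ ^ 2 * (κ * γ) ^ 2 := by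
            field_simp
      · exact ⟨Nb_mono (by linarith) hq.1.1, hq.1.2.1, hq.1.2.2.1, hq.1.2.2.2⟩
    · -- MAIN
      rcases le_or_gt γ (2 * δ) with h5 | h5
      · have key : ∀ B : ℝ, 0 ≤ B → FT1 B (mp s) → ‖FF c T (rec γ d M)‖ ≤ B * (B * Cp) / T := by
          intro B hB hft
          rw [hM, rec_eq_rc]
          have h6 := expand_twice c hc T hT B (mp s) hft (measurable_mp s) (mp_norm s) ρ κ
            (rc γ A₁) (rc d A₂) (measurable_rc γ _ hA1) (measurable_rc d _ hA2)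
            (rc_le_one γ _ b1) (rc_le_one d _ b2) (Cp / T)
            (fun A₁' A₂' c1 c2 c3 c4 c5 c6 => by
              refine hP T ρ γ κ hT hρ (by linarith) hγ (by linarith) hκ (by linarith) h2 A₁' A₂'
                c1 c2 c3 c4 (fun u hu => ?_) (fun v hv => ?_)
              · obtain ⟨e1, e2, e3⟩ := rc_ne_zero γ A₁ u (c5 u hu)
                obtain ⟨f1, f2, _⟩ := s1 u e1
                refine ⟨by linarith, by linarith, ?_, ?_⟩
                · rw [abs_div, abs_of_pos hγ, div_le_div_iff₀ (by linarith) hγ, one_mul]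
                  have i1 : |u.2.2| * 2 ≤ |u.2.2| * C7 :=
                    mul_le_mul_of_nonneg_left (by linarith) (abs_nonneg _)
                  linarith
                · rw [abs_div, abs_of_pos hγ, div_le_iff₀ hγ]
                  have i1 : 1 * γ ≤ C7 * γ := mul_le_mul_of_nonneg_right (by linarith) hγ.le
                  linarith
              · obtain ⟨e1, e2, e3⟩ := rc_ne_zero d A₂ v (c6 v hv)
                obtain ⟨f1, f2, _⟩ := s2 v e1
                have hκγ : 0 < κ * γ := mul_pos hκ hγ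
                refine ⟨by linarith, by linarith, ?_, ?_⟩
                · rw [abs_div, abs_of_pos hκγ, div_le_div_iff₀ (by linarith) hκγ, one_mul]
                  have i1 : 2 * C4b * d ≤ 2 * C4b * (2 * |v.2.2|) :=
                    mul_le_mul_of_nonneg_left (by linarith) (by linarith)
                  have i2 : |v.2.2| * (4 * C4b) ≤ |v.2.2| * C7 :=
                    mul_le_mul_of_nonneg_left (by linarith) (abs_nonneg _)
                  linarith
                · rw [abs_div, abs_of_pos hκγ, div_le_iff₀ hκγ]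
                  have i1 : C4 * (κ * γ) ≤ C7 * (κ * γ) :=
                    mul_le_mul_of_nonneg_right (by linarith) hκγ.le
                  linarith)
          refine h6.trans (le_of_eq ?_)
          ring
        rcases hs with rfl | rfl
        · exact fin _ (by linarith) (key B1 hB1 hft1)
        · exact fin _ (by linarith) (key B2 hB2 hft2)
      · have e0 : rec γ d M = fun _ => 0 := by
          funext q
          by_contra hq
          obtain ⟨e1, e2, e3, e4, e5⟩ := rec_ne_zero γ d M q hq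
          obtain ⟨⟨_, _, _, _, f5, _⟩, _, _⟩ := hMs q e1
          linarith
        rw [e0]
        unfold FF
        simp only [zero_mul, integral_zero, norm_zero]
        positivity

end Pool.Agent.N1.MD
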