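import Pool.Agent.N1.MN0

/-!
N1, block M1: the positive form, case (N).
-/

namespace Pool.Agent.N1

open MeasureTheory Set Metric Pool.Agent.MP_6cbfb8_an Pool.Agent.MST
open scoped ENNReal Real ContDiff

theorem FF_zero (c T : ℝ) (M : V × V → ℂ) (h : ∀ q, M q = 0) : FF c T M = 0 := by
  unfold FF
  simp [h]

theorem Nb_mono {δ δ' ρ : ℝ} {x0 y0 : ℝ × ℝ} {q : V × V} (h : δ ≤ δ') (hq : Nb δ ρ x0 y0 q) :
    Nb δ' ρ x0 y0 q := by
  obtain ⟨a1, a2, a3, a4, a5, a6⟩ := hq
  exact ⟨a1.trans h, a2.trans h, a3.trans h, a4.trans h, a5.trans h, a6.trans h⟩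

/-- The density `α(y, a) conj α(y, a - z)`. -/
noncomputable def dd (α : ℝ × ℝ → ℂ) (u : V) : ℂ :=
  α (u.1, u.2.1) * (starRingEnd ℂ) (α (u.1, u.2.1 - u.2.2))

theorem dd_meas (α : ℝ × ℝ → ℂ) (h : Measurable α) : Measurable (dd α) := by
  unfold dd
  have h1 : Measurable fun u : V => (u.1, u.2.1) := by fun_prop
  have h2 : Measurable fun u : V => (u.1, u.2.1 - u.2.2) := by fun_prop
  exact (h.comp h1).mul (Complex.continuous_conj.measurable.comp (h.comp h2))

theorem dd_norm (α : ℝ × ℝ → ℂ) (h : ∀ p, ‖α p‖ ≤ 1) (u : V) : ‖dd α u‖ ≤ 1 := by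
  unfold dd
  rw [norm_mul, RCLike.norm_conj]
  exact mul_le_one₀ (h _) (norm_nonneg _) (h _)

theorem dd_supp {α : ℝ × ℝ → ℂ} {ρ y x δ : ℝ}
    (h : ∀ p, α p ≠ 0 → |p.1 / ρ - y| ≤ δ ∧ |p.2 - x| ≤ δ) (u : V) (hu : dd α u ≠ 0) :
    |u.1 / ρ - y| ≤ δ ∧ |u.2.1 - x| ≤ δ ∧ |u.2.1 - u.2.2 - x| ≤ δ ∧ |u.2.2| ≤ 2 * δ := by
  unfold dd at hu
  have h1 : α (u.1, u.2.1) ≠ 0 := left_ne_zero_of_mul hu
  have h2 : α (u.1, u.2.1 - u.2.2) ≠ 0 := by
    intro h3
    apply right_ne_zero_of_mul hu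
    rw [h3, map_zero]
  obtain ⟨a1, a2⟩ := h _ h1
  obtain ⟨_, b2⟩ := h _ h2
  simp only at a1 a2 b2
  refine ⟨a1, a2, b2, ?_⟩
  rw [abs_le] at a2 b2 ⊢
  constructor <;> linarith [a2.1, a2.2, b2.1, b2.2]

theorem sqM_pd (α β : ℝ × ℝ → ℂ) : sqM (pd α β) = tp (dd α) (dd β) := by
  funext q
  unfold sqM pd tp dd
  simp only [map_mul]
  ring

/-- Case (N). -/
theorem TH_N (c : ℝ) (hc : 0 < c) (x0 y0 : ℝ × ℝ) (hx : x0 ∈ Kc c) (hy1 : y0.1 ≠ 0)
    (hy2 : y0.2 ≠ 0) (h1 : Nf 0 y0 x0 ≠ 0) (h2 : Nf 0 y0.swap x0.swap ≠ 0) :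
    ∃ δ : ℝ, 0 < δ ∧ ∃ C : ℝ, 0 ≤ C ∧ ∀ T : ℝ, 1 ≤ T → ∀ ρ : ℝ, 0 < ρ → ρ < δ →
      ∀ α β : ℝ × ℝ → ℂ, Measurable α → Measurable β → (∀ p, ‖α p‖ ≤ 1) → (∀ p, ‖β p‖ ≤ 1) →
      (∀ p, α p ≠ 0 → |p.1 / ρ - y0.1| ≤ δ ∧ |p.2 - x0.1| ≤ δ) →
      (∀ p, β p ≠ 0 → |p.1 / ρ - y0.2| ≤ δ ∧ |p.2 - x0.2| ≤ δ) →
      Th c T (pd α β) ≤ ENNReal.ofReal (C * (1 + Real.log T) ^ 5 / T) := by
  obtain ⟨δE, c1, C7, hδE, hc1, hC7, hE⟩ := E_N c hc x0 y0 hx h1 h2
  obtain ⟨δN, hδN, CN, hCN, hN⟩ := propN2 c hc x0 y0 hx hy1 hy2 (4 * C7) (by linarith)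
  obtain ⟨CA, hCA, hA⟩ := FF_abs2 c hc
  obtain ⟨C0, hC0, h0⟩ := FF_abs0 c hc
  obtain ⟨δ, hδ, hd1, hd2, hd3⟩ : ∃ δ : ℝ, 0 < δ ∧ 2 * δ < δE ∧ 4 * δ < δN ∧ 8 * δ ≤ 1 := by
    refine ⟨min (min (δE / 4) (δN / 8)) (1 / 8), by positivity, ?_, ?_, ?_⟩
    · have := (min_le_left (min (δE / 4) (δN / 8)) (1 / 8)).trans (min_le_left _ _)
      linarith
    · have := (min_le_left (min (δE / 4) (δN / 8)) (1 / 8)).trans (min_le_right _ _)
      linarith
    · have := min_le_right (min (δE / 4) (δN / 8)) (1 / 8)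
      linarith
  set L : ℝ := CN + CA * (256 / c1 ^ 2) + C0 * 64 with hL
  have hL0 : 0 ≤ L := by positivity
  refine ⟨δ, hδ, 25 * L, by positivity, ?_⟩
  intro T hT ρ hρ hρδ α β hα hβ hα1 hβ1 hαs hβs
  have hT0 : 0 < T := by linarith
  have hρ1 : ρ ≤ 1 := by linarith
  have hlog : 0 ≤ Real.log T := Real.log_nonneg hT
  rw [Th_eq c hc T hT0 (pd α β) ?_ ?_, sqM_pd]
  rotate_left
  · unfold pd
    have e1 : Measurable fun p : (ℝ × ℝ) × (ℝ × ℝ) => (p.1.1, p.2.1) := by fun_prop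
    have e2 : Measurable fun p : (ℝ × ℝ) × (ℝ × ℝ) => (p.1.2, p.2.2) := by fun_prop
    exact (hα.comp e1).mul (hβ.comp e2)
  · intro p
    unfold pd
    rw [norm_mul]
    exact mul_le_one₀ (hα1 _) (norm_nonneg _) (hβ1 _)
  have hA1 : ∀ u, ‖dd α u‖ ≤ 1 := dd_norm α hα1
  have hB1 : ∀ u, ‖dd β u‖ ≤ 1 := dd_norm β hβ1
  have hM1 : ∀ q : V × V, ‖tp (dd α) (dd β) q‖ ≤ 1 := by
    intro q
    unfold tp
    rw [norm_mul]
    exact mul_le_one₀ (hA1 _) (norm_nonneg _) (hB1 _)
  have hMm : Measurable (tp (dd α) (dd β)) := by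
    unfold tp
    exact ((dd_meas α hα).comp measurable_fst).mul ((dd_meas β hβ).comp measurable_snd)
  -- the neighbourhood
  have hNb : ∀ q : V × V, tp (dd α) (dd β) q ≠ 0 → Nb (2 * δ) ρ x0 y0 q := by
    intro q hq
    unfold tp at hq
    obtain ⟨a1, a2, _, a4⟩ := dd_supp hαs q.1 (left_ne_zero_of_mul hq)
    obtain ⟨b1, b2, _, b4⟩ := dd_supp hβs q.2 (right_ne_zero_of_mul hq)
    exact ⟨by linarith, by linarith, by linarith, by linarith, a4, b4⟩
  obtain ⟨K, hK1, hK2⟩ := dy_num T hT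
  have key : ‖FF c T (tp (dd α) (dd β))‖ ≤ ((K : ℝ) + 1) ^ 2 * (L / T) := by
    refine FF_dy c hc T hT0 _ hMm 1 hM1 K (L / T) ?_
    intro j hj k hk
    set g : ℝ := (1 / 2) ^ j with hg
    set d : ℝ := (1 / 2) ^ k with hd
    have hg0 : 0 < g := by positivity
    have hd0 : 0 < d := by positivity
    have hg1 : g ≤ 1 := pow_le_one₀ (by norm_num) (by norm_num)
    have hd1' : d ≤ 1 := pow_le_one₀ (by norm_num) (by norm_num)
    have hg2 : (1 / 2 : ℝ) ^ (j + 1) = g / 2 := by rw [pow_succ, hg]; ring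
    have hd2' : (1 / 2 : ℝ) ^ (k + 1) = d / 2 := by rw [pow_succ, hd]; ring
    have hzm := zc_meas K j k _ hMm
    have hz1 := zc_norm K j k (tp (dd α) (dd β)) 1 zero_le_one hM1
    have hrect : ∀ q : V × V, zc K j k (tp (dd α) (dd β)) q ≠ 0 → Nb (2 * δ) ρ x0 y0 q ∧
        |q.1.2.2| ≤ g ∧ |q.2.2.2| ≤ d ∧ (j < K → g / 2 < |q.1.2.2|) ∧
        (k < K → d / 2 < |q.2.2.2|) := by
      intro q hq
      have hN1 := hNb q (zc_ne hq).2.2
      obtain ⟨_, _, _, _, a5, a6⟩ := hN1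
      obtain ⟨_, r2, r3, r4, r5⟩ := zc_rect hq (by linarith) (by linarith)
      rw [hg2] at r4
      rw [hd2'] at r5
      exact ⟨hNb q (zc_ne hq).2.2, r2, r3, r4, r5⟩
    have hvol := vol_box x0 y0 (2 * δ) ρ g d (by linarith) (by linarith) hρ hg0.le hd0.le
    by_cases htail : j = K ∨ k = K
    · -- the tails
      have hgd : g * d ≤ 1 / T ^ 2 := by
        rcases htail with h3 | h3
        · calc g * d ≤ g * 1 := by gcongr
            _ = (1 / 2 : ℝ) ^ K := by rw [mul_one, hg, h3]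
            _ ≤ 1 / T ^ 2 := hK1
        · calc g * d ≤ 1 * d := by gcongr
            _ = (1 / 2 : ℝ) ^ K := by rw [one_mul, hd, h3]
            _ ≤ 1 / T ^ 2 := hK1
      have h3 := h0 T hT0 (zc K j k (tp (dd α) (dd β)))
        {q : V × V | Nb (2 * δ) ρ x0 y0 q ∧ |q.1.2.2| ≤ g ∧ |q.2.2.2| ≤ d}
        (64 * ρ ^ 2 * g * d) 64 hzm hz1
        (fun q hq _ => ⟨(hrect q hq).1, (hrect q hq).2.1, (hrect q hq).2.2.1⟩) (by positivity) hvol ?_
      · refine h3.trans ?_
        gcongr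
        rw [hL]
        have : 0 ≤ CA * (256 / c1 ^ 2) := by positivity
        linarith
      · have hρ2 : ρ ^ 2 ≤ 1 := pow_le_one₀ hρ.le hρ1
        calc 64 * ρ ^ 2 * g * d = 64 * ρ ^ 2 * (g * d) := by ring
          _ ≤ 64 * 1 * (1 / T ^ 2) := by gcongr
          _ = 64 / T ^ 2 := by ring
    · push Not at htail
      have hjK : j < K := by omega
      have hkK : k < K := by omega
      by_cases hcase1 : C7 * d ≤ g / 2
      · -- first direction dominates
        have h3 := hA T hT0 (zc K j k (tp (dd α) (dd β)))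
          {q : V × V | Nb (2 * δ) ρ x0 y0 q ∧ g / 2 < |q.1.2.2| ∧ |q.1.2.2| ≤ g ∧ |q.2.2.2| ≤ d}
          (c1 * ρ * (g / 2)) (64 * ρ ^ 2 * g * d) (256 / c1 ^ 2) hzm hz1
          (fun q hq _ => ⟨(hrect q hq).1, (hrect q hq).2.2.2.1 hjK, (hrect q hq).2.1,
            (hrect q hq).2.2.1⟩) (by positivity) ?_ (by positivity) ?_ (by positivity) ?_
        · refine h3.trans ?_
          gcongr
          rw [hL]
          have : 0 ≤ C0 * 64 := by positivity
          linarith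
        · refine le_trans (measure_mono ?_) hvol
          rintro q ⟨e1, _, e3, e4⟩
          exact ⟨e1, e3, e4⟩
        · rintro q ⟨e1, e2, e3, e4⟩
          have h4 := (hE ρ hρ (by linarith) q (Nb_mono (by linarith) e1)).1 ?_
          · refine le_trans ?_ h4
            gcongr
          · calc C7 * |q.2.2.2| ≤ C7 * d := by gcongr
              _ ≤ g / 2 := hcase1
              _ ≤ |q.1.2.2| := e2.le
        · have h4 : d ≤ g := by nlinarith
          calc 64 * ρ ^ 2 * g * d ≤ 64 * ρ ^ 2 * g * g := by gcongr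
            _ = 256 / c1 ^ 2 * (c1 * ρ * (g / 2)) ^ 2 := by
              field_simp
              ring
      · by_cases hcase2 : C7 * g ≤ d / 2
        · -- second direction dominates
          have h3 := hA T hT0 (zc K j k (tp (dd α) (dd β)))
            {q : V × V | Nb (2 * δ) ρ x0 y0 q ∧ d / 2 < |q.2.2.2| ∧ |q.1.2.2| ≤ g ∧
              |q.2.2.2| ≤ d}
            (c1 * ρ * (d / 2)) (64 * ρ ^ 2 * g * d) (256 / c1 ^ 2) hzm hz1
            (fun q hq _ => ⟨(hrect q hq).1, (hrect q hq).2.2.2.2 hkK, (hrect q hq).2.1,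
              (hrect q hq).2.2.1⟩) (by positivity) ?_ (by positivity) ?_ (by positivity) ?_
          · refine h3.trans ?_
            gcongr
            rw [hL]
            have : 0 ≤ C0 * 64 := by positivity
            linarith
          · refine le_trans (measure_mono ?_) hvol
            rintro q ⟨e1, _, e3, e4⟩
            exact ⟨e1, e3, e4⟩
          · rintro q ⟨e1, e2, e3, e4⟩
            have h4 := (hE ρ hρ (by linarith) q (Nb_mono (by linarith) e1)).2 ?_
            · refine le_trans ?_ h4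
              gcongr
            · calc C7 * |q.1.2.2| ≤ C7 * g := by gcongr
                _ ≤ d / 2 := hcase2
                _ ≤ |q.2.2.2| := e2.le
          · have h4 : g ≤ d := by nlinarith
            calc 64 * ρ ^ 2 * g * d ≤ 64 * ρ ^ 2 * d * d := by gcongr
              _ = 256 / c1 ^ 2 * (c1 * ρ * (d / 2)) ^ 2 := by
                field_simp
                ring
        · -- comparable sizes
          push Not at hcase1 hcase2
          by_cases hgN : g < δN
          · have h3 := hN T ρ g hT0 hρ (by linarith) hg0 hgN (zc1 K j (dd α)) (zc1 K k (dd β))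
              (zc1_meas K j _ (dd_meas α hα)) (zc1_meas K k _ (dd_meas β hβ))
              (zc1_norm K j _ 1 zero_le_one hA1) (zc1_norm K k _ 1 zero_le_one hB1) ?_ ?_
            · rw [← zc_tp] at h3
              refine h3.trans ?_
              gcongr
              rw [hL]
              have : 0 ≤ CA * (256 / c1 ^ 2) := by positivity
              have : 0 ≤ C0 * 64 := by positivity
              linarith
            · intro u hu
              obtain ⟨e1, e2⟩ := zc1_ne hu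
              obtain ⟨f1, f2, _, f4⟩ := dd_supp hαs u e2
              have e3 := zix_ub K u.2.2 (by linarith)
              rw [e1, ← hg] at e3
              have e4 := zix_lb K u.2.2 (by omega)
              rw [e1, hg2] at e4
              refine ⟨by linarith, by linarith, ?_, ?_⟩
              · rw [abs_div, abs_of_pos hg0, div_le_div_iff₀ (by linarith) hg0]
                nlinarith
              · rw [abs_div, abs_of_pos hg0, div_le_iff₀ hg0]
                nlinarith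
            · intro u hu
              obtain ⟨e1, e2⟩ := zc1_ne hu
              obtain ⟨f1, f2, _, f4⟩ := dd_supp hβs u e2
              have e3 := zix_ub K u.2.2 (by linarith)
              rw [e1, ← hd] at e3
              have e4 := zix_lb K u.2.2 (by omega)
              rw [e1, hd2'] at e4
              refine ⟨by linarith, by linarith, ?_, ?_⟩
              · rw [abs_div, abs_of_pos hg0, div_le_div_iff₀ (by linarith) hg0]
                have : g / 2 < C7 * (2 * |u.2.2|) := by nlinarith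
                nlinarith
              · rw [abs_div, abs_of_pos hg0, div_le_iff₀ hg0]
                nlinarith
          · rw [FF_zero]
            · simpa using by positivity
            · intro q
              by_contra hq
              push Not at hgN
              obtain ⟨e1, _, _, e4, _⟩ := hrect q hq
              have e5 := e4 hjK
              obtain ⟨_, _, _, _, a5, _⟩ := e1
              linarith
  -- conclusion
  have hfin : ((K : ℝ) + 1) ^ 2 * (L / T) ≤ 25 * L * (1 + Real.log T) ^ 5 / T := by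
    have h3 : ((K : ℝ) + 1) ^ 2 ≤ (5 * (1 + Real.log T)) ^ 2 := by gcongr
    have h4 : (1 + Real.log T) ^ 2 ≤ (1 + Real.log T) ^ 5 :=
      pow_le_pow_right₀ (by linarith) (by norm_num)
    calc ((K : ℝ) + 1) ^ 2 * (L / T) ≤ (5 * (1 + Real.log T)) ^ 2 * (L / T) := by gcongr
      _ = 25 * L * (1 + Real.log T) ^ 2 / T := by ring
      _ ≤ 25 * L * (1 + Real.log T) ^ 5 / T := by gcongr
  have h5 : ‖FF c T (tp (dd α) (dd β))‖ₑ = ENNReal.ofReal ‖FF c T (tp (dd α) (dd β))‖ := by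
    rw [ofReal_norm]
  rw [h5]
  exact ENNReal.ofReal_le_ofReal (key.trans hfin)

end Pool.Agent.N1
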