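import Pool.Agent.N1.F1
import Pool.Agent.N1.F2
import Pool.Agent.N1.G2
import Pool.Agent.N1.Ea
import Pool.Agent.N1.Evol
import Pool.Agent.N1.C3

/-!
N1, block M1: the dyadic decomposition in the inner difference `z` (used by `TH_N` and `TH_D`).
-/

namespace Pool.Agent.N1

open MeasureTheory Set Metric Pool.Agent.MP_6cbfb8_an Pool.Agent.MST
open scoped ENNReal Real ContDiff

/-- The dyadic index of `t`: the largest `j ≤ K` with `|t| ≤ 2 ^ (-j)`. -/
noncomputable def zix (K : ℕ) (t : ℝ) : ℕ := by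
  classical exact Nat.findGreatest (fun j => |t| ≤ (1 / 2) ^ j) K

theorem zix_le (K : ℕ) (t : ℝ) : zix K t ≤ K := by
  unfold zix
  exact Nat.findGreatest_le K

theorem zix_ub (K : ℕ) (t : ℝ) (ht : |t| ≤ 1) : |t| ≤ (1 / 2) ^ (zix K t) := by
  classical
  unfold zix
  exact Nat.findGreatest_spec (P := fun j => |t| ≤ (1 / 2) ^ j) (m := 0) (Nat.zero_le _)
    (by simpa using ht)

theorem zix_lb (K : ℕ) (t : ℝ) (h : zix K t < K) : (1 / 2) ^ (zix K t + 1) < |t| := by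
  classical
  by_contra hcon
  push Not at hcon
  have h1 : zix K t + 1 ≤ zix K t := by
    conv_rhs => rw [zix]
    exact Nat.le_findGreatest (P := fun j => |t| ≤ (1 / 2) ^ j) h hcon
  omega

theorem zix_meas (K : ℕ) : Measurable (zix K) := by
  classical
  unfold zix
  refine measurable_findGreatest (p := fun (t : ℝ) (j : ℕ) => |t| ≤ (1 / 2) ^ j) ?_
  intro k _
  exact measurableSet_le (by fun_prop) measurable_const

/-- The part of `A` in one dyadic piece. -/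
noncomputable def zc1 (K j : ℕ) (A : V → ℂ) (u : V) : ℂ := if zix K u.2.2 = j then A u else 0

theorem zc1_meas (K j : ℕ) (A : V → ℂ) (hA : Measurable A) : Measurable (zc1 K j A) := by
  unfold zc1
  refine Measurable.ite ?_ hA measurable_const
  exact ((zix_meas K).comp (by fun_prop : Measurable fun u : V => u.2.2))
    (measurableSet_singleton j)

theorem zc1_norm (K j : ℕ) (A : V → ℂ) (B : ℝ) (hB : 0 ≤ B) (hA : ∀ a, ‖A a‖ ≤ B) (u : V) :
    ‖zc1 K j A u‖ ≤ B := by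
  unfold zc1
  split_ifs
  · exact hA u
  · simpa using hB

theorem zc1_ne {K j : ℕ} {A : V → ℂ} {u : V} (h : zc1 K j A u ≠ 0) :
    zix K u.2.2 = j ∧ A u ≠ 0 := by
  unfold zc1 at h
  split_ifs at h with h1
  · exact ⟨h1, h⟩
  · exact absurd rfl h

/-- The part of `M` in one dyadic rectangle of the inner difference. -/
noncomputable def zc (K j k : ℕ) (M : V × V → ℂ) (q : V × V) : ℂ :=
  if zix K q.1.2.2 = j ∧ zix K q.2.2.2 = k then M q else 0

theorem zc_tp (K j k : ℕ) (A B : V → ℂ) : zc K j k (tp A B) = tp (zc1 K j A) (zc1 K k B) := by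
  funext q
  unfold zc tp zc1
  by_cases h1 : zix K q.1.2.2 = j <;> by_cases h2 : zix K q.2.2.2 = k <;> simp [h1, h2]

theorem zc_meas (K j k : ℕ) (M : V × V → ℂ) (hM : Measurable M) : Measurable (zc K j k M) := by
  unfold zc
  refine Measurable.ite ?_ hM measurable_const
  exact (((zix_meas K).comp (by fun_prop : Measurable fun q : V × V => q.1.2.2))
    (measurableSet_singleton j)).inter
    (((zix_meas K).comp (by fun_prop : Measurable fun q : V × V => q.2.2.2))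
    (measurableSet_singleton k))

theorem zc_norm (K j k : ℕ) (M : V × V → ℂ) (B : ℝ) (hB : 0 ≤ B) (hM : ∀ q, ‖M q‖ ≤ B)
    (q : V × V) : ‖zc K j k M q‖ ≤ B := by
  unfold zc
  split_ifs
  · exact hM q
  · simpa using hB

theorem zc_ne {K j k : ℕ} {M : V × V → ℂ} {q : V × V} (h : zc K j k M q ≠ 0) :
    zix K q.1.2.2 = j ∧ zix K q.2.2.2 = k ∧ M q ≠ 0 := by
  unfold zc at h
  split_ifs at h with h1
  · exact ⟨h1.1, h1.2, h⟩
  · exact absurd rfl h

/-- What membership of a dyadic rectangle means. -/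
theorem zc_rect {K j k : ℕ} {M : V × V → ℂ} {q : V × V} (h : zc K j k M q ≠ 0)
    (h1 : |q.1.2.2| ≤ 1) (h2 : |q.2.2.2| ≤ 1) :
    M q ≠ 0 ∧ |q.1.2.2| ≤ (1 / 2) ^ j ∧ |q.2.2.2| ≤ (1 / 2) ^ k ∧
      (j < K → (1 / 2) ^ (j + 1) < |q.1.2.2|) ∧ (k < K → (1 / 2) ^ (k + 1) < |q.2.2.2|) := by
  obtain ⟨ha, hb, hc⟩ := zc_ne h
  refine ⟨hc, ?_, ?_, ?_, ?_⟩
  · rw [← ha]; exact zix_ub K _ h1
  · rw [← hb]; exact zix_ub K _ h2
  · intro hj
    rw [← ha] at hj ⊢
    exact zix_lb K _ hj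
  · intro hk
    rw [← hb] at hk ⊢
    exact zix_lb K _ hk

theorem zc_sum (K : ℕ) (M : V × V → ℂ) (q : V × V) :
    ∑ i ∈ Finset.range (K + 1) ×ˢ Finset.range (K + 1), zc K i.1 i.2 M q = M q := by
  rw [Finset.sum_product]
  have h1 : ∀ j ∈ Finset.range (K + 1), ∑ k ∈ Finset.range (K + 1), zc K j k M q =
      if zix K q.1.2.2 = j then M q else 0 := by
    intro j _
    have h2 : ∀ k ∈ Finset.range (K + 1), zc K j k M q =
        if zix K q.2.2.2 = k then (if zix K q.1.2.2 = j then M q else 0) else 0 := by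
      intro k _
      unfold zc
      by_cases h1 : zix K q.1.2.2 = j <;> by_cases h2 : zix K q.2.2.2 = k <;> simp [h1, h2]
    rw [Finset.sum_congr rfl h2, Finset.sum_ite_eq, if_pos]
    exact Finset.mem_range.2 (Nat.lt_succ_of_le (zix_le K _))
  rw [Finset.sum_congr rfl h1, Finset.sum_ite_eq, if_pos]
  exact Finset.mem_range.2 (Nat.lt_succ_of_le (zix_le K _))

/-- The dyadic decomposition in the inner difference. -/
theorem FF_dy (c : ℝ) (hc : 0 < c) (T : ℝ) (hT : 0 < T) (M : V × V → ℂ) (hM : Measurable M)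
    (B : ℝ) (hB : ∀ q, ‖M q‖ ≤ B) (K : ℕ) (L : ℝ)
    (h : ∀ j ≤ K, ∀ k ≤ K, ‖FF c T (zc K j k M)‖ ≤ L) : ‖FF c T M‖ ≤ ((K : ℝ) + 1) ^ 2 * L := by
  have hB0 : 0 ≤ B := (norm_nonneg _).trans (hB ((0, 0, 0), (0, 0, 0)))
  have h1 := FF_sum c hc T hT (Finset.range (K + 1) ×ˢ Finset.range (K + 1))
    (fun i => zc K i.1 i.2 M) (fun i => zc_meas K i.1 i.2 M hM) B
    (fun i q => zc_norm K i.1 i.2 M B hB0 hB q)
  have h2 : (fun q => ∑ i ∈ Finset.range (K + 1) ×ˢ Finset.range (K + 1), zc K i.1 i.2 M q) = M := by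
    funext q
    exact zc_sum K M q
  rw [h2] at h1
  rw [h1]
  refine (norm_sum_le _ _).trans ?_
  have h3 : ∀ i ∈ Finset.range (K + 1) ×ˢ Finset.range (K + 1), ‖FF c T (zc K i.1 i.2 M)‖ ≤ L := by
    intro i hi
    rw [Finset.mem_product, Finset.mem_range, Finset.mem_range] at hi
    exact h i.1 (by omega) i.2 (by omega)
  refine (Finset.sum_le_sum h3).trans ?_
  rw [Finset.sum_const, Finset.card_product, Finset.card_range, nsmul_eq_mul]
  push_cast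
  exact le_of_eq (by ring)

/-- The number of dyadic scales. -/
theorem dy_num (T : ℝ) (hT : 1 ≤ T) : ∃ K : ℕ, (1 / 2 : ℝ) ^ K ≤ 1 / T ^ 2 ∧
    (K : ℝ) + 1 ≤ 5 * (1 + Real.log T) := by
  have hl : 0 ≤ Real.log T := Real.log_nonneg hT
  have hl2 : (1 / 2 : ℝ) ≤ Real.log 2 := by
    have := Real.log_two_gt_d9
    linarith
  refine ⟨⌈2 * Real.log T / Real.log 2⌉₊, ?_, ?_⟩
  · rw [one_div, one_div, inv_pow]
    apply inv_anti₀ (by positivity)
    rw [← Real.rpow_natCast (2 : ℝ), ← Real.rpow_natCast T]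
    have h1 : T ^ ((2 : ℕ) : ℝ) = 2 ^ (2 * Real.log T / Real.log 2) := by
      rw [Real.rpow_def_of_pos (by linarith), Real.rpow_def_of_pos (by norm_num)]
      congr 1
      have : Real.log 2 ≠ 0 := by linarith
      push_cast
      field_simp
    rw [h1]
    exact Real.rpow_le_rpow_of_exponent_le (by norm_num) (Nat.le_ceil _)
  · have h1 : (⌈2 * Real.log T / Real.log 2⌉₊ : ℝ) < 2 * Real.log T / Real.log 2 + 1 :=
      Nat.ceil_lt_add_one (by positivity)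
    have h2 : 2 * Real.log T / Real.log 2 ≤ 4 * Real.log T := by
      rw [div_le_iff₀ (by linarith)]
      nlinarith
    linarith

/-- Absolute estimate, `v0 ≤ D * f0 ^ 2`. -/
theorem FF_abs2 (c : ℝ) (hc : 0 < c) : ∃ C : ℝ, 0 ≤ C ∧ ∀ T : ℝ, 0 < T → ∀ (M : V × V → ℂ)
    (S : Set (V × V)) (f0 v0 D : ℝ), Measurable M → (∀ q, ‖M q‖ ≤ 1) →
    (∀ q, M q ≠ 0 → Wr c q.1 q.2 ≠ 0 → q ∈ S) → 0 ≤ v0 → volume S ≤ ENNReal.ofReal v0 → 0 ≤ f0 →
    (∀ q ∈ S, f0 ≤ |Fr c q.1 q.2|) → 0 ≤ D → v0 ≤ D * f0 ^ 2 → ‖FF c T M‖ ≤ C * D / T := by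
  obtain ⟨C, hC, h⟩ := FF_abs c hc
  refine ⟨C, hC, fun T hT M S f0 v0 D hM hM1 hS hv hSv hf hF hD hvD => ?_⟩
  refine (h T hT M S f0 v0 hM hM1 hS hv hSv hf hF).trans ?_
  have hs : 0 ≤ T * f0 := by positivity
  have hp : (0 : ℝ) < (1 + T * f0) ^ 3 := by positivity
  rw [div_le_div_iff₀ hp hT]
  have h1 : (T * f0) ^ 2 ≤ (1 + T * f0) ^ 3 := by
    nlinarith [pow_nonneg hs 3, pow_nonneg hs 2]
  calc C * T * v0 * T ≤ C * T * (D * f0 ^ 2) * T := by gcongr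
    _ = C * D * (T * f0) ^ 2 := by ring
    _ ≤ C * D * (1 + T * f0) ^ 3 := by gcongr

/-- Absolute estimate on a set of volume `≤ D / T ^ 2`. -/
theorem FF_abs0 (c : ℝ) (hc : 0 < c) : ∃ C : ℝ, 0 ≤ C ∧ ∀ T : ℝ, 0 < T → ∀ (M : V × V → ℂ)
    (S : Set (V × V)) (v0 D : ℝ), Measurable M → (∀ q, ‖M q‖ ≤ 1) →
    (∀ q, M q ≠ 0 → Wr c q.1 q.2 ≠ 0 → q ∈ S) → 0 ≤ v0 → volume S ≤ ENNReal.ofReal v0 →
    v0 ≤ D / T ^ 2 → ‖FF c T M‖ ≤ C * D / T := by
  obtain ⟨C, hC, h⟩ := FF_abs c hc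
  refine ⟨C, hC, fun T hT M S v0 D hM hM1 hS hv hSv hvD => ?_⟩
  refine (h T hT M S 0 v0 hM hM1 hS hv hSv le_rfl (fun q _ => abs_nonneg _)).trans ?_
  rw [mul_zero, add_zero, one_pow, div_one, le_div_iff₀ hT]
  rw [le_div_iff₀ (by positivity)] at hvD
  calc C * T * v0 * T = C * (v0 * T ^ 2) := by ring
    _ ≤ C * D := by gcongr

end Pool.Agent.N1
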