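import Pool.Agent.N1.Defs2
import Pool.Agent.MST.FT
import Pool.Agent.MST.LF

/-!
N1, block W: the operator `op2` of a product density in the coordinates of the plane.
-/

namespace Pool.Agent.N1

open MeasureTheory Set Metric Pool.Agent.MP_6cbfb8_an Pool.Agent.MST
open scoped ENNReal Real ContDiff

/-- The identity matrix. -/
def idM : Mat 2 := fun i j => if i = j then 1 else 0

theorem mv_idM (w : E 2) : mv idM w = w := by
  unfold mv idM
  ext i
  simp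

/-- The coordinates of the plane. -/
noncomputable def pe : E 2 ≃ᵐ ℝ × ℝ :=
  (MeasurableEquiv.toLp 2 (Fin 2 → ℝ)).symm.trans MeasurableEquiv.finTwoArrow

theorem pe_apply (w : E 2) : pe w = (w 0, w 1) := rfl

theorem pe_mp : MeasurePreserving pe (volume : Measure (E 2)) (volume : Measure (ℝ × ℝ)) := by
  unfold pe
  exact (volume_preserving_finTwoArrow ℝ).comp
    (EuclideanSpace.volume_preserving_symm_measurableEquiv_toLp (Fin 2))

theorem lint_pe (φ : ℝ × ℝ → ℝ≥0∞) : ∫⁻ x : E 2, φ (x 0, x 1) = ∫⁻ ξ : ℝ × ℝ, φ ξ :=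
  pe_mp.lintegral_comp_emb pe.measurableEmbedding φ

theorem int_pe (φ : ℝ × ℝ → ℂ) : ∫ x : E 2, φ (x 0, x 1) = ∫ ξ : ℝ × ℝ, φ ξ :=
  pe_mp.integral_comp pe.measurableEmbedding φ

theorem vN_idM (w : E 2) : vN idM w = 1 - w 0 ^ 2 - w 1 ^ 2 := by
  unfold vN
  rw [mv_idM, EuclideanSpace.norm_sq_eq]
  simp [Fin.sum_univ_two]
  ring

theorem sma_eq (c v : ℝ) : sma c v = hft_a c v := rfl

theorem amp_eq (c : ℝ) (hc : 0 < c) (t : ℝ) (w : E 2) : amp2 (sma c) idM t w =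
    ((wf c (w 0) (w 1) : ℝ) : ℂ) * ex (t * qf c (w 0) (w 1)) := by
  unfold amp2 wf qf Sq
  rw [vN_idM]
  set v := 1 - w 0 ^ 2 - w 1 ^ 2 with hv
  rcases le_or_gt v (c ^ 2 / 4) with h | h
  · have h0 : sma c v = 0 := (hft_cut hc).2 v h
    rw [h0]
    simp
  · have h1 : Real.smoothTransition ((16 * v - c ^ 2) / c ^ 2) = 1 := by
      apply Real.smoothTransition.one_of_one_le
      rw [le_div_iff₀ (by positivity)]
      nlinarith
    rw [h1, mul_one]

theorem op2_eq (c : ℝ) (hc : 0 < c) (G₁ G₂ : ℝ → ℂ) (t : ℝ) (x : E 2) :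
    op2 (sma c) idM t (fun w => G₁ (w 0) * G₂ (w 1)) x = Eo c G₁ G₂ t (x 0, x 1) := by
  unfold op2 Eo
  rw [← int_pe]
  congr 1
  funext w
  rw [amp_eq c hc]
  have h1 : (inner ℝ w x : ℝ) = w 0 * x 0 + w 1 * x 1 := by
    simp [PiLp.inner_apply, Fin.sum_univ_two]
    ring
  rw [h1]
  ring

/-- Complex conjugation and negative times. -/
theorem Eo_conj (c : ℝ) (G₁ G₂ : ℝ → ℂ) (t : ℝ) (ξ : ℝ × ℝ) :
    Eo c (fun a => (starRingEnd ℂ) (G₁ a)) (fun b => (starRingEnd ℂ) (G₂ b)) t ξ =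
      (starRingEnd ℂ) (Eo c G₁ G₂ (-t) (-ξ)) := by
  unfold Eo
  rw [← integral_conj]
  congr 1
  funext x
  have hex : ∀ a : ℝ, (starRingEnd ℂ) (ex a) = ex (-a) := by
    intro a
    unfold ex
    rw [← Complex.exp_conj, map_mul, Complex.conj_ofReal, Complex.conj_I]
    congr 1
    push_cast
    ring
  simp only [map_mul, hex, Complex.conj_ofReal, Prod.fst_neg, Prod.snd_neg]
  congr 3
  · ring
  · ring

theorem Eo_refl1 (c : ℝ) (G₁ G₂ : ℝ → ℂ) (t : ℝ) (ξ : ℝ × ℝ) :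
    Eo c (fun a => G₁ (-a)) G₂ t ξ = Eo c G₁ G₂ t (-ξ.1, ξ.2) := by
  unfold Eo
  have h1 : MeasurePreserving (fun x : ℝ × ℝ => (-x.1, x.2)) (volume : Measure (ℝ × ℝ)) volume :=
    (Measure.measurePreserving_neg (volume : Measure ℝ)).prod (MeasurePreserving.id volume)
  have h2 : MeasurableEmbedding (fun x : ℝ × ℝ => (-x.1, x.2)) :=
    ((MeasurableEquiv.neg ℝ).prodCongr (MeasurableEquiv.refl ℝ)).measurableEmbedding
  rw [← h1.integral_comp h2]
  congr 1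
  funext x
  have h3 : wf c (-x.1) x.2 = wf c x.1 x.2 := by
    unfold wf
    congr 1
    ring
  have h4 : qf c (-x.1) x.2 = qf c x.1 x.2 := by
    unfold qf
    congr 1
    ring
  have h5 : -x.1 * ξ.1 + x.2 * ξ.2 = x.1 * -ξ.1 + x.2 * ξ.2 := by ring
  simp only [neg_neg, h3, h4, h5]

theorem Eo_refl2 (c : ℝ) (G₁ G₂ : ℝ → ℂ) (t : ℝ) (ξ : ℝ × ℝ) :
    Eo c G₁ (fun b => G₂ (-b)) t ξ = Eo c G₁ G₂ t (ξ.1, -ξ.2) := by
  unfold Eo
  have h1 : MeasurePreserving (fun x : ℝ × ℝ => (x.1, -x.2)) (volume : Measure (ℝ × ℝ)) volume :=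
    (MeasurePreserving.id volume).prod (Measure.measurePreserving_neg (volume : Measure ℝ))
  have h2 : MeasurableEmbedding (fun x : ℝ × ℝ => (x.1, -x.2)) :=
    ((MeasurableEquiv.refl ℝ).prodCongr (MeasurableEquiv.neg ℝ)).measurableEmbedding
  rw [← h1.integral_comp h2]
  congr 1
  funext x
  have h3 : wf c x.1 (-x.2) = wf c x.1 x.2 := by
    unfold wf
    congr 1
    ring
  have h4 : qf c x.1 (-x.2) = qf c x.1 x.2 := by
    unfold qf
    congr 1
    ring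
  have h5 : x.1 * ξ.1 + -x.2 * ξ.2 = x.1 * ξ.1 + x.2 * -ξ.2 := by ring
  simp only [neg_neg, h3, h4, h5]

end Pool.Agent.N1
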