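import Pool.Agent.N1.W1

/-!
N1, block W: the dyadic `L⁴` estimate for both signs of the time and of the coordinates.
-/

namespace Pool.Agent.N1

open MeasureTheory Set Metric Pool.Agent.MP_6cbfb8_an Pool.Agent.MST
open scoped ENNReal Real ContDiff

/-- The dyadic `L⁴` estimate as a hypothesis. -/
def L4H (c : ℝ) : Prop := ∃ C : ℝ, 0 ≤ C ∧ ∀ T : ℝ, 1 ≤ T → ∀ G₁ G₂ : ℝ → ℂ,
    Measurable G₁ → Measurable G₂ → (∀ a, ‖G₁ a‖ ≤ 1) → (∀ b, ‖G₂ b‖ ≤ 1) →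
    (∀ a, G₁ a ≠ 0 → c ≤ a) → (∀ b, G₂ b ≠ 0 → c ≤ b) →
    ∫⁻ t in Icc T (2 * T), ∫⁻ ξ : ℝ × ℝ, ‖Eo c G₁ G₂ t ξ‖ₑ ^ 4 ≤
      ENNReal.ofReal (C * (1 + Real.log T) ^ 8 / T)

theorem ex_cont : Continuous ex := by
  unfold ex
  fun_prop

theorem ex_norm (a : ℝ) : ‖ex a‖ = 1 := by
  unfold ex
  rw [Complex.norm_exp_ofReal_mul_I]

theorem wf_cont (c : ℝ) (hc : 0 < c) : Continuous fun x : ℝ × ℝ => wf c x.1 x.2 := by
  unfold wf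
  have h1 : Continuous (sma c) := ((hft_cut hc).1 0).continuous
  exact h1.comp (by fun_prop)

theorem qf_cont (c : ℝ) : Continuous fun x : ℝ × ℝ => qf c x.1 x.2 := by
  unfold qf Sq
  have h1 : Continuous Real.smoothTransition := Real.smoothTransition.continuous
  have h2 : Continuous fun x : ℝ × ℝ => √(1 - x.1 ^ 2 - x.2 ^ 2) := by fun_prop
  have h3 : Continuous fun x : ℝ × ℝ => (16 * (1 - x.1 ^ 2 - x.2 ^ 2) - c ^ 2) / c ^ 2 := by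
    fun_prop
  exact h2.mul (h1.comp h3)

/-- The support of the amplitude. -/
theorem wf_supp (c : ℝ) (hc : 0 < c) (a b : ℝ) (h : wf c a b ≠ 0) : |a| ≤ 1 ∧ |b| ≤ 1 := by
  have h1 : ¬ (1 - a ^ 2 - b ^ 2 ≤ c ^ 2 / 4) := by
    intro h2
    exact h ((hft_cut hc).2 _ h2)
  push Not at h1
  have h3 : a ^ 2 + b ^ 2 < 1 := by nlinarith [sq_nonneg c]
  constructor
  · rw [abs_le_one_iff_mul_self_le_one]; nlinarith
  · rw [abs_le_one_iff_mul_self_le_one]; nlinarith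

theorem wf_int (c : ℝ) (hc : 0 < c) : Integrable fun x : ℝ × ℝ => wf c x.1 x.2 := by
  have h1 : HasCompactSupport fun x : ℝ × ℝ => wf c x.1 x.2 := by
    apply HasCompactSupport.intro (isCompact_closedBall (0 : ℝ × ℝ) 1)
    intro x hx
    by_contra h
    obtain ⟨h2, h3⟩ := wf_supp c hc x.1 x.2 h
    apply hx
    rw [mem_closedBall_zero_iff, Prod.norm_def]
    exact max_le (by rwa [Real.norm_eq_abs]) (by rwa [Real.norm_eq_abs])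
  exact (wf_cont c hc).integrable_of_hasCompactSupport h1

/-- The integrand of the extension operator. -/
noncomputable def Ei (c : ℝ) (G₁ G₂ : ℝ → ℂ) (t : ℝ) (ξ : ℝ × ℝ) (x : ℝ × ℝ) : ℂ :=
  G₁ x.1 * G₂ x.2 * ((wf c x.1 x.2 : ℝ) : ℂ) * ex (t * qf c x.1 x.2) *
    ex (x.1 * ξ.1 + x.2 * ξ.2)

theorem Ei_meas (c : ℝ) (hc : 0 < c) (G₁ G₂ : ℝ → ℂ) (h1 : Measurable G₁) (h2 : Measurable G₂) :
    Measurable fun q : (ℝ × ℝ × ℝ) × (ℝ × ℝ) => Ei c G₁ G₂ q.1.1 q.1.2 q.2 := by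
  unfold Ei
  have e1 : Measurable ex := ex_cont.measurable
  have e2 : Measurable fun x : ℝ × ℝ => wf c x.1 x.2 := (wf_cont c hc).measurable
  have e3 : Measurable fun x : ℝ × ℝ => qf c x.1 x.2 := (qf_cont c).measurable
  have a1 : Measurable fun q : (ℝ × ℝ × ℝ) × (ℝ × ℝ) => G₁ q.2.1 := h1.comp (by fun_prop)
  have a2 : Measurable fun q : (ℝ × ℝ × ℝ) × (ℝ × ℝ) => G₂ q.2.2 := h2.comp (by fun_prop)
  have a3 : Measurable fun q : (ℝ × ℝ × ℝ) × (ℝ × ℝ) => ((wf c q.2.1 q.2.2 : ℝ) : ℂ) :=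
    Complex.measurable_ofReal.comp (e2.comp measurable_snd)
  have a4 : Measurable fun q : (ℝ × ℝ × ℝ) × (ℝ × ℝ) => ex (q.1.1 * qf c q.2.1 q.2.2) := by
    refine e1.comp ?_
    have b1 : Measurable fun q : (ℝ × ℝ × ℝ) × (ℝ × ℝ) => qf c q.2.1 q.2.2 :=
      e3.comp measurable_snd
    have b2 : Measurable fun q : (ℝ × ℝ × ℝ) × (ℝ × ℝ) => q.1.1 := by fun_prop
    exact b2.mul b1
  have a5 : Measurable fun q : (ℝ × ℝ × ℝ) × (ℝ × ℝ) =>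
      ex (q.2.1 * q.1.2.1 + q.2.2 * q.1.2.2) := e1.comp (by fun_prop)
  exact (((a1.mul a2).mul a3).mul a4).mul a5

theorem Ei_norm (c : ℝ) (G₁ G₂ : ℝ → ℂ) (b1 : ∀ a, ‖G₁ a‖ ≤ 1) (b2 : ∀ b, ‖G₂ b‖ ≤ 1) (t : ℝ)
    (ξ x : ℝ × ℝ) : ‖Ei c G₁ G₂ t ξ x‖ ≤ ‖wf c x.1 x.2‖ := by
  unfold Ei
  rw [norm_mul, norm_mul, ex_norm, ex_norm, mul_one, mul_one, norm_mul, norm_mul,
    Complex.norm_real]
  have h : ‖G₁ x.1‖ * ‖G₂ x.2‖ ≤ 1 := mul_le_one₀ (b1 _) (norm_nonneg _) (b2 _)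
  exact mul_le_of_le_one_left (norm_nonneg _) h

theorem Ei_int (c : ℝ) (hc : 0 < c) (G₁ G₂ : ℝ → ℂ) (h1 : Measurable G₁) (h2 : Measurable G₂)
    (b1 : ∀ a, ‖G₁ a‖ ≤ 1) (b2 : ∀ b, ‖G₂ b‖ ≤ 1) (t : ℝ) (ξ : ℝ × ℝ) :
    Integrable (Ei c G₁ G₂ t ξ) := by
  refine (wf_int c hc).mono ?_ (Filter.Eventually.of_forall fun x => Ei_norm c G₁ G₂ b1 b2 t ξ x)
  have := (Ei_meas c hc G₁ G₂ h1 h2).comp
    (f := fun x : ℝ × ℝ => (((t, ξ), x) : (ℝ × ℝ × ℝ) × (ℝ × ℝ))) (by fun_prop)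
  exact this.aestronglyMeasurable

theorem Eo_meas (c : ℝ) (hc : 0 < c) (G₁ G₂ : ℝ → ℂ) (h1 : Measurable G₁) (h2 : Measurable G₂) :
    Measurable fun q : ℝ × ℝ × ℝ => Eo c G₁ G₂ q.1 q.2 := by
  have h3 := (Ei_meas c hc G₁ G₂ h1 h2).stronglyMeasurable
  have h4 := h3.integral_prod_right' (ν := (volume : Measure (ℝ × ℝ)))
  exact h4.measurable

/-- The `L⁴` norm over the plane and a time interval. -/
noncomputable def S4 (c : ℝ) (G₁ G₂ : ℝ → ℂ) (T : ℝ) : ℝ≥0∞ :=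
  ∫⁻ t in Icc T (2 * T), ∫⁻ ξ : ℝ × ℝ, ‖Eo c G₁ G₂ t ξ‖ₑ ^ 4

theorem S4_inner_meas (c : ℝ) (hc : 0 < c) (G₁ G₂ : ℝ → ℂ) (h1 : Measurable G₁)
    (h2 : Measurable G₂) : Measurable fun t : ℝ => ∫⁻ ξ : ℝ × ℝ, ‖Eo c G₁ G₂ t ξ‖ₑ ^ 4 :=
  ((Eo_meas c hc G₁ G₂ h1 h2).enorm.pow_const 4).lintegral_prod_right'

theorem S4_refl1 (c : ℝ) (G₁ G₂ : ℝ → ℂ) (T : ℝ) :
    S4 c (fun a => G₁ (-a)) G₂ T = S4 c G₁ G₂ T := by
  unfold S4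
  refine lintegral_congr fun t => ?_
  have h1 : MeasurePreserving (fun x : ℝ × ℝ => (-x.1, x.2)) (volume : Measure (ℝ × ℝ)) volume :=
    (Measure.measurePreserving_neg (volume : Measure ℝ)).prod (MeasurePreserving.id volume)
  have h2 : MeasurableEmbedding (fun x : ℝ × ℝ => (-x.1, x.2)) :=
    ((MeasurableEquiv.neg ℝ).prodCongr (MeasurableEquiv.refl ℝ)).measurableEmbedding
  rw [← h1.lintegral_comp_emb h2 (fun ξ : ℝ × ℝ => ‖Eo c G₁ G₂ t ξ‖ₑ ^ 4)]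
  refine lintegral_congr fun ξ => ?_
  rw [Eo_refl1]

theorem S4_refl2 (c : ℝ) (G₁ G₂ : ℝ → ℂ) (T : ℝ) :
    S4 c G₁ (fun b => G₂ (-b)) T = S4 c G₁ G₂ T := by
  unfold S4
  refine lintegral_congr fun t => ?_
  have h1 : MeasurePreserving (fun x : ℝ × ℝ => (x.1, -x.2)) (volume : Measure (ℝ × ℝ)) volume :=
    (MeasurePreserving.id volume).prod (Measure.measurePreserving_neg (volume : Measure ℝ))
  have h2 : MeasurableEmbedding (fun x : ℝ × ℝ => (x.1, -x.2)) :=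
    ((MeasurableEquiv.refl ℝ).prodCongr (MeasurableEquiv.neg ℝ)).measurableEmbedding
  rw [← h1.lintegral_comp_emb h2 (fun ξ : ℝ × ℝ => ‖Eo c G₁ G₂ t ξ‖ₑ ^ 4)]
  refine lintegral_congr fun ξ => ?_
  rw [Eo_refl2]

theorem enorm_add_four (x y : ℂ) : ‖x + y‖ₑ ^ 4 ≤ 8 * (‖x‖ₑ ^ 4 + ‖y‖ₑ ^ 4) := by
  have h1 : ‖x + y‖ ^ 4 ≤ 8 * (‖x‖ ^ 4 + ‖y‖ ^ 4) := by
    have h2 := norm_add_le x y
    have h3 : ‖x + y‖ ^ 4 ≤ (‖x‖ + ‖y‖) ^ 4 := pow_le_pow_left₀ (norm_nonneg _) h2 4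
    have hx := norm_nonneg x
    have hy := norm_nonneg y
    nlinarith [sq_nonneg (‖x‖ - ‖y‖), sq_nonneg (‖x‖ ^ 2 - ‖y‖ ^ 2), mul_nonneg hx hy,
      sq_nonneg (‖x‖ + ‖y‖), mul_nonneg (mul_nonneg hx hy) (sq_nonneg (‖x‖ - ‖y‖)),
      mul_nonneg (sq_nonneg (‖x‖ - ‖y‖)) (sq_nonneg (‖x‖ + ‖y‖))]
  have h4 : ∀ z : ℂ, ‖z‖ₑ ^ 4 = ENNReal.ofReal (‖z‖ ^ 4) := by
    intro z
    rw [ENNReal.ofReal_pow (norm_nonneg _), ofReal_norm]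
  have h5 : (8 : ℝ≥0∞) = ENNReal.ofReal 8 := by norm_num
  rw [h4, h4, h4, h5, ← ENNReal.ofReal_add (by positivity) (by positivity),
    ← ENNReal.ofReal_mul (by norm_num)]
  exact ENNReal.ofReal_le_ofReal h1

theorem S4_add (c : ℝ) (hc : 0 < c) (A₁ A₂ B₁ B₂ D₁ D₂ : ℝ → ℂ) (hA : Measurable A₁)
    (hA' : Measurable A₂) (hB : Measurable B₁) (hB' : Measurable B₂)
    (a1 : ∀ a, ‖A₁ a‖ ≤ 1) (a2 : ∀ a, ‖A₂ a‖ ≤ 1) (b1 : ∀ a, ‖B₁ a‖ ≤ 1) (b2 : ∀ a, ‖B₂ a‖ ≤ 1)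
    (hD : ∀ x : ℝ × ℝ, D₁ x.1 * D₂ x.2 = A₁ x.1 * A₂ x.2 + B₁ x.1 * B₂ x.2) (T : ℝ) :
    S4 c D₁ D₂ T ≤ 8 * (S4 c A₁ A₂ T + S4 c B₁ B₂ T) := by
  unfold S4
  rw [← lintegral_add_left (S4_inner_meas c hc A₁ A₂ hA hA'), ← lintegral_const_mul' _ _ (by simp)]
  refine lintegral_mono fun t => ?_
  have hm : Measurable fun ξ : ℝ × ℝ => ‖Eo c A₁ A₂ t ξ‖ₑ ^ 4 :=
    ((Eo_meas c hc A₁ A₂ hA hA').comp (f := fun ξ : ℝ × ℝ => (t, ξ)) (by fun_prop)).enorm.pow_const 4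
  rw [← lintegral_add_left hm, ← lintegral_const_mul' _ _ (by simp)]
  refine lintegral_mono fun ξ => ?_
  have h1 : Eo c D₁ D₂ t ξ = Eo c A₁ A₂ t ξ + Eo c B₁ B₂ t ξ := by
    have i1 := Ei_int c hc A₁ A₂ hA hA' a1 a2 t ξ
    have i2 := Ei_int c hc B₁ B₂ hB hB' b1 b2 t ξ
    have h2 := integral_add i1 i2
    have h3 : Eo c D₁ D₂ t ξ = ∫ x, (Ei c A₁ A₂ t ξ x + Ei c B₁ B₂ t ξ x) := by
      unfold Eo Ei
      congr 1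
      funext x
      rw [hD x]
      ring
    rw [h3, h2]
    rfl
  show ‖Eo c D₁ D₂ t ξ‖ₑ ^ 4 ≤ _
  rw [h1]
  exact enorm_add_four _ _

/-- Both signs of the coordinates. -/
theorem L4_signs (c : ℝ) (hc : 0 < c) (h : L4H c) : ∃ C : ℝ, 0 ≤ C ∧ ∀ T : ℝ, 1 ≤ T →
    ∀ G₁ G₂ : ℝ → ℂ, Measurable G₁ → Measurable G₂ → (∀ a, ‖G₁ a‖ ≤ 1) → (∀ b, ‖G₂ b‖ ≤ 1) →
    (∀ a, G₁ a ≠ 0 → c ≤ |a|) → (∀ b, G₂ b ≠ 0 → c ≤ |b|) →
    S4 c G₁ G₂ T ≤ ENNReal.ofReal (C * (1 + Real.log T) ^ 8 / T) := by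
  obtain ⟨C, hC, H⟩ := h
  have H' : ∀ T : ℝ, 1 ≤ T → ∀ G₁ G₂ : ℝ → ℂ,
    Measurable G₁ → Measurable G₂ → (∀ a, ‖G₁ a‖ ≤ 1) → (∀ b, ‖G₂ b‖ ≤ 1) →
    (∀ a, G₁ a ≠ 0 → c ≤ a) → (∀ b, G₂ b ≠ 0 → c ≤ b) →
    S4 c G₁ G₂ T ≤ ENNReal.ofReal (C * (1 + Real.log T) ^ 8 / T) := H
  refine ⟨256 * C, by positivity, ?_⟩
  intro T hT G₁ G₂ h1 h2 b1 b2 s1 s2
  set P : (ℝ → ℂ) → ℝ → ℂ := fun G a => if 0 ≤ a then G a else 0 with hP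
  set M : (ℝ → ℂ) → ℝ → ℂ := fun G a => if 0 ≤ a then 0 else G a with hM
  have hsum : ∀ (G : ℝ → ℂ) a, G a = P G a + M G a := by
    intro G a
    simp only [hP, hM]
    split_ifs <;> simp
  have mP : ∀ G : ℝ → ℂ, Measurable G → Measurable (P G) := by
    intro G hG
    exact Measurable.ite (measurableSet_Ici : MeasurableSet (Ici (0:ℝ))) hG measurable_const
  have mM : ∀ G : ℝ → ℂ, Measurable G → Measurable (M G) := by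
    intro G hG
    exact Measurable.ite (measurableSet_Ici : MeasurableSet (Ici (0:ℝ))) measurable_const hG
  have nP : ∀ G : ℝ → ℂ, (∀ a, ‖G a‖ ≤ 1) → ∀ a, ‖P G a‖ ≤ 1 := by
    intro G hG a
    simp only [hP]
    split_ifs
    · exact hG a
    · simp
  have nM : ∀ G : ℝ → ℂ, (∀ a, ‖G a‖ ≤ 1) → ∀ a, ‖M G a‖ ≤ 1 := by
    intro G hG a
    simp only [hM]
    split_ifs
    · simp
    · exact hG a
  have sP : ∀ G : ℝ → ℂ, (∀ a, G a ≠ 0 → c ≤ |a|) → ∀ a, P G a ≠ 0 → c ≤ a := by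
    intro G hG a ha
    simp only [hP] at ha
    split_ifs at ha with h3
    · have := hG a ha
      rwa [abs_of_nonneg h3] at this
    · exact absurd rfl ha
  have sM : ∀ G : ℝ → ℂ, (∀ a, G a ≠ 0 → c ≤ |a|) → ∀ a, M G (-a) ≠ 0 → c ≤ a := by
    intro G hG a ha
    simp only [hM] at ha
    split_ifs at ha with h3
    · exact absurd rfl ha
    · have := hG (-a) ha
      rw [abs_neg, abs_of_pos (by linarith)] at this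
      exact this
  have mneg : ∀ G : ℝ → ℂ, Measurable G → Measurable (fun a => G (-a)) := by
    intro G hG
    exact hG.comp measurable_neg
  set R := ENNReal.ofReal (C * (1 + Real.log T) ^ 8 / T) with hR
  have e1 : S4 c (P G₁) (P G₂) T ≤ R :=
    H' T hT _ _ (mP _ h1) (mP _ h2) (nP _ b1) (nP _ b2) (sP _ s1) (sP _ s2)
  have e2 : S4 c (M G₁) (P G₂) T ≤ R := by
    rw [← S4_refl1]
    exact H' T hT _ _ (mneg _ (mM _ h1)) (mP _ h2) (fun a => nM _ b1 _) (nP _ b2) (sM _ s1) (sP _ s2)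
  have e3 : S4 c (P G₁) (M G₂) T ≤ R := by
    rw [← S4_refl2]
    exact H' T hT _ _ (mP _ h1) (mneg _ (mM _ h2)) (nP _ b1) (fun a => nM _ b2 _) (sP _ s1) (sM _ s2)
  have e4 : S4 c (M G₁) (M G₂) T ≤ R := by
    rw [← S4_refl2, ← S4_refl1]
    exact H' T hT _ _ (mneg _ (mM _ h1)) (mneg _ (mM _ h2)) (fun a => nM _ b1 _)
      (fun a => nM _ b2 _) (sM _ s1) (sM _ s2)
  have f1 : S4 c G₁ (P G₂) T ≤ 8 * (S4 c (P G₁) (P G₂) T + S4 c (M G₁) (P G₂) T) :=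
    S4_add c hc _ _ _ _ _ _ (mP _ h1) (mP _ h2) (mM _ h1) (mP _ h2) (nP _ b1) (nP _ b2) (nM _ b1)
      (nP _ b2) (fun x => by rw [hsum G₁ x.1]; ring) T
  have f2 : S4 c G₁ (M G₂) T ≤ 8 * (S4 c (P G₁) (M G₂) T + S4 c (M G₁) (M G₂) T) :=
    S4_add c hc _ _ _ _ _ _ (mP _ h1) (mM _ h2) (mM _ h1) (mM _ h2) (nP _ b1) (nM _ b2) (nM _ b1)
      (nM _ b2) (fun x => by rw [hsum G₁ x.1]; ring) T
  have f3 : S4 c G₁ G₂ T ≤ 8 * (S4 c G₁ (P G₂) T + S4 c G₁ (M G₂) T) :=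
    S4_add c hc _ _ _ _ _ _ h1 (mP _ h2) h1 (mM _ h2) b1 (nP _ b2) b1
      (nM _ b2) (fun x => by rw [hsum G₂ x.2]; ring) T
  calc S4 c G₁ G₂ T ≤ 8 * (8 * (R + R) + 8 * (R + R)) := by
        refine f3.trans ?_
        gcongr
        · exact f1.trans (by gcongr)
        · exact f2.trans (by gcongr)
    _ = ENNReal.ofReal (256 * C * (1 + Real.log T) ^ 8 / T) := by
        have h5 : (256 : ℝ≥0∞) = ENNReal.ofReal 256 := by norm_num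
        have h6 : 8 * (8 * (R + R) + 8 * (R + R)) = 256 * R := by ring
        rw [h6, h5, hR, ← ENNReal.ofReal_mul (by norm_num)]
        congr 1
        ring

end Pool.Agent.N1
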