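import Pool.Agent.N1.W2
import Pool.Agent.MST.TS

/-!
N1, block W: the `L^p` estimate in the chart.
-/

namespace Pool.Agent.N1

open MeasureTheory Set Metric Pool.Agent.MP_6cbfb8_an Pool.Agent.MST
open scoped ENNReal Real

/-- The product density in the plane. -/
noncomputable def pw (G₁ G₂ : ℝ → ℂ) (w : E 2) : ℂ := G₁ (w 0) * G₂ (w 1)

theorem pw_meas (G₁ G₂ : ℝ → ℂ) (h1 : Measurable G₁) (h2 : Measurable G₂) :
    Measurable (pw G₁ G₂) := by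
  unfold pw
  have a1 : Measurable fun w : E 2 => w 0 := by fun_prop
  have a2 : Measurable fun w : E 2 => w 1 := by fun_prop
  exact (h1.comp a1).mul (h2.comp a2)

theorem pw_norm (G₁ G₂ : ℝ → ℂ) (b1 : ∀ a, ‖G₁ a‖ ≤ 1) (b2 : ∀ b, ‖G₂ b‖ ≤ 1) (w : E 2) :
    ‖pw G₁ G₂ w‖ ≤ 1 := by
  unfold pw
  rw [norm_mul]
  exact mul_le_one₀ (b1 _) (norm_nonneg _) (b2 _)

theorem op2_pw (c : ℝ) (hc : 0 < c) (G₁ G₂ : ℝ → ℂ) (t : ℝ) (x : E 2) :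
    op2 (hft_a c) idM t (pw G₁ G₂) x = Eo c G₁ G₂ t (x 0, x 1) := op2_eq c hc G₁ G₂ t x

theorem S4_neg (c : ℝ) (G₁ G₂ : ℝ → ℂ) (T : ℝ) :
    ∫⁻ t in Icc (-(2 * T)) (-T), ∫⁻ ξ : ℝ × ℝ, ‖Eo c G₁ G₂ t ξ‖ₑ ^ 4 =
      S4 c (fun a => (starRingEnd ℂ) (G₁ a)) (fun b => (starRingEnd ℂ) (G₂ b)) T := by
  unfold S4
  have h1 : MeasurePreserving (fun t : ℝ => -t) volume volume :=
    Measure.measurePreserving_neg (volume : Measure ℝ)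
  have h2 : MeasurableEmbedding (fun t : ℝ => -t) := (MeasurableEquiv.neg ℝ).measurableEmbedding
  have h3 := h1.setLIntegral_comp_preimage_emb h2
    (fun t : ℝ => ∫⁻ ξ : ℝ × ℝ, ‖Eo c G₁ G₂ t ξ‖ₑ ^ 4) (Icc (-(2 * T)) (-T))
  rw [← h3]
  have h4 : (fun t : ℝ => -t) ⁻¹' Icc (-(2 * T)) (-T) = Icc T (2 * T) := by
    ext t
    simp only [mem_preimage, mem_Icc, neg_le_neg_iff]
    tauto
  rw [h4]
  refine lintegral_congr fun t => ?_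
  have k1 : MeasurePreserving (fun x : ℝ × ℝ => -x) (volume : Measure (ℝ × ℝ)) volume :=
    Measure.measurePreserving_neg _
  have k2 : MeasurableEmbedding (fun x : ℝ × ℝ => -x) :=
    (MeasurableEquiv.neg (ℝ × ℝ)).measurableEmbedding
  rw [← k1.lintegral_comp_emb k2 (fun ξ : ℝ × ℝ => ‖Eo c G₁ G₂ (-t) ξ‖ₑ ^ 4)]
  refine lintegral_congr fun ξ => ?_
  rw [Eo_conj]
  congr 1
  rw [← ofReal_norm, ← ofReal_norm, RCLike.norm_conj]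

theorem L4_times (c : ℝ) (hc : 0 < c) (h : L4H c) : ∃ C : ℝ, 0 ≤ C ∧ ∀ T : ℝ, 1 ≤ T →
    ∀ G₁ G₂ : ℝ → ℂ, Measurable G₁ → Measurable G₂ → (∀ a, ‖G₁ a‖ ≤ 1) → (∀ b, ‖G₂ b‖ ≤ 1) →
    (∀ a, G₁ a ≠ 0 → c ≤ |a|) → (∀ b, G₂ b ≠ 0 → c ≤ |b|) →
    ∫⁻ t in {t : ℝ | T ≤ |t| ∧ |t| ≤ 2 * T}, ∫⁻ x : E 2,
      ‖op2 (hft_a c) idM t (pw G₁ G₂) x‖ₑ ^ (4:ℝ) ≤
      ENNReal.ofReal (C * (1 + Real.log T) ^ 8 / T) := by
  obtain ⟨C, hC, H⟩ := L4_signs c hc h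
  refine ⟨2 * C, by positivity, ?_⟩
  intro T hT G₁ G₂ h1 h2 b1 b2 s1 s2
  have hsub : {t : ℝ | T ≤ |t| ∧ |t| ≤ 2 * T} ⊆ Icc T (2 * T) ∪ Icc (-(2 * T)) (-T) := by
    intro t ht
    obtain ⟨ht1, ht2⟩ := ht
    rcases le_total 0 t with h0 | h0
    · rw [abs_of_nonneg h0] at ht1 ht2
      exact Or.inl ⟨ht1, ht2⟩
    · rw [abs_of_nonpos h0] at ht1 ht2
      exact Or.inr ⟨by linarith, by linarith⟩
  have hin : ∀ t : ℝ, ∫⁻ x : E 2, ‖op2 (hft_a c) idM t (pw G₁ G₂) x‖ₑ ^ (4:ℝ) =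
      ∫⁻ ξ : ℝ × ℝ, ‖Eo c G₁ G₂ t ξ‖ₑ ^ 4 := by
    intro t
    rw [← lint_pe]
    refine lintegral_congr fun x => ?_
    rw [op2_pw c hc]
    exact_mod_cast ENNReal.rpow_natCast _ 4
  have hcm : ∀ G : ℝ → ℂ, Measurable G → Measurable fun a => (starRingEnd ℂ) (G a) := by
    intro G hG
    exact Complex.continuous_conj.measurable.comp hG
  calc ∫⁻ t in {t : ℝ | T ≤ |t| ∧ |t| ≤ 2 * T}, ∫⁻ x : E 2,
        ‖op2 (hft_a c) idM t (pw G₁ G₂) x‖ₑ ^ (4:ℝ)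
      = ∫⁻ t in {t : ℝ | T ≤ |t| ∧ |t| ≤ 2 * T}, ∫⁻ ξ : ℝ × ℝ, ‖Eo c G₁ G₂ t ξ‖ₑ ^ 4 :=
        lintegral_congr fun t => hin t
    _ ≤ ∫⁻ t in Icc T (2 * T) ∪ Icc (-(2 * T)) (-T), ∫⁻ ξ : ℝ × ℝ, ‖Eo c G₁ G₂ t ξ‖ₑ ^ 4 :=
        lintegral_mono_set hsub
    _ ≤ S4 c G₁ G₂ T + S4 c (fun a => (starRingEnd ℂ) (G₁ a)) (fun b => (starRingEnd ℂ) (G₂ b)) T := by
        refine (lintegral_union_le _ _ _).trans ?_
        rw [S4_neg]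
        exact le_rfl
    _ ≤ ENNReal.ofReal (C * (1 + Real.log T) ^ 8 / T) +
          ENNReal.ofReal (C * (1 + Real.log T) ^ 8 / T) := by
        refine add_le_add (H T hT G₁ G₂ h1 h2 b1 b2 s1 s2) (H T hT _ _ (hcm _ h1) (hcm _ h2) ?_ ?_ ?_ ?_)
        · intro a
          rw [RCLike.norm_conj]
          exact b1 a
        · intro a
          rw [RCLike.norm_conj]
          exact b2 a
        · intro a ha
          exact s1 a fun h0 => ha (by rw [h0]; simp)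
        · intro a ha
          exact s2 a fun h0 => ha (by rw [h0]; simp)
    _ = ENNReal.ofReal (2 * C * (1 + Real.log T) ^ 8 / T) := by
        have hlog := Real.log_nonneg hT
        rw [← ENNReal.ofReal_add (by positivity) (by positivity)]
        congr 1
        ring

theorem log_pow_le (β : ℝ) (hβ : β < 1) : ∃ K : ℝ, 0 ≤ K ∧ ∀ T : ℝ, 1 ≤ T →
    (1 + Real.log T) ^ 8 / T ≤ K * T ^ (-β) := by
  set ε : ℝ := (1 - β) / 8 with hε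
  have hε0 : 0 < ε := by rw [hε]; linarith
  refine ⟨(1 + 1 / ε) ^ 8, by positivity, fun T hT => ?_⟩
  have hT0 : 0 < T := by linarith
  have h1 : Real.log T ≤ T ^ ε / ε := Real.log_le_rpow_div hT0.le hε0
  have h2 : 1 ≤ T ^ ε := Real.one_le_rpow hT hε0.le
  have h3 : 1 + Real.log T ≤ (1 + 1 / ε) * T ^ ε := by
    have : (1 + 1 / ε) * T ^ ε = T ^ ε + T ^ ε / ε := by ring
    rw [this]
    linarith
  have h4 : 0 ≤ 1 + Real.log T := by linarith [Real.log_nonneg hT]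
  have h5 : (1 + Real.log T) ^ 8 ≤ ((1 + 1 / ε) * T ^ ε) ^ 8 := pow_le_pow_left₀ h4 h3 8
  have h6 : ((1 + 1 / ε) * T ^ ε) ^ 8 = (1 + 1 / ε) ^ 8 * T ^ (1 - β) := by
    rw [mul_pow]
    congr 1
    rw [← Real.rpow_natCast (T ^ ε) 8, ← Real.rpow_mul hT0.le]
    congr 1
    rw [hε]
    push_cast
    ring
  rw [div_le_iff₀ hT0]
  calc (1 + Real.log T) ^ 8 ≤ (1 + 1 / ε) ^ 8 * T ^ (1 - β) := by rw [← h6]; exact h5
    _ = (1 + 1 / ε) ^ 8 * T ^ (-β) * T := by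
        rw [mul_assoc]
        congr 1
        rw [← Real.rpow_add_one hT0.ne']
        congr 1
        ring

theorem op2_Lp_lt (c : ℝ) (hc : 0 < c) (h : L4H c) (p : ℝ) (hp : 3 < p) (hp4 : p < 4) :
    ∃ C : ℝ≥0∞, C ≠ ∞ ∧ ∀ G₁ G₂ : ℝ → ℂ, Measurable G₁ → Measurable G₂ → (∀ a, ‖G₁ a‖ ≤ 1) →
    (∀ b, ‖G₂ b‖ ≤ 1) → (∀ a, G₁ a ≠ 0 → c ≤ |a|) → (∀ b, G₂ b ≠ 0 → c ≤ |b|) →
    ∫⁻ t : ℝ, ∫⁻ x : E 2, ‖op2 (hft_a c) idM t (pw G₁ G₂) x‖ₑ ^ p ≤ C := by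
  obtain ⟨C, hC, H⟩ := L4_times c hc h
  set β : ℝ := ((4 - p) / (p - 2) + 1) / 2 with hβ
  have hp2 : 0 < p - 2 := by linarith
  have hq : (4 - p) / (p - 2) < 1 := by rw [div_lt_one hp2]; linarith
  have hβ1 : β < 1 := by rw [hβ]; linarith
  have hβ2 : 4 - p < β * (p - 2) := by
    have : (4 - p) / (p - 2) < β := by rw [hβ]; linarith
    rwa [div_lt_iff₀ hp2] at this
  obtain ⟨K, hK, hKT⟩ := log_pow_le β hβ1
  obtain ⟨Cs, hCs, hsum⟩ := time_sum (Measure.dirac ()) (volume : Measure (E 2)) p β (by linarith)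
    hp4 hβ2
  obtain ⟨C0, hC0, hb0⟩ := op2_bounds 2 (c ^ 2 / 4) (by positivity) (hft_a c) (hft_cut hc) 1
  have hR : ∀ w : E 2, hft_a c (vN idM w) ≠ 0 → ‖w‖ ≤ 1 := by
    intro w hw
    have h1 : ¬ (vN idM w ≤ c ^ 2 / 4) := fun h2 => hw ((hft_cut hc).2 _ h2)
    push Not at h1
    unfold vN at h1
    rw [mv_idM] at h1
    have h2 : ‖w‖ ^ 2 < 1 := by nlinarith [sq_nonneg c]
    nlinarith [norm_nonneg w]
  refine ⟨Cs * (ENNReal.ofReal C0 ^ (p - 2) * ENNReal.ofReal C0 +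
    ENNReal.ofReal C0 ^ ((4 - p) / 2) * ENNReal.ofReal (C * K) ^ ((p - 2) / 2)), ?_, ?_⟩
  · refine ENNReal.mul_ne_top hCs (ENNReal.add_ne_top.2 ⟨ENNReal.mul_ne_top ?_ ENNReal.ofReal_ne_top,
      ENNReal.mul_ne_top ?_ ?_⟩)
    · exact ENNReal.rpow_ne_top_of_nonneg (by linarith) ENNReal.ofReal_ne_top
    · exact ENNReal.rpow_ne_top_of_nonneg (by linarith) ENNReal.ofReal_ne_top
    · exact ENNReal.rpow_ne_top_of_nonneg (by linarith) ENNReal.ofReal_ne_top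
  intro G₁ G₂ h1 h2 b1 b2 s1 s2
  have hbd := fun t : ℝ => hb0 idM hR t (pw G₁ G₂) (pw_meas G₁ G₂ h1 h2) (pw_norm G₁ G₂ b1 b2)
  have hm : Measurable fun q : Unit × ℝ × E 2 => op2 (hft_a c) idM q.2.1 (pw G₁ G₂) q.2.2 :=
    (measurable_op2 _ _ (hft_cut hc) (pw G₁ G₂) (pw_meas G₁ G₂ h1 h2)).comp
      (f := fun q : Unit × ℝ × E 2 => ((idM, q.2.1, q.2.2) : Mat 2 × ℝ × E 2)) (by fun_prop)
  have key := hsum (fun _ t x => op2 (hft_a c) idM t (pw G₁ G₂) x) hm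
    (ENNReal.ofReal C0) (ENNReal.ofReal C0) (ENNReal.ofReal (C * K))
    (fun _ t => (hbd t).2) (fun _ t x => by
      rw [← ofReal_norm]
      exact ENNReal.ofReal_le_ofReal ((hbd t).1 x)) (fun T hT => by
      rw [lintegral_dirac]
      refine (H T hT G₁ G₂ h1 h2 b1 b2 s1 s2).trans ?_
      rw [← ENNReal.ofReal_mul (by positivity)]
      apply ENNReal.ofReal_le_ofReal
      calc C * (1 + Real.log T) ^ 8 / T = C * ((1 + Real.log T) ^ 8 / T) := by ring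
        _ ≤ C * (K * T ^ (-β)) := mul_le_mul_of_nonneg_left (hKT T hT) hC
        _ = C * K * T ^ (-β) := by ring)
  rw [lintegral_dirac] at key
  exact key

theorem op2_Lp (c : ℝ) (hc : 0 < c) (h : L4H c) (p : ℝ) (hp : 3 < p) :
    ∃ C : ℝ≥0∞, C ≠ ∞ ∧ ∀ G₁ G₂ : ℝ → ℂ, Measurable G₁ → Measurable G₂ → (∀ a, ‖G₁ a‖ ≤ 1) →
    (∀ b, ‖G₂ b‖ ≤ 1) → (∀ a, G₁ a ≠ 0 → c ≤ |a|) → (∀ b, G₂ b ≠ 0 → c ≤ |b|) →
    ∫⁻ t : ℝ, ∫⁻ x : E 2, ‖op2 (hft_a c) idM t (pw G₁ G₂) x‖ₑ ^ p ≤ C := by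
  rcases lt_or_ge p 4 with hp4 | hp4
  · exact op2_Lp_lt c hc h p hp hp4
  · obtain ⟨C, hC, H⟩ := op2_Lp_lt c hc h (7 / 2) (by norm_num) (by norm_num)
    obtain ⟨C0, hC0, hb0⟩ := op2_bounds 2 (c ^ 2 / 4) (by positivity) (hft_a c) (hft_cut hc) 1
    have hR : ∀ w : E 2, hft_a c (vN idM w) ≠ 0 → ‖w‖ ≤ 1 := by
      intro w hw
      have h1 : ¬ (vN idM w ≤ c ^ 2 / 4) := fun h2 => hw ((hft_cut hc).2 _ h2)
      push Not at h1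
      unfold vN at h1
      rw [mv_idM] at h1
      have h2 : ‖w‖ ^ 2 < 1 := by nlinarith [sq_nonneg c]
      nlinarith [norm_nonneg w]
    have hK : ENNReal.ofReal C0 ^ (p - 7 / 2) ≠ ∞ :=
      ENNReal.rpow_ne_top_of_nonneg (by linarith) ENNReal.ofReal_ne_top
    refine ⟨ENNReal.ofReal C0 ^ (p - 7 / 2) * C, ENNReal.mul_ne_top hK hC, ?_⟩
    intro G₁ G₂ h1 h2 b1 b2 s1 s2
    have hbd := fun t : ℝ => hb0 idM hR t (pw G₁ G₂) (pw_meas G₁ G₂ h1 h2) (pw_norm G₁ G₂ b1 b2)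
    calc ∫⁻ t : ℝ, ∫⁻ x : E 2, ‖op2 (hft_a c) idM t (pw G₁ G₂) x‖ₑ ^ p
        ≤ ∫⁻ t : ℝ, ENNReal.ofReal C0 ^ (p - 7 / 2) *
            ∫⁻ x : E 2, ‖op2 (hft_a c) idM t (pw G₁ G₂) x‖ₑ ^ (7 / 2 : ℝ) := by
          refine lintegral_mono fun t => ?_
          rw [← lintegral_const_mul' _ _ hK]
          refine lintegral_mono fun x => ?_
          have h3 : ‖op2 (hft_a c) idM t (pw G₁ G₂) x‖ₑ ≤ ENNReal.ofReal C0 := by
            rw [← ofReal_norm]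
            exact ENNReal.ofReal_le_ofReal ((hbd t).1 x)
          have h4 : p = (p - 7 / 2) + 7 / 2 := by ring
          show ‖op2 (hft_a c) idM t (pw G₁ G₂) x‖ₑ ^ p ≤ _
          conv_lhs => rw [h4]
          rw [ENNReal.rpow_add_of_nonneg _ _ (by linarith) (by norm_num)]
          gcongr
          linarith
      _ = ENNReal.ofReal C0 ^ (p - 7 / 2) * ∫⁻ t : ℝ,
            ∫⁻ x : E 2, ‖op2 (hft_a c) idM t (pw G₁ G₂) x‖ₑ ^ (7 / 2 : ℝ) :=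
          lintegral_const_mul' _ _ hK
      _ ≤ ENNReal.ofReal C0 ^ (p - 7 / 2) * C := by
          gcongr
          exact H G₁ G₂ h1 h2 b1 b2 s1 s2

end Pool.Agent.N1
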