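import Pool.Agent.N1.W3
import Pool.Agent.MST.FS

/-!
N1, block W: from the chart to the spheres of all dimensions.
-/

namespace Pool.Agent.N1

open MeasureTheory Set Metric Pool.Agent.MP_6cbfb8_an Pool.Agent.MST
open scoped ENNReal Real

theorem base3 (c : ℝ) (hc : 0 < c) (h : L4H c) (p : ℝ) (hp : 3 < p) :
    ∃ C : ℝ≥0∞, C ≠ ∞ ∧ ∀ G₁ G₂ : ℝ → ℂ, Measurable G₁ → Measurable G₂ → (∀ a, ‖G₁ a‖ ≤ 1) →
    (∀ b, ‖G₂ b‖ ≤ 1) → (∀ a, G₁ a ≠ 0 → c ≤ |a|) → (∀ b, G₂ b ≠ 0 → c ≤ |b|) →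
    ∫⁻ ξ : E 3, ‖extn (hft_D (m := 2) c (pw G₁ G₂) idM) ξ‖ₑ ^ p ≤ C := by
  obtain ⟨C, hC, H⟩ := op2_Lp c hc h p hp
  obtain ⟨C', hC', H'⟩ := chart_two 2 (by norm_num) idM idM (fun w => by rw [mv_idM, mv_idM])
    (fun w => by rw [mv_idM, mv_idM]) (c ^ 2 / 4) (by positivity) (hft_a c) (hft_b c) (hft_cut hc)
    (hft_b_smooth _ 0).continuous.measurable (fun v _ _ => rfl) p (by linarith)
  refine ⟨C' * C, ENNReal.mul_ne_top hC' hC, ?_⟩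
  intro G₁ G₂ h1 h2 b1 b2 s1 s2
  refine (H' (pw G₁ G₂) (pw_meas G₁ G₂ h1 h2) (pw_norm G₁ G₂ b1 b2)).trans ?_
  gcongr
  exact H G₁ G₂ h1 h2 b1 b2 s1 s2

theorem prd_meas (c : ℝ) (G₁ G₂ : ℝ → ℂ) (h1 : Measurable G₁) (h2 : Measurable G₂) :
    Measurable (prd c G₁ G₂) := by
  unfold prd
  have a1 : Measurable fun w : E 2 => w 0 := by fun_prop
  have a2 : Measurable fun w : E 2 => w 1 := by fun_prop
  refine Measurable.ite ?_ ((h1.comp a1).mul (h2.comp a2)) measurable_const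
  have m1 : MeasurableSet {w : E 2 | c < |w 0|} :=
    measurableSet_lt measurable_const (by fun_prop)
  have m2 : MeasurableSet {w : E 2 | c < |w 1|} :=
    measurableSet_lt measurable_const (by fun_prop)
  have m3 : MeasurableSet {w : E 2 | w 0 ^ 2 + w 1 ^ 2 < 1 - c ^ 2} :=
    measurableSet_lt (by fun_prop) measurable_const
  exact m1.inter (m2.inter m3)

theorem prd_norm (c : ℝ) (G₁ G₂ : ℝ → ℂ) (b1 : ∀ a, ‖G₁ a‖ ≤ 1) (b2 : ∀ b, ‖G₂ b‖ ≤ 1)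
    (w : E 2) : ‖prd c G₁ G₂ w‖ ≤ 1 := by
  unfold prd
  split_ifs
  · rw [norm_mul]
    exact mul_le_one₀ (b1 _) (norm_nonneg _) (b2 _)
  · simp

/-- Restriction of a function to `|a| > c`. -/
noncomputable def ctr (c : ℝ) (G : ℝ → ℂ) (a : ℝ) : ℂ := if c < |a| then G a else 0

theorem ctr_meas (c : ℝ) (G : ℝ → ℂ) (h : Measurable G) : Measurable (ctr c G) := by
  unfold ctr
  exact Measurable.ite (measurableSet_lt measurable_const (by fun_prop)) h measurable_const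

theorem ctr_norm (c : ℝ) (G : ℝ → ℂ) (h : ∀ a, ‖G a‖ ≤ 1) (a : ℝ) : ‖ctr c G a‖ ≤ 1 := by
  unfold ctr
  split_ifs
  · exact h a
  · simp

theorem ctr_supp (c : ℝ) (G : ℝ → ℂ) (a : ℝ) (h : ctr c G a ≠ 0) : c ≤ |a| := by
  unfold ctr at h
  split_ifs at h with h1
  · exact h1.le
  · exact absurd rfl h

theorem up_eq (c : ℝ) (hc : 0 < c) (G₁ G₂ : ℝ → ℂ) (ξ : E 3) :
    extn (up 1 (prd c G₁ G₂)) ξ = extn (fun x : E 3 =>
      hft_D (m := 2) c (pw (ctr c G₁) (ctr c G₂)) idM x * ∏ _i : Fin 1, hsn c (eLast 2) x) ξ := by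
  unfold extn
  congr 1
  funext x
  congr 1
  have hx : ‖(x : E 3)‖ = 1 := by
    exact mem_sphere_zero_iff_norm.1 x.2
  have hx2 : (x : E 3) 0 ^ 2 + (x : E 3) 1 ^ 2 + (x : E 3) 2 ^ 2 = 1 := by
    have h1 := EuclideanSpace.norm_sq_eq (x : E 3)
    rw [hx] at h1
    simp only [Fin.sum_univ_three, Real.norm_eq_abs, sq_abs] at h1
    linarith
  have hlast : (x : E 3) (Fin.last 2) = (x : E 3) 2 := rfl
  show up 1 (prd c G₁ G₂) (x : E 3) =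
    hft_D (m := 2) c (pw (ctr c G₁) (ctr c G₂)) idM (x : E 3) *
      ∏ _i : Fin 1, hsn c (eLast 2) (x : E 3)
  rw [Fin.prod_univ_one]
  unfold up prd hft_D hsn pw ctr
  rw [inner_eLast, mv_idM, one_smul, hlast]
  have f0 : (fstE (k := 2) (l := 1) (x : E 3) : E 2) 0 = (x : E 3) 0 := rfl
  have f1 : (fstE (k := 2) (l := 1) (x : E 3) : E 2) 1 = (x : E 3) 1 := rfl
  rw [f0, f1]
  by_cases h2 : c < (x : E 3) 2
  · rw [if_pos (hc.trans h2), if_pos (hc.trans h2), if_pos h2, hft_b_one hc h2.le]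
    have h3 : (x : E 3) 0 ^ 2 + (x : E 3) 1 ^ 2 < 1 - c ^ 2 := by nlinarith
    by_cases h4 : c < |(x : E 3) 0|
    · by_cases h5 : c < |(x : E 3) 1|
      · rw [if_pos ⟨h4, h5, h3⟩, if_pos h4, if_pos h5]
        simp
      · rw [if_neg (by tauto), if_neg h5]
        simp
    · rw [if_neg (by tauto), if_neg h4]
      simp
  · rw [if_neg h2, mul_zero]
    by_cases h3 : 0 < (x : E 3) 2
    · rw [if_pos h3, if_neg]
      rintro ⟨-, -, h4⟩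
      nlinarith
    · rw [if_neg h3]

theorem up3 (c : ℝ) (hc : 0 < c) (h : L4H c) (p : ℝ) (hp : 3 < p) :
    ∃ C : ℝ≥0∞, C ≠ ∞ ∧ ∀ G₁ G₂ : ℝ → ℂ, Measurable G₁ → Measurable G₂ → (∀ a, ‖G₁ a‖ ≤ 1) →
    (∀ b, ‖G₂ b‖ ≤ 1) → ∫⁻ ξ : E 3, ‖extn (up 1 (prd c G₁ G₂)) ξ‖ₑ ^ p ≤ C := by
  obtain ⟨C, hC, H⟩ := multicut 3 le_rfl 3 (by norm_num)
    (fun g => ∃ G₁ G₂ : ℝ → ℂ, Measurable G₁ ∧ Measurable G₂ ∧ (∀ a, ‖G₁ a‖ ≤ 1) ∧
      (∀ b, ‖G₂ b‖ ≤ 1) ∧ (∀ a, G₁ a ≠ 0 → c ≤ |a|) ∧ (∀ b, G₂ b ≠ 0 → c ≤ |b|) ∧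
      g = hft_D (m := 2) c (pw G₁ G₂) idM) (by
      intro p' hp'
      obtain ⟨C, hC, H⟩ := base3 c hc h p' hp'
      refine ⟨C, hC, ?_⟩
      rintro g - - ⟨G₁, G₂, h1, h2, b1, b2, s1, s2, rfl⟩
      exact H G₁ G₂ h1 h2 b1 b2 s1 s2) 1 p hp
  refine ⟨C, hC, ?_⟩
  intro G₁ G₂ h1 h2 b1 b2
  have hm := ctr_meas c G₁ h1
  have hm' := ctr_meas c G₂ h2
  have hn := ctr_norm c G₁ b1
  have hn' := ctr_norm c G₂ b2
  have key := H (hft_D (m := 2) c (pw (ctr c G₁) (ctr c G₂)) idM)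
    (hft_D_meas c _ (pw_meas _ _ hm hm') idM) (hft_D_norm c _ (pw_norm _ _ hn hn') idM)
    ⟨ctr c G₁, ctr c G₂, hm, hm', hn, hn', ctr_supp c G₁, ctr_supp c G₂, rfl⟩
    (fun _ => eLast 2) (fun _ => c)
  refine le_trans (le_of_eq ?_) key
  refine lintegral_congr fun ξ => ?_
  rw [up_eq c hc]

theorem sph3 (c : ℝ) (hc : 0 < c) (h : L4H c) (p : ℝ) (hp : 3 < p) :
    ∃ C : ℝ≥0∞, C ≠ ∞ ∧ ∀ G : E 2 → ℂ, Measurable G → (∀ w, ‖G w‖ ≤ 1) →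
      (∃ G₁ G₂ : ℝ → ℂ, Measurable G₁ ∧ Measurable G₂ ∧ (∀ a, ‖G₁ a‖ ≤ 1) ∧
      (∀ b, ‖G₂ b‖ ≤ 1) ∧ G = prd c G₁ G₂) →
      ∫⁻ ξ : E 3, ‖extn (fun x : E 3 => G (fstE (k := 2) (l := 1) x)) ξ‖ₑ ^ p ≤ C := by
  obtain ⟨C, hC, H⟩ := up3 c hc h p hp
  refine ⟨2 ^ (p + 1) * C, ENNReal.mul_ne_top (ENNReal.rpow_ne_top_of_nonneg (by linarith)
    ENNReal.ofNat_ne_top) hC, ?_⟩
  rintro G hG hb ⟨G₁, G₂, h1, h2, b1, b2, rfl⟩
  have h3 := dens_le p (by linarith) 1 (prd c G₁ G₂) hG hb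
  have h4 : dens 1 (prd c G₁ G₂) = fun x : E 3 => prd c G₁ G₂ (fstE (k := 2) (l := 1) x) := by
    funext x
    unfold dens
    rw [one_smul]
  rw [h4] at h3
  refine h3.trans ?_
  gcongr
  exact H G₁ G₂ h1 h2 b1 b2

theorem prd_meas2 {W : Type*} [MeasurableSpace W] (l : ℕ) (c : ℝ) (G₁ G₂ : W → ℝ → ℂ)
    (h1 : Measurable fun q : W × ℝ => G₁ q.1 q.2) (h2 : Measurable fun q : W × ℝ => G₂ q.1 q.2) :
    Measurable fun q : W × E (2 + l) => prd c (G₁ q.1) (G₂ q.1) (fstE q.2) := by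
  unfold prd
  have a1 : Measurable fun q : W × E (2 + l) => (fstE q.2 : E 2) 0 := by
    unfold fstE
    fun_prop
  have a2 : Measurable fun q : W × E (2 + l) => (fstE q.2 : E 2) 1 := by
    unfold fstE
    fun_prop
  have b1 : Measurable fun q : W × E (2 + l) => G₁ q.1 ((fstE q.2 : E 2) 0) :=
    h1.comp (measurable_fst.prodMk a1)
  have b2 : Measurable fun q : W × E (2 + l) => G₂ q.1 ((fstE q.2 : E 2) 1) :=
    h2.comp (measurable_fst.prodMk a2)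
  refine Measurable.ite ?_ (b1.mul b2) measurable_const
  have m1 : MeasurableSet {q : W × E (2 + l) | c < |(fstE q.2 : E 2) 0|} :=
    measurableSet_lt measurable_const (continuous_abs.measurable.comp a1)
  have m2 : MeasurableSet {q : W × E (2 + l) | c < |(fstE q.2 : E 2) 1|} :=
    measurableSet_lt measurable_const (continuous_abs.measurable.comp a2)
  have m3 : MeasurableSet {q : W × E (2 + l) |
      (fstE q.2 : E 2) 0 ^ 2 + (fstE q.2 : E 2) 1 ^ 2 < 1 - c ^ 2} :=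
    measurableSet_lt ((a1.pow_const 2).add (a2.pow_const 2)) measurable_const
  exact m1.inter (m2.inter m3)

theorem main_of (l : ℕ) (hl : 1 ≤ l) (N : ℕ) (c p : ℝ) (hc : 0 < c) (h : L4H c)
    (hp : 2 * ((l : ℝ) + 2) / (l + 1) < p) :
    ∃ C : ℝ≥0∞, C ≠ ⊤ ∧ ∀ (W : Type) (_ : MeasurableSpace W) (ν : Measure W)
      (_ : IsFiniteMeasure ν) (R : W → (E (2 + l) ≃ₗᵢ[ℝ] E (2 + l))) (η : W → E (2 + l))
      (G₁ G₂ : W → ℝ → ℂ) (v : W → Fin N → E (2 + l)) (e : W → Fin N → ℝ),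
      (Measurable fun q : W × E (2 + l) => R q.1 q.2) → Measurable η →
      (Measurable fun q : W × ℝ => G₁ q.1 q.2) → (Measurable fun q : W × ℝ => G₂ q.1 q.2) →
      Measurable v → Measurable e → (∀ w z, ‖G₁ w z‖ ≤ 1) → (∀ w z, ‖G₂ w z‖ ≤ 1) →
      ∫⁻ ξ, ‖extn (mix ν R η fun w x =>
        prd c (G₁ w) (G₂ w) (fstE x) * ∏ i, hsn (e w i) (v w i) x) ξ‖ₑ ^ p ≤ C * ν univ ^ p := by
  obtain ⟨C, hC, H⟩ := transfer (fun G => ∃ G₁ G₂ : ℝ → ℂ, Measurable G₁ ∧ Measurable G₂ ∧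
    (∀ a, ‖G₁ a‖ ≤ 1) ∧ (∀ b, ‖G₂ b‖ ≤ 1) ∧ G = prd c G₁ G₂) (fun p hp => sph3 c hc h p hp)
    l hl N p hp
  refine ⟨C, hC, ?_⟩
  intro W _ ν _ R η G₁ G₂ v e hR hη h1 h2 hv he b1 b2
  have hp1 : 1 ≤ p := by
    have hl1 : (1:ℝ) ≤ l := by exact_mod_cast hl
    refine le_trans ?_ hp.le
    rw [le_div_iff₀ (by linarith)]
    linarith
  refine lintegral_mix_le hp1 (fun g => ∃ (G₁ G₂ : ℝ → ℂ) (v' : Fin N → E (2 + l))
    (e' : Fin N → ℝ), Measurable G₁ ∧ Measurable G₂ ∧ (∀ a, ‖G₁ a‖ ≤ 1) ∧ (∀ b, ‖G₂ b‖ ≤ 1) ∧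
    g = fun x => prd c G₁ G₂ (fstE x) * ∏ i, hsn (e' i) (v' i) x) ?_ ν R η _ hR hη ?_ ?_ ?_
  · rintro g - - ⟨G₁', G₂', v', e', m1, m2, n1, n2, rfl⟩
    exact H (prd c G₁' G₂') (prd_meas c _ _ m1 m2) (prd_norm c _ _ n1 n2)
      ⟨G₁', G₂', m1, m2, n1, n2, rfl⟩ v' e'
  · have k1 := prd_meas2 l c G₁ G₂ h1 h2
    have k2 : Measurable fun q : W × E (2 + l) => ∏ i, hsn (e q.1 i) (v q.1 i) q.2 := by
      refine Finset.measurable_prod _ fun i _ => ?_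
      unfold hsn
      refine Measurable.ite ?_ measurable_const measurable_const
      have h3 : Measurable fun q : W × E (2 + l) => e q.1 i :=
        (measurable_pi_iff.1 he i).comp measurable_fst
      have h4 : Measurable fun q : W × E (2 + l) => v q.1 i :=
        (measurable_pi_iff.1 hv i).comp measurable_fst
      exact measurableSet_lt h3 (measurable_snd.inner h4)
    exact k1.mul k2
  · intro w x
    rw [norm_mul]
    exact mul_le_one₀ (prd_norm c _ _ (b1 w) (b2 w) _) (norm_nonneg _) (norm_prod_hsn_le _ _ _)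
  · intro w
    exact ⟨G₁ w, G₂ w, v w, e w, h1.comp (f := fun z : ℝ => (w, z)) (by fun_prop),
      h2.comp (f := fun z : ℝ => (w, z)) (by fun_prop), b1 w, b2 w, rfl⟩

end Pool.Agent.N1
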